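import Mathlib
import Pool.Agent.PolyTime.Classes

set_option autoImplicit false

/-!
# AK: majority of CNFs, leading digits of #SAT, and the Ackermann function (MP_4ed1f9_lc)

Definitions. A CNF is a list of clauses, a clause a list of literals, a literal a pair (name, sign), names are binary strings
(the format of the problem). `PolyTime f` (`Pool/Agent/PolyTime`): `f` is computed in polynomial time by one of Mathlib's Turing
machines (`Turing.TM2ComputableInPolyTime`) with respect to the encodings `PEnc` (numbers in binary).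

Index: `A j` is the function `A_(j+2)` of the paper, `A_2(x) = x + 2^(x+1)`, `A_(k+1)(x) = x + 1 + A_k^(x+1)(0)`.
-/

namespace Pool.Agent.AK

open Pool.Agent.PolyTime

/-- Variable names are finite binary strings. -/
abbrev Name := List Bool

/-- A literal: name and sign. -/
abbrev Lit := Name × Bool

/-- A clause. -/
abbrev Clause := List Lit

/-- A CNF formula. -/
abbrev CNF := List Clause

/-- The variables that occur. -/
def vars (φ : CNF) : Finset Name := (φ.flatten.map Prod.fst).toFinset

/-- The number of variables that occur. -/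
def nv (φ : CNF) : ℕ := (vars φ).card

/-- The assignment which is true exactly on `S` satisfies `φ`. -/
def Sat (S : Finset Name) (φ : CNF) : Prop := ∀ C ∈ φ, ∃ l ∈ C, (l.1 ∈ S ↔ l.2 = true)

instance (S : Finset Name) (φ : CNF) : Decidable (Sat S φ) := by
  unfold Sat
  infer_instance

/-- The number of satisfying assignments (of the variables that occur). -/
def count (φ : CNF) : ℕ := ((vars φ).powerset.filter fun S => Sat S φ).card

/-- The maximal length of a clause. -/
def width (φ : CNF) : ℕ := φ.foldr (fun C w => max C.length w) 0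

/-- All literals are positive. -/
def Mono (φ : CNF) : Prop := ∀ C ∈ φ, ∀ l ∈ C, l.2 = true

/-- The Ackermann hierarchy: `A 0 x = x + 2^(x+1)`, `A (j+1) x = x + 1 + (A j)^(x+1) (0)`. -/
def A : ℕ → ℕ → ℕ
  | 0, x => x + 2 ^ (x + 1)
  | j + 1, x => x + 1 + (A j)^[x + 1] 0

/-- `B k q = A_(k-1)^(q) (0)`, for `k ≥ 3`. -/
def B (k q : ℕ) : ℕ := (A (k - 3))^[q] 0

/-- `alk k n` is the least `q` with `n ≤ B k q` (for `k = 3` this is `log* n + O(1)`). -/
noncomputable def alk (k n : ℕ) : ℕ := sInf {q | n ≤ B k q}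

/-- Inverse Ackermann function: the least `k ≥ 4` with `n ≤ B (k-1) (k-1)`. -/
noncomputable def al (n : ℕ) : ℕ := sInf {k | 4 ≤ k ∧ n ≤ B (k - 1) (k - 1)}

/-- The fraction of satisfying assignments. -/
def dens (φ : CNF) : ℚ := count φ / 2 ^ nv φ

/-- Polynomial time computable function of a number in unary. -/
def UPoly (τ : ℕ → ℕ) : Prop := PolyTime fun l : List Unit => τ l.length

/-- **M1**: majority of CNFs of width at most `al n - 2` is in P. -/
def StM1 : Prop := ∃ F : CNF → Bool, PolyTime F ∧ ∀ φ, width φ + 2 ≤ al (nv φ) →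
  (F φ = true ↔ 2 ^ nv φ ≤ 2 * count φ)

/-- **M2**: majority of monotone CNFs of width at most `al n` is in P iff #SAT is in FP. -/
def StM2 : Prop := (∃ G : CNF → Bool, PolyTime G ∧ ∀ φ, width φ ≤ al (nv φ) → Mono φ →
  (G φ = true ↔ 2 ^ nv φ ≤ 2 * count φ)) ↔ PolyTime count

/-- **B1**: the first `(1-ε) alk k n` digits of `#φ` are computed in polynomial time, `φ` a `k`-CNF. -/
def StB1 : Prop := ∀ k : ℕ, 3 ≤ k → ∀ ε : ℝ, 0 < ε → ∃ F : CNF → ℕ, PolyTime F ∧ ∀ φ, width φ ≤ k →
  ∀ t : ℕ, (t : ℝ) ≤ (1 - ε) * alk k (nv φ) → F φ / 2 ^ (nv φ - t) = count φ / 2 ^ (nv φ - t)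

/-- **B2**: the question `#φ ≥ 2^(n - τ n)`, `φ` a monotone `k`-CNF, for `alk k n ≤ τ n ≤ n - n^δ`, is in P iff #SAT is in FP. -/
def StB2 : Prop := ∀ k : ℕ, 3 ≤ k → ∀ τ : ℕ → ℕ, UPoly τ → (∃ d n0 : ℕ, ∀ n, n0 ≤ n → alk k n ≤ τ n ∧ n ≤ (n - τ n) ^ d) →
  ((∃ G : CNF → Bool, PolyTime G ∧ ∀ φ, width φ ≤ k → Mono φ →
    (G φ = true ↔ 2 ^ (nv φ - τ (nv φ)) ≤ count φ)) ↔ PolyTime count)

/-- **B3**: `τ = alk k` satisfies the hypotheses of B2. -/
def StB3 : Prop := ∀ k : ℕ, 3 ≤ k → UPoly (alk k) ∧ ∃ n0 : ℕ, ∀ n, n0 ≤ n → n ≤ (n - alk k n) ^ 2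

/-! ### Auxiliary notions -/

/-- The probability of `p` for a uniformly random subset of `V`. -/
def Pr (V : Finset Name) (p : Finset Name → Prop) [DecidablePred p] : ℚ :=
  ((V.powerset.filter p).card : ℚ) / 2 ^ V.card

/-- Setting `x := b`: remove the satisfied clauses, delete the false literals. -/
def res (x : Name) (b : Bool) (φ : CNF) : CNF :=
  (φ.filter fun C => !decide ((x, b) ∈ C)).map fun C => C.filter fun l => !decide (l.1 = x)

/-- No clause contains a variable twice (so no clause is a tautology). -/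
def Nt (φ : CNF) : Prop := ∀ C ∈ φ, (C.map Prod.fst).Nodup

/-- Equivalent formula in the sense of `Nt`: remove tautological clauses and repeated literals. -/
def nrm (φ : CNF) : CNF :=
  (φ.filter fun C => !C.any fun l => decide ((l.1, !l.2) ∈ C)).map fun C => C.dedup

end Pool.Agent.AK
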