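import Mathlib
import Pool.Agent.AK.Defs
import Pool.Agent.PolyTime.More

set_option autoImplicit false

/-!
# AK, statements A: basics on `Pr`, `dens`, and the easy side (the algorithm)

Every `def St...` is one module: `theorem ... : StX → StY → StZ` in its own file `Pool/Agent/AK/<Name>.lean`. A module may assume
other statements of this file as hypotheses, as said in its docstring (`uses`).
-/

namespace Pool.Agent.AK

open Pool.Agent.PolyTime

/-! ### A. Basics -/

/-- `Pr` of an event that depends only on the variables in `U ⊆ V` may be computed in `U`.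

Proof. It suffices to add one variable `x ∉ V` at a time (induction on the finset `V \ U`): `(insert x V).powerset` is the disjoint
union of `V.powerset` and its image under `insert x` (`Finset.powerset_insert`), the event has the same truth value on `S` and on
`insert x S` because `(insert x S) ∩ U = S ∩ U`. Or directly: fibres of `S ↦ S ∩ U` have `2^(|V| - |U|)` elements. -/
def StPrExt : Prop := ∀ (U V : Finset Name) (p : Finset Name → Prop) [DecidablePred p], U ⊆ V →
  (∀ S, p S ↔ p (S ∩ U)) → Pr V p = Pr U p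

/-- Independence of events depending on disjoint sets of variables.

Proof. The subsets `S` of `U ∪ W` with `p S ∧ q S` correspond by `S ↦ (S ∩ U, S ∩ W)` to the pairs `(P, Q)`, `P ⊆ U`, `Q ⊆ W`,
`p P`, `q Q` (inverse `(P, Q) ↦ P ∪ Q`); `|U ∪ W| = |U| + |W|`. -/
def StPrMul : Prop := ∀ (U W : Finset Name) (p q : Finset Name → Prop) [DecidablePred p] [DecidablePred q], Disjoint U W →
  (∀ S, p S ↔ p (S ∩ U)) → (∀ S, q S ↔ q (S ∩ W)) → Pr (U ∪ W) (fun S => p S ∧ q S) = Pr U p * Pr W q

/-- Boolean rules for `Pr`. Proof. Cardinalities of filters of `V.powerset`, which has `2^|V|` elements; the last one: the subsets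
of `V` that contain `x ∈ V` are `2^(|V|-1)` many. -/
def StPrBool : Prop := ∀ (V : Finset Name) (p q : Finset Name → Prop) [DecidablePred p] [DecidablePred q],
  0 ≤ Pr V p ∧ Pr V p ≤ 1 ∧
  ((∀ S, S ⊆ V → p S → q S) → Pr V p ≤ Pr V q) ∧
  ((∀ S, S ⊆ V → (p S ↔ q S)) → Pr V p = Pr V q) ∧
  Pr V (fun S => p S ∨ q S) ≤ Pr V p + Pr V q ∧
  ((∀ S, S ⊆ V → ¬ (p S ∧ q S)) → Pr V (fun S => p S ∨ q S) = Pr V p + Pr V q) ∧
  Pr V (fun S => ¬ p S) = 1 - Pr V p ∧
  Pr V (fun _ => True) = 1 ∧ Pr V (fun _ => False) = 0 ∧
  ∀ x ∈ V, Pr V (fun S => x ∈ S) = 1 / 2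

/-- `Sat` depends only on the variables of the formula, and `dens` may be computed over any larger set of variables.

Proof. First part: the variables of the literals of `φ` lie in `vars φ ⊆ V`. Second part: `dens φ = Pr (vars φ) (Sat · φ)` by
definition, then `StPrExt`. `uses StPrExt`. -/
def StDensPr : Prop := ∀ (φ : CNF) (V : Finset Name), vars φ ⊆ V →
  (∀ S, Sat S φ ↔ Sat (S ∩ V) φ) ∧ dens φ = Pr V (fun S => Sat S φ)

/-- Elementary facts on `dens`. Proof. `dens φ` is a `Pr`; `Sat S []` always holds, `Sat S φ` never if `[] ∈ φ`; the monotonicity is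
computed over `vars φ ∪ vars ψ` by `StDensPr`. `uses StPrBool, StDensPr`. -/
def StDensB : Prop := (∀ φ : CNF, 0 ≤ dens φ ∧ dens φ ≤ 1) ∧ dens [] = 1 ∧ (∀ φ : CNF, [] ∈ φ → dens φ = 0) ∧
  (∀ φ ψ : CNF, (∀ S, Sat S φ → Sat S ψ) → dens φ ≤ dens ψ) ∧
  (∀ φ ψ : CNF, (∀ S, Sat S φ ↔ Sat S ψ) → dens φ = dens ψ) ∧
  (∀ φ : CNF, (count φ : ℚ) = dens φ * 2 ^ nv φ)

/-- Densities multiply for disjoint sets of variables. Proof. `vars (φ ++ ψ) = vars φ ∪ vars ψ`, `Sat S (φ ++ ψ) ↔ Sat S φ ∧ Sat S ψ`,
`StPrMul`. `uses StPrMul, StDensPr`. -/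
def StDensMul : Prop := ∀ φ ψ : CNF, Disjoint (vars φ) (vars ψ) → dens (φ ++ ψ) = dens φ * dens ψ

/-- Restriction. `vars (res x b φ) ⊆ (vars φ).erase x`; `Sat S (res x b φ) ↔ Sat S φ` if `x ∈ S ↔ b = true`; the density is the mean
of the densities of the two restrictions; clauses only become shorter, `Nt` is kept.

Proof. Density: over `V = insert x (vars φ)`: `Pr V (Sat · φ) = Pr V (x ∈ S ∧ Sat S (res x true φ)) + Pr V (x ∉ S ∧ Sat S (res x false φ))`
(disjoint, `StPrBool`), and `Sat S (res x b φ)` depends only on `V.erase x`: the two terms are `1/2 * dens (res x true φ)` and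
`1/2 * dens (res x false φ)` by `StPrMul` with `U = {x}`. `uses StPrMul, StPrBool, StDensPr`. -/
def StRes : Prop := ∀ (x : Name) (φ : CNF),
  dens φ = (dens (res x true φ) + dens (res x false φ)) / 2 ∧
  ∀ b : Bool, vars (res x b φ) ⊆ (vars φ).erase x ∧ (∀ S, (x ∈ S ↔ b = true) → (Sat S (res x b φ) ↔ Sat S φ)) ∧
    width (res x b φ) ≤ width φ ∧ (Nt φ → Nt (res x b φ))

/-- Normalisation. Proof. A removed clause contains `(y, s)` and `(y, !s)`, so it is satisfied by every assignment; `List.dedup` keeps
the set of literals: hence `Sat S (nrm φ) ↔ Sat S φ`. `Nt`: in a remaining clause two literals with the same name have the same sign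
(otherwise the clause was removed), so they are equal, and `dedup` has no repetition. Width: `dedup` is a sublist. `uses StDensB`. -/
def StNrm : Prop := ∀ φ : CNF, (∀ S, Sat S (nrm φ) ↔ Sat S φ) ∧ dens (nrm φ) = dens φ ∧ width (nrm φ) ≤ width φ ∧ Nt (nrm φ) ∧
  vars (nrm φ) ⊆ vars φ

/-! ### B. The algorithm of the easy side -/

/-- The branching variable: first variable of the first clause (default the empty name). -/
def fv : CNF → Name
  | (l :: _) :: _ => l.1
  | _ => []

/-- One step of the branching: every formula of the list is replaced by its two restrictions. -/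
def sp (L : List CNF) : List CNF := L.flatMap fun f => [res (fv f) true f, res (fv f) false f]

/-- The `2^M` leaves. -/
def leaves (M : ℕ) (φ : CNF) : List CNF := sp^[M] [φ]

/-- The number of formulas of the list without empty clause. -/
def alive (L : List CNF) : ℕ := (L.filter fun f => f.all fun C => !C.isEmpty).length

/-- The number of formulas of the list without empty clause which are not the empty CNF. -/
def unf (L : List CNF) : ℕ := (L.filter fun f => !f.isEmpty && f.all fun C => !C.isEmpty).length

/-- The leaves. `(leaves M φ).length = 2^M`; `dens φ` is the mean of the densities; a leaf which is not alive has density 0 and the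
empty CNF has density 1; so `dens φ ≤ alive / 2^M ≤ dens φ + unf / 2^M`. If `M ≥ nv φ` then no leaf is unfinished.

Proof. Induction on `M` with `leaves (M+1) φ = sp (leaves M φ)` and `StRes`. For the last claim: along a branch either `f` has a clause
`[]`, which stays (`res x b` keeps `[]`), or `f = []`, which stays, or `fv f` occurs in `f` and `nv` drops by at least one; a formula
with `nv f = 0` is `[]` or consists of empty clauses. (Invariant: every leaf `f` of depth `M` has `[] ∈ f`, or `f = []`, or
`nv f + M ≤ nv φ`.) `uses StRes, StDensB`. -/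
def StLeaves : Prop := ∀ (M : ℕ) (φ : CNF), (leaves M φ).length = 2 ^ M ∧
  dens φ ≤ (alive (leaves M φ) : ℚ) / 2 ^ M ∧
  (alive (leaves M φ) : ℚ) / 2 ^ M ≤ dens φ + (unf (leaves M φ) : ℚ) / 2 ^ M ∧
  (nv φ ≤ M → unf (leaves M φ) = 0)

/-- The fraction of unfinished leaves is small: `unf (leaves M φ) ≤ 2^M * (1 - 2^(-k))^(M / k)` for CNFs `φ` with `Nt φ` and
`width φ ≤ k`.

Proof. Let `v M f = unf (leaves M f) / 2^M`. (1) `v (M+1) f = (v M (res x true f) + v M (res x false f)) / 2`, `x = fv f` (since
`leaves (M+1) f = leaves M (res x true f) ++ leaves M (res x false f)`, because `sp (A ++ B) = sp A ++ sp B`, `Function.iterate_succ`).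
(2) `v (M+1) f ≤ v M f` (an unfinished formula has two restrictions; a finished one, `[]` or with a clause `[]`, has finished ones).
(3) Let `V M` bound `v M f` for all `f` with `Nt f`, `width f ≤ k` (claim: `v M f ≤ (1 - 2^(-k))^(M/k)`, strong induction on `M`).
If `f` has an empty clause or `f = []`: `v = 0`. Otherwise the first clause `C` has `1 ≤ j ≤ k` literals with distinct variables; if
`M < k`, `M / k = 0` and `v ≤ 1`. Let `M ≥ k ≥ j`. Sub-induction on the length `i ≤ M` of the first clause: if the first clause of `g`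
has length `i` (`g` any formula, `Nt`, width ≤ `k`) and `β ≥ 0` bounds `v (M') h` for all `h` and all `M' ≥ M - i`, `M' < M`, then
`v M g ≤ (1 - 2^(-i)) β`: for `i = 0` the formula is dead, `v = 0`. For `i > 0` set the first variable `x = fv g` of the clause:
one value satisfies the clause (this child has `v (M-1) ≤ β`), the other one leaves a formula whose first clause has length `i - 1`
(`res` keeps the order of the clauses; `Nt`: only this literal is deleted), for which `v (M-1) ≤ (1 - 2^(-(i-1))) β`; the mean is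
`≤ (β + (1 - 2^(-(i-1))) β) / 2 = (1 - 2^(-i)) β`. Take `β = (1 - 2^(-k))^((M-j)/k)`, which is `≤ (1-2^(-k))^((M-k)/k)` and a bound for
all `M' ≥ M - j` (powers of a number in `[0,1]`). `(1 - 2^(-j)) ≤ (1 - 2^(-k))` and `(M-k)/k + 1 = M/k`. `uses StRes`. -/
def StUnf : Prop := ∀ (k M : ℕ) (φ : CNF), 1 ≤ k → Nt φ → width φ ≤ k →
  (unf (leaves M φ) : ℝ) / 2 ^ M ≤ (1 - (1 / 2 : ℝ) ^ k) ^ (M / k)

/-- The error is below `2^(-H)` as soon as `M ≥ k * 2^k * (H + 1)`.

Proof. `M / k ≥ 2^k * (H+1)` (natural division), `(1 - x)^(2^k (H+1)) ≤ exp (-x 2^k (H+1)) = exp (-(H+1)) < 2^(-H)` for `x = 2^(-k)`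
(`Real.one_sub_le_exp_neg`, `exp (-1) ≤ 1/2`). `uses StUnf`. -/
def StErr : Prop := ∀ (k M H : ℕ) (φ : CNF), 1 ≤ k → Nt φ → width φ ≤ k → k * 2 ^ k * (H + 1) ≤ M →
  (unf (leaves M φ) : ℚ) / 2 ^ M < (1 / 2 : ℚ) ^ H

/-- The estimate of the density by the algorithm with `M = Nat.size n + C` steps, `n = nv φ`: `est C φ` is the number of alive leaves.-/
def est (C : ℕ) (φ : CNF) : ℕ := alive (leaves (Nat.size (nv φ) + C) (nrm φ))

/-- The estimate is computed in polynomial time.

Proof. `nrm` is in polynomial time: `PolyTime.filter`, `PolyTime.any`, `PolyTime.decide_mem`, `PolyTime.map`; `List.dedup` by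
`foldr` (`a :: l ↦ if a ∈ dedup l then dedup l else a :: dedup l`, `List.dedup_cons_of_mem'`), the results are sublists, so the size
is bounded. `nv` by `StRN` (`StR.lean`). `sp` by `flatMap`, `res` by
`filter`, `map`. Iterate `sp` (`PolyTime.iterate` with `n a = Nat.size (nv φ) + C`, `PBd` since `Nat.size x ≤ x ≤ size φ`): a list
of `2^i` formulas, `2^i ≤ 2^C * 2 * (nv φ + 1)`, each of size at most `size φ` (`res` deletes literals and clauses; invariant by
induction on `i`); so the sizes are at most `2^(C+1) * (size φ + 1) * (2 * size φ + 1)`. `uses StRN` (`StR.lean`). -/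
def StEst : Prop := (∀ C : ℕ, PolyTime (est C)) ∧ PolyTime nv ∧ PolyTime nrm ∧
  PolyTime (fun φ : CNF => List.replicate (nv φ) ()) ∧ PolyTime (fun p : Name × Bool × CNF => res p.1 p.2.1 p.2.2)

end Pool.Agent.AK
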