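import Pool.Agent.AK.StG
import Pool.Agent.AK.StA

set_option autoImplicit false

/-!
# AK, part G2: the form of the gap lemma used by the assembly of the easy side (helper28)
-/

namespace Pool.Agent.AK

/-- **GapM1** (hypotheses `StGap`, `StGrow1`, `StNrm`). Proof. Let `C1` be the constant of `StGrow1`, `K` the maximum of `al n`, `n ≤ C1`,
`C = C1 + K * 2^K * (C1 + 2)`. If `nv φ ≤ C1`: `Hx = nv φ + 1` (`dens φ` is a multiple of `2^(-nv φ)`) and `max 1 (width φ) ≤ K`.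
Otherwise take `k` from `StGrow1` and `Hx = H k 1`; `StGap` for `nrm φ` with `t = 1`, `m = 1`. -/
def StGapM1 : Prop := ∃ C : ℕ, ∀ φ : CNF, width φ + 2 ≤ al (nv φ) →
  ∃ Hx : ℕ, max 1 (width φ) * 2 ^ max 1 (width φ) * (Hx + 1) ≤ Nat.size (nv φ) + C ∧
    (dens φ < 1 / 2 → dens φ ≤ 1 / 2 - (1 / 2 : ℚ) ^ Hx)

/-- **GapB1** (hypotheses `StGap`, `StGrow2`, `StNrm`). Proof. `StGrow2`, `Hx = H k t`, `StGap` for `nrm φ`. -/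
def StGapB1 : Prop := ∀ k : ℕ, 3 ≤ k → ∀ ε : ℝ, 0 < ε → ∃ C : ℕ, ∀ φ : CNF, width φ ≤ k →
  ∀ t : ℕ, (t : ℝ) ≤ (1 - ε) * alk k (nv φ) → t ≤ nv φ ∧
    ∃ Hx : ℕ, k * 2 ^ k * (Hx + 1) ≤ Nat.size (nv φ) + C ∧
      ∀ m : ℕ, dens φ < (m : ℚ) / 2 ^ t → dens φ ≤ (m : ℚ) / 2 ^ t - (1 / 2 : ℚ) ^ Hx

end Pool.Agent.AK
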