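import Mathlib
import Pool.Agent.AK.Defs
import Pool.Agent.PolyTime.More

set_option autoImplicit false

/-!
# AK, statements P: the hard side (one-hot formulas, stars, gap gadgets, thresholds)

Every `def St...` is one module: `theorem ... : StX → StY → StZ` in its own file `Pool/Agent/AK/<Name>.lean`; `uses` lists the
statements (of this file or of `StA.lean`) which may be assumed.
-/

namespace Pool.Agent.AK

open Pool.Agent.PolyTime

/-! ### A. Constructions -/

/-- The list of the unary names `1^i`, `i < n`. -/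
def una (n : ℕ) : List Name := (List.range n).map fun i => List.replicate i true

/-- The name of the variable `x` in piece `a` (`a` a unary name). Injective in `(a, x)` for unary `a`. -/
def tag (a x : Name) : Name := false :: (a ++ false :: x)

/-- Renaming of the variables. -/
def ren (f : Name → Name) (φ : CNF) : CNF := φ.map fun C => C.map fun l => (f l.1, l.2)

/-- Conjunction of the pieces with disjoint variables. -/
def cj (L : List CNF) : CNF := ((una L.length).zip L).flatMap fun p => ren (tag p.1) p.2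

/-- At most one of the selectors `true :: 1^i`, `i < n`, is false. -/
def ohp (n : ℕ) : CNF := (una n).flatMap fun a =>
  ((una n).filter fun b => decide (b.length < a.length)).map fun b => [(true :: b, true), (true :: a, true)]

/-- One-hot formula: at most one selector is false, and if the selector of a piece is false then the piece is satisfied. -/
def oh (L : List CNF) : CNF := ohp L.length ++
  ((una L.length).zip L).flatMap fun p => (ren (tag p.1) p.2).map fun C => (true :: p.1, true) :: C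

/-- `r` forced variables. -/
def forced (r : ℕ) : CNF := (una r).map fun a => [(a, true)]

/-- A star with `r` leaves: `[true]` or all leaves. -/
def st (r : ℕ) : CNF := (una r).map fun a => [([true], true), (false :: a, true)]

/-- One clause with `q` literals. -/
def bigc (q : ℕ) : CNF := [(una q).map fun a => (a, true)]

/-- The parameter `ℓ` of the star gadget. -/
def ell (m e : ℕ) : ℕ := min (e + 1) (Nat.size m)

/-- Star gadget: `e + 1 - ℓ` forced variables and stars with `2^i` leaves, `i < ℓ`: density `2^(-e) - 2^(-(e + 2^ℓ))`. -/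
def star (m e : ℕ) : CNF := cj (forced (e + 1 - ell m e) :: (List.range (ell m e)).map fun i => st (2 ^ i))

/-- A table: its `e`-th entry `(s, g)` is a formula `g` of density `2^(-e) - 2^(-s)`. -/
abbrev Tab := List (ℕ × CNF)

/-- One step of the chain `0 → s(0) → s(s(0)) → ...`; beyond the table the chain stays, the piece is the formula `[[]]` of density 0. -/
def cst (T : Tab) (p : List CNF × ℕ) : List CNF × ℕ :=
  match T[p.2]? with
  | some r => (p.1 ++ [r.2], r.1)
  | none => (p.1 ++ [[[]]], p.2)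

/-- The chain of `q` steps: list of pieces and last exponent. -/
def ch (T : Tab) (q : ℕ) : List CNF × ℕ := (cst T)^[q] ([], 0)

/-- The next table. -/
def stp (T : Tab) : Tab := (List.range T.length).map fun e => (e + 1 + (ch T (e + 1)).2, oh (ch T (e + 1)).1)

/-- The table of stars. -/
def tab0 (m : ℕ) : Tab := (List.range m).map fun e => (e + 2 ^ ell m e, star m e)

/-- The tables. -/
def tab (m j : ℕ) : Tab := stp^[j] (tab0 m)

/-- The threshold instance: for `c = ch T q`, `M = c.2 ≥ e`, it has density `≥ 2^(-q)` iff `dens D ≥ 2^(-e)`. -/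
def Phi (T : Tab) (q : ℕ) (D : CNF) (e : ℕ) : CNF := oh ((ch T q).1 ++ [cj [D, forced ((ch T q).2 - e)]])

/-- The majority instance. -/
def Maj (T : Tab) (q : ℕ) (D : CNF) (e : ℕ) : CNF := oh [bigc q, Phi T q D e]

/-- Padding with `w` free variables and `u` forced variables, for a one-hot formula with `r ≥ 2` pieces. -/
def fpad (r : ℕ) (φ : CNF) (w u : ℕ) : CNF :=
  φ ++ (una w).map (fun a => [([true], true), ([true, true], true), (tag (List.replicate r true) a, true)]) ++
    (una u).map (fun a => [(tag (List.replicate (r + 1) true) a, true)])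

/-- What a table of level `j` with parameter `m` must satisfy. -/
def Good (m j : ℕ) (T : Tab) : Prop := T.length = m ∧ ∀ e, ∀ h : e < T.length,
  dens T[e].2 = (1 / 2 : ℚ) ^ e - (1 / 2 : ℚ) ^ T[e].1 ∧ min (A j e) m ≤ T[e].1 ∧ 2 * e + 1 ≤ T[e].1 ∧
  T[e].1 ≤ (j + 2) * (2 * m + 2) ∧ Mono T[e].2 ∧ width T[e].2 ≤ j + 2

/-! ### B. Densities -/

/-- Injective renaming. Proof. `vars (ren f φ) = (vars φ).image f` (injectivity gives the cardinality); `S ↦ S.image f` is a bijection
between the subsets of `vars φ` and those of the image, and `Sat (S.image f) (ren f φ) ↔ Sat S φ` (injectivity: `f x ∈ S.image f ↔ x ∈ S`).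
The third part: `Sat S (ren f φ) ↔ Sat {x ∈ vars φ | f x ∈ S} φ`. -/
def StRen : Prop := ∀ (f : Name → Name) (φ : CNF), Function.Injective f →
  vars (ren f φ) = (vars φ).image f ∧ nv (ren f φ) = nv φ ∧ count (ren f φ) = count φ ∧ dens (ren f φ) = dens φ

/-- Names. Proof. Elementary: the elements of `una n` are the `List.replicate i true`, `i < n`, different ones for different `i`;
if `List.replicate i true ++ false :: x = List.replicate j true ++ false :: y` then `i = j` and `x = y` (look at the first `false`,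
induction on `i`). -/
def StNames : Prop := (∀ i j : ℕ, ∀ x y : Name, tag (List.replicate i true) x = tag (List.replicate j true) y → i = j ∧ x = y) ∧
  (∀ i : ℕ, Function.Injective (tag (List.replicate i true))) ∧
  (∀ a x b : Name, tag a x ≠ true :: b) ∧ (∀ n, (una n).length = n ∧ (una n).Nodup) ∧
  (∀ n a, a ∈ una n ↔ ∃ i < n, a = List.replicate i true)

/-- Abstract one-hot events. `s i` are different names, `W i` pairwise disjoint sets of names without the `s j`, `Q i` depends only
on `W i`. The event: at most one of the `s i` is false, and if `s i` is false then `Q i`.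

Proof. Induction on `n`. Let `E n` be the event, `F n` the event that all `s i ∈ S`, `i < n`. For subsets of any `V` that contains
everything: `E (n+1) ↔ (s n ∈ S ∧ E n) ∨ (s n ∉ S ∧ F n ∧ Q n)`, disjoint. `E n` and `F n` depend on `U n = {s i, i < n} ∪ ⋃ W i`,
so by `StPrMul` the probabilities are `1/2 * Pr (E n)` and `1/2 * 2^(-n) * Pr (Q n)`; hence `Pr (E n) = 2^(-n) (1 + ∑ i < n, Pr (Q i))`.
`uses StPrExt, StPrMul, StPrBool`. -/
def StOneHot : Prop := ∀ (n : ℕ) (s : ℕ → Name) (W : ℕ → Finset Name) (Q : ℕ → Finset Name → Prop) [∀ i, DecidablePred (Q i)]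
  (V : Finset Name), (∀ i < n, ∀ j < n, s i = s j → i = j) → (∀ i < n, ∀ j < n, s i ∉ W j) →
  (∀ i < n, ∀ j < n, i ≠ j → Disjoint (W i) (W j)) → (∀ i < n, ∀ S, Q i S ↔ Q i (S ∩ W i)) →
  (∀ i < n, s i ∈ V ∧ W i ⊆ V) →
  Pr V (fun S => (∀ i < n, ∀ j < i, s j ∈ S ∨ s i ∈ S) ∧ ∀ i < n, s i ∈ S ∨ Q i S) =
    (1 + ∑ i ∈ Finset.range n, Pr (W i) (Q i)) / 2 ^ n

/-- Density of a one-hot formula. Proof. `StOneHot` with `n = L.length`, `s i = true :: 1^i`, `Q i S = Sat S (ren (tag 1^i) L[i])`,
`W i = vars (ren (tag 1^i) L[i])`, `V = vars (oh L) ∪ everything`; `Pr (W i) (Q i) = dens L[i]` by `StRen`. The formula `oh L` says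
exactly the event (unfold `Sat`, `List.mem_append`, `List.mem_flatMap`, elements of `(una n).zip L` are the `(1^i, L[i])`).
`uses StOneHot, StRen, StNames, StDensPr`. -/
def StOhDens : Prop := ∀ L : List CNF, dens (oh L) = (1 + (L.map dens).sum) / 2 ^ L.length

/-- Density of a conjunction with disjoint variables. Proof. Induction on the number of pieces over `cj (L ++ [ψ]) = cj L ++ ren (tag
1^|L|) ψ` (`una (n+1) = una n ++ [1^n]`, `List.zip_append`), `StDensMul` and `StRen`; disjointness by `StNames`.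
`uses StDensMul, StRen, StNames, StDensB`. -/
def StCjDens : Prop := ∀ L : List CNF, dens (cj L) = (L.map dens).prod ∧ nv (cj L) = (L.map nv).sum

/-- Densities of the small formulas. Proof. `forced r`: induction on `r` (`forced (r+1) = forced r ++ [[(1^r, true)]]`, `StDensMul`,
a single positive unit clause has density `1/2`). `st r`: with `StRes` for `x = [true]`: `res x true (st r) = []`, `res x false (st r)`
are the unit clauses `false :: a`, a renaming of `forced r`: `(1 + 2^(-r)) / 2`. `bigc q`: all assignments of the `q` variables except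
one: `1 - 2^(-q)`; e.g. `Sat S (bigc q)` fails iff `S ∩ vars = ∅`. `[[]]`: `StDensB`.
`uses StPrExt, StPrMul, StPrBool, StDensB, StDensMul, StRes, StRen, StNames`. -/
def StSmall : Prop := (∀ r, dens (forced r) = (1 / 2 : ℚ) ^ r ∧ nv (forced r) = r) ∧
  (∀ r, dens (st r) = (1 + (1 / 2 : ℚ) ^ r) / 2) ∧ (∀ q, dens (bigc q) = 1 - (1 / 2 : ℚ) ^ q) ∧ dens [[]] = 0

/-- Widths, positivity, and numbers of variables of the constructions. Proof. Unfold; `width φ ≤ w ↔ ∀ C ∈ φ, C.length ≤ w`; a
renaming does not change lengths and signs; every piece occurs, renamed, in `oh L` and `cj L`, so `nv ψ ≤ nv (oh L)` (`StRen`).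
`uses StRen, StNames`. -/
def StShape : Prop := (∀ (φ : CNF) (w : ℕ), width φ ≤ w ↔ ∀ C ∈ φ, C.length ≤ w) ∧
  (∀ (L : List CNF) (w : ℕ), (∀ ψ ∈ L, width ψ ≤ w) → width (oh L) ≤ max 2 (w + 1) ∧ width (cj L) ≤ w) ∧
  (∀ L : List CNF, (∀ ψ ∈ L, Mono ψ) → Mono (oh L) ∧ Mono (cj L)) ∧
  (∀ (L : List CNF), ∀ ψ ∈ L, nv ψ ≤ nv (oh L)) ∧
  (∀ r, Mono (forced r) ∧ width (forced r) ≤ 1 ∧ Mono (st r) ∧ width (st r) ≤ 2 ∧ Mono (bigc r) ∧ width (bigc r) ≤ r) ∧
  Mono [[]] ∧ width [[]] = 0

/-! ### C. Gadgets -/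

/-- Elementary facts on the Ackermann functions. Proof. Induction on `j`. `A 0` is strictly increasing and `2x + 2 ≤ A 0 x`, since
`x + 2 ≤ 2^(x+1)`. Step: `A (j+1) x = x + 1 + (A j)^[x+1] 0`, `(A j)^[i] 0 ≥ i` and increasing in `i` because `A j y ≥ y + 1`, and
monotone iterates are monotone. Level comparison `A j x ≤ A (j+1) x`: if `x = 0`: `A (j+1) 0 = 1 + A j 0`; for `x = y + 1`:
`(A j)^[x+1] 0 = A j ((A j)^[x] 0) ≥ A j x`. Last claim: `(A J)^[J+3] 0 ≥ A 0 (A 0 ((A 0)^[J+1] 0)) ≥ 2^2^(J+1)`, as `A 0 x ≥ 2^(x+1)`.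
Almost everything is in `StN01`, `StN02` (`StG.lean`). `uses StN01, StN02`. -/
def StAck : Prop := (∀ j, StrictMono (A j)) ∧ (∀ j x, 2 * x + 2 ≤ A j x) ∧ (∀ j x, A j x ≤ A (j + 1) x) ∧
  (∀ i j q, i ≤ j → (A i)^[q] 0 ≤ (A j)^[q] 0) ∧ (∀ j p q, p ≤ q → (A j)^[p] 0 ≤ (A j)^[q] 0) ∧
  (∀ j q, q ≤ (A j)^[q] 0) ∧
  (∀ J, 2 ^ 2 ^ J ≤ (A J)^[J + 3] 0)

/-- The star table. Proof. `ℓ = ell m e`. Density: `StCjDens`, `StSmall`: `2^(-(e+1-ℓ)) ∏ i < ℓ, (1 + 2^(-2^i)) / 2 =
2^(-(e+1)) ∏ (1 + 2^(-2^i))`, and `(1 - 1/2) ∏ i < ℓ, (1 + 2^(-2^i)) = 1 - 2^(-2^ℓ)` (induction on `ℓ`). So `2^(-e) (1 - 2^(-2^ℓ))`.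
`s = e + 2^ℓ`: if `ℓ = e + 1`, `s = A 0 e ≥ 2e+2`; otherwise `ℓ = Nat.size m`, `2^ℓ > m > e` (`Nat.lt_size_self`), so `s ≥ m` and
`s ≥ 2e + 1`. Upper bound: `2^(Nat.size m) ≤ 2m`. Width 2, positive: `StShape`. `uses StCjDens, StSmall, StShape, StAck`. -/
def StTab0 : Prop := ∀ m, Good m 0 (tab0 m)

/-- The chain in a good table. Proof. Induction on `q` (`Function.iterate_succ_apply'`): let `(L, y) = ch T q`. If `y < m` the table has
the entry `(s, g)`, `g` has density `2^(-y) - 2^(-s)`, the sum becomes `1 - 2^(-s)`; `s ≥ min (A j y) m` and `y ≥ (A j)^[q] 0` or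
`y ≥ m` (excluded), `A j` is monotone; if `y ≥ m` the piece `[[]]` has density 0 and `y` stays. Strictly increasing as long as it is
below `m`, so `min q m ≤ y`; `y ≤ (j+2)(2m+2)` always. `uses StAck, StSmall, StShape`. -/
def StChain : Prop := ∀ (m j : ℕ) (T : Tab) (q : ℕ), Good m j T →
  (ch T q).1.length = q ∧ ((ch T q).1.map dens).sum = 1 - (1 / 2 : ℚ) ^ (ch T q).2 ∧
  min ((A j)^[q] 0) m ≤ (ch T q).2 ∧ min q m ≤ (ch T q).2 ∧ (ch T q).2 ≤ (j + 2) * (2 * m + 2) ∧
  (∀ ψ ∈ (ch T q).1, Mono ψ ∧ width ψ ≤ j + 2)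

/-- The next table is good. Proof. `StOhDens`, `StChain` with `q = e + 1`, `y = (ch T (e+1)).2`: density `2^(-(e+1)) (1 + 1 - 2^(-y)) =
2^(-e) - 2^(-(e+1+y))`; `y ≥ min ((A j)^[e+1] 0) m`, so `e + 1 + y ≥ min (A (j+1) e) m`; `y ≥ min (e+1) m = e+1` gives `2e + 1`;
`e + 1 + y ≤ m + (j+2)(2m+2) ≤ (j+3)(2m+2)`; `StShape`. The second part by induction on `j`.
`uses StOhDens, StChain, StShape, StTab0`. -/
def StTab : Prop := (∀ (m j : ℕ) (T : Tab), Good m j T → Good m (j + 1) (stp T)) ∧ ∀ m j, Good m j (tab m j)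

/-- The threshold instance. Proof. `M = (ch T q).2 ≥ e`. `StOhDens` for `q + 1` pieces: density `(1 + (1 - 2^(-M)) + dens D * 2^(-(M-e))) /
2^(q+1)` (`StChain`, `StCjDens`, `StSmall`); this is `≥ 2^(-q)` iff `dens D * 2^(-(M-e)) ≥ 2^(-M)` iff `dens D ≥ 2^(-e)`. Width:
`StShape`, pieces of width `≤ j + 2`, the last one `≤ max 2 1`. Number of variables: it contains a copy of `cj [D, forced (M - e)]`,
which has `nv D + M - e ≥ M`. `uses StOhDens, StChain, StCjDens, StSmall, StShape`. -/
def StPhi : Prop := ∀ (m j : ℕ) (T : Tab) (q : ℕ) (D : CNF) (e : ℕ), Good m j T → e ≤ (ch T q).2 → Mono D → width D ≤ 2 →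
  e ≤ nv D →
  ((1 / 2 : ℚ) ^ q ≤ dens (Phi T q D e) ↔ (1 / 2 : ℚ) ^ e ≤ dens D) ∧
  dens (Phi T q D e) = (2 - (1 / 2 : ℚ) ^ (ch T q).2 + dens D * (1 / 2 : ℚ) ^ ((ch T q).2 - e)) / 2 ^ (q + 1) ∧
  Mono (Phi T q D e) ∧ width (Phi T q D e) ≤ j + 3 ∧ (ch T q).2 ≤ nv (Phi T q D e)

/-- The majority instance. Proof. `StOhDens` for the two pieces `bigc q`, `Phi T q D e`: density `(1 + 1 - 2^(-q) + dens Phi) / 4`, which
is `≥ 1/2` iff `dens Phi ≥ 2^(-q)`. Width `≤ max (q + 1) (j + 4)`. `2^nv ≤ 2 count ↔ 1/2 ≤ dens`.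
`uses StOhDens, StPhi, StSmall, StShape, StDensB`. -/
def StMaj : Prop := ∀ (m j : ℕ) (T : Tab) (q : ℕ) (D : CNF) (e : ℕ), Good m j T → e ≤ (ch T q).2 → Mono D → width D ≤ 2 →
  e ≤ nv D →
  (2 ^ nv (Maj T q D e) ≤ 2 * count (Maj T q D e) ↔ (1 / 2 : ℚ) ^ e ≤ dens D) ∧ Mono (Maj T q D e) ∧
  width (Maj T q D e) ≤ max (q + 1) (j + 4) ∧ (ch T q).2 ≤ nv (Maj T q D e)

/-- Padding. Let `r = L.length ≥ 2`. Proof. The new names `tag 1^r a`, `tag 1^(r+1) a` do not occur in `oh L` (`StNames`). The clauses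
with the free variables contain the clause `[([true], true), ([true, true], true)]` of `oh L` (piece indices 0 and 1), so they are
implied; so over `vars (oh L) ∪ new` the event is `Sat S (oh L)` and all `u` forced variables true. `nv` adds up. Width 3.
`uses StPrExt, StPrMul, StPrBool, StDensPr, StDensB, StDensMul, StSmall, StRen, StNames, StShape`. -/
def StFpad : Prop := ∀ (L : List CNF) (w u : ℕ), 2 ≤ L.length →
  nv (fpad L.length (oh L) w u) = nv (oh L) + w + u ∧
  dens (fpad L.length (oh L) w u) = dens (oh L) * (1 / 2 : ℚ) ^ u ∧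
  (Mono (oh L) → Mono (fpad L.length (oh L) w u)) ∧
  (∀ k, 3 ≤ k → width (oh L) ≤ k → width (fpad L.length (oh L) w u) ≤ k)

/-! ### D. Polynomial time -/

/-- The constructions are in polynomial time. `una` of a length: `una L.length = (range L.length).map (fun i => replicate (min i
L.length) true)`, `PolyTime.map` with context `L`, `PolyTime.replicate` (`PBd` because of the `min`). All others by `flatMap`, `map`,
`zip`, `filter`, `append` (`fun_prop`). A number `n` in unary is the argument `List.replicate n ()` or any list of length `n`. -/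
def StPtC : Prop := PolyTime (fun l : List Unit => una l.length) ∧ PolyTime cj ∧ PolyTime oh ∧
  PolyTime (fun l : List Unit => forced l.length) ∧ PolyTime (fun l : List Unit => st l.length) ∧
  PolyTime (fun l : List Unit => bigc l.length) ∧
  PolyTime (fun p : List Unit × CNF × List Unit × List Unit => fpad p.1.length p.2.1 p.2.2.1.length p.2.2.2.length)

/-- Chains and tables in polynomial time. `cst` by `PolyTime.getElem?` and `option_casesOn`. `ch T l.length` (`l : List Unit`):
`PolyTime.iterate`; sizes: the list grows by one piece per step, each piece `[[]]` or an entry of `T`, and the second component is 0 or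
a number of `T`: `size (ch T i) ≤ c * (i + 1) * (size T + 1)`. `stp`: `map` over the range (the element `e < T.length` is turned into
a unary number by `replicate (min e T.length) ()`). `tab0` of `l.length`: `2^i` for `i < Nat.size m` is at most `2 * m`
(`min (2^i) (2 * m)`, so `replicate` is `PBd`; note `PolyTime.pow` needs `PBd` of the exponent: `Nat.size m`). In `Phi` and `Maj` the
last argument is a unary bound for the last exponent of the chain, so that `forced` is small. `uses StPtC`. -/
def StPtT : Prop := PolyTime (fun p : Tab × List Unit => ch p.1 p.2.length) ∧ PolyTime stp ∧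
  PolyTime (fun l : List Unit => tab0 l.length) ∧ (∀ j, PolyTime (fun l : List Unit => tab l.length j)) ∧
  PolyTime (fun p : Tab × List Unit × CNF × ℕ × List Unit =>
    if (ch p.1 p.2.1.length).2 ≤ p.2.2.2.2.length then Phi p.1 p.2.1.length p.2.2.1 p.2.2.2.1 else []) ∧
  PolyTime (fun p : Tab × List Unit × CNF × ℕ × List Unit =>
    if (ch p.1 p.2.1.length).2 ≤ p.2.2.2.2.length then Maj p.1 p.2.1.length p.2.2.1 p.2.2.2.1 else [])

end Pool.Agent.AK
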