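import Pool.Agent.AK.Defs

set_option autoImplicit false

/-!
# AK, statements R: #SAT and thresholds of monotone 2-CNFs (MP_4ed1f9_lc)

`red φ N = (D, e)`: `D` is a monotone 2-CNF with `dens D ≥ 2^(-e)` iff `#φ ≥ N` (`StRM`), and `red` is computed in
polynomial time (`StRP`). `StRB` (binary search) and `StRC` (the trivial direction) connect decision and counting.

Every `def StX : Prop` is a module; its docstring is the proof. Prove it in `Pool/Agent/AK/X.lean` as
`theorem thm_X : StX` (namespace `Pool.Agent.AK`); if the docstring says `from StY`, take `StY` as a hypothesis.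
-/

namespace Pool.Agent.AK

open Pool.Agent.PolyTime

/-! ### Graphs -/

/-- The monotone 2-CNF of a graph with vertex list `L`: the clauses `u ∨ v`, `u v` adjacent. -/
def gcnf {α : Type} [PEnc α] (L : List α) (adj : α → α → Bool) : CNF :=
  ((L.product L).filter fun p => adj p.1 p.2).map fun p => [(enc p.1, true), (enc p.2, true)]

/-- The independent subsets of `V`. -/
def ind {α : Type} [DecidableEq α] (V : Finset α) (adj : α → α → Bool) : Finset (Finset α) :=
  V.powerset.filter fun I => ∀ u ∈ I, ∀ v ∈ I, adj u v = false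

/-- **RG1** (the models of the formula of a graph are the complements of the independent sets).
PROOF. `enc` is injective (`PEnc.inj`). `vars (gcnf L adj)` is the set of the `enc u`, `u ∈ L`: every `u ∈ L` has a neighbour
`v ∈ L`, so it occurs in the clause of `(u, v)`; conversely the clauses only contain `enc u`, `u ∈ L`. So
`nv = L.toFinset.card` (`Finset.card_image_of_injective`). `count`: the map
`I ↦ (L.toFinset \ I).image enc` is a bijection from `ind L.toFinset adj` onto the subsets `S` of `vars` with `Sat S`
(`Finset.card_bij` or `card_bij'` with inverse `S ↦ L.toFinset.filter (enc · ∉ S)`): `S` satisfies the clause of `(u, v)` iff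
`enc u ∈ S` or `enc v ∈ S` iff not both `u, v ∈ I`; so `Sat S` iff no adjacent pair `u, v` (`u, v ∈ L`) is in `I`. -/
def StRG1 : Prop := ∀ (α : Type) [DecidableEq α] [PEnc α] (L : List α) (adj : α → α → Bool),
  (∀ u ∈ L, ∃ v ∈ L, adj u v = true) →
  nv (gcnf L adj) = L.toFinset.card ∧ count (gcnf L adj) = (ind L.toFinset adj).card ∧
    Mono (gcnf L adj) ∧ ∀ C ∈ gcnf L adj, C.length = 2

/-- Adjacency of twins. -/
def tw {α : Type} (adj : α → α → Bool) (p q : α × ℕ) : Bool := adj p.1 q.1

/-- **RG2** (every vertex replaced by `s` independent twins).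
PROOF. `Finset.card_eq_sum_card_fiberwise` for the map `J ↦ J.image Prod.fst`, which maps `ind (V ×ˢ range s) (tw adj)` to
`ind V adj`. The fibre over `I ∈ ind V adj` is in bijection with `I.pi (fun _ => (range s).powerset.erase ∅)`, of cardinality
`(2^s - 1)^(card I)` (`Finset.card_pi`, `Finset.prod_const`, `Finset.card_erase_of_mem`, `Finset.card_powerset`): `J` corresponds
to `u ↦ {c ∈ range s : (u, c) ∈ J}` (nonempty, as `u ∈ I = J.image fst`), the inverse is
`g ↦ I.attach.biUnion (fun u => (g u _).image (fun c => (u, c)))` (or describe `J` as `(I ×ˢ range s).filter`). Every such `J` is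
independent: `tw adj p q = adj p.1 q.1 = false` as `p.1, q.1 ∈ I`. (`J` in the fibre: `J ⊆ V ×ˢ range s` and `J.image fst = I`.)
Alternative: induction on `V` (`Finset.induction_on`) is NOT needed. The hypothesis that `adj u u = false` is only used for
nothing else than clarity (independence of `J` and of its image are equivalent in any case). -/
def StRG2 : Prop := ∀ (α : Type) [DecidableEq α] (V : Finset α) (adj : α → α → Bool) (s : ℕ),
  (ind (V ×ˢ Finset.range s) (tw adj)).card = ∑ I ∈ ind V adj, (2 ^ s - 1) ^ I.card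

/-- Adjacency in the join of two graphs. -/
def jn {α β : Type} (a : α → α → Bool) (b : β → β → Bool) : α ⊕ β → α ⊕ β → Bool
  | Sum.inl u, Sum.inl v => a u v
  | Sum.inr u, Sum.inr v => b u v
  | Sum.inl _, Sum.inr _ => true
  | Sum.inr _, Sum.inl _ => true

/-- **RG3** (independent sets of a join).
PROOF. An independent subset `J` of `V.disjSum W` cannot contain both an `inl` and an `inr`. So
`ind (V.disjSum W) (jn a b)` is the union of the image of `ind V a` under `I ↦ I.map inl` and of the image of `ind W b` under
`I ↦ I.map inr` (both maps injective), and the two images meet exactly in `∅`. `Finset.card_union_add_card_inter`, or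
`card (A ∪ B) + card (A ∩ B) = card A + card B` with `A ∩ B = {∅}`. -/
def StRG3 : Prop := ∀ (α β : Type) [DecidableEq α] [DecidableEq β] (V : Finset α) (W : Finset β)
  (a : α → α → Bool) (b : β → β → Bool),
  (ind (V.disjSum W) (jn a b)).card + 1 = (ind V a).card + (ind W b).card

/-- Threshold graph: the vertex `i` is joined to all earlier vertices if the `i`-th bit is true, otherwise to none. -/
def thr (w : List Bool) (i j : ℕ) : Bool := !decide (i = j) && w.getD (max i j) false

/-- One step of `i ↦ i + 1` (dominating vertex) or `i ↦ 2 i` (isolated vertex). -/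
def opv (a : ℕ) (o : Bool) : ℕ := bif o then a + 1 else 2 * a

/-- **RG4** (independent sets of a threshold graph).
PROOF. Induction on `w` from the right (`List.reverseRecOn`). `w = []`: only `∅`. `w ++ [o]`, `k = w.length`: the independent sets
`I ⊆ range (k+1)` without `k` are those of `range k` (for `i, j < k` the bit `max i j` of `w ++ [o]` is that of `w`,
`List.getD_append`). Those with `k`: `I = insert k I'`, `I' ⊆ range k`; for `i ∈ I'` the pair `i, k` is adjacent iff `o`. If `o = false`
they are all the `insert k I'`, `I'` independent: the number doubles. If `o = true` only `I' = ∅`: plus one. -/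
def StRG4 : Prop := ∀ w : List Bool, (ind (Finset.range w.length) (thr w)).card = w.foldl opv 1

/-- A list of steps which leads from `1` to `N ≥ 1`: the binary digits after the leading one. -/
def ops (N : ℕ) : List Bool :=
  N.bits.reverse.tail.flatMap fun b => bif b then [false, true] else [false]

/-- **RG5** (the steps lead to `N`).
PROOF. `Nat.binaryRec`-type induction on `N ≥ 1` (strong induction on `N`): `ops 1 = []`. For `N = Nat.bit b N'`, `N' ≥ 1`:
`N.bits = b :: N'.bits` (`Nat.bits_append_bit` / `Nat.bit_bits`), so `N.bits.reverse.tail = N'.bits.reverse.tail ++ [b]`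
(`N'.bits` is not empty) and `ops N = ops N' ++ (bif b then [false, true] else [false])`; `List.foldl_append` and the induction
hypothesis give `2 N' + 1` resp. `2 N'`. Polynomial time: `PolyTime.bits`, `reverse`, `tail`, `flatMap`, `fun_prop`. -/
def StRG5 : Prop := (∀ N, 1 ≤ N → (ops N).foldl opv 1 = N) ∧ PolyTime ops

/-! ### The graph of a formula -/

/-- The vertices: `(x, b)` for a variable `x`, and `(j, i)` for the `i`-th literal of the clause `j`. -/
abbrev Vx := (Name × Bool) ⊕ (ℕ × ℕ)

/-- The list of the vertices (with repetitions). -/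
def vlist (φ : CNF) : List Vx :=
  ((φ.flatten.map Prod.fst).flatMap fun x => [Sum.inl (x, false), Sum.inl (x, true)]) ++
  (List.range φ.length).flatMap fun j => (List.range (φ.getD j []).length).map fun i => Sum.inr (j, i)

/-- The `i`-th literal of the clause `j`. -/
def lit (φ : CNF) (q : ℕ × ℕ) : Lit := (φ.getD q.1 []).getD q.2 ([], false)

/-- Giving `x` the value `b`, `p = (x, b)`, makes the literal `q = (j, i)` false, or makes an earlier literal of the clause true. -/
def bad (φ : CNF) (p : Name × Bool) (q : ℕ × ℕ) : Bool :=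
  (decide (p.1 = (lit φ q).1) && !decide (p.2 = (lit φ q).2)) || decide (p ∈ (φ.getD q.1 []).take q.2)

/-- Adjacency in the graph of a formula. -/
def fadj (φ : CNF) : Vx → Vx → Bool
  | Sum.inl p, Sum.inl q => decide (p.1 = q.1) && !decide (p.2 = q.2)
  | Sum.inr p, Sum.inr q => decide (p.1 = q.1) && !decide (p.2 = q.2)
  | Sum.inl p, Sum.inr q => bad φ p q
  | Sum.inr q, Sum.inl p => bad φ p q

/-- **RF1** (simple properties of the graph of a formula).
PROOF. (1) clear. (2) `inl (x, b)` is adjacent to `inl (x, !b)`; `inr (j, i)` with literal `(y, b)` is adjacent to `inl (y, !b)`, and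
`y` is a variable of `φ`. (3) The vertices `inl (x, b)`, `x ∈ vars φ`, and `inr (j, 0)`, `j < φ.length` (the clause `j` is not
empty), are different: `2 nv φ + φ.length` of them (`Finset.card_le_card` with
`((vars φ ×ˢ univ).map inl) ∪ ((range φ.length).image fun j => inr (j, 0))`). (4) An independent `I` contains at most one `inl (x, b)`
for every `x ∈ vars φ` and at most one `inr (j, i)` for every `j < φ.length`: the map `inl (x, b) ↦ inl x`, `inr (j, i) ↦ inr j` to
`(vars φ).disjSum (range φ.length)` is injective on `I` (`Finset.card_le_card_of_injOn`, `Finset.card_disjSum`). -/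
def StRF1 : Prop := ∀ φ : CNF,
  (∀ u, fadj φ u u = false) ∧ (∀ u ∈ vlist φ, ∃ v ∈ vlist φ, fadj φ u v = true) ∧
  ([] ∉ φ → 2 * nv φ + φ.length ≤ (vlist φ).toFinset.card) ∧
  ∀ I ∈ ind (vlist φ).toFinset (fadj φ), I.card ≤ nv φ + φ.length

/-- The independent set of an assignment `S`: the `(x, x ∈ S)`, and the first true literal of every clause. -/
def iset (φ : CNF) (S : Finset Name) : Finset Vx :=
  (vars φ).image (fun x => Sum.inl (x, decide (x ∈ S))) ∪
  (Finset.range φ.length).image fun j =>
    Sum.inr (j, (φ.getD j []).findIdx fun l => decide (decide (l.1 ∈ S) = l.2))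

/-- **RF2a** (the independent set of a satisfying assignment).
PROOF. `S` satisfies `φ`: for `j < φ.length` the clause `C = φ.getD j []` has a true literal (`decide (l.1 ∈ S) = l.2`), so
`i = findIdx < C.length` (`List.findIdx_lt_length`), the literal `i` is true (`List.findIdx_getElem`) and the earlier ones are
false (`List.not_of_lt_findIdx`). So the vertices are in `vlist φ`. `nv φ` vertices of the first kind, `φ.length` of the second
kind (injective images, disjoint). Independent: `(x, b), (y, c)` of the first kind with `x = y` have `b = c`; two of the second kind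
with the same `j` are equal; `(x, decide (x ∈ S))` and `(j, i)`: if `x` is the variable of the true literal `i` then the sign is
`decide (x ∈ S)`, so the first part of `bad` is false; if `(x, decide (x ∈ S)) ∈ C.take i` then a literal before `i` is true,
contradiction. -/
def StRF2a : Prop := ∀ (φ : CNF) (S : Finset Name), S ⊆ vars φ → Sat S φ →
  iset φ S ∈ ind (vlist φ).toFinset (fadj φ) ∧ (iset φ S).card = nv φ + φ.length

/-- **RF2b** (maximal independent sets come from satisfying assignments).
PROOF. Let `I` be independent with `nv φ + φ.length` elements. The injective map of `RF1` (4),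
`I → (vars φ).disjSum (range φ.length)`, is then surjective (`Finset.surj_on_of_inj_on_of_card_le` or
`Finset.eq_of_subset_of_card_le` for the image): for every `x ∈ vars φ` there is exactly one `b = a x` with `inl (x, b) ∈ I`, for
every `j < φ.length` exactly one `i = i_j` with `inr (j, i) ∈ I`. `S = (vars φ).filter (fun x => inl (x, true) ∈ I)`; so
`decide (x ∈ S) = a x`. For `j < φ.length`, `C` the clause `j`, `i = i_j < C.length` and for every `x ∈ vars φ` `bad φ (x, a x) (j, i)` is
false: with `x` the variable of the literal `i` its sign is `a x`, so it is true under `S`; and no literal `l ∈ C.take i` is true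
(it would be `(l.1, a l.1)`). So `C` is satisfied and `i` is the index of its first true literal (`List.findIdx_eq`). So `Sat S φ` and
`I = iset φ S`: `iset φ S ⊆ I`, and both have `nv φ + φ.length` elements (`StRF2a`). -/
def StRF2b : Prop := ∀ (φ : CNF), ∀ I ∈ ind (vlist φ).toFinset (fadj φ), I.card = nv φ + φ.length →
  ∃ S ⊆ vars φ, Sat S φ ∧ iset φ S = I

/-- **RF2** (from `StRF2a`, `StRF2b`).
PROOF. `Finset.card_bij` with `S ↦ iset φ S` from the satisfying assignments: well defined (`RF2a`), surjective (`RF2b`), and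
injective: for `x ∈ vars φ`, `x ∈ S` iff `inl (x, true) ∈ iset φ S`. -/
def StRF2 : Prop := ∀ φ : CNF,
  ((ind (vlist φ).toFinset (fadj φ)).filter fun I => I.card = nv φ + φ.length).card = count φ

/-- **RA** (the leading term).
PROOF. `b = 2^s - 1 > 2^(V.card)`. The sum over the `I` with `card I = K` is `c b^K`; this gives the first inequality. The other `I` have
`card I ≤ K - 1` (so `K ≥ 1` if there are any) and there are at most `2^(V.card)` of them: their sum is at most
`2^(V.card) b^(K-1) < b^K`; if there are none their sum is `0 < b^K`. -/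
def StRA : Prop := ∀ (α : Type) [DecidableEq α] (V : Finset α) (F : Finset (Finset α)) (K s c : ℕ),
  F ⊆ V.powerset → (∀ I ∈ F, I.card ≤ K) → (F.filter fun I => I.card = K).card = c → V.card + 2 ≤ s →
  c * (2 ^ s - 1) ^ K ≤ ∑ I ∈ F, (2 ^ s - 1) ^ I.card ∧
    ∑ I ∈ F, (2 ^ s - 1) ^ I.card < (c + 1) * (2 ^ s - 1) ^ K

/-! ### The reduction -/

/-- number of twins -/
def sN (φ : CNF) : ℕ := (vlist φ).length + 2

/-- size of the independent sets which correspond to satisfying assignments -/
def kN (φ : CNF) : ℕ := nv φ + φ.length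

/-- the exponent of the threshold -/
def mN (φ : CNF) : ℕ := nv φ + sN φ * kN φ

/-- the threshold graph -/
def wN (φ : CNF) (N : ℕ) : List Bool := ops (2 ^ mN φ - N * (2 ^ sN φ - 1) ^ kN φ + 1)

/-- the vertices of the final graph -/
def lN (φ : CNF) (N : ℕ) : List ((Vx × ℕ) ⊕ ℕ) :=
  ((vlist φ).product (List.range (sN φ))).map Sum.inl ++ (List.range (wN φ N).length).map Sum.inr

/-- the final formula -/
def dN (φ : CNF) (N : ℕ) : CNF := gcnf (lN φ N) (jn (tw (fadj φ)) (thr (wN φ N)))

/-- The reduction: `red φ N = (D, e)`. -/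
def red (φ : CNF) (N : ℕ) : CNF × ℕ :=
  bif decide (φ = []) then ([[([], true)]], 1)
  else bif decide (([] : Clause) ∈ φ) then
    (bif decide (N = 0) then ([[([], true)]], 1) else ([[([], true)]], 0))
  else (dN φ N, nv (dN φ N) - mN φ)

/-- **RM1** (the final graph; from `StRG1`, `StRG2`, `StRG3`, `StRG4`, `StRG5`, `StRF1`).
PROOF. `φ ≠ []` has no empty clause, so `vlist φ` is not empty. The vertex set `(lN φ N).toFinset` is
`((vlist φ).toFinset ×ˢ range s).disjSum (range k)`, `s = sN φ ≥ 2`, `k = (wN φ N).length`, of cardinality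
`s * (vlist φ).toFinset.card + k`. Every vertex has a neighbour: `inl (u, c)`: `inl (v, c)` with `fadj φ u v` (`RF1`); `inr i`: every
`inl (u, 0)`, `u ∈ vlist φ`. `RG1`: `nv (dN φ N) = s * card + k` and `count (dN φ N)` is the number of independent sets; `RG3`, `RG2`,
`RG4`, `RG5`: it is `∑ + (c + 1) - 1`, `c = 2^(mN φ) - N (2^s - 1)^(kN φ)`. `mN φ = n + s (n + m) ≤ s (2 n + m) ≤ s * card`
(`RF1` (3)). -/
def StRM1 : Prop := ∀ (φ : CNF) (N : ℕ), φ ≠ [] → [] ∉ φ →
  count (dN φ N) = (∑ I ∈ ind (vlist φ).toFinset (fadj φ), (2 ^ sN φ - 1) ^ I.card) +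
    (2 ^ mN φ - N * (2 ^ sN φ - 1) ^ kN φ) ∧
  mN φ ≤ nv (dN φ N) ∧ Mono (dN φ N) ∧ ∀ C ∈ dN φ N, C.length = 2

/-- **RM** (correctness of the reduction; from `StRM1`, `StRF1`, `StRF2`, `StRA`).
PROOF. `φ = []`: `vars φ = ∅`, `count φ = 1`, `N ≤ 1`; the formula with the single clause `x` has one variable and one model, so
`dens = 1/2`, `e = 1`: both sides are true. `[] ∈ φ`: `count φ = 0`; both sides are true for `N = 0` and false for `N > 0`
(`1 ≤ 1/2` is false). Otherwise put `b = 2^s - 1`, `s = sN φ`, `K = kN φ`, `M = mN φ`, `D = dN φ N`, `e = nv D - M ≤ nv D`. `RA` with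
`V = (vlist φ).toFinset` (`V.card ≤ (vlist φ).length = s - 2`, `List.toFinset_card_le`), `F = ind V (fadj φ)`, `c = count φ`
(`RF1`, `RF2`): `c b^K ≤ ∑ < (c + 1) b^K`. As `N ≤ 2^n` and `b < 2^s`: `N b^K ≤ 2^(n + s K) = 2^M`, so
`count D = ∑ + 2^M - N b^K` (no truncation), and `count D ≥ 2^M` iff `∑ ≥ N b^K` iff `N ≤ c`. Finally
`2^(nv D) ≤ count D * 2^e` iff `2^M ≤ count D`, as `nv D = M + e`; and `1 ≤ dens D * 2^e` is the same. -/
def StRM : Prop := ∀ (φ : CNF) (N : ℕ), N ≤ 2 ^ nv φ →
  Mono (red φ N).1 ∧ (∀ C ∈ (red φ N).1, C ≠ [] ∧ C.length ≤ 2) ∧ (red φ N).1 ≠ [] ∧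
  (red φ N).2 ≤ nv (red φ N).1 ∧
  (2 ^ nv (red φ N).1 ≤ count (red φ N).1 * 2 ^ (red φ N).2 ↔ N ≤ count φ) ∧
  (1 / 2 ^ (red φ N).2 ≤ dens (red φ N).1 ↔ N ≤ count φ)

/-! ### Polynomial time -/

/-- **RN** (the number of variables).
PROOF. `dd l = l.foldl (fun acc x => bif decide (x ∈ acc) then acc else x :: acc) []` has no duplicates and the same elements as `l`
(general `acc`: if `acc` has no duplicates then the result has none, and its elements are those of `acc` and of `l`), so its length is
`l.toFinset.card`. `PolyTime.foldl` with the bound `size l`: the accumulator of `l.take i` has size at most `size (l.take i)`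
(each step adds `x` at most once: `size (foldl ..) ≤ size acc + size (l.take i)` by induction, `size_cons`), and
`size (l.take i) ≤ size l` (`size_sublist`, `List.take_sublist`). Then `nv φ = (dd (φ.flatten.map Prod.fst)).length`; `PolyTime.length`,
`flatten`, `map`, `fun_prop`. The second claim: `fun φ => φ.foldr (fun C w => max C.length w) 0` is
the maximum; `PolyTime.foldr` with the bound `size φ + 1` or so (`C.length ≤ size C ≤ size φ`, `size_nat_mono`), or
`(φ.map List.length).foldl max 0`. -/
def StRN : Prop := PolyTime nv ∧ PolyTime width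

/-- **RE** (the name of a vertex is computed in polynomial time).
PROOF. `⟨fun x => enc x, FP_encString, fun _ => rfl⟩` (`enc` of the string `enc a`; see `FP_encString` in
`Pool/Agent/PolyTime/Classes.lean`). -/
def StRE : Prop := ∀ (α : Type) [PEnc α], PolyTime (fun a : α => enc a)

/-- **RP1** (parameters; from `StRN`, `StRG5`).
PROOF. `vlist`: `fun_prop` after unfolding (`flatten`, `map`, `flatMap`, `range`, `getD`; the ranges by `PolyTime.range_length`). `sN`, `kN`,
`mN` by `fun_prop` and `StRN`; they are polynomially bounded (`PBd`): `sN`, `kN` are sums of lengths (`pbd_length`) and of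
`nv φ ≤ (φ.flatten).length`; `PBd.add`, `PBd.mul`. `2 ^ mN φ`, `2 ^ sN φ`, `(..) ^ kN φ` by `PolyTime.pow` with these bounds. `wN` by
`StRG5`. -/
def StRP1 : Prop := PolyTime vlist ∧ PolyTime sN ∧ PBd sN ∧ PolyTime kN ∧ PolyTime mN ∧
  PolyTime (fun p : CNF × ℕ => wN p.1 p.2)

/-- **RP2** (the final formula; from `StRE`, `StRP1`).
PROOF. `bad`, `lit`: unfold, `fun_prop` (`getD`, `take`, `decide_mem`, `decideEq`). `fadj` is (`cases`)
`fun u v => Sum.elim (fun p => Sum.elim (fun q => ..) (fun q => ..) v) (fun q => ..) u`, `PolyTime.sum_elim`, then `PolyTime.congr`; the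
same for `jn`; `tw`, `thr` by `fun_prop`. `lN`: `product`, `map`, `range` with `PBd sN`. `dN`: unfold `gcnf`, `product`, `filter`, `map`
(`PolyTime.filter` with `p := fun a q => jn (tw (fadj a.1)) (thr (wN a.1 a.2)) q.1 q.2`), names by `StRE`. -/
def StRP2 : Prop := PolyTime (fun p : CNF × ℕ => dN p.1 p.2)

/-- **RP** (from `StRN`, `StRP1`, `StRP2`). PROOF. `red` unfolded: `PolyTime.cond`, `decideEq`, `decide_mem`, constants, `StRP2`, `nv` of `dN`
(composition), subtraction. -/
def StRP : Prop := PolyTime (fun p : CNF × ℕ => red p.1 p.2)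

/-- **RB** (binary search; from `StRN`).
PROOF. `step (φ) (N) (i) = let N' := N + 2^(nv φ - i); bif decide (N' ≤ 2^(nv φ)) && dec (φ, N') then N' else N`, and
`F φ = (List.range (nv φ + 1)).foldl (step φ) 0`. Invariant after the steps `0, ..., i-1` (`i ≤ nv φ + 1`):
`N ≤ count φ` and `count φ < N + 2^(nv φ + 1 - i)` (start: `count φ ≤ 2^(nv φ) < 2^(nv φ + 1)`, by `Finset.card_filter_le`,
`Finset.card_powerset`). Step: `N' ≤ count φ` implies `N' ≤ 2^(nv φ)`, so the test is true iff `N' ≤ count φ`. At the end
`N ≤ count φ < N + 1`. Polynomial time: `PolyTime.foldRange`, `nv φ + 1` is polynomially bounded (`nv φ ≤ φ.flatten.length`), the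
powers by `PolyTime.pow` (exponent `nv φ - i ≤ nv φ`, `PBd.mono`), all intermediate values are `≤ 2^(nv φ)`
(size `≤ nv φ + 1`, `size_nat_two_pow`, `size_nat_mono`). -/
def StRB : Prop := ∀ dec : CNF × ℕ → Bool, PolyTime dec →
  (∀ (φ : CNF) (N : ℕ), N ≤ 2 ^ nv φ → (dec (φ, N) = true ↔ N ≤ count φ)) → PolyTime count

/-- **RC** (thresholds from the count; from `StRN`).
PROOF. (1) `fun φ => decide (2 ^ nv φ ≤ 2 * count φ)`, `PolyTime.pow`, `nv φ` polynomially bounded. (2)
`τ (nv φ) = (fun l : List Unit => τ l.length) (List.replicate (nv φ) ())`, so `fun φ => τ (nv φ)` is polynomial time (`UPoly`,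
`PolyTime.replicate`); `2 ^ (nv φ - τ (nv φ))` by `PolyTime.pow`, the exponent is `≤ nv φ`. -/
def StRC : Prop := PolyTime count →
  (∃ G : CNF → Bool, PolyTime G ∧ ∀ φ, (G φ = true ↔ 2 ^ nv φ ≤ 2 * count φ)) ∧
  ∀ τ : ℕ → ℕ, UPoly τ → ∃ G : CNF → Bool, PolyTime G ∧ ∀ φ, (G φ = true ↔ 2 ^ (nv φ - τ (nv φ)) ≤ count φ)

end Pool.Agent.AK
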