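import Mathlib
import Pool.Agent.AK.StA
import Pool.Agent.AK.StP
import Pool.Agent.AK.StR
import Pool.Agent.AK.StG2

set_option autoImplicit false

/-!
# AK, statements F: sizes, the level loop, the reductions, and the assembly

Every `def St...` is one module: `theorem ... : StX → StY → StZ` in its own file `Pool/Agent/AK/<Name>.lean`; `uses` lists the
statements (of this file, of `StA.lean`, `StP.lean`) which may be assumed.
-/

namespace Pool.Agent.AK

open Pool.Agent.PolyTime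

/-! ### A. Sizes of the tables -/

/-- Weight of a formula. -/
def wt (φ : CNF) : ℕ := (φ.map fun C => 1 + (C.map fun l => 1 + l.1.length).sum).sum

/-- Size and weight. Proof. `size` of a name is `3 * length` (`size_list_bool`), of a literal `6 * length + 2`, of a clause
`∑ (12 * length + 5)`, of a formula `∑_C (2 * size C + 1)`. A list of pairs: `size_le_of_forall`, `size_pair`, `size_nat_self`. -/
def StWt : Prop := (∀ φ : CNF, size φ ≤ 24 * wt φ ∧ wt φ ≤ size φ) ∧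
  ∀ (T : Tab) (X : ℕ), (∀ r ∈ T, r.1 ≤ X ∧ wt r.2 ≤ X) → size T ≤ T.length * (52 * X + 3)

/-- Weight of a one-hot formula. `n = L.length`. Proof. `ohp n`: at most `n * n` clauses of weight `≤ 1 + 2 * (1 + n)` each (names
`true :: 1^i`, `i < n`, have length `≤ n`). Piece `i`: every name becomes longer by `i + 2`, every clause gets one more literal of weight
`i + 2`: weight `≤ wt * (2 * i + 5)`. -/
def StWtOh : Prop := ∀ (L : List CNF), wt (oh L) ≤ L.length * L.length * (2 * L.length + 3) +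
  ∑ i ∈ Finset.range L.length, wt (L.getD i []) * (2 * i + 5)

/-- Recursion for the weights of the tables. Proof. Let `σ = Nat.size m`. In the chain of a good table (`StChain`, `Good`) the exponents
`y_i` satisfy `y_i ≥ min (2^i - 1) m` (because the entries are `≥ 2y + 1`), so the piece `i` is an entry of the table only if `y_i < m`, so
`2^i ≤ m`, `i < σ`; all other pieces are `[[]]`, of weight 1. With `q = e + 1 ≤ m` pieces: `StWtOh` gives
`wt ≤ m * m * (2 m + 3) + m * (2 m + 5) + σ * (2 σ + 5) * X ≤ 8 (m+1)^3 + (2 σ + 5)^2 X`. `uses StWtOh, StChain`. -/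
def StWtStp : Prop := ∀ (m j : ℕ) (T : Tab) (X : ℕ), Good m j T → (∀ r ∈ T, wt r.2 ≤ X) →
  ∀ r ∈ stp T, wt r.2 ≤ 8 * (m + 1) ^ 3 + (2 * Nat.size m + 5) ^ 2 * X

/-- The first table. Proof. `star m e`, `e < m`: the `≤ m + 1` clauses of `forced`, renamed with `tag []`: weight `≤ 2 + (m + 2)` each; the
star number `i < ℓ` is piece `i + 1`: `2^i` clauses with 2 literals with names of length `≤ i + 1 + 2 + 2^i`; `2^i ≤ m` as `i < ℓ ≤
Nat.size m`; so at most `2 m` such clauses (`∑ 2^i < 2^ℓ ≤ 2m`), each of weight `≤ 3 + 2 * (2 * m + 4)`. -/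
def StWt0 : Prop := ∀ m, ∀ r ∈ tab0 m, wt r.2 ≤ 100 * (m + 1) ^ 3

/-- Arithmetic: `(b + 1)^J` is polynomial in `m`. Proof. `σ = Nat.size m`, `J = Nat.size σ`. `2 σ + 6 ≤ 2^(J+3)` since `σ < 2^J`; so the left
side is `≤ 2^(2 J (J+3))`; `J (J + 3) ≤ 6 σ` (if `σ ≥ 1`, `2^(J-1) ≤ σ`, and `J (J+3) ≤ 6 * 2^(J-1)` for `J ≥ 1` by induction); `2^σ ≤ 2 m`
for `m ≥ 1` (`Nat.lt_size`). -/
def StPowSz : Prop := ∀ m : ℕ, ((2 * Nat.size m + 5) ^ 2 + 1) ^ Nat.size (Nat.size m) ≤ (2 * m + 2) ^ 12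

/-- The tables up to level `Nat.size (Nat.size m)` have polynomial size. Proof. Induction on `j`: all weights of `tab m j` are at most
`100 (m+1)^3 * (b+1)^j`, `b = (2 σ + 5)^2` (`StWt0`, `StWtStp`: `8 (m+1)^3 + b X ≤ (b+1) X` for `X ≥ 8 (m+1)^3`); the numbers are
`≤ (j + 2)(2m + 2)` (`Good`, `StTab`). Then `StPowSz` and `StWt`. `uses StWt, StWtStp, StWt0, StPowSz, StTab`. -/
def StSz : Prop := ∃ c : ℕ, ∀ m j, j ≤ Nat.size (Nat.size m) → size (tab m j) ≤ (m + 2) ^ c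

/-! ### B. The level loop -/

/-- One step of the search for the level. -/
def lvs (m : ℕ) (p : ℕ × Tab) : ℕ × Tab := if m ≤ (ch p.2 (p.1 + 3)).2 then p else (p.1 + 1, stp p.2)

/-- The first level `j` at which the chain of length `j + 3` reaches `m`. -/
def lev (m : ℕ) : ℕ × Tab := (lvs m)^[Nat.size (Nat.size m)] (0, tab0 m)

/-- Facts on `al`. Proof. `J = Nat.size (Nat.size n)`: `n < 2^2^J ≤ (A J)^[J+3] 0 = B (J+3) (J+3)` (`Nat.lt_size_self`, `StAck`), so
`k = J + 4` is in the set: it is nonempty, `Nat.sInf_mem`, `Nat.sInf_le`. Monotone: `m ≤ n` makes the set larger. `uses StAck`. -/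
def StAl : Prop := (∀ n, 4 ≤ al n ∧ n ≤ B (al n - 1) (al n - 1) ∧ al n ≤ Nat.size (Nat.size n) + 4) ∧
  (∀ m n, m ≤ n → al m ≤ al n) ∧ (∀ n k, 4 ≤ k → k < al n → B (k - 1) (k - 1) < n)

/-- The level loop is correct. Proof. Invariant after `i` steps: the state is `(j, tab m j)` with `j ≤ i`, no `j' < j` has
`m ≤ (ch (tab m j') (j' + 3)).2`, and either `m ≤ (ch (tab m j) (j+3)).2` or `j = i`. Let `j0 = al m - 4`; `(A j0)^[j0+3] 0 =
B (al m - 1) (al m - 1) ≥ m`, so by `StChain` the chain at level `j0` reaches `m`; `j0 ≤ J` by `StAl`. So the loop of `J` steps stops at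
the first such `j ≤ j0`. `uses StTab, StChain, StAl`. -/
def StLev : Prop := ∀ m, (lev m).2 = tab m (lev m).1 ∧ m ≤ (ch (lev m).2 ((lev m).1 + 3)).2 ∧ (lev m).1 + 4 ≤ al m

/-- The level loop in polynomial time. Proof. `PolyTime.iterate` with the number `Nat.size (Nat.size l.length)` of steps (`PolyTime.natSize`,
`PBd`); the state after `i ≤ J` steps is `(j, tab m j)` with `j ≤ i ≤ J`, of size at most `2 * j + 1 + (m+2)^c` by `StSz`. The step:
`ch p.2 (p.1 + 3)` with `p.1 + 3` in unary: in the states `p.1 ≤ J`; use `replicate (min (p.1 + 3) (l.length + 4)) ()`, and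
`PolyTime.congr` (the step function with the `min` gives the same iterates from this start since `J + 3 ≤ m + 4`).
`uses StPtT, StSz, StTab`. -/
def StPtLev : Prop := PolyTime (fun l : List Unit => lev l.length)

/-! ### C. Reductions -/

/-- Reduction of `#SAT` to a threshold question of a monotone 2-CNF. Proof. `R p = red p.1 p.2`, `StRM`, `StRP` (`StR.lean`); `width` from
the lengths of the clauses by `StShape`. `uses StRM, StRP, StShape`. -/
def StRed : Prop := ∃ R : CNF × ℕ → CNF × ℕ, PolyTime R ∧ ∀ (φ : CNF) (N : ℕ), N ≤ 2 ^ nv φ →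
  Mono (R (φ, N)).1 ∧ width (R (φ, N)).1 ≤ 2 ∧ (R (φ, N)).2 ≤ nv (R (φ, N)).1 ∧
  (N ≤ count φ ↔ (1 / 2 : ℚ) ^ (R (φ, N)).2 ≤ dens (R (φ, N)).1)

/-- A polynomial time test of `N ≤ count φ`; it gives `PolyTime count` by `StRB` (`StR.lean`). -/
def Test : Prop := ∃ T : CNF × ℕ → Bool, PolyTime T ∧ ∀ (φ : CNF) (N : ℕ), N ≤ 2 ^ nv φ →
  (T (φ, N) = true ↔ N ≤ count φ)

/-- Hardness of majority. Proof. `f (φ, N)`: `(D, e) = R (φ, N)`, `e' = min e (nv D)` (`= e`), `(j, T) = lev e'`, output `Maj T (j+3) D e'`.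
Polynomial time (`StPtLev`, `StPtT`; `j + 3` in unary: `j ≤ e' + ...`, use `replicate (min (j+3) (e' + 4)) ()`, `j + 4 ≤ al e' ≤
Nat.size (Nat.size e') + 4 ≤ e' + 4`; `Maj` by the guarded version of `StPtT`, with the unary bound `(e' + 2) * (2 * e' + 2)`, see
`StChain`). By `StLev`, `StMaj` (`m = e'`): `width ≤ j + 4 ≤ al e' ≤ al (nv (Maj ..))` since
`e' ≤ (ch T (j+3)).2 ≤ nv (Maj ..)`. So `G (f (φ, N))` is the test. `uses StRed, StLev, StPtLev, StPtT, StMaj, StTab, StChain, StAl, StEst`. -/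
def StHardM2 : Prop := (∃ G : CNF → Bool, PolyTime G ∧ ∀ φ, width φ ≤ al (nv φ) → Mono φ →
  (G φ = true ↔ 2 ^ nv φ ≤ 2 * count φ)) → Test

/-- The least length of a chain reaching `m`. -/
def qq (T : Tab) (m : ℕ) : ℕ := ((List.range (m + 1)).find? fun q => decide (m ≤ (ch T q).2)).getD 0

/-- The chain length. Proof. `q = m` has `m ≤ (ch T m).2` (`StChain`), so `find?` finds the least one; `(ch T 0).2 = 0 < m`. Let
`q' = alk (j+3) n` with `m ≤ n`: `n ≤ B (j+3) q' = (A j)^[q'] 0` (`Nat.sInf_mem`, nonempty since `n ≤ (A j)^[n] 0`), so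
`min ((A j)^[q'] 0) m = m ≤ (ch T q').2`, so `q ≤ q'` by minimality. `uses StChain, StAck`. -/
def StQq : Prop := ∀ (m j : ℕ) (T : Tab), Good m j T → 1 ≤ m →
  1 ≤ qq T m ∧ qq T m ≤ m ∧ m ≤ (ch T (qq T m)).2 ∧ ∀ n, m ≤ n → qq T m ≤ alk (j + 3) n

/-- The B2 instance: `ℓ` is a unary number, `d`, `n0` the constants, `m = e + 1`. -/
def fin2 (τ : ℕ → ℕ) (j d n0 : ℕ) (D : CNF) (e : ℕ) : CNF :=
  let T := tab (e + 1) j
  let q := qq T (e + 1)
  let P := Phi T q D e
  let n := (nv P + n0 + e + 3) ^ (d + 1)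
  fpad (q + 1) P (n - nv P - (τ n - q)) (τ n - q)

/-- The B2 instance is correct. Proof. `m = e + 1`, `T = tab m j` good, `q = qq T m`, `P = Phi T q D e`, `X = nv P + n0 + e + 3`,
`n = X^(d+1)`. `n ≥ X ≥ n0, m`, so `alk (j+3) n ≤ τ n` and `n ≤ (n - τ n)^d`; if `n - τ n < X` then `n ≤ (X-1)^d < X^(d+1)`, false; so
`X ≤ n - τ n`. `q ≤ alk (j+3) n ≤ τ n` (`StQq`). `u = τ n - q`, `w = n - nv P - u ≥ 0` exactly: `nv P + w + u = n`. `StFpad` (the list of
`P` has `q + 1 ≥ 2` pieces): `nv = n`, density `dens P * 2^(-u)`. `2^(n - τ n) ≤ count ↔ 2^(-τ n) ≤ dens P * 2^(-u) ↔ 2^(-q) ≤ dens P ↔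
2^(-e) ≤ dens D` (`StPhi`, `e ≤ m ≤ (ch T q).2`). Width `≤ j + 3`. `uses StTab, StQq, StPhi, StFpad, StDensB, StChain`. -/
def StFin2 : Prop := ∀ (τ : ℕ → ℕ) (j d n0 : ℕ), (∀ n, n0 ≤ n → alk (j + 3) n ≤ τ n ∧ n ≤ (n - τ n) ^ d) →
  ∀ (D : CNF) (e : ℕ), Mono D → width D ≤ 2 → e ≤ nv D →
  Mono (fin2 τ j d n0 D e) ∧ width (fin2 τ j d n0 D e) ≤ j + 3 ∧
  (2 ^ (nv (fin2 τ j d n0 D e) - τ (nv (fin2 τ j d n0 D e))) ≤ count (fin2 τ j d n0 D e) ↔ (1 / 2 : ℚ) ^ e ≤ dens D)

/-- The B2 instance in polynomial time, for `τ` computable in polynomial time from unary numbers. Proof. `p = (D, e)`, `e` is replaced by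
`min e (nv D)` to have `PBd`. `qq`: `find?` over the range with `q` in unary `replicate (min q (e+1)) ()`. `n` is `PBd` since `nv P ≤ size P`
and `P` is computed in polynomial time; `τ n = (fun l => τ l.length) (replicate n ())`. Since `τ n` may be large for strange `τ`: in
`fpad` the unary numbers `u = τ n - q` and `w` are needed; use `min (τ n) n`: `u' = min (τ n) n - q`; hence the statement with `min`.
`Phi` by the guarded version of `StPtT` with the unary bound `(j + 2) * (2 * (e + 1) + 2)` (`StTab`, `StChain`: the guard is always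
true). `uses StPtC, StPtT, StEst, StTab, StChain`. -/
def StPtFin2 : Prop := ∀ (τ : ℕ → ℕ) (j d n0 : ℕ), UPoly τ →
  PolyTime (fun p : CNF × ℕ => fin2 (fun n => min (τ n) n) j d n0 p.1 (min p.2 (nv p.1)))

/-- Hardness of the leading bits. Proof. `k = j + 3`. `τ' n = min (τ n) n` satisfies the same hypotheses for `n ≥ max n0 1` with `d`
(if `n ≤ (n - τ n)^d` and `n ≥ 2` then `τ n < n`, so `τ' n = τ n`). Test `(φ, N) ↦ G (fin2 τ' j d n0' D (min e (nv D)))`,
`(D, e) = R (φ, N)`. `uses StRed, StFin2, StPtFin2`. -/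
def StHardB2 : Prop := ∀ k : ℕ, 3 ≤ k → ∀ τ : ℕ → ℕ, UPoly τ → (∃ d n0 : ℕ, ∀ n, n0 ≤ n → alk k n ≤ τ n ∧ n ≤ (n - τ n) ^ d) →
  (∃ G : CNF → Bool, PolyTime G ∧ ∀ φ, width φ ≤ k → Mono φ → (G φ = true ↔ 2 ^ (nv φ - τ (nv φ)) ≤ count φ)) → Test

/-- `alk k` in polynomial time from unary numbers. Proof. For fixed `j` the truncated function `min (A j x) n`, `x ≤ n`, is a table in
polynomial time in unary `n`, by induction on `j`: `j = 0`: `min (x + 2^(x+1)) n`: if `x + 1 ≤ Nat.size n` then compute, else `n`.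
Step: `min (A (j+1) x) n = min (x + 1 + y) n`, `y` the `(x+1)`-fold iterate from 0 of `z ↦ table[z]` (`A j` monotone and `≥ id`:
truncation commutes with the iteration: `min (A j (min z n)) n = min (A j z) n`). Then `alk k n` is the least `q ≤ n` such that the
`q`-fold iterate is `n` (`find?` over the range; `n ≤ (A j)^[n] 0`), `j = k - 3`. Second claim: `alk k n ≤ n / 2` for `n ≥ 4`, since
`2^q - 1 ≤ (A j)^[q] 0` by `2x + 2 ≤ A j x`; and `n ≤ (n - n/2)^2` for `n ≥ 4`. `uses StAck`. -/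
def StB3' : Prop := StB3

/-! ### E. Assembly -/

/-- Proof. `C` of `StGapM1` (`StG2.lean`), `F φ = decide (2^(Nat.size (nv φ) + C) ≤ 2 * est C φ)`, in polynomial time by `StEst`. Let `k = max 1
(width φ)`, `M = Nat.size (nv φ) + C`, `ψ = nrm φ`, `a = est C φ / 2^M`. If `1/2 ≤ dens φ = dens ψ ≤ a`
the answer is yes. If `dens ψ < 1/2` then `a ≤ dens ψ + unf / 2^M < 1/2 - 2^(-H) + 2^(-H)` (`StLeaves`, `StErr`).
`2^nv ≤ 2 count ↔ 1/2 ≤ dens`. `uses StNrm, StLeaves, StErr, StEst, StGapM1, StDensB`. -/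
def StM1' : Prop := StM1

/-- Proof. `C` of `StGapB1` (`StG2.lean`). `F φ = 2^nv φ * est C φ / 2^M`, `M = Nat.size (nv φ) + C`, natural division. With `n = nv φ`,
`a = est C φ / 2^M`, `t ≤ n`: `F φ / 2^(n-t) = ⌊a * 2^t⌋` (`Nat.div_div_eq_div_mul`, `Nat.floor_div_eq_div`) and `count φ / 2^(n-t) =
⌊dens φ * 2^t⌋`. `dens ≤ a` gives `≥`. Let `m = ⌊dens * 2^t⌋ + 1`: `dens < m / 2^t`, so `dens ≤ m / 2^t - 2^(-H)` and
`a ≤ dens + unf / 2^M < m / 2^t` (`StLeaves`, `StErr` for `nrm φ`). `uses StNrm, StLeaves, StErr, StEst, StGapB1, StDensB`. -/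
def StB1' : Prop := StB1

/-- Proof. `StHardM2`, `StRB`; conversely `StRC` (`StR.lean`). `uses StHardM2, StRB, StRC`. -/
def StM2' : Prop := StM2

/-- Proof. `StHardB2`, `StRB`; conversely `StRC`. `uses StHardB2, StRB, StRC`. -/
def StB2' : Prop := StB2

end Pool.Agent.AK
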