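import Mathlib
import Pool.Agent.AK.StF

set_option autoImplicit false

/-!
# AK, module Ack (MP_4ed1f9_lc): elementary facts on the Ackermann functions
-/

namespace Pool.Agent.AK

theorem thm_Ack (h1 : StN01) (h2 : StN02) : StAck := by
  obtain ⟨hA1, hA2, hA3, hA4, hA5, -, -, -⟩ := h1
  obtain ⟨hI1, -, hI3, hI4, -, -⟩ := h2
  have c4 : ∀ i j x, i ≤ j → A i x ≤ A j x := by
    intro i j x hij
    induction j, hij using Nat.le_induction with
    | base => exact le_refl _
    | succ j _ ih => exact le_trans ih (hA4 j x)
  refine ⟨hA1, ?_, hA4, ?_, ?_, ?_, ?_⟩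
  · intro j x
    have e := hA5 j x
    have h : x < 2 ^ x := Nat.lt_two_pow_self
    rw [pow_succ] at e
    omega
  · intro i j q hij
    induction q with
    | zero => exact le_refl _
    | succ q ih =>
      rw [Function.iterate_succ_apply', Function.iterate_succ_apply']
      exact le_trans ((hA1 i).monotone ih) (c4 i j _ hij)
  · intro j p q hpq
    exact hI4 j p q 0 hpq
  · intro j q
    have := hI1 j q 0
    omega
  · intro J
    have e0 := hI1 J (J + 1) 0
    have e1 : (A J)^[J + 3] 0 = A J (A J ((A J)^[J + 1] 0)) := by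
      rw [Function.iterate_succ_apply', Function.iterate_succ_apply']
    rw [e1]
    refine le_trans ?_ (hA5 J _)
    refine Nat.pow_le_pow_right (by norm_num) ?_
    refine le_trans ?_ (Nat.le_succ _)
    refine le_trans ?_ (hA5 J _)
    exact Nat.pow_le_pow_right (by norm_num) (by omega)

end Pool.Agent.AK
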