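import Pool.Agent.AK.StF

set_option autoImplicit false

/-!
# AK, module Al: facts on the inverse Ackermann function
-/

namespace Pool.Agent.AK

theorem Al_mem (h : StAck) (n : ℕ) :
    Nat.size (Nat.size n) + 4 ∈ {k | 4 ≤ k ∧ n ≤ B (k - 1) (k - 1)} := by
  refine ⟨by omega, ?_⟩
  have h1 : n < 2 ^ Nat.size n := Nat.lt_size_self n
  have h2 : Nat.size n < 2 ^ Nat.size (Nat.size n) := Nat.lt_size_self _
  have h3 : 2 ^ Nat.size n ≤ 2 ^ 2 ^ Nat.size (Nat.size n) :=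
    Nat.pow_le_pow_right (by norm_num) h2.le
  have h4 := h.2.2.2.2.2.2 (Nat.size (Nat.size n))
  show n ≤ (A (Nat.size (Nat.size n) + 4 - 1 - 3))^[Nat.size (Nat.size n) + 4 - 1] 0
  have h5 : Nat.size (Nat.size n) + 4 - 1 - 3 = Nat.size (Nat.size n) := by omega
  have h6 : Nat.size (Nat.size n) + 4 - 1 = Nat.size (Nat.size n) + 3 := by omega
  rw [h5, h6]
  exact le_trans h1.le (le_trans h3 h4)

theorem thm_Al (h : StAck) : StAl := by
  have hm : ∀ n, al n ∈ {k | 4 ≤ k ∧ n ≤ B (k - 1) (k - 1)} := fun n =>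
    Nat.sInf_mem ⟨_, Al_mem h n⟩
  refine ⟨fun n => ⟨(hm n).1, (hm n).2, Nat.sInf_le (Al_mem h n)⟩, fun m n hmn => ?_,
    fun n k hk hkn => ?_⟩
  · exact Nat.sInf_le ⟨(hm n).1, le_trans hmn (hm n).2⟩
  · by_contra hc
    exact absurd (Nat.sInf_le (s := {k | 4 ≤ k ∧ n ≤ B (k - 1) (k - 1)}) ⟨hk, not_lt.1 hc⟩)
      (not_le.2 hkn)

end Pool.Agent.AK
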