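import Pool.Agent.AK.StF

set_option autoImplicit false

/-!
# AK, module B3: `alk k` is computed in polynomial time from unary numbers
-/

namespace Pool.Agent.AK

open Pool.Agent.PolyTime

/-- The table of the truncated function. -/
def B3_tb : ℕ → ℕ → List ℕ
  | 0, n => (List.range (n + 1)).map fun x => min (x + 2 ^ (min x n + 1)) n
  | j + 1, n => (List.range (n + 1)).map fun x =>
      min (x + 1 + (fun z => (B3_tb j n).getD z 0)^[min x n + 1] 0) n

theorem B3_len (j n : ℕ) : (B3_tb j n).length = n + 1 := by
  cases j <;> simp [B3_tb]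

theorem B3_le (j n z : ℕ) : (B3_tb j n).getD z 0 ≤ n := by
  by_cases h : z < (B3_tb j n).length
  · rw [List.getD_eq_getElem _ _ h]
    cases j with
    | zero =>
      simp only [B3_tb, List.getElem_map, List.getElem_range]
      exact min_le_right _ _
    | succ j =>
      simp only [B3_tb, List.getElem_map, List.getElem_range]
      exact min_le_right _ _
  · rw [List.getD_eq_default _ _ (by omega)]
    omega

theorem B3_it_le (j n i : ℕ) : (fun z => (B3_tb j n).getD z 0)^[i] 0 ≤ n := by
  cases i with
  | zero => exact Nat.zero_le _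
  | succ i =>
    rw [Function.iterate_succ_apply']
    exact B3_le _ _ _

theorem B3_val (h1 : StAck) (j n : ℕ) : (∀ x, x ≤ n → (B3_tb j n).getD x 0 = min (A j x) n) ∧
    ∀ i, (fun z => (B3_tb j n).getD z 0)^[i] 0 = min ((A j)^[i] 0) n := by
  have key : ∀ j : ℕ, (∀ x, x ≤ n → (B3_tb j n).getD x 0 = min (A j x) n) →
      ∀ i, (fun z => (B3_tb j n).getD z 0)^[i] 0 = min ((A j)^[i] 0) n := by
    intro j hj i
    induction i with
    | zero => simp
    | succ i ih =>
      rw [Function.iterate_succ_apply', Function.iterate_succ_apply', ih]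
      show (B3_tb j n).getD (min ((A j)^[i] 0) n) 0 = _
      rw [hj _ (min_le_right _ _)]
      rcases le_total ((A j)^[i] 0) n with h | h
      · rw [min_eq_left h]
      · rw [min_eq_right h]
        have h2 := h1.2.1 j n
        have h3 := (h1.1 j).monotone h
        rw [min_eq_right (by omega), min_eq_right (by omega)]
  have hval : ∀ x, x ≤ n → (B3_tb j n).getD x 0 = min (A j x) n := by
    induction j with
    | zero =>
      intro x hx
      rw [List.getD_eq_getElem _ _ (by rw [B3_len]; omega)]
      simp only [B3_tb, List.getElem_map, List.getElem_range, A]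
      rw [min_eq_left hx]
    | succ j ih =>
      intro x hx
      rw [List.getD_eq_getElem _ _ (by rw [B3_len]; omega)]
      simp only [B3_tb, List.getElem_map, List.getElem_range, A]
      rw [min_eq_left hx]
      have h4 := key j ih (x + 1)
      rw [h4]
      omega
  exact ⟨hval, key j hval⟩

theorem B3_pt_it {j : ℕ} (h : PolyTime fun l : List Unit => B3_tb j l.length) :
    PolyTime (fun p : List Unit × ℕ =>
      (fun z => (B3_tb j p.1.length).getD z 0)^[min p.2 p.1.length + 1] 0) := by
  refine PolyTime.iterate (f := fun (p : List Unit × ℕ) z => (B3_tb j p.1.length).getD z 0)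
    (n := fun p => min p.2 p.1.length + 1) (g := fun _ => 0) (B := fun p => p.1.length) ?_ ?_ ?_
    (PolyTime.const 0) ?_ ?_
  · have h2 : PolyTime (fun q : (List Unit × ℕ) × ℕ => B3_tb j q.1.1.length) :=
      h.comp (f := fun q : (List Unit × ℕ) × ℕ => q.1.1) (by fun_prop)
    exact PolyTime.getD h2 (by fun_prop) (PolyTime.const 0)
  · fun_prop
  · exact ((pbd_length (l := fun p : List Unit × ℕ => p.1) (by fun_prop)).add
      (PBd.const 1)).mono (fun p => by omega)
  · exact pbd_length (by fun_prop)
  · intro p i _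
    exact (size_nat_self _).trans (B3_it_le j p.1.length i)

theorem B3_pt (j : ℕ) : PolyTime fun l : List Unit => B3_tb j l.length := by
  induction j with
  | zero =>
    refine PolyTime.map (l := fun l : List Unit => List.range (l.length + 1))
      (g := fun l x => min (x + 2 ^ (min x l.length + 1)) l.length) ?_ ?_
    · exact PolyTime.range (by fun_prop) ((pbd_length (by fun_prop)).add (PBd.const 1))
    · have h2 : PolyTime (fun p : List Unit × ℕ => 2 ^ (min p.2 p.1.length + 1)) := by
        refine PolyTime.pow (PolyTime.const 2) (by fun_prop) ?_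
        exact ((pbd_length (l := fun p : List Unit × ℕ => p.1) (by fun_prop)).add
          (PBd.const 1)).mono (fun p => by omega)
      fun_prop
  | succ j ih =>
    refine PolyTime.map (l := fun l : List Unit => List.range (l.length + 1))
      (g := fun l x => min (x + 1 + (fun z => (B3_tb j l.length).getD z 0)^[min x l.length + 1] 0)
        l.length) ?_ ?_
    · exact PolyTime.range (by fun_prop) ((pbd_length (by fun_prop)).add (PBd.const 1))
    · have h2 := B3_pt_it ih
      fun_prop

/-- the number of iterations needed to reach `n` -/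
def B3_al (j n : ℕ) : ℕ := ((List.range (n + 1)).find? fun q =>
  decide (q = 0 ∧ n = 0) || decide (1 ≤ q ∧
    n ≤ (fun z => (B3_tb j n).getD z 0)^[min (q - 1) n + 1] 0)).getD 0

theorem B3_pt_al (j : ℕ) : PolyTime fun l : List Unit => B3_al j l.length := by
  unfold B3_al
  have h2 := B3_pt_it (B3_pt j)
  have h3 : PolyTime (fun p : List Unit × ℕ =>
      (fun z => (B3_tb j p.1.length).getD z 0)^[min (p.2 - 1) p.1.length + 1] 0) :=
    h2.comp (f := fun p : List Unit × ℕ => (p.1, p.2 - 1)) (by fun_prop)
  refine PolyTime.option_getD (PolyTime.find? (l := fun l : List Unit => List.range (l.length + 1))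
    (p := fun l q => decide (q = 0 ∧ l.length = 0) || decide (1 ≤ q ∧
      l.length ≤ (fun z => (B3_tb j l.length).getD z 0)^[min (q - 1) l.length + 1] 0)) ?_ ?_)
    (PolyTime.const 0)
  · exact PolyTime.range (by fun_prop) ((pbd_length (by fun_prop)).add (PBd.const 1))
  · fun_prop

theorem B3_al_eq (h1 : StAck) (j n : ℕ) : alk (j + 3) n = B3_al j n := by
  have hB : ∀ q, B (j + 3) q = (A j)^[q] 0 := fun q => rfl
  have hmem : n ∈ {q | n ≤ B (j + 3) q} := by
    show n ≤ B (j + 3) n
    rw [hB]
    exact h1.2.2.2.2.2.1 j n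
  have hne : ({q | n ≤ B (j + 3) q} : Set ℕ).Nonempty := ⟨n, hmem⟩
  have hle : alk (j + 3) n ≤ n := Nat.sInf_le hmem
  have hin : n ≤ B (j + 3) (alk (j + 3) n) := Nat.sInf_mem hne
  have hmin : ∀ q, q < alk (j + 3) n → ¬ n ≤ B (j + 3) q := fun q hq h =>
    absurd (Nat.sInf_le (s := {q | n ≤ B (j + 3) q}) h) (not_le.2 hq)
  have hp : ∀ q, q ≤ n → (decide (q = 0 ∧ n = 0) || decide (1 ≤ q ∧
      n ≤ (fun z => (B3_tb j n).getD z 0)^[min (q - 1) n + 1] 0)) = decide (n ≤ B (j + 3) q) := by
    intro q hq
    rw [hB, (B3_val h1 j n).2]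
    rcases Nat.eq_zero_or_pos q with h | h
    · subst h
      rw [Bool.eq_iff_iff]
      simp
    · rw [min_eq_left (by omega : q - 1 ≤ n), Nat.sub_add_cancel h, Bool.eq_iff_iff]
      simp only [Bool.or_eq_true, decide_eq_true_eq, le_min_iff, le_refl, and_true]
      constructor
      · rintro (h2 | h2)
        · omega
        · exact h2.2
      · intro h2
        exact Or.inr ⟨h, h2⟩
  have hf : (List.range (n + 1)).find? (fun q => decide (q = 0 ∧ n = 0) || decide (1 ≤ q ∧
      n ≤ (fun z => (B3_tb j n).getD z 0)^[min (q - 1) n + 1] 0)) = some (alk (j + 3) n) := by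
    rw [List.find?_range_eq_some]
    refine ⟨?_, List.mem_range.2 (by omega), ?_⟩
    · rw [hp _ hle]
      exact decide_eq_true hin
    · intro q hq
      rw [hp _ (by omega), decide_eq_false (hmin q hq)]
      rfl
  unfold B3_al
  rw [hf]
  rfl

theorem thm_B3 (h1 : StAck) : StB3 := by
  intro k hk
  obtain ⟨j, rfl⟩ : ∃ j, k = j + 3 := ⟨k - 3, by omega⟩
  refine ⟨(B3_pt_al j).congr (fun l => (B3_al_eq h1 j l.length).symm), 4, ?_⟩
  intro n hn
  have hB : ∀ q, B (j + 3) q = (A j)^[q] 0 := fun q => rfl
  have hgr : ∀ q, 2 ≤ q → 2 * q + 1 ≤ (A j)^[q] 0 := by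
    intro q hq
    induction q, hq using Nat.le_induction with
    | base =>
      show 5 ≤ A j (A j 0)
      have h2 := h1.2.1 j 0
      have h3 := h1.2.1 j (A j 0)
      omega
    | succ q _ ih =>
      rw [Function.iterate_succ_apply']
      have h2 := h1.2.1 j ((A j)^[q] 0)
      omega
  have hle : alk (j + 3) n ≤ n / 2 := by
    apply Nat.sInf_le
    show n ≤ B (j + 3) (n / 2)
    rw [hB]
    have := hgr (n / 2) (by omega)
    omega
  have h2 : n / 2 ≤ n - alk (j + 3) n := by omega
  have h3 : n ≤ 2 * (n - alk (j + 3) n) := by omega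
  have h4 : 2 ≤ n - alk (j + 3) n := by omega
  calc n ≤ 2 * (n - alk (j + 3) n) := h3
    _ ≤ (n - alk (j + 3) n) * (n - alk (j + 3) n) := Nat.mul_le_mul_right _ h4
    _ = (n - alk (j + 3) n) ^ 2 := (sq _).symm

end Pool.Agent.AK
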