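import Pool.Agent.AK.StF

/-!
# AK, [Chain]: the chain in a good table
-/

set_option autoImplicit false

namespace Pool.Agent.AK

/-- [Chain] the chain in a good table -/
theorem thm_Chain (h1 : StAck) (h2 : StSmall) (h3 : StShape) : StChain := by
  intro m j T q hT
  obtain ⟨hlen, hT⟩ := hT
  obtain ⟨hmono, -⟩ := h1
  obtain ⟨-, -, -, hd0⟩ := h2
  obtain ⟨-, -, -, -, -, hm0, hw0⟩ := h3
  induction q with
  | zero =>
    refine ⟨rfl, ?_, ?_, ?_, ?_, ?_⟩
    · simp [ch]
    · simp [ch]
    · simp [ch]
    · simp [ch]
    · intro ψ hψ
      simp [ch] at hψ
  | succ q ih =>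
    have e1 : ch T (q + 1) = cst T (ch T q) := by
      unfold ch
      rw [Function.iterate_succ_apply']
    obtain ⟨i1, i2, i3, i4, i5, i6⟩ := ih
    rw [e1]
    generalize ch T q = p at i1 i2 i3 i4 i5 i6
    obtain ⟨L, y⟩ := p
    simp only at i1 i2 i3 i4 i5 i6
    unfold cst
    by_cases hy : y < T.length
    · have e2 : T[y]? = some T[y] := List.getElem?_eq_getElem hy
      simp only [e2]
      obtain ⟨g1, g2, g3, g4, g5, g6⟩ := hT y hy
      have hym : y < m := by omega
      refine ⟨?_, ?_, ?_, ?_, g4, ?_⟩
      · rw [List.length_append, i1]
        rfl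
      · rw [List.map_append, List.sum_append, i2]
        simp only [List.map_cons, List.map_nil, List.sum_cons, List.sum_nil, add_zero]
        rw [g1]
        ring
      · rw [Function.iterate_succ_apply']
        have h5 : (A j)^[q] 0 ≤ y := by
          rcases min_le_iff.mp i3 with h | h
          · exact h
          · omega
        have h6 : A j ((A j)^[q] 0) ≤ A j y := (hmono j).monotone h5
        exact le_trans (min_le_min_right m h6) g2
      · have h5 : q ≤ y := by
          rcases min_le_iff.mp i4 with h | h
          · exact h
          · omega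
        exact le_trans (min_le_left _ _) (by omega)
      · intro ψ hψ
        rcases List.mem_append.mp hψ with h | h
        · exact i6 ψ h
        · rw [List.mem_singleton] at h
          rw [h]
          exact ⟨g5, g6⟩
    · have e2 : T[y]? = none := List.getElem?_eq_none (by omega)
      simp only [e2]
      have hym : m ≤ y := by omega
      refine ⟨?_, ?_, le_trans (min_le_right _ _) hym, le_trans (min_le_right _ _) hym, i5, ?_⟩
      · rw [List.length_append, i1]
        rfl
      · rw [List.map_append, List.sum_append, i2]
        simp only [List.map_cons, List.map_nil, List.sum_cons, List.sum_nil, add_zero]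
        rw [hd0, add_zero]
      · intro ψ hψ
        rcases List.mem_append.mp hψ with h | h
        · exact i6 ψ h
        · rw [List.mem_singleton] at h
          rw [h, hw0]
          exact ⟨hm0, Nat.zero_le _⟩

end Pool.Agent.AK
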