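import Pool.Agent.AK.StF

/-!
# AK: elementary facts on densities
-/

set_option autoImplicit false

namespace Pool.Agent.AK

open Pool.Agent.PolyTime

theorem thm_DensB (h1 : StPrBool) (h2 : StDensPr) : StDensB := by
  have hd : ∀ φ : CNF, dens φ = Pr (vars φ) (fun S => Sat S φ) := fun φ =>
    (h2 φ (vars φ) (Finset.Subset.refl _)).2
  have hmono : ∀ φ ψ : CNF, (∀ S, Sat S φ → Sat S ψ) → dens φ ≤ dens ψ := by
    intro φ ψ h
    rw [(h2 φ (vars φ ∪ vars ψ) Finset.subset_union_left).2,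
      (h2 ψ (vars φ ∪ vars ψ) Finset.subset_union_right).2]
    exact (h1 _ (fun S => Sat S φ) (fun S => Sat S ψ)).2.2.1 fun S _ hS => h S hS
  refine ⟨fun φ => ?_, ?_, fun φ hφ => ?_, hmono, fun φ ψ h => ?_, fun φ => ?_⟩
  · rw [hd]
    exact ⟨(h1 _ (fun S => Sat S φ) (fun S => Sat S φ)).1,
      (h1 _ (fun S => Sat S φ) (fun S => Sat S φ)).2.1⟩
  · rw [hd, (h1 _ (fun S => Sat S []) (fun _ => True)).2.2.2.1 (fun S _ => by simp [Sat])]
    exact (h1 _ (fun _ => True) (fun _ => True)).2.2.2.2.2.2.2.1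
  · rw [hd, (h1 _ (fun S => Sat S φ) (fun _ => False)).2.2.2.1 (fun S _ => ?_)]
    · exact (h1 _ (fun _ => True) (fun _ => True)).2.2.2.2.2.2.2.2.1
    · constructor
      · intro h
        obtain ⟨l, hl, -⟩ := h [] hφ
        exact absurd hl (by simp)
      · intro h
        exact h.elim
  · exact le_antisymm (hmono φ ψ fun S hS => (h S).1 hS) (hmono ψ φ fun S hS => (h S).2 hS)
  · unfold dens
    rw [div_mul_cancel₀]
    positivity

end Pool.Agent.AK
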