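import Pool.Agent.AK.StF

set_option autoImplicit false

/-!
# AK, DensMul: densities multiply for disjoint sets of variables
-/

namespace Pool.Agent.AK

open Pool.Agent.PolyTime

theorem DensMul_vars (φ ψ : CNF) : vars (φ ++ ψ) = vars φ ∪ vars ψ := by
  unfold vars
  rw [List.flatten_append, List.map_append, List.toFinset_append]

theorem DensMul_sat (φ ψ : CNF) (S : Finset Name) :
    Sat S (φ ++ ψ) ↔ Sat S φ ∧ Sat S ψ := by
  unfold Sat
  constructor
  · intro h
    exact ⟨fun C hC => h C (List.mem_append_left _ hC), fun C hC => h C (List.mem_append_right _ hC)⟩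
  · rintro ⟨h1, h2⟩ C hC
    rcases List.mem_append.1 hC with h3 | h3
    · exact h1 C h3
    · exact h2 C h3

/-- **DensMul**. -/
theorem thm_DensMul (h1 : StPrMul) (h2 : StDensPr) : StDensMul := by
  intro φ ψ hd
  have h3 := (h2 (φ ++ ψ) (vars φ ∪ vars ψ) (DensMul_vars φ ψ).le).2
  have h4 : Pr (vars φ ∪ vars ψ) (fun S => Sat S (φ ++ ψ)) =
      Pr (vars φ ∪ vars ψ) (fun S => Sat S φ ∧ Sat S ψ) := by
    unfold Pr
    congr 2
    apply congrArg
    apply Finset.filter_congr
    intro S _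
    exact DensMul_sat φ ψ S
  rw [h3, h4, h1 (vars φ) (vars ψ) (fun S => Sat S φ) (fun S => Sat S ψ) hd
    (h2 φ (vars φ) (Finset.Subset.refl _)).1 (h2 ψ (vars ψ) (Finset.Subset.refl _)).1,
    ← (h2 φ (vars φ) (Finset.Subset.refl _)).2, ← (h2 ψ (vars ψ) (Finset.Subset.refl _)).2]

end Pool.Agent.AK
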