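import Pool.Agent.AK.StF

set_option autoImplicit false

/-!
# AK, module DensPr: `dens` over a larger set of variables (helper18)
-/

namespace Pool.Agent.AK

private theorem DensPr_sat (φ : CNF) (V : Finset Name) (hV : vars φ ⊆ V) (S : Finset Name) :
    Sat S φ ↔ Sat (S ∩ V) φ := by
  unfold Sat
  refine forall₂_congr (fun C hC => exists_congr fun l => and_congr_right fun hl => ?_)
  have h1 : l.1 ∈ V := by
    refine hV ?_
    unfold vars
    rw [List.mem_toFinset]
    exact List.mem_map_of_mem (List.mem_flatten_of_mem hC hl)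
  rw [Finset.mem_inter, and_iff_left h1]

theorem thm_DensPr (h1 : StPrExt) : StDensPr := by
  intro φ V hV
  refine ⟨DensPr_sat φ V hV, ?_⟩
  rw [h1 (vars φ) V (fun S => Sat S φ) hV (DensPr_sat φ (vars φ) (Finset.Subset.refl _))]
  rfl

end Pool.Agent.AK
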