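import Pool.Agent.AK.StF

set_option autoImplicit false

/-!
# AK, module Err: the error of the branching algorithm
-/

namespace Pool.Agent.AK

private theorem Err_exp : Real.exp (-1) ≤ 1 / 2 := by
  have h : (2 : ℝ) ≤ Real.exp 1 := by
    have := Real.add_one_le_exp (1 : ℝ)
    linarith
  rw [Real.exp_neg, inv_eq_one_div]
  exact one_div_le_one_div_of_le (by norm_num) h

theorem thm_Err (h1 : StUnf) : StErr := by
  intro k M H φ hk hNt hw hM
  have a1 := h1 k M φ hk hNt hw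
  have hx0 : (0 : ℝ) < (1 / 2) ^ k := by positivity
  have hx1 : (1 / 2 : ℝ) ^ k ≤ 1 := pow_le_one₀ (by norm_num) (by norm_num)
  have a2 : 2 ^ k * (H + 1) ≤ M / k := by
    rw [Nat.le_div_iff_mul_le (by omega)]
    calc 2 ^ k * (H + 1) * k = k * 2 ^ k * (H + 1) := by ring
      _ ≤ M := hM
  have a3 : (1 - (1 / 2 : ℝ) ^ k) ^ (M / k) ≤ (1 - (1 / 2 : ℝ) ^ k) ^ (2 ^ k * (H + 1)) :=
    pow_le_pow_of_le_one (by linarith) (by linarith) a2
  have a4 : (1 - (1 / 2 : ℝ) ^ k) ^ (2 ^ k) ≤ Real.exp (-1) := by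
    have b1 : 1 - (1 / 2 : ℝ) ^ k ≤ Real.exp (-((1 / 2 : ℝ) ^ k)) := Real.one_sub_le_exp_neg _
    have b2 := pow_le_pow_left₀ (show (0 : ℝ) ≤ 1 - (1 / 2) ^ k by linarith) b1 (2 ^ k)
    refine b2.trans (le_of_eq ?_)
    rw [← Real.exp_nat_mul]
    congr 1
    push_cast
    rw [mul_neg, ← mul_pow]
    norm_num
  have a5 : (1 - (1 / 2 : ℝ) ^ k) ^ (2 ^ k * (H + 1)) ≤ (1 / 2) ^ (H + 1) := by
    rw [pow_mul]
    exact pow_le_pow_left₀ (pow_nonneg (by linarith) _) (a4.trans Err_exp) _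
  have a6 : ((1 : ℝ) / 2) ^ (H + 1) < (1 / 2) ^ H := by
    rw [pow_succ]
    have : (0 : ℝ) < (1 / 2) ^ H := by positivity
    linarith
  have a7 : (unf (leaves M φ) : ℝ) / 2 ^ M < (1 / 2) ^ H := by linarith
  rw [← Rat.cast_lt (K := ℝ)]
  push_cast
  exact a7

end Pool.Agent.AK
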