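import Pool.Agent.AK.StF
import Pool.Agent.AK.StR

set_option autoImplicit false

/-!
# AK, module Est: the estimate of the density is computed in polynomial time
-/

namespace Pool.Agent.AK

open Pool.Agent.PolyTime

/-! ### restriction -/

private theorem Est_res : PolyTime (fun p : Name × Bool × CNF => res p.1 p.2.1 p.2.2) := by
  unfold res
  refine PolyTime.map
    (l := fun p : Name × Bool × CNF => p.2.2.filter fun C => !decide ((p.1, p.2.1) ∈ C))
    (g := fun (p : Name × Bool × CNF) (C : Clause) => C.filter fun l => !decide (l.1 = p.1)) ?_ ?_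
  · refine PolyTime.filter (l := fun p : Name × Bool × CNF => p.2.2)
      (p := fun (p : Name × Bool × CNF) (C : Clause) => !decide ((p.1, p.2.1) ∈ C)) (by fun_prop) ?_
    have h : PolyTime (fun q : (Name × Bool × CNF) × Clause =>
        decide ((q.1.1, q.1.2.1) ∈ q.2)) :=
      (PolyTime.decide_mem (f := fun q : (Name × Bool × CNF) × Clause => (q.1.1, q.1.2.1))
        (l := fun q : (Name × Bool × CNF) × Clause => q.2) (by fun_prop) (by fun_prop)).congr
        (fun q => decide_eq_decide.2 Iff.rfl)
    exact h.not
  · refine PolyTime.filter (l := fun q : (Name × Bool × CNF) × Clause => q.2)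
      (p := fun (q : (Name × Bool × CNF) × Clause) (l : Lit) => !decide (l.1 = q.1.1))
      (by fun_prop) ?_
    have h : PolyTime (fun r : ((Name × Bool × CNF) × Clause) × Lit =>
        decide (r.2.1 = r.1.1.1)) :=
      (PolyTime.decideEq (f := fun r : ((Name × Bool × CNF) × Clause) × Lit => r.2.1)
        (g := fun r : ((Name × Bool × CNF) × Clause) × Lit => r.1.1.1) (by fun_prop)
        (by fun_prop)).congr (fun q => decide_eq_decide.2 Iff.rfl)
    exact h.not

/-! ### removal of repeated literals -/

/-- One step of `List.dedup`. -/
private def Est_dst (a : Lit) (s : Clause) : Clause := bif decide (a ∈ s) then s else a :: s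

private theorem Est_dedup_eq (C : Clause) : C.foldr Est_dst [] = C.dedup := by
  induction C with
  | nil => rfl
  | cons a C ih =>
    rw [List.foldr_cons, ih]
    unfold Est_dst
    by_cases h : a ∈ C.dedup
    · rw [decide_eq_true h, List.dedup_cons_of_mem' h]
      rfl
    · rw [decide_eq_false h, List.dedup_cons_of_notMem' h]
      rfl

private theorem Est_dedup : PolyTime (fun C : Clause => C.dedup) := by
  have h : PolyTime (fun C : Clause => C.foldr Est_dst []) := by
    refine PolyTime.foldr (l := fun C : Clause => C) (s := fun _ => [])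
      (h := fun (_ : Clause) (a : Lit) (s : Clause) => Est_dst a s) PolyTime.id
      (PolyTime.const []) ?_ (B := fun C => size C) PBd.size ?_
    · unfold Est_dst
      have h1 : PolyTime (fun q : Clause × Lit × Clause => decide (q.2.1 ∈ q.2.2)) :=
        (PolyTime.decide_mem (f := fun q : Clause × Lit × Clause => q.2.1)
          (l := fun q : Clause × Lit × Clause => q.2.2) (by fun_prop) (by fun_prop)).congr
          (fun q => decide_eq_decide.2 Iff.rfl)
      have h2 : PolyTime (fun q : Clause × Lit × Clause => q.2.2) := by fun_prop
      have h3 : PolyTime (fun q : Clause × Lit × Clause => q.2.1 :: q.2.2) := by fun_prop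
      exact PolyTime.cond h1 h2 h3
    · intro C i
      show size ((C.drop i).foldr Est_dst []) ≤ size C
      rw [Est_dedup_eq]
      exact (size_sublist (List.dedup_sublist _)).trans (size_sublist (List.drop_sublist _ _))
  exact h.congr Est_dedup_eq

private theorem Est_nrm : PolyTime nrm := by
  unfold nrm
  refine PolyTime.map
    (l := fun φ : CNF => φ.filter fun C => !C.any fun l => decide ((l.1, !l.2) ∈ C))
    (g := fun (_ : CNF) (C : Clause) => C.dedup) ?_ ?_
  · refine PolyTime.filter (l := fun φ : CNF => φ)
      (p := fun (_ : CNF) (C : Clause) => !C.any fun l => decide ((l.1, !l.2) ∈ C)) PolyTime.id ?_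
    have h : PolyTime (fun q : CNF × Clause => q.2.any fun l => decide ((l.1, !l.2) ∈ q.2)) := by
      refine PolyTime.any (l := fun q : CNF × Clause => q.2)
        (p := fun (q : CNF × Clause) (l : Lit) => decide ((l.1, !l.2) ∈ q.2)) (by fun_prop) ?_
      exact (PolyTime.decide_mem (f := fun r : (CNF × Clause) × Lit => (r.2.1, !r.2.2))
        (l := fun r : (CNF × Clause) × Lit => r.1.2) (by fun_prop) (by fun_prop)).congr
        (fun q => decide_eq_decide.2 Iff.rfl)
    exact h.not
  · exact Est_dedup.comp (f := fun q : CNF × Clause => q.2) (by fun_prop)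

/-! ### sizes -/

private theorem Est_size_map (g : Clause → Clause) (hg : ∀ C, size (g C) ≤ size C) (φ : CNF) :
    size (φ.map g) ≤ size φ := by
  induction φ with
  | nil => exact le_rfl
  | cons C φ ih =>
    rw [List.map_cons, size_cons, size_cons]
    have := hg C
    omega

private theorem Est_size_res (x : Name) (b : Bool) (φ : CNF) : size (res x b φ) ≤ size φ := by
  unfold res
  refine (Est_size_map _ (fun C => size_sublist List.filter_sublist) _).trans ?_
  exact size_sublist List.filter_sublist

private theorem Est_size_nrm (φ : CNF) : size (nrm φ) ≤ size φ := by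
  unfold nrm
  refine (Est_size_map _ (fun C => size_sublist (List.dedup_sublist _)) _).trans ?_
  exact size_sublist List.filter_sublist

private theorem Est_nv_le (φ : CNF) : nv φ ≤ size φ := by
  have h1 : nv φ ≤ φ.flatten.length := by
    unfold nv vars
    refine (List.toFinset_card_le _).trans ?_
    rw [List.length_map]
  refine h1.trans ?_
  clear h1
  induction φ with
  | nil => simp
  | cons C φ ih =>
    rw [List.flatten_cons, List.length_append, size_cons]
    have := length_le_size C
    omega

/-! ### branching -/

private theorem Est_fv_eq (f : CNF) : ((f.headD []).headD ([], false)).1 = fv f := by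
  rcases f with _ | ⟨C, f⟩
  · rfl
  · rcases C with _ | ⟨l, C⟩
    · rfl
    · rfl

private theorem Est_fv : PolyTime fv := by
  have h : PolyTime (fun f : CNF => ((f.headD []).headD ([], false)).1) := by fun_prop
  exact h.congr Est_fv_eq

private theorem Est_sp : PolyTime sp := by
  unfold sp
  refine PolyTime.flatMap (l := fun L : List CNF => L)
    (g := fun (_ : List CNF) (f : CNF) => [res (fv f) true f, res (fv f) false f]) PolyTime.id ?_
  have h1 : ∀ b : Bool, PolyTime (fun q : List CNF × CNF => res (fv q.2) b q.2) := by
    intro b
    have h2 : PolyTime (fun q : List CNF × CNF => ((fv q.2, b, q.2) : Name × Bool × CNF)) := by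
      have h3 : PolyTime (fun q : List CNF × CNF => fv q.2) := Est_fv.comp (by fun_prop)
      exact PolyTime.prodMk h3 (by fun_prop)
    exact Est_res.comp h2
  exact PolyTime.cons (h1 true) (PolyTime.cons (h1 false) (PolyTime.const []))

private theorem Est_sp_bd (B : ℕ) (L : List CNF) (h : ∀ f ∈ L, size f ≤ B) :
    (sp L).length = 2 * L.length ∧ ∀ f ∈ sp L, size f ≤ B := by
  unfold sp
  constructor
  · induction L with
    | nil => rfl
    | cons f L ih =>
      rw [List.flatMap_cons, List.length_append, ih (fun g hg => h g (List.mem_cons_of_mem _ hg)),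
        List.length_cons, List.length_cons, List.length_cons, List.length_nil]
      omega
  · intro f hf
    rw [List.mem_flatMap] at hf
    obtain ⟨g, hg, hfg⟩ := hf
    rw [List.mem_cons, List.mem_singleton] at hfg
    rcases hfg with rfl | rfl
    · exact (Est_size_res _ _ _).trans (h g hg)
    · exact (Est_size_res _ _ _).trans (h g hg)

private theorem Est_it_bd (B i : ℕ) (L : List CNF) (h : ∀ f ∈ L, size f ≤ B) :
    (sp^[i] L).length = 2 ^ i * L.length ∧ ∀ f ∈ sp^[i] L, size f ≤ B := by
  induction i with
  | zero => exact ⟨by simp, h⟩
  | succ i ih =>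
    rw [Function.iterate_succ_apply']
    have h2 := Est_sp_bd B _ ih.2
    refine ⟨?_, h2.2⟩
    rw [h2.1, ih.1, pow_succ]
    ring

private theorem Est_two_pow_size (n : ℕ) : 2 ^ Nat.size n ≤ 2 * n + 1 := by
  rcases Nat.eq_zero_or_pos (Nat.size n) with h | h
  · rw [h]
    simp
  · have h1 : Nat.size n - 1 < Nat.size n := by omega
    have h2 := Nat.lt_size.1 h1
    have h3 : 2 ^ Nat.size n = 2 * 2 ^ (Nat.size n - 1) := by
      rw [← pow_succ']
      congr 1
      omega
    omega

theorem thm_Est (h1 : StRN) : StEst := by
  have hnv : PolyTime nv := h1.1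
  have hnvb : PBd nv := PBd.size.mono Est_nv_le
  refine ⟨?_, hnv, Est_nrm, ?_, Est_res⟩
  · intro C
    unfold est leaves
    have hn : PolyTime (fun φ : CNF => Nat.size (nv φ) + C) :=
      PolyTime.add (PolyTime.natSize hnv) (PolyTime.const C)
    have hnb : PBd (fun φ : CNF => Nat.size (nv φ) + C) := by
      refine (hnvb.add (PBd.const C)).mono (fun φ => ?_)
      have : Nat.size (nv φ) ≤ nv φ := by
        have := size_nat_self (nv φ)
        rwa [size_nat] at this
      omega
    have hg : PolyTime (fun φ : CNF => [nrm φ]) := PolyTime.cons Est_nrm (PolyTime.const [])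
    have hit : PolyTime (fun φ : CNF => sp^[Nat.size (nv φ) + C] [nrm φ]) := by
      refine PolyTime.iterate (f := fun (_ : CNF) (L : List CNF) => sp L)
        (n := fun φ : CNF => Nat.size (nv φ) + C) (g := fun φ : CNF => [nrm φ])
        (B := fun φ : CNF => 2 ^ C * (2 * size φ + 1) * (2 * size φ + 1)) ?_ hn hnb hg ?_ ?_
      · exact Est_sp.comp (f := fun q : CNF × List CNF => q.2) (by fun_prop)
      · exact ((PBd.const (2 ^ C)).mul (((PBd.const 2).mul PBd.size).add (PBd.const 1))).mul
          (((PBd.const 2).mul PBd.size).add (PBd.const 1))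
      · intro φ i hi
        have a1 := Est_it_bd (size φ) i [nrm φ] (fun f hf => by
          rw [List.mem_singleton] at hf
          subst hf
          exact Est_size_nrm φ)
        refine (size_le_of_forall a1.2).trans ?_
        apply Nat.mul_le_mul_right
        show (sp^[i] [nrm φ]).length ≤ _
        rw [a1.1, List.length_singleton, mul_one]
        calc 2 ^ i ≤ 2 ^ (Nat.size (nv φ) + C) := Nat.pow_le_pow_right (by norm_num) hi
          _ = 2 ^ C * 2 ^ Nat.size (nv φ) := by rw [pow_add, mul_comm]
          _ ≤ 2 ^ C * (2 * size φ + 1) := by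
            apply Nat.mul_le_mul_left
            have b1 := Est_two_pow_size (nv φ)
            have b2 := Est_nv_le φ
            omega
    have halive : PolyTime alive := by
      unfold alive
      refine PolyTime.length (PolyTime.filter (l := fun L : List CNF => L)
        (p := fun (_ : List CNF) (f : CNF) => f.all fun C => !C.isEmpty) PolyTime.id ?_)
      refine PolyTime.all (l := fun q : List CNF × CNF => q.2)
        (p := fun (_ : List CNF × CNF) (C : Clause) => !C.isEmpty) (by fun_prop) ?_
      fun_prop
    exact halive.comp hit
  · exact PolyTime.replicate hnv hnvb (PolyTime.const ())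

end Pool.Agent.AK
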