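import Pool.Agent.AK.StF

set_option autoImplicit false

namespace Pool.Agent.AK

open Pool.Agent.PolyTime

theorem Fin2_iff (a x q u : ℕ) (y : ℚ) (c : ℕ) (hc : (c : ℚ) = y * (1 / 2 : ℚ) ^ u * 2 ^ (a + q + u)) (_ : x = a) :
    2 ^ a ≤ c ↔ (1 / 2 : ℚ) ^ q ≤ y := by
  have h2 : (c : ℚ) = y * 2 ^ q * 2 ^ a := by
    rw [hc, pow_add, pow_add]
    have h3 : (1 / 2 : ℚ) ^ u * 2 ^ u = 1 := by
      rw [← mul_pow]
      norm_num
    calc y * (1 / 2 : ℚ) ^ u * (2 ^ a * 2 ^ q * 2 ^ u) = y * 2 ^ q * 2 ^ a * ((1 / 2 : ℚ) ^ u * 2 ^ u) := by ring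
      _ = y * 2 ^ q * 2 ^ a := by rw [h3, mul_one]
  have h4 : (2 ^ a ≤ c) ↔ ((2 : ℚ) ^ a ≤ c) := by
    constructor
    · intro h
      exact_mod_cast h
    · intro h
      exact_mod_cast h
  rw [h4, h2]
  have hp : (0 : ℚ) < 2 ^ a := by positivity
  have hq : (0 : ℚ) < 2 ^ q := by positivity
  rw [one_div, inv_pow, inv_le_iff_one_le_mul₀ hq]
  constructor
  · intro h
    by_contra h5
    push Not at h5
    nlinarith
  · intro h
    nlinarith

theorem thm_Fin2 (h1 : StTab) (h2 : StQq) (h3 : StPhi) (h4 : StFpad) (h5 : StDensB) (h6 : StChain) : StFin2 := by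
  intro τ j d n0 hτ D e hM hw he
  have hT : Good (e + 1) j (tab (e + 1) j) := h1.2 (e + 1) j
  set T := tab (e + 1) j with hTd
  obtain ⟨hq1, hq2, hq3, hq4⟩ := h2 (e + 1) j T hT (by omega)
  set q := qq T (e + 1) with hqd
  obtain ⟨p1, -, p3, p4, p5⟩ := h3 (e + 1) j T q D e hT (by omega) hM hw he
  set P := Phi T q D e with hPd
  set X := nv P + n0 + e + 3 with hXd
  set n := X ^ (d + 1) with hnd
  have hXn : X ≤ n := Nat.le_self_pow (by omega) X
  obtain ⟨t1, t2⟩ := hτ n (by omega)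
  have hX : X ≤ n - τ n := by
    by_contra hcon
    have h7 : (n - τ n) ^ d ≤ X ^ d := Nat.pow_le_pow_left (by omega) d
    have h8 : X ^ (d + 1) = X ^ d * X := pow_succ X d
    have h9 : 0 < X ^ d := Nat.pos_of_ne_zero (pow_ne_zero _ (by omega))
    have h10 : X ^ d * 3 ≤ X ^ d * X := Nat.mul_le_mul_left _ (by omega)
    omega
  have hqn : q ≤ τ n := (hq4 n (by omega)).trans t1
  have hF : fin2 τ j d n0 D e = fpad (q + 1) P (n - nv P - (τ n - q)) (τ n - q) := rfl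
  set L := (ch T q).1 ++ [cj [D, forced ((ch T q).2 - e)]] with hLd
  have hPL : P = oh L := rfl
  have hL : L.length = q + 1 := by
    rw [hLd, List.length_append, (h6 (e + 1) j T q hT).1]
    rfl
  obtain ⟨f1, f2, f3, f4⟩ := h4 L (n - nv P - (τ n - q)) (τ n - q) (by omega)
  rw [hL, ← hPL] at f1 f2 f3 f4
  rw [← hF] at f1 f2 f3 f4
  have hnv : nv (fin2 τ j d n0 D e) = n := by
    rw [f1]
    omega
  refine ⟨f3 p3, f4 (j + 3) (by omega) p4, ?_⟩
  rw [hnv, ← p1]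
  refine Fin2_iff (n - τ n) (n - τ n) q (τ n - q) (dens P) _ ?_ rfl
  rw [h5.2.2.2.2.2 (fin2 τ j d n0 D e), hnv, f2]
  have : n - τ n + q + (τ n - q) = n := by omega
  rw [this]

end Pool.Agent.AK
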