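import Pool.Agent.AK.StF

set_option autoImplicit false

/-!
# AK, module Fpad: padding of a one-hot formula
-/

namespace Pool.Agent.AK

/-- The clauses with the free variables. -/
private def Fpad_mid (r w : ℕ) : CNF :=
  (una w).map fun a => [([true], true), ([true, true], true), (tag (List.replicate r true) a, true)]

/-- The forced variables. -/
private def Fpad_lst (r u : ℕ) : CNF :=
  (una u).map fun a => [(tag (List.replicate (r + 1) true) a, true)]

private theorem Fpad_vars_append (φ ψ : CNF) : vars (φ ++ ψ) = vars φ ∪ vars ψ := by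
  unfold vars
  rw [List.flatten_append, List.map_append, List.toFinset_append]

private theorem Fpad_mem_vars (φ : CNF) (x : Name) : x ∈ vars φ ↔ ∃ C ∈ φ, ∃ l ∈ C, l.1 = x := by
  unfold vars
  rw [List.mem_toFinset, List.mem_map]
  constructor
  · rintro ⟨l, hl, rfl⟩
    rw [List.mem_flatten] at hl
    obtain ⟨C, hC, hlC⟩ := hl
    exact ⟨C, hC, l, hlC, rfl⟩
  · rintro ⟨C, hC, l, hl, rfl⟩
    exact ⟨l, List.mem_flatten.2 ⟨C, hC, hl⟩, rfl⟩

private theorem Fpad_sat_append (S : Finset Name) (φ ψ : CNF) :
    Sat S (φ ++ ψ) ↔ Sat S φ ∧ Sat S ψ := by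
  unfold Sat
  constructor
  · intro h
    exact ⟨fun C hC => h C (List.mem_append_left _ hC), fun C hC => h C (List.mem_append_right _ hC)⟩
  · rintro ⟨h1, h2⟩ C hC
    rcases List.mem_append.1 hC with hC | hC
    · exact h1 C hC
    · exact h2 C hC

/-- The clause of the first two selectors. -/
private theorem Fpad_clause (h : StNames) (L : List CNF) (hL : 2 ≤ L.length) :
    [(([true] : Name), true), (([true, true] : Name), true)] ∈ oh L := by
  unfold oh
  apply List.mem_append_left
  unfold ohp
  rw [List.mem_flatMap]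
  refine ⟨[true], (h.2.2.2.2 _ _).2 ⟨1, by omega, rfl⟩, ?_⟩
  rw [List.mem_map]
  refine ⟨[], ?_, rfl⟩
  rw [List.mem_filter]
  exact ⟨(h.2.2.2.2 _ _).2 ⟨0, by omega, rfl⟩, rfl⟩

/-- The names in a one-hot formula. -/
private theorem Fpad_names (h : StNames) (L : List CNF) (x : Name) (hx : x ∈ vars (oh L)) :
    (∃ b, x = true :: b) ∨ ∃ i < L.length, ∃ y, x = tag (List.replicate i true) y := by
  rw [Fpad_mem_vars] at hx
  obtain ⟨C, hC, l, hl, rfl⟩ := hx
  unfold oh at hC
  rcases List.mem_append.1 hC with hC | hC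
  · left
    unfold ohp at hC
    rw [List.mem_flatMap] at hC
    obtain ⟨a, ha, hC⟩ := hC
    rw [List.mem_map] at hC
    obtain ⟨b, hb, rfl⟩ := hC
    rw [List.mem_cons, List.mem_singleton] at hl
    rcases hl with rfl | rfl
    · exact ⟨b, rfl⟩
    · exact ⟨a, rfl⟩
  · rw [List.mem_flatMap] at hC
    obtain ⟨p, hp, hC⟩ := hC
    rw [List.mem_map] at hC
    obtain ⟨C', hC', rfl⟩ := hC
    rcases List.mem_cons.1 hl with rfl | hl
    · exact Or.inl ⟨p.1, rfl⟩
    · right
      obtain ⟨i, hi, hpi⟩ := (h.2.2.2.2 _ _).1 (List.of_mem_zip (a := p.1) (b := p.2) hp).1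
      refine ⟨i, hi, ?_⟩
      unfold ren at hC'
      rw [List.mem_map] at hC'
      obtain ⟨C'', hC'', rfl⟩ := hC'
      rw [List.mem_map] at hl
      obtain ⟨m, hm, rfl⟩ := hl
      exact ⟨m.1, by rw [← hpi]⟩

/-- New names do not occur. -/
private theorem Fpad_new (h : StNames) (L : List CNF) (j : ℕ) (hj : L.length ≤ j) (y : Name) :
    tag (List.replicate j true) y ∉ vars (oh L) := by
  intro hx
  rcases Fpad_names h L _ hx with ⟨b, hb⟩ | ⟨i, hi, z, hz⟩
  · exact h.2.2.1 _ _ _ hb
  · have := (h.1 j i y z hz).1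
    omega

theorem thm_Fpad (_h1 : StPrExt) (_h2 : StPrMul) (_h3 : StPrBool) (_h4 : StDensPr) (h5 : StDensB)
    (h6 : StDensMul) (h7 : StSmall) (h8 : StRen) (h9 : StNames) (h10 : StShape) : StFpad := by
  intro L w u hL
  have hclause := Fpad_clause h9 L hL
  have hpad : fpad L.length (oh L) w u = oh L ++ Fpad_mid L.length w ++ Fpad_lst L.length u := rfl
  have hren : Fpad_lst L.length u = ren (tag (List.replicate (L.length + 1) true)) (forced u) := by
    unfold Fpad_lst ren forced
    rw [List.map_map]
    rfl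
  have hvlst : vars (Fpad_lst L.length u) =
      (una u).toFinset.image (tag (List.replicate (L.length + 1) true)) := by
    ext x
    rw [Fpad_mem_vars, Finset.mem_image]
    unfold Fpad_lst
    constructor
    · rintro ⟨C, hC, l, hl, rfl⟩
      rw [List.mem_map] at hC
      obtain ⟨a, ha, rfl⟩ := hC
      rw [List.mem_singleton] at hl
      subst hl
      exact ⟨a, List.mem_toFinset.2 ha, rfl⟩
    · rintro ⟨a, ha, rfl⟩
      exact ⟨_, List.mem_map.2 ⟨a, List.mem_toFinset.1 ha, rfl⟩, _, List.mem_singleton_self _, rfl⟩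
  have hsel : ([true] : Name) ∈ vars (oh L) ∧ ([true, true] : Name) ∈ vars (oh L) := by
    constructor
    · rw [Fpad_mem_vars]
      exact ⟨_, hclause, ([true], true), by simp, rfl⟩
    · rw [Fpad_mem_vars]
      exact ⟨_, hclause, ([true, true], true), by simp, rfl⟩
  have hvmid : vars (oh L) ∪ vars (Fpad_mid L.length w) =
      vars (oh L) ∪ (una w).toFinset.image (tag (List.replicate L.length true)) := by
    ext x
    rw [Finset.mem_union, Finset.mem_union]
    by_cases hx : x ∈ vars (oh L)
    · simp only [hx, true_or]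
    · simp only [hx, false_or]
      rw [Fpad_mem_vars, Finset.mem_image]
      unfold Fpad_mid
      constructor
      · rintro ⟨C, hC, l, hl, rfl⟩
        rw [List.mem_map] at hC
        obtain ⟨a, ha, rfl⟩ := hC
        rw [List.mem_cons, List.mem_cons, List.mem_singleton] at hl
        rcases hl with rfl | rfl | rfl
        · exact absurd hsel.1 hx
        · exact absurd hsel.2 hx
        · exact ⟨a, List.mem_toFinset.2 ha, rfl⟩
      · rintro ⟨a, ha, rfl⟩
        exact ⟨_, List.mem_map.2 ⟨a, List.mem_toFinset.1 ha, rfl⟩,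
          (tag (List.replicate L.length true) a, true), by simp, rfl⟩
  have hcardim : ∀ (j n : ℕ), ((una n).toFinset.image (tag (List.replicate j true))).card = n := by
    intro j n
    rw [Finset.card_image_of_injective _ (h9.2.1 j), List.toFinset_card_of_nodup (h9.2.2.2.1 n).2,
      (h9.2.2.2.1 n).1]
  have hdis1 : Disjoint (vars (oh L)) ((una w).toFinset.image (tag (List.replicate L.length true))) := by
    rw [Finset.disjoint_left]
    intro x hx hx'
    obtain ⟨a, -, rfl⟩ := Finset.mem_image.1 hx'
    exact Fpad_new h9 L L.length le_rfl a hx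
  have hdis2 : Disjoint (vars (oh L))
      ((una u).toFinset.image (tag (List.replicate (L.length + 1) true))) := by
    rw [Finset.disjoint_left]
    intro x hx hx'
    obtain ⟨a, -, rfl⟩ := Finset.mem_image.1 hx'
    exact Fpad_new h9 L (L.length + 1) (by omega) a hx
  have hdis3 : Disjoint ((una w).toFinset.image (tag (List.replicate L.length true)))
      ((una u).toFinset.image (tag (List.replicate (L.length + 1) true))) := by
    rw [Finset.disjoint_left]
    intro x hx hx'
    obtain ⟨a, -, rfl⟩ := Finset.mem_image.1 hx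
    obtain ⟨b, -, hb⟩ := Finset.mem_image.1 hx'
    have := (h9.1 _ _ _ _ hb).1
    omega
  refine ⟨?_, ?_, ?_, ?_⟩
  · rw [hpad]
    unfold nv
    rw [Fpad_vars_append, Fpad_vars_append, hvmid, hvlst, Finset.card_union_of_disjoint,
      Finset.card_union_of_disjoint hdis1, hcardim, hcardim]
    rw [Finset.disjoint_union_left]
    exact ⟨hdis2, hdis3⟩
  · have e1 : dens (fpad L.length (oh L) w u) = dens (oh L ++ Fpad_lst L.length u) := by
      apply h5.2.2.2.2.1
      intro S
      rw [hpad, Fpad_sat_append, Fpad_sat_append, Fpad_sat_append]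
      constructor
      · rintro ⟨⟨a, -⟩, b⟩
        exact ⟨a, b⟩
      · rintro ⟨a, b⟩
        refine ⟨⟨a, ?_⟩, b⟩
        intro C hC
        unfold Fpad_mid at hC
        rw [List.mem_map] at hC
        obtain ⟨c, hc, rfl⟩ := hC
        obtain ⟨l, hl, hls⟩ := a _ hclause
        refine ⟨l, ?_, hls⟩
        rw [List.mem_cons, List.mem_singleton] at hl
        rcases hl with rfl | rfl
        · simp
        · simp
    rw [e1, h6 _ _ (by rw [hvlst]; exact hdis2), hren, (h8 _ _ (h9.2.1 _)).2.2.2, (h7.1 u).1]
  · intro hM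
    rw [hpad]
    intro C hC
    rcases List.mem_append.1 hC with hC | hC
    · rcases List.mem_append.1 hC with hC | hC
      · exact hM C hC
      · unfold Fpad_mid at hC
        rw [List.mem_map] at hC
        obtain ⟨c, hc, rfl⟩ := hC
        intro l hl
        rw [List.mem_cons, List.mem_cons, List.mem_singleton] at hl
        rcases hl with rfl | rfl | rfl <;> rfl
    · unfold Fpad_lst at hC
      rw [List.mem_map] at hC
      obtain ⟨c, hc, rfl⟩ := hC
      intro l hl
      rw [List.mem_singleton] at hl
      subst hl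
      rfl
  · intro k hk hw
    rw [h10.1] at hw ⊢
    rw [hpad]
    intro C hC
    rcases List.mem_append.1 hC with hC | hC
    · rcases List.mem_append.1 hC with hC | hC
      · exact hw C hC
      · unfold Fpad_mid at hC
        rw [List.mem_map] at hC
        obtain ⟨c, hc, rfl⟩ := hC
        exact hk
    · unfold Fpad_lst at hC
      rw [List.mem_map] at hC
      obtain ⟨c, hc, rfl⟩ := hC
      show 1 ≤ k
      omega

end Pool.Agent.AK
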