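import Pool.Agent.AK.StF

set_option autoImplicit false

/-!
# AK, module HardB2: hardness of the leading bits
-/

namespace Pool.Agent.AK

open Pool.Agent.PolyTime

theorem thm_HardB2 (h1 : StRed) (h2 : StFin2) (h3 : StPtFin2) : StHardB2 := by
  rintro k hk τ hτ ⟨d, n0, hd⟩ ⟨G, hG, hG'⟩
  obtain ⟨j, rfl⟩ : ∃ j, k = j + 3 := ⟨k - 3, by omega⟩
  obtain ⟨R, hR, hR'⟩ := h1
  have hd' : ∀ n, max n0 2 ≤ n →
      alk (j + 3) n ≤ min (τ n) n ∧ n ≤ (n - min (τ n) n) ^ d := by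
    intro n hn
    obtain ⟨ha, hb⟩ := hd n (le_trans (le_max_left _ _) hn)
    have h2n : 2 ≤ n := le_trans (le_max_right _ _) hn
    have hlt : τ n < n := by
      by_contra hcon
      have h0 : n - τ n = 0 := by omega
      rw [h0] at hb
      rcases Nat.eq_zero_or_pos d with hd0 | hd0
      · rw [hd0, pow_zero] at hb
        omega
      · rw [zero_pow (by omega)] at hb
        omega
    rw [min_eq_left hlt.le]
    exact ⟨ha, hb⟩
  refine ⟨fun p => G (fin2 (fun n => min (τ n) n) j d (max n0 2) (R p).1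
    (min (R p).2 (nv (R p).1))), hG.comp ((h3 τ j d (max n0 2) hτ).comp hR), ?_⟩
  intro φ N hN
  obtain ⟨r1, r2, r3, r4⟩ := hR' φ N hN
  obtain ⟨f1, f2, f3⟩ := h2 (fun n => min (τ n) n) j d (max n0 2) hd' (R (φ, N)).1 (R (φ, N)).2
    r1 r2 r3
  change G (fin2 (fun n => min (τ n) n) j d (max n0 2) (R (φ, N)).1
    (min (R (φ, N)).2 (nv (R (φ, N)).1))) = true ↔ _
  rw [min_eq_left r3, hG' _ f2 f1, r4, ← f3]
  have h0 : ∀ n, n - τ n = n - min (τ n) n := by
    intro n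
    omega
  rw [h0]

end Pool.Agent.AK
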