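import Pool.Agent.AK.StF

set_option autoImplicit false

/-! # AK, module HardM2: a test of majority gives a test of the number of models -/

namespace Pool.Agent.AK

open Pool.Agent.PolyTime

theorem HardM2_una {α : Type} [PEnc α] {n : α → ℕ} (hn : PolyTime n) (hb : PBd n) :
    PolyTime (fun a => List.replicate (n a) ()) :=
  PolyTime.replicate hn hb (PolyTime.const ())

theorem HardM2_size_le (x : ℕ) : Nat.size x ≤ x := Nat.size_le.2 Nat.lt_two_pow_self

theorem HardM2_nv_le (φ : CNF) : nv φ ≤ φ.flatten.length := by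
  unfold nv vars
  refine (List.toFinset_card_le _).trans ?_
  rw [List.length_map]

theorem HardM2_pbd_nv : PBd nv :=
  (pbd_length (l := fun φ : CNF => φ.flatten) (by fun_prop)).mono HardM2_nv_le

theorem thm_HardM2 (h1 : StRed) (h2 : StLev) (h3 : StPtLev) (h4 : StPtT) (h5 : StMaj) (h6 : StTab)
    (h7 : StChain) (h8 : StAl) (h9 : StRN) : StHardM2 := by
  rintro ⟨G, hG, hG2⟩
  obtain ⟨R, hR, hR2⟩ := h1
  have hnv : PolyTime nv := h9.1
  have hMaj := h4.2.2.2.2.2
  -- the number `e`
  have hD : PolyTime (fun p : CNF × ℕ => (R p).1) := hR.fst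
  have he : PolyTime (fun p : CNF × ℕ => min (R p).2 (nv (R p).1)) := hR.snd.min (hnv.comp hD)
  have heb : PBd (fun p : CNF × ℕ => min (R p).2 (nv (R p).1)) :=
    (HardM2_pbd_nv.comp hD).mono fun p => min_le_right _ _
  have hu : PolyTime (fun p : CNF × ℕ => List.replicate (min (R p).2 (nv (R p).1)) ()) :=
    HardM2_una he heb
  have hlev : PolyTime (fun p : CNF × ℕ => lev (min (R p).2 (nv (R p).1))) :=
    (h3.comp hu).congr fun p => by rw [List.length_replicate]
  have hq : PolyTime (fun p : CNF × ℕ => List.replicate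
      (min ((lev (min (R p).2 (nv (R p).1))).1 + 3) (min (R p).2 (nv (R p).1) + 4)) ()) := by
    refine HardM2_una ((hlev.fst.add (PolyTime.const 3)).min (he.add (PolyTime.const 4))) ?_
    exact (heb.add (PBd.const 4)).mono fun p => min_le_right _ _
  have hb : PolyTime (fun p : CNF × ℕ => List.replicate
      ((min (R p).2 (nv (R p).1) + 2) * (2 * min (R p).2 (nv (R p).1) + 2)) ()) := by
    refine HardM2_una ((he.add (PolyTime.const 2)).mul
      (((PolyTime.const 2).mul he).add (PolyTime.const 2))) ?_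
    exact (heb.add (PBd.const 2)).mul (((PBd.const 2).mul heb).add (PBd.const 2))
  have hall : PolyTime (fun p : CNF × ℕ => ((lev (min (R p).2 (nv (R p).1))).2,
      List.replicate (min ((lev (min (R p).2 (nv (R p).1))).1 + 3)
        (min (R p).2 (nv (R p).1) + 4)) (), (R p).1, min (R p).2 (nv (R p).1),
      List.replicate ((min (R p).2 (nv (R p).1) + 2) *
        (2 * min (R p).2 (nv (R p).1) + 2)) ())) :=
    hlev.snd.prodMk (hq.prodMk (hD.prodMk (he.prodMk hb)))
  refine ⟨_, hG.comp (hMaj.comp hall), fun φ N hN => ?_⟩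
  obtain ⟨r1, r2, r3, r4⟩ := hR2 φ N hN
  simp only [List.length_replicate]
  rw [min_eq_left r3]
  generalize (R (φ, N)).1 = D at *
  generalize (R (φ, N)).2 = e at *
  obtain ⟨l1, l2, l3⟩ := h2 e
  have hgood : Good e (lev e).1 (lev e).2 := by
    rw [l1]
    exact h6.2 e (lev e).1
  have hal : (lev e).1 ≤ e := by
    have e1 := (h8.1 e).2.2
    have e2 := HardM2_size_le (Nat.size e)
    have e3 := HardM2_size_le e
    omega
  have hmin : min ((lev e).1 + 3) (e + 4) = (lev e).1 + 3 := min_eq_left (by omega)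
  rw [hmin]
  have hguard : (ch (lev e).2 ((lev e).1 + 3)).2 ≤ (e + 2) * (2 * e + 2) :=
    (h7 e (lev e).1 (lev e).2 ((lev e).1 + 3) hgood).2.2.2.2.1.trans
      (Nat.mul_le_mul_right _ (by omega))
  rw [if_pos hguard]
  obtain ⟨m1, m2, m3, m4⟩ := h5 e (lev e).1 (lev e).2 ((lev e).1 + 3) D e hgood l2 r1 r2 r3
  have hw : width (Maj (lev e).2 ((lev e).1 + 3) D e) ≤
      al (nv (Maj (lev e).2 ((lev e).1 + 3) D e)) := by
    have e1 : max ((lev e).1 + 3 + 1) ((lev e).1 + 4) = (lev e).1 + 4 := by simp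
    rw [e1] at m3
    exact m3.trans (l3.trans (h8.2.1 _ _ (l2.trans m4)))
  rw [hG2 _ hw m2, m1, r4]

end Pool.Agent.AK
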