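import Pool.Agent.AK.StF

/-!
# AK, module Leaves: the leaves of the branching
-/

set_option autoImplicit false

namespace Pool.Agent.AK

private theorem Leaves_step (M : ℕ) (φ : CNF) : leaves (M + 1) φ = sp (leaves M φ) := by
  unfold leaves
  rw [Function.iterate_succ_apply']

private theorem Leaves_sp_cons (f : CNF) (L : List CNF) :
    sp (f :: L) = res (fv f) true f :: res (fv f) false f :: sp L := rfl

private theorem Leaves_len (L : List CNF) : (sp L).length = 2 * L.length := by
  induction L with
  | nil => rfl
  | cons f L ih =>
    rw [Leaves_sp_cons, List.length_cons, List.length_cons, List.length_cons, ih]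
    ring

private theorem Leaves_sum (h1 : StRes) (L : List CNF) :
    ((sp L).map dens).sum = 2 * (L.map dens).sum := by
  induction L with
  | nil => simp [sp]
  | cons f L ih =>
    rw [Leaves_sp_cons]
    simp only [List.map_cons, List.sum_cons]
    rw [ih, (h1 (fv f) f).1]
    ring

private theorem Leaves_alive (f : CNF) :
    (f.all fun C => !C.isEmpty) = true ↔ [] ∉ f := by
  rw [List.all_eq_true]
  constructor
  · intro h h0
    have := h _ h0
    simp at this
  · intro h C hC
    cases C with
    | nil => exact absurd hC h
    | cons l C => rfl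

private theorem Leaves_le (h2 : StDensB) (L : List CNF) :
    (L.map dens).sum ≤ (alive L : ℚ) ∧ (alive L : ℚ) ≤ (L.map dens).sum + unf L := by
  obtain ⟨b1, b2, b3, -, -, -⟩ := h2
  induction L with
  | nil => simp [alive, unf]
  | cons f L ih =>
    obtain ⟨ih1, ih2⟩ := ih
    have hd := b1 f
    unfold alive at ih1
    unfold alive unf at ih2 ⊢
    simp only [List.map_cons, List.sum_cons, List.filter_cons]
    by_cases h : (f.all fun C => !C.isEmpty) = true
    · rw [if_pos h, List.length_cons]
      by_cases h0 : f = []
      · have h3 : ¬ ((!f.isEmpty && f.all fun C => !C.isEmpty) = true) := by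
          rw [h0]
          simp
        rw [if_neg h3, h0, b2]
        push_cast
        constructor
        · linarith
        · linarith
      · have h3 : (!f.isEmpty && f.all fun C => !C.isEmpty) = true := by
          rw [h, Bool.and_true]
          cases f with
          | nil => exact absurd rfl h0
          | cons C f => rfl
        rw [if_pos h3, List.length_cons]
        push_cast
        constructor
        · linarith [hd.2]
        · linarith [hd.1]
    · have h3 : ¬ ((!f.isEmpty && f.all fun C => !C.isEmpty) = true) := by
        intro h4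
        rw [Bool.and_eq_true] at h4
        exact h h4.2
      rw [if_neg h, if_neg h3]
      have h4 : [] ∈ f := by
        by_contra h5
        exact h ((Leaves_alive f).2 h5)
      rw [b3 f h4]
      constructor
      · linarith
      · linarith

private theorem Leaves_vars (φ : CNF) (y : Name) :
    y ∈ vars φ ↔ ∃ C ∈ φ, ∃ l ∈ C, l.1 = y := by
  unfold vars
  simp only [List.mem_toFinset, List.mem_map, List.mem_flatten]
  constructor
  · rintro ⟨l, ⟨C, hC, hl⟩, h⟩
    exact ⟨C, hC, l, hl, h⟩
  · rintro ⟨C, hC, l, hl, h⟩
    exact ⟨l, ⟨C, hC, hl⟩, h⟩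

private theorem Leaves_dead (x : Name) (b : Bool) (f : CNF) (h : [] ∈ f) : [] ∈ res x b f := by
  unfold res
  rw [List.mem_map]
  exact ⟨[], List.mem_filter.2 ⟨h, by simp⟩, rfl⟩

private theorem Leaves_inv1 (h1 : StRes) (f : CNF) (b : Bool) (i N : ℕ)
    (hf : [] ∈ f ∨ f = [] ∨ nv f + i ≤ N) :
    [] ∈ res (fv f) b f ∨ res (fv f) b f = [] ∨ nv (res (fv f) b f) + (i + 1) ≤ N := by
  by_cases h0 : [] ∈ f
  · exact Or.inl (Leaves_dead _ b f h0)
  · cases f with
    | nil => exact Or.inr (Or.inl rfl)
    | cons C g =>
      cases C with
      | nil => exact absurd List.mem_cons_self h0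
      | cons l C =>
        right
        right
        have h3 : nv ((l :: C) :: g) + i ≤ N := by
          rcases hf with hf | hf | hf
          · exact absurd hf h0
          · simp at hf
          · exact hf
        have h4 : fv ((l :: C) :: g) = l.1 := rfl
        have h5 : l.1 ∈ vars ((l :: C) :: g) :=
          (Leaves_vars _ _).2 ⟨l :: C, List.mem_cons_self, l, List.mem_cons_self, rfl⟩
        have h6 := Finset.card_le_card (((h1 l.1 ((l :: C) :: g)).2 b).1)
        rw [Finset.card_erase_of_mem h5] at h6
        have h7 : 0 < (vars ((l :: C) :: g)).card := Finset.card_pos.2 ⟨_, h5⟩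
        rw [h4]
        unfold nv at h3 ⊢
        omega

private theorem Leaves_inv (h1 : StRes) (M : ℕ) (φ : CNF) :
    ∀ f ∈ leaves M φ, [] ∈ f ∨ f = [] ∨ nv f + M ≤ nv φ := by
  induction M with
  | zero =>
    intro f hf
    have h : f = φ := List.mem_singleton.1 hf
    exact Or.inr (Or.inr (by rw [h, Nat.add_zero]))
  | succ M ih =>
    intro f hf
    rw [Leaves_step] at hf
    unfold sp at hf
    rw [List.mem_flatMap] at hf
    obtain ⟨g, hg, hf⟩ := hf
    rcases List.mem_pair.1 hf with rfl | rfl
    · exact Leaves_inv1 h1 g true M _ (ih g hg)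
    · exact Leaves_inv1 h1 g false M _ (ih g hg)

theorem thm_Leaves (h1 : StRes) (h2 : StDensB) : StLeaves := by
  intro M φ
  have hlen : (leaves M φ).length = 2 ^ M := by
    induction M with
    | zero => rfl
    | succ M ih => rw [Leaves_step, Leaves_len, ih, pow_succ]; ring
  have hsum : ((leaves M φ).map dens).sum = 2 ^ M * dens φ := by
    clear hlen
    induction M with
    | zero => simp [leaves]
    | succ M ih => rw [Leaves_step, Leaves_sum h1, ih, pow_succ]; ring
  obtain ⟨h3, h4⟩ := Leaves_le h2 (leaves M φ)
  have hp : (0 : ℚ) < 2 ^ M := by positivity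
  rw [hsum] at h3 h4
  refine ⟨hlen, ?_, ?_, fun hM => ?_⟩
  · rw [le_div_iff₀ hp]
    linarith
  · rw [div_le_iff₀ hp, add_mul, div_mul_cancel₀ _ hp.ne']
    linarith
  · unfold unf
    rw [List.length_eq_zero_iff, List.filter_eq_nil_iff]
    intro f hf h5
    rw [Bool.and_eq_true] at h5
    have h6 := (Leaves_alive f).1 h5.2
    rcases Leaves_inv h1 M φ f hf with h7 | h7 | h7
    · exact h6 h7
    · rw [h7] at h5
      simp at h5
    · have h8 : vars f = ∅ := by
        rw [← Finset.card_eq_zero]
        have : nv f = 0 := by omega
        exact this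
      cases f with
      | nil => simp at h5
      | cons C g =>
        cases C with
        | nil => exact h6 List.mem_cons_self
        | cons l C =>
          have h9 : l.1 ∈ vars ((l :: C) :: g) :=
            (Leaves_vars _ _).2 ⟨l :: C, List.mem_cons_self, l, List.mem_cons_self, rfl⟩
          rw [h8] at h9
          exact absurd h9 (Finset.notMem_empty _)

end Pool.Agent.AK
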