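import Pool.Agent.AK.StF

set_option autoImplicit false

/-!
# AK, module Lev: the level loop is correct
-/

namespace Pool.Agent.AK

open Pool.Agent.PolyTime

/-- the state after `i` steps -/
theorem Lev_inv (m i : ℕ) : ∃ j, (lvs m)^[i] (0, tab0 m) = (j, tab m j) ∧ j ≤ i ∧
    (∀ j', j' < j → ¬ m ≤ (ch (tab m j') (j' + 3)).2) ∧
    (m ≤ (ch (tab m j) (j + 3)).2 ∨ j = i) := by
  induction i with
  | zero => exact ⟨0, rfl, le_rfl, fun j' hj' => absurd hj' (by omega), Or.inr rfl⟩
  | succ i ih =>
    obtain ⟨j, h1, h2, h3, h4⟩ := ih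
    rw [Function.iterate_succ_apply', h1]
    by_cases h : m ≤ (ch (tab m j) (j + 3)).2
    · refine ⟨j, ?_, by omega, h3, Or.inl h⟩
      unfold lvs
      rw [if_pos h]
    · have hj : j = i := h4.resolve_left h
      refine ⟨j + 1, ?_, by omega, ?_, Or.inr (by omega)⟩
      · unfold lvs
        rw [if_neg h]
        unfold tab
        rw [Function.iterate_succ_apply']
      · intro j' hj'
        rcases Nat.lt_succ_iff_lt_or_eq.1 hj' with h5 | h5
        · exact h3 j' h5
        · rw [h5]
          exact h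

theorem thm_Lev (h1 : StTab) (h2 : StChain) (h3 : StAl) : StLev := by
  intro m
  obtain ⟨j, e1, e2, e3, e4⟩ := Lev_inv m (Nat.size (Nat.size m))
  obtain ⟨a1, a2, a3⟩ := h3.1 m
  have hj0 : m ≤ (ch (tab m (al m - 4)) (al m - 4 + 3)).2 := by
    have h4 := (h2 m (al m - 4) (tab m (al m - 4)) (al m - 4 + 3) (h1.2 m _)).2.2.1
    have h5 : al m - 1 - 3 = al m - 4 := by omega
    have h6 : al m - 1 = al m - 4 + 3 := by omega
    unfold B at a2
    rw [h5, h6] at a2
    rw [min_eq_right a2] at h4
    exact h4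
  have hle : j ≤ al m - 4 := by
    by_contra hcon
    exact e3 _ (by omega) hj0
  have hm : m ≤ (ch (tab m j) (j + 3)).2 := by
    rcases e4 with h | h
    · exact h
    · have : j = al m - 4 := by omega
      rw [this]
      exact hj0
  unfold lev
  rw [e1]
  exact ⟨rfl, hm, by show j + 4 ≤ al m; omega⟩

end Pool.Agent.AK
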