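import Pool.Agent.AK.StF

set_option autoImplicit false

namespace Pool.Agent.AK

open Pool.Agent.PolyTime

theorem M1_half (n c : ℕ) : 2 ^ n ≤ 2 * c ↔ (1 / 2 : ℚ) ≤ (c : ℚ) / 2 ^ n := by
  have hp : (0 : ℚ) < 2 ^ n := by positivity
  rw [le_div_iff₀ hp]
  constructor
  · intro h
    have h1 : ((2 ^ n : ℕ) : ℚ) ≤ ((2 * c : ℕ) : ℚ) := by exact_mod_cast h
    push_cast at h1
    linarith
  · intro h
    have h1 : ((2 ^ n : ℕ) : ℚ) ≤ ((2 * c : ℕ) : ℚ) := by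
      push_cast
      linarith
    exact_mod_cast h1

theorem M1_pt (C : ℕ) (h1 : PolyTime (est C)) (h2 : PolyTime nv) :
    PolyTime (fun φ : CNF => decide (2 ^ (Nat.size (nv φ) + C) ≤ 2 * est C φ)) := by
  have hb : PBd (fun φ : CNF => Nat.size (nv φ) + C) := by
    refine PBd.add ?_ (PBd.const C)
    refine h2.pbd.mono (fun φ => ?_)
    rw [size_nat]
  have h3 : PolyTime (fun φ : CNF => Nat.size (nv φ) + C) := by
    have := h2.natSize
    fun_prop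
  have h4 : PolyTime (fun φ : CNF => 2 ^ (Nat.size (nv φ) + C)) :=
    PolyTime.pow (PolyTime.const 2) h3 hb
  have h5 : PolyTime (fun φ : CNF => 2 * est C φ) := PolyTime.mul (PolyTime.const 2) h1
  exact PolyTime.decide_le h4 h5

theorem thm_M1 (h1 : StNrm) (h2 : StLeaves) (h3 : StErr) (h4 : StEst) (h5 : StGapM1) (_ : StDensB) : StM1 := by
  obtain ⟨C, hC⟩ := h5
  refine ⟨fun φ => decide (2 ^ (Nat.size (nv φ) + C) ≤ 2 * est C φ), M1_pt C (h4.1 C) h4.2.1, fun φ hφ => ?_⟩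
  obtain ⟨Hx, e1, e2⟩ := hC φ hφ
  obtain ⟨-, n2, n3, n4, -⟩ := h1 φ
  obtain ⟨-, l2, l3, -⟩ := h2 (Nat.size (nv φ) + C) (nrm φ)
  have e3 := h3 (max 1 (width φ)) (Nat.size (nv φ) + C) Hx (nrm φ) (le_max_left _ _) n4
    (n3.trans (le_max_right _ _)) e1
  rw [n2] at l2 l3
  rw [decide_eq_true_iff, M1_half, M1_half]
  change (1 / 2 : ℚ) ≤ (est C φ : ℚ) / 2 ^ (Nat.size (nv φ) + C) ↔ (1 / 2 : ℚ) ≤ dens φ
  have hest : (est C φ : ℚ) = (alive (leaves (Nat.size (nv φ) + C) (nrm φ)) : ℚ) := rfl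
  rw [hest]
  constructor
  · intro h
    by_contra hcon
    push Not at hcon
    have := e2 hcon
    linarith
  · intro h
    linarith

end Pool.Agent.AK
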