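import Pool.Agent.AK.StF

set_option autoImplicit false

namespace Pool.Agent.AK

open Pool.Agent.PolyTime

theorem M2_test (h : StRB) (t : Test) : PolyTime count := by
  obtain ⟨T, hT, hc⟩ := t
  exact h T hT hc

theorem thm_M2 (h1 : StHardM2) (h2 : StRB) (h3 : StRC) : StM2 := by
  constructor
  · intro h
    exact M2_test h2 (h1 h)
  · intro h
    obtain ⟨G, hG, hc⟩ := (h3 h).1
    exact ⟨G, hG, fun φ _ _ => hc φ⟩

theorem thm_B2 (h1 : StHardB2) (h2 : StRB) (h3 : StRC) : StB2 := by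
  intro k hk τ hτ hd
  constructor
  · intro h
    exact M2_test h2 (h1 k hk τ hτ hd h)
  · intro h
    obtain ⟨G, hG, hc⟩ := (h3 h).2 τ hτ
    exact ⟨G, hG, fun φ _ _ => hc φ⟩

end Pool.Agent.AK
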