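import Mathlib
import Pool.Agent.AK.StF

set_option autoImplicit false

/-!
# AK, module Maj (MP_4ed1f9_lc): the majority instance
-/

namespace Pool.Agent.AK

private lemma Maj_iff (n c : ℕ) (d : ℚ) (h : (c : ℚ) = d * 2 ^ n) :
    2 ^ n ≤ 2 * c ↔ (1 / 2 : ℚ) ≤ d := by
  have e2 : (0 : ℚ) < 2 ^ n := by positivity
  have e3 : (2 ^ n ≤ 2 * c) ↔ ((2 : ℚ) ^ n ≤ 2 * (c : ℚ)) := by
    constructor
    · intro h'
      exact_mod_cast h'
    · intro h'
      exact_mod_cast h'
  rw [e3, h]
  constructor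
  · intro h'
    by_contra h''
    push Not at h''
    have := mul_lt_mul_of_pos_right h'' e2
    linarith
  · intro h'
    have := mul_le_mul_of_nonneg_right h' e2.le
    linarith

theorem thm_Maj (h1 : StOhDens) (h2 : StPhi) (h3 : StSmall) (h4 : StShape) (h5 : StDensB) :
    StMaj := by
  intro m j T q D e hT he hD hw hn
  obtain ⟨p1, -, p3, p4, p5⟩ := h2 m j T q D e hT he hD hw hn
  obtain ⟨-, hW, hM, hN, hB, -, -⟩ := h4
  obtain ⟨-, -, hbig, -⟩ := h3
  obtain ⟨-, -, -, -, -, hc⟩ := h5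
  obtain ⟨-, -, -, -, b5, b6⟩ := hB q
  have hd : dens (Maj T q D e) = (1 + ((1 - (1 / 2 : ℚ) ^ q) + dens (Phi T q D e))) / 4 := by
    unfold Maj
    rw [h1]
    simp only [List.map_cons, List.map_nil, List.sum_cons, List.sum_nil, List.length_cons,
      List.length_nil, hbig]
    norm_num
  have hiff : (2 ^ nv (Maj T q D e) ≤ 2 * count (Maj T q D e)) ↔
      (1 / 2 : ℚ) ≤ dens (Maj T q D e) := by
    exact Maj_iff _ _ _ (hc (Maj T q D e))
  refine ⟨?_, ?_, ?_, ?_⟩
  · rw [hiff, ← p1, hd]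
    constructor
    · intro h
      linarith
    · intro h
      linarith
  · unfold Maj
    refine (hM _ ?_).1
    intro ψ hψ
    rcases List.mem_cons.1 hψ with rfl | hψ
    · exact b5
    · rw [List.mem_singleton.1 hψ]
      exact p3
  · unfold Maj
    refine le_trans (hW [bigc q, Phi T q D e] (max q (j + 3)) ?_).1 ?_
    · intro ψ hψ
      rcases List.mem_cons.1 hψ with rfl | hψ
      · exact le_trans b6 (le_max_left _ _)
      · rw [List.mem_singleton.1 hψ]
        exact le_trans p4 (le_max_right _ _)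
    · omega
  · unfold Maj
    refine le_trans p5 (hN _ _ ?_)
    simp

end Pool.Agent.AK
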