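import Mathlib
import Pool.Agent.AK.StF

set_option autoImplicit false

/-!
# AK: names
-/

namespace Pool.Agent.AK

private lemma Names_aux : ∀ (i j : ℕ) (x y : Name),
    List.replicate i true ++ false :: x = List.replicate j true ++ false :: y → i = j ∧ x = y := by
  intro i
  induction i with
  | zero =>
    intro j x y h
    cases j with
    | zero => simpa using h
    | succ j => simp [List.replicate_succ] at h
  | succ i ih =>
    intro j x y h
    cases j with
    | zero => simp [List.replicate_succ] at h
    | succ j =>
      rw [List.replicate_succ, List.replicate_succ, List.cons_append, List.cons_append] at h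
      have h2 := ih j x y (List.cons.inj h).2
      exact ⟨by omega, h2.2⟩

private lemma Names_tag (i j : ℕ) (x y : Name)
    (h : tag (List.replicate i true) x = tag (List.replicate j true) y) : i = j ∧ x = y :=
  Names_aux i j x y (List.cons.inj h).2

theorem thm_Names : StNames := by
  refine ⟨Names_tag, fun i x y h => (Names_tag i i x y h).2, ?_, ?_, ?_⟩
  · intro a x b h
    exact Bool.false_ne_true (List.cons.inj h).1
  · intro n
    refine ⟨by simp [una], ?_⟩
    unfold una
    refine List.Nodup.map ?_ List.nodup_range
    intro i j h
    have := congrArg List.length h
    simpa using this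
  · intro n a
    simp only [una, List.mem_map, List.mem_range]
    constructor
    · rintro ⟨i, hi, rfl⟩
      exact ⟨i, hi, rfl⟩
    · rintro ⟨i, hi, rfl⟩
      exact ⟨i, hi, rfl⟩

end Pool.Agent.AK
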