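import Pool.Agent.AK.StF

set_option autoImplicit false

/-!
# AK, module Nrm: normalisation (helper18)
-/

namespace Pool.Agent.AK

private theorem Nrm_mem (φ : CNF) (C : Clause) : C ∈ nrm φ ↔
    ∃ D ∈ φ, (∀ l ∈ D, (l.1, !l.2) ∉ D) ∧ D.dedup = C := by
  unfold nrm
  rw [List.mem_map]
  constructor
  · rintro ⟨D, hD, rfl⟩
    rw [List.mem_filter] at hD
    refine ⟨D, hD.1, ?_, rfl⟩
    intro l hl h
    have h1 := hD.2
    rw [Bool.not_eq_true', List.any_eq_false] at h1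
    exact h1 l hl (decide_eq_true h)
  · rintro ⟨D, hD, h, rfl⟩
    refine ⟨D, ?_, rfl⟩
    rw [List.mem_filter]
    refine ⟨hD, ?_⟩
    rw [Bool.not_eq_true', List.any_eq_false]
    intro l hl h'
    exact h l hl (of_decide_eq_true h')

private theorem Nrm_sat (φ : CNF) (S : Finset Name) : Sat S (nrm φ) ↔ Sat S φ := by
  constructor
  · intro h C hC
    by_cases h1 : ∀ l ∈ C, (l.1, !l.2) ∉ C
    · obtain ⟨l, hl, h2⟩ := h C.dedup ((Nrm_mem φ _).2 ⟨C, hC, h1, rfl⟩)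
      exact ⟨l, List.mem_dedup.1 hl, h2⟩
    · push Not at h1
      obtain ⟨l, hl, h2⟩ := h1
      by_cases h3 : (l.1 ∈ S ↔ l.2 = true)
      · exact ⟨l, hl, h3⟩
      · refine ⟨_, h2, ?_⟩
        simp only
        cases h4 : l.2
        · rw [h4] at h3
          simp only [Bool.false_eq_true, iff_false, not_not] at h3
          simp [h3]
        · rw [h4] at h3
          simp only [iff_true] at h3
          simp [h3]
  · intro h C hC
    obtain ⟨D, hD, -, rfl⟩ := (Nrm_mem φ C).1 hC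
    obtain ⟨l, hl, h2⟩ := h D hD
    exact ⟨l, List.mem_dedup.2 hl, h2⟩

private theorem Nrm_width (φ : CNF) (k : ℕ) : width φ ≤ k ↔ ∀ C ∈ φ, C.length ≤ k := by
  unfold width
  induction φ with
  | nil => simp
  | cons C φ ih => rw [List.foldr_cons, max_le_iff, ih, List.forall_mem_cons]

private theorem Nrm_vars (φ : CNF) (x : Name) : x ∈ vars φ ↔ ∃ C ∈ φ, ∃ l ∈ C, l.1 = x := by
  unfold vars
  rw [List.mem_toFinset, List.mem_map]
  constructor
  · rintro ⟨l, hl, rfl⟩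
    obtain ⟨C, hC, h⟩ := List.mem_flatten.1 hl
    exact ⟨C, hC, l, h, rfl⟩
  · rintro ⟨C, hC, l, hl, rfl⟩
    exact ⟨l, List.mem_flatten_of_mem hC hl, rfl⟩

theorem thm_Nrm (h1 : StDensB) : StNrm := by
  intro φ
  refine ⟨Nrm_sat φ, h1.2.2.2.2.1 _ _ (Nrm_sat φ), ?_, ?_, ?_⟩
  · rw [Nrm_width]
    intro C hC
    obtain ⟨D, hD, -, rfl⟩ := (Nrm_mem φ C).1 hC
    exact (D.dedup_sublist).length_le.trans ((Nrm_width φ _).1 le_rfl D hD)
  · intro C hC
    obtain ⟨D, -, h, rfl⟩ := (Nrm_mem φ C).1 hC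
    refine List.Nodup.map_on ?_ D.nodup_dedup
    intro l hl l' hl' he
    rw [List.mem_dedup] at hl hl'
    by_contra hne
    refine h l hl ?_
    have h2 : l' = (l.1, !l.2) := by
      refine Prod.ext he.symm ?_
      have h3 : l.2 ≠ l'.2 := fun h4 => hne (Prod.ext he h4)
      simp only
      revert h3
      cases l.2 <;> cases l'.2 <;> simp
    rwa [← h2]
  · intro x hx
    obtain ⟨C, hC, l, hl, rfl⟩ := (Nrm_vars _ x).1 hx
    obtain ⟨D, hD, -, rfl⟩ := (Nrm_mem φ C).1 hC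
    exact (Nrm_vars _ _).2 ⟨D, hD, l, List.mem_dedup.1 hl, rfl⟩

end Pool.Agent.AK
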