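import Pool.Agent.AK.StF

set_option autoImplicit false

/-! # AK, module OhDens: the density of a one-hot formula -/

namespace Pool.Agent.AK

theorem OhDens_congr (V : Finset Name) (p q : Finset Name → Prop) [DecidablePred p]
    [DecidablePred q] (h : ∀ S, p S ↔ q S) : Pr V p = Pr V q := by
  unfold Pr
  rw [Finset.filter_congr (fun S _ => h S)]

theorem OhDens_append (S : Finset Name) (φ ψ : CNF) : Sat S (φ ++ ψ) ↔ Sat S φ ∧ Sat S ψ := by
  unfold Sat
  simp only [List.mem_append]
  constructor
  · intro h
    exact ⟨fun C hC => h C (Or.inl hC), fun C hC => h C (Or.inr hC)⟩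
  · rintro ⟨h1, h2⟩ C (hC | hC)
    · exact h1 C hC
    · exact h2 C hC

theorem OhDens_una (n : ℕ) (a : Name) : a ∈ una n ↔ ∃ i < n, a = List.replicate i true := by
  unfold una
  rw [List.mem_map]
  constructor
  · rintro ⟨i, hi, rfl⟩
    exact ⟨i, List.mem_range.1 hi, rfl⟩
  · rintro ⟨i, hi, rfl⟩
    exact ⟨i, List.mem_range.2 hi, rfl⟩

theorem OhDens_ohp (S : Finset Name) (n : ℕ) : Sat S (ohp n) ↔
    ∀ i < n, ∀ j < i, (true :: List.replicate j true) ∈ S ∨ (true :: List.replicate i true) ∈ S := by
  unfold Sat ohp
  constructor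
  · intro h i hi j hj
    have h1 := h [(true :: List.replicate j true, true), (true :: List.replicate i true, true)] (by
      refine List.mem_flatMap.2 ⟨List.replicate i true, (OhDens_una n _).2 ⟨i, hi, rfl⟩, ?_⟩
      refine List.mem_map.2 ⟨List.replicate j true, ?_, rfl⟩
      refine List.mem_filter.2 ⟨(OhDens_una n _).2 ⟨j, by omega, rfl⟩, ?_⟩
      simp [hj])
    obtain ⟨l, hl, hl2⟩ := h1
    rcases List.mem_cons.1 hl with rfl | hl
    · exact Or.inl (hl2.2 rfl)
    · rcases List.mem_cons.1 hl with rfl | hl
      · exact Or.inr (hl2.2 rfl)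
      · simp at hl
  · intro h C hC
    obtain ⟨a, ha, hC2⟩ := List.mem_flatMap.1 hC
    obtain ⟨b, hb, rfl⟩ := List.mem_map.1 hC2
    obtain ⟨hb1, hb2⟩ := List.mem_filter.1 hb
    obtain ⟨i, hi, rfl⟩ := (OhDens_una n _).1 ha
    obtain ⟨j, hj, rfl⟩ := (OhDens_una n _).1 hb1
    rw [decide_eq_true_iff, List.length_replicate, List.length_replicate] at hb2
    rcases h i hi j hb2 with h1 | h1
    · exact ⟨(true :: List.replicate j true, true), by simp, by simpa using h1⟩
    · exact ⟨(true :: List.replicate i true, true), by simp, by simpa using h1⟩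

theorem OhDens_zip (L : List CNF) (p : Name × CNF) : p ∈ (una L.length).zip L ↔
    ∃ i < L.length, p = (List.replicate i true, L.getD i []) := by
  have hu : (una L.length).length = L.length := by
    unfold una
    rw [List.length_map, List.length_range]
  constructor
  · intro h
    obtain ⟨i, hi, h2⟩ := List.mem_iff_getElem.1 h
    rw [List.length_zip, hu, min_self] at hi
    refine ⟨i, hi, ?_⟩
    rw [← h2, List.getElem_zip, List.getD_eq_getElem _ _ hi]
    unfold una
    rw [List.getElem_map, List.getElem_range]
  · rintro ⟨i, hi, rfl⟩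
    refine List.mem_iff_getElem.2 ⟨i, ?_, ?_⟩
    · rw [List.length_zip, hu, min_self]
      exact hi
    · rw [List.getElem_zip, List.getD_eq_getElem _ _ hi]
      unfold una
      rw [List.getElem_map, List.getElem_range]

theorem OhDens_sat (S : Finset Name) (L : List CNF) : Sat S (oh L) ↔
    (∀ i < L.length, ∀ j < i, (true :: List.replicate j true) ∈ S ∨
      (true :: List.replicate i true) ∈ S) ∧
    ∀ i < L.length, (true :: List.replicate i true) ∈ S ∨
      Sat S (ren (tag (List.replicate i true)) (L.getD i [])) := by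
  unfold oh
  rw [OhDens_append, OhDens_ohp]
  refine and_congr Iff.rfl ?_
  constructor
  · intro h i hi
    by_cases hs : (true :: List.replicate i true) ∈ S
    · exact Or.inl hs
    · refine Or.inr fun C hC => ?_
      obtain ⟨l, hl, hl2⟩ := h ((true :: List.replicate i true, true) :: C) (by
        refine List.mem_flatMap.2 ⟨(List.replicate i true, L.getD i []),
          (OhDens_zip L _).2 ⟨i, hi, rfl⟩, ?_⟩
        exact List.mem_map.2 ⟨C, hC, rfl⟩)
      rcases List.mem_cons.1 hl with rfl | hl
      · exact absurd (hl2.2 rfl) hs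
      · exact ⟨l, hl, hl2⟩
  · intro h C hC
    obtain ⟨p, hp, hC2⟩ := List.mem_flatMap.1 hC
    obtain ⟨i, hi, rfl⟩ := (OhDens_zip L p).1 hp
    obtain ⟨D, hD, rfl⟩ := List.mem_map.1 hC2
    rcases h i hi with h1 | h1
    · exact ⟨(true :: List.replicate i true, true), by simp, by simpa using h1⟩
    · obtain ⟨l, hl, hl2⟩ := h1 D hD
      exact ⟨l, List.mem_cons_of_mem _ hl, hl2⟩

theorem thm_OhDens (h1 : StOneHot) (h2 : StRen) (h3 : StNames) (h4 : StDensPr) : StOhDens := by
  intro L
  obtain ⟨n1, n2, n3, -, -⟩ := h3
  have hW : ∀ i, vars (ren (tag (List.replicate i true)) (L.getD i [])) =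
      (vars (L.getD i [])).image (tag (List.replicate i true)) := fun i => (h2 _ _ (n2 i)).1
  have key := h1 L.length (fun i => true :: List.replicate i true)
    (fun i => vars (ren (tag (List.replicate i true)) (L.getD i [])))
    (fun i S => Sat S (ren (tag (List.replicate i true)) (L.getD i [])))
    (vars (oh L) ∪ ((Finset.range L.length).image (fun i => true :: List.replicate i true) ∪
      (Finset.range L.length).biUnion
        (fun i => vars (ren (tag (List.replicate i true)) (L.getD i [])))))
    (by
      intro i _ j _ h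
      have := congrArg List.length h
      simpa using this)
    (by
      intro i _ j _ h
      simp only [hW] at h
      obtain ⟨x, -, hx⟩ := Finset.mem_image.1 h
      exact n3 _ _ _ hx)
    (by
      intro i _ j _ hij
      simp only [hW]
      rw [Finset.disjoint_left]
      intro x hx hx2
      obtain ⟨y, -, rfl⟩ := Finset.mem_image.1 hx
      obtain ⟨z, -, hz⟩ := Finset.mem_image.1 hx2
      exact hij (n1 j i z y hz).1.symm)
    (fun i _ => (h4 _ _ (Finset.Subset.refl _)).1)
    (by
      intro i hi
      refine ⟨?_, ?_⟩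
      · exact Finset.mem_union_right _ (Finset.mem_union_left _
          (Finset.mem_image_of_mem _ (Finset.mem_range.2 hi)))
      · intro x hx
        exact Finset.mem_union_right _ (Finset.mem_union_right _
          (Finset.mem_biUnion.2 ⟨i, Finset.mem_range.2 hi, hx⟩)))
  rw [(h4 (oh L) _ Finset.subset_union_left).2]
  refine (OhDens_congr _ _ _ fun S => OhDens_sat S L).trans ?_
  refine key.trans ?_
  have e : ∀ i ∈ Finset.range L.length, Pr (vars (ren (tag (List.replicate i true)) (L.getD i [])))
      (fun S => Sat S (ren (tag (List.replicate i true)) (L.getD i []))) = dens (L.getD i []) := by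
    intro i _
    rw [← (h4 _ _ (Finset.Subset.refl _)).2]
    exact (h2 _ _ (n2 i)).2.2.2
  rw [Finset.sum_congr rfl e]
  have e2 : ∑ i ∈ Finset.range L.length, dens (L.getD i []) = (L.map dens).sum := by
    rw [Finset.sum_range, ← Fin.sum_univ_fun_getElem]
    refine Finset.sum_congr rfl fun i _ => ?_
    rw [List.getD_eq_getElem _ _ i.2]
  rw [e2]

end Pool.Agent.AK
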