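import Pool.Agent.AK.StF

set_option autoImplicit false

/-! # AK, module OneHot: the probability of a one-hot event -/

namespace Pool.Agent.AK

theorem OneHot_dep {p : Finset Name → Prop} {U U' : Finset Name} (hU : U ⊆ U')
    (hp : ∀ S, p S ↔ p (S ∩ U)) : ∀ S, p S ↔ p (S ∩ U') := by
  intro S
  rw [hp S, hp (S ∩ U')]
  have : S ∩ U' ∩ U = S ∩ U := by
    ext x
    simp only [Finset.mem_inter]
    constructor
    · rintro ⟨⟨h1, -⟩, h3⟩
      exact ⟨h1, h3⟩
    · rintro ⟨h1, h3⟩
      exact ⟨⟨h1, hU h3⟩, h3⟩
  rw [this]

theorem OneHot_mul (h1 : StPrExt) (h2 : StPrMul) (V U U' : Finset Name) (p q : Finset Name → Prop)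
    [DecidablePred p] [DecidablePred q] (hU : U ⊆ V) (hU' : U' ⊆ V) (hd : Disjoint U U')
    (hp : ∀ S, p S ↔ p (S ∩ U)) (hq : ∀ S, q S ↔ q (S ∩ U')) :
    Pr V (fun S => p S ∧ q S) = Pr V p * Pr V q := by
  rw [h1 U V p hU hp, h1 U' V q hU' hq, ← h2 U U' p q hd hp hq]
  refine h1 (U ∪ U') V (fun S => p S ∧ q S) (Finset.union_subset hU hU') fun S => ?_
  exact and_congr (OneHot_dep Finset.subset_union_left hp S)
    (OneHot_dep Finset.subset_union_right hq S)

theorem thm_OneHot (h1 : StPrExt) (h2 : StPrMul) (h3 : StPrBool) : StOneHot := by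
  intro n s W Q _ V
  induction n with
  | zero =>
    intro _ _ _ _ _
    refine ((h3 V _ (fun _ => True)).2.2.2.1 (fun S _ => by simp)).trans ?_
    rw [(h3 V (fun _ => True) (fun _ => True)).2.2.2.2.2.2.2.1]
    simp
  | succ n ih =>
    intro hinj hsW hWW hQ hV
    have ih' := ih (fun i hi j hj => hinj i (by omega) j (by omega))
      (fun i hi j hj => hsW i (by omega) j (by omega))
      (fun i hi j hj => hWW i (by omega) j (by omega))
      (fun i hi => hQ i (by omega)) (fun i hi => hV i (by omega))
    -- the event that all selectors are true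
    have hF : ∀ m ≤ n, Pr V (fun S => ∀ i < m, s i ∈ S) = 1 / 2 ^ m := by
      intro m
      induction m with
      | zero =>
        intro _
        refine ((h3 V _ (fun _ => True)).2.2.2.1 (fun S _ => by simp)).trans ?_
        rw [(h3 V (fun _ => True) (fun _ => True)).2.2.2.2.2.2.2.1]
        simp
      | succ m ihm =>
        intro hm
        have e1 : Pr V (fun S => ∀ i < m + 1, s i ∈ S) =
            Pr V (fun S => (∀ i < m, s i ∈ S) ∧ s m ∈ S) := by
          refine (h3 V _ _).2.2.2.1 fun S _ => ?_
          constructor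
          · intro h
            exact ⟨fun i hi => h i (by omega), h m (by omega)⟩
          · rintro ⟨h, h'⟩ i hi
            rcases Nat.lt_succ_iff_lt_or_eq.1 hi with h4 | rfl
            · exact h i h4
            · exact h'
        have e2 := OneHot_mul h1 h2 V ((Finset.range m).image s) {s m}
          (fun S => ∀ i < m, s i ∈ S) (fun S => s m ∈ S) (by
            intro x hx
            obtain ⟨i, hi, rfl⟩ := Finset.mem_image.1 hx
            exact (hV i (by have := Finset.mem_range.1 hi; omega)).1) (by
            intro x hx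
            rw [Finset.mem_singleton] at hx
            subst hx
            exact (hV m (by omega)).1) (by
            rw [Finset.disjoint_singleton_right]
            intro hx
            obtain ⟨i, hi, h4⟩ := Finset.mem_image.1 hx
            have h5 := Finset.mem_range.1 hi
            have := hinj i (by omega) m (by omega) h4
            omega) (fun S => by
            refine forall_congr' fun i => forall_congr' fun hi => ?_
            rw [Finset.mem_inter]
            exact ⟨fun h => ⟨h, Finset.mem_image_of_mem s (Finset.mem_range.2 hi)⟩, fun h => h.1⟩)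
            (fun S => by simp)
        rw [e1, e2, ihm (by omega)]
        have e3 := (h3 V (fun _ => True) (fun _ => True)).2.2.2.2.2.2.2.2.2 (s m)
          (hV m (by omega)).1
        rw [e3, pow_succ]
        field_simp
    -- dependence of the event on its variables
    have hsub : (Finset.range n).image s ∪ (Finset.range n).biUnion W ⊆ V := by
      intro x hx
      rcases Finset.mem_union.1 hx with h | h
      · obtain ⟨i, hi, rfl⟩ := Finset.mem_image.1 h
        exact (hV i (by have := Finset.mem_range.1 hi; omega)).1
      · obtain ⟨i, hi, hx2⟩ := Finset.mem_biUnion.1 h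
        exact (hV i (by have := Finset.mem_range.1 hi; omega)).2 hx2
    have hmem : ∀ i < n, ∀ S : Finset Name, s i ∈ S ↔
        s i ∈ S ∩ ((Finset.range n).image s ∪ (Finset.range n).biUnion W) := by
      intro i hi S
      rw [Finset.mem_inter]
      exact ⟨fun h => ⟨h, Finset.mem_union_left _
        (Finset.mem_image_of_mem s (Finset.mem_range.2 hi))⟩, fun h => h.1⟩
    have hQd : ∀ i < n, ∀ S : Finset Name, Q i S ↔
        Q i (S ∩ ((Finset.range n).image s ∪ (Finset.range n).biUnion W)) := by
      intro i hi
      refine OneHot_dep ?_ (hQ i (by omega))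
      intro x hx
      exact Finset.mem_union_right _ (Finset.mem_biUnion.2 ⟨i, Finset.mem_range.2 hi, hx⟩)
    have hEd : ∀ S : Finset Name, ((∀ i < n, ∀ j < i, s j ∈ S ∨ s i ∈ S) ∧
        ∀ i < n, s i ∈ S ∨ Q i S) ↔
        ((∀ i < n, ∀ j < i, s j ∈ S ∩ ((Finset.range n).image s ∪ (Finset.range n).biUnion W) ∨
          s i ∈ S ∩ ((Finset.range n).image s ∪ (Finset.range n).biUnion W)) ∧
        ∀ i < n, s i ∈ S ∩ ((Finset.range n).image s ∪ (Finset.range n).biUnion W) ∨
          Q i (S ∩ ((Finset.range n).image s ∪ (Finset.range n).biUnion W))) := by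
      intro S
      refine and_congr ?_ ?_
      · refine forall_congr' fun i => forall_congr' fun hi => forall_congr' fun j =>
          forall_congr' fun hj => or_congr (hmem j (by omega) S) (hmem i hi S)
      · refine forall_congr' fun i => forall_congr' fun hi =>
          or_congr (hmem i hi S) (hQd i hi S)
    have hdis : Disjoint ({s n} : Finset Name)
        ((Finset.range n).image s ∪ (Finset.range n).biUnion W) := by
      rw [Finset.disjoint_singleton_left]
      intro hx
      rcases Finset.mem_union.1 hx with h | h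
      · obtain ⟨i, hi, h4⟩ := Finset.mem_image.1 h
        have h5 := Finset.mem_range.1 hi
        have := hinj i (by omega) n (by omega) h4
        omega
      · obtain ⟨i, hi, hx2⟩ := Finset.mem_biUnion.1 h
        have h5 := Finset.mem_range.1 hi
        exact hsW n (by omega) i (by omega) hx2
    have hsn : ({s n} : Finset Name) ⊆ V := by
      intro x hx
      rw [Finset.mem_singleton] at hx
      subst hx
      exact (hV n (by omega)).1
    -- first part
    have eA := OneHot_mul h1 h2 V {s n} ((Finset.range n).image s ∪ (Finset.range n).biUnion W)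
      (fun S => s n ∈ S) (fun S => (∀ i < n, ∀ j < i, s j ∈ S ∨ s i ∈ S) ∧
        ∀ i < n, s i ∈ S ∨ Q i S) hsn hsub hdis (fun S => by simp) hEd
    -- second part
    have hsubB : (Finset.range n).image s ⊆ V := fun x hx => hsub (Finset.mem_union_left _ hx)
    have hdisW : Disjoint ((Finset.range n).image s) (W n) := by
      rw [Finset.disjoint_left]
      intro x hx hx2
      obtain ⟨i, hi, rfl⟩ := Finset.mem_image.1 hx
      have h5 := Finset.mem_range.1 hi
      exact hsW i (by omega) n (by omega) hx2
    have hFd : ∀ S : Finset Name, (∀ i < n, s i ∈ S) ↔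
        (∀ i < n, s i ∈ S ∩ (Finset.range n).image s) := by
      intro S
      refine forall_congr' fun i => forall_congr' fun hi => ?_
      rw [Finset.mem_inter]
      exact ⟨fun h => ⟨h, Finset.mem_image_of_mem s (Finset.mem_range.2 hi)⟩, fun h => h.1⟩
    have eC := OneHot_mul h1 h2 V ((Finset.range n).image s) (W n)
      (fun S => ∀ i < n, s i ∈ S) (Q n) hsubB (hV n (by omega)).2 hdisW hFd (hQ n (by omega))
    have hdisB : Disjoint ({s n} : Finset Name) ((Finset.range n).image s ∪ W n) := by
      rw [Finset.disjoint_singleton_left]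
      intro hx
      rcases Finset.mem_union.1 hx with h | h
      · obtain ⟨i, hi, h4⟩ := Finset.mem_image.1 h
        have h5 := Finset.mem_range.1 hi
        have := hinj i (by omega) n (by omega) h4
        omega
      · exact hsW n (by omega) n (by omega) h
    have eB := OneHot_mul h1 h2 V {s n} ((Finset.range n).image s ∪ W n)
      (fun S => ¬ s n ∈ S) (fun S => (∀ i < n, s i ∈ S) ∧ Q n S) hsn
      (Finset.union_subset hsubB (hV n (by omega)).2) hdisB (fun S => by simp)
      (fun S => and_congr (OneHot_dep Finset.subset_union_left hFd S)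
        (OneHot_dep Finset.subset_union_right (hQ n (by omega)) S))
    have e3 : Pr V (fun S => s n ∈ S) = 1 / 2 :=
      (h3 V (fun _ => True) (fun _ => True)).2.2.2.2.2.2.2.2.2 (s n) (hV n (by omega)).1
    have e4 : Pr V (fun S => ¬ s n ∈ S) = 1 / 2 := by
      rw [(h3 V (fun S => s n ∈ S) (fun _ => True)).2.2.2.2.2.2.1, e3]
      norm_num
    have e5 : Pr V (Q n) = Pr (W n) (Q n) :=
      h1 (W n) V (Q n) (hV n (by omega)).2 (hQ n (by omega))
    have e6 : Pr V (fun S => (∀ i < n + 1, ∀ j < i, s j ∈ S ∨ s i ∈ S) ∧
        ∀ i < n + 1, s i ∈ S ∨ Q i S) =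
        Pr V (fun S => (s n ∈ S ∧ ((∀ i < n, ∀ j < i, s j ∈ S ∨ s i ∈ S) ∧
          ∀ i < n, s i ∈ S ∨ Q i S)) ∨ (¬ s n ∈ S ∧ ((∀ i < n, s i ∈ S) ∧ Q n S))) := by
      refine (h3 V _ _).2.2.2.1 fun S _ => ?_
      constructor
      · rintro ⟨g1, g2⟩
        by_cases hs : s n ∈ S
        · exact Or.inl ⟨hs, fun i hi => g1 i (by omega), fun i hi => g2 i (by omega)⟩
        · refine Or.inr ⟨hs, fun i hi => ?_, ?_⟩
          · rcases g1 n (by omega) i hi with h | h
            · exact h
            · exact absurd h hs
          · rcases g2 n (by omega) with h | h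
            · exact absurd h hs
            · exact h
      · rintro (⟨hs, g1, g2⟩ | ⟨hs, g1, g2⟩)
        · refine ⟨fun i hi j hj => ?_, fun i hi => ?_⟩
          · rcases Nat.lt_succ_iff_lt_or_eq.1 hi with h4 | rfl
            · exact g1 i h4 j hj
            · exact Or.inr hs
          · rcases Nat.lt_succ_iff_lt_or_eq.1 hi with h4 | rfl
            · exact g2 i h4
            · exact Or.inl hs
        · refine ⟨fun i hi j hj => Or.inl (g1 j (by omega)), fun i hi => ?_⟩
          rcases Nat.lt_succ_iff_lt_or_eq.1 hi with h4 | rfl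
          · exact Or.inl (g1 i h4)
          · exact Or.inr g2
    rw [e6, (h3 V _ _).2.2.2.2.2.1 (fun S _ h => h.2.1 h.1.1), eA, eB, e3, e4, ih', eC,
      hF n le_rfl, e5, Finset.sum_range_succ, pow_succ]
    field_simp
    ring

end Pool.Agent.AK
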