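import Pool.Agent.AK.StF

set_option autoImplicit false

/-!
# AK: the threshold instance
-/

namespace Pool.Agent.AK

theorem thm_Phi (hOh : StOhDens) (hCh : StChain) (hCj : StCjDens) (hSm : StSmall) (hSh : StShape) :
    StPhi := by
  intro m j T q D e hT he hD hDw heD
  obtain ⟨hlen, hsum, -, -, -, hall⟩ := hCh m j T q hT
  obtain ⟨-, hsh2, hsh3, hsh4, hsh5, -⟩ := hSh
  set L := (ch T q).1 with hL
  set M := (ch T q).2 with hM
  set X : CNF := cj [D, forced (M - e)] with hX
  have hPhi : Phi T q D e = oh (L ++ [X]) := rfl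
  obtain ⟨hXd, hXn⟩ := hCj [D, forced (M - e)]
  obtain ⟨hfd, hfn⟩ := hSm.1 (M - e)
  have hXd' : dens X = dens D * (1 / 2 : ℚ) ^ (M - e) := by
    rw [hX, hXd]
    simp [hfd]
  have hXn' : nv X = nv D + (M - e) := by
    rw [hX, hXn]
    simp [hfn]
  have hdens : dens (Phi T q D e) =
      (2 - (1 / 2 : ℚ) ^ M + dens D * (1 / 2 : ℚ) ^ (M - e)) / 2 ^ (q + 1) := by
    rw [hPhi, hOh]
    have h1 : (L ++ [X]).length = q + 1 := by simp [hlen]
    have h2 : ((L ++ [X]).map dens).sum = (L.map dens).sum + dens X := by simp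
    rw [h1, h2, hsum, hXd']
    ring
  have hf := hsh5 (M - e)
  have hXM : Mono X := (hsh3 [D, forced (M - e)] (by
    intro ψ hψ
    simp only [List.mem_cons, List.not_mem_nil, or_false] at hψ
    rcases hψ with rfl | rfl
    · exact hD
    · exact hf.1)).2
  have hXw : width X ≤ j + 2 := (hsh2 [D, forced (M - e)] (j + 2) (by
    intro ψ hψ
    simp only [List.mem_cons, List.not_mem_nil, or_false] at hψ
    rcases hψ with rfl | rfl
    · omega
    · have := hf.2.1
      omega)).2
  refine ⟨?_, hdens, ?_, ?_, ?_⟩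
  · rw [hdens]
    have h2 : (1 / 2 : ℚ) ^ M = (1 / 2 : ℚ) ^ e * (1 / 2 : ℚ) ^ (M - e) := by
      rw [← pow_add]
      congr 1
      omega
    have h3 : (0 : ℚ) < (1 / 2 : ℚ) ^ (M - e) := by positivity
    have h4 : (1 / 2 : ℚ) ^ q = 2 / 2 ^ (q + 1) := by
      rw [pow_succ, one_div, inv_pow]
      field_simp
    rw [h4, div_le_div_iff_of_pos_right (by positivity), h2]
    constructor
    · intro h
      have h5 : (1 / 2 : ℚ) ^ e * (1 / 2 : ℚ) ^ (M - e) ≤ dens D * (1 / 2 : ℚ) ^ (M - e) := by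
        linarith
      exact le_of_mul_le_mul_right h5 h3
    · intro h
      have h5 := mul_le_mul_of_nonneg_right h h3.le
      linarith
  · rw [hPhi]
    refine (hsh3 (L ++ [X]) ?_).1
    intro ψ hψ
    rcases List.mem_append.mp hψ with h | h
    · exact (hall ψ h).1
    · rw [List.mem_singleton] at h
      rw [h]
      exact hXM
  · rw [hPhi]
    have h1 := (hsh2 (L ++ [X]) (j + 2) (by
      intro ψ hψ
      rcases List.mem_append.mp hψ with h | h
      · exact (hall ψ h).2
      · rw [List.mem_singleton] at h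
        rw [h]
        exact hXw)).1
    have h2 : max 2 (j + 2 + 1) = j + 3 := by omega
    rw [h2] at h1
    exact h1
  · rw [hPhi]
    have h1 := hsh4 (L ++ [X]) X (by simp)
    omega

end Pool.Agent.AK
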