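import Pool.Agent.AK.StF

set_option autoImplicit false

/-!
# AK, module PowSz: an arithmetic estimate
-/

namespace Pool.Agent.AK

private lemma PowSz_tri : ∀ J : ℕ, 1 ≤ J → J * (J + 3) ≤ 6 * 2 ^ (J - 1) := by
  intro J hJ
  induction J, hJ using Nat.le_induction with
  | base => norm_num
  | succ J hJ ih =>
    obtain ⟨j, rfl⟩ : ∃ j, J = j + 1 := ⟨J - 1, by omega⟩
    rw [Nat.add_sub_cancel] at ih ⊢
    rw [pow_succ]
    by_cases h : j = 0
    · subst h
      norm_num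
    · by_cases h1 : j = 1
      · subst h1
        norm_num
      · have h2 : 2 ≤ j := by omega
        nlinarith

theorem thm_PowSz : StPowSz := by
  intro m
  rcases Nat.eq_zero_or_pos m with rfl | hm
  · simp
  · obtain ⟨σ, hσ⟩ : ∃ σ, σ = Nat.size m := ⟨_, rfl⟩
    obtain ⟨J, hJ⟩ : ∃ J, J = Nat.size σ := ⟨_, rfl⟩
    rw [← hσ, ← hJ]
    have h1 : 1 ≤ σ := by
      rw [hσ]
      exact Nat.size_pos.2 hm
    have h2 : 1 ≤ J := by
      rw [hJ]
      exact Nat.size_pos.2 h1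
    have h3 : σ < 2 ^ J := by
      rw [hJ]
      exact Nat.lt_size_self σ
    have h4 : 2 ^ (J - 1) ≤ σ := by
      have h := Nat.lt_size (m := J - 1) (n := σ)
      rw [← hJ] at h
      exact h.1 (by omega)
    have h5 : 2 ^ (σ - 1) ≤ m := by
      have h := Nat.lt_size (m := σ - 1) (n := m)
      rw [← hσ] at h
      exact h.1 (by omega)
    have h6 : 2 ^ σ ≤ 2 * m + 2 := by
      have h : 2 ^ σ = 2 ^ (σ - 1) * 2 := by
        rw [← pow_succ]
        congr 1
        omega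
      omega
    have h7 : 2 * σ + 6 ≤ 2 ^ (J + 3) := by
      rw [pow_add]
      have : (2 : ℕ) ≤ 2 ^ J := by
        calc (2 : ℕ) = 2 ^ 1 := rfl
          _ ≤ 2 ^ J := Nat.pow_le_pow_right (by norm_num) h2
      omega
    have h8 : (2 * σ + 5) ^ 2 + 1 ≤ (2 ^ (J + 3)) ^ 2 := by
      calc (2 * σ + 5) ^ 2 + 1 ≤ (2 * σ + 6) ^ 2 := by nlinarith
        _ ≤ (2 ^ (J + 3)) ^ 2 := Nat.pow_le_pow_left h7 2
    have h9 := PowSz_tri J h2
    calc ((2 * σ + 5) ^ 2 + 1) ^ J ≤ ((2 ^ (J + 3)) ^ 2) ^ J := Nat.pow_le_pow_left h8 J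
      _ = 2 ^ (2 * (J * (J + 3))) := by
          rw [← pow_mul, ← pow_mul]
          congr 1
          ring
      _ ≤ 2 ^ (σ * 12) := by
          refine Nat.pow_le_pow_right (by norm_num) ?_
          nlinarith
      _ = (2 ^ σ) ^ 12 := by rw [pow_mul]
      _ ≤ (2 * m + 2) ^ 12 := Nat.pow_le_pow_left h6 12

end Pool.Agent.AK
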