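import Pool.Agent.AK.StF

set_option autoImplicit false

/-!
# AK, PrBool: Boolean rules for `Pr`
-/

namespace Pool.Agent.AK

open Pool.Agent.PolyTime

theorem PrBool_pos (V : Finset Name) : (0 : ℚ) < 2 ^ V.card := by positivity

theorem PrBool_nonneg (V : Finset Name) (p : Finset Name → Prop) [DecidablePred p] :
    0 ≤ Pr V p := by
  unfold Pr
  positivity

theorem PrBool_mono (V : Finset Name) (p q : Finset Name → Prop) [DecidablePred p]
    [DecidablePred q] (h : ∀ S, S ⊆ V → p S → q S) : Pr V p ≤ Pr V q := by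
  unfold Pr
  rw [div_le_div_iff_of_pos_right (PrBool_pos V)]
  have h1 : (V.powerset.filter p).card ≤ (V.powerset.filter q).card := by
    apply Finset.card_le_card
    intro S hS
    rw [Finset.mem_filter, Finset.mem_powerset] at hS ⊢
    exact ⟨hS.1, h S hS.1 hS.2⟩
  exact_mod_cast h1

theorem PrBool_eq (V : Finset Name) (p q : Finset Name → Prop) [DecidablePred p]
    [DecidablePred q] (h : ∀ S, S ⊆ V → (p S ↔ q S)) : Pr V p = Pr V q :=
  le_antisymm (PrBool_mono V p q fun S hS => (h S hS).1)
    (PrBool_mono V q p fun S hS => (h S hS).2)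

theorem PrBool_le (V : Finset Name) (p q r : Finset Name → Prop) [DecidablePred p]
    [DecidablePred q] [DecidablePred r] (h : ∀ S, S ⊆ V → r S → p S ∨ q S) :
    Pr V r ≤ Pr V p + Pr V q := by
  unfold Pr
  rw [← add_div, div_le_div_iff_of_pos_right (PrBool_pos V)]
  have h1 : (V.powerset.filter r).card ≤
      (V.powerset.filter p).card + (V.powerset.filter q).card := by
    refine (Finset.card_le_card ?_).trans (Finset.card_union_le _ _)
    intro S hS
    rw [Finset.mem_filter, Finset.mem_powerset] at hS
    rw [Finset.mem_union, Finset.mem_filter, Finset.mem_filter, Finset.mem_powerset]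
    rcases h S hS.1 hS.2 with h2 | h2
    · exact Or.inl ⟨hS.1, h2⟩
    · exact Or.inr ⟨hS.1, h2⟩
  exact_mod_cast h1

theorem PrBool_add (V : Finset Name) (p q r : Finset Name → Prop) [DecidablePred p]
    [DecidablePred q] [DecidablePred r] (h : ∀ S, S ⊆ V → (r S ↔ p S ∨ q S))
    (hd : ∀ S, S ⊆ V → ¬ (p S ∧ q S)) : Pr V r = Pr V p + Pr V q := by
  unfold Pr
  rw [← add_div]
  congr 1
  have h1 : (V.powerset.filter r).card =
      (V.powerset.filter p).card + (V.powerset.filter q).card := by
    rw [← Finset.card_union_of_disjoint]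
    · congr 1
      ext S
      rw [Finset.mem_union, Finset.mem_filter, Finset.mem_filter, Finset.mem_filter,
        Finset.mem_powerset]
      constructor
      · rintro ⟨h2, h3⟩
        rcases (h S h2).1 h3 with h4 | h4
        · exact Or.inl ⟨h2, h4⟩
        · exact Or.inr ⟨h2, h4⟩
      · rintro (⟨h2, h3⟩ | ⟨h2, h3⟩)
        · exact ⟨h2, (h S h2).2 (Or.inl h3)⟩
        · exact ⟨h2, (h S h2).2 (Or.inr h3)⟩
    · rw [Finset.disjoint_left]
      intro S hS hS'
      rw [Finset.mem_filter, Finset.mem_powerset] at hS hS'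
      exact hd S hS.1 ⟨hS.2, hS'.2⟩
  exact_mod_cast h1

theorem PrBool_true (V : Finset Name) (r : Finset Name → Prop) [DecidablePred r]
    (h : ∀ S, S ⊆ V → r S) : Pr V r = 1 := by
  unfold Pr
  have h1 : V.powerset.filter r = V.powerset := by
    apply Finset.filter_true_of_mem
    intro S hS
    exact h S (Finset.mem_powerset.1 hS)
  rw [h1, Finset.card_powerset]
  push_cast
  exact div_self (PrBool_pos V).ne'

theorem PrBool_false (V : Finset Name) (r : Finset Name → Prop) [DecidablePred r]
    (h : ∀ S, S ⊆ V → ¬ r S) : Pr V r = 0 := by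
  unfold Pr
  have h1 : V.powerset.filter r = ∅ := by
    apply Finset.filter_false_of_mem
    intro S hS
    exact h S (Finset.mem_powerset.1 hS)
  rw [h1]
  simp

theorem PrBool_not (V : Finset Name) (p : Finset Name → Prop) [DecidablePred p] :
    Pr V (fun S => ¬ p S) = 1 - Pr V p := by
  have h1 := PrBool_add V p (fun S => ¬ p S) (fun _ => True)
    (fun S _ => ⟨fun _ => em (p S), fun _ => trivial⟩) (fun S _ h => h.2 h.1)
  rw [PrBool_true V (fun _ => True) fun _ _ => trivial] at h1
  linarith

theorem PrBool_half (V : Finset Name) (x : Name) (hx : x ∈ V) :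
    Pr V (fun S => x ∈ S) = 1 / 2 := by
  have h1 : Pr V (fun S => x ∈ S) = Pr V (fun S => x ∉ S) := by
    unfold Pr
    congr 2
    refine Finset.card_bij' (fun S _ => S.erase x) (fun S _ => insert x S) ?_ ?_ ?_ ?_
    · intro S hS
      rw [Finset.mem_filter, Finset.mem_powerset] at hS ⊢
      exact ⟨(Finset.erase_subset _ _).trans hS.1, Finset.notMem_erase _ _⟩
    · intro S hS
      rw [Finset.mem_filter, Finset.mem_powerset] at hS ⊢
      exact ⟨Finset.insert_subset hx hS.1, Finset.mem_insert_self _ _⟩
    · intro S hS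
      rw [Finset.mem_filter, Finset.mem_powerset] at hS
      exact Finset.insert_erase hS.2
    · intro S hS
      rw [Finset.mem_filter, Finset.mem_powerset] at hS
      exact Finset.erase_insert hS.2
  have h2 := PrBool_not V (fun S => x ∈ S)
  have h3 : Pr V (fun S => x ∉ S) = Pr V (fun S => ¬ (x ∈ S)) := PrBool_eq _ _ _ fun _ _ => Iff.rfl
  rw [h3, h2] at h1
  linarith

/-- **PrBool**. -/
theorem thm_PrBool : StPrBool := by
  intro V p q _ _
  refine ⟨PrBool_nonneg V p, ?_, fun h => PrBool_mono V p q h, fun h => PrBool_eq V p q h,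
    PrBool_le V p q _ fun _ _ h => h, fun h => PrBool_add V p q _ (fun _ _ => Iff.rfl) h,
    PrBool_not V p, PrBool_true V _ fun _ _ => trivial, PrBool_false V _ fun _ _ h => h,
    fun x hx => PrBool_half V x hx⟩
  have h1 := PrBool_not V p
  have h2 := PrBool_nonneg V (fun S => ¬ p S)
  linarith

end Pool.Agent.AK
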