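import Pool.Agent.AK.StF

set_option autoImplicit false

/-!
# AK, module PrExt: an event that depends only on `U` (helper18)
-/

namespace Pool.Agent.AK

private theorem PrExt_card (U V : Finset Name) (p : Finset Name → Prop) [DecidablePred p]
    (hUV : U ⊆ V) (hp : ∀ S, p S ↔ p (S ∩ U)) :
    (V.powerset.filter p).card = (U.powerset.filter p).card * 2 ^ (V \ U).card := by
  rw [← Finset.card_powerset, ← Finset.card_product]
  refine Finset.card_nbij' (fun S => (S ∩ U, S \ U)) (fun X => X.1 ∪ X.2) ?_ ?_ ?_ ?_
  · intro S hS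
    rw [Finset.mem_coe, Finset.mem_filter, Finset.mem_powerset] at hS
    rw [Finset.mem_coe, Finset.mem_product, Finset.mem_filter, Finset.mem_powerset,
      Finset.mem_powerset]
    exact ⟨⟨Finset.inter_subset_right, (hp S).1 hS.2⟩, Finset.sdiff_subset_sdiff hS.1 le_rfl⟩
  · rintro ⟨X, Y⟩ h
    rw [Finset.mem_coe, Finset.mem_product, Finset.mem_filter, Finset.mem_powerset,
      Finset.mem_powerset] at h
    obtain ⟨⟨hX, hpX⟩, hY⟩ := h
    simp only at hX hpX hY
    rw [Finset.mem_coe, Finset.mem_filter, Finset.mem_powerset]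
    refine ⟨Finset.union_subset (hX.trans hUV) (hY.trans Finset.sdiff_subset), ?_⟩
    have h1 : (X ∪ Y) ∩ U = X := by
      ext x
      simp only [Finset.mem_inter, Finset.mem_union]
      constructor
      · rintro ⟨h | h, hU⟩
        · exact h
        · exact absurd hU (Finset.mem_sdiff.1 (hY h)).2
      · exact fun h => ⟨Or.inl h, hX h⟩
    refine (hp _).2 ?_
    change p ((X ∪ Y) ∩ U)
    rw [h1]
    exact hpX
  · intro S _
    simp only
    ext x
    simp only [Finset.mem_union, Finset.mem_inter, Finset.mem_sdiff]
    tauto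
  · rintro ⟨X, Y⟩ h
    rw [Finset.mem_coe, Finset.mem_product, Finset.mem_filter, Finset.mem_powerset,
      Finset.mem_powerset] at h
    obtain ⟨⟨hX, -⟩, hY⟩ := h
    simp only at hX hY
    simp only [Prod.mk.injEq]
    constructor
    · ext x
      simp only [Finset.mem_inter, Finset.mem_union]
      constructor
      · rintro ⟨h | h, hU⟩
        · exact h
        · exact absurd hU (Finset.mem_sdiff.1 (hY h)).2
      · exact fun h => ⟨Or.inl h, hX h⟩
    · ext x
      simp only [Finset.mem_sdiff, Finset.mem_union]
      constructor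
      · rintro ⟨h | h, hU⟩
        · exact absurd (hX h) hU
        · exact h
      · exact fun h => ⟨Or.inr h, (Finset.mem_sdiff.1 (hY h)).2⟩

theorem thm_PrExt : StPrExt := by
  intro U V p _ hUV hp
  have h1 : V.card = U.card + (V \ U).card := by
    rw [add_comm, Finset.card_sdiff_add_card_eq_card hUV]
  unfold Pr
  rw [PrExt_card U V p hUV hp, h1, pow_add]
  push_cast
  rw [mul_div_mul_right _ _ (by positivity)]

end Pool.Agent.AK
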