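import Pool.Agent.AK.StF

/-!
# AK, module PrMul: independence of events depending on disjoint sets of variables
-/

set_option autoImplicit false

namespace Pool.Agent.AK

private theorem PrMul_inter (U W P Q : Finset Name) (hUW : Disjoint U W) (hP : P ⊆ U)
    (hQ : Q ⊆ W) : (P ∪ Q) ∩ U = P ∧ (P ∪ Q) ∩ W = Q := by
  constructor
  · ext a
    simp only [Finset.mem_inter, Finset.mem_union]
    constructor
    · rintro ⟨h1 | h1, h2⟩
      · exact h1
      · exact absurd (hQ h1) (Finset.disjoint_left.1 hUW h2)
    · exact fun h => ⟨Or.inl h, hP h⟩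
  · ext a
    simp only [Finset.mem_inter, Finset.mem_union]
    constructor
    · rintro ⟨h1 | h1, h2⟩
      · exact absurd h2 (Finset.disjoint_left.1 hUW (hP h1))
      · exact h1
    · exact fun h => ⟨Or.inr h, hQ h⟩

theorem thm_PrMul : StPrMul := by
  intro U W p q _ _ hUW hp hq
  have hc : ((U ∪ W).powerset.filter fun S => p S ∧ q S).card =
      (U.powerset.filter p).card * (W.powerset.filter q).card := by
    rw [← Finset.card_product]
    refine Finset.card_bij' (fun S _ => (S ∩ U, S ∩ W)) (fun z _ => z.1 ∪ z.2) ?_ ?_ ?_ ?_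
    · intro S hS
      rw [Finset.mem_filter, Finset.mem_powerset] at hS
      rw [Finset.mem_product, Finset.mem_filter, Finset.mem_filter, Finset.mem_powerset,
        Finset.mem_powerset]
      exact ⟨⟨Finset.inter_subset_right, (hp S).1 hS.2.1⟩,
        ⟨Finset.inter_subset_right, (hq S).1 hS.2.2⟩⟩
    · rintro ⟨P, Q⟩ hz
      rw [Finset.mem_product, Finset.mem_filter, Finset.mem_filter, Finset.mem_powerset,
        Finset.mem_powerset] at hz
      obtain ⟨⟨h1, h2⟩, h3, h4⟩ := hz
      obtain ⟨e1, e2⟩ := PrMul_inter U W P Q hUW h1 h3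
      rw [Finset.mem_filter, Finset.mem_powerset]
      refine ⟨Finset.union_subset_union h1 h3, ?_, ?_⟩
      · show p (P ∪ Q)
        rw [hp (P ∪ Q), e1]
        exact h2
      · show q (P ∪ Q)
        rw [hq (P ∪ Q), e2]
        exact h4
    · intro S hS
      rw [Finset.mem_filter, Finset.mem_powerset] at hS
      show S ∩ U ∪ S ∩ W = S
      rw [← Finset.inter_union_distrib_left]
      exact Finset.inter_eq_left.2 hS.1
    · rintro ⟨P, Q⟩ hz
      rw [Finset.mem_product, Finset.mem_filter, Finset.mem_filter, Finset.mem_powerset,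
        Finset.mem_powerset] at hz
      obtain ⟨⟨h1, h2⟩, h3, h4⟩ := hz
      obtain ⟨e1, e2⟩ := PrMul_inter U W P Q hUW h1 h3
      exact Prod.ext e1 e2
  unfold Pr
  rw [hc, Finset.card_union_of_disjoint hUW, pow_add]
  push_cast
  rw [mul_div_mul_comm]

end Pool.Agent.AK
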