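import Pool.Agent.AK.StF

set_option autoImplicit false

namespace Pool.Agent.AK

open Pool.Agent.PolyTime

theorem PtC_una : PolyTime (fun l : List Unit => una l.length) := by
  have h1 : PolyTime (fun p : List Unit × ℕ => List.replicate (min p.2 p.1.length) true) := by
    refine PolyTime.replicate (by fun_prop) ?_ (by fun_prop)
    have h2 : PBd (fun p : List Unit × ℕ => p.1.length) :=
      pbd_length (l := fun p : List Unit × ℕ => p.1) (by fun_prop)
    exact h2.mono (fun p => min_le_right _ _)
  have h3 : PolyTime (fun l : List Unit => (List.range l.length).map fun i => List.replicate (min i l.length) true) :=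
    PolyTime.map (by fun_prop) h1
  refine h3.congr (fun l => ?_)
  unfold una
  refine List.map_congr_left (fun i hi => ?_)
  have := List.mem_range.1 hi
  rw [min_eq_left this.le]

/-- `una` of the length of a list. -/
theorem PtC_unaL {α β : Type} [PEnc α] [PEnc β] {f : α → List β} (hf : PolyTime f) : PolyTime (fun a => una (f a).length) := by
  have h1 : PolyTime (fun a => (f a).map fun _ => ()) := by fun_prop
  have h2 := PtC_una.comp h1
  refine h2.congr (fun a => ?_)
  simp

theorem PtC_tag {α : Type} [PEnc α] {f g : α → Name} (hf : PolyTime f) (hg : PolyTime g) : PolyTime (fun a => tag (f a) (g a)) := by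
  unfold tag
  fun_prop

theorem PtC_ren : PolyTime (fun p : Name × CNF => ren (tag p.1) p.2) := by
  unfold ren
  have h1 : PolyTime (fun q : (Name × CNF) × Clause => q.2.map fun l : Lit => (tag q.1.1 l.1, l.2)) := by
    refine PolyTime.map (by fun_prop) (g := fun (q : (Name × CNF) × Clause) (l : Lit) => (tag q.1.1 l.1, l.2)) ?_
    have : PolyTime (fun r : ((Name × CNF) × Clause) × Lit => tag r.1.1.1 r.2.1) := PtC_tag (by fun_prop) (by fun_prop)
    fun_prop
  exact PolyTime.map (l := fun p : Name × CNF => p.2) (by fun_prop) h1

theorem PtC_cj : PolyTime cj := by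
  unfold cj
  refine PolyTime.flatMap (l := fun L : List CNF => (una L.length).zip L) ?_ (g := fun _ (p : Name × CNF) => ren (tag p.1) p.2) ?_
  · have := PtC_unaL (α := List CNF) (f := fun L => L) (by fun_prop)
    fun_prop
  · exact PtC_ren.comp (f := fun q : List CNF × Name × CNF => q.2) (by fun_prop)

theorem PtC_ohp : PolyTime (fun l : List Unit => ohp l.length) := by
  unfold ohp
  have h0 := PtC_una
  refine PolyTime.flatMap (l := fun l : List Unit => una l.length) h0
    (g := fun (l : List Unit) (a : Name) => ((una l.length).filter fun b => decide (b.length < a.length)).map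
      fun b => [(true :: b, true), (true :: a, true)]) ?_
  have h1 : PolyTime (fun q : List Unit × Name => una q.1.length) := h0.comp (f := fun q : List Unit × Name => q.1) (by fun_prop)
  have h2 : PolyTime (fun q : List Unit × Name => (una q.1.length).filter fun b => decide (b.length < q.2.length)) := by
    refine PolyTime.filter h1 (p := fun (q : List Unit × Name) (b : Name) => decide (b.length < q.2.length)) ?_
    fun_prop
  refine PolyTime.map h2 (g := fun (q : List Unit × Name) (b : Name) => [(true :: b, true), (true :: q.2, true)]) ?_
  fun_prop

theorem PtC_oh : PolyTime oh := by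
  unfold oh
  refine PolyTime.append ?_ ?_
  · have h1 : PolyTime (fun L : List CNF => L.map fun _ => ()) := by fun_prop
    have h2 := PtC_ohp.comp h1
    refine h2.congr (fun L => ?_)
    simp
  · refine PolyTime.flatMap (l := fun L : List CNF => (una L.length).zip L) ?_
      (g := fun _ (p : Name × CNF) => (ren (tag p.1) p.2).map fun C => (true :: p.1, true) :: C) ?_
    · have := PtC_unaL (α := List CNF) (f := fun L => L) (by fun_prop)
      fun_prop
    · have h1 : PolyTime (fun q : List CNF × Name × CNF => ren (tag q.2.1) q.2.2) :=
        PtC_ren.comp (f := fun q : List CNF × Name × CNF => q.2) (by fun_prop)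
      refine PolyTime.map h1 (g := fun (q : List CNF × Name × CNF) (C : Clause) => (true :: q.2.1, true) :: C) ?_
      fun_prop

theorem PtC_forced : PolyTime (fun l : List Unit => forced l.length) := by
  unfold forced
  have h0 := PtC_una
  exact PolyTime.map h0 (g := fun _ (a : Name) => [(a, true)]) (by fun_prop)

theorem PtC_st : PolyTime (fun l : List Unit => st l.length) := by
  unfold st
  have h0 := PtC_una
  exact PolyTime.map h0 (g := fun _ (a : Name) => [([true], true), (false :: a, true)]) (by fun_prop)

theorem PtC_bigc : PolyTime (fun l : List Unit => bigc l.length) := by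
  unfold bigc
  have h0 := PtC_una
  have h1 : PolyTime (fun l : List Unit => (una l.length).map fun a => (a, true)) :=
    PolyTime.map h0 (g := fun _ (a : Name) => (a, true)) (by fun_prop)
  fun_prop

theorem PtC_rep {α : Type} [PEnc α] {f : α → List Unit} (hf : PolyTime f) (c : ℕ) :
    PolyTime (fun a => List.replicate ((f a).length + c) true) := by
  refine PolyTime.replicate (by fun_prop) ?_ (by fun_prop)
  exact (pbd_length hf).add (PBd.const c)

theorem PtC_fpad :
    PolyTime (fun p : List Unit × CNF × List Unit × List Unit => fpad p.1.length p.2.1 p.2.2.1.length p.2.2.2.length) := by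
  unfold fpad
  have hw : PolyTime (fun p : List Unit × CNF × List Unit × List Unit => una p.2.2.1.length) := PtC_unaL (by fun_prop)
  have hu : PolyTime (fun p : List Unit × CNF × List Unit × List Unit => una p.2.2.2.length) := PtC_unaL (by fun_prop)
  refine PolyTime.append (PolyTime.append (by fun_prop) ?_) ?_
  · refine PolyTime.map hw (g := fun (p : List Unit × CNF × List Unit × List Unit) (a : Name) =>
      [([true], true), ([true, true], true), (tag (List.replicate p.1.length true) a, true)]) ?_
    have h1 : PolyTime (fun q : (List Unit × CNF × List Unit × List Unit) × Name =>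
        tag (List.replicate (q.1.1.length + 0) true) q.2) :=
      PtC_tag (PtC_rep (f := fun q : (List Unit × CNF × List Unit × List Unit) × Name => q.1.1) (by fun_prop) 0) (by fun_prop)
    simp only [Nat.add_zero] at h1
    fun_prop
  · refine PolyTime.map hu (g := fun (p : List Unit × CNF × List Unit × List Unit) (a : Name) =>
      [(tag (List.replicate (p.1.length + 1) true) a, true)]) ?_
    have h1 : PolyTime (fun q : (List Unit × CNF × List Unit × List Unit) × Name =>
        tag (List.replicate (q.1.1.length + 1) true) q.2) :=
      PtC_tag (PtC_rep (f := fun q : (List Unit × CNF × List Unit × List Unit) × Name => q.1.1) (by fun_prop) 1) (by fun_prop)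
    fun_prop

theorem thm_PtC : StPtC :=
  ⟨PtC_una, PtC_cj, PtC_oh, PtC_forced, PtC_st, PtC_bigc, PtC_fpad⟩

end Pool.Agent.AK
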