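import Pool.Agent.AK.StF

set_option autoImplicit false

/-! # AK, module PtFin2: the instances for the leading bits are computed in polynomial time -/

namespace Pool.Agent.AK

open Pool.Agent.PolyTime

theorem PtFin2_nv_le (φ : CNF) : nv φ ≤ φ.flatten.length := by
  unfold nv vars
  refine (List.toFinset_card_le _).trans ?_
  rw [List.length_map]

theorem PtFin2_pbd_nv : PBd nv :=
  (pbd_length (l := fun φ : CNF => φ.flatten) (by fun_prop)).mono PtFin2_nv_le

theorem PtFin2_find {α : Type} (l : List α) (p q : α → Bool) (h : ∀ x ∈ l, p x = q x) :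
    l.find? p = l.find? q := by
  induction l with
  | nil => rfl
  | cons a l ih =>
    rw [List.find?_cons, List.find?_cons, h a (by simp), ih fun x hx => h x (by simp [hx])]

theorem PtFin2_qq_le (T : Tab) (m : ℕ) : qq T m ≤ m := by
  unfold qq
  cases h : (List.range (m + 1)).find? fun q => decide (m ≤ (ch T q).2) with
  | none => simp
  | some q =>
    have h1 := List.mem_of_find?_eq_some h
    have h2 := List.mem_range.1 h1
    simp only [Option.getD_some]
    omega

theorem PtFin2_qq (h : PolyTime (fun p : Tab × List Unit => ch p.1 p.2.length)) {α : Type}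
    [PEnc α] {T : α → Tab} {m : α → ℕ} (hT : PolyTime T) (hm : PolyTime m) (hmb : PBd m) :
    PolyTime (fun a => qq (T a) (m a)) := by
  have hr : PolyTime (fun a => List.range (m a + 1)) :=
    PolyTime.range (hm.add (PolyTime.const 1)) (hmb.add (PBd.const 1))
  have hu : PolyTime (fun p : α × ℕ => List.replicate (min p.2 (m p.1)) ()) := by
    refine PolyTime.replicate ?_ ?_ (PolyTime.const ())
    · exact PolyTime.min PolyTime.snd' (hm.comp PolyTime.fst')
    · exact (hmb.comp (f := fun p : α × ℕ => p.1) PolyTime.fst').mono fun p => min_le_right _ _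
  have hp : PolyTime (fun p : α × ℕ => decide (m p.1 ≤ (ch (T p.1) (min p.2 (m p.1))).2)) := by
    refine PolyTime.decide_le (hm.comp PolyTime.fst') ?_
    have e1 : PolyTime (fun p : α × ℕ => ch (T p.1) (min p.2 (m p.1))) :=
      (h.comp ((hT.comp PolyTime.fst').prodMk hu)).congr fun p => by rw [List.length_replicate]
    exact e1.snd
  have hf : PolyTime (fun a => (List.range (m a + 1)).find?
      fun q => decide (m a ≤ (ch (T a) (min q (m a))).2)) :=
    PolyTime.find? (p := fun a q => decide (m a ≤ (ch (T a) (min q (m a))).2)) hr hp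
  refine (PolyTime.option_getD hf (PolyTime.const 0)).congr fun a => ?_
  unfold qq
  rw [PtFin2_find _ _ (fun q => decide (m a ≤ (ch (T a) q).2)) fun x hx => ?_]
  have h1 := List.mem_range.1 hx
  have h2 : min x (m a) = x := min_eq_left (by omega)
  simp only [h2]

theorem PtFin2_main (h1 : StPtC) (h2 : StPtT) (h3 : StRN) (h4 : StTab) (h5 : StChain)
    (τ : ℕ → ℕ) (j d n0 : ℕ) (hτ : UPoly τ) (e : CNF × ℕ → ℕ) (he : PolyTime e) (heb : PBd e) :
    PolyTime (fun p : CNF × ℕ => fin2 (fun n => min (τ n) n) j d n0 p.1 (e p)) := by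
  have hfpad := h1.2.2.2.2.2.2
  obtain ⟨hch, -, -, htab, hPhi, -⟩ := h2
  have hnv : PolyTime nv := h3.1
  have hD : PolyTime (fun p : CNF × ℕ => p.1) := PolyTime.fst'
  have hm : PolyTime (fun p => e p + 1) := he.add (PolyTime.const 1)
  have hmb : PBd (fun p => e p + 1) := heb.add (PBd.const 1)
  have hum : PolyTime (fun p => List.replicate (e p + 1) ()) :=
    PolyTime.replicate hm hmb (PolyTime.const ())
  have hT : PolyTime (fun p => tab (e p + 1) j) :=
    ((htab j).comp hum).congr fun p => by rw [List.length_replicate]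
  have hq : PolyTime (fun p => qq (tab (e p + 1) j) (e p + 1)) := PtFin2_qq hch hT hm hmb
  have hqb : PBd (fun p => qq (tab (e p + 1) j) (e p + 1)) := hmb.mono fun p => PtFin2_qq_le _ _
  have huq : PolyTime (fun p => List.replicate (qq (tab (e p + 1) j) (e p + 1)) ()) :=
    PolyTime.replicate hq hqb (PolyTime.const ())
  have hub : PolyTime (fun p => List.replicate ((j + 2) * (2 * (e p + 1) + 2)) ()) := by
    refine PolyTime.replicate ?_ ?_ (PolyTime.const ())
    · exact (PolyTime.const (j + 2)).mul (((PolyTime.const 2).mul hm).add (PolyTime.const 2))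
    · exact (PBd.const (j + 2)).mul (((PBd.const 2).mul hmb).add (PBd.const 2))
  have hP : PolyTime (fun p => Phi (tab (e p + 1) j) (qq (tab (e p + 1) j) (e p + 1)) p.1
      (e p)) := by
    refine (hPhi.comp (hT.prodMk (huq.prodMk (hD.prodMk (he.prodMk hub))))).congr fun p => ?_
    simp only [List.length_replicate]
    rw [if_pos]
    exact (h5 (e p + 1) j _ _ (h4.2 (e p + 1) j)).2.2.2.2.1
  have hPnb : PBd (fun p => nv (Phi (tab (e p + 1) j) (qq (tab (e p + 1) j) (e p + 1)) p.1
      (e p))) := PtFin2_pbd_nv.comp hP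
  have hn : PolyTime (fun p => (nv (Phi (tab (e p + 1) j) (qq (tab (e p + 1) j) (e p + 1)) p.1
      (e p)) + n0 + e p + 3) ^ (d + 1)) :=
    PolyTime.pow_const ((((hnv.comp hP).add (PolyTime.const n0)).add he).add
      (PolyTime.const 3)) (d + 1)
  have hnb : PBd (fun p => (nv (Phi (tab (e p + 1) j) (qq (tab (e p + 1) j) (e p + 1)) p.1
      (e p)) + n0 + e p + 3) ^ (d + 1)) :=
    (((hPnb.add (PBd.const n0)).add heb).add (PBd.const 3)).pow (d + 1)
  have hun : PolyTime (fun p => List.replicate ((nv (Phi (tab (e p + 1) j)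
      (qq (tab (e p + 1) j) (e p + 1)) p.1 (e p)) + n0 + e p + 3) ^ (d + 1)) ()) :=
    PolyTime.replicate hn hnb (PolyTime.const ())
  have ht : PolyTime (fun p => τ ((nv (Phi (tab (e p + 1) j)
      (qq (tab (e p + 1) j) (e p + 1)) p.1 (e p)) + n0 + e p + 3) ^ (d + 1))) :=
    (PolyTime.comp hτ hun).congr fun p => by rw [List.length_replicate]
  have hu : PolyTime (fun p => min (τ ((nv (Phi (tab (e p + 1) j)
      (qq (tab (e p + 1) j) (e p + 1)) p.1 (e p)) + n0 + e p + 3) ^ (d + 1)))
      ((nv (Phi (tab (e p + 1) j) (qq (tab (e p + 1) j) (e p + 1)) p.1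
      (e p)) + n0 + e p + 3) ^ (d + 1)) - qq (tab (e p + 1) j) (e p + 1)) := (ht.min hn).sub hq
  have huu := PolyTime.replicate hu (hnb.mono fun p => (Nat.sub_le _ _).trans (min_le_right _ _))
    (PolyTime.const ())
  have hww := PolyTime.replicate ((hn.sub (hnv.comp hP)).sub hu)
    (hnb.mono fun p => (Nat.sub_le _ _).trans (Nat.sub_le _ _)) (PolyTime.const ())
  have hrr := PolyTime.replicate (hq.add (PolyTime.const 1)) (hqb.add (PBd.const 1))
    (PolyTime.const ())
  refine (hfpad.comp (hrr.prodMk (hP.prodMk (hww.prodMk huu)))).congr fun p => ?_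
  simp only [List.length_replicate]
  rfl

theorem thm_PtFin2 (h1 : StPtC) (h2 : StPtT) (h3 : StRN) (h4 : StTab) (h5 : StChain) :
    StPtFin2 := by
  intro τ j d n0 hτ
  have hD : PolyTime (fun p : CNF × ℕ => p.1) := PolyTime.fst'
  exact PtFin2_main h1 h2 h3 h4 h5 τ j d n0 hτ (fun p => min p.2 (nv p.1))
    (PolyTime.snd'.min (h3.1.comp hD)) ((PtFin2_pbd_nv.comp hD).mono fun p => min_le_right _ _)

end Pool.Agent.AK
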