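import Pool.Agent.AK.StF

set_option autoImplicit false

/-!
# AK, module PtT (chains and tables in polynomial time)
-/

namespace Pool.Agent.AK

open Pool.Agent.PolyTime

lemma PtT_cst_eq (T : Tab) (p : List CNF × ℕ) :
    cst T p = (T[p.2]?).elim (p.1 ++ [[[]]], p.2) (fun r => (p.1 ++ [r.2], r.1)) := by
  unfold cst
  cases T[p.2]? <;> rfl

lemma PtT_cst : PolyTime (fun q : Tab × (List CNF × ℕ) => cst q.1 q.2) := by
  have h : PolyTime (fun q : Tab × (List CNF × ℕ) =>
      (q.1[q.2.2]?).elim (q.2.1 ++ [[[]]], q.2.2) (fun r => (q.2.1 ++ [r.2], r.1))) := by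
    refine PolyTime.option_elim (o := fun q : Tab × (List CNF × ℕ) => q.1[q.2.2]?)
      (f := fun q => (q.2.1 ++ [[[]]], q.2.2)) (g := fun q r => (q.2.1 ++ [r.2], r.1))
      ?_ ?_ ?_
    · exact PolyTime.getElem? (n := fun q : Tab × (List CNF × ℕ) => q.2.2)
        (l := fun q => q.1) (by fun_prop) (by fun_prop)
    · fun_prop
    · fun_prop
  exact h.congr (fun q => (PtT_cst_eq q.1 q.2).symm)

lemma PtT_inv (T : Tab) (i : ℕ) : (ch T i).1.length = i ∧
    (∀ x ∈ (ch T i).1, size x ≤ size T + 1) ∧ size (ch T i).2 ≤ size T := by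
  induction i with
  | zero =>
    refine ⟨rfl, ?_, ?_⟩
    · intro x hx
      simp [ch] at hx
    · have : size (ch T 0).2 = 0 := by
        rw [size_nat]
        rfl
      omega
  | succ i ih =>
    obtain ⟨h1, h2, h3⟩ := ih
    have hs : ch T (i + 1) = cst T (ch T i) := Function.iterate_succ_apply' _ _ _
    rw [hs, PtT_cst_eq]
    cases h : T[(ch T i).2]? with
    | none =>
      refine ⟨?_, ?_, h3⟩
      · simp [h1]
      · intro x hx
        simp only [Option.elim_none, List.mem_append, List.mem_singleton] at hx
        rcases hx with hx | hx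
        · exact h2 x hx
        · subst hx
          simp
    | some r =>
      have hr : r ∈ T := List.mem_of_getElem? h
      have hr2 := size_mem_le hr
      have hr3 : size r = 2 * size r.1 + 1 + size r.2 := size_prod r
      refine ⟨?_, ?_, ?_⟩
      · simp [h1]
      · intro x hx
        simp only [Option.elim_some, List.mem_append, List.mem_singleton] at hx
        rcases hx with hx | hx
        · exact h2 x hx
        · subst hx
          omega
      · simp only [Option.elim_some]
        omega

lemma PtT_ch : PolyTime (fun p : Tab × List Unit => ch p.1 p.2.length) := by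
  refine PolyTime.iterate (f := fun (p : Tab × List Unit) s => cst p.1 s)
    (n := fun p : Tab × List Unit => p.2.length) (g := fun _ => (([], 0) : List CNF × ℕ))
    (B := fun p => 2 * (size p.2 * (2 * (size p.1 + 1) + 1)) + 1 + size p.1)
    ?_ ?_ ?_ ?_ ?_ ?_
  · exact PtT_cst.comp (f := fun q : (Tab × List Unit) × (List CNF × ℕ) => (q.1.1, q.2))
      (by fun_prop)
  · fun_prop
  · exact pbd_length (l := fun p : Tab × List Unit => p.2) (by fun_prop)
  · fun_prop
  · have h1 : PBd (fun p : Tab × List Unit => size p.1) :=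
      PolyTime.pbd (f := fun p : Tab × List Unit => p.1) (by fun_prop)
    have h2 : PBd (fun p : Tab × List Unit => size p.2) :=
      PolyTime.pbd (f := fun p : Tab × List Unit => p.2) (by fun_prop)
    exact (((PBd.const 2).mul (h2.mul (((PBd.const 2).mul (h1.add (PBd.const 1))).add
      (PBd.const 1)))).add (PBd.const 1)).add h1
  · intro p i hi
    obtain ⟨h1, h2, h3⟩ := PtT_inv p.1 i
    change size (ch p.1 i) ≤ _
    rw [size_prod]
    have h4 := size_le_of_forall h2
    rw [h1] at h4
    have h5 : i ≤ size p.2 := hi.trans (length_le_size _)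
    have h6 := Nat.mul_le_mul_right (2 * (size p.1 + 1) + 1) h5
    omega

/-- `ch` with a unary argument given by a function. -/
lemma PtT_ch' {α : Type} [PEnc α] {T : α → Tab} {l : α → List Unit} (hT : PolyTime T)
    (hl : PolyTime l) : PolyTime (fun a => ch (T a) (l a).length) :=
  PtT_ch.comp (f := fun a => (T a, l a)) (by fun_prop)

/-- A truncated unary number. -/
lemma PtT_un {α : Type} [PEnc α] {n b : α → ℕ} (hn : PolyTime n) (hb : PolyTime b)
    (hbb : PBd b) : PolyTime (fun a => List.replicate (min (n a) (b a)) ()) := by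
  refine PolyTime.replicate (by fun_prop) (hbb.mono (fun a => min_le_right _ _)) ?_
  exact PolyTime.const ()

lemma PtT_stp (hoh : PolyTime oh) : PolyTime stp := by
  have h1 : PolyTime (fun q : Tab × ℕ =>
      ch q.1 (List.replicate (min q.2 q.1.length) () ++ [()]).length) := by
    refine PtT_ch' (by fun_prop) ?_
    refine PolyTime.append ?_ (by fun_prop)
    exact PtT_un (n := fun q : Tab × ℕ => q.2) (b := fun q => q.1.length) (by fun_prop)
      (by fun_prop) (pbd_length (by fun_prop))
  have h2 : PolyTime (fun q : Tab × ℕ =>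
      (q.2 + 1 + (ch q.1 (List.replicate (min q.2 q.1.length) () ++ [()]).length).2,
        oh (ch q.1 (List.replicate (min q.2 q.1.length) () ++ [()]).length).1)) := by
    have h3 := h1.snd
    have h4 := hoh.comp h1.fst
    exact PolyTime.prodMk (PolyTime.add (by fun_prop) h3) h4
  have h5 : PolyTime (fun T : Tab => (List.range T.length).map fun e =>
      (e + 1 + (ch T (List.replicate (min e T.length) () ++ [()]).length).2,
        oh (ch T (List.replicate (min e T.length) () ++ [()]).length).1)) :=
    PolyTime.map (l := fun T : Tab => List.range T.length) (g := fun T e =>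
      (e + 1 + (ch T (List.replicate (min e T.length) () ++ [()]).length).2,
        oh (ch T (List.replicate (min e T.length) () ++ [()]).length).1)) (by fun_prop) h2
  refine h5.congr (fun T => ?_)
  unfold stp
  apply List.map_congr_left
  intro e he
  have he' := List.mem_range.1 he
  have : (List.replicate (min e T.length) () ++ [()]).length = e + 1 := by
    rw [List.length_append, List.length_replicate, min_eq_left he'.le]
    rfl
  rw [this]

lemma PtT_two_pow (m : ℕ) : 2 ^ Nat.size m ≤ 2 * m + 1 := by
  by_cases hm : m = 0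
  · subst hm
    simp
  · have h1 : 0 < Nat.size m := Nat.size_pos.2 (Nat.pos_of_ne_zero hm)
    obtain ⟨k, hk⟩ : ∃ k, Nat.size m = k + 1 := ⟨Nat.size m - 1, by omega⟩
    have h2 : 2 ^ k ≤ m := Nat.lt_size.1 (by omega)
    rw [hk, pow_succ]
    omega

lemma PtT_size_le (m : ℕ) : Nat.size m ≤ m := Nat.size_le.2 Nat.lt_two_pow_self

lemma PtT_pbd_len {α : Type} [PEnc α] {l : α → List Unit} (hl : PolyTime l) :
    PBd (fun a => Nat.size (l a).length) :=
  (pbd_length hl).mono (fun _ => PtT_size_le _)

lemma PtT_ell : PolyTime (fun q : List Unit × ℕ => ell q.1.length q.2) := by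
  unfold ell
  fun_prop

lemma PtT_ell_pbd : PBd (fun q : List Unit × ℕ => ell q.1.length q.2) :=
  (PtT_pbd_len (l := fun q : List Unit × ℕ => q.1) (by fun_prop)).mono
    (fun _ => min_le_right _ _)

/-- A version of the star gadget with truncated unary arguments. -/
def PtT_star' (m e : ℕ) : CNF :=
  cj (forced (List.replicate (min (e + 1 - ell m e) m) ()).length ::
    (List.range (ell m e)).map fun i =>
      st (List.replicate (min (2 ^ min i (Nat.size m)) (2 * m + 1)) ()).length)

lemma PtT_star_eq (m e : ℕ) (he : e < m) : PtT_star' m e = star m e := by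
  unfold PtT_star' star
  have hm : m ≠ 0 := by omega
  have h1 : 1 ≤ Nat.size m := Nat.size_pos.2 (Nat.pos_of_ne_zero hm)
  have h2 : 1 ≤ ell m e := le_min (by omega) h1
  rw [List.length_replicate, min_eq_left (by omega)]
  congr 2
  apply List.map_congr_left
  intro i hi
  have hi' := List.mem_range.1 hi
  have h3 : i ≤ Nat.size m := hi'.le.trans (min_le_right _ _)
  have h4 : 2 ^ i ≤ 2 * m + 1 :=
    (Nat.pow_le_pow_right (by norm_num) h3).trans (PtT_two_pow m)
  rw [List.length_replicate, min_eq_left h3, min_eq_left h4]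

lemma PtT_star (hcj : PolyTime cj) (hf : PolyTime (fun l : List Unit => forced l.length))
    (hst : PolyTime (fun l : List Unit => st l.length)) :
    PolyTime (fun q : List Unit × ℕ => PtT_star' q.1.length q.2) := by
  unfold PtT_star'
  have hell := PtT_ell
  refine hcj.comp ?_
  refine PolyTime.cons ?_ ?_
  · refine hf.comp (f := fun q : List Unit × ℕ =>
      List.replicate (min (q.2 + 1 - ell q.1.length q.2) q.1.length) ()) ?_
    exact PtT_un (n := fun q : List Unit × ℕ => q.2 + 1 - ell q.1.length q.2)
      (b := fun q => q.1.length) (by fun_prop) (by fun_prop) (pbd_length (by fun_prop))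
  · refine PolyTime.map (l := fun q : List Unit × ℕ => List.range (ell q.1.length q.2))
      (g := fun q i => st (List.replicate (min (2 ^ min i (Nat.size q.1.length))
        (2 * q.1.length + 1)) ()).length) (PolyTime.range hell PtT_ell_pbd) ?_
    refine hst.comp (f := fun q : (List Unit × ℕ) × ℕ =>
      List.replicate (min (2 ^ min q.2 (Nat.size q.1.1.length)) (2 * q.1.1.length + 1)) ()) ?_
    refine PtT_un (n := fun q : (List Unit × ℕ) × ℕ => 2 ^ min q.2 (Nat.size q.1.1.length))
      (b := fun q => 2 * q.1.1.length + 1) ?_ (by fun_prop) ?_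
    · refine PolyTime.pow (f := fun _ => 2) (PolyTime.const 2) (by fun_prop) ?_
      exact (PtT_pbd_len (l := fun q : (List Unit × ℕ) × ℕ => q.1.1) (by fun_prop)).mono
        (fun _ => min_le_right _ _)
    · exact ((PBd.const 2).mul (pbd_length (l := fun q : (List Unit × ℕ) × ℕ => q.1.1)
        (by fun_prop))).add (PBd.const 1)

lemma PtT_tab0 (hcj : PolyTime cj) (hf : PolyTime (fun l : List Unit => forced l.length))
    (hst : PolyTime (fun l : List Unit => st l.length)) :
    PolyTime (fun l : List Unit => tab0 l.length) := by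
  have h1 : PolyTime (fun l : List Unit => (List.range l.length).map fun e =>
      (e + 2 ^ ell l.length e, PtT_star' l.length e)) := by
    refine PolyTime.map (l := fun l : List Unit => List.range l.length)
      (g := fun l e => (e + 2 ^ ell l.length e, PtT_star' l.length e)) (by fun_prop) ?_
    refine PolyTime.prodMk (PolyTime.add (by fun_prop) ?_) (PtT_star hcj hf hst)
    exact PolyTime.pow (f := fun _ => 2) (PolyTime.const 2) PtT_ell PtT_ell_pbd
  refine h1.congr (fun l => ?_)
  unfold tab0
  apply List.map_congr_left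
  intro e he
  rw [PtT_star_eq _ _ (List.mem_range.1 he)]

/-- A version of the threshold instance with a truncated unary argument. -/
def PtT_Phi' (T : Tab) (q : ℕ) (D : CNF) (e b : ℕ) : CNF :=
  oh ((ch T q).1 ++ [cj [D, forced (List.replicate (min ((ch T q).2 - e) b) ()).length]])

lemma PtT_Phi_eq (T : Tab) (q : ℕ) (D : CNF) (e b : ℕ) (h : (ch T q).2 ≤ b) :
    PtT_Phi' T q D e b = Phi T q D e := by
  unfold PtT_Phi' Phi
  rw [List.length_replicate, min_eq_left (by omega)]

lemma PtT_Phi (hcj : PolyTime cj) (hoh : PolyTime oh)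
    (hf : PolyTime (fun l : List Unit => forced l.length)) :
    PolyTime (fun p : Tab × List Unit × CNF × ℕ × List Unit =>
      PtT_Phi' p.1 p.2.1.length p.2.2.1 p.2.2.2.1 p.2.2.2.2.length) := by
  unfold PtT_Phi'
  have hch : PolyTime (fun p : Tab × List Unit × CNF × ℕ × List Unit => ch p.1 p.2.1.length) :=
    PtT_ch' (by fun_prop) (by fun_prop)
  have h1 : PolyTime (fun p : Tab × List Unit × CNF × ℕ × List Unit =>
      List.replicate (min ((ch p.1 p.2.1.length).2 - p.2.2.2.1) p.2.2.2.2.length) ()) := by
    refine PtT_un (n := fun p : Tab × List Unit × CNF × ℕ × List Unit =>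
      (ch p.1 p.2.1.length).2 - p.2.2.2.1) (b := fun p => p.2.2.2.2.length) ?_ (by fun_prop)
      (pbd_length (by fun_prop))
    exact PolyTime.sub hch.snd (by fun_prop)
  have h2 := hf.comp h1
  refine hoh.comp (PolyTime.append hch.fst ?_)
  refine PolyTime.cons (hcj.comp ?_) (PolyTime.const [])
  exact PolyTime.cons (by fun_prop) (PolyTime.cons h2 (PolyTime.const []))

lemma PtT_guard : PolyTime (fun p : Tab × List Unit × CNF × ℕ × List Unit =>
    decide ((ch p.1 p.2.1.length).2 ≤ p.2.2.2.2.length)) := by
  have hch : PolyTime (fun p : Tab × List Unit × CNF × ℕ × List Unit => ch p.1 p.2.1.length) :=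
    PtT_ch' (by fun_prop) (by fun_prop)
  exact PolyTime.decide_le hch.snd (by fun_prop)

/-- **PtT** (chains and tables in polynomial time). -/
theorem thm_PtT (h1 : StPtC) : StPtT := by
  obtain ⟨-, hcj, hoh, hf, hst, hbig, -⟩ := h1
  have hPhi := PtT_Phi hcj hoh hf
  refine ⟨PtT_ch, PtT_stp hoh, PtT_tab0 hcj hf hst, ?_, ?_, ?_⟩
  · intro j
    induction j with
    | zero => exact PtT_tab0 hcj hf hst
    | succ j ih =>
      refine ((PtT_stp hoh).comp ih).congr (fun l => ?_)
      exact (Function.iterate_succ_apply' _ _ _).symm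
  · refine (PolyTime.ite (p := fun p : Tab × List Unit × CNF × ℕ × List Unit =>
      (ch p.1 p.2.1.length).2 ≤ p.2.2.2.2.length) PtT_guard hPhi
      (PolyTime.const ([] : CNF))).congr (fun p => ?_)
    by_cases h : (ch p.1 p.2.1.length).2 ≤ p.2.2.2.2.length
    · rw [if_pos h, if_pos h, PtT_Phi_eq _ _ _ _ _ h]
    · rw [if_neg h, if_neg h]
  · have h2 : PolyTime (fun p : Tab × List Unit × CNF × ℕ × List Unit =>
        oh [bigc p.2.1.length,
          PtT_Phi' p.1 p.2.1.length p.2.2.1 p.2.2.2.1 p.2.2.2.2.length]) := by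
      refine hoh.comp (PolyTime.cons ?_ (PolyTime.cons hPhi (PolyTime.const [])))
      exact hbig.comp (f := fun p : Tab × List Unit × CNF × ℕ × List Unit => p.2.1)
        (by fun_prop)
    refine (PolyTime.ite (p := fun p : Tab × List Unit × CNF × ℕ × List Unit =>
      (ch p.1 p.2.1.length).2 ≤ p.2.2.2.2.length) PtT_guard h2
      (PolyTime.const ([] : CNF))).congr (fun p => ?_)
    by_cases h : (ch p.1 p.2.1.length).2 ≤ p.2.2.2.2.length
    · rw [if_pos h, if_pos h, PtT_Phi_eq _ _ _ _ _ h]
      rfl
    · rw [if_neg h, if_neg h]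

end Pool.Agent.AK
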