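import Mathlib
import Pool.Agent.AK.StF

set_option autoImplicit false

/-!
# AK, module Qlen (MP_4ed1f9_lc): the least length of a chain
-/

namespace Pool.Agent.AK

theorem thm_Qq (h1 : StChain) (h2 : StAck) : StQq := by
  intro m j T hT hm
  obtain ⟨-, -, -, -, -, hge, -⟩ := h2
  have hex : ∃ q, ((List.range (m + 1)).find? fun q => decide (m ≤ (ch T q).2)) = some q := by
    have h := (h1 m j T m hT).2.2.2.1
    rw [min_self] at h
    have hs : ((List.range (m + 1)).find? fun q => decide (m ≤ (ch T q).2)).isSome = true := by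
      rw [List.find?_isSome]
      exact ⟨m, by simp, by simpa using h⟩
    exact Option.isSome_iff_exists.1 hs
  obtain ⟨q, hq⟩ := hex
  have hqq : qq T m = q := by
    unfold qq
    rw [hq]
    rfl
  rw [List.find?_range_eq_some] at hq
  obtain ⟨hq1, hq2, hq3⟩ := hq
  rw [hqq]
  have hq1' : m ≤ (ch T q).2 := by simpa using hq1
  have hmin : ∀ q', m ≤ (ch T q').2 → q ≤ q' := by
    intro q' h
    by_contra hlt
    push Not at hlt
    have := hq3 q' hlt
    simp only [Bool.not_eq_true', decide_eq_false_iff_not] at this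
    exact this h
  refine ⟨?_, ?_, hq1', ?_⟩
  · rcases Nat.eq_zero_or_pos q with h0 | h0
    · exfalso
      rw [h0] at hq1'
      have e : (ch T 0).2 = 0 := rfl
      omega
    · exact h0
  · have := List.mem_range.1 hq2
    omega
  · intro n hn
    refine hmin _ ?_
    have hne : {q | n ≤ B (j + 3) q}.Nonempty := by
      refine ⟨n, ?_⟩
      show n ≤ (A (j + 3 - 3))^[n] 0
      exact hge _ _
    have hmem : n ≤ B (j + 3) (alk (j + 3) n) := Nat.sInf_mem hne
    have e : B (j + 3) (alk (j + 3) n) = (A j)^[alk (j + 3) n] 0 := rfl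
    have hc := (h1 m j T (alk (j + 3) n) hT).2.2.1
    rw [← e] at hc
    refine le_trans ?_ hc
    exact le_min (le_trans hn hmem) (le_refl _)

end Pool.Agent.AK
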