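import Pool.Agent.AK.StR

set_option autoImplicit false

/-!
# AK, module RA: the leading term (MP_4ed1f9_lc)
-/

namespace Pool.Agent.AK

theorem thm_RA : StRA := by
  intro α _ V F K s c hF hK hc hs
  have hb2 : 2 ^ V.card < 2 ^ s - 1 := by
    have h1 : 2 ^ (V.card + 2) ≤ 2 ^ s := Nat.pow_le_pow_right (by norm_num) hs
    have h2 : 2 ^ (V.card + 2) = 4 * 2 ^ V.card := by rw [pow_add]; ring
    have h3 : 0 < 2 ^ V.card := by positivity
    omega
  generalize hb : 2 ^ s - 1 = b at hb2 ⊢
  have hb0 : 0 < b := lt_of_le_of_lt (Nat.zero_le _) hb2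
  have hsplit : (∑ I ∈ F, b ^ I.card) =
      (∑ I ∈ F.filter (fun I => I.card = K), b ^ I.card) +
        ∑ I ∈ F.filter (fun I => ¬ I.card = K), b ^ I.card :=
    (Finset.sum_filter_add_sum_filter_not F (fun I => I.card = K) _).symm
  have hA : (∑ I ∈ F.filter (fun I => I.card = K), b ^ I.card) = c * b ^ K := by
    rw [Finset.sum_congr rfl (fun I hI => by rw [(Finset.mem_filter.mp hI).2]), Finset.sum_const, hc,
      smul_eq_mul]
  have hB : (∑ I ∈ F.filter (fun I => ¬ I.card = K), b ^ I.card) < b ^ K := by
    rcases Nat.eq_zero_or_pos K with h0 | h0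
    · have he : F.filter (fun I => ¬ I.card = K) = ∅ := by
        apply Finset.filter_eq_empty_iff.mpr
        intro I hI
        have := hK I hI
        omega
      rw [he, Finset.sum_empty]
      positivity
    · calc (∑ I ∈ F.filter (fun I => ¬ I.card = K), b ^ I.card)
          ≤ ∑ I ∈ F.filter (fun I => ¬ I.card = K), b ^ (K - 1) := by
            apply Finset.sum_le_sum
            intro I hI
            have h1 := hK I (Finset.mem_filter.mp hI).1
            have h2 := (Finset.mem_filter.mp hI).2
            exact Nat.pow_le_pow_right hb0 (by omega)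
        _ = (F.filter (fun I => ¬ I.card = K)).card * b ^ (K - 1) := by
            rw [Finset.sum_const, smul_eq_mul]
        _ ≤ 2 ^ V.card * b ^ (K - 1) := by
            apply Nat.mul_le_mul_right
            rw [← Finset.card_powerset]
            exact Finset.card_le_card ((Finset.filter_subset _ _).trans hF)
        _ < b * b ^ (K - 1) := by
            apply Nat.mul_lt_mul_of_pos_right hb2
            positivity
        _ = b ^ K := by
            rw [← pow_succ']
            congr 1
            omega
  rw [hsplit, hA]
  constructor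
  · exact Nat.le_add_right _ _
  · rw [add_mul, one_mul]
    omega

end Pool.Agent.AK
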