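import Pool.Agent.AK.StR

set_option autoImplicit false

/-!
# AK, RB: the count from the threshold test (binary search)
-/

namespace Pool.Agent.AK

open Pool.Agent.PolyTime

/-- One step of the binary search. -/
def RB_step (dec : CNF × ℕ → Bool) (φ : CNF) (N i : ℕ) : ℕ :=
  bif decide (N + 2 ^ (nv φ - i) ≤ 2 ^ nv φ) && dec (φ, N + 2 ^ (nv φ - i))
    then N + 2 ^ (nv φ - i) else N

theorem RB_count_le (φ : CNF) : count φ ≤ 2 ^ nv φ := by
  unfold count nv
  exact (Finset.card_filter_le _ _).trans (by rw [Finset.card_powerset])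

theorem RB_nv_le (φ : CNF) : nv φ ≤ φ.flatten.length := by
  unfold nv vars
  exact (List.toFinset_card_le _).trans (by rw [List.length_map])

theorem RB_inv (dec : CNF × ℕ → Bool)
    (hd : ∀ (φ : CNF) (N : ℕ), N ≤ 2 ^ nv φ → (dec (φ, N) = true ↔ N ≤ count φ)) (φ : CNF) (i : ℕ)
    (hi : i ≤ nv φ + 1) :
    (List.range i).foldl (RB_step dec φ) 0 ≤ count φ ∧
      count φ < (List.range i).foldl (RB_step dec φ) 0 + 2 ^ (nv φ + 1 - i) := by
  induction i with
  | zero =>
    refine ⟨Nat.zero_le _, ?_⟩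
    have h1 := RB_count_le φ
    have h2 : 2 ^ nv φ < 2 ^ (nv φ + 1) := Nat.pow_lt_pow_right (by norm_num) (by omega)
    simpa using lt_of_le_of_lt h1 h2
  | succ i ih =>
    obtain ⟨h1, h2⟩ := ih (by omega)
    rw [List.range_succ, List.foldl_append, List.foldl_cons, List.foldl_nil]
    generalize (List.range i).foldl (RB_step dec φ) 0 = N at h1 h2 ⊢
    have e1 : nv φ + 1 - i = (nv φ - i) + 1 := by omega
    have e2 : nv φ + 1 - (i + 1) = nv φ - i := by omega
    rw [e1, pow_succ] at h2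
    rw [e2]
    have hcl := RB_count_le φ
    unfold RB_step
    by_cases hle : N + 2 ^ (nv φ - i) ≤ count φ
    · have h3 : N + 2 ^ (nv φ - i) ≤ 2 ^ nv φ := hle.trans hcl
      have h4 : dec (φ, N + 2 ^ (nv φ - i)) = true := (hd φ _ h3).2 hle
      rw [h4, decide_eq_true h3]
      simp only [Bool.and_self, cond_true]
      exact ⟨hle, by omega⟩
    · have h4 : (decide (N + 2 ^ (nv φ - i) ≤ 2 ^ nv φ) && dec (φ, N + 2 ^ (nv φ - i))) = false := by
        by_contra hc
        rw [Bool.not_eq_false, Bool.and_eq_true, decide_eq_true_eq] at hc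
        exact hle ((hd φ _ hc.1).1 hc.2)
      rw [h4]
      simp only [cond_false]
      exact ⟨h1, by omega⟩

theorem thm_RB (h1 : StRN) : StRB := by
  intro dec hdec hd
  have hnv : PolyTime nv := h1.1
  have hflat : PolyTime (fun φ : CNF => φ.flatten) := by fun_prop
  have hb0 : PBd (fun φ : CNF => nv φ) := (pbd_length hflat).mono RB_nv_le
  have hnv' : PolyTime (fun q : CNF × ℕ × ℕ => nv q.1) := hnv.comp PolyTime.fst'
  have hflat' : PolyTime (fun q : CNF × ℕ × ℕ => q.1.flatten) := by fun_prop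
  have hb1 : PBd (fun q : CNF × ℕ × ℕ => nv q.1) :=
    (pbd_length hflat').mono fun q => RB_nv_le q.1
  have hb2 : PBd (fun q : CNF × ℕ × ℕ => nv q.1 - q.2.2) :=
    hb1.mono fun q => Nat.sub_le _ _
  have hp1 : PolyTime (fun q : CNF × ℕ × ℕ => 2 ^ (nv q.1 - q.2.2)) :=
    PolyTime.pow (PolyTime.const 2) (by fun_prop) hb2
  have hp2 : PolyTime (fun q : CNF × ℕ × ℕ => 2 ^ nv q.1) :=
    PolyTime.pow (PolyTime.const 2) hnv' hb1
  have hdc : PolyTime (fun q : CNF × ℕ × ℕ => dec (q.1, q.2.1 + 2 ^ (nv q.1 - q.2.2))) :=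
    hdec.comp (f := fun q : CNF × ℕ × ℕ => (q.1, q.2.1 + 2 ^ (nv q.1 - q.2.2))) (by fun_prop)
  have hh : PolyTime (fun q : CNF × ℕ × ℕ => RB_step dec q.1 q.2.1 q.2.2) := by
    unfold RB_step
    fun_prop
  have key : PolyTime (fun φ : CNF => (List.range (nv φ + 1)).foldl (RB_step dec φ) 0) := by
    refine PolyTime.foldRange (B := fun φ => nv φ + 1) (s := fun _ => 0) (by fun_prop)
      (hb0.add (PBd.const 1)) (PolyTime.const 0) hh (hb0.add (PBd.const 1)) ?_
    intro φ i hi
    have h3 := (RB_inv dec hd φ i hi).1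
    exact (size_nat_mono (h3.trans (RB_count_le φ))).trans (size_nat_two_pow _)
  refine key.congr fun φ => ?_
  have h3 := RB_inv dec hd φ (nv φ + 1) le_rfl
  rw [Nat.sub_self, pow_zero] at h3
  omega

end Pool.Agent.AK
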