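import Pool.Agent.AK.StR

set_option autoImplicit false

/-!
# AK, RC: thresholds from the count
-/

namespace Pool.Agent.AK

open Pool.Agent.PolyTime

theorem RC_nv_le (φ : CNF) : nv φ ≤ φ.flatten.length := by
  unfold nv vars
  exact (List.toFinset_card_le _).trans (by rw [List.length_map])

theorem thm_RC (h1 : StRN) : StRC := by
  intro hc
  have hnv : PolyTime nv := h1.1
  have hflat : PolyTime (fun φ : CNF => φ.flatten) := by fun_prop
  have hb0 : PBd (fun φ : CNF => nv φ) := (pbd_length hflat).mono RC_nv_le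
  have hpow : ∀ e : CNF → ℕ, PolyTime e → (∀ φ, e φ ≤ nv φ) → PolyTime (fun φ => 2 ^ e φ) :=
    fun e he hb => PolyTime.pow (PolyTime.const 2) he (hb0.mono hb)
  constructor
  · refine ⟨fun φ => decide (2 ^ nv φ ≤ 2 * count φ), ?_, fun φ => decide_eq_true_iff⟩
    have h2 := hpow nv hnv fun _ => le_rfl
    fun_prop
  · intro τ hτ
    have hr : PolyTime (fun φ : CNF => List.replicate (nv φ) ()) :=
      PolyTime.replicate hnv hb0 (PolyTime.const ())
    have ht : PolyTime (fun φ : CNF => τ (nv φ)) := by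
      refine (hτ.comp hr).congr fun φ => ?_
      simp
    have h2 : PolyTime (fun φ : CNF => 2 ^ (nv φ - τ (nv φ))) :=
      hpow (fun φ => nv φ - τ (nv φ)) (PolyTime.sub hnv ht) fun _ => Nat.sub_le _ _
    exact ⟨fun φ => decide (2 ^ (nv φ - τ (nv φ)) ≤ count φ), PolyTime.decide_le h2 hc,
      fun φ => decide_eq_true_iff⟩

end Pool.Agent.AK
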