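import Pool.Agent.AK.StR

set_option autoImplicit false

/-! # AK, module RE -/

namespace Pool.Agent.AK

open Pool.Agent.PolyTime

theorem thm_RE : StRE := fun _ _ => ⟨fun x => enc x, FP_encString, fun _ => rfl⟩

end Pool.Agent.AK
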