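import Pool.Agent.AK.StR

set_option autoImplicit false

/-!
# AK RF1: simple properties of the graph of a formula (MP_4ed1f9_lc)
-/

namespace Pool.Agent.AK

theorem RF1_inl (φ : CNF) (p : Name × Bool) : (Sum.inl p : Vx) ∈ vlist φ ↔ p.1 ∈ vars φ := by
  obtain ⟨x, b⟩ := p
  unfold vlist vars
  rw [List.mem_append, List.mem_toFinset, List.mem_flatMap]
  constructor
  · rintro (⟨y, hy, h⟩ | h)
    · simp only [List.mem_cons, Sum.inl.injEq, Prod.mk.injEq, List.not_mem_nil, or_false] at h
      rcases h with ⟨h, -⟩ | ⟨h, -⟩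
      · rw [h]; exact hy
      · rw [h]; exact hy
    · simp at h
  · intro h
    refine Or.inl ⟨x, h, ?_⟩
    cases b <;> simp

theorem RF1_inr (φ : CNF) (q : ℕ × ℕ) : (Sum.inr q : Vx) ∈ vlist φ ↔
    q.1 < φ.length ∧ q.2 < (φ.getD q.1 []).length := by
  obtain ⟨j, i⟩ := q
  unfold vlist
  rw [List.mem_append]
  constructor
  · rintro (h | h)
    · simp at h
    · rw [List.mem_flatMap] at h
      obtain ⟨j', hj', h⟩ := h
      rw [List.mem_map] at h
      obtain ⟨i', hi', h⟩ := h
      rw [Sum.inr.injEq, Prod.mk.injEq] at h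
      obtain ⟨rfl, rfl⟩ := h
      exact ⟨List.mem_range.1 hj', List.mem_range.1 hi'⟩
  · rintro ⟨h1, h2⟩
    right
    rw [List.mem_flatMap]
    exact ⟨j, List.mem_range.2 h1, List.mem_map.2 ⟨i, List.mem_range.2 h2, rfl⟩⟩

theorem RF1_lit (φ : CNF) (q : ℕ × ℕ) (h1 : q.1 < φ.length) (h2 : q.2 < (φ.getD q.1 []).length) :
    (lit φ q).1 ∈ vars φ := by
  unfold lit vars
  rw [List.mem_toFinset, List.mem_map]
  refine ⟨(φ.getD q.1 []).getD q.2 ([], false), ?_, rfl⟩
  rw [List.mem_flatten]
  refine ⟨φ.getD q.1 [], ?_, ?_⟩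
  · rw [List.getD_eq_getElem _ _ h1]
    exact List.getElem_mem h1
  · rw [List.getD_eq_getElem _ _ h2]
    exact List.getElem_mem h2

theorem thm_RF1 : StRF1 := by
  intro φ
  refine ⟨?_, ?_, ?_, ?_⟩
  · intro u
    rcases u with p | q
    · simp [fadj]
    · simp [fadj]
  · intro u hu
    rcases u with ⟨x, b⟩ | q
    · rw [RF1_inl] at hu
      refine ⟨Sum.inl (x, !b), (RF1_inl φ _).2 hu, ?_⟩
      cases b <;> simp [fadj]
    · rw [RF1_inr] at hu
      refine ⟨Sum.inl ((lit φ q).1, !(lit φ q).2), (RF1_inl φ _).2 (RF1_lit φ q hu.1 hu.2), ?_⟩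
      show bad φ _ q = true
      unfold bad
      cases (lit φ q).2 <;> simp
  · intro hn
    have hsub : ((vars φ ×ˢ (Finset.univ : Finset Bool)).image (Sum.inl : Name × Bool → Vx)) ∪
        ((Finset.range φ.length).image fun j => (Sum.inr (j, 0) : Vx)) ⊆ (vlist φ).toFinset := by
      intro u hu
      rw [List.mem_toFinset]
      rcases Finset.mem_union.1 hu with h | h
      · obtain ⟨p, hp, rfl⟩ := Finset.mem_image.1 h
        exact (RF1_inl φ p).2 (Finset.mem_product.1 hp).1
      · obtain ⟨j, hj, rfl⟩ := Finset.mem_image.1 h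
        rw [Finset.mem_range] at hj
        refine (RF1_inr φ _).2 ⟨hj, ?_⟩
        show 0 < (φ.getD j []).length
        rw [List.length_pos_iff]
        intro h0
        apply hn
        rw [List.getD_eq_getElem _ _ hj] at h0
        rw [← h0]
        exact List.getElem_mem hj
    have hcard := Finset.card_le_card hsub
    rw [Finset.card_union_of_disjoint, Finset.card_image_of_injective _ Sum.inl_injective,
      Finset.card_image_of_injective, Finset.card_product, Finset.card_univ, Fintype.card_bool,
      Finset.card_range] at hcard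
    · unfold nv
      omega
    · intro j j' h
      simpa using h
    · rw [Finset.disjoint_left]
      intro u h1 h2
      obtain ⟨p, -, rfl⟩ := Finset.mem_image.1 h1
      obtain ⟨j, -, h⟩ := Finset.mem_image.1 h2
      cases h
  · intro I hI
    unfold ind at hI
    rw [Finset.mem_filter, Finset.mem_powerset] at hI
    obtain ⟨hI1, hI2⟩ := hI
    let F : Vx → Name ⊕ ℕ := fun u => match u with
      | Sum.inl p => Sum.inl p.1
      | Sum.inr q => Sum.inr q.1
    have h1 : I.card ≤ ((vars φ).disjSum (Finset.range φ.length)).card := by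
      apply Finset.card_le_card_of_injOn F
      · intro u hu
        have h2 := List.mem_toFinset.1 (hI1 hu)
        rcases u with p | q
        · rw [RF1_inl] at h2
          exact Finset.mem_coe.2 (Finset.inl_mem_disjSum.2 h2)
        · rw [RF1_inr] at h2
          exact Finset.mem_coe.2 (Finset.inr_mem_disjSum.2 (Finset.mem_range.2 h2.1))
      · intro u hu v hv huv
        have h3 := hI2 u hu v hv
        rcases u with ⟨x, b⟩ | ⟨j, i⟩ <;> rcases v with ⟨x', b'⟩ | ⟨j', i'⟩
        · have e : x = x' := by simpa [F] using huv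
          subst e
          simp [fadj] at h3
          rw [h3]
        · simp [F] at huv
        · simp [F] at huv
        · have e : j = j' := by simpa [F] using huv
          subst e
          simp [fadj] at h3
          rw [h3]
    rw [Finset.card_disjSum, Finset.card_range] at h1
    exact h1

end Pool.Agent.AK
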