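import Pool.Agent.AK.StR

set_option autoImplicit false

/-!
# AK, RF2: independent sets of maximal size and satisfying assignments
-/

namespace Pool.Agent.AK

open Pool.Agent.PolyTime

theorem RF2_mem (φ : CNF) (S : Finset Name) (x : Name) (hx : x ∈ vars φ) :
    (Sum.inl (x, true) : Vx) ∈ iset φ S ↔ x ∈ S := by
  unfold iset
  rw [Finset.mem_union, Finset.mem_image, Finset.mem_image]
  constructor
  · rintro (⟨y, _, hy⟩ | ⟨j, _, hj⟩)
    · have h1 := Sum.inl.inj hy
      have h2 : y = x := congrArg Prod.fst h1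
      have h3 : decide (y ∈ S) = true := congrArg Prod.snd h1
      rw [h2] at h3
      exact of_decide_eq_true h3
    · cases hj
  · intro h
    exact Or.inl ⟨x, hx, by rw [decide_eq_true h]⟩

/-- **RF2**. -/
theorem thm_RF2 (h1 : StRF2a) (h2 : StRF2b) : StRF2 := by
  intro φ
  symm
  unfold count
  refine Finset.card_bij (fun S _ => iset φ S) ?_ ?_ ?_
  · intro S hS
    rw [Finset.mem_filter, Finset.mem_powerset] at hS
    rw [Finset.mem_filter]
    exact h1 φ S hS.1 hS.2
  · intro S hS T hT hST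
    rw [Finset.mem_filter, Finset.mem_powerset] at hS hT
    ext x
    constructor
    · intro hx
      rw [← RF2_mem φ T x (hS.1 hx), ← hST]
      exact (RF2_mem φ S x (hS.1 hx)).2 hx
    · intro hx
      rw [← RF2_mem φ S x (hT.1 hx), hST]
      exact (RF2_mem φ T x (hT.1 hx)).2 hx
  · intro I hI
    rw [Finset.mem_filter] at hI
    obtain ⟨S, hS, hsat, hiS⟩ := h2 φ I hI.1 hI.2
    exact ⟨S, Finset.mem_filter.2 ⟨Finset.mem_powerset.2 hS, hsat⟩, hiS⟩

end Pool.Agent.AK
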