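import Pool.Agent.AK.StR

set_option autoImplicit false

/-! # AK RF2a: the independent set of a satisfying assignment -/

namespace Pool.Agent.AK

/-- index of the first true literal of the clause `j` -/
def RF2a_idx (φ : CNF) (S : Finset Name) (j : ℕ) : ℕ :=
  (φ.getD j []).findIdx fun l => decide (decide (l.1 ∈ S) = l.2)

theorem RF2a_iset (φ : CNF) (S : Finset Name) : iset φ S =
    (vars φ).image (fun x => Sum.inl (x, decide (x ∈ S))) ∪
      (Finset.range φ.length).image fun j => Sum.inr (j, RF2a_idx φ S j) := rfl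

theorem RF2a_lt {φ : CNF} {S : Finset Name} (h : Sat S φ) {j : ℕ} (hj : j < φ.length) :
    RF2a_idx φ S j < (φ.getD j []).length := by
  unfold RF2a_idx
  rw [List.findIdx_lt_length]
  have h1 : φ.getD j [] ∈ φ := by
    rw [List.getD_eq_getElem _ _ hj]
    exact List.getElem_mem hj
  obtain ⟨l, hl, h2⟩ := h _ h1
  refine ⟨l, hl, ?_⟩
  rw [decide_eq_true_eq]
  by_cases h3 : l.1 ∈ S
  · rw [decide_eq_true h3, h2.1 h3]
  · rw [decide_eq_false h3]
    cases h4 : l.2 with
    | false => rfl
    | true => exact absurd (h2.2 h4) h3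

theorem RF2a_true {φ : CNF} {S : Finset Name} (h : Sat S φ) {j : ℕ} (hj : j < φ.length) :
    decide ((lit φ (j, RF2a_idx φ S j)).1 ∈ S) = (lit φ (j, RF2a_idx φ S j)).2 := by
  have h1 := RF2a_lt h hj
  have h2 : lit φ (j, RF2a_idx φ S j) = (φ.getD j [])[RF2a_idx φ S j] := by
    unfold lit
    exact List.getD_eq_getElem _ _ h1
  have h3 := @List.findIdx_getElem _ (fun l : Lit => decide (decide (l.1 ∈ S) = l.2)) (φ.getD j []) h1
  rw [h2]
  exact of_decide_eq_true h3

theorem RF2a_take {φ : CNF} {S : Finset Name} {j : ℕ} (x : Name) :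
    (x, decide (x ∈ S)) ∉ (φ.getD j []).take (RF2a_idx φ S j) := by
  intro hx
  obtain ⟨i, hi, he⟩ := List.getElem_of_mem hx
  rw [List.length_take] at hi
  rw [List.getElem_take] at he
  have h1 : i < RF2a_idx φ S j := lt_of_lt_of_le hi (min_le_left _ _)
  have h2 := List.not_of_lt_findIdx h1
  rw [he] at h2
  simp at h2

theorem RF2a_nadj {φ : CNF} {S : Finset Name} (h : Sat S φ) {j : ℕ} (hj : j < φ.length) (x : Name) :
    bad φ (x, decide (x ∈ S)) (j, RF2a_idx φ S j) = false := by
  unfold bad
  have h1 := RF2a_true h hj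
  rw [Bool.or_eq_false_iff]
  constructor
  · by_cases h2 : x = (lit φ (j, RF2a_idx φ S j)).1
    · subst h2
      rw [h1]
      simp
    · simp [h2]
  · exact decide_eq_false (RF2a_take x)

theorem thm_RF2a : StRF2a := by
  intro φ S hS h
  have hinj1 : Function.Injective (fun x : Name => (Sum.inl (x, decide (x ∈ S)) : Vx)) := by
    intro x y hxy
    have := Sum.inl_injective hxy
    exact (Prod.mk.inj this).1
  have hinj2 : Function.Injective (fun j : ℕ => (Sum.inr (j, RF2a_idx φ S j) : Vx)) := by
    intro x y hxy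
    have := Sum.inr_injective hxy
    exact (Prod.mk.inj this).1
  refine ⟨?_, ?_⟩
  · simp only [ind, Finset.mem_filter, Finset.mem_powerset]
    refine ⟨?_, ?_⟩
    · intro u hu
      rw [RF2a_iset, Finset.mem_union, Finset.mem_image, Finset.mem_image] at hu
      rw [List.mem_toFinset, vlist, List.mem_append]
      rcases hu with ⟨x, hx, rfl⟩ | ⟨j, hj, rfl⟩
      · left
        rw [List.mem_flatMap]
        refine ⟨x, ?_, ?_⟩
        · exact List.mem_toFinset.1 hx
        · cases decide (x ∈ S) <;> simp
      · right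
        rw [Finset.mem_range] at hj
        rw [List.mem_flatMap]
        refine ⟨j, List.mem_range.2 hj, ?_⟩
        rw [List.mem_map]
        exact ⟨_, List.mem_range.2 (RF2a_lt h hj), rfl⟩
    · intro u hu v hv
      rw [RF2a_iset, Finset.mem_union, Finset.mem_image, Finset.mem_image] at hu hv
      rcases hu with ⟨x, hx, rfl⟩ | ⟨j, hj, rfl⟩
      · rcases hv with ⟨y, hy, rfl⟩ | ⟨k, hk, rfl⟩
        · change (decide (x = y) && !decide (decide (x ∈ S) = decide (y ∈ S))) = false
          by_cases hxy : x = y
          · subst hxy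
            simp
          · simp [hxy]
        · exact RF2a_nadj h (Finset.mem_range.1 hk) x
      · rcases hv with ⟨y, hy, rfl⟩ | ⟨k, hk, rfl⟩
        · exact RF2a_nadj h (Finset.mem_range.1 hj) y
        · change (decide (j = k) && !decide (RF2a_idx φ S j = RF2a_idx φ S k)) = false
          by_cases hxy : j = k
          · subst hxy
            simp
          · simp [hxy]
  · rw [RF2a_iset, Finset.card_union_of_disjoint, Finset.card_image_of_injective _ hinj1,
      Finset.card_image_of_injective _ hinj2, Finset.card_range]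
    · rfl
    · rw [Finset.disjoint_left]
      intro u hu hv
      obtain ⟨x, _, rfl⟩ := Finset.mem_image.1 hu
      obtain ⟨j, _, h2⟩ := Finset.mem_image.1 hv
      simp at h2

end Pool.Agent.AK
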