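import Pool.Agent.AK.StR

set_option autoImplicit false

/-!
# AK, module RF2b: maximal independent sets come from satisfying assignments
-/

namespace Pool.Agent.AK

open Pool.Agent.PolyTime

private lemma RF2b_mem_inl (φ : CNF) (x : Name) (b : Bool) :
    (Sum.inl (x, b) : Vx) ∈ (vlist φ).toFinset ↔ x ∈ vars φ := by
  unfold vlist vars
  simp only [List.mem_toFinset, List.mem_append, List.mem_flatMap, List.mem_map, List.mem_range,
    List.mem_cons, Sum.inl.injEq, Prod.mk.injEq, reduceCtorEq, and_false, exists_false,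
    or_false, List.not_mem_nil]
  constructor
  · rintro ⟨y, hy, h⟩
    rcases h with ⟨rfl, _⟩ | ⟨rfl, _⟩ <;> exact hy
  · intro h
    refine ⟨x, h, ?_⟩
    cases b <;> simp

private lemma RF2b_mem_inr (φ : CNF) (j i : ℕ) :
    (Sum.inr (j, i) : Vx) ∈ (vlist φ).toFinset ↔ j < φ.length ∧ i < (φ.getD j []).length := by
  unfold vlist
  simp only [List.mem_toFinset, List.mem_append, List.mem_flatMap, List.mem_map, List.mem_range,
    List.mem_cons, Sum.inr.injEq, Prod.mk.injEq, reduceCtorEq, or_false, and_false, exists_false,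
    List.not_mem_nil, false_or]
  constructor
  · rintro ⟨j', hj, i', hi, rfl, rfl⟩
    exact ⟨hj, hi⟩
  · rintro ⟨hj, hi⟩
    exact ⟨j, hj, i, hi, rfl, rfl⟩

private lemma RF2b_mem_vars (φ : CNF) (C : Clause) (hC : C ∈ φ) (l : Lit) (hl : l ∈ C) :
    l.1 ∈ vars φ := by
  unfold vars
  simp only [List.mem_toFinset, List.mem_map]
  exact ⟨l, List.mem_flatten.2 ⟨C, hC, hl⟩, rfl⟩

/-- Maximal independent sets come from satisfying assignments. -/
theorem thm_RF2b : StRF2b := by
  intro φ I hI hcard
  unfold ind at hI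
  rw [Finset.mem_filter, Finset.mem_powerset] at hI
  obtain ⟨hsub, hind⟩ := hI
  -- the projection
  let g : Vx → Name ⊕ ℕ := Sum.map (fun p => p.1) (fun q => q.1)
  have hinj : ∀ u ∈ I, ∀ v ∈ I, g u = g v → u = v := by
    intro u hu v hv huv
    have hf := hind u hu v hv
    rcases u with ⟨x, b⟩ | ⟨j, i⟩ <;> rcases v with ⟨y, c⟩ | ⟨k, l⟩
    · simp only [g, Sum.map_inl, Sum.inl.injEq] at huv
      subst huv
      simp only [fadj, decide_true, Bool.true_and, Bool.not_eq_false', decide_eq_true_eq] at hf
      rw [hf]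
    · simp [g] at huv
    · simp [g] at huv
    · simp only [g, Sum.map_inr, Sum.inr.injEq] at huv
      subst huv
      simp only [fadj, decide_true, Bool.true_and, Bool.not_eq_false', decide_eq_true_eq] at hf
      rw [hf]
  have hmaps : I.image g ⊆ (vars φ).disjSum (Finset.range φ.length) := by
    intro w hw
    rw [Finset.mem_image] at hw
    obtain ⟨u, hu, rfl⟩ := hw
    have hu' := hsub hu
    rcases u with ⟨x, b⟩ | ⟨j, i⟩
    · rw [RF2b_mem_inl] at hu'
      simpa [g] using hu'
    · rw [RF2b_mem_inr] at hu'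
      simpa [g] using hu'.1
  have himg : I.image g = (vars φ).disjSum (Finset.range φ.length) := by
    apply Finset.eq_of_subset_of_card_le hmaps
    rw [Finset.card_image_of_injOn (fun u hu v hv h => hinj u hu v hv h), hcard,
      Finset.card_disjSum, Finset.card_range]
    rfl
  have hx : ∀ x ∈ vars φ, ∃ b, (Sum.inl (x, b) : Vx) ∈ I := by
    intro x hx
    have : (Sum.inl x : Name ⊕ ℕ) ∈ I.image g := by
      rw [himg]
      simpa using hx
    rw [Finset.mem_image] at this
    obtain ⟨u, hu, h⟩ := this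
    rcases u with ⟨y, b⟩ | ⟨j, i⟩
    · simp only [g, Sum.map_inl, Sum.inl.injEq] at h
      subst h
      exact ⟨b, hu⟩
    · simp [g] at h
  have hj : ∀ j, j < φ.length → ∃ i, (Sum.inr (j, i) : Vx) ∈ I := by
    intro j hj
    have : (Sum.inr j : Name ⊕ ℕ) ∈ I.image g := by
      rw [himg]
      simpa using hj
    rw [Finset.mem_image] at this
    obtain ⟨u, hu, h⟩ := this
    rcases u with ⟨y, b⟩ | ⟨k, i⟩
    · simp [g] at h
    · simp only [g, Sum.map_inr, Sum.inr.injEq] at h
      subst h
      exact ⟨i, hu⟩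
  let S : Finset Name := (vars φ).filter fun x => (Sum.inl (x, true) : Vx) ∈ I
  have hS : ∀ x ∈ vars φ, (Sum.inl (x, decide (x ∈ S)) : Vx) ∈ I := by
    intro x hxv
    obtain ⟨b, hb⟩ := hx x hxv
    by_cases h : (Sum.inl (x, true) : Vx) ∈ I
    · have : x ∈ S := by
        simp only [S, Finset.mem_filter]
        exact ⟨hxv, h⟩
      rw [decide_eq_true this]
      exact h
    · have : x ∉ S := by
        simp only [S, Finset.mem_filter, not_and]
        exact fun _ => h
      rw [decide_eq_false this]
      cases b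
      · exact hb
      · exact absurd hb h
  -- the clause of a vertex of the second kind
  have key : ∀ j i, (Sum.inr (j, i) : Vx) ∈ I →
      ∃ hi : i < (φ.getD j []).length,
        decide (((φ.getD j [])[i]).1 ∈ S) = ((φ.getD j [])[i]).2 ∧
        ∀ (k : ℕ) (hk : k < (φ.getD j []).length), k < i →
          decide (((φ.getD j [])[k]).1 ∈ S) ≠ ((φ.getD j [])[k]).2 := by
    intro j i hji
    have hmem := hsub hji
    rw [RF2b_mem_inr] at hmem
    obtain ⟨hjl, hil⟩ := hmem
    have hC : φ.getD j [] ∈ φ := by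
      rw [List.getD_eq_getElem _ _ hjl]
      exact List.getElem_mem hjl
    refine ⟨hil, ?_, ?_⟩
    · have hv : ((φ.getD j [])[i]).1 ∈ vars φ := RF2b_mem_vars φ _ hC _ (List.getElem_mem hil)
      have hb := hind _ (hS _ hv) _ hji
      simp only [fadj, bad, Bool.or_eq_false_iff] at hb
      have h1 := hb.1
      have hlit : lit φ (j, i) = (φ.getD j [])[i] := by
        unfold lit
        simp only
        rw [List.getD_eq_getElem _ _ hil]
      rw [hlit] at h1
      simpa using h1
    · intro k hk hki heq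
      have hv : ((φ.getD j [])[k]).1 ∈ vars φ := RF2b_mem_vars φ _ hC _ (List.getElem_mem hk)
      have hb := hind _ (hS _ hv) _ hji
      simp only [fadj, bad, Bool.or_eq_false_iff] at hb
      have h2 := hb.2
      rw [decide_eq_false_iff_not] at h2
      apply h2
      rw [heq]
      have : ((φ.getD j [])[k].1, (φ.getD j [])[k].2) = (φ.getD j [])[k] := rfl
      rw [this, List.mem_take_iff_getElem]
      exact ⟨k, by simpa using ⟨hki, hk⟩, rfl⟩
  have hfind : ∀ j i, (Sum.inr (j, i) : Vx) ∈ I →
      (φ.getD j []).findIdx (fun l => decide (decide (l.1 ∈ S) = l.2)) = i := by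
    intro j i hji
    obtain ⟨hi, h1, h2⟩ := key j i hji
    rw [List.findIdx_eq hi]
    refine ⟨by simpa using h1, ?_⟩
    intro k hk
    have := h2 k (hk.trans hi) hk
    simpa using this
  refine ⟨S, Finset.filter_subset _ _, ?_, ?_⟩
  · intro C hC
    obtain ⟨j, hjl, rfl⟩ := List.mem_iff_getElem.1 hC
    obtain ⟨i, hi⟩ := hj j hjl
    obtain ⟨hil, h1, _⟩ := key j i hi
    have hgd : φ.getD j [] = φ[j] := List.getD_eq_getElem _ _ hjl
    refine ⟨(φ.getD j [])[i], ?_, ?_⟩
    · rw [← hgd]
      exact List.getElem_mem hil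
    · rw [← h1]
      simp
  · apply Finset.Subset.antisymm
    · intro u hu
      unfold iset at hu
      rw [Finset.mem_union, Finset.mem_image, Finset.mem_image] at hu
      rcases hu with ⟨x, hxv, rfl⟩ | ⟨j, hjr, rfl⟩
      · exact hS x hxv
      · rw [Finset.mem_range] at hjr
        obtain ⟨i, hi⟩ := hj j hjr
        rw [hfind j i hi]
        exact hi
    · intro u hu
      unfold iset
      rw [Finset.mem_union, Finset.mem_image, Finset.mem_image]
      have hu' := hsub hu
      rcases u with ⟨x, b⟩ | ⟨j, i⟩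
      · rw [RF2b_mem_inl] at hu'
        left
        refine ⟨x, hu', ?_⟩
        exact hinj _ (hS x hu') _ hu rfl
      · rw [RF2b_mem_inr] at hu'
        right
        refine ⟨j, Finset.mem_range.2 hu'.1, ?_⟩
        rw [hfind j i hu]

end Pool.Agent.AK
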