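import Pool.Agent.AK.StR

set_option autoImplicit false

/-!
# AK, RG1: the models of the formula of a graph are the complements of the independent sets
-/

namespace Pool.Agent.AK

open Pool.Agent.PolyTime

theorem RG1_mem {α : Type} [PEnc α] (L : List α) (adj : α → α → Bool) (C : Clause) :
    C ∈ gcnf L adj ↔ ∃ u ∈ L, ∃ v ∈ L, adj u v = true ∧ C = [(enc u, true), (enc v, true)] := by
  unfold gcnf
  rw [List.mem_map]
  constructor
  · rintro ⟨⟨u, v⟩, h, rfl⟩
    rw [List.mem_filter] at h
    obtain ⟨h1, h2⟩ := h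
    have h3 := List.pair_mem_product.1 h1
    exact ⟨u, h3.1, v, h3.2, h2, rfl⟩
  · rintro ⟨u, hu, v, hv, h, rfl⟩
    refine ⟨(u, v), ?_, rfl⟩
    rw [List.mem_filter]
    exact ⟨List.pair_mem_product.2 ⟨hu, hv⟩, h⟩

theorem RG1_vars {α : Type} [DecidableEq α] [PEnc α] (L : List α) (adj : α → α → Bool)
    (h : ∀ u ∈ L, ∃ v ∈ L, adj u v = true) : vars (gcnf L adj) = L.toFinset.image enc := by
  ext x
  unfold vars
  rw [List.mem_toFinset, List.mem_map, Finset.mem_image]
  constructor
  · rintro ⟨l, hl, rfl⟩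
    rw [List.mem_flatten] at hl
    obtain ⟨C, hC, hl⟩ := hl
    obtain ⟨u, hu, v, hv, -, rfl⟩ := (RG1_mem L adj C).1 hC
    rw [List.mem_cons, List.mem_cons] at hl
    rcases hl with rfl | rfl | hl
    · exact ⟨u, List.mem_toFinset.2 hu, rfl⟩
    · exact ⟨v, List.mem_toFinset.2 hv, rfl⟩
    · exact absurd hl List.not_mem_nil
  · rintro ⟨u, hu, rfl⟩
    rw [List.mem_toFinset] at hu
    obtain ⟨v, hv, huv⟩ := h u hu
    refine ⟨(enc u, true), ?_, rfl⟩
    rw [List.mem_flatten]
    exact ⟨_, (RG1_mem L adj _).2 ⟨u, hu, v, hv, huv, rfl⟩, List.mem_cons_self⟩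

theorem RG1_sat {α : Type} [PEnc α] (L : List α) (adj : α → α → Bool) (S : Finset Name) :
    Sat S (gcnf L adj) ↔ ∀ u ∈ L, ∀ v ∈ L, adj u v = true → enc u ∈ S ∨ enc v ∈ S := by
  unfold Sat
  constructor
  · intro h u hu v hv huv
    obtain ⟨l, hl, hl'⟩ := h _ ((RG1_mem L adj _).2 ⟨u, hu, v, hv, huv, rfl⟩)
    rw [List.mem_cons, List.mem_cons] at hl
    rcases hl with rfl | rfl | hl
    · exact Or.inl (hl'.2 rfl)
    · exact Or.inr (hl'.2 rfl)
    · exact absurd hl List.not_mem_nil
  · intro h C hC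
    obtain ⟨u, hu, v, hv, huv, rfl⟩ := (RG1_mem L adj C).1 hC
    rcases h u hu v hv huv with h1 | h1
    · exact ⟨(enc u, true), List.mem_cons_self, iff_of_true h1 rfl⟩
    · exact ⟨(enc v, true), List.mem_cons_of_mem _ List.mem_cons_self, iff_of_true h1 rfl⟩

theorem thm_RG1 : StRG1 := by
  intro α _ _ L adj h
  have hv := RG1_vars L adj h
  have hinj : Function.Injective (enc : α → List Bool) := PEnc.inj
  refine ⟨?_, ?_, ?_, ?_⟩
  · unfold nv
    rw [hv, Finset.card_image_of_injective _ hinj]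
  · unfold count ind
    rw [hv]
    symm
    refine Finset.card_nbij' (fun I => (L.toFinset \ I).image enc)
      (fun S => L.toFinset.filter fun x => enc x ∉ S) ?_ ?_ ?_ ?_
    · intro I hI
      rw [Finset.mem_coe, Finset.mem_filter, Finset.mem_powerset] at hI
      rw [Finset.mem_coe, Finset.mem_filter, Finset.mem_powerset]
      refine ⟨Finset.image_subset_image Finset.sdiff_subset, ?_⟩
      rw [RG1_sat]
      intro u hu v hv huv
      by_cases h1 : u ∈ I
      · by_cases h2 : v ∈ I
        · rw [hI.2 u h1 v h2] at huv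
          exact absurd huv (by decide)
        · exact Or.inr (Finset.mem_image_of_mem _ (Finset.mem_sdiff.2 ⟨List.mem_toFinset.2 hv, h2⟩))
      · exact Or.inl (Finset.mem_image_of_mem _ (Finset.mem_sdiff.2 ⟨List.mem_toFinset.2 hu, h1⟩))
    · intro S hS
      rw [Finset.mem_coe, Finset.mem_filter, RG1_sat] at hS
      rw [Finset.mem_coe, Finset.mem_filter, Finset.mem_powerset]
      refine ⟨Finset.filter_subset _ _, ?_⟩
      intro u hu v hv
      rw [Finset.mem_filter, List.mem_toFinset] at hu hv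
      by_contra hne
      rw [Bool.not_eq_false] at hne
      rcases hS.2 u hu.1 v hv.1 hne with h1 | h1
      · exact hu.2 h1
      · exact hv.2 h1
    · intro I hI
      rw [Finset.mem_coe, Finset.mem_filter, Finset.mem_powerset] at hI
      ext x
      simp only [Finset.mem_filter, Finset.mem_image, Finset.mem_sdiff]
      constructor
      · rintro ⟨h1, h2⟩
        by_contra h3
        exact h2 ⟨x, ⟨h1, h3⟩, rfl⟩
      · intro h1
        refine ⟨hI.1 h1, ?_⟩
        rintro ⟨y, ⟨-, hy⟩, hxy⟩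
        rw [hinj hxy] at hy
        exact hy h1
    · intro S hS
      rw [Finset.mem_coe, Finset.mem_filter, Finset.mem_powerset] at hS
      ext x
      simp only [Finset.mem_filter, Finset.mem_image, Finset.mem_sdiff]
      constructor
      · rintro ⟨y, ⟨h1, h2⟩, rfl⟩
        by_contra h3
        exact h2 ⟨h1, h3⟩
      · intro h1
        obtain ⟨y, hy, rfl⟩ := Finset.mem_image.1 (hS.1 h1)
        exact ⟨y, ⟨hy, fun h2 => h2.2 h1⟩, rfl⟩
  · intro C hC l hl
    obtain ⟨u, -, v, -, -, rfl⟩ := (RG1_mem L adj C).1 hC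
    rw [List.mem_cons, List.mem_cons] at hl
    rcases hl with rfl | rfl | hl
    · rfl
    · rfl
    · exact absurd hl List.not_mem_nil
  · intro C hC
    obtain ⟨u, -, v, -, -, rfl⟩ := (RG1_mem L adj C).1 hC
    rfl

end Pool.Agent.AK
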