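import Pool.Agent.AK.StR

set_option autoImplicit false

/-!
# AK, RG2: every vertex replaced by `s` independent twins
-/

namespace Pool.Agent.AK

theorem RG2_fib {α : Type} [DecidableEq α] (V : Finset α) (adj : α → α → Bool) (s : ℕ)
    (I : Finset α) (hI : I ∈ ind V adj) :
    ((ind (V ×ˢ Finset.range s) (tw adj)).filter fun J => J.image Prod.fst = I).card =
      (2 ^ s - 1) ^ I.card := by
  unfold ind at hI
  rw [Finset.mem_filter, Finset.mem_powerset] at hI
  have h1 : (I.pi fun _ => (Finset.range s).powerset.erase ∅).card = (2 ^ s - 1) ^ I.card := by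
    rw [Finset.card_pi, Finset.prod_const, Finset.card_erase_of_mem (Finset.empty_mem_powerset _),
      Finset.card_powerset, Finset.card_range]
  rw [← h1]
  refine Finset.card_nbij'
    (fun J => fun u _ => (Finset.range s).filter fun c => (u, c) ∈ J)
    (fun g => (I ×ˢ Finset.range s).filter fun p => ∃ h : p.1 ∈ I, p.2 ∈ g p.1 h) ?_ ?_ ?_ ?_
  · intro J hJ
    rw [Finset.mem_coe, Finset.mem_filter] at hJ
    obtain ⟨hJ1, hJ2⟩ := hJ
    unfold ind at hJ1
    rw [Finset.mem_filter, Finset.mem_powerset] at hJ1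
    rw [Finset.mem_coe, Finset.mem_pi]
    intro u hu
    rw [Finset.mem_erase, Finset.mem_powerset]
    refine ⟨?_, Finset.filter_subset _ _⟩
    rw [← hJ2] at hu
    obtain ⟨⟨u', c⟩, hp, rfl⟩ := Finset.mem_image.1 hu
    have h2 := hJ1.1 hp
    rw [Finset.mem_product] at h2
    exact (Finset.nonempty_iff_ne_empty.1 ⟨c, Finset.mem_filter.2 ⟨h2.2, hp⟩⟩)
  · intro g hg
    rw [Finset.mem_coe, Finset.mem_pi] at hg
    rw [Finset.mem_coe, Finset.mem_filter]
    constructor
    · unfold ind
      rw [Finset.mem_filter, Finset.mem_powerset]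
      constructor
      · intro p hp
        rw [Finset.mem_filter, Finset.mem_product] at hp
        rw [Finset.mem_product]
        exact ⟨hI.1 hp.1.1, hp.1.2⟩
      · intro p hp q hq
        rw [Finset.mem_filter, Finset.mem_product] at hp hq
        exact hI.2 _ hp.1.1 _ hq.1.1
    · ext u
      rw [Finset.mem_image]
      constructor
      · rintro ⟨p, hp, rfl⟩
        rw [Finset.mem_filter, Finset.mem_product] at hp
        exact hp.1.1
      · intro hu
        have h2 := hg u hu
        rw [Finset.mem_erase, Finset.mem_powerset] at h2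
        obtain ⟨c, hc⟩ := Finset.nonempty_iff_ne_empty.2 h2.1
        refine ⟨(u, c), ?_, rfl⟩
        rw [Finset.mem_filter, Finset.mem_product]
        exact ⟨⟨hu, h2.2 hc⟩, hu, hc⟩
  · intro J hJ
    rw [Finset.mem_coe, Finset.mem_filter] at hJ
    obtain ⟨hJ1, hJ2⟩ := hJ
    unfold ind at hJ1
    rw [Finset.mem_filter, Finset.mem_powerset] at hJ1
    ext ⟨u, c⟩
    simp only [Finset.mem_filter, Finset.mem_product, exists_prop]
    constructor
    · rintro ⟨-, -, -, h⟩
      exact h
    · intro h
      have h2 := hJ1.1 h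
      rw [Finset.mem_product] at h2
      have h3 : u ∈ I := by
        rw [← hJ2]
        exact Finset.mem_image.2 ⟨(u, c), h, rfl⟩
      exact ⟨⟨h3, h2.2⟩, h3, h2.2, h⟩
  · intro g hg
    rw [Finset.mem_coe, Finset.mem_pi] at hg
    funext u hu
    have h2 := hg u hu
    rw [Finset.mem_erase, Finset.mem_powerset] at h2
    ext c
    simp only [Finset.mem_filter, Finset.mem_product]
    constructor
    · rintro ⟨_, _, _, h⟩
      exact h
    · intro h
      exact ⟨h2.2 h, ⟨hu, h2.2 h⟩, hu, h⟩

theorem thm_RG2 : StRG2 := by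
  intro α _ V adj s
  have hmaps : ∀ J ∈ ind (V ×ˢ Finset.range s) (tw adj), J.image Prod.fst ∈ ind V adj := by
    intro J hJ
    unfold ind at hJ ⊢
    rw [Finset.mem_filter, Finset.mem_powerset] at hJ ⊢
    constructor
    · intro u hu
      obtain ⟨p, hp, rfl⟩ := Finset.mem_image.1 hu
      have h2 := hJ.1 hp
      rw [Finset.mem_product] at h2
      exact h2.1
    · intro u hu v hv
      obtain ⟨p, hp, rfl⟩ := Finset.mem_image.1 hu
      obtain ⟨q, hq, rfl⟩ := Finset.mem_image.1 hv
      exact hJ.2 p hp q hq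
  rw [Finset.card_eq_sum_card_fiberwise hmaps]
  exact Finset.sum_congr rfl fun I hI => RG2_fib V adj s I hI

end Pool.Agent.AK
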