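import Pool.Agent.AK.StR

set_option autoImplicit false

/-! # AK RG3: independent sets of a join -/

namespace Pool.Agent.AK

theorem RG3_union {α β : Type} [DecidableEq α] [DecidableEq β] (V : Finset α) (W : Finset β)
    (a : α → α → Bool) (b : β → β → Bool) :
    ind (V.disjSum W) (jn a b) =
      (ind V a).image (fun I => I.disjSum (∅ : Finset β)) ∪
        (ind W b).image (fun I => (∅ : Finset α).disjSum I) := by
  ext J
  simp only [ind, Finset.mem_filter, Finset.mem_powerset, Finset.mem_union, Finset.mem_image]
  constructor
  · rintro ⟨hJ, hi⟩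
    by_cases hl : ∃ u, Sum.inl u ∈ J
    · obtain ⟨u, hu⟩ := hl
      have hr : ∀ v, Sum.inr v ∉ J := by
        intro v hv
        have := hi _ hu _ hv
        simp [jn] at this
      left
      refine ⟨J.toLeft, ⟨?_, ?_⟩, ?_⟩
      · intro x hx
        have h1 := hJ (Finset.mem_toLeft.1 hx)
        simpa using h1
      · intro x hx y hy
        exact hi _ (Finset.mem_toLeft.1 hx) _ (Finset.mem_toLeft.1 hy)
      · ext x
        rcases x with x | x
        · simp
        · simp [hr x]
    · push Not at hl
      right
      refine ⟨J.toRight, ⟨?_, ?_⟩, ?_⟩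
      · intro x hx
        have h1 := hJ (Finset.mem_toRight.1 hx)
        simpa using h1
      · intro x hx y hy
        exact hi _ (Finset.mem_toRight.1 hx) _ (Finset.mem_toRight.1 hy)
      · ext x
        rcases x with x | x
        · simp [hl x]
        · simp
  · rintro (⟨I, ⟨hI, hi⟩, rfl⟩ | ⟨I, ⟨hI, hi⟩, rfl⟩)
    · refine ⟨?_, ?_⟩
      · intro x hx
        rcases x with x | x
        · simp at hx ⊢
          exact hI hx
        · simp at hx
      · intro x hx y hy
        rcases x with x | x
        · rcases y with y | y
          · simp at hx hy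
            exact hi x hx y hy
          · simp at hy
        · simp at hx
    · refine ⟨?_, ?_⟩
      · intro x hx
        rcases x with x | x
        · simp at hx
        · simp at hx ⊢
          exact hI hx
      · intro x hx y hy
        rcases x with x | x
        · simp at hx
        · rcases y with y | y
          · simp at hy
          · simp at hx hy
            exact hi x hx y hy

theorem RG3_inter {α β : Type} [DecidableEq α] [DecidableEq β] (V : Finset α) (W : Finset β)
    (a : α → α → Bool) (b : β → β → Bool) :
    (ind V a).image (fun I => I.disjSum (∅ : Finset β)) ∩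
        (ind W b).image (fun I => (∅ : Finset α).disjSum I) = {∅} := by
  ext J
  simp only [Finset.mem_inter, Finset.mem_image, Finset.mem_singleton]
  constructor
  · rintro ⟨⟨I, _, rfl⟩, ⟨I', _, h⟩⟩
    ext x
    rcases x with x | x
    · have h1 : (Sum.inl x : α ⊕ β) ∈ (∅ : Finset α).disjSum I' ↔ (Sum.inl x : α ⊕ β) ∈ I.disjSum (∅ : Finset β) := by
        rw [h]
      simpa using h1
    · simp
  · rintro rfl
    refine ⟨⟨∅, ?_, by simp⟩, ⟨∅, ?_, by simp⟩⟩
    · simp [ind]
    · simp [ind]

theorem thm_RG3 : StRG3 := by
  intro α β _ _ V W a b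
  have h1 := Finset.card_union_add_card_inter
    ((ind V a).image (fun I => I.disjSum (∅ : Finset β)))
    ((ind W b).image (fun I => (∅ : Finset α).disjSum I))
  rw [RG3_inter V W a b, ← RG3_union V W a b, Finset.card_singleton] at h1
  rw [h1]
  congr 1
  · apply Finset.card_image_of_injective
    intro I I' h
    ext x
    have h2 : (Sum.inl x : α ⊕ β) ∈ I.disjSum (∅ : Finset β) ↔ (Sum.inl x : α ⊕ β) ∈ I'.disjSum (∅ : Finset β) := by
      beta_reduce at h
      rw [h]
    simpa using h2
  · apply Finset.card_image_of_injective
    intro I I' h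
    ext x
    have h2 : (Sum.inr x : α ⊕ β) ∈ (∅ : Finset α).disjSum I ↔ (Sum.inr x : α ⊕ β) ∈ (∅ : Finset α).disjSum I' := by
      beta_reduce at h
      rw [h]
    simpa using h2

end Pool.Agent.AK
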