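import Pool.Agent.AK.StR

set_option autoImplicit false

/-! # AK RG4: independent sets of a threshold graph -/

namespace Pool.Agent.AK

/-- the independent sets of `range (k+1)` without `k` are those of `range k` -/
theorem RG4_step (w : List Bool) (o : Bool) :
    ind (Finset.range (w.length + 1)) (thr (w ++ [o])) =
      ind (Finset.range w.length) (thr w) ∪
        ((ind (Finset.range w.length) (thr w)).filter (fun I => o = false ∨ I = ∅)).image
          (fun I => insert w.length I) := by
  have hlt : ∀ i j, i < w.length → j < w.length → thr (w ++ [o]) i j = thr w i j := by
    intro i j hi hj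
    have h1 : max i j < w.length := max_lt hi hj
    simp only [thr]
    rw [List.getD_append _ _ _ _ h1]
  have heq : ∀ i, i < w.length → thr (w ++ [o]) i w.length = o := by
    intro i hi
    have h1 : max i w.length = w.length := max_eq_right hi.le
    have h2 : decide (i = w.length) = false := by
      simpa using hi.ne
    simp only [thr]
    rw [h1, List.getD_append_right _ _ _ _ le_rfl, h2]
    simp
  have heq2 : ∀ i, i < w.length → thr (w ++ [o]) w.length i = o := by
    intro i hi
    have h1 : max w.length i = w.length := max_eq_left hi.le
    have h2 : decide (w.length = i) = false := by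
      simpa using hi.ne'
    simp only [thr]
    rw [h1, List.getD_append_right _ _ _ _ le_rfl, h2]
    simp
  have heq3 : thr (w ++ [o]) w.length w.length = false := by
    simp [thr]
  ext J
  simp only [ind, Finset.mem_union, Finset.mem_filter, Finset.mem_powerset, Finset.mem_image]
  constructor
  · rintro ⟨hJ, hi⟩
    have hsub : ∀ x ∈ J, x ≠ w.length → x < w.length := by
      intro x hx hne
      have := Finset.mem_range.1 (hJ hx)
      omega
    by_cases hk : w.length ∈ J
    · right
      refine ⟨J.erase w.length, ⟨⟨?_, ?_⟩, ?_⟩, ?_⟩
      · intro x hx
        obtain ⟨h1, h2⟩ := Finset.mem_erase.1 hx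
        exact Finset.mem_range.2 (hsub x h2 h1)
      · intro x hx y hy
        obtain ⟨h1, h2⟩ := Finset.mem_erase.1 hx
        obtain ⟨h3, h4⟩ := Finset.mem_erase.1 hy
        rw [← hlt x y (hsub x h2 h1) (hsub y h4 h3)]
        exact hi x h2 y h4
      · by_cases he : J.erase w.length = ∅
        · exact Or.inr he
        · left
          obtain ⟨x, hx⟩ := Finset.nonempty_iff_ne_empty.2 he
          obtain ⟨h1, h2⟩ := Finset.mem_erase.1 hx
          rw [← heq x (hsub x h2 h1)]
          exact hi x h2 _ hk
      · exact Finset.insert_erase hk
    · left
      have h0 : ∀ x ∈ J, x < w.length := by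
        intro x hx
        refine hsub x hx ?_
        rintro rfl
        exact hk hx
      refine ⟨?_, ?_⟩
      · intro x hx
        exact Finset.mem_range.2 (h0 x hx)
      · intro x hx y hy
        rw [← hlt x y (h0 x hx) (h0 y hy)]
        exact hi x hx y hy
  · rintro (⟨hJ, hi⟩ | ⟨I, ⟨⟨hI, hi⟩, ho⟩, rfl⟩)
    · have h0 : ∀ x ∈ J, x < w.length := fun x hx => Finset.mem_range.1 (hJ hx)
      refine ⟨?_, ?_⟩
      · intro x hx
        exact Finset.mem_range.2 (Nat.lt_succ_of_lt (h0 x hx))
      · intro x hx y hy
        rw [hlt x y (h0 x hx) (h0 y hy)]
        exact hi x hx y hy
    · have h0 : ∀ x ∈ I, x < w.length := fun x hx => Finset.mem_range.1 (hI hx)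
      have hof : ∀ x ∈ I, o = false := by
        intro x hx
        rcases ho with ho | ho
        · exact ho
        · rw [ho] at hx
          simp at hx
      refine ⟨?_, ?_⟩
      · intro x hx
        rcases Finset.mem_insert.1 hx with rfl | hx
        · exact Finset.mem_range.2 (Nat.lt_succ_self _)
        · exact Finset.mem_range.2 (Nat.lt_succ_of_lt (h0 x hx))
      · intro x hx y hy
        rcases Finset.mem_insert.1 hx with rfl | hx
        · rcases Finset.mem_insert.1 hy with rfl | hy
          · exact heq3
          · rw [heq2 y (h0 y hy)]
            exact hof y hy
        · rcases Finset.mem_insert.1 hy with rfl | hy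
          · rw [heq x (h0 x hx)]
            exact hof x hx
          · rw [hlt x y (h0 x hx) (h0 y hy)]
            exact hi x hx y hy

theorem thm_RG4 : StRG4 := by
  intro w
  induction w using List.reverseRecOn with
  | nil =>
    have h1 : ind (Finset.range ([] : List Bool).length) (thr []) = {∅} := by
      ext I
      simp only [ind, Finset.mem_filter, Finset.mem_powerset, Finset.mem_singleton,
        List.length_nil, Finset.range_zero, Finset.subset_empty]
      constructor
      · exact fun h => h.1
      · rintro rfl
        exact ⟨rfl, fun u hu => by simp at hu⟩
    rw [h1]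
    simp
  | append_singleton w o ih =>
    rw [List.length_append, List.length_singleton, RG4_step, List.foldl_append, List.foldl_cons,
      List.foldl_nil, ← ih]
    have hnot : ∀ I ∈ ind (Finset.range w.length) (thr w), w.length ∉ I := by
      intro I hI hk
      simp only [ind, Finset.mem_filter, Finset.mem_powerset] at hI
      have := Finset.mem_range.1 (hI.1 hk)
      omega
    rw [Finset.card_union_of_disjoint]
    · rw [Finset.card_image_of_injOn]
      · rcases o with _ | _
        · have : (ind (Finset.range w.length) (thr w)).filter (fun I => false = false ∨ I = ∅) =
              ind (Finset.range w.length) (thr w) := by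
            apply Finset.filter_true_of_mem
            intro I _
            exact Or.inl rfl
          rw [this]
          simp only [opv, cond_false]
          ring
        · have : (ind (Finset.range w.length) (thr w)).filter (fun I => true = false ∨ I = ∅) = {∅} := by
            ext I
            simp only [Finset.mem_filter, Finset.mem_singleton]
            constructor
            · rintro ⟨_, h | h⟩
              · simp at h
              · exact h
            · rintro rfl
              refine ⟨?_, Or.inr rfl⟩
              simp [ind]
          rw [this]
          simp only [opv, cond_true, Finset.card_singleton]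
      · intro I hI I' hI' h
        have h1 := hnot I (Finset.mem_filter.1 hI).1
        have h2 := hnot I' (Finset.mem_filter.1 hI').1
        beta_reduce at h
        rw [← Finset.erase_insert h1, ← Finset.erase_insert h2, h]
    · rw [Finset.disjoint_left]
      intro J hJ hJ'
      obtain ⟨I, _, rfl⟩ := Finset.mem_image.1 hJ'
      exact hnot _ hJ (Finset.mem_insert_self _ _)

end Pool.Agent.AK
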