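import Pool.Agent.AK.StR
import Pool.Agent.PolyTime.More

set_option autoImplicit false

/-! # AK RG5: the steps lead to N -/

namespace Pool.Agent.AK

open Pool.Agent.PolyTime

theorem RG5_bit (b : Bool) (n : ℕ) (hn : 1 ≤ n) :
    ops (Nat.bit b n) = ops n ++ (bif b then [false, true] else [false]) := by
  unfold ops
  have h1 : (Nat.bit b n).bits = b :: n.bits := Nat.bits_append_bit n b (by omega)
  have h2 : n.bits.reverse ≠ [] := by
    intro h
    rw [List.reverse_eq_nil_iff] at h
    have h3 : Nat.size n = 0 := by
      rw [← Nat.size_eq_bits_len, h]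
      rfl
    rw [Nat.size_eq_zero] at h3
    omega
  rw [h1, List.reverse_cons, List.tail_append_of_ne_nil h2, List.flatMap_append]
  simp

theorem RG5_val : ∀ N, 1 ≤ N → (ops N).foldl opv 1 = N := by
  intro N
  induction N using Nat.binaryRec' with
  | zero => intro h; omega
  | bit b n hb ih =>
    intro _
    rcases Nat.eq_zero_or_pos n with rfl | hn
    · have := hb rfl
      subst this
      simp [ops, Nat.bit]
    · rw [RG5_bit b n hn, List.foldl_append, ih hn]
      rcases b with _ | _
      · simp [opv, Nat.bit]
      · simp [opv, Nat.bit]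

theorem RG5_pt : PolyTime ops := by
  unfold ops
  refine PolyTime.flatMap ?_ ?_
  · exact (PolyTime.bits PolyTime.id).reverse.tail
  · exact PolyTime.cond PolyTime.snd' (PolyTime.const _) (PolyTime.const _)

theorem thm_RG5 : StRG5 := ⟨RG5_val, RG5_pt⟩

end Pool.Agent.AK
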