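import Pool.Agent.AK.StR

set_option autoImplicit false

/-!
# AK, RM: correctness of the reduction
-/

namespace Pool.Agent.AK

open Pool.Agent.PolyTime

theorem RM_count_nil : count ([] : CNF) = 1 := by decide

theorem RM_nv_nil : nv ([] : CNF) = 0 := rfl

theorem RM_nv_one : nv ([[([], true)]] : CNF) = 1 := by decide

theorem RM_count_one : count ([[([], true)]] : CNF) = 1 := by decide

theorem RM_mono_one : Mono ([[([], true)]] : CNF) := by
  intro C hC l hl
  simp only [List.mem_singleton] at hC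
  subst hC
  simp only [List.mem_singleton] at hl
  subst hl
  rfl

theorem RM_cl_one : ∀ C ∈ ([[([], true)]] : CNF), C ≠ [] ∧ C.length ≤ 2 := by
  intro C hC
  simp only [List.mem_singleton] at hC
  subst hC
  simp

theorem RM_count_empty (φ : CNF) (h : ([] : Clause) ∈ φ) : count φ = 0 := by
  unfold count
  rw [Finset.card_eq_zero, Finset.filter_eq_empty_iff]
  intro S _ hS
  obtain ⟨l, hl, _⟩ := hS [] h
  exact absurd hl (List.not_mem_nil)

/-- The rational form of the threshold. -/
theorem RM_dens (D : CNF) (e : ℕ) : (1 / 2 ^ e ≤ dens D ↔ 2 ^ nv D ≤ count D * 2 ^ e) := by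
  unfold dens
  rw [div_le_div_iff₀ (by positivity) (by positivity), one_mul]
  constructor
  · intro h
    exact_mod_cast h
  · intro h
    exact_mod_cast h

/-- The generic case. -/
theorem RM_main (h1 : StRM1) (h2 : StRF1) (h3 : StRF2) (h4 : StRA) (φ : CNF) (N : ℕ)
    (hN : N ≤ 2 ^ nv φ) (hne : φ ≠ []) (hem : ([] : Clause) ∉ φ) :
    Mono (dN φ N) ∧ (∀ C ∈ dN φ N, C ≠ [] ∧ C.length ≤ 2) ∧ dN φ N ≠ [] ∧
    nv (dN φ N) - mN φ ≤ nv (dN φ N) ∧
    (2 ^ nv (dN φ N) ≤ count (dN φ N) * 2 ^ (nv (dN φ N) - mN φ) ↔ N ≤ count φ) := by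
  obtain ⟨hc, hm, hmono, hlen⟩ := h1 φ N hne hem
  obtain ⟨_, _, hbig, hsmall⟩ := h2 φ
  have hV : (vlist φ).toFinset.card + 2 ≤ sN φ := by
    unfold sN
    exact Nat.add_le_add_right (List.toFinset_card_le _) 2
  have hA := h4 Vx (vlist φ).toFinset (ind (vlist φ).toFinset (fadj φ)) (kN φ) (sN φ) (count φ)
    (Finset.filter_subset _ _) hsmall (h3 φ) hV
  set b : ℕ := 2 ^ sN φ - 1 with hb
  set T : ℕ := ∑ I ∈ ind (vlist φ).toFinset (fadj φ), b ^ I.card with hT
  obtain ⟨hA1, hA2⟩ := hA
  have hs2 : 2 ≤ sN φ := by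
    unfold sN
    omega
  have hbpos : 1 ≤ b := by
    have : 2 ^ 2 ≤ 2 ^ sN φ := Nat.pow_le_pow_right (by norm_num) hs2
    omega
  have hbK : N * b ^ kN φ ≤ 2 ^ mN φ := by
    have e1 : b ≤ 2 ^ sN φ := Nat.sub_le _ _
    calc N * b ^ kN φ ≤ 2 ^ nv φ * (2 ^ sN φ) ^ kN φ :=
          Nat.mul_le_mul hN (Nat.pow_le_pow_left e1 _)
      _ = 2 ^ mN φ := by
          unfold mN
          rw [← pow_mul, ← pow_add]
  have hpos : 0 < b ^ kN φ := Nat.pow_pos hbpos
  have iff1 : 2 ^ mN φ ≤ count (dN φ N) ↔ N ≤ count φ := by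
    rw [hc]
    constructor
    · intro h
      by_contra hcon
      have h5 : count φ + 1 ≤ N := by omega
      have h6 : (count φ + 1) * b ^ kN φ ≤ N * b ^ kN φ := Nat.mul_le_mul_right _ h5
      omega
    · intro h
      have h6 : N * b ^ kN φ ≤ count φ * b ^ kN φ := Nat.mul_le_mul_right _ h
      omega
  have hnv : nv (dN φ N) = mN φ + (nv (dN φ N) - mN φ) := by omega
  refine ⟨hmono, ?_, ?_, Nat.sub_le _ _, ?_⟩
  · intro C hC
    have := hlen C hC
    refine ⟨?_, by omega⟩
    intro h0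
    rw [h0] at this
    simp at this
  · intro h0
    have h7 : nv (dN φ N) = 0 := by
      rw [h0]
      rfl
    have h8 : mN φ = 0 := by omega
    have h9 : 1 ≤ kN φ := by
      unfold kN
      have : 0 < φ.length := List.length_pos_iff.2 hne
      omega
    have h10 : 1 * 1 ≤ sN φ * kN φ := Nat.mul_le_mul (by omega) h9
    have h11 : mN φ = nv φ + sN φ * kN φ := rfl
    omega
  · rw [← iff1]
    constructor
    · intro h
      have h12 : 2 ^ mN φ * 2 ^ (nv (dN φ N) - mN φ) ≤ count (dN φ N) * 2 ^ (nv (dN φ N) - mN φ) := by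
        rw [← pow_add, ← hnv]
        exact h
      exact Nat.le_of_mul_le_mul_right h12 (by positivity)
    · intro h
      calc 2 ^ nv (dN φ N) = 2 ^ mN φ * 2 ^ (nv (dN φ N) - mN φ) := by rw [← pow_add, ← hnv]
        _ ≤ count (dN φ N) * 2 ^ (nv (dN φ N) - mN φ) := Nat.mul_le_mul_right _ h

/-- **RM**. -/
theorem thm_RM (h1 : StRM1) (h2 : StRF1) (h3 : StRF2) (h4 : StRA) : StRM := by
  intro φ N hN
  have key : ∀ (D : CNF) (e : ℕ), red φ N = (D, e) → Mono D → (∀ C ∈ D, C ≠ [] ∧ C.length ≤ 2) →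
      D ≠ [] → e ≤ nv D → (2 ^ nv D ≤ count D * 2 ^ e ↔ N ≤ count φ) →
      Mono (red φ N).1 ∧ (∀ C ∈ (red φ N).1, C ≠ [] ∧ C.length ≤ 2) ∧ (red φ N).1 ≠ [] ∧
      (red φ N).2 ≤ nv (red φ N).1 ∧
      (2 ^ nv (red φ N).1 ≤ count (red φ N).1 * 2 ^ (red φ N).2 ↔ N ≤ count φ) ∧
      (1 / 2 ^ (red φ N).2 ≤ dens (red φ N).1 ↔ N ≤ count φ) := by
    intro D e hr a b c d f
    rw [hr]
    exact ⟨a, b, c, d, f, (RM_dens D e).trans f⟩
  by_cases hne : φ = []
  · refine key [[([], true)]] 1 ?_ RM_mono_one RM_cl_one (by simp) (by rw [RM_nv_one]) ?_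
    · unfold red
      rw [decide_eq_true hne]
      rfl
    · rw [RM_nv_one, RM_count_one, hne, RM_count_nil]
      rw [hne, RM_nv_nil] at hN
      constructor
      · intro _
        simpa using hN
      · intro _
        norm_num
  · by_cases hem : ([] : Clause) ∈ φ
    · by_cases h0 : N = 0
      · refine key [[([], true)]] 1 ?_ RM_mono_one RM_cl_one (by simp) (by rw [RM_nv_one]) ?_
        · unfold red
          rw [decide_eq_false hne, decide_eq_true hem, decide_eq_true h0]
          rfl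
        · rw [RM_nv_one, RM_count_one, RM_count_empty φ hem]
          constructor
          · intro _
            omega
          · intro _
            norm_num
      · refine key [[([], true)]] 0 ?_ RM_mono_one RM_cl_one (by simp) (by omega) ?_
        · unfold red
          rw [decide_eq_false hne, decide_eq_true hem, decide_eq_false h0]
          rfl
        · rw [RM_nv_one, RM_count_one, RM_count_empty φ hem]
          constructor
          · intro h
            norm_num at h
          · intro h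
            omega
    · obtain ⟨a, b, c, d, e⟩ := RM_main h1 h2 h3 h4 φ N hN hne hem
      refine key (dN φ N) (nv (dN φ N) - mN φ) ?_ a b c d e
      unfold red
      rw [decide_eq_false hne, decide_eq_false hem]
      rfl

end Pool.Agent.AK
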