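import Pool.Agent.AK.StR

set_option autoImplicit false

/-! # AK, module RM1: the final graph of the reduction -/

namespace Pool.Agent.AK

open Pool.Agent.PolyTime

theorem RM1_toFinset (φ : CNF) (N : ℕ) : (lN φ N).toFinset =
    ((vlist φ).toFinset ×ˢ Finset.range (sN φ)).disjSum (Finset.range (wN φ N).length) := by
  ext x
  rw [List.mem_toFinset]
  unfold lN
  rcases x with ⟨u, c⟩ | i
  · rw [Finset.inl_mem_disjSum, List.mem_append]
    constructor
    · rintro (h | h)
      · obtain ⟨p, hp, h2⟩ := List.mem_map.1 h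
        have h3 : p = (u, c) := Sum.inl.inj h2
        subst h3
        have h4 := List.pair_mem_product.1 hp
        rw [Finset.mem_product, List.mem_toFinset, Finset.mem_range]
        exact ⟨h4.1, List.mem_range.1 h4.2⟩
      · obtain ⟨p, hp, h2⟩ := List.mem_map.1 h
        exact absurd h2 (by simp)
    · intro h
      rw [Finset.mem_product, List.mem_toFinset, Finset.mem_range] at h
      refine Or.inl (List.mem_map.2 ⟨(u, c), ?_, rfl⟩)
      exact List.pair_mem_product.2 ⟨h.1, List.mem_range.2 h.2⟩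
  · rw [Finset.inr_mem_disjSum, List.mem_append, Finset.mem_range]
    constructor
    · rintro (h | h)
      · obtain ⟨p, hp, h2⟩ := List.mem_map.1 h
        exact absurd h2 (by simp)
      · obtain ⟨p, hp, h2⟩ := List.mem_map.1 h
        have h3 : p = i := Sum.inr.inj h2
        subst h3
        exact List.mem_range.1 hp
    · intro h
      exact Or.inr (List.mem_map.2 ⟨i, List.mem_range.2 h, rfl⟩)

theorem RM1_nonempty (φ : CNF) (h1 : φ ≠ []) (h2 : [] ∉ φ) : ∃ u, u ∈ vlist φ := by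
  obtain ⟨C, hC⟩ := List.exists_mem_of_ne_nil φ h1
  have hC2 : C ≠ [] := fun h => h2 (h ▸ hC)
  obtain ⟨l, hl⟩ := List.exists_mem_of_ne_nil C hC2
  refine ⟨Sum.inl (l.1, false), ?_⟩
  unfold vlist
  refine List.mem_append.2 (Or.inl (List.mem_flatMap.2 ⟨l.1, ?_, by simp⟩))
  exact List.mem_map.2 ⟨l, List.mem_flatten.2 ⟨C, hC, hl⟩, rfl⟩

theorem thm_RM1 (h1 : StRG1) (h2 : StRG2) (h3 : StRG3) (h4 : StRG4) (h5 : StRG5) (h6 : StRF1) :
    StRM1 := by
  intro φ N hφ hφ'
  obtain ⟨-, hnb, hcard, -⟩ := h6 φ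
  have hs : 2 ≤ sN φ := by unfold sN; omega
  have hmem : ∀ x, x ∈ lN φ N ↔ x ∈ ((vlist φ).toFinset ×ˢ
      Finset.range (sN φ)).disjSum (Finset.range (wN φ N).length) := fun x => by
    rw [← RM1_toFinset, List.mem_toFinset]
  have hdeg : ∀ u ∈ lN φ N, ∃ v ∈ lN φ N, jn (tw (fadj φ)) (thr (wN φ N)) u v = true := by
    intro x hx
    rw [hmem] at hx
    rcases x with ⟨u, c⟩ | i
    · rw [Finset.inl_mem_disjSum, Finset.mem_product, List.mem_toFinset] at hx
      obtain ⟨v, hv, huv⟩ := hnb u hx.1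
      refine ⟨Sum.inl (v, c), ?_, huv⟩
      rw [hmem, Finset.inl_mem_disjSum, Finset.mem_product, List.mem_toFinset]
      exact ⟨hv, hx.2⟩
    · obtain ⟨u, hu⟩ := RM1_nonempty φ hφ hφ'
      refine ⟨Sum.inl (u, 0), ?_, rfl⟩
      rw [hmem, Finset.inl_mem_disjSum, Finset.mem_product, List.mem_toFinset, Finset.mem_range]
      exact ⟨hu, by simp only; omega⟩
  obtain ⟨e1, e2, e3, e4⟩ := h1 _ (lN φ N) (jn (tw (fadj φ)) (thr (wN φ N))) hdeg
  refine ⟨?_, ?_, e3, e4⟩
  · have e5 := h3 _ _ ((vlist φ).toFinset ×ˢ Finset.range (sN φ))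
      (Finset.range (wN φ N).length) (tw (fadj φ)) (thr (wN φ N))
    rw [h2, h4] at e5
    have e6 : (wN φ N).foldl opv 1 = 2 ^ mN φ - N * (2 ^ sN φ - 1) ^ kN φ + 1 :=
      h5.1 _ (by omega)
    rw [e6] at e5
    have e7 : count (dN φ N) = (ind (lN φ N).toFinset (jn (tw (fadj φ)) (thr (wN φ N)))).card := e2
    rw [e7, RM1_toFinset]
    omega
  · have e5 : nv (dN φ N) = (lN φ N).toFinset.card := e1
    rw [e5, RM1_toFinset, Finset.card_disjSum, Finset.card_product, Finset.card_range,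
      Finset.card_range]
    have e6 := hcard hφ'
    have e7 : mN φ ≤ sN φ * (2 * nv φ + φ.length) := by
      unfold mN kN
      nlinarith
    calc mN φ ≤ sN φ * (2 * nv φ + φ.length) := e7
      _ ≤ sN φ * (vlist φ).toFinset.card := Nat.mul_le_mul_left _ e6
      _ = (vlist φ).toFinset.card * sN φ := Nat.mul_comm _ _
      _ ≤ _ := Nat.le_add_right _ _

end Pool.Agent.AK
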