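import Pool.Agent.AK.StR

set_option autoImplicit false

/-!
# AK, RN: the number of variables and the width are computed in polynomial time
-/

namespace Pool.Agent.AK

open Pool.Agent.PolyTime

/-- One step of the removal of duplicates. -/
def RN_st (acc : List Name) (x : Name) : List Name := bif decide (x ∈ acc) then acc else x :: acc

theorem RN_spec (l : List Name) : ∀ acc : List Name, acc.Nodup →
    (l.foldl RN_st acc).Nodup ∧ ∀ y, y ∈ l.foldl RN_st acc ↔ y ∈ acc ∨ y ∈ l := by
  induction l with
  | nil =>
    intro acc h
    refine ⟨h, fun y => ?_⟩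
    simp
  | cons x l ih =>
    intro acc h
    rw [List.foldl_cons]
    by_cases hx : x ∈ acc
    · have h1 : RN_st acc x = acc := by
        unfold RN_st
        rw [decide_eq_true hx]
        rfl
      rw [h1]
      refine ⟨(ih acc h).1, fun y => ?_⟩
      rw [(ih acc h).2 y, List.mem_cons]
      constructor
      · rintro (h2 | h2)
        · exact Or.inl h2
        · exact Or.inr (Or.inr h2)
      · rintro (h2 | h2 | h2)
        · exact Or.inl h2
        · rw [h2]
          exact Or.inl hx
        · exact Or.inr h2
    · have h1 : RN_st acc x = x :: acc := by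
        unfold RN_st
        rw [decide_eq_false hx]
        rfl
      rw [h1]
      have h3 : (x :: acc).Nodup := List.nodup_cons.2 ⟨hx, h⟩
      refine ⟨(ih _ h3).1, fun y => ?_⟩
      rw [(ih _ h3).2 y, List.mem_cons, List.mem_cons]
      constructor
      · rintro ((h2 | h2) | h2)
        · exact Or.inr (Or.inl h2)
        · exact Or.inl h2
        · exact Or.inr (Or.inr h2)
      · rintro (h2 | h2 | h2)
        · exact Or.inl (Or.inr h2)
        · exact Or.inl (Or.inl h2)
        · exact Or.inr h2

theorem RN_size (l : List Name) : ∀ acc : List Name,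
    size (l.foldl RN_st acc) ≤ size acc + size l := by
  induction l with
  | nil =>
    intro acc
    simp
  | cons x l ih =>
    intro acc
    rw [List.foldl_cons]
    refine (ih _).trans ?_
    have h1 : size (RN_st acc x) ≤ size (x :: acc) := by
      unfold RN_st
      by_cases hx : x ∈ acc
      · rw [decide_eq_true hx]
        exact size_sublist (List.sublist_cons_self _ _)
      · rw [decide_eq_false hx]
        exact le_rfl
    rw [size_cons] at h1 ⊢
    omega

theorem RN_dd : PolyTime (fun l : List Name => l.foldl RN_st []) := by
  refine PolyTime.foldl (s := fun _ => []) (h := fun _ acc x => RN_st acc x) PolyTime.id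
    (PolyTime.const []) ?_ (B := fun l => size l) PBd.size ?_
  · unfold RN_st
    have h1 : PolyTime (fun q : List Name × List Name × Name => decide (q.2.2 ∈ q.2.1)) :=
      (PolyTime.decide_mem (f := fun q : List Name × List Name × Name => q.2.2)
        (l := fun q : List Name × List Name × Name => q.2.1) (by fun_prop) (by fun_prop)).congr
        (fun q => decide_eq_decide.2 Iff.rfl)
    have h2 : PolyTime (fun q : List Name × List Name × Name => q.2.1) := by fun_prop
    have h3 : PolyTime (fun q : List Name × List Name × Name => q.2.2 :: q.2.1) := by fun_prop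
    exact PolyTime.cond h1 h2 h3
  · intro l i
    refine (RN_size _ _).trans ?_
    rw [size_nil, Nat.zero_add]
    exact size_sublist (List.take_sublist _ _)

theorem RN_nv : PolyTime nv := by
  have h1 : PolyTime (fun φ : CNF => φ.flatten.map Prod.fst) := by
    refine PolyTime.map (l := fun φ : CNF => φ.flatten) (g := fun (_ : CNF) (p : Lit) => p.1) ?_
      (by fun_prop)
    exact PolyTime.flatten PolyTime.id
  refine (PolyTime.length (RN_dd.comp h1)).congr (fun φ => ?_)
  have h2 := RN_spec (φ.flatten.map Prod.fst) [] List.nodup_nil
  unfold nv vars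
  rw [← List.toFinset_card_of_nodup h2.1]
  congr 1
  ext y
  rw [List.mem_toFinset, List.mem_toFinset, h2.2 y]
  simp

theorem RN_wle (φ : CNF) : φ.foldr (fun C w => max C.length w) 0 ≤ size φ := by
  induction φ with
  | nil => simp
  | cons C φ ih =>
    rw [List.foldr_cons, size_cons]
    have h1 := length_le_size C
    refine max_le ?_ ?_ <;> omega

theorem RN_width : PolyTime width := by
  unfold width
  refine PolyTime.foldr (l := fun φ : CNF => φ) (s := fun _ => 0)
    (h := fun (_ : CNF) (C : Clause) (w : ℕ) => max C.length w) PolyTime.id
    (PolyTime.const 0) ?_ (B := fun φ => size φ) PBd.size ?_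
  · exact PolyTime.max (PolyTime.length (by fun_prop)) (by fun_prop)
  · intro φ i
    refine (size_nat_self _).trans ((RN_wle _).trans ?_)
    exact size_sublist (List.drop_sublist _ _)

/-- **RN**. -/
theorem thm_RN : StRN := ⟨RN_nv, RN_width⟩

end Pool.Agent.AK
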