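import Pool.Agent.AK.StR

set_option autoImplicit false

/-! # AK, module RP: the reduction is computed in polynomial time -/

namespace Pool.Agent.AK

open Pool.Agent.PolyTime

theorem thm_RP (h1 : StRN) (h2 : StRP1) (h3 : StRP2) : StRP := by
  have hnv : PolyTime nv := h1.1
  have hm : PolyTime mN := h2.2.2.2.2.1
  have hd : PolyTime (fun p : CNF × ℕ => dN p.1 p.2) := h3
  have hp1 : PolyTime (fun p : CNF × ℕ => p.1) := by fun_prop
  have e1 : PolyTime (fun p : CNF × ℕ => nv (dN p.1 p.2)) := hnv.comp hd
  have e2 : PolyTime (fun p : CNF × ℕ => mN p.1) := hm.comp hp1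
  unfold StRP red
  refine PolyTime.cond (by fun_prop) (by fun_prop) ?_
  refine PolyTime.cond ?_ (by fun_prop) ?_
  · exact (PolyTime.decide_mem (f := fun _ : CNF × ℕ => ([] : Clause)) (l := fun p => p.1)
      (by fun_prop) (by fun_prop)).congr (fun a => by
        by_cases h : ([] : Clause) ∈ a.1 <;> simp [h])
  exact hd.prodMk (e1.sub e2)

end Pool.Agent.AK
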