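import Pool.Agent.AK.StR

set_option autoImplicit false

/-! # AK, module RP1: polynomial time of the parameters of the reduction -/

namespace Pool.Agent.AK

open Pool.Agent.PolyTime

theorem RP1_vlist : PolyTime vlist := by
  unfold vlist
  fun_prop

theorem RP1_nv_le (φ : CNF) : nv φ ≤ φ.flatten.length := by
  unfold nv vars
  refine (List.toFinset_card_le _).trans ?_
  rw [List.length_map]

theorem RP1_pbd_nv : PBd nv :=
  (pbd_length (l := fun φ : CNF => φ.flatten) (by fun_prop)).mono RP1_nv_le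

theorem thm_RP1 (h1 : StRN) (h2 : StRG5) : StRP1 := by
  have hnv : PolyTime nv := h1.1
  have hv : PolyTime vlist := RP1_vlist
  have hs : PolyTime sN := by
    unfold sN
    fun_prop
  have hsb : PBd sN := (pbd_length hv).add (PBd.const 2)
  have hk : PolyTime kN := by
    unfold kN
    fun_prop
  have hkb : PBd kN := RP1_pbd_nv.add (pbd_length (l := fun φ : CNF => φ) (by fun_prop))
  have hm : PolyTime mN := by
    unfold mN
    fun_prop
  have hmb : PBd mN := RP1_pbd_nv.add (hsb.mul hkb)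
  refine ⟨hv, hs, hsb, hk, hm, ?_⟩
  have hops : PolyTime ops := h2.2
  have hp1 : PolyTime (fun p : CNF × ℕ => p.1) := by fun_prop
  have e1 : PolyTime (fun p : CNF × ℕ => 2 ^ mN p.1) :=
    PolyTime.pow (PolyTime.const 2) (hm.comp hp1) (hmb.comp hp1)
  have e2 : PolyTime (fun p : CNF × ℕ => 2 ^ sN p.1) :=
    PolyTime.pow (PolyTime.const 2) (hs.comp hp1) (hsb.comp hp1)
  have e3 : PolyTime (fun p : CNF × ℕ => (2 ^ sN p.1 - 1) ^ kN p.1) :=
    PolyTime.pow (e2.sub (PolyTime.const 1)) (hk.comp hp1) (hkb.comp hp1)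
  have e4 : PolyTime (fun p : CNF × ℕ => 2 ^ mN p.1 - p.2 * (2 ^ sN p.1 - 1) ^ kN p.1 + 1) :=
    (e1.sub (PolyTime.snd'.mul e3)).add (PolyTime.const 1)
  exact hops.comp e4

end Pool.Agent.AK
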