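import Pool.Agent.AK.StF
import Pool.Agent.AK.RA
import Pool.Agent.AK.RB
import Pool.Agent.AK.RC
import Pool.Agent.AK.RE
import Pool.Agent.AK.RF1
import Pool.Agent.AK.RF2
import Pool.Agent.AK.RF2a
import Pool.Agent.AK.RF2b
import Pool.Agent.AK.RG1
import Pool.Agent.AK.RG2
import Pool.Agent.AK.RG3
import Pool.Agent.AK.RG4
import Pool.Agent.AK.RG5
import Pool.Agent.AK.RM
import Pool.Agent.AK.RM1
import Pool.Agent.AK.RN
import Pool.Agent.AK.RP
import Pool.Agent.AK.RP1
import Pool.Agent.AK.RP2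

set_option autoImplicit false

/-! # AK: the reduction from counting to thresholds of monotone 2-CNFs, assembled -/

namespace Pool.Agent.AK

open Pool.Agent.PolyTime

theorem RAll_M1 : StRM1 := thm_RM1 thm_RG1 thm_RG2 thm_RG3 thm_RG4 thm_RG5 thm_RF1

theorem RAll_M : StRM := thm_RM RAll_M1 thm_RF1 (thm_RF2 thm_RF2a thm_RF2b) thm_RA

theorem RAll_P : StRP :=
  thm_RP thm_RN (thm_RP1 thm_RN thm_RG5) (thm_RP2 thm_RE (thm_RP1 thm_RN thm_RG5))

theorem RAll_width (φ : CNF) (w : ℕ) (h : ∀ C ∈ φ, C.length ≤ w) : width φ ≤ w := by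
  unfold width
  induction φ with
  | nil => exact Nat.zero_le _
  | cons C φ ih =>
    rw [List.foldr_cons]
    exact max_le (h C (by simp)) (ih fun D hD => h D (by simp [hD]))

/-- the reduction, in the form used by the assembly -/
theorem thm_Red : StRed := by
  refine ⟨fun p => red p.1 p.2, RAll_P, fun φ N hN => ?_⟩
  obtain ⟨h1, h2, -, h4, -, h6⟩ := RAll_M φ N hN
  refine ⟨h1, RAll_width _ _ fun C hC => (h2 C hC).2, h4, ?_⟩
  rw [← h6, one_div_pow]

/-- binary search, in the form used by the assembly -/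
theorem RAll_Search (h : Test) : PolyTime count := by
  obtain ⟨T, hT, hT2⟩ := h
  exact thm_RB thm_RN T hT hT2

theorem RAll_C : StRC := thm_RC thm_RN

end Pool.Agent.AK
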