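import Pool.Agent.AK.StF

set_option autoImplicit false

/-!
# AK, module Ren: injective renaming (helper69)
-/

namespace Pool.Agent.AK

private theorem Ren_mem_vars (φ : CNF) (x : Name) : x ∈ vars φ ↔ ∃ C ∈ φ, ∃ l ∈ C, l.1 = x := by
  unfold vars
  rw [List.mem_toFinset, List.mem_map]
  constructor
  · rintro ⟨l, hl, rfl⟩
    obtain ⟨C, hC, hl⟩ := List.mem_flatten.1 hl
    exact ⟨C, hC, l, hl, rfl⟩
  · rintro ⟨C, hC, l, hl, rfl⟩
    exact ⟨l, List.mem_flatten.2 ⟨C, hC, hl⟩, rfl⟩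

private theorem Ren_vars (f : Name → Name) (φ : CNF) : vars (ren f φ) = (vars φ).image f := by
  ext x
  rw [Ren_mem_vars, Finset.mem_image]
  constructor
  · rintro ⟨C, hC, l, hl, rfl⟩
    obtain ⟨D, hD, rfl⟩ := List.mem_map.1 hC
    obtain ⟨k, hk, rfl⟩ := List.mem_map.1 hl
    exact ⟨k.1, (Ren_mem_vars φ _).2 ⟨D, hD, k, hk, rfl⟩, rfl⟩
  · rintro ⟨y, hy, rfl⟩
    obtain ⟨D, hD, k, hk, rfl⟩ := (Ren_mem_vars φ _).1 hy
    exact ⟨D.map fun l => (f l.1, l.2), List.mem_map.2 ⟨D, hD, rfl⟩, (f k.1, k.2),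
      List.mem_map.2 ⟨k, hk, rfl⟩, rfl⟩

private theorem Ren_sat (f : Name → Name) (φ : CNF) (S T : Finset Name)
    (h : ∀ x ∈ vars φ, (f x ∈ T ↔ x ∈ S)) : Sat T (ren f φ) ↔ Sat S φ := by
  unfold Sat
  constructor
  · intro H C hC
    obtain ⟨l, hl, h1⟩ := H (C.map fun l => (f l.1, l.2)) (List.mem_map.2 ⟨C, hC, rfl⟩)
    obtain ⟨k, hk, rfl⟩ := List.mem_map.1 hl
    exact ⟨k, hk, (h k.1 ((Ren_mem_vars φ _).2 ⟨C, hC, k, hk, rfl⟩)).symm.trans h1⟩
  · intro H C hC
    obtain ⟨D, hD, rfl⟩ := List.mem_map.1 hC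
    obtain ⟨k, hk, h1⟩ := H D hD
    exact ⟨(f k.1, k.2), List.mem_map.2 ⟨k, hk, rfl⟩,
      (h k.1 ((Ren_mem_vars φ _).2 ⟨D, hD, k, hk, rfl⟩)).trans h1⟩

private theorem Ren_count (f : Name → Name) (φ : CNF) (hf : Function.Injective f) :
    count (ren f φ) = count φ := by
  unfold count
  symm
  refine Finset.card_nbij' (fun S => S.image f) (fun T => (vars φ).filter fun x => f x ∈ T) ?_ ?_ ?_ ?_
  · intro S hS
    rw [Finset.mem_coe, Finset.mem_filter, Finset.mem_powerset] at hS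
    rw [Finset.mem_coe, Finset.mem_filter, Finset.mem_powerset, Ren_vars]
    exact ⟨Finset.image_subset_image hS.1,
      (Ren_sat f φ S _ fun x _ => hf.mem_finset_image).2 hS.2⟩
  · intro T hT
    rw [Finset.mem_coe, Finset.mem_filter, Finset.mem_powerset] at hT
    rw [Finset.mem_coe, Finset.mem_filter, Finset.mem_powerset]
    refine ⟨Finset.filter_subset _ _, (Ren_sat f φ _ T ?_).1 hT.2⟩
    intro x hx
    rw [Finset.mem_filter]
    exact ⟨fun h => ⟨hx, h⟩, fun h => h.2⟩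
  · intro S hS
    rw [Finset.mem_coe, Finset.mem_filter, Finset.mem_powerset] at hS
    ext x
    simp only [Finset.mem_filter]
    constructor
    · rintro ⟨_, h⟩
      exact hf.mem_finset_image.1 h
    · intro h
      exact ⟨hS.1 h, Finset.mem_image_of_mem f h⟩
  · intro T hT
    rw [Finset.mem_coe, Finset.mem_filter, Finset.mem_powerset, Ren_vars] at hT
    ext x
    simp only [Finset.mem_image, Finset.mem_filter]
    constructor
    · rintro ⟨y, ⟨_, h⟩, rfl⟩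
      exact h
    · intro h
      obtain ⟨y, hy, rfl⟩ := Finset.mem_image.1 (hT.1 h)
      exact ⟨y, ⟨hy, h⟩, rfl⟩

theorem thm_Ren : StRen := by
  intro f φ hf
  have h1 : vars (ren f φ) = (vars φ).image f := Ren_vars f φ
  have h2 : nv (ren f φ) = nv φ := by
    unfold nv
    rw [h1, Finset.card_image_of_injective _ hf]
  have h3 : count (ren f φ) = count φ := Ren_count f φ hf
  refine ⟨h1, h2, h3, ?_⟩
  unfold dens
  rw [h2, h3]

end Pool.Agent.AK
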