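import Pool.Agent.AK.StF

/-!
# AK, module Res: restriction
-/

set_option autoImplicit false

namespace Pool.Agent.AK

private theorem Res_width (φ : CNF) (w : ℕ) : width φ ≤ w ↔ ∀ C ∈ φ, C.length ≤ w := by
  induction φ with
  | nil => simp [width]
  | cons C φ ih =>
    have h : width (C :: φ) = max C.length (width φ) := rfl
    rw [h, max_le_iff, ih]
    simp

private theorem Res_mem (x : Name) (b : Bool) (φ : CNF) (C : Clause) :
    C ∈ res x b φ ↔ ∃ D ∈ φ, (x, b) ∉ D ∧ D.filter (fun l => !decide (l.1 = x)) = C := by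
  unfold res
  simp only [List.mem_map, List.mem_filter, Bool.not_eq_true', decide_eq_false_iff_not, and_assoc]

private theorem Res_vars (φ : CNF) (y : Name) : y ∈ vars φ ↔ ∃ C ∈ φ, ∃ l ∈ C, l.1 = y := by
  unfold vars
  simp only [List.mem_toFinset, List.mem_map, List.mem_flatten]
  constructor
  · rintro ⟨l, ⟨C, hC, hl⟩, h⟩
    exact ⟨C, hC, l, hl, h⟩
  · rintro ⟨C, hC, l, hl, h⟩
    exact ⟨l, ⟨C, hC, hl⟩, h⟩

private theorem Res_filter (x : Name) (D : Clause) (l : Lit) :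
    l ∈ D.filter (fun l => !decide (l.1 = x)) ↔ l ∈ D ∧ l.1 ≠ x := by
  simp only [List.mem_filter, Bool.not_eq_true', decide_eq_false_iff_not, ne_eq]

private theorem Res_sub (x : Name) (b : Bool) (φ : CNF) :
    vars (res x b φ) ⊆ (vars φ).erase x := by
  intro y hy
  obtain ⟨C, hC, l, hl, rfl⟩ := (Res_vars _ y).1 hy
  obtain ⟨D, hD, _, rfl⟩ := (Res_mem x b φ C).1 hC
  obtain ⟨h1, h2⟩ := (Res_filter x D l).1 hl
  exact Finset.mem_erase.2 ⟨h2, (Res_vars φ _).2 ⟨D, hD, l, h1, rfl⟩⟩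

private theorem Res_sat (x : Name) (b : Bool) (φ : CNF) (S : Finset Name)
    (hS : x ∈ S ↔ b = true) : Sat S (res x b φ) ↔ Sat S φ := by
  constructor
  · intro h C hC
    by_cases hx : (x, b) ∈ C
    · exact ⟨(x, b), hx, hS⟩
    · obtain ⟨l, hl, hl2⟩ := h _ ((Res_mem x b φ _).2 ⟨C, hC, hx, rfl⟩)
      exact ⟨l, ((Res_filter x C l).1 hl).1, hl2⟩
  · intro h C' hC'
    obtain ⟨C, hC, hx, rfl⟩ := (Res_mem x b φ C').1 hC'
    obtain ⟨l, hl, hl2⟩ := h C hC
    refine ⟨l, (Res_filter x C l).2 ⟨hl, fun hlx => hx ?_⟩, hl2⟩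
    have h1 : l.2 = true ↔ b = true := by
      rw [← hS, ← hl2, hlx]
    have h2 : l.2 = b := by
      cases hb : b <;> cases hl' : l.2 <;> simp_all
    have h3 : l = (x, b) := Prod.ext hlx h2
    rw [← h3]
    exact hl

private theorem Res_wd (x : Name) (b : Bool) (φ : CNF) : width (res x b φ) ≤ width φ := by
  rw [Res_width]
  intro C hC
  obtain ⟨D, hD, _, rfl⟩ := (Res_mem x b φ C).1 hC
  exact le_trans (List.length_filter_le _ _) ((Res_width φ _).1 le_rfl D hD)

private theorem Res_nt (x : Name) (b : Bool) (φ : CNF) (h : Nt φ) : Nt (res x b φ) := by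
  intro C hC
  obtain ⟨D, hD, _, rfl⟩ := (Res_mem x b φ C).1 hC
  exact (h D hD).sublist (List.filter_sublist.map Prod.fst)

theorem thm_Res (h1 : StPrMul) (h2 : StPrBool) (h3 : StDensPr) : StRes := by
  intro x φ
  refine ⟨?_, fun b => ⟨Res_sub x b φ, fun S hS => Res_sat x b φ S hS, Res_wd x b φ,
    Res_nt x b φ⟩⟩
  obtain ⟨W, hW⟩ : ∃ W, W = (vars φ).erase x := ⟨_, rfl⟩
  have hV : vars φ ⊆ {x} ∪ W := by
    intro y hy
    by_cases h : y = x
    · exact Finset.mem_union_left _ (Finset.mem_singleton.2 h)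
    · exact Finset.mem_union_right _ (by rw [hW]; exact Finset.mem_erase.2 ⟨h, hy⟩)
  have hd : Disjoint ({x} : Finset Name) W := by
    rw [Finset.disjoint_singleton_left, hW]
    exact Finset.notMem_erase x _
  rw [(h3 φ _ hV).2]
  have e1 : Pr ({x} ∪ W) (fun S => Sat S φ) = Pr ({x} ∪ W) (fun S =>
      (x ∈ S ∧ Sat S (res x true φ)) ∨ (¬ x ∈ S ∧ Sat S (res x false φ))) := by
    refine (h2 ({x} ∪ W) _ _).2.2.2.1 fun S _ => ?_
    by_cases hx : x ∈ S
    · have h4 := Res_sat x true φ S (by simpa using hx)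
      constructor
      · exact fun h => Or.inl ⟨hx, h4.2 h⟩
      · rintro (h | h)
        · exact h4.1 h.2
        · exact absurd hx h.1
    · have h4 := Res_sat x false φ S (by simpa using hx)
      constructor
      · exact fun h => Or.inr ⟨hx, h4.2 h⟩
      · rintro (h | h)
        · exact absurd h.1 hx
        · exact h4.1 h.2
  have e2 := (h2 ({x} ∪ W) (fun S => x ∈ S ∧ Sat S (res x true φ))
    (fun S => ¬ x ∈ S ∧ Sat S (res x false φ))).2.2.2.2.2.1
    (fun S _ h => h.2.1 h.1.1)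
  have hx1 : ∀ S : Finset Name, x ∈ S ↔ x ∈ S ∩ {x} := fun S => by simp
  have e3 := h1 {x} W (fun S => x ∈ S) (fun S => Sat S (res x true φ)) hd hx1
    (fun S => (h3 (res x true φ) W (by rw [hW]; exact Res_sub x true φ)).1 S)
  have e4 := h1 {x} W (fun S => ¬ x ∈ S) (fun S => Sat S (res x false φ)) hd
    (fun S => not_congr (hx1 S))
    (fun S => (h3 (res x false φ) W (by rw [hW]; exact Res_sub x false φ)).1 S)
  have e5 : Pr {x} (fun S => x ∈ S) = 1 / 2 :=
    (h2 {x} (fun S => x ∈ S) (fun S => x ∈ S)).2.2.2.2.2.2.2.2.2 x (Finset.mem_singleton_self x)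
  have e6 := (h2 {x} (fun S => x ∈ S) (fun S => x ∈ S)).2.2.2.2.2.2.1
  rw [e1, e2, e3, e4, e6, e5, ← (h3 (res x true φ) W (by rw [hW]; exact Res_sub x true φ)).2,
    ← (h3 (res x false φ) W (by rw [hW]; exact Res_sub x false φ)).2]
  ring

end Pool.Agent.AK
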