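import Pool.Agent.AK.StF

/-!
# AK: widths, positivity and numbers of variables of the constructions
-/

set_option autoImplicit false

namespace Pool.Agent.AK

private theorem Shape_width (φ : CNF) (w : ℕ) : width φ ≤ w ↔ ∀ C ∈ φ, C.length ≤ w := by
  unfold width
  induction φ with
  | nil => simp
  | cons C φ ih => rw [List.foldr_cons, max_le_iff, ih, List.forall_mem_cons]

private theorem Shape_zip {L : List CNF} {p : Name × CNF} (hp : p ∈ (una L.length).zip L) :
    p.2 ∈ L := (List.of_mem_zip hp).2

private theorem Shape_ren {f : Name → Name} {φ : CNF} {C : Clause} (hC : C ∈ ren f φ) :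
    ∃ C' ∈ φ, C = C'.map fun l => (f l.1, l.2) := by
  unfold ren at hC
  obtain ⟨C', hC', h⟩ := List.mem_map.1 hC
  exact ⟨C', hC', h.symm⟩

private theorem Shape_oh {L : List CNF} {C : Clause} (hC : C ∈ oh L) :
    (∃ a b : Name, C = [(true :: b, true), (true :: a, true)]) ∨
    ∃ p ∈ (una L.length).zip L, ∃ C' ∈ p.2,
      C = (true :: p.1, true) :: C'.map fun l => (tag p.1 l.1, l.2) := by
  unfold oh at hC
  rcases List.mem_append.1 hC with h | h
  · left
    unfold ohp at h
    obtain ⟨a, _, h⟩ := List.mem_flatMap.1 h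
    obtain ⟨b, _, h⟩ := List.mem_map.1 h
    exact ⟨a, b, h.symm⟩
  · right
    obtain ⟨p, hp, h⟩ := List.mem_flatMap.1 h
    obtain ⟨C₁, hC₁, h⟩ := List.mem_map.1 h
    obtain ⟨C', hC', h'⟩ := Shape_ren hC₁
    exact ⟨p, hp, C', hC', by rw [← h, h']⟩

private theorem Shape_cj {L : List CNF} {C : Clause} (hC : C ∈ cj L) :
    ∃ p ∈ (una L.length).zip L, ∃ C' ∈ p.2, C = C'.map fun l => (tag p.1 l.1, l.2) := by
  unfold cj at hC
  obtain ⟨p, hp, h⟩ := List.mem_flatMap.1 hC
  obtain ⟨C', hC', h'⟩ := Shape_ren h
  exact ⟨p, hp, C', hC', h'⟩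

theorem thm_Shape (h1 : StRen) (h2 : StNames) : StShape := by
  obtain ⟨-, hinj, -, hlen, -⟩ := h2
  refine ⟨Shape_width, ?_, ?_, ?_, ?_, ?_, ?_⟩
  · intro L w hL
    constructor
    · rw [Shape_width]
      intro C hC
      rcases Shape_oh hC with ⟨a, b, rfl⟩ | ⟨p, hp, C', hC', rfl⟩
      · exact le_max_left _ _
      · refine le_trans ?_ (le_max_right _ _)
        rw [List.length_cons, List.length_map]
        exact Nat.succ_le_succ ((Shape_width _ _).1 (hL _ (Shape_zip hp)) C' hC')
    · rw [Shape_width]
      intro C hC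
      obtain ⟨p, hp, C', hC', rfl⟩ := Shape_cj hC
      rw [List.length_map]
      exact (Shape_width _ _).1 (hL _ (Shape_zip hp)) C' hC'
  · intro L hL
    constructor
    · intro C hC l hl
      rcases Shape_oh hC with ⟨a, b, rfl⟩ | ⟨p, hp, C', hC', rfl⟩
      · rcases List.mem_cons.1 hl with rfl | hl
        · rfl
        · rw [List.mem_singleton] at hl
          rw [hl]
      · rcases List.mem_cons.1 hl with rfl | hl
        · rfl
        · obtain ⟨l', hl', rfl⟩ := List.mem_map.1 hl
          exact hL _ (Shape_zip hp) C' hC' l' hl'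
    · intro C hC l hl
      obtain ⟨p, hp, C', hC', rfl⟩ := Shape_cj hC
      obtain ⟨l', hl', rfl⟩ := List.mem_map.1 hl
      exact hL _ (Shape_zip hp) C' hC' l' hl'
  · intro L ψ hψ
    obtain ⟨i, hi, rfl⟩ := List.mem_iff_getElem.1 hψ
    have hiu : i < (una L.length).length := by
      rw [(hlen L.length).1]
      exact hi
    have hp : ((una L.length)[i], L[i]) ∈ (una L.length).zip L := by
      have h3 : i < ((una L.length).zip L).length := by
        rw [List.length_zip]
        exact lt_min hiu hi
      have h4 := List.getElem_mem h3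
      rwa [List.getElem_zip] at h4
    have hui : (una L.length)[i] = List.replicate i true := by
      simp [una]
    rw [hui] at hp
    obtain ⟨-, h5, -, -⟩ := h1 (tag (List.replicate i true)) L[i] (hinj i)
    rw [← h5]
    unfold nv
    refine Finset.card_le_card ?_
    intro x hx
    unfold vars at hx ⊢
    rw [List.mem_toFinset, List.mem_map] at hx ⊢
    obtain ⟨l, hl, rfl⟩ := hx
    refine ⟨l, ?_, rfl⟩
    rw [List.mem_flatten] at hl ⊢
    obtain ⟨C, hC, hl⟩ := hl
    refine ⟨(true :: List.replicate i true, true) :: C, ?_, List.mem_cons_of_mem _ hl⟩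
    unfold oh
    refine List.mem_append_right _ ?_
    rw [List.mem_flatMap]
    exact ⟨_, hp, List.mem_map.2 ⟨C, hC, rfl⟩⟩
  · intro r
    refine ⟨?_, ?_, ?_, ?_, ?_, ?_⟩
    · intro C hC l hl
      unfold forced at hC
      obtain ⟨a, _, rfl⟩ := List.mem_map.1 hC
      rw [List.mem_singleton] at hl
      rw [hl]
    · rw [Shape_width]
      intro C hC
      unfold forced at hC
      obtain ⟨a, _, rfl⟩ := List.mem_map.1 hC
      exact le_rfl
    · intro C hC l hl
      unfold st at hC
      obtain ⟨a, _, rfl⟩ := List.mem_map.1 hC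
      rcases List.mem_cons.1 hl with rfl | hl
      · rfl
      · rw [List.mem_singleton] at hl
        rw [hl]
    · rw [Shape_width]
      intro C hC
      unfold st at hC
      obtain ⟨a, _, rfl⟩ := List.mem_map.1 hC
      exact le_rfl
    · intro C hC l hl
      unfold bigc at hC
      rw [List.mem_singleton] at hC
      rw [hC] at hl
      obtain ⟨a, _, rfl⟩ := List.mem_map.1 hl
      rfl
    · rw [Shape_width]
      intro C hC
      unfold bigc at hC
      rw [List.mem_singleton] at hC
      rw [hC, List.length_map, (hlen r).1]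
  · intro C hC l hl
    rw [List.mem_singleton] at hC
    rw [hC] at hl
    exact absurd hl List.not_mem_nil
  · rfl

end Pool.Agent.AK
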