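import Pool.Agent.AK.StF

set_option autoImplicit false

/-!
# AK, module Small: densities of the small formulas
-/

namespace Pool.Agent.AK

private theorem Small_una (n : ℕ) : una (n + 1) = una n ++ [List.replicate n true] := by
  unfold una
  rw [List.range_succ, List.map_append]
  rfl

private theorem Small_notmem (h9 : StNames) (n : ℕ) : List.replicate n true ∉ una n := by
  intro h
  obtain ⟨i, hi, e⟩ := (h9.2.2.2.2 n _).1 h
  have := congrArg List.length e
  simp only [List.length_replicate] at this
  omega

private theorem Small_res_app (x : Name) (b : Bool) (φ ψ : CNF) :
    res x b (φ ++ ψ) = res x b φ ++ res x b ψ := by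
  unfold res
  rw [List.filter_append, List.map_append]

/-- Clauses not containing `x` are kept. -/
private theorem Small_res_keep (x : Name) (b : Bool) (φ : CNF) (h : ∀ C ∈ φ, ∀ l ∈ C, l.1 ≠ x) :
    res x b φ = φ := by
  unfold res
  have e1 : (φ.filter fun C => !decide ((x, b) ∈ C)) = φ := by
    rw [List.filter_eq_self]
    intro C hC
    simp only [Bool.not_eq_true', decide_eq_false_iff_not]
    intro hm
    exact h C hC _ hm rfl
  rw [e1]
  conv_rhs => rw [← List.map_id φ]
  apply List.map_congr_left
  intro C hC
  show (C.filter fun l => !decide (l.1 = x)) = C
  rw [List.filter_eq_self]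
  intro l hl
  simp only [Bool.not_eq_true', decide_eq_false_iff_not]
  exact h C hC l hl

private theorem Small_forced_succ (n : ℕ) :
    forced (n + 1) = forced n ++ [[(List.replicate n true, true)]] := by
  unfold forced
  rw [Small_una, List.map_append]
  rfl

private theorem Small_forced_keep (h9 : StNames) (n : ℕ) (b : Bool) :
    res (List.replicate n true) b (forced n) = forced n := by
  apply Small_res_keep
  intro C hC l hl
  unfold forced at hC
  rw [List.mem_map] at hC
  obtain ⟨a, ha, rfl⟩ := hC
  rw [List.mem_singleton] at hl
  subst hl
  intro e
  have e' : a = List.replicate n true := e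
  rw [e'] at ha
  exact Small_notmem h9 n ha

theorem thm_Small (_h1 : StPrExt) (_h2 : StPrMul) (_h3 : StPrBool) (_h4 : StDensPr) (h5 : StDensB)
    (_h6 : StDensMul) (h7 : StRes) (h8 : StRen) (h9 : StNames) : StSmall := by
  obtain ⟨-, h5b, h5c, -, -, -⟩ := h5
  have hforced : ∀ r, dens (forced r) = (1 / 2 : ℚ) ^ r := by
    intro r
    induction r with
    | zero =>
      show dens [] = _
      rw [h5b, pow_zero]
    | succ r ih =>
      rw [(h7 (List.replicate r true) (forced (r + 1))).1, Small_forced_succ, Small_res_app,
        Small_res_app, Small_forced_keep h9, Small_forced_keep h9]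
      have e1 : res (List.replicate r true) true [[(List.replicate r true, true)]] = [] := by
        simp [res]
      have e2 : res (List.replicate r true) false [[(List.replicate r true, true)]] = [[]] := by
        simp [res]
      rw [e1, e2, List.append_nil, ih, h5c (forced r ++ [[]]) (by simp), pow_succ]
      ring
  refine ⟨?_, ?_, ?_, ?_⟩
  · intro r
    refine ⟨hforced r, ?_⟩
    have e : vars (forced r) = (una r).toFinset := by
      ext x
      unfold vars forced
      simp only [List.mem_toFinset, List.mem_map, List.mem_flatten]
      constructor
      · rintro ⟨l, ⟨C, ⟨a, ha, rfl⟩, hl⟩, rfl⟩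
        rw [List.mem_singleton] at hl
        subst hl
        exact ha
      · intro hx
        exact ⟨(x, true), ⟨[(x, true)], ⟨x, hx, rfl⟩, List.mem_singleton_self _⟩, rfl⟩
    unfold nv
    rw [e, List.toFinset_card_of_nodup (h9.2.2.2.1 r).2, (h9.2.2.2.1 r).1]
  · intro r
    rw [(h7 [true] (st r)).1]
    have e1 : res [true] true (st r) = [] := by
      unfold res st
      rw [List.map_eq_nil_iff, List.filter_eq_nil_iff]
      intro C hC
      rw [List.mem_map] at hC
      obtain ⟨a, ha, rfl⟩ := hC
      simp
    have e2 : res [true] false (st r) = ren (List.cons false) (forced r) := by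
      unfold res st ren forced
      rw [List.filter_eq_self.2, List.map_map, List.map_map]
      · apply List.map_congr_left
        intro a ha
        simp
      · intro C hC
        rw [List.mem_map] at hC
        obtain ⟨a, ha, rfl⟩ := hC
        simp
    rw [e1, e2, h5b, (h8 (List.cons false) (forced r) (List.cons_injective)).2.2.2, hforced r]
  · intro q
    induction q with
    | zero =>
      show dens [[]] = _
      rw [h5c [[]] (by simp), pow_zero, sub_self]
    | succ q ih =>
      rw [(h7 (List.replicate q true) (bigc (q + 1))).1]
      have e1 : res (List.replicate q true) true (bigc (q + 1)) = [] := by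
        unfold res bigc
        rw [Small_una]
        simp
      have e2 : res (List.replicate q true) false (bigc (q + 1)) = bigc q := by
        unfold res bigc
        rw [Small_una, List.filter_eq_self.2]
        · rw [List.map_append]
          show [_] = [_]
          congr 1
          beta_reduce
          rw [List.filter_append]
          have f1 : ((una q).map fun a => (a, true)).filter
              (fun l => !decide (l.1 = List.replicate q true)) = (una q).map fun a => (a, true) := by
            rw [List.filter_eq_self]
            intro l hl
            rw [List.mem_map] at hl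
            obtain ⟨a, ha, rfl⟩ := hl
            simp only [Bool.not_eq_true', decide_eq_false_iff_not]
            rintro rfl
            exact Small_notmem h9 q ha
          rw [f1]
          simp
        · intro C hC
          rw [List.mem_singleton] at hC
          subst hC
          simp
      rw [e1, e2, h5b, ih, pow_succ]
      ring
  · exact h5c [[]] (by simp)

end Pool.Agent.AK
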