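import Mathlib
import Pool.Agent.AK.StF

set_option autoImplicit false

/-!
# AK, module Sz: the tables have polynomial size
-/

namespace Pool.Agent.AK

open Pool.Agent.PolyTime

private lemma Sz_size_le (n : ℕ) : Nat.size n ≤ n := Nat.size_le.mpr n.lt_two_pow_self

private lemma Sz_tab_succ (m j : ℕ) : tab m (j + 1) = stp (tab m j) := by
  unfold tab
  rw [Function.iterate_succ_apply']

private lemma Sz_wt (h2 : StWtStp) (h3 : StWt0) (h5 : StTab) (m : ℕ) : ∀ j, ∀ r ∈ tab m j,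
    wt r.2 ≤ 100 * (m + 1) ^ 3 * ((2 * Nat.size m + 5) ^ 2 + 1) ^ j := by
  intro j
  induction j with
  | zero =>
    intro r hr
    rw [pow_zero, mul_one]
    exact h3 m r hr
  | succ j ih =>
    intro r hr
    rw [Sz_tab_succ] at hr
    refine (h2 m j (tab m j) _ (h5.2 m j) ih r hr).trans ?_
    have h6 : 1 ≤ ((2 * Nat.size m + 5) ^ 2 + 1) ^ j := Nat.one_le_pow _ _ (by omega)
    have h7 : 8 * (m + 1) ^ 3 ≤ 100 * (m + 1) ^ 3 * ((2 * Nat.size m + 5) ^ 2 + 1) ^ j := by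
      calc 8 * (m + 1) ^ 3 ≤ 100 * (m + 1) ^ 3 * 1 := by
            rw [mul_one]
            exact Nat.mul_le_mul_right _ (by norm_num)
        _ ≤ _ := Nat.mul_le_mul_left _ h6
    calc 8 * (m + 1) ^ 3 + (2 * Nat.size m + 5) ^ 2 *
          (100 * (m + 1) ^ 3 * ((2 * Nat.size m + 5) ^ 2 + 1) ^ j) ≤
          100 * (m + 1) ^ 3 * ((2 * Nat.size m + 5) ^ 2 + 1) ^ j + (2 * Nat.size m + 5) ^ 2 *
          (100 * (m + 1) ^ 3 * ((2 * Nat.size m + 5) ^ 2 + 1) ^ j) := Nat.add_le_add_right h7 _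
      _ = 100 * (m + 1) ^ 3 * ((2 * Nat.size m + 5) ^ 2 + 1) ^ (j + 1) := by ring

private lemma Sz_arith (a p q : ℕ) (ha : 2 ≤ a) (hp : p ≤ a ^ 34) (hq : q ≤ a ^ 34) (m : ℕ)
    (hm : m ≤ a) : m * (52 * (p + q) + 3) ≤ a ^ 42 := by
  have h1 : p + q ≤ a ^ 35 := by
    calc p + q ≤ 2 * a ^ 34 := by omega
      _ ≤ a * a ^ 34 := Nat.mul_le_mul_right _ ha
      _ = a ^ 35 := by ring
  have h2 : 1 ≤ a ^ 35 := Nat.one_le_pow _ _ (by omega)
  have h3 : 52 * (p + q) + 3 ≤ a ^ 41 := by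
    calc 52 * (p + q) + 3 ≤ 2 ^ 6 * a ^ 35 := by
          norm_num
          omega
      _ ≤ a ^ 6 * a ^ 35 := Nat.mul_le_mul_right _ (Nat.pow_le_pow_left ha 6)
      _ = a ^ 41 := by ring
  calc m * (52 * (p + q) + 3) ≤ a * a ^ 41 := Nat.mul_le_mul hm h3
    _ = a ^ 42 := by ring

/-- The tables up to level `Nat.size (Nat.size m)` have polynomial size. -/
theorem thm_Sz (h1 : StWt) (h2 : StWtStp) (h3 : StWt0) (h4 : StPowSz) (h5 : StTab) : StSz := by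
  refine ⟨42, fun m j hj => ?_⟩
  obtain ⟨hlen, hgood⟩ := h5.2 m j
  have hjm : j ≤ m := hj.trans ((Sz_size_le _).trans (Sz_size_le m))
  obtain ⟨a, ha⟩ : ∃ a, a = m + 2 := ⟨_, rfl⟩
  have ha2 : 2 ≤ a := by omega
  have hsq : 2 * m + 2 ≤ a ^ 2 := by
    rw [ha]
    nlinarith
  have hp : 100 * (m + 1) ^ 3 * (2 * m + 2) ^ 12 ≤ a ^ 34 := by
    have e1 : 100 ≤ a ^ 7 := le_trans (by norm_num) (Nat.pow_le_pow_left ha2 7)
    have e2 : (m + 1) ^ 3 ≤ a ^ 3 := Nat.pow_le_pow_left (by omega) 3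
    have e3 : (2 * m + 2) ^ 12 ≤ (a ^ 2) ^ 12 := Nat.pow_le_pow_left hsq 12
    calc 100 * (m + 1) ^ 3 * (2 * m + 2) ^ 12 ≤ a ^ 7 * a ^ 3 * (a ^ 2) ^ 12 :=
          Nat.mul_le_mul (Nat.mul_le_mul e1 e2) e3
      _ = a ^ 34 := by ring
  have hq : (m + 2) * (2 * m + 2) ≤ a ^ 34 := by
    calc (m + 2) * (2 * m + 2) ≤ a * a ^ 2 := Nat.mul_le_mul ha.ge hsq
      _ = a ^ 3 := by ring
      _ ≤ a ^ 34 := Nat.pow_le_pow_right (by omega) (by norm_num)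
  have hX : ∀ r ∈ tab m j, r.1 ≤ 100 * (m + 1) ^ 3 * (2 * m + 2) ^ 12 + (m + 2) * (2 * m + 2) ∧
      wt r.2 ≤ 100 * (m + 1) ^ 3 * (2 * m + 2) ^ 12 + (m + 2) * (2 * m + 2) := by
    intro r hr
    constructor
    · obtain ⟨e, he, rfl⟩ := List.getElem_of_mem hr
      have h6 := (hgood e he).2.2.2.1
      refine h6.trans (le_trans (Nat.mul_le_mul_right _ ?_) (Nat.le_add_left _ _))
      omega
    · refine (Sz_wt h2 h3 h5 m j r hr).trans (le_trans (Nat.mul_le_mul_left _ ?_)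
        (Nat.le_add_right _ _))
      exact (Nat.pow_le_pow_right (by omega) hj).trans (h4 m)
  refine (h1.2 (tab m j) _ hX).trans ?_
  rw [hlen, ← ha]
  exact Sz_arith a _ _ ha2 hp (by rw [ha] at hq ⊢; exact hq) m (by omega)

end Pool.Agent.AK
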