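import Pool.Agent.AK.StF

/-!
# AK, [Tab]: the next table is good
-/

set_option autoImplicit false

namespace Pool.Agent.AK

/-- [Tab] the next table is good -/
theorem thm_Tab (h1 : StOhDens) (h2 : StChain) (h3 : StShape) (h4 : StTab0) : StTab := by
  have key : ∀ (m j : ℕ) (T : Tab), Good m j T → Good m (j + 1) (stp T) := by
    intro m j T hT
    have hlen : (stp T).length = m := by
      unfold stp
      rw [List.length_map, List.length_range, hT.1]
    refine ⟨hlen, ?_⟩
    intro e he
    have hem : e < m := by omega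
    have e1 : (stp T)[e] = (e + 1 + (ch T (e + 1)).2, oh (ch T (e + 1)).1) := by
      simp [stp]
    rw [e1]
    obtain ⟨c1, c2, c3, c4, c5, c6⟩ := h2 m j T (e + 1) hT
    generalize ch T (e + 1) = p at c1 c2 c3 c4 c5 c6
    obtain ⟨L, y⟩ := p
    simp only at c1 c2 c3 c4 c5 c6
    have hy : e + 1 ≤ y := by
      rw [min_eq_left (by omega)] at c4
      exact c4
    refine ⟨?_, ?_, ?_, ?_, ?_, ?_⟩
    · change dens (oh L) = (1 / 2 : ℚ) ^ e - (1 / 2 : ℚ) ^ (e + 1 + y)
      have h7 : (1 / 2 : ℚ) ^ (e + 1) = 1 / 2 ^ (e + 1) := by rw [one_div_pow]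
      have h8 : (1 / 2 : ℚ) ^ e = 2 * (1 / 2 : ℚ) ^ (e + 1) := by
        rw [pow_succ]
        ring
      rw [h1, c1, c2, pow_add (1 / 2 : ℚ) (e + 1) y, h8, h7]
      ring
    · change min (A (j + 1) e) m ≤ e + 1 + y
      have e2 : A (j + 1) e = e + 1 + (A j)^[e + 1] 0 := rfl
      rw [e2]
      rcases min_le_iff.mp c3 with h | h
      · exact le_trans (min_le_left _ _) (by omega)
      · exact le_trans (min_le_right _ _) (by omega)
    · change 2 * e + 1 ≤ e + 1 + y
      omega
    · change e + 1 + y ≤ (j + 1 + 2) * (2 * m + 2)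
      have : (j + 1 + 2) * (2 * m + 2) = (j + 2) * (2 * m + 2) + (2 * m + 2) := by ring
      omega
    · exact (h3.2.2.1 L fun ψ hψ => (c6 ψ hψ).1).1
    · have := (h3.2.1 L (j + 2) fun ψ hψ => (c6 ψ hψ).2).1
      exact le_trans this (by omega)
  refine ⟨key, fun m j => ?_⟩
  induction j with
  | zero => exact h4 m
  | succ j ih =>
    have e1 : tab m (j + 1) = stp (tab m j) := by
      unfold tab
      rw [Function.iterate_succ_apply']
    rw [e1]
    exact key m j _ ih

end Pool.Agent.AK
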