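import Pool.Agent.AK.StF

/-!
# AK, [Tab0]: the table of stars is good
-/

set_option autoImplicit false

namespace Pool.Agent.AK

/-- the product of the densities of the stars -/
theorem Tab0_prod (ℓ : ℕ) : ((List.range ℓ).map fun i => (1 + (1 / 2 : ℚ) ^ 2 ^ i) / 2).prod =
    (1 / 2 : ℚ) ^ ℓ * 2 * (1 - (1 / 2 : ℚ) ^ 2 ^ ℓ) := by
  induction ℓ with
  | zero => norm_num
  | succ ℓ ih =>
    rw [List.range_succ, List.map_append, List.prod_append, ih]
    simp only [List.map_cons, List.map_nil, List.prod_cons, List.prod_nil, mul_one]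
    have e1 : (1 / 2 : ℚ) ^ 2 ^ (ℓ + 1) = ((1 / 2 : ℚ) ^ 2 ^ ℓ) ^ 2 := by
      rw [← pow_mul, pow_succ 2 ℓ]
    rw [e1, pow_succ (1 / 2 : ℚ) ℓ]
    ring

/-- `2 ^ size m ≤ 2 m` -/
theorem Tab0_size (m : ℕ) (hm : 1 ≤ m) : 2 ^ Nat.size m ≤ 2 * m := by
  have h1 : 0 < Nat.size m := Nat.size_pos.mpr hm
  have h2 : 2 ^ (Nat.size m - 1) ≤ m := Nat.lt_size.mp (by omega)
  obtain ⟨s, hs⟩ : ∃ s, Nat.size m = s + 1 := ⟨Nat.size m - 1, by omega⟩
  rw [hs] at h2 ⊢
  rw [pow_succ]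
  simp only [Nat.add_sub_cancel] at h2
  omega

/-- [Tab0] the table of stars is good -/
theorem thm_Tab0 (h1 : StCjDens) (h2 : StSmall) (h3 : StShape) (h4 : StAck) : StTab0 := by
  intro m
  have hlen : (tab0 m).length = m := by
    unfold tab0
    rw [List.length_map, List.length_range]
  refine ⟨hlen, ?_⟩
  intro e he
  have hem : e < m := by omega
  have e1 : (tab0 m)[e] = (e + 2 ^ ell m e, star m e) := by
    simp [tab0]
  rw [e1]
  have hl1 : ell m e ≤ e + 1 := min_le_left _ _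
  have hl2 : ell m e ≤ Nat.size m := min_le_right _ _
  have hl3 : ell m e = e + 1 ∨ ell m e = Nat.size m := min_choice _ _
  have hsz : m < 2 ^ Nat.size m := Nat.lt_size_self m
  have hmem : ∀ ψ ∈ (forced (e + 1 - ell m e) :: (List.range (ell m e)).map fun i => st (2 ^ i)),
      Mono ψ ∧ width ψ ≤ 2 := by
    intro ψ hψ
    rcases List.mem_cons.mp hψ with h | h
    · rw [h]
      have := h3.2.2.2.2.1 (e + 1 - ell m e)
      exact ⟨this.1, le_trans this.2.1 (by norm_num)⟩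
    · obtain ⟨i, -, rfl⟩ := List.mem_map.mp h
      have := h3.2.2.2.2.1 (2 ^ i)
      exact ⟨this.2.2.1, this.2.2.2.1⟩
  refine ⟨?_, ?_, ?_, ?_, ?_, ?_⟩
  · change dens (star m e) = (1 / 2 : ℚ) ^ e - (1 / 2 : ℚ) ^ (e + 2 ^ ell m e)
    unfold star
    rw [(h1 _).1, List.map_cons, List.prod_cons, (h2.1 _).1, List.map_map]
    have e2 : (dens ∘ fun i => st (2 ^ i)) = fun i => (1 + (1 / 2 : ℚ) ^ 2 ^ i) / 2 := by
      funext i
      exact h2.2.1 (2 ^ i)
    rw [e2, Tab0_prod]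
    have e3 : (1 / 2 : ℚ) ^ (e + 1 - ell m e) * (1 / 2 : ℚ) ^ ell m e = (1 / 2 : ℚ) ^ e * (1 / 2) := by
      rw [← pow_add, ← pow_succ]
      congr 1
      omega
    rw [pow_add (1 / 2 : ℚ) e]
    linear_combination (2 * (1 - (1 / 2 : ℚ) ^ 2 ^ ell m e)) * e3
  · change min (A 0 e) m ≤ e + 2 ^ ell m e
    rcases hl3 with h | h
    · rw [h]
      exact min_le_left _ _
    · rw [h]
      exact le_trans (min_le_right _ _) (by omega)
  · change 2 * e + 1 ≤ e + 2 ^ ell m e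
    rcases hl3 with h | h
    · rw [h]
      have : e + 1 < 2 ^ (e + 1) := Nat.lt_two_pow_self
      omega
    · rw [h]
      omega
  · change e + 2 ^ ell m e ≤ (0 + 2) * (2 * m + 2)
    have h5 : 2 ^ ell m e ≤ 2 ^ Nat.size m := Nat.pow_le_pow_right (by norm_num) hl2
    have h6 := Tab0_size m (by omega)
    omega
  · exact (h3.2.2.1 _ fun ψ hψ => (hmem ψ hψ).1).2
  · exact (h3.2.1 _ 2 fun ψ hψ => (hmem ψ hψ).2).2

end Pool.Agent.AK
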