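import Pool.Agent.AK.StF

/-!
# AK, module Unf: the fraction of unfinished leaves
-/

set_option autoImplicit false

namespace Pool.Agent.AK

private theorem Unf_sp_cons (f : CNF) (L : List CNF) :
    sp (f :: L) = res (fv f) true f :: res (fv f) false f :: sp L := rfl

private theorem Unf_sp_app (L L' : List CNF) : sp (L ++ L') = sp L ++ sp L' := by
  unfold sp
  exact List.flatMap_append

private theorem Unf_iter_app (M : ℕ) (L L' : List CNF) :
    sp^[M] (L ++ L') = sp^[M] L ++ sp^[M] L' := by
  induction M generalizing L L' with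
  | zero => rfl
  | succ M ih =>
    rw [Function.iterate_succ_apply, Function.iterate_succ_apply, Function.iterate_succ_apply,
      Unf_sp_app, ih]

private theorem Unf_unf_app (L L' : List CNF) : unf (L ++ L') = unf L + unf L' := by
  unfold unf
  rw [List.filter_append, List.length_append]

/-- the fraction of unfinished leaves -/
private noncomputable def Unf_v (M : ℕ) (f : CNF) : ℝ := (unf (leaves M f) : ℝ) / 2 ^ M

private theorem Unf_v_succ (M : ℕ) (f : CNF) :
    Unf_v (M + 1) f = (Unf_v M (res (fv f) true f) + Unf_v M (res (fv f) false f)) / 2 := by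
  unfold Unf_v leaves
  have h1 : sp^[M + 1] [f] = sp^[M] [res (fv f) true f] ++ sp^[M] [res (fv f) false f] := by
    rw [Function.iterate_succ_apply, ← Unf_iter_app]
    rfl
  rw [h1, Unf_unf_app, pow_succ]
  push_cast
  field_simp

private theorem Unf_alive (f : CNF) :
    (f.all fun C => !C.isEmpty) = true ↔ [] ∉ f := by
  rw [List.all_eq_true]
  constructor
  · intro h h0
    have := h _ h0
    simp at this
  · intro h C hC
    cases C with
    | nil => exact absurd hC h
    | cons l C => rfl

private theorem Unf_dead (x : Name) (b : Bool) (f : CNF) (h : [] ∈ f) : [] ∈ res x b f := by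
  unfold res
  rw [List.mem_map]
  exact ⟨[], List.mem_filter.2 ⟨h, by simp⟩, rfl⟩

private theorem Unf_v_dead (M : ℕ) (f : CNF) (h : [] ∈ f ∨ f = []) : Unf_v M f = 0 := by
  induction M generalizing f with
  | zero =>
    have h1 : unf (leaves 0 f) = 0 := by
      show unf [f] = 0
      unfold unf
      rw [List.length_eq_zero_iff, List.filter_eq_nil_iff]
      intro g hg h5
      rw [List.mem_singleton] at hg
      subst hg
      rw [Bool.and_eq_true] at h5
      rcases h with h | h
      · exact (Unf_alive _).1 h5.2 h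
      · rw [h] at h5
        simp at h5
    unfold Unf_v
    rw [h1]
    simp
  | succ M ih =>
    have h2 : ∀ b, [] ∈ res (fv f) b f ∨ res (fv f) b f = [] := by
      intro b
      rcases h with h | h
      · exact Or.inl (Unf_dead _ b f h)
      · right
        rw [h]
        rfl
    rw [Unf_v_succ, ih _ (h2 true), ih _ (h2 false)]
    simp

private theorem Unf_v_nonneg (M : ℕ) (f : CNF) : 0 ≤ Unf_v M f := by
  unfold Unf_v
  positivity

private theorem Unf_v_le_one (M : ℕ) (f : CNF) : Unf_v M f ≤ 1 := by
  induction M generalizing f with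
  | zero =>
    unfold Unf_v
    have h1 : unf (leaves 0 f) ≤ 1 := by
      show unf [f] ≤ 1
      unfold unf
      exact List.length_filter_le _ _
    rw [pow_zero, div_one]
    exact_mod_cast h1
  | succ M ih =>
    rw [Unf_v_succ]
    have h1 := ih (res (fv f) true f)
    have h2 := ih (res (fv f) false f)
    linarith

private theorem Unf_width (φ : CNF) (w : ℕ) : width φ ≤ w ↔ ∀ C ∈ φ, C.length ≤ w := by
  induction φ with
  | nil => simp [width]
  | cons C φ ih =>
    have h : width (C :: φ) = max C.length (width φ) := rfl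
    rw [h, max_le_iff, ih]
    simp

/-- the literals with other names are kept -/
private theorem Unf_filter (l : Lit) (C : Clause) (h : ((l :: C).map Prod.fst).Nodup) :
    (l :: C).filter (fun l' => !decide (l'.1 = l.1)) = C := by
  rw [List.map_cons, List.nodup_cons] at h
  rw [List.filter_cons]
  have h1 : ¬ ((!decide (l.1 = l.1)) = true) := by simp
  rw [if_neg h1, List.filter_eq_self]
  intro l' hl'
  have h2 : l'.1 ≠ l.1 := fun h3 => h.1 (List.mem_map.2 ⟨l', hl', h3⟩)
  simp [h2]

/-- the child in which the first literal is false -/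
private theorem Unf_other (l : Lit) (C : Clause) (g : CNF)
    (h : ((l :: C).map Prod.fst).Nodup) :
    res l.1 (!l.2) ((l :: C) :: g) = C :: res l.1 (!l.2) g := by
  unfold res
  rw [List.filter_cons]
  have h1 : (l.1, !l.2) ∉ l :: C := by
    rw [List.map_cons, List.nodup_cons] at h
    rw [List.mem_cons]
    rintro (h2 | h2)
    · have h3 := congrArg Prod.snd h2
      simp at h3
    · exact h.1 (List.mem_map.2 ⟨_, h2, rfl⟩)
  have h2 : (!decide ((l.1, !l.2) ∈ l :: C)) = true := by simp [h1]
  rw [if_pos h2, List.map_cons, Unf_filter l C h]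

private theorem Unf_first (h1 : StRes) (k m : ℕ) (M : ℕ) (β : ℝ) (_hβ : 0 ≤ β)
    (hb : ∀ M' h, m ≤ M' → M' < M → Nt h → width h ≤ k → Unf_v M' h ≤ β) :
    ∀ (i : ℕ) (C : Clause) (g : CNF) (M'' : ℕ), C.length = i → Nt (C :: g) →
      width (C :: g) ≤ k → m + i ≤ M'' → M'' ≤ M →
      Unf_v M'' (C :: g) ≤ (1 - (1 / 2 : ℝ) ^ i) * β := by
  intro i
  induction i with
  | zero =>
    intro C g M'' hC _ _ _ _
    rw [List.length_eq_zero_iff] at hC
    subst hC
    rw [Unf_v_dead M'' _ (Or.inl List.mem_cons_self)]
    simp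
  | succ i ih =>
    intro C g M'' hC hN hw hm hM
    cases C with
    | nil => simp at hC
    | cons l C =>
      rw [List.length_cons, Nat.add_right_cancel_iff] at hC
      obtain ⟨M3, rfl⟩ : ∃ M3, M'' = M3 + 1 := ⟨M'' - 1, by omega⟩
      have hfv : fv ((l :: C) :: g) = l.1 := rfl
      have hnd : ((l :: C).map Prod.fst).Nodup := hN _ List.mem_cons_self
      -- the child where the literal is true
      have hs : Unf_v M3 (res l.1 l.2 ((l :: C) :: g)) ≤ β := by
        obtain ⟨-, -, h4, h5⟩ := (h1 l.1 ((l :: C) :: g)).2 l.2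
        exact hb M3 _ (by omega) (by omega) (h5 hN) (le_trans h4 hw)
      -- the other child
      have ho : Unf_v M3 (res l.1 (!l.2) ((l :: C) :: g)) ≤ (1 - (1 / 2 : ℝ) ^ i) * β := by
        obtain ⟨-, -, h4, h5⟩ := (h1 l.1 ((l :: C) :: g)).2 (!l.2)
        have h6 := h5 hN
        have h7 := le_trans h4 hw
        rw [Unf_other l C g hnd] at h6 h7 ⊢
        exact ih C _ M3 hC h6 h7 (by omega) (by omega)
      have hsum : Unf_v (M3 + 1) ((l :: C) :: g) =
          (Unf_v M3 (res l.1 l.2 ((l :: C) :: g)) +
            Unf_v M3 (res l.1 (!l.2) ((l :: C) :: g))) / 2 := by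
        rw [Unf_v_succ, hfv]
        cases l.2
        · rw [Bool.not_false, add_comm]
        · rw [Bool.not_true]
      rw [hsum, pow_succ]
      have h8 : (1 - (1 / 2 : ℝ) ^ i * (1 / 2)) * β = (β + (1 - (1 / 2 : ℝ) ^ i) * β) / 2 := by
        ring
      rw [h8]
      linarith

theorem thm_Unf (h1 : StRes) : StUnf := by
  intro k M φ hk hN hw
  show Unf_v M φ ≤ (1 - (1 / 2 : ℝ) ^ k) ^ (M / k)
  have hc1 : (0 : ℝ) ≤ 1 - (1 / 2 : ℝ) ^ k := by
    have : (1 / 2 : ℝ) ^ k ≤ 1 := pow_le_one₀ (by norm_num) (by norm_num)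
    linarith
  have hc2 : 1 - (1 / 2 : ℝ) ^ k ≤ 1 := by
    have : (0 : ℝ) ≤ (1 / 2 : ℝ) ^ k := by positivity
    linarith
  induction M using Nat.strong_induction_on generalizing φ with
  | _ M ih =>
    by_cases hM : M < k
    · rw [Nat.div_eq_of_lt hM, pow_zero]
      exact Unf_v_le_one M φ
    · push Not at hM
      cases φ with
      | nil =>
        rw [Unf_v_dead M _ (Or.inr rfl)]
        exact pow_nonneg hc1 _
      | cons C g =>
        obtain ⟨β, hβd⟩ : ∃ β, β = (1 - (1 / 2 : ℝ) ^ k) ^ ((M - k) / k) := ⟨_, rfl⟩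
        have hβ : 0 ≤ β := by
          rw [hβd]
          exact pow_nonneg hc1 _
        have hj : C.length ≤ k := (Unf_width _ _).1 hw C List.mem_cons_self
        have h2 := Unf_first h1 k (M - k) M β hβ (fun M' h hm hM' hN' hw' => by
          refine le_trans (ih M' hM' h hN' hw') ?_
          rw [hβd]
          exact pow_le_pow_of_le_one hc1 hc2 (Nat.div_le_div_right hm))
          C.length C g M rfl hN hw (by omega) le_rfl
        refine le_trans h2 ?_
        have h3 : (1 / 2 : ℝ) ^ k ≤ (1 / 2 : ℝ) ^ C.length :=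
          pow_le_pow_of_le_one (by norm_num) (by norm_num) hj
        have h4 : M / k = (M - k) / k + 1 := by
          obtain ⟨d, rfl⟩ : ∃ d, M = d + k := ⟨M - k, by omega⟩
          rw [Nat.add_sub_cancel, Nat.add_div_right _ (by omega)]
        rw [h4, pow_succ, ← hβd, mul_comm β]
        exact mul_le_mul_of_nonneg_right (by linarith) hβ

end Pool.Agent.AK
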