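import Pool.Agent.AK.StF

set_option autoImplicit false

/-!
# AK, Wt: size and weight
-/

namespace Pool.Agent.AK

open Pool.Agent.PolyTime

private theorem Wt_clause (C : Clause) :
    size C ≤ 12 * (C.map fun l => 1 + l.1.length).sum ∧
      (C.map fun l => 1 + l.1.length).sum ≤ size C := by
  induction C with
  | nil => simp
  | cons l C ih =>
    obtain ⟨n, b⟩ := l
    simp only [List.map_cons, List.sum_cons, size_cons, size_pair, size_bool, size_list_bool]
    omega

private theorem Wt_cnf (φ : CNF) : size φ ≤ 24 * wt φ ∧ wt φ ≤ size φ := by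
  induction φ with
  | nil => simp [wt]
  | cons C φ ih =>
    have h := Wt_clause C
    unfold wt at ih ⊢
    simp only [List.map_cons, List.sum_cons, size_cons]
    omega

theorem thm_Wt : StWt := by
  refine ⟨Wt_cnf, ?_⟩
  intro T X h
  have h1 : ∀ r ∈ T, size r ≤ 26 * X + 1 := by
    intro r hr
    obtain ⟨h2, h3⟩ := h r hr
    have h4 := (Wt_cnf r.2).1
    have h5 := size_nat_self r.1
    rw [size_prod]
    omega
  refine (size_le_of_forall h1).trans (le_of_eq ?_)
  ring

end Pool.Agent.AK
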