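import Pool.Agent.AK.StF

set_option autoImplicit false

/-!
# AK, module Wt0: the weights of the first table
-/

namespace Pool.Agent.AK

theorem Wt0_sum {α : Type*} (L : List α) (f : α → ℕ) (B : ℕ) (h : ∀ x ∈ L, f x ≤ B) :
    (L.map f).sum ≤ L.length * B := by
  have h1 := List.sum_le_card_nsmul (L.map f) B (by
    intro y hy
    obtain ⟨x, hx, rfl⟩ := List.mem_map.1 hy
    exact h x hx)
  rwa [List.length_map, smul_eq_mul] at h1

theorem Wt0_piece (m : ℕ) (a : Name) (φ : CNF) (ha : a.length ≤ m) (hφ : φ.length ≤ m)
    (hC : ∀ C ∈ φ, C.length ≤ 2 ∧ ∀ l ∈ C, l.1.length ≤ m) :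
    wt (ren (tag a) φ) ≤ m * (4 * m + 7) := by
  unfold wt ren
  rw [List.map_map]
  refine le_trans (Wt0_sum φ _ (4 * m + 7) ?_) (Nat.mul_le_mul_right _ hφ)
  intro C hCm
  obtain ⟨h1, h2⟩ := hC C hCm
  show 1 + ((C.map fun l : Lit => ((tag a l.1, l.2) : Lit)).map
    fun l : Lit => 1 + l.1.length).sum ≤ 4 * m + 7
  rw [List.map_map]
  have h3 := Wt0_sum C ((fun l : Lit => 1 + l.1.length) ∘
    fun l : Lit => ((tag a l.1, l.2) : Lit)) (2 * m + 3) (by
      intro l hl
      have h4 := h2 l hl
      show 1 + (tag a l.1).length ≤ 2 * m + 3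
      unfold tag
      rw [List.length_cons, List.length_append, List.length_cons]
      omega)
  have h5 : C.length * (2 * m + 3) ≤ 2 * (2 * m + 3) := Nat.mul_le_mul_right _ h1
  omega

theorem Wt0_una {n : ℕ} {a : Name} (h : a ∈ una n) : a.length < n := by
  unfold una at h
  obtain ⟨i, hi, rfl⟩ := List.mem_map.1 h
  rw [List.length_replicate]
  exact List.mem_range.1 hi

theorem Wt0_una_len (n : ℕ) : (una n).length = n := by
  unfold una
  rw [List.length_map, List.length_range]

theorem Wt0_flat {α : Type*} (L : List α) (f : α → CNF) :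
    wt (L.flatMap f) = (L.map fun x => wt (f x)).sum := by
  induction L with
  | nil => rfl
  | cons x L ih =>
    rw [List.flatMap_cons, List.map_cons, List.sum_cons, ← ih]
    unfold wt
    rw [List.map_append, List.sum_append]

theorem thm_Wt0 : StWt0 := by
  intro m r hr
  unfold tab0 at hr
  obtain ⟨e, he, rfl⟩ := List.mem_map.1 hr
  have he' := List.mem_range.1 he
  show wt (star m e) ≤ 100 * (m + 1) ^ 3
  have hl1 : ell m e ≤ e + 1 := min_le_left _ _
  have hl2 : ell m e ≤ Nat.size m := min_le_right _ _
  unfold star cj
  rw [Wt0_flat]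
  have hpow : ∀ i, i < ell m e → 2 ^ i ≤ m := fun i hi =>
    Nat.lt_size.1 (lt_of_lt_of_le hi hl2)
  have hlen : (forced (e + 1 - ell m e) ::
      (List.range (ell m e)).map fun i => st (2 ^ i)).length = ell m e + 1 := by
    rw [List.length_cons, List.length_map, List.length_range]
  have h1 := Wt0_sum ((una (forced (e + 1 - ell m e) ::
      (List.range (ell m e)).map fun i => st (2 ^ i)).length).zip
      (forced (e + 1 - ell m e) :: (List.range (ell m e)).map fun i => st (2 ^ i)))
    (fun p => wt (ren (tag p.1) p.2)) (m * (4 * m + 7)) (by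
      rintro ⟨a, φ⟩ hp
      obtain ⟨h2, h3⟩ := List.of_mem_zip hp
      have h4 := Wt0_una h2
      rw [hlen] at h4
      have ha : a.length ≤ m := by omega
      rcases List.mem_cons.1 h3 with h5 | h5
      · show wt (ren (tag a) φ) ≤ _
        rw [h5]
        refine Wt0_piece m a _ ha ?_ ?_
        · unfold forced
          rw [List.length_map, Wt0_una_len]
          rcases Nat.eq_zero_or_pos (ell m e) with h6 | h6
          · exfalso
            unfold ell at h6
            have h7 : 0 < Nat.size m := Nat.size_pos.2 (by omega)
            omega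
          · omega
        · intro C hC
          unfold forced at hC
          obtain ⟨b, hb, rfl⟩ := List.mem_map.1 hC
          have h6 := Wt0_una hb
          refine ⟨by simp, ?_⟩
          intro l hl
          rw [List.mem_singleton] at hl
          rw [hl]
          show b.length ≤ m
          omega
      · obtain ⟨i, hi, rfl⟩ := List.mem_map.1 h5
        have h6 := hpow i (List.mem_range.1 hi)
        show wt (ren (tag a) (st (2 ^ i))) ≤ _
        refine Wt0_piece m a _ ha ?_ ?_
        · unfold st
          rw [List.length_map, Wt0_una_len]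
          exact h6
        · intro C hC
          unfold st at hC
          obtain ⟨b, hb, rfl⟩ := List.mem_map.1 hC
          have h7 := Wt0_una hb
          refine ⟨by simp, ?_⟩
          intro l hl
          rcases List.mem_cons.1 hl with h8 | h8
          · rw [h8]
            show (1 : ℕ) ≤ m
            omega
          · rw [List.mem_singleton] at h8
            rw [h8]
            show (false :: b).length ≤ m
            rw [List.length_cons]
            omega)
  have h2 : ((una (forced (e + 1 - ell m e) ::
      (List.range (ell m e)).map fun i => st (2 ^ i)).length).zip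
      (forced (e + 1 - ell m e) :: (List.range (ell m e)).map fun i => st (2 ^ i))).length ≤
      m + 1 := by
    rw [List.length_zip, hlen]
    exact le_trans (min_le_right _ _) (by omega)
  refine le_trans h1 (le_trans (Nat.mul_le_mul_right _ h2) ?_)
  have h3 : m * (4 * m + 7) ≤ (m + 1) * (100 * (m + 1)) :=
    Nat.mul_le_mul (by omega) (by omega)
  calc (m + 1) * (m * (4 * m + 7)) ≤ (m + 1) * ((m + 1) * (100 * (m + 1))) :=
        Nat.mul_le_mul_left _ h3
    _ = 100 * (m + 1) ^ 3 := by ring

end Pool.Agent.AK
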