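import Pool.Agent.AK.StF

set_option autoImplicit false

/-!
# AK, module WtOh: weight of a one-hot formula
-/

namespace Pool.Agent.AK

private def WtOh_c (C : Clause) : ℕ := 1 + (C.map fun l => 1 + l.1.length).sum

private lemma WtOh_def (φ : CNF) : wt φ = (φ.map WtOh_c).sum := rfl

private lemma WtOh_app (φ ψ : CNF) : wt (φ ++ ψ) = wt φ + wt ψ := by
  rw [WtOh_def, WtOh_def, WtOh_def, List.map_append, List.sum_append]

private lemma WtOh_le (K : ℕ) : ∀ φ : CNF, (∀ C ∈ φ, WtOh_c C ≤ K) → wt φ ≤ φ.length * K := by
  intro φ
  induction φ with
  | nil => intro _; simp [WtOh_def]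
  | cons C φ ih =>
    intro h
    have h1 := ih fun D hD => h D (List.mem_cons_of_mem _ hD)
    have h2 := h C List.mem_cons_self
    rw [WtOh_def] at h1 ⊢
    rw [List.map_cons, List.sum_cons, List.length_cons, Nat.succ_mul]
    omega

private lemma WtOh_una (n : ℕ) (a : Name) (ha : a ∈ una n) : a.length < n := by
  unfold una at ha
  obtain ⟨i, hi, rfl⟩ := List.mem_map.1 ha
  rw [List.length_replicate]
  exact List.mem_range.1 hi

private lemma WtOh_ulen (n : ℕ) : (una n).length = n := by
  unfold una
  rw [List.length_map, List.length_range]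

private lemma WtOh_usucc (n : ℕ) : una (n + 1) = una n ++ [List.replicate n true] := by
  unfold una
  rw [List.range_succ, List.map_append]
  rfl

private lemma WtOh_len {α β : Type} (K : ℕ) (g : α → List β) (hg : ∀ a, (g a).length ≤ K) :
    ∀ l : List α, (l.flatMap g).length ≤ l.length * K := by
  intro l
  induction l with
  | nil => simp
  | cons a l ih =>
    rw [List.flatMap_cons, List.length_append, List.length_cons, Nat.succ_mul]
    have := hg a
    omega

private lemma WtOh_ohp (n : ℕ) : wt (ohp n) ≤ n * n * (2 * n + 3) := by
  have h1 : (ohp n).length ≤ n * n := by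
    have h := WtOh_len n (fun a : Name =>
      ((una n).filter fun b => decide (b.length < a.length)).map
        fun b => ([(true :: b, true), (true :: a, true)] : Clause)) (fun a => by
          rw [List.length_map]
          exact (List.length_filter_le _ _).trans (WtOh_ulen n).le) (una n)
    rwa [WtOh_ulen] at h
  refine (WtOh_le (2 * n + 3) (ohp n) fun C hC => ?_).trans (Nat.mul_le_mul_right _ h1)
  unfold ohp at hC
  obtain ⟨a, ha, hC⟩ := List.mem_flatMap.1 hC
  obtain ⟨b, hb, rfl⟩ := List.mem_map.1 hC
  have h2 := WtOh_una n a ha
  have h3 := WtOh_una n b (List.mem_filter.1 hb).1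
  simp only [WtOh_c, List.map_cons, List.map_nil, List.sum_cons, List.sum_nil, List.length_cons]
  omega

private lemma WtOh_lit (a : Name) (C : Clause) :
    (((C.map fun l => (tag a l.1, l.2)) : Clause).map fun l => 1 + l.1.length).sum =
      (C.map fun l => 1 + l.1.length).sum + C.length * (a.length + 2) := by
  induction C with
  | nil => simp
  | cons l C ih =>
    rw [List.map_cons, List.map_cons, List.sum_cons, ih, List.map_cons, List.sum_cons,
      List.length_cons, Nat.succ_mul]
    simp only [tag, List.length_cons, List.length_append]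
    omega

private lemma WtOh_cl (C : Clause) : C.length ≤ (C.map fun l => 1 + l.1.length).sum := by
  induction C with
  | nil => simp
  | cons l C ih =>
    rw [List.map_cons, List.sum_cons, List.length_cons]
    omega

private lemma WtOh_cla (a : Name) (C : Clause) :
    WtOh_c ((true :: a, true) :: (C.map fun l => (tag a l.1, l.2))) ≤
      WtOh_c C * (2 * a.length + 5) := by
  have h1 := WtOh_lit a C
  have h2 := WtOh_cl C
  unfold WtOh_c
  rw [List.map_cons, List.sum_cons, h1, List.length_cons]
  have h3 : C.length * (a.length + 2) ≤ (C.map fun l => 1 + l.1.length).sum * (a.length + 2) :=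
    Nat.mul_le_mul_right _ h2
  nlinarith

private lemma WtOh_piece (a : Name) (φ : CNF) :
    wt ((ren (tag a) φ).map fun C => (true :: a, true) :: C) ≤ wt φ * (2 * a.length + 5) := by
  induction φ with
  | nil => simp [WtOh_def, ren]
  | cons C φ ih =>
    have h := WtOh_cla a C
    rw [WtOh_def] at ih ⊢
    rw [WtOh_def] at ih ⊢
    rw [ren, List.map_cons, List.map_cons, List.map_cons, List.sum_cons, List.map_cons,
      List.sum_cons, Nat.add_mul]
    exact Nat.add_le_add h ih

private lemma WtOh_zip (L : List CNF) : wt (((una L.length).zip L).flatMap fun p =>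
    (ren (tag p.1) p.2).map fun C => (true :: p.1, true) :: C) ≤
      ∑ i ∈ Finset.range L.length, wt (L.getD i []) * (2 * i + 5) := by
  induction L using List.reverseRecOn with
  | nil => simp [WtOh_def, una]
  | append_singleton L x ih =>
    rw [List.length_append, List.length_singleton, WtOh_usucc,
      List.zip_append (WtOh_ulen L.length), List.flatMap_append, WtOh_app, Finset.sum_range_succ]
    refine Nat.add_le_add ?_ ?_
    · refine ih.trans (le_of_eq ?_)
      refine Finset.sum_congr rfl fun i hi => ?_
      rw [List.getD_append _ _ _ _ (Finset.mem_range.1 hi)]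
    · have h := WtOh_piece (List.replicate L.length true) x
      rw [List.length_replicate] at h
      have h2 : (L ++ [x]).getD L.length [] = x := by
        rw [List.getD_append_right _ _ _ _ le_rfl, Nat.sub_self]
        rfl
      rw [h2]
      simpa using h

theorem thm_WtOh : StWtOh := by
  intro L
  unfold oh
  rw [WtOh_app]
  exact Nat.add_le_add (WtOh_ohp L.length) (WtOh_zip L)

end Pool.Agent.AK
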