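import Pool.Agent.AK.StF

set_option autoImplicit false

/-!
# AK, module WtStp: recursion for the weights of the tables
-/

namespace Pool.Agent.AK

open Pool.Agent.PolyTime

theorem WtStp_succ (T : Tab) (q : ℕ) : ch T (q + 1) = cst T (ch T q) := by
  unfold ch
  rw [Function.iterate_succ_apply']

/-- the exponents grow exponentially -/
theorem WtStp_exp {m j : ℕ} {T : Tab} (hT : Good m j T) (i : ℕ) :
    min (2 ^ i - 1) m ≤ (ch T i).2 := by
  induction i with
  | zero => simp
  | succ i ih =>
    rw [WtStp_succ]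
    unfold cst
    by_cases h : (ch T i).2 < T.length
    · have h1 := (hT.2 _ h).2.2.1
      rw [List.getElem?_eq_getElem h]
      have h2 : (ch T i).2 < m := hT.1 ▸ h
      have h3 : 2 ^ i - 1 ≤ (ch T i).2 := by
        rcases min_le_iff.1 ih with h4 | h4
        · exact h4
        · omega
      refine (min_le_left _ _).trans ?_
      rw [pow_succ]
      simp only
      omega
    · rw [List.getElem?_eq_none (by omega)]
      have h1 := hT.1
      exact (min_le_right _ _).trans (by simp only; omega)

/-- the weights of the pieces -/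
theorem WtStp_piece {m j : ℕ} {T : Tab} {X : ℕ} (hT : Good m j T) (hX : ∀ r ∈ T, wt r.2 ≤ X)
    (q : ℕ) : (ch T q).1.length = q ∧
    ∀ i, i < q → wt ((ch T q).1.getD i []) ≤ 1 + if i < Nat.size m then X else 0 := by
  induction q with
  | zero => exact ⟨rfl, fun i hi => absurd hi (by omega)⟩
  | succ q ih =>
    obtain ⟨h1, h2⟩ := ih
    have h0 : ∃ f : CNF, (ch T (q + 1)).1 = (ch T q).1 ++ [f] ∧
        wt f ≤ 1 + if q < Nat.size m then X else 0 := by
      rw [WtStp_succ]
      unfold cst
      by_cases h : (ch T q).2 < T.length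
      · rw [List.getElem?_eq_getElem h]
        refine ⟨_, rfl, ?_⟩
        have h3 := WtStp_exp hT q
        have h4 : (ch T q).2 < m := hT.1 ▸ h
        have h5 : 2 ^ q - 1 < m := by
          rcases min_le_iff.1 h3 with h6 | h6
          · omega
          · omega
        have h6 : q < Nat.size m := Nat.lt_size.2 (by omega)
        rw [if_pos h6]
        have h7 := hX _ (List.getElem_mem h)
        omega
      · rw [List.getElem?_eq_none (by omega)]
        refine ⟨_, rfl, ?_⟩
        have : wt [[]] = 1 := rfl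
        rw [this]
        omega
    obtain ⟨f, hf1, hf2⟩ := h0
    rw [hf1]
    refine ⟨by rw [List.length_append, h1]; rfl, fun i hi => ?_⟩
    rcases Nat.lt_succ_iff_lt_or_eq.1 hi with h3 | h3
    · rw [List.getD_append _ _ _ _ (by omega)]
      exact h2 i h3
    · subst h3
      rw [List.getD_append_right _ _ _ _ (by omega), h1, Nat.sub_self]
      exact hf2

theorem WtStp_sum (q : ℕ) : ∑ i ∈ Finset.range q, (2 * i + 5) = q * q + 4 * q := by
  induction q with
  | zero => rfl
  | succ q ih =>
    rw [Finset.sum_range_succ, ih]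
    ring

theorem thm_WtStp (h1 : StWtOh) : StWtStp := by
  intro m j T X hT hX r hr
  unfold stp at hr
  obtain ⟨e, he, rfl⟩ := List.mem_map.1 hr
  rw [List.mem_range, hT.1] at he
  obtain ⟨p1, p2⟩ := WtStp_piece hT hX (e + 1)
  have h2 := h1 (ch T (e + 1)).1
  rw [p1] at h2
  have h3 : ∑ i ∈ Finset.range (e + 1), wt ((ch T (e + 1)).1.getD i []) * (2 * i + 5) ≤
      ∑ i ∈ Finset.range (e + 1), (2 * i + 5) +
      ∑ i ∈ Finset.range (e + 1), (if i < Nat.size m then X * (2 * i + 5) else 0) := by
    rw [← Finset.sum_add_distrib]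
    apply Finset.sum_le_sum
    intro i hi
    have h4 := p2 i (Finset.mem_range.1 hi)
    refine (Nat.mul_le_mul_right _ h4).trans ?_
    split_ifs <;> nlinarith
  have h4 : ∑ i ∈ Finset.range (e + 1), (if i < Nat.size m then X * (2 * i + 5) else 0) ≤
      X * (Nat.size m * Nat.size m + 4 * Nat.size m) := by
    rw [← Finset.sum_filter, ← WtStp_sum, Finset.mul_sum]
    apply Finset.sum_le_sum_of_subset
    intro i hi
    rw [Finset.mem_filter] at hi
    exact Finset.mem_range.2 hi.2
  rw [WtStp_sum] at h3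
  have h5 : (e + 1) * (e + 1) * (2 * (e + 1) + 3) + ((e + 1) * (e + 1) + 4 * (e + 1)) ≤
      8 * (m + 1) ^ 3 := by
    have h6 : e + 1 ≤ m := he
    have h7 : (e + 1) * (e + 1) ≤ m * m := Nat.mul_le_mul h6 h6
    have h8 : (e + 1) * (e + 1) * (2 * (e + 1) + 3) ≤ m * m * (2 * m + 3) :=
      Nat.mul_le_mul h7 (by omega)
    nlinarith [Nat.zero_le m, Nat.zero_le (m * m), Nat.zero_le (m * m * m)]
  have h6 : X * (Nat.size m * Nat.size m + 4 * Nat.size m) ≤ (2 * Nat.size m + 5) ^ 2 * X := by
    rw [mul_comm]
    apply Nat.mul_le_mul_right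
    nlinarith [Nat.zero_le (Nat.size m)]
  change wt (oh (ch T (e + 1)).1) ≤ _
  omega

end Pool.Agent.AK
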