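import Pool.Agent.AK.GAll
import Pool.Agent.AK.RAll
import Pool.Agent.AK.PrExt
import Pool.Agent.AK.PrMul
import Pool.Agent.AK.PrBool
import Pool.Agent.AK.DensPr
import Pool.Agent.AK.DensB
import Pool.Agent.AK.DensMul
import Pool.Agent.AK.Res
import Pool.Agent.AK.Nrm
import Pool.Agent.AK.Leaves
import Pool.Agent.AK.Unf
import Pool.Agent.AK.Err
import Pool.Agent.AK.Est
import Pool.Agent.AK.Ren
import Pool.Agent.AK.Names
import Pool.Agent.AK.OneHot
import Pool.Agent.AK.OhDens
import Pool.Agent.AK.CjDens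
import Pool.Agent.AK.Small
import Pool.Agent.AK.Shape
import Pool.Agent.AK.Ack
import Pool.Agent.AK.Tab0
import Pool.Agent.AK.Chain
import Pool.Agent.AK.Tab
import Pool.Agent.AK.Phi
import Pool.Agent.AK.Maj
import Pool.Agent.AK.Fpad
import Pool.Agent.AK.PtC
import Pool.Agent.AK.PtT
import Pool.Agent.AK.Wt
import Pool.Agent.AK.WtOh
import Pool.Agent.AK.WtStp
import Pool.Agent.AK.Wt0
import Pool.Agent.AK.PowSz
import Pool.Agent.AK.Sz
import Pool.Agent.AK.Al
import Pool.Agent.AK.Lev
import Pool.Agent.AK.PtLev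
import Pool.Agent.AK.HardM2
import Pool.Agent.AK.Qlen
import Pool.Agent.AK.Fin2
import Pool.Agent.AK.PtFin2
import Pool.Agent.AK.HardB2
import Pool.Agent.AK.B3
import Pool.Agent.AK.M1
import Pool.Agent.AK.B1
import Pool.Agent.AK.M2

set_option autoImplicit false

/-! # AK, first wave: all statements without hypotheses -/

namespace Pool.Agent.AK

theorem all_DensPr : StDensPr := thm_DensPr thm_PrExt
theorem all_DensB : StDensB := thm_DensB thm_PrBool all_DensPr
theorem all_DensMul : StDensMul := thm_DensMul thm_PrMul all_DensPr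
theorem all_Res : StRes := thm_Res thm_PrMul thm_PrBool all_DensPr
theorem all_Nrm : StNrm := thm_Nrm all_DensB
theorem all_Leaves : StLeaves := thm_Leaves all_Res all_DensB
theorem all_Unf : StUnf := thm_Unf all_Res
theorem all_Err : StErr := thm_Err all_Unf
theorem all_Est : StEst := thm_Est thm_RN
theorem all_OneHot : StOneHot := thm_OneHot thm_PrExt thm_PrMul thm_PrBool
theorem all_OhDens : StOhDens := thm_OhDens all_OneHot thm_Ren thm_Names all_DensPr
theorem all_CjDens : StCjDens := thm_CjDens all_DensMul thm_Ren thm_Names all_DensB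
theorem all_Small : StSmall :=
  thm_Small thm_PrExt thm_PrMul thm_PrBool all_DensPr all_DensB all_DensMul all_Res thm_Ren thm_Names
theorem all_Shape : StShape := thm_Shape thm_Ren thm_Names
theorem all_Ack : StAck := thm_Ack thm_N01 all_N02
theorem all_Tab0 : StTab0 := thm_Tab0 all_CjDens all_Small all_Shape all_Ack
theorem all_Chain : StChain := thm_Chain all_Ack all_Small all_Shape
theorem all_Tab : StTab := thm_Tab all_OhDens all_Chain all_Shape all_Tab0
theorem all_Phi : StPhi := thm_Phi all_OhDens all_Chain all_CjDens all_Small all_Shape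
theorem all_Maj : StMaj := thm_Maj all_OhDens all_Phi all_Small all_Shape all_DensB
theorem all_Fpad : StFpad :=
  thm_Fpad thm_PrExt thm_PrMul thm_PrBool all_DensPr all_DensB all_DensMul all_Small thm_Ren thm_Names all_Shape
theorem all_PtT : StPtT := thm_PtT thm_PtC
theorem all_WtStp : StWtStp := thm_WtStp thm_WtOh
theorem all_Sz : StSz := thm_Sz thm_Wt all_WtStp thm_Wt0 thm_PowSz all_Tab
theorem all_Al : StAl := thm_Al all_Ack
theorem all_Lev : StLev := thm_Lev all_Tab all_Chain all_Al
theorem all_PtLev : StPtLev := thm_PtLev all_PtT all_Sz all_Tab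
theorem all_HardM2 : StHardM2 :=
  thm_HardM2 thm_Red all_Lev all_PtLev all_PtT all_Maj all_Tab all_Chain all_Al thm_RN
theorem all_Qq : StQq := thm_Qq all_Chain all_Ack
theorem all_Fin2 : StFin2 := thm_Fin2 all_Tab all_Qq all_Phi all_Fpad all_DensB all_Chain
theorem all_PtFin2 : StPtFin2 := thm_PtFin2 thm_PtC all_PtT thm_RN all_Tab all_Chain
theorem all_HardB2 : StHardB2 := thm_HardB2 thm_Red all_Fin2 all_PtFin2
theorem all_RB : StRB := thm_RB thm_RN

/-! ### The five statements of `Defs.lean` -/

theorem all_M1 : StM1 := thm_M1 all_Nrm all_Leaves all_Err all_Est (all_GapM1 all_Nrm) all_DensB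
theorem all_M2 : StM2 := thm_M2 all_HardM2 all_RB RAll_C
theorem all_B1 : StB1 := thm_B1 all_Nrm all_Leaves all_Err all_Est (all_GapB1 all_Nrm) all_DensB
theorem all_B2 : StB2 := thm_B2 all_HardB2 all_RB RAll_C
theorem all_B3 : StB3 := thm_B3 all_Ack

end Pool.Agent.AK
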