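import Pool.Agent.AK.StH

set_option autoImplicit false

/-! # AK, module B3R: the number `alk k n` of digits satisfies the hypotheses of the hardness statement -/

namespace Pool.Agent.AK

open Pool.Agent.PolyTime

/-- `alk k` is computed in polynomial time from unary numbers, and it satisfies the hypotheses of `StHR` and `StH`. -/
def StB3R : Prop := ∀ k : ℕ, 3 ≤ k → UPoly (alk k) ∧
  ∃ n0 : ℕ, ∀ n, n0 ≤ n → n ≤ Rch k (alk k n) ∧ n ≤ (n - alk k n) ^ 2

theorem thm_B3R (h1 : StB3) (h2 : StN11) : StB3R := by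
  intro k hk
  obtain ⟨h3, n0, h4⟩ := h1 k hk
  refine ⟨h3, n0, fun n hn => ⟨?_, h4 n hn⟩⟩
  have h5 : n ≤ B k (alk k n) := (h2.2.2.2.1 k n hk).1
  unfold Rch
  by_cases hk3 : k ≤ 3
  · rw [if_pos hk3]
    have : k = 3 := by omega
    rw [this] at h5 ⊢
    exact h5
  · rw [if_neg hk3]
    exact h5.trans ((h2.1 (k - 1) (by omega)).2 _)

end Pool.Agent.AK
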