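import Pool.Agent.AK.StH

set_option autoImplicit false

/-!
# AK, module Bd3: a uniform bound for the number of variables of PP
-/

namespace Pool.Agent.AK

open Pool.Agent.PolyTime

private theorem Bd3_nv_le (φ : CNF) : nv φ ≤ φ.flatten.length := by
  unfold nv vars
  refine (List.toFinset_card_le _).trans ?_
  rw [List.length_map]

private theorem Bd3_pbd_nv : PBd nv :=
  (pbd_length (l := fun φ : CNF => φ.flatten) (by fun_prop)).mono Bd3_nv_le

theorem thm_Bd3 (h1 : StPtPP) : StBd3 := by
  obtain ⟨c, hc⟩ := Bd3_pbd_nv.comp h1
  refine ⟨c, fun t D e ht => ?_⟩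
  have h := hc (List.replicate (e + 1) (), List.replicate t (), D, e)
  simp only [List.length_replicate] at h
  rw [min_eq_left ht, min_eq_left (Nat.le_succ e)] at h
  refine h.trans (Nat.pow_le_pow_left (Nat.add_le_add_right ?_ 2) c)
  unfold sz3
  have h2 : size (List.replicate t ()) ≤ size (List.replicate (e + 1) ()) :=
    size_sublist (List.replicate_sublist_replicate (a := ()) |>.2 ht)
  simp only [size_pair]
  omega

end Pool.Agent.AK
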