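import Pool.Agent.AK.StF

/-!
# AK, module CjDens: density of a conjunction with disjoint variables
-/

set_option autoImplicit false

namespace Pool.Agent.AK

private theorem CjDens_una (n : ℕ) : una (n + 1) = una n ++ [List.replicate n true] := by
  unfold una
  rw [List.range_succ, List.map_append]
  rfl

private theorem CjDens_cj (L : List CNF) (ψ : CNF) :
    cj (L ++ [ψ]) = cj L ++ ren (tag (List.replicate L.length true)) ψ := by
  have hl : (una L.length).length = L.length := by
    unfold una
    simp
  unfold cj
  rw [List.length_append, List.length_singleton, CjDens_una, List.zip_append hl,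
    List.flatMap_append]
  simp

private theorem CjDens_vars (φ ψ : CNF) : vars (φ ++ ψ) = vars φ ∪ vars ψ := by
  unfold vars
  rw [List.flatten_append, List.map_append, List.toFinset_append]

private theorem CjDens_ind (h1 : StDensMul) (h2 : StRen) (h3 : StNames) (h4 : StDensB)
    (L : List CNF) : dens (cj L) = (L.map dens).prod ∧ nv (cj L) = (L.map nv).sum ∧
      ∀ a ∈ vars (cj L), ∃ i < L.length, ∃ x, a = tag (List.replicate i true) x := by
  induction L using List.reverseRecOn with
  | nil =>
    refine ⟨?_, ?_, ?_⟩
    · show dens [] = 1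
      exact h4.2.1
    · rfl
    · intro a ha
      exact absurd ha (by simp [cj, vars])
  | append_singleton L ψ ih =>
    obtain ⟨ih1, ih2, ih3⟩ := ih
    obtain ⟨r1, r2, r3, r4⟩ := h2 (tag (List.replicate L.length true)) ψ (h3.2.1 L.length)
    have hd : Disjoint (vars (cj L)) (vars (ren (tag (List.replicate L.length true)) ψ)) := by
      rw [Finset.disjoint_left]
      intro a ha hb
      obtain ⟨i, hi, x, rfl⟩ := ih3 a ha
      rw [r1] at hb
      obtain ⟨y, _, hy⟩ := Finset.mem_image.1 hb
      have := (h3.1 _ _ _ _ hy).1
      omega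
    rw [CjDens_cj]
    refine ⟨?_, ?_, ?_⟩
    · rw [h1 _ _ hd, ih1, r4, List.map_append, List.prod_append]
      simp
    · have h5 : nv (cj L ++ ren (tag (List.replicate L.length true)) ψ) =
          nv (cj L) + nv (ren (tag (List.replicate L.length true)) ψ) := by
        unfold nv
        rw [CjDens_vars, Finset.card_union_of_disjoint hd]
      rw [h5, ih2, r2, List.map_append, List.sum_append]
      simp
    · intro a ha
      rw [CjDens_vars, Finset.mem_union] at ha
      rcases ha with ha | ha
      · obtain ⟨i, hi, x, hx⟩ := ih3 a ha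
        exact ⟨i, by rw [List.length_append]; omega, x, hx⟩
      · rw [r1] at ha
        obtain ⟨y, _, hy⟩ := Finset.mem_image.1 ha
        exact ⟨L.length, by simp, y, hy.symm⟩

theorem thm_CjDens (h1 : StDensMul) (h2 : StRen) (h3 : StNames) (h4 : StDensB) : StCjDens :=
  fun L => ⟨(CjDens_ind h1 h2 h3 h4 L).1, (CjDens_ind h1 h2 h3 h4 L).2.1⟩

end Pool.Agent.AK
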