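import Pool.Agent.AK.StG

/-!
# AK: [Dig] digits of the number of satisfying assignments from an approximation (helper63)
-/

set_option autoImplicit false

namespace Pool.Agent.AK

private theorem Dig_num (c n t e : ℕ) (α : ℚ) (ht : t ≤ n)
    (hgap : ∀ m : ℕ, (c : ℚ) / 2 ^ n < (m : ℚ) / 2 ^ t →
      (c : ℚ) / 2 ^ n ≤ (m : ℚ) / 2 ^ t - 1 / 2 ^ e)
    (h1 : (c : ℚ) / 2 ^ n ≤ α) (h2 : α ≤ (c : ℚ) / 2 ^ n + 1 / 2 ^ (e + 1)) :
    ⌊2 ^ n * α⌋₊ / 2 ^ (n - t) = c / 2 ^ (n - t) ∧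
    ∀ m : ℕ, (m : ℚ) / 2 ^ t ≤ α ↔ m * 2 ^ (n - t) ≤ c := by
  have hn : (2 : ℚ) ^ n = 2 ^ t * 2 ^ (n - t) := by
    rw [← pow_add, Nat.add_sub_cancel' ht]
  have hD : (0 : ℚ) < 2 ^ (n - t) := by positivity
  have hT : (0 : ℚ) < 2 ^ t := by positivity
  have hN : (0 : ℚ) < 2 ^ n := by positivity
  have key : ∀ m : ℕ, c < m * 2 ^ (n - t) → α < (m : ℚ) / 2 ^ t := by
    intro m hm
    have h3 : (c : ℚ) < m * 2 ^ (n - t) := by exact_mod_cast hm
    have h4 : (c : ℚ) / 2 ^ n < (m : ℚ) / 2 ^ t := by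
      rw [div_lt_div_iff₀ hN hT, hn]
      calc (c : ℚ) * 2 ^ t < (m * 2 ^ (n - t)) * 2 ^ t := mul_lt_mul_of_pos_right h3 hT
        _ = m * (2 ^ t * 2 ^ (n - t)) := by ring
    have h5 := hgap m h4
    have h6 : (1 : ℚ) / 2 ^ (e + 1) < 1 / 2 ^ e := by
      apply one_div_lt_one_div_of_lt (by positivity)
      exact pow_lt_pow_right₀ (by norm_num) (Nat.lt_succ_self e)
    linarith
  have hcF : c ≤ ⌊2 ^ n * α⌋₊ := by
    apply Nat.le_floor
    rw [div_le_iff₀ hN] at h1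
    linarith
  refine ⟨?_, fun m => ⟨fun h => ?_, fun h => ?_⟩⟩
  · have hpos : 0 < 2 ^ (n - t) := by positivity
    apply le_antisymm
    · have h3 : c < (c / 2 ^ (n - t) + 1) * 2 ^ (n - t) := by
        rw [mul_comm]
        exact Nat.lt_mul_div_succ c hpos
      have h4 := key _ h3
      have h5 : ⌊2 ^ n * α⌋₊ < (c / 2 ^ (n - t) + 1) * 2 ^ (n - t) := by
        have h6 : 0 ≤ 2 ^ n * α := by
          have h7 : (0 : ℚ) ≤ (c : ℚ) / 2 ^ n := by positivity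
          have h8 : 0 ≤ α := le_trans h7 h1
          positivity
        rw [Nat.floor_lt h6]
        have h9 : 2 ^ n * α < 2 ^ n * (((c / 2 ^ (n - t) + 1 : ℕ) : ℚ) / 2 ^ t) :=
          mul_lt_mul_of_pos_left h4 hN
        have h10 : (2 : ℚ) ^ n * (((c / 2 ^ (n - t) + 1 : ℕ) : ℚ) / 2 ^ t) =
            (((c / 2 ^ (n - t) + 1) * 2 ^ (n - t) : ℕ) : ℚ) := by
          rw [hn, Nat.cast_mul, Nat.cast_pow, Nat.cast_ofNat]
          field_simp
        rw [h10] at h9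
        exact h9
      have h6 : ⌊2 ^ n * α⌋₊ / 2 ^ (n - t) < c / 2 ^ (n - t) + 1 := by
        rw [Nat.div_lt_iff_lt_mul hpos]
        exact h5
      exact Nat.lt_succ_iff.mp h6
    · exact Nat.div_le_div_right hcF
  · by_contra hlt
    exact absurd h (not_le.mpr (key m (not_le.mp hlt)))
  · have h3 : (m : ℚ) * 2 ^ (n - t) ≤ c := by exact_mod_cast h
    refine le_trans ?_ h1
    rw [div_le_div_iff₀ hT hN, hn]
    calc (m : ℚ) * (2 ^ t * 2 ^ (n - t)) = (m * 2 ^ (n - t)) * 2 ^ t := by ring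
      _ ≤ c * 2 ^ t := mul_le_mul_of_nonneg_right h3 hT.le

theorem thm_Dig (h1 : StGap) : StDig := by
  intro k t φ α hk hNt hw ht hα hα2
  exact Dig_num (count φ) (nv φ) t (H k t) α ht (fun m hm => h1 k t m φ hk hNt hw hm) hα hα2

end Pool.Agent.AK
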