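import Pool.Agent.AK.StG2

set_option autoImplicit false

namespace Pool.Agent.AK

theorem GapB1_log_le_size (n : ℕ) : Nat.log 2 n ≤ Nat.size n := by
  rcases Nat.eq_zero_or_pos n with h | h
  · subst h; simp
  · have h1 : n < 2 ^ Nat.size n := Nat.lt_size_self n
    exact (Nat.log_lt_of_lt_pow h.ne' h1).le

theorem thm_GapB1 : StGap → StGrow2 → StNrm → StGapB1 := by
  intro hG hR hN k hk ε hε
  obtain ⟨C, hC⟩ := hR k hk ε hε
  refine ⟨C, fun φ hw t ht => ?_⟩
  obtain ⟨h1, h2⟩ := hC (nv φ) t ht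
  refine ⟨h1, H k t, ?_, fun m hm => ?_⟩
  · have h4 := GapB1_log_le_size (nv φ)
    have h5 : k * 2 ^ k * (H k t + 1) = k * (2 ^ k * (H k t + 1)) := Nat.mul_assoc _ _ _
    omega
  · obtain ⟨-, hd', hw', hnt, -⟩ := hN φ
    have := hG k t m (nrm φ) (by omega) hnt (hw'.trans hw) (by rw [hd']; exact hm)
    rw [hd'] at this
    rw [one_div, inv_pow, ← one_div]
    exact this

end Pool.Agent.AK
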