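import Pool.Agent.AK.StH
import Pool.Agent.AK.B1
import Pool.Agent.AK.GapB1

set_option autoImplicit false

/-! # AK, module E: the leading digits of the number of models, one algorithm for all widths -/

namespace Pool.Agent.AK

open Pool.Agent.PolyTime

theorem thm_E (h1 : StNrm) (h2 : StLeaves) (h3 : StErr) (h4 : StEst) (h5 : StGap)
    (h6 : StGrow3) (h7 : StDensB) : StE := by
  have hnv : PolyTime nv := h4.2.1
  have hsb : PBd (fun φ : CNF => Nat.size (nv φ) + 0) :=
    (B1_pbd_nv.mono fun φ => (Nat.size_le.2 Nat.lt_two_pow_self : Nat.size (nv φ) ≤ nv φ)).add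
      (PBd.const 0)
  refine ⟨fun φ => 2 ^ nv φ * est 0 φ / 2 ^ (Nat.size (nv φ) + 0), ?_, ?_⟩
  · refine PolyTime.div (PolyTime.mul ?_ (h4.1 0)) ?_
    · exact PolyTime.pow (PolyTime.const 2) hnv B1_pbd_nv
    · exact PolyTime.pow (PolyTime.const 2) ((PolyTime.natSize hnv).add (PolyTime.const 0)) hsb
  · intro φ k t hk hw ht
    obtain ⟨htn, hH0⟩ := h6 k t (nv φ) hk ht
    have hH : k * 2 ^ k * (H k t + 1) ≤ Nat.size (nv φ) + 0 := by
      have e1 := GapB1_log_le_size (nv φ)
      have e2 : k * 2 ^ k * (H k t + 1) = k * (2 ^ k * (H k t + 1)) := Nat.mul_assoc _ _ _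
      omega
    obtain ⟨-, n2, n3, n4, -⟩ := h1 φ
    have hgap : ∀ m : ℕ, dens φ < (m : ℚ) / 2 ^ t →
        dens φ ≤ (m : ℚ) / 2 ^ t - (1 / 2 : ℚ) ^ (H k t) := by
      intro m hm
      have := h5 k t m (nrm φ) (by omega) n4 (n3.trans hw) (by rw [n2]; exact hm)
      rw [n2] at this
      rw [one_div, inv_pow, ← one_div]
      exact this
    generalize H k t = H at hH hgap
    obtain ⟨-, l2, l3, -⟩ := h2 (Nat.size (nv φ) + 0) (nrm φ)
    have herr := h3 k (Nat.size (nv φ) + 0) H (nrm φ) (by omega) n4 (n3.trans hw) hH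
    have hcount : (count φ : ℚ) = dens φ * 2 ^ nv φ := h7.2.2.2.2.2 φ
    rw [n2] at l2 l3
    have hest : est 0 φ = alive (leaves (Nat.size (nv φ) + 0) (nrm φ)) := rfl
    rw [← hest] at l2 l3
    clear hH
    generalize (unf (leaves (Nat.size (nv φ) + 0) (nrm φ)) : ℚ) /
      2 ^ (Nat.size (nv φ) + 0) = u at l3 herr
    beta_reduce
    generalize est 0 φ = E at l2 l3
    generalize Nat.size (nv φ) + 0 = M at l2 l3
    generalize nv φ = n at hcount htn
    have hM : (0 : ℚ) < 2 ^ M := by positivity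
    have hn : (0 : ℚ) < 2 ^ n := by positivity
    have hlt : count φ < (count φ / 2 ^ (n - t) + 1) * 2 ^ (n - t) := by
      have := Nat.lt_div_mul_add (a := count φ) (b := 2 ^ (n - t)) (by positivity)
      rw [Nat.add_mul, Nat.one_mul]
      exact this
    have hle : count φ / 2 ^ (n - t) * 2 ^ (n - t) ≤ count φ := Nat.div_mul_le_self _ _
    generalize count φ / 2 ^ (n - t) = q at hlt hle
    have hpow : (2 : ℚ) ^ n = 2 ^ (n - t) * 2 ^ t := by
      rw [← pow_add]
      congr 1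
      omega
    have hpos : (0 : ℚ) < 2 ^ (n - t) := by positivity
    have hpt : (0 : ℚ) < 2 ^ t := by positivity
    refine Nat.div_eq_of_lt_le ?_ ?_
    · refine hle.trans ((Nat.le_div_iff_mul_le (by positivity)).2 ?_)
      have : (count φ : ℚ) * 2 ^ M ≤ 2 ^ n * E := by
        rw [hcount]
        have := (le_div_iff₀ hM).1 l2
        nlinarith
      exact_mod_cast this
    · refine (Nat.div_lt_iff_lt_mul (by positivity)).2 ?_
      have hd : dens φ < ((q + 1 : ℕ) : ℚ) / 2 ^ t := by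
        rw [lt_div_iff₀ hpt]
        have h77 : (count φ : ℚ) < ((q + 1 : ℕ) : ℚ) * 2 ^ (n - t) := by exact_mod_cast hlt
        rw [hcount, hpow] at h77
        have h8 : dens φ * 2 ^ t * 2 ^ (n - t) < ((q + 1 : ℕ) : ℚ) * 2 ^ (n - t) := by
          calc dens φ * 2 ^ t * 2 ^ (n - t) = dens φ * (2 ^ (n - t) * 2 ^ t) := by ring
            _ < _ := h77
        exact lt_of_mul_lt_mul_right h8 hpos.le
      have h9 := hgap (q + 1) hd
      have h10 : (E : ℚ) / 2 ^ M < ((q + 1 : ℕ) : ℚ) / 2 ^ t := by linarith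
      rw [div_lt_div_iff₀ hM hpt] at h10
      have h11 : ((2 ^ n * E : ℕ) : ℚ) < (((q + 1) * 2 ^ (n - t) * 2 ^ M : ℕ) : ℚ) := by
        push_cast at h10 ⊢
        rw [hpow]
        nlinarith
      exact_mod_cast h11

end Pool.Agent.AK
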