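import Pool.Agent.AK.StH

set_option autoImplicit false

namespace Pool.Agent.AK

open Pool.Agent.PolyTime

theorem Fin3_iff (a q u : ℕ) (y : ℚ) (c : ℕ) (hc : (c : ℚ) = y * (1 / 2 : ℚ) ^ u * 2 ^ (a + q + u)) :
    2 ^ a ≤ c ↔ (1 / 2 : ℚ) ^ q ≤ y := by
  have h2 : (c : ℚ) = y * 2 ^ q * 2 ^ a := by
    rw [hc, pow_add, pow_add]
    have h3 : (1 / 2 : ℚ) ^ u * 2 ^ u = 1 := by
      rw [← mul_pow]
      norm_num
    calc y * (1 / 2 : ℚ) ^ u * (2 ^ a * 2 ^ q * 2 ^ u) = y * 2 ^ q * 2 ^ a * ((1 / 2 : ℚ) ^ u * 2 ^ u) := by ring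
      _ = y * 2 ^ q * 2 ^ a := by rw [h3, mul_one]
  have h4 : (2 ^ a ≤ c) ↔ ((2 : ℚ) ^ a ≤ c) := by
    constructor
    · intro h
      exact_mod_cast h
    · intro h
      exact_mod_cast h
  rw [h4, h2]
  have hp : (0 : ℚ) < 2 ^ a := by positivity
  have hq : (0 : ℚ) < 2 ^ q := by positivity
  rw [one_div, inv_pow, inv_le_iff_one_le_mul₀ hq]
  constructor
  · intro h
    by_contra h5
    push Not at h5
    nlinarith
  · intro h
    nlinarith

theorem Fin3_Rch_zero (k : ℕ) : Rch k 0 = 0 := by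
  unfold Rch
  split_ifs <;> rfl

theorem thm_Fin3 (h1 : StPP) (h2 : StFpad) (h3 : StDensB) : StFin3 := by
  intro c hc k t d n0 hH D e hM hw he
  set X := (sz3 D e + 2) ^ c + n0 + e + 3 with hXd
  set n := X ^ (d + 1) with hnd
  have hXn : X ≤ n := Nat.le_self_pow (by omega) X
  obtain ⟨t1, t2, t3⟩ := hH n (by omega)
  have hX : X ≤ n - t n := by
    by_contra hcon
    have h7 : (n - t n) ^ d ≤ X ^ d := Nat.pow_le_pow_left (by omega) d
    have h8 : X ^ (d + 1) = X ^ d * X := pow_succ X d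
    have h9 : 0 < X ^ d := Nat.pos_of_ne_zero (pow_ne_zero _ (by omega))
    have h10 : X ^ d * 3 ≤ X ^ d * X := Nat.mul_le_mul_left _ (by omega)
    omega
  have ht : 1 ≤ t n := by
    by_contra hcon
    have h0 : t n = 0 := by omega
    rw [h0, Fin3_Rch_zero] at t2
    omega
  set th := min (t n) (e + 1) with hthd
  have hth : 1 ≤ th := by omega
  have hreach : e + 1 ≤ th ∨ n ≤ Rch (k n) th := by
    rcases Nat.lt_or_ge (t n) (e + 1) with hlt | hge
    · right
      have : th = t n := by omega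
      rw [this]
      exact t2
    · left
      omega
  obtain ⟨⟨L, hPL, hL⟩, p3, p4, p1⟩ := h1 (e + 1) th (k n) n D e hth (by omega) (by omega) t1 hreach hM hw he
  have hP := hc th D e (by omega)
  set P := PP (e + 1) th D e with hPd
  have hF : fin3 t d n0 c D e = fpad (th + 1) P (n - nv P - (t n - th)) (t n - th) := rfl
  obtain ⟨f1, f2, f3, f4⟩ := h2 L (n - nv P - (t n - th)) (t n - th) (by omega)
  rw [hL, ← hPL] at f1 f2 f3 f4
  rw [← hF] at f1 f2 f3 f4
  have hnv : nv (fin3 t d n0 c D e) = n := by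
    rw [f1]
    omega
  refine ⟨f3 p3, ?_, ?_⟩
  · rw [hnv]
    exact f4 (k n) t1 p4
  · rw [hnv, ← p1]
    refine Fin3_iff (n - t n) th (t n - th) (dens P) _ ?_
    rw [h3.2.2.2.2.2 (fin3 t d n0 c D e), hnv, f2]
    have : n - t n + th + (t n - th) = n := by omega
    rw [this]

end Pool.Agent.AK
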