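import Pool.Agent.AK.StT
import Pool.Agent.AK.Fin3

set_option autoImplicit false

namespace Pool.Agent.AK

open Pool.Agent.PolyTime

theorem thm_Fin4 (h1 : StWf) (hT : StThB) (h2 : StFpad) (h3 : StDensB) : StFin4 := by
  intro c hc k t d n0 hH D e hM hw he
  set X := (sz3 D e + 2) ^ c + n0 + e + 3 with hXd
  set n := X ^ (d + 1) with hnd
  have hXn : X ≤ n := Nat.le_self_pow (by omega) X
  obtain ⟨t1, ht, t2, t3⟩ := hH n (by omega)
  have hX : X ≤ n - t n := by
    by_contra hcon
    have h7 : (n - t n) ^ d ≤ X ^ d := Nat.pow_le_pow_left (by omega) d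
    have h8 : X ^ (d + 1) = X ^ d * X := pow_succ X d
    have h9 : 0 < X ^ d := Nat.pos_of_ne_zero (pow_ne_zero _ (by omega))
    have h10 : X ^ d * 3 ≤ X ^ d * X := Nat.mul_le_mul_left _ (by omega)
    omega
  have hXw : X ≤ Th (k n - 2) (t n) := by
    by_contra hcon
    have h7 : Nat.log 2 (B (k n) (t n + 1)) ^ d ≤ X ^ d :=
      Nat.pow_le_pow_left (by have := hT (k n) (t n) t1 ht; omega) d
    have h8 : X ^ (d + 1) = X ^ d * X := pow_succ X d
    have h9 : 0 < X ^ d := Nat.pos_of_ne_zero (pow_ne_zero _ (by omega))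
    have h10 : X ^ d * 3 ≤ X ^ d * X := Nat.mul_le_mul_left _ (by omega)
    omega
  set th := min (t n) (e + 1) with hthd
  have hth : 1 ≤ th := by omega
  have hreach : e + 1 ≤ th ∨ e + 1 ≤ Th (k n - 2) th := by
    rcases Nat.lt_or_ge (t n) (e + 1) with hlt | hge
    · right
      have : th = t n := by omega
      rw [this]
      omega
    · left
      omega
  obtain ⟨⟨L, hPL, hL⟩, p3, p4, p1⟩ := h1 (e + 1) th (k n) D e hth (by omega) t1 hreach hM hw
  have hP := hc th D e (by omega)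
  set P := Wf (e + 1) th D e with hPd
  have hF : fin4 t d n0 c D e = fpad (th + 1) P (n - nv P - (t n - th)) (t n - th) := rfl
  obtain ⟨f1, f2, f3, f4⟩ := h2 L (n - nv P - (t n - th)) (t n - th) (by omega)
  rw [hL, ← hPL] at f1 f2 f3 f4
  rw [← hF] at f1 f2 f3 f4
  have hnv : nv (fin4 t d n0 c D e) = n := by
    rw [f1]
    omega
  refine ⟨f3 p3, ?_, ?_⟩
  · rw [hnv]
    exact f4 (k n) t1 p4
  · rw [hnv, ← p1]
    refine Fin3_iff (n - t n) th (t n - th) (dens P) _ ?_
    rw [h3.2.2.2.2.2 (fin4 t d n0 c D e), hnv, f2]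
    have : n - t n + th + (t n - th) = n := by omega
    rw [this]

end Pool.Agent.AK
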