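import Pool.Agent.AK.StG

set_option autoImplicit false

/-!
# AK, module G01: basics of `pr` (helper18)
-/

namespace Pool.Agent.AK

theorem G01_eq (W : Finset Name) (p : Finset Name → Prop) [hp : DecidablePred p] :
    pr W p = ((W.powerset.filter p).card : ℚ) / 2 ^ W.card := by
  unfold pr Pr
  have h : Classical.decPred p = hp := Subsingleton.elim _ _
  rw [h]

theorem G01_pos (W : Finset Name) : (0 : ℚ) < 2 ^ W.card := by positivity

theorem G01_mono (W : Finset Name) (p q : Finset Name → Prop) (h : ∀ S ⊆ W, p S → q S) :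
    pr W p ≤ pr W q := by
  classical
  rw [G01_eq, G01_eq]
  refine div_le_div_of_nonneg_right ?_ (G01_pos W).le
  refine Nat.cast_le.2 (Finset.card_le_card ?_)
  intro S hS
  rw [Finset.mem_filter] at hS ⊢
  exact ⟨hS.1, h S (Finset.mem_powerset.1 hS.1) hS.2⟩

theorem G01_not (W : Finset Name) (p : Finset Name → Prop) :
    pr W (fun S => ¬ p S) = 1 - pr W p := by
  classical
  have h0 := (G01_pos W).ne'
  have h1 : ((W.powerset.filter p).card : ℚ) + ((W.powerset.filter fun S => ¬ p S).card : ℚ) =
      2 ^ W.card := by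
    have h2 := Finset.card_filter_add_card_filter_not (s := W.powerset) p
    rw [Finset.card_powerset] at h2
    rw [← Nat.cast_add, h2]
    push_cast
    rfl
  rw [G01_eq, G01_eq, eq_sub_iff_add_eq, ← add_div, add_comm, h1, div_self h0]

theorem G01_true (W : Finset Name) : pr W (fun _ => True) = 1 := by
  classical
  rw [G01_eq]
  rw [Finset.filter_true_of_mem (fun _ _ => trivial), Finset.card_powerset]
  push_cast
  exact div_self (G01_pos W).ne'

theorem G01_or (W : Finset Name) (p q : Finset Name → Prop) :
    pr W (fun S => p S ∨ q S) ≤ pr W p + pr W q := by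
  classical
  rw [G01_eq, G01_eq, G01_eq, ← add_div]
  refine div_le_div_of_nonneg_right ?_ (G01_pos W).le
  rw [← Nat.cast_add]
  refine Nat.cast_le.2 (le_trans (Finset.card_le_card ?_) (Finset.card_union_le _ _))
  intro S hS
  rw [Finset.mem_union, Finset.mem_filter, Finset.mem_filter]
  rw [Finset.mem_filter] at hS
  rcases hS.2 with h | h
  · exact Or.inl ⟨hS.1, h⟩
  · exact Or.inr ⟨hS.1, h⟩

theorem G01_ex (W : Finset Name) (s : Finset (Finset Lit)) (E : Finset Lit → Finset Name → Prop) :
    pr W (fun S => ∃ c ∈ s, E c S) ≤ ∑ c ∈ s, pr W (E c) := by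
  classical
  induction s using Finset.induction_on with
  | empty =>
    rw [Finset.sum_empty, G01_eq, Finset.filter_false_of_mem (fun S _ h => by simp at h)]
    simp
  | insert c s hc ih =>
    rw [Finset.sum_insert hc]
    refine le_trans (G01_mono W _ (fun S => E c S ∨ ∃ d ∈ s, E d S) ?_)
      (le_trans (G01_or W _ _) (add_le_add_right ih _))
    rintro S - ⟨d, hd, h⟩
    rw [Finset.mem_insert] at hd
    rcases hd with rfl | hd
    · exact Or.inl h
    · exact Or.inr ⟨d, hd, h⟩

theorem thm_G01 : StG01 := by
  have hT := G01_true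
  refine ⟨?_, ?_, G01_mono, G01_or, G01_ex, G01_not, hT⟩
  · intro W p
    classical
    rw [G01_eq]
    positivity
  · intro W p
    rw [← hT W]
    exact G01_mono W p _ (fun _ _ _ => trivial)

end Pool.Agent.AK
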