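import Pool.Agent.AK.StG

set_option autoImplicit false

/-!
# AK, module G02 (independence)
-/

namespace Pool.Agent.AK

open Classical in
lemma G02_card (W U U' : Finset Name) (p q : Finset Name → Prop) (hp : DepOn p U)
    (hq : DepOn q U') (hd : Disjoint U U') :
    (W.powerset.filter fun S => p S ∧ q S).card =
      ((W ∩ U).powerset.filter p).card * ((W \ U).powerset.filter q).card := by
  rw [← Finset.card_product]
  have hsplit : ∀ S : Finset Name, (S \ U) ∩ U' = S ∩ U' := by
    intro S
    ext x
    simp only [Finset.mem_inter, Finset.mem_sdiff]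
    constructor
    · rintro ⟨⟨h1, _⟩, h3⟩
      exact ⟨h1, h3⟩
    · rintro ⟨h1, h3⟩
      exact ⟨⟨h1, fun h => Finset.disjoint_left.mp hd h h3⟩, h3⟩
  apply Finset.card_nbij' (fun S => (S ∩ U, S \ U)) (fun X => X.1 ∪ X.2)
  · intro S hS
    simp only [Finset.coe_filter, Set.mem_ofPred_eq, Finset.mem_powerset] at hS
    obtain ⟨hSW, h1, h2⟩ := hS
    simp only [Finset.coe_product, Finset.coe_filter, Set.mem_prod, Set.mem_ofPred_eq,
      Finset.mem_powerset]
    refine ⟨⟨Finset.inter_subset_inter_right hSW, (hp S).mp h1⟩,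
      Finset.sdiff_subset_sdiff hSW (Finset.Subset.refl U), ?_⟩
    rw [hq, hsplit, ← hq]
    exact h2
  · rintro ⟨X, Y⟩ hXY
    simp only [Finset.coe_product, Finset.coe_filter, Set.mem_prod, Set.mem_ofPred_eq,
      Finset.mem_powerset] at hXY
    obtain ⟨⟨hX, h1⟩, hY, h2⟩ := hXY
    simp only [Finset.coe_filter, Set.mem_ofPred_eq, Finset.mem_powerset]
    have hXU : (X ∪ Y) ∩ U = X := by
      ext x
      simp only [Finset.mem_inter, Finset.mem_union]
      constructor
      · rintro ⟨h | h, hu⟩
        · exact h
        · exact absurd hu (Finset.mem_sdiff.mp (hY h)).2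
      · intro h
        exact ⟨Or.inl h, (Finset.mem_inter.mp (hX h)).2⟩
    have hYU : (X ∪ Y) \ U = Y := by
      ext x
      simp only [Finset.mem_sdiff, Finset.mem_union]
      constructor
      · rintro ⟨h | h, hu⟩
        · exact absurd (Finset.mem_inter.mp (hX h)).2 hu
        · exact h
      · intro h
        exact ⟨Or.inr h, (Finset.mem_sdiff.mp (hY h)).2⟩
    refine ⟨?_, ?_, ?_⟩
    · apply Finset.union_subset
      · exact hX.trans Finset.inter_subset_left
      · exact hY.trans Finset.sdiff_subset
    · rw [hp, hXU]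
      exact h1
    · rw [hq, ← hsplit, hYU, ← hq]
      exact h2
  · intro S _
    simp only
    ext x
    simp only [Finset.mem_union, Finset.mem_inter, Finset.mem_sdiff]
    tauto
  · rintro ⟨X, Y⟩ hXY
    simp only [Finset.coe_product, Finset.coe_filter, Set.mem_prod, Set.mem_ofPred_eq,
      Finset.mem_powerset] at hXY
    obtain ⟨⟨hX, _⟩, hY, _⟩ := hXY
    simp only [Prod.mk.injEq]
    constructor
    · ext x
      simp only [Finset.mem_inter, Finset.mem_union]
      constructor
      · rintro ⟨h | h, hu⟩
        · exact h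
        · exact absurd hu (Finset.mem_sdiff.mp (hY h)).2
      · intro h
        exact ⟨Or.inl h, (Finset.mem_inter.mp (hX h)).2⟩
    · ext x
      simp only [Finset.mem_sdiff, Finset.mem_union]
      constructor
      · rintro ⟨h | h, hu⟩
        · exact absurd (Finset.mem_inter.mp (hX h)).2 hu
        · exact h
      · intro h
        exact ⟨Or.inr h, (Finset.mem_sdiff.mp (hY h)).2⟩

/-- **G02** (independence). -/
theorem thm_G02 : StG02 := by
  classical
  intro W U U' p q hp hq hd
  have hT : ∀ V : Finset Name, DepOn (fun _ => True) V := fun V S => Iff.rfl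
  have h1 := G02_card W U U' p q hp hq hd
  have h2 := G02_card W U U' p (fun _ => True) hp (hT U') hd
  have h3 := G02_card W U U' (fun _ => True) q (hT U) hq hd
  rw [Finset.filter_true, Finset.card_powerset] at h2 h3
  simp only [and_true, true_and] at h2 h3
  have hcard : (W ∩ U).card + (W \ U).card = W.card := by
    rw [← Finset.card_inter_add_card_sdiff W U]
  have e1 : pr W (fun S => p S ∧ q S) =
      ((W.powerset.filter fun S => p S ∧ q S).card : ℚ) / 2 ^ W.card := by
    unfold pr Pr
    congr
  have e2 : pr W p = ((W.powerset.filter p).card : ℚ) / 2 ^ W.card := by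
    unfold pr Pr
    congr
  have e3 : pr W q = ((W.powerset.filter q).card : ℚ) / 2 ^ W.card := by
    unfold pr Pr
    congr
  rw [e1, e2, e3, h1, h2, h3, ← hcard, pow_add]
  push_cast
  have hu : (2 : ℚ) ^ (W ∩ U).card ≠ 0 := by positivity
  have hv : (2 : ℚ) ^ (W \ U).card ≠ 0 := by positivity
  field_simp

end Pool.Agent.AK
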