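import Pool.Agent.AK.StG

set_option autoImplicit false

/-!
# AK, G03: the probability of one pattern
-/

namespace Pool.Agent.AK

private theorem G03_inj {L : Finset Lit} (h : NtC L) : Set.InjOn Prod.fst (L : Set Lit) := by
  rintro ⟨x, b⟩ hx ⟨y, c⟩ hy hxy
  simp only at hxy
  subst hxy
  cases b <;> cases c
  · rfl
  · exact absurd ⟨hy, hx⟩ (h x)
  · exact absurd ⟨hx, hy⟩ (h x)
  · rfl

private theorem G03_card (W : Finset Name) (L : Finset Lit) (hL : NtC L) (hW : cv L ⊆ W)
    (d : DecidablePred fun S : Finset Name => ∀ l ∈ L, (l.1 ∈ S ↔ l.2 = true)) :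
    (@Finset.filter _ (fun S : Finset Name => ∀ l ∈ L, (l.1 ∈ S ↔ l.2 = true)) d
      W.powerset).card = 2 ^ (W \ cv L).card := by
  set X1 : Finset Name := (L.filter fun l => l.2 = true).image Prod.fst with hX1
  have hX1X : X1 ⊆ cv L := Finset.image_subset_image (Finset.filter_subset _ _)
  have hmem : ∀ l ∈ L, (l.1 ∈ X1 ↔ l.2 = true) := by
    rintro ⟨x, b⟩ hl
    simp only [hX1, Finset.mem_image, Finset.mem_filter]
    constructor
    · rintro ⟨⟨y, c⟩, ⟨h1, h2⟩, h3⟩
      simp only at h2 h3
      subst h2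
      subst h3
      cases b
      · exact absurd ⟨h1, hl⟩ (hL _)
      · rfl
    · intro hb
      exact ⟨(x, b), ⟨hl, hb⟩, rfl⟩
  rw [← Finset.card_powerset]
  refine Finset.card_bij' (fun S _ => S \ cv L) (fun Y _ => Y ∪ X1) ?_ ?_ ?_ ?_
  · intro S hS
    simp only [Finset.mem_filter, Finset.mem_powerset] at hS ⊢
    exact Finset.sdiff_subset_sdiff hS.1 (le_refl _)
  · intro Y hY
    simp only [Finset.mem_filter, Finset.mem_powerset] at hY ⊢
    refine ⟨Finset.union_subset (hY.trans Finset.sdiff_subset) (hX1X.trans hW), ?_⟩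
    intro l hl
    rw [← hmem l hl, Finset.mem_union]
    have h1 : l.1 ∈ cv L := Finset.mem_image_of_mem _ hl
    constructor
    · rintro (h | h)
      · exact absurd h1 (Finset.mem_sdiff.mp (hY h)).2
      · exact h
    · exact Or.inr
  · intro S hS
    simp only [Finset.mem_filter, Finset.mem_powerset] at hS
    ext x
    simp only [Finset.mem_union, Finset.mem_sdiff]
    by_cases hx : x ∈ cv L
    · obtain ⟨l, hl, rfl⟩ := Finset.mem_image.mp hx
      rw [hmem l hl, ← hS.2 l hl]
      simp [hx]
    · have h1 : x ∉ X1 := fun h => hx (hX1X h)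
      simp [hx, h1]
  · intro Y hY
    simp only [Finset.mem_powerset] at hY
    ext x
    simp only [Finset.mem_union, Finset.mem_sdiff]
    constructor
    · rintro ⟨h | h, h2⟩
      · exact h
      · exact absurd (hX1X h) h2
    · intro h
      exact ⟨Or.inl h, (Finset.mem_sdiff.mp (hY h)).2⟩

theorem thm_G03 : StG03 := by
  intro W L hL hW
  have h1 : (cv L).card = L.card := Finset.card_image_of_injOn (G03_inj hL)
  have h2 : (W \ cv L).card + L.card = W.card := by
    rw [← h1]
    exact Finset.card_sdiff_add_card_eq_card hW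
  unfold pr Pr
  rw [G03_card W L hL hW]
  rw [← h2, pow_add]
  push_cast
  rw [div_mul_eq_div_div, div_self (by positivity), one_div, one_div, inv_pow]

end Pool.Agent.AK
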