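import Pool.Agent.AK.StG

set_option autoImplicit false

/-!
# AK G04: the probability of one clause
-/

namespace Pool.Agent.AK

private theorem G04_inj : Function.Injective fun l : Lit => ((l.1, !l.2) : Lit) := by
  intro a b h
  have h0 : ((a.1, !a.2) : Lit) = (b.1, !b.2) := h
  have h1 : a.1 = b.1 := (Prod.mk.inj h0).1
  have h2 : (!a.2) = !b.2 := (Prod.mk.inj h0).2
  exact Prod.ext h1 (by simpa using h2)

theorem thm_G04 (h1 : StG01) (h3 : StG03) : StG04 := by
  intro W c hc hcW
  obtain ⟨-, -, hmono, -, -, hcomp, -⟩ := h1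
  set L : Finset Lit := c.image fun l => (l.1, !l.2) with hL
  have hcard : L.card = c.card := Finset.card_image_of_injective _ G04_inj
  have hmem : ∀ x b, (x, b) ∈ L ↔ (x, !b) ∈ c := by
    intro x b
    rw [hL, Finset.mem_image]
    constructor
    · rintro ⟨l, hl, he⟩
      have e1 : l.1 = x := (Prod.mk.inj he).1
      have e2 : (!l.2) = b := (Prod.mk.inj he).2
      rw [← e1, ← e2, Bool.not_not]
      exact hl
    · intro h
      exact ⟨(x, !b), h, by simp⟩
  have hNt : NtC L := by
    rintro x ⟨ha, hb⟩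
    rw [hmem] at ha hb
    exact hc x ⟨hb, ha⟩
  have hcv : cv L ⊆ W := by
    refine subset_trans ?_ hcW
    intro x hx
    unfold cv at hx ⊢
    rw [Finset.mem_image] at hx ⊢
    obtain ⟨l, hl, rfl⟩ := hx
    refine ⟨(l.1, !l.2), ?_, rfl⟩
    rw [← hmem]
    exact hl
  have hiff : ∀ S : Finset Name, (∀ l ∈ L, (l.1 ∈ S ↔ l.2 = true)) ↔ ¬ CSat S c := by
    intro S
    unfold CSat
    push Not
    constructor
    · intro h l hl
      have h4 := h (l.1, !l.2) (by rw [hmem, Bool.not_not]; exact hl)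
      cases hb : l.2 <;> simp [hb] at h4 ⊢ <;> exact h4
    · intro h l hl
      have h4 := h (l.1, !l.2) (by rw [← hmem]; exact hl)
      cases hb : l.2 <;> simp [hb] at h4 ⊢ <;> exact h4
  have h4 := h3 W L hNt hcv
  have h5 : pr W (fun S => ¬ CSat S c) = pr W (fun S => ∀ l ∈ L, (l.1 ∈ S ↔ l.2 = true)) :=
    le_antisymm (hmono W _ _ fun S _ h => (hiff S).2 h) (hmono W _ _ fun S _ h => (hiff S).1 h)
  have h6 := hcomp W (fun S => CSat S c)
  rw [h5, h4, hcard] at h6
  linarith

end Pool.Agent.AK
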