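import Pool.Agent.AK.StG

set_option autoImplicit false

/-!
# AK, module G05: a family of clauses with disjoint variables
-/

namespace Pool.Agent.AK

private lemma G05_csat (c : Finset Lit) (U S : Finset Name) (h : cv c ⊆ U) :
    CSat S c ↔ CSat (S ∩ U) c := by
  unfold CSat
  constructor
  · rintro ⟨l, hl, hS⟩
    refine ⟨l, hl, ?_⟩
    have : l.1 ∈ U := h (Finset.mem_image.2 ⟨l, hl, rfl⟩)
    rw [Finset.mem_inter]
    simpa [this] using hS
  · rintro ⟨l, hl, hS⟩
    refine ⟨l, hl, ?_⟩
    have : l.1 ∈ U := h (Finset.mem_image.2 ⟨l, hl, rfl⟩)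
    rw [Finset.mem_inter] at hS
    simpa [this] using hS

/-- A family of clauses with disjoint variables. -/
theorem thm_G05 : StG01 → StG02 → StG04 → StG05 := by
  intro h1 h2 h4 W j M g
  have hTrue := h1.2.2.2.2.2.2
  classical
  induction M using Finset.induction_on with
  | empty =>
    intro _ _
    simp only [Finset.card_empty, pow_zero]
    have : (fun S : Finset Name => ∀ c ∈ (∅ : Finset (Finset Lit)), CSat S (g c)) =
        fun _ => True := by
      funext S
      simp
    rw [this]
    exact hTrue W
  | insert a M ha ih =>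
    intro hM hd
    have hM' : ∀ c ∈ M, NtC (g c) ∧ cv (g c) ⊆ W ∧ (g c).card = j :=
      fun c hc => hM c (Finset.mem_insert_of_mem hc)
    have hd' : ∀ c ∈ M, ∀ d ∈ M, c ≠ d → Disjoint (cv (g c)) (cv (g d)) :=
      fun c hc d hdm hne =>
        hd c (Finset.mem_insert_of_mem hc) d (Finset.mem_insert_of_mem hdm) hne
    have hih := ih hM' hd'
    have ha' := hM a (Finset.mem_insert_self a M)
    have hfun : (fun S : Finset Name => ∀ c ∈ insert a M, CSat S (g c)) =
        fun S => CSat S (g a) ∧ ∀ c ∈ M, CSat S (g c) := by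
      funext S
      simp
    rw [hfun]
    have hind := h2 W (cv (g a)) (M.biUnion fun d => cv (g d)) (fun S => CSat S (g a))
      (fun S => ∀ c ∈ M, CSat S (g c))
      (fun S => G05_csat _ _ _ (Finset.Subset.refl _))
      (by
        intro S
        constructor
        · intro h c hc
          exact (G05_csat _ _ _ (Finset.subset_biUnion_of_mem (fun d => cv (g d)) hc)).1 (h c hc)
        · intro h c hc
          exact (G05_csat _ _ _ (Finset.subset_biUnion_of_mem (fun d => cv (g d)) hc)).2 (h c hc))
      (by
        rw [Finset.disjoint_biUnion_right]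
        intro d hdm
        refine hd a (Finset.mem_insert_self a M) d (Finset.mem_insert_of_mem hdm) ?_
        rintro rfl
        exact ha hdm)
    rw [hind, hih, h4 W (g a) ha'.1 ha'.2.1, ha'.2.2, Finset.card_insert_of_notMem ha, pow_succ,
      mul_comm]

end Pool.Agent.AK
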