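import Pool.Agent.AK.StG

set_option autoImplicit false

/-!
# AK, G06: numbers
-/

namespace Pool.Agent.AK

theorem G06_half (j : ℕ) : (1 - (1 / 2 : ℚ) ^ j) ^ (2 ^ j) ≤ 1 / 2 := by
  rcases Nat.eq_zero_or_pos j with h | h
  · subst h
    norm_num
  · have hN : (2 : ℚ) ≤ 2 ^ j := by
      calc (2 : ℚ) = 2 ^ 1 := by norm_num
        _ ≤ 2 ^ j := pow_le_pow_right₀ (by norm_num) h
    obtain ⟨N, hNd⟩ : ∃ N : ℚ, N = 2 ^ j := ⟨_, rfl⟩
    rw [← hNd] at hN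
    have h1 : (1 - (1 / 2 : ℚ) ^ j) = (N - 1) / N := by
      rw [one_div, inv_pow, ← hNd]
      field_simp
    have h2 : (1 : ℚ) + (2 ^ j : ℕ) * (1 / (N - 1)) ≤ (1 + 1 / (N - 1)) ^ (2 ^ j) :=
      one_add_mul_le_pow (by
        have : 0 ≤ 1 / (N - 1) := div_nonneg zero_le_one (by linarith)
        linarith) _
    have h3 : (2 : ℚ) ≤ 1 + (2 ^ j : ℕ) * (1 / (N - 1)) := by
      push_cast
      rw [← hNd, mul_one_div]
      have h4 : 1 ≤ N / (N - 1) := by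
        rw [one_le_div (by linarith)]
        linarith
      linarith
    have h5 : ((N - 1) / N) ^ (2 ^ j) * (1 + 1 / (N - 1)) ^ (2 ^ j) = 1 := by
      rw [← mul_pow]
      have h6 : (N - 1) / N * (1 + 1 / (N - 1)) = 1 := by
        have : N - 1 ≠ 0 := by linarith
        have : N ≠ 0 := by linarith
        field_simp
        ring
      rw [h6, one_pow]
    rw [h1]
    have h7 : 0 ≤ ((N - 1) / N) ^ (2 ^ j) := pow_nonneg (div_nonneg (by linarith) (by linarith)) _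
    nlinarith [h2, h3, h5, h7]

theorem thm_G06 : StG06 := by
  intro j x T h
  have h0 : (0 : ℚ) ≤ 1 - (1 / 2 : ℚ) ^ j := by
    have : (1 / 2 : ℚ) ^ j ≤ 1 := pow_le_one₀ (by norm_num) (by norm_num)
    linarith
  have h1 : 1 - (1 / 2 : ℚ) ^ j ≤ 1 := by
    have : (0 : ℚ) ≤ (1 / 2 : ℚ) ^ j := by positivity
    linarith
  calc (1 - (1 / 2 : ℚ) ^ j) ^ T ≤ (1 - (1 / 2 : ℚ) ^ j) ^ (2 ^ j * x) :=
        pow_le_pow_of_le_one h0 h1 h
    _ = ((1 - (1 / 2 : ℚ) ^ j) ^ (2 ^ j)) ^ x := pow_mul _ _ _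
    _ ≤ (1 / 2) ^ x := pow_le_pow_left₀ (pow_nonneg h0 _) (G06_half j) x

end Pool.Agent.AK
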