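import Pool.Agent.AK.StG

set_option autoImplicit false

/-!
# AK, G07: probabilities of events on few variables are multiples of a power of two
-/

namespace Pool.Agent.AK

theorem G07_card (W U : Finset Name) (p : Finset Name → Prop) (hp : DepOn p U) (hU : U ⊆ W) :
    ∃ N : ℕ, pr W p = (N : ℚ) / 2 ^ U.card := by
  classical
  refine ⟨(U.powerset.filter p).card, ?_⟩
  unfold pr Pr
  have h1 : (@Finset.filter _ p (Classical.decPred p) W.powerset).card =
      (U.powerset.filter p).card * 2 ^ (W \ U).card := by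
    rw [← Finset.card_powerset (W \ U), ← Finset.card_product]
    refine Finset.card_nbij' (fun S => (S ∩ U, S \ U)) (fun q => q.1 ∪ q.2) ?_ ?_ ?_ ?_
    · intro S hS
      rw [Finset.mem_coe, Finset.mem_filter, Finset.mem_powerset] at hS
      rw [Finset.mem_coe, Finset.mem_product, Finset.mem_filter, Finset.mem_powerset,
        Finset.mem_powerset]
      exact ⟨⟨Finset.inter_subset_right, (hp S).1 hS.2⟩, Finset.sdiff_subset_sdiff hS.1 le_rfl⟩
    · rintro ⟨X, Y⟩ hq
      rw [Finset.mem_coe, Finset.mem_product, Finset.mem_filter, Finset.mem_powerset,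
        Finset.mem_powerset] at hq
      rw [Finset.mem_coe, Finset.mem_filter, Finset.mem_powerset]
      obtain ⟨⟨h2, h3⟩, h4⟩ := hq
      change X ⊆ U at h2
      change p X at h3
      change Y ⊆ W \ U at h4
      refine ⟨Finset.union_subset (h2.trans hU) (h4.trans Finset.sdiff_subset), ?_⟩
      rw [hp]
      have e : (X ∪ Y) ∩ U = X := by
        ext x
        rw [Finset.mem_inter, Finset.mem_union]
        constructor
        · rintro ⟨h5 | h5, h6⟩
          · exact h5
          · exact absurd h6 (Finset.mem_sdiff.1 (h4 h5)).2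
        · intro h5
          exact ⟨Or.inl h5, h2 h5⟩
      change p ((X ∪ Y) ∩ U)
      rw [e]
      exact h3
    · intro S hS
      change S ∩ U ∪ S \ U = S
      ext x
      rw [Finset.mem_union, Finset.mem_inter, Finset.mem_sdiff]
      constructor
      · rintro (h | h)
        · exact h.1
        · exact h.1
      · intro h
        by_cases h5 : x ∈ U
        · exact Or.inl ⟨h, h5⟩
        · exact Or.inr ⟨h, h5⟩
    · rintro ⟨X, Y⟩ hq
      rw [Finset.mem_coe, Finset.mem_product, Finset.mem_filter, Finset.mem_powerset,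
        Finset.mem_powerset] at hq
      obtain ⟨⟨h2, -⟩, h4⟩ := hq
      change X ⊆ U at h2
      change Y ⊆ W \ U at h4
      change ((X ∪ Y) ∩ U, (X ∪ Y) \ U) = (X, Y)
      rw [Prod.mk.injEq]
      constructor
      · ext x
        rw [Finset.mem_inter, Finset.mem_union]
        constructor
        · rintro ⟨h5 | h5, h6⟩
          · exact h5
          · exact absurd h6 (Finset.mem_sdiff.1 (h4 h5)).2
        · intro h5
          exact ⟨Or.inl h5, h2 h5⟩
      · ext x
        rw [Finset.mem_sdiff, Finset.mem_union]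
        constructor
        · rintro ⟨h5 | h5, h6⟩
          · exact absurd (h2 h5) h6
          · exact h5
        · intro h5
          exact ⟨Or.inr h5, (Finset.mem_sdiff.1 (h4 h5)).2⟩
  have h2 : W.card = U.card + (W \ U).card := by
    have := Finset.card_sdiff_add_card_eq_card hU
    omega
  rw [h1, h2, pow_add, Nat.cast_mul, Nat.cast_pow, Nat.cast_ofNat]
  rw [mul_div_mul_right _ _ (by positivity)]

theorem thm_G07 : StG07 := by
  intro W U p s t m hp hU hUs hts h
  obtain ⟨N, hN⟩ := G07_card W U p hp hU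
  rw [hN] at h ⊢
  have e1 : (N : ℚ) / 2 ^ U.card = ((N * 2 ^ (s - U.card) : ℕ) : ℚ) / 2 ^ s := by
    have h1 : (2 : ℚ) ^ s = 2 ^ U.card * 2 ^ (s - U.card) := by
      rw [← pow_add]; congr 1; omega
    rw [h1]
    push_cast
    rw [mul_div_mul_right _ _ (by positivity)]
  have e2 : (m : ℚ) / 2 ^ t = ((m * 2 ^ (s - t) : ℕ) : ℚ) / 2 ^ s := by
    have h1 : (2 : ℚ) ^ s = 2 ^ t * 2 ^ (s - t) := by
      rw [← pow_add]; congr 1; omega
    rw [h1]
    push_cast
    rw [mul_div_mul_right _ _ (by positivity)]
  rw [e1, e2] at h ⊢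
  have hs : (0 : ℚ) < 2 ^ s := by positivity
  rw [div_lt_div_iff_of_pos_right hs] at h
  rw [div_sub_div_same, div_le_div_iff_of_pos_right hs]
  have h3 : N * 2 ^ (s - U.card) + 1 ≤ m * 2 ^ (s - t) := by exact_mod_cast h
  have h4 : ((N * 2 ^ (s - U.card) : ℕ) : ℚ) + 1 ≤ ((m * 2 ^ (s - t) : ℕ) : ℚ) := by
    exact_mod_cast h3
  linarith

end Pool.Agent.AK
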