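import Pool.Agent.AK.StG

set_option autoImplicit false

/-!
# AK, G08: scales
-/

namespace Pool.Agent.AK

theorem thm_G08 : StG08 := by
  intro s ν T h hT hc
  by_contra hcon
  push Not at hcon
  choose! q hq using hcon
  have h1 : (Finset.range (h + 1)).card ≤ (s.filter fun p => T 0 < ν p).card := by
    refine Finset.card_le_card_of_injOn q ?_ ?_
    · intro i hi
      rw [Finset.mem_coe, Finset.mem_range] at hi
      rw [Finset.mem_coe, Finset.mem_filter]
      obtain ⟨h2, h3, h4⟩ := hq i (by omega)
      exact ⟨h2, lt_of_le_of_lt (hT (Nat.zero_le i)) h3⟩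
    · have key : ∀ i j, i ≤ h → j ≤ h → i < j → ν (q i) < ν (q j) := by
        intro i j hi hj hij
        obtain ⟨-, -, h4⟩ := hq i hi
        obtain ⟨-, h3, -⟩ := hq j hj
        exact lt_of_le_of_lt (h4.trans (hT (by omega))) h3
      intro i hi j hj hij
      rw [Finset.mem_coe, Finset.mem_range] at hi hj
      rcases lt_trichotomy i j with h2 | h2 | h2
      · have := key i j (by omega) (by omega) h2
        rw [hij] at this
        exact absurd this (lt_irrefl _)
      · exact h2
      · have := key j i (by omega) (by omega) h2
        rw [hij] at this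
        exact absurd this (lt_irrefl _)
  rw [Finset.card_range] at h1
  omega

end Pool.Agent.AK
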