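import Pool.Agent.AK.StG

set_option autoImplicit false

/-!
# AK, G09: number of traces
-/

namespace Pool.Agent.AK

theorem G09_cnt {α : Type} [DecidableEq α] (T : Finset α) (N : ℕ) :
    (T.powerset.filter fun s => s.card ≤ N).card ≤ (T.card + 1) ^ N := by
  have h1 : (T.powerset.filter fun s => s.card ≤ N) ⊆
      (Finset.range (N + 1)).biUnion fun j => T.powersetCard j := by
    intro s hs
    rw [Finset.mem_filter, Finset.mem_powerset] at hs
    rw [Finset.mem_biUnion]
    exact ⟨s.card, Finset.mem_range.2 (by omega), Finset.mem_powersetCard.2 ⟨hs.1, rfl⟩⟩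
  refine (Finset.card_le_card h1).trans (Finset.card_biUnion_le.trans ?_)
  rw [add_pow]
  refine Finset.sum_le_sum fun j hj => ?_
  rw [Finset.card_powersetCard, one_pow, mul_one]
  have h2 : 1 ≤ N.choose j := Nat.choose_pos (by rw [Finset.mem_range] at hj; omega)
  exact (Nat.choose_le_pow _ _).trans (Nat.le_mul_of_pos_right _ h2)

theorem thm_G09 : StG09 := by
  intro V r P hP
  have h1 : P ⊆ (V ×ˢ (Finset.univ : Finset Bool)).powerset.filter fun s => s.card ≤ r := by
    intro p hp
    rw [Finset.mem_filter, Finset.mem_powerset]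
    refine ⟨?_, (hP p hp).2⟩
    intro l hl
    rw [Finset.mem_product]
    exact ⟨(hP p hp).1 (Finset.mem_image_of_mem _ hl), Finset.mem_univ _⟩
  refine (Finset.card_le_card h1).trans ((G09_cnt _ _).trans_eq ?_)
  rw [Finset.card_product, Finset.card_univ, Fintype.card_bool, mul_comm]

end Pool.Agent.AK
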