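import Pool.Agent.AK.StG

set_option autoImplicit false

/-!
# AK, G10: maximal families exist
-/

namespace Pool.Agent.AK

theorem thm_G10 : StG10 := by
  classical
  intro V j f
  have key : ∀ p, ∃ N : Finset (Finset Lit), N ⊆ Cls V j f p ∧
      (∀ c ∈ N, ∀ d ∈ N, c ≠ d → Disjoint (cv (rs V c)) (cv (rs V d))) ∧
      (∀ c ∈ Cls V j f p, ∃ d ∈ N, ¬ Disjoint (cv (rs V c)) (cv (rs V d))) := by
    intro p
    obtain ⟨F, hF⟩ : ∃ F : Finset (Finset (Finset Lit)), ∀ N, N ∈ F ↔ N ⊆ Cls V j f p ∧
        ∀ c ∈ N, ∀ d ∈ N, c ≠ d → Disjoint (cv (rs V c)) (cv (rs V d)) :=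
      ⟨(Cls V j f p).powerset.filter fun N =>
        ∀ c ∈ N, ∀ d ∈ N, c ≠ d → Disjoint (cv (rs V c)) (cv (rs V d)), fun N => by
          rw [Finset.mem_filter, Finset.mem_powerset]⟩
    have hne : F.Nonempty := by
      refine ⟨∅, (hF ∅).2 ⟨Finset.empty_subset _, ?_⟩⟩
      intro c hc
      exact absurd hc (Finset.notMem_empty c)
    obtain ⟨N, hN, hmax⟩ := Finset.exists_max_image F Finset.card hne
    have hN' := (hF N).1 hN
    refine ⟨N, hN'.1, hN'.2, ?_⟩
    intro c hc
    by_contra hcon
    push Not at hcon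
    have hcN : c ∉ N := by
      intro h
      have h1 := hcon c h
      rw [disjoint_self] at h1
      have h2 : rs V c = ∅ := Finset.image_eq_empty.1 h1
      unfold Cls at hc
      rw [Finset.mem_filter] at hc
      rw [h2, Finset.card_empty] at hc
      omega
    have h3 : insert c N ∈ F := by
      rw [hF]
      refine ⟨Finset.insert_subset hc hN'.1, ?_⟩
      intro a ha b hb hab
      rw [Finset.mem_insert] at ha hb
      rcases ha with rfl | ha
      · rcases hb with rfl | hb
        · exact absurd rfl hab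
        · exact hcon b hb
      · rcases hb with rfl | hb
        · exact (hcon a ha).symm
        · exact hN'.2 a ha b hb hab
    have h4 := hmax _ h3
    rw [Finset.card_insert_of_notMem hcN] at h4
    omega
  choose M hM using key
  exact ⟨M, hM⟩

end Pool.Agent.AK
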