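import Pool.Agent.AK.StG

set_option autoImplicit false

/-!
# AK, G11: heavy traces are improbable
-/

namespace Pool.Agent.AK

theorem thm_G11 (h1 : StG01) (h2 : StG05) : StG11 := by
  intro W V j f M hOk hM p N hN
  have h0 : (0 : ℚ) ≤ 1 - (1 / 2 : ℚ) ^ (j + 1) := by
    have : (1 / 2 : ℚ) ^ (j + 1) ≤ 1 := pow_le_one₀ (by norm_num) (by norm_num)
    linarith
  have h3 : 1 - (1 / 2 : ℚ) ^ (j + 1) ≤ 1 := by
    have : (0 : ℚ) ≤ (1 / 2 : ℚ) ^ (j + 1) := by positivity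
    linarith
  obtain ⟨hM1, hM2, -⟩ := hM p
  have h4 : ∀ c ∈ M p, c ∈ f ∧ tc V c = p ∧ (rs V c).card = j + 1 := by
    intro c hc
    have h5 := hM1 hc
    unfold Cls at h5
    exact Finset.mem_filter.1 h5
  have h6 : pr W (fun S => ∀ c ∈ M p, CSat S (rs V c)) =
      (1 - (1 / 2) ^ (j + 1)) ^ (M p).card := by
    refine h2 W (j + 1) (M p) (rs V) (fun c hc => ?_) hM2
    obtain ⟨h7, h8⟩ := hOk c (h4 c hc).1
    refine ⟨?_, ?_, (h4 c hc).2.2⟩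
    · intro x hx
      exact h7 x ⟨Finset.filter_subset _ _ hx.1, Finset.filter_subset _ _ hx.2⟩
    · exact (Finset.image_subset_image (Finset.filter_subset _ _)).trans h8
  calc pr W (fun S => FSat S f ∧ ¬ CSat S p)
      ≤ pr W (fun S => ∀ c ∈ M p, CSat S (rs V c)) := by
        refine h1.2.2.1 W _ _ ?_
        rintro S - ⟨h7, h8⟩ c hc
        obtain ⟨l, hl, hl'⟩ := h7 c (h4 c hc).1
        by_cases hV : l.1 ∈ V
        · exact absurd ⟨l, by rw [← (h4 c hc).2.1]; exact Finset.mem_filter.2 ⟨hl, hV⟩, hl'⟩ h8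
        · exact ⟨l, Finset.mem_filter.2 ⟨hl, hV⟩, hl'⟩
    _ = (1 - (1 / 2) ^ (j + 1)) ^ (M p).card := h6
    _ ≤ (1 - (1 / 2 : ℚ) ^ (j + 1)) ^ N := pow_le_pow_of_le_one h0 h3 hN

end Pool.Agent.AK
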