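import Pool.Agent.AK.StG

set_option autoImplicit false

/-!
# AK, G12: the step of the gap lemma
-/

namespace Pool.Agent.AK

lemma G12_cls {V : Finset Name} {j : ℕ} {f : Finset (Finset Lit)} {p c : Finset Lit} :
    c ∈ Cls V j f p ↔ c ∈ f ∧ tc V c = p ∧ (rs V c).card = j + 1 := by
  rw [Cls, Finset.mem_filter]

lemma G12_trs {V : Finset Name} {j : ℕ} {f : Finset (Finset Lit)} {p : Finset Lit} :
    p ∈ Trs V j f ↔ ∃ c ∈ f, (rs V c).card = j + 1 ∧ tc V c = p := by
  rw [Trs, Finset.mem_image]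
  constructor
  · rintro ⟨c, hc, h⟩
    rw [Finset.mem_filter] at hc
    exact ⟨c, hc.1, hc.2, h⟩
  · rintro ⟨c, h1, h2, h3⟩
    exact ⟨c, Finset.mem_filter.2 ⟨h1, h2⟩, h3⟩

lemma G12_tc_sub (V : Finset Name) (c : Finset Lit) : tc V c ⊆ c := Finset.filter_subset _ _

lemma G12_rs_sub (V : Finset Name) (c : Finset Lit) : rs V c ⊆ c := Finset.filter_subset _ _

lemma G12_cv_mono {c d : Finset Lit} (h : c ⊆ d) : cv c ⊆ cv d := Finset.image_subset_image h

lemma G12_ntc {c d : Finset Lit} (h : c ⊆ d) (hd : NtC d) : NtC c :=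
  fun x hx => hd x ⟨h hx.1, h hx.2⟩

lemma G12_csat {c d : Finset Lit} {S : Finset Name} (h : c ⊆ d) (hc : CSat S c) : CSat S d := by
  obtain ⟨l, h1, h2⟩ := hc
  exact ⟨l, h h1, h2⟩

/-- **G12** the step. -/
theorem thm_G12 (h1 : StG01) (h8 : StG08) (h11 : StG11) : StG12 := by
  intro W V k j h f M T hOk hVW hk hres hM hT hcard
  obtain ⟨p0, -, pmono, por, pex, -, -⟩ := h1
  obtain ⟨i, hi, hsplit⟩ := h8 (Trs V j f) (fun p => (M p).card) T h hT hcard
  obtain ⟨Hv, hHv⟩ : ∃ Hv : Finset (Finset Lit), Hv = (Trs V j f).filter fun p =>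
    T (i + 1) < (M p).card := ⟨_, rfl⟩
  obtain ⟨Lt, hLt⟩ : ∃ Lt : Finset (Finset Lit), Lt = (Trs V j f).filter fun p =>
    (M p).card ≤ T i := ⟨_, rfl⟩
  have mHv : ∀ p, p ∈ Hv ↔ p ∈ Trs V j f ∧ T (i + 1) < (M p).card := fun p => by
    rw [hHv, Finset.mem_filter]
  have mLt : ∀ p, p ∈ Lt ↔ p ∈ Trs V j f ∧ (M p).card ≤ T i := fun p => by
    rw [hLt, Finset.mem_filter]
  obtain ⟨V', hV'⟩ : ∃ V' : Finset Name, V' = V ∪ Lt.biUnion fun p => (M p).biUnion fun c =>
    cv (rs V c) := ⟨_, rfl⟩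
  obtain ⟨g, hg⟩ : ∃ g : Finset (Finset Lit), g = (f.filter fun c =>
    ¬ ((rs V c).card = j + 1 ∧ tc V c ∈ Hv)) ∪ Hv := ⟨_, rfl⟩
  have mg : ∀ c, c ∈ g ↔ (c ∈ f ∧ ¬ ((rs V c).card = j + 1 ∧ tc V c ∈ Hv)) ∨ c ∈ Hv := fun c => by
    rw [hg, Finset.mem_union, Finset.mem_filter]
  have hVV' : V ⊆ V' := by
    rw [hV']
    exact Finset.subset_union_left
  have hM1 : ∀ p c, c ∈ M p → c ∈ f ∧ tc V c = p ∧ (rs V c).card = j + 1 := fun p c hc =>
    G12_cls.1 ((hM p).1 hc)
  refine ⟨i, hi, V', g, ?_, ?_, ?_, ?_, ?_, ?_, ?_⟩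
  · rw [hV']
    refine Finset.union_subset hVW ?_
    intro x hx
    rw [Finset.mem_biUnion] at hx
    obtain ⟨p, _, hx⟩ := hx
    rw [Finset.mem_biUnion] at hx
    obtain ⟨c, hc, hx⟩ := hx
    exact (hOk c (hM1 p c hc).1).2 (G12_cv_mono (G12_rs_sub V c) hx)
  · have e1 : (Lt.biUnion fun p => (M p).biUnion fun c => cv (rs V c)).card ≤
        Lt.card * ((j + 1) * T i) := by
      refine Finset.card_biUnion_le_card_mul _ _ _ fun p hp => ?_
      have e2 : ((M p).biUnion fun c => cv (rs V c)).card ≤ (M p).card * (j + 1) := by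
        refine Finset.card_biUnion_le_card_mul _ _ _ fun c hc => ?_
        rw [← (hM1 p c hc).2.2]
        exact Finset.card_image_le
      have e3 : (M p).card * (j + 1) ≤ T i * (j + 1) :=
        Nat.mul_le_mul_right _ ((mLt p).1 hp).2
      rw [mul_comm (j + 1)]
      exact e2.trans e3
    have e4 : Lt.card ≤ (Trs V j f).card := by
      rw [hLt]
      exact Finset.card_filter_le _ _
    rw [hV']
    refine (Finset.card_union_le _ _).trans ?_
    refine Nat.add_le_add_left (e1.trans ?_) _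
    rw [mul_assoc]
    exact Nat.mul_le_mul_right _ e4
  · intro c hc
    rcases (mg c).1 hc with h2 | h2
    · exact hOk c h2.1
    · obtain ⟨d, hd, _, rfl⟩ := G12_trs.1 ((mHv c).1 h2).1
      exact ⟨G12_ntc (G12_tc_sub V d) (hOk d hd).1,
        (G12_cv_mono (G12_tc_sub V d)).trans (hOk d hd).2⟩
  · intro c hc
    rcases (mg c).1 hc with h2 | h2
    · exact hk c h2.1
    · obtain ⟨d, hd, _, rfl⟩ := G12_trs.1 ((mHv c).1 h2).1
      exact (Finset.card_le_card (G12_tc_sub V d)).trans (hk d hd)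
  · intro c hc
    have hsub : rs V' c ⊆ rs V c := by
      intro l hl
      rw [rs, Finset.mem_filter] at hl ⊢
      exact ⟨hl.1, fun h3 => hl.2 (hVV' h3)⟩
    rcases (mg c).1 hc with h2 | h2
    · rcases Nat.lt_or_ge j (rs V c).card with h3 | h3
      · have h4 : (rs V c).card = j + 1 := le_antisymm (hres c h2.1) h3
        have h5 : tc V c ∈ Trs V j f := G12_trs.2 ⟨c, h2.1, h4, rfl⟩
        have h6 : (M (tc V c)).card ≤ T i := by
          rcases hsplit _ h5 with h6 | h6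
          · exact h6
          · exact absurd ⟨h4, (mHv _).2 ⟨h5, h6⟩⟩ h2.2
        obtain ⟨d, hd, hdis⟩ := (hM (tc V c)).2.2 c (G12_cls.2 ⟨h2.1, rfl, h4⟩)
        rw [Finset.not_disjoint_iff] at hdis
        obtain ⟨x, hx1, hx2⟩ := hdis
        have hxV : x ∈ V' := by
          rw [hV']
          refine Finset.mem_union_right _ ?_
          rw [Finset.mem_biUnion]
          refine ⟨tc V c, (mLt _).2 ⟨h5, h6⟩, ?_⟩
          rw [Finset.mem_biUnion]
          exact ⟨d, hd, hx2⟩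
        rw [cv, Finset.mem_image] at hx1
        obtain ⟨l, hl, hlx⟩ := hx1
        have h7 : rs V' c ⊂ rs V c := by
          refine (Finset.ssubset_iff_of_subset hsub).2 ⟨l, hl, ?_⟩
          intro h8
          rw [rs, Finset.mem_filter, hlx] at h8
          exact h8.2 hxV
        have h8 := Finset.card_lt_card h7
        omega
      · exact (Finset.card_le_card hsub).trans h3
    · obtain ⟨d, hd, _, rfl⟩ := G12_trs.1 ((mHv c).1 h2).1
      have h3 : rs V' (tc V d) = ∅ := by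
        rw [Finset.eq_empty_iff_forall_notMem]
        intro l hl
        rw [rs, Finset.mem_filter, tc, Finset.mem_filter] at hl
        exact hl.2 (hVV' hl.1.2)
      rw [h3, Finset.card_empty]
      exact Nat.zero_le _
  · refine pmono W _ _ fun S _ hS c hc => ?_
    by_cases h2 : (rs V c).card = j + 1 ∧ tc V c ∈ Hv
    · exact G12_csat (G12_tc_sub V c) (hS _ ((mg _).2 (Or.inr h2.2)))
    · exact hS c ((mg c).2 (Or.inl ⟨hc, h2⟩))
  · have e1 : pr W (fun S => FSat S f) ≤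
        pr W (fun S => FSat S g ∨ ∃ p ∈ Hv, (FSat S f ∧ ¬ CSat S p)) := by
      refine pmono W _ _ fun S _ hS => ?_
      by_cases h2 : ∀ p ∈ Hv, CSat S p
      · left
        intro c hc
        rcases (mg c).1 hc with h3 | h3
        · exact hS c h3.1
        · exact h2 c h3
      · right
        push Not at h2
        obtain ⟨p, hp, h3⟩ := h2
        exact ⟨p, hp, hS, h3⟩
    have e2 := por W (fun S => FSat S g) (fun S => ∃ p ∈ Hv, (FSat S f ∧ ¬ CSat S p))
    have e3 := pex W Hv (fun p S => FSat S f ∧ ¬ CSat S p)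
    have hb : (0 : ℚ) ≤ 1 - (1 / 2 : ℚ) ^ (j + 1) := by
      have h2 : (1 / 2 : ℚ) ^ (j + 1) ≤ 1 := pow_le_one₀ (by norm_num) (by norm_num)
      linarith
    have e4 : ∑ p ∈ Hv, pr W (fun S => FSat S f ∧ ¬ CSat S p) ≤
        Hv.card * (1 - (1 / 2 : ℚ) ^ (j + 1)) ^ T (i + 1) := by
      rw [← nsmul_eq_mul]
      refine Finset.sum_le_card_nsmul _ _ _ fun p hp => ?_
      exact h11 W V j f M hOk hM p _ ((mHv p).1 hp).2.le
    have e5 : (Hv.card : ℚ) ≤ (Trs V j f).card := by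
      rw [hHv]
      exact_mod_cast Finset.card_filter_le _ _
    have e6 : (Hv.card : ℚ) * (1 - (1 / 2 : ℚ) ^ (j + 1)) ^ T (i + 1) ≤
        (Trs V j f).card * (1 - (1 / 2 : ℚ) ^ (j + 1)) ^ T (i + 1) :=
      mul_le_mul_of_nonneg_right e5 (pow_nonneg hb _)
    linarith

end Pool.Agent.AK
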