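import Pool.Agent.AK.StG

set_option autoImplicit false

/-!
# AK, G13: `Hf` is monotone in the last argument
-/

namespace Pool.Agent.AK

/-- **G13** -/
theorem thm_G13 : StG13 := by
  intro k j
  induction j with
  | zero => exact fun S S' h => h
  | succ j ih =>
    intro S S' h
    have hP : (2 * S + 1) ^ k ≤ (2 * S' + 1) ^ k := Nat.pow_le_pow_left (by omega) k
    have hF : ∀ T T' : ℕ, T ≤ T' →
        2 ^ (j + 1) * (Hf k j (S + (2 * S + 1) ^ k * (j + 1) * T) + 1 + (2 * S + 1) ^ k) ≤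
        2 ^ (j + 1) * (Hf k j (S' + (2 * S' + 1) ^ k * (j + 1) * T') + 1 + (2 * S' + 1) ^ k) := by
      intro T T' hT
      have h1 : S + (2 * S + 1) ^ k * (j + 1) * T ≤ S' + (2 * S' + 1) ^ k * (j + 1) * T' :=
        Nat.add_le_add h (Nat.mul_le_mul (Nat.mul_le_mul_right _ hP) hT)
      have h2 := ih h1
      exact Nat.mul_le_mul_left _ (by omega)
    have hF' : ∀ T T' : ℕ, T ≤ T' →
        2 ^ (j + 1) * (Hf k j (S' + (2 * S' + 1) ^ k * (j + 1) * T) + 1 + (2 * S' + 1) ^ k) ≤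
        2 ^ (j + 1) * (Hf k j (S' + (2 * S' + 1) ^ k * (j + 1) * T') + 1 + (2 * S' + 1) ^ k) := by
      intro T T' hT
      have h1 : S' + (2 * S' + 1) ^ k * (j + 1) * T ≤ S' + (2 * S' + 1) ^ k * (j + 1) * T' :=
        Nat.add_le_add_left (Nat.mul_le_mul_left _ hT) _
      have h2 := ih h1
      exact Nat.mul_le_mul_left _ (by omega)
    have hi : ∀ i : ℕ,
        (fun T => 2 ^ (j + 1) * (Hf k j (S + (2 * S + 1) ^ k * (j + 1) * T) + 1 +
          (2 * S + 1) ^ k))^[i] 0 ≤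
        (fun T => 2 ^ (j + 1) * (Hf k j (S' + (2 * S' + 1) ^ k * (j + 1) * T) + 1 +
          (2 * S' + 1) ^ k))^[i] 0 := by
      intro i
      induction i with
      | zero => exact le_refl _
      | succ i ihi =>
        rw [Function.iterate_succ_apply', Function.iterate_succ_apply']
        exact hF _ _ ihi
    have hm := Monotone.monotone_iterate_of_le_map (f := fun T => 2 ^ (j + 1) *
      (Hf k j (S' + (2 * S' + 1) ^ k * (j + 1) * T) + 1 + (2 * S' + 1) ^ k)) (x := 0)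
      (fun T T' hT => hF' T T' hT) (Nat.zero_le _)
    change (fun T => 2 ^ (j + 1) * (Hf k j (S + (2 * S + 1) ^ k * (j + 1) * T) + 1 +
          (2 * S + 1) ^ k))^[(2 * S + 1) ^ k + 1] 0 ≤
        (fun T => 2 ^ (j + 1) * (Hf k j (S' + (2 * S' + 1) ^ k * (j + 1) * T) + 1 +
          (2 * S' + 1) ^ k))^[(2 * S' + 1) ^ k + 1] 0
    exact (hi _).trans (hm (Nat.succ_le_succ hP))

end Pool.Agent.AK
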