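import Pool.Agent.AK.StG

set_option autoImplicit false

/-! # AK, module G14: one application of the step -/

namespace Pool.Agent.AK

theorem thm_G14 (h6 : StG06) : StG14 := by
  intro θ x y a n q j T hyx hxθ hgap hx hnq hT
  have h1 : y ≤ θ - 1 / 2 ^ a := hgap (lt_of_le_of_lt hyx hxθ)
  have h2 : (1 - (1 / 2 : ℚ) ^ (j + 1)) ^ T ≤ (1 / 2) ^ (a + 1 + q) := h6 (j + 1) (a + 1 + q) T hT
  have h3 : (n : ℚ) ≤ 2 ^ q := by
    have : n ≤ 2 ^ q := hnq.trans Nat.lt_two_pow_self.le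
    exact_mod_cast this
  have h4 : (n : ℚ) * (1 - (1 / 2 : ℚ) ^ (j + 1)) ^ T ≤ 1 / 2 ^ (a + 1) := by
    calc (n : ℚ) * (1 - (1 / 2 : ℚ) ^ (j + 1)) ^ T ≤ n * (1 / 2) ^ (a + 1 + q) :=
          mul_le_mul_of_nonneg_left h2 (Nat.cast_nonneg _)
      _ ≤ 2 ^ q * (1 / 2) ^ (a + 1 + q) := mul_le_mul_of_nonneg_right h3 (by positivity)
      _ = 1 / 2 ^ (a + 1) := by
          rw [pow_add, one_div, inv_pow, inv_pow, one_div]
          field_simp
  have h5 : (1 : ℚ) / 2 ^ a = 1 / 2 ^ (a + 1) + 1 / 2 ^ (a + 1) := by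
    rw [pow_succ]
    field_simp
    norm_num
  linarith

end Pool.Agent.AK
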