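import Pool.Agent.AK.StG

set_option autoImplicit false

/-!
# AK, module G15: the gap lemma below the top level
-/

namespace Pool.Agent.AK

theorem G15_dep (V : Finset Name) (f : Finset (Finset Lit))
    (hf : ∀ c ∈ f, (rs V c).card ≤ 0) : DepOn (fun S => FSat S f) V := by
  intro S
  have hl : ∀ c ∈ f, ∀ l ∈ c, l.1 ∈ V := by
    intro c hc l hl
    by_contra h
    have h1 : rs V c = ∅ := Finset.card_eq_zero.1 (Nat.le_zero.1 (hf c hc))
    have h2 : l ∈ rs V c := Finset.mem_filter.2 ⟨hl, h⟩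
    rw [h1] at h2
    exact Finset.notMem_empty _ h2
  have hs : ∀ c ∈ f, (CSat S c ↔ CSat (S ∩ V) c) := by
    intro c hc
    unfold CSat
    constructor
    · rintro ⟨l, h1, h2⟩
      refine ⟨l, h1, ?_⟩
      rw [Finset.mem_inter, ← h2]
      exact ⟨fun h => h.1, fun h => ⟨h, hl c hc l h1⟩⟩
    · rintro ⟨l, h1, h2⟩
      refine ⟨l, h1, ?_⟩
      rw [Finset.mem_inter] at h2
      rw [← h2]
      exact ⟨fun h => ⟨h, hl c hc l h1⟩, fun h => h.1⟩
  show FSat S f ↔ FSat (S ∩ V) f
  unfold FSat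
  exact ⟨fun h c hc => (hs c hc).1 (h c hc), fun h c hc => (hs c hc).2 (h c hc)⟩

theorem thm_G15 (h07 : StG07) (h09 : StG09) (h10 : StG10) (h12 : StG12) (h13 : StG13)
    (h14 : StG14) : StG15 := by
  intro k j W V s t m f
  induction j generalizing V s f with
  | zero =>
    intro _ hV _ hr hs ht hp
    exact h07 W V _ s t m (G15_dep V f hr) hV hs ht hp
  | succ j ih =>
    intro hOk hV hk hr hs ht hp
    obtain ⟨M, hM⟩ := h10 V j f
    have hn : (Trs V j f).card ≤ (2 * s + 1) ^ k := by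
      have h1 := h09 V k (Trs V j f) (by
        intro p hpp
        obtain ⟨c, hc, rfl⟩ := Finset.mem_image.1 hpp
        have hcf := (Finset.mem_filter.1 hc).1
        refine ⟨?_, le_trans (Finset.card_filter_le _ _) (hk c hcf)⟩
        intro x hx
        obtain ⟨l, hl, rfl⟩ := Finset.mem_image.1 hx
        exact (Finset.mem_filter.1 hl).2)
      exact le_trans h1 (Nat.pow_le_pow_left (by omega) k)
    set P : ℕ := (2 * s + 1) ^ k with hP
    let F : ℕ → ℕ := fun T => 2 ^ (j + 1) * (Hf k j (s + P * (j + 1) * T) + 1 + P)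
    have hF : Monotone F := by
      intro a b hab
      show 2 ^ (j + 1) * (Hf k j (s + P * (j + 1) * a) + 1 + P) ≤
        2 ^ (j + 1) * (Hf k j (s + P * (j + 1) * b) + 1 + P)
      have h1 : s + P * (j + 1) * a ≤ s + P * (j + 1) * b :=
        Nat.add_le_add_left (Nat.mul_le_mul_left _ hab) _
      have h2 := h13 k j h1
      exact Nat.mul_le_mul_left _ (by omega)
    have hT : Monotone (fun i => F^[i] 0) := hF.monotone_iterate_of_le_map (Nat.zero_le _)
    have hH : Hf k (j + 1) s = F^[P + 1] 0 := rfl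
    obtain ⟨i, hi, V', g, hV', hVc, hOk', hk', hr', hle, hge⟩ :=
      h12 W V k j P f M (fun i => F^[i] 0) hOk hV hk hr hM hT
        (le_trans (Finset.card_filter_le _ _) hn)
    have hs' : V'.card ≤ s + P * (j + 1) * F^[i] 0 := by
      refine le_trans hVc (Nat.add_le_add hs ?_)
      exact Nat.mul_le_mul_right _ (Nat.mul_le_mul_right _ hn)
    have hstep : F^[i + 1] 0 =
        2 ^ (j + 1) * (Hf k j (s + P * (j + 1) * F^[i] 0) + 1 + P) := by
      rw [Function.iterate_succ_apply']
    have h1 := h14 ((m : ℚ) / 2 ^ t) (pr W fun S => FSat S f) (pr W fun S => FSat S g)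
      (Hf k j (s + P * (j + 1) * F^[i] 0)) (Trs V j f).card P j (F^[i + 1] 0) hle hp
      (ih V' (s + P * (j + 1) * F^[i] 0) g hOk' hV' hk' hr' hs'
        (le_trans ht (Nat.le_add_right _ _))) hge hn hstep.ge
    refine le_trans h1 (sub_le_sub_left ?_ _)
    have h2 : Hf k j (s + P * (j + 1) * F^[i] 0) + 1 ≤ Hf k (j + 1) s := by
      rw [hH]
      refine le_trans ?_ (hT (Nat.add_le_add_right hi 1))
      show _ ≤ F^[i + 1] 0
      rw [hstep]
      calc Hf k j (s + P * (j + 1) * F^[i] 0) + 1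
          ≤ 1 * (Hf k j (s + P * (j + 1) * F^[i] 0) + 1 + P) := by omega
        _ ≤ _ := Nat.mul_le_mul_right _ Nat.one_le_two_pow
    exact one_div_le_one_div_of_le (by positivity) (pow_le_pow_right₀ (by norm_num) h2)

end Pool.Agent.AK
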