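import Pool.Agent.AK.StG

set_option autoImplicit false

/-!
# AK, module G16: few heavy traces at the top level
-/

namespace Pool.Agent.AK

private theorem G16_num (t : ℕ) : ((t : ℚ) + 2) * (1 / 2) ^ (2 * t + 4) ≤ (1 / 2) ^ (t + 2) := by
  have h : ((t : ℚ) + 2) ≤ 2 ^ (t + 2) := by
    have := (Nat.lt_two_pow_self (n := t + 2)).le
    exact_mod_cast this
  have e : ((1 : ℚ) / 2) ^ (2 * t + 4) = (1 / 2) ^ (t + 2) * (1 / 2) ^ (t + 2) := by
    rw [← pow_add]
    congr 1
    ring
  have e2 : (2 : ℚ) ^ (t + 2) * (1 / 2) ^ (t + 2) = 1 := by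
    rw [← mul_pow]
    norm_num
  have hp : (0 : ℚ) < (1 / 2) ^ (t + 2) := by positivity
  calc ((t : ℚ) + 2) * (1 / 2) ^ (2 * t + 4) ≤ 2 ^ (t + 2) * (1 / 2) ^ (2 * t + 4) :=
        mul_le_mul_of_nonneg_right h (by positivity)
    _ = (2 ^ (t + 2) * (1 / 2) ^ (t + 2)) * (1 / 2) ^ (t + 2) := by rw [e]; ring
    _ = (1 / 2) ^ (t + 2) := by rw [e2, one_mul]

private theorem G16_trace {V : Finset Name} {j : ℕ} {f : Finset (Finset Lit)} {W : Finset Name}
    (hOk : Ok W f) (hk : ∀ c ∈ f, c.card ≤ j + 2) {p : Finset Lit} (hp : p ∈ Trs V j f) :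
    p.card ≤ 1 ∧ cv p ⊆ W := by
  unfold Trs at hp
  rw [Finset.mem_image] at hp
  obtain ⟨c, hc, rfl⟩ := hp
  rw [Finset.mem_filter] at hc
  have hsum : (tc V c).card + (rs V c).card = c.card := by
    unfold tc rs
    exact Finset.card_filter_add_card_filter_not (s := c) (fun l : Lit => l.1 ∈ V)
  have h2 := hk c hc.1
  have h3 := hc.2
  refine ⟨by omega, ?_⟩
  refine subset_trans ?_ (hOk c hc.1).2
  unfold cv
  exact Finset.image_subset_image (Finset.filter_subset _ _)

theorem thm_G16 : StG01 → StG03 → StG06 → StG11 → StG16 := by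
  intro h1 h3 h6 h11 W V j t f M hOk hVW hk hM
  obtain ⟨h1a, h1b, h1c, h1d, h1e, h1f, h1g⟩ := h1
  by_cases hcard : ((Trs V j f).filter fun p => 2 ^ (j + 1) * (2 * t + 4) < (M p).card).card ≤ t + 1
  · exact Or.inr hcard
  left
  rw [not_le] at hcard
  obtain ⟨T, hT, hTc⟩ := Finset.exists_subset_card_eq (show t + 2 ≤ _ from hcard)
  have hδ : (1 - (1 / 2 : ℚ) ^ (j + 1)) ^ (2 ^ (j + 1) * (2 * t + 4)) ≤ (1 / 2) ^ (2 * t + 4) :=
    h6 (j + 1) (2 * t + 4) _ le_rfl
  have hP : ∀ p ∈ T, pr W (fun S => FSat S f ∧ ¬ CSat S p) ≤ (1 / 2) ^ (2 * t + 4) := by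
    intro p hp
    have hq := (Finset.mem_filter.1 (hT hp)).2
    exact (h11 W V j f M hOk hM p _ hq.le).trans hδ
  have hTr : ∀ p ∈ T, p.card ≤ 1 ∧ cv p ⊆ W := fun p hp =>
    G16_trace hOk hk (Finset.mem_filter.1 (hT hp)).1
  have hfin : ((1 : ℚ) / 2) ^ (t + 1) = 1 / 2 ^ (t + 1) := by
    rw [div_pow, one_pow]
  rw [← hfin]
  by_cases hE : ∅ ∈ T
  · have a1 : pr W (fun S => FSat S f) ≤ pr W (fun S => FSat S f ∧ ¬ CSat S ∅) := by
      apply h1c
      intro S hS hf
      refine ⟨hf, ?_⟩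
      rintro ⟨l, hl, -⟩
      exact absurd hl (Finset.notMem_empty l)
    refine a1.trans ((hP ∅ hE).trans ?_)
    exact pow_le_pow_of_le_one (by norm_num) (by norm_num) (by omega)
  · have h1card : ∀ p ∈ T, p.card = 1 := by
      intro p hp
      have a := (hTr p hp).1
      have b : 0 < p.card := by
        rw [Finset.card_pos, Finset.nonempty_iff_ne_empty]
        rintro rfl
        exact hE hp
      omega
    have hLc : (T.biUnion id).card = t + 2 := by
      rw [Finset.card_biUnion]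
      · rw [← hTc, Finset.card_eq_sum_ones]
        exact Finset.sum_congr rfl fun p hp => h1card p hp
      · intro p hp q hq hpq
        obtain ⟨l, rfl⟩ := Finset.card_eq_one.1 (h1card p hp)
        obtain ⟨l', rfl⟩ := Finset.card_eq_one.1 (h1card q hq)
        show Disjoint ({l} : Finset Lit) {l'}
        rw [Finset.disjoint_singleton]
        rintro rfl
        exact hpq rfl
    have hcv : cv (T.biUnion id) ⊆ W := by
      intro x hx
      unfold cv at hx
      rw [Finset.mem_image] at hx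
      obtain ⟨l, hl, rfl⟩ := hx
      rw [Finset.mem_biUnion] at hl
      obtain ⟨p, hp, hlp⟩ := hl
      exact (hTr p hp).2 (Finset.mem_image.2 ⟨l, hlp, rfl⟩)
    have b1 : pr W (fun S => ∀ l ∈ T.biUnion id, (l.1 ∈ S ↔ l.2 = true)) ≤ (1 / 2) ^ (t + 2) := by
      by_cases hN : NtC (T.biUnion id)
      · rw [h3 W _ hN hcv, hLc]
      · have hx : ∃ x : Name, (x, true) ∈ T.biUnion id ∧ (x, false) ∈ T.biUnion id := by
          unfold NtC at hN
          by_contra hcon
          apply hN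
          intro x hx
          exact hcon ⟨x, hx⟩
        obtain ⟨x, hx1, hx2⟩ := hx
        have c1 : pr W (fun S => ∀ l ∈ T.biUnion id, (l.1 ∈ S ↔ l.2 = true)) ≤
            pr W (fun _ => ¬ True) := by
          apply h1c
          intro S hS hl hT'
          have e1 := (hl _ hx1).2 rfl
          have e2 := (hl _ hx2).1 e1
          exact absurd e2 (by simp)
        rw [h1f, h1g] at c1
        refine c1.trans ?_
        have : (0 : ℚ) ≤ (1 / 2) ^ (t + 2) := by positivity
        linarith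
    have b2 : pr W (fun S => ∃ p ∈ T, FSat S f ∧ ¬ CSat S p) ≤ (1 / 2) ^ (t + 2) := by
      refine (h1e W T (fun p S => FSat S f ∧ ¬ CSat S p)).trans ?_
      refine (Finset.sum_le_card_nsmul T _ _ hP).trans ?_
      rw [hTc, nsmul_eq_mul]
      push_cast
      exact G16_num t
    have b3 : pr W (fun S => FSat S f) ≤
        pr W (fun S => (∀ l ∈ T.biUnion id, (l.1 ∈ S ↔ l.2 = true)) ∨
          ∃ p ∈ T, FSat S f ∧ ¬ CSat S p) := by
      apply h1c
      intro S hS hf
      by_cases hcc : ∃ p ∈ T, FSat S f ∧ ¬ CSat S p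
      · exact Or.inr hcc
      · left
        intro l hl
        rw [Finset.mem_biUnion] at hl
        obtain ⟨p, hp, hlp⟩ := hl
        have hs : CSat S p := by
          by_contra hns
          exact hcc ⟨p, hp, hf, hns⟩
        obtain ⟨l', rfl⟩ := Finset.card_eq_one.1 (h1card p hp)
        obtain ⟨m, hm, hm2⟩ := hs
        have em : m = l' := Finset.mem_singleton.1 hm
        have el : l = l' := Finset.mem_singleton.1 hlp
        rw [el, ← em]
        exact hm2
    refine b3.trans ((h1d W _ _).trans ?_)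
    have e : ((1 : ℚ) / 2) ^ (t + 1) = (1 / 2) ^ (t + 2) + (1 / 2) ^ (t + 2) := by
      rw [pow_succ (1 / 2 : ℚ) (t + 1)]
      ring
    rw [e]
    exact add_le_add b1 b2

end Pool.Agent.AK
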