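import Pool.Agent.AK.StG

set_option autoImplicit false

/-!
# AK, module G17: a hitting set at the top level
-/

namespace Pool.Agent.AK

theorem thm_G17 : StG01 → StG05 → StG06 → StG17 := by
  classical
  intro h1 h5 h6 W k t f hk1 hOk hk
  obtain ⟨-, -, h1c, -, -, -, -⟩ := h1
  have hne : (f.powerset.filter fun N : Finset (Finset Lit) =>
      (∀ c ∈ N, c.card = k) ∧ ∀ c ∈ N, ∀ d ∈ N, c ≠ d → Disjoint (cv c) (cv d)).Nonempty := by
    refine ⟨∅, ?_⟩
    rw [Finset.mem_filter]
    exact ⟨Finset.empty_mem_powerset f, fun c hc => absurd hc (Finset.notMem_empty c),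
      fun c hc => absurd hc (Finset.notMem_empty c)⟩
  obtain ⟨N, hN, hmax⟩ := Finset.exists_max_image _ (fun N => N.card) hne
  rw [Finset.mem_filter, Finset.mem_powerset] at hN
  obtain ⟨hNf, hNk, hNd⟩ := hN
  by_cases hbig : 2 ^ k * (t + 1) ≤ N.card
  · left
    have a1 : pr W (fun S => FSat S f) ≤ pr W (fun S => ∀ c ∈ N, CSat S (id c)) := by
      apply h1c
      intro S hS hf c hc
      exact hf c (hNf hc)
    have a2 := h5 W k N id (fun c hc => ⟨(hOk c (hNf hc)).1, (hOk c (hNf hc)).2, hNk c hc⟩) hNd
    have a3 := h6 k (t + 1) N.card hbig
    rw [a2] at a1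
    refine a1.trans (a3.trans (le_of_eq ?_))
    rw [div_pow, one_pow]
  · right
    refine ⟨N.biUnion cv, ?_, ?_, ?_⟩
    · intro x hx
      rw [Finset.mem_biUnion] at hx
      obtain ⟨c, hc, hxc⟩ := hx
      exact (hOk c (hNf hc)).2 hxc
    · have b1 : (N.biUnion cv).card ≤ N.card * k := by
        apply Finset.card_biUnion_le_card_mul
        intro c hc
        rw [← hNk c hc]
        exact Finset.card_image_le
      unfold S0
      calc (N.biUnion cv).card ≤ N.card * k := b1
        _ ≤ (2 ^ k * (t + 1)) * k := Nat.mul_le_mul_right k (not_le.1 hbig).le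
        _ = k * (2 ^ k * (t + 1)) := by ring
    · intro c hc
      have hsub : rs (N.biUnion cv) c ⊆ c := Finset.filter_subset _ _
      rcases Nat.lt_or_ge c.card k with hlt | hge
      · have := Finset.card_le_card hsub
        omega
      · have hck : c.card = k := le_antisymm (hk c hc) hge
        have hex : ∃ l ∈ c, l.1 ∈ N.biUnion cv := by
          by_contra hcon
          have hno : ∀ l ∈ c, l.1 ∉ N.biUnion cv := fun l hl hl' => hcon ⟨l, hl, hl'⟩
          have hdis : ∀ d ∈ N, Disjoint (cv c) (cv d) := by
            intro d hd
            rw [Finset.disjoint_left]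
            intro x hx hxd
            obtain ⟨l, hl, rfl⟩ := Finset.mem_image.1 hx
            exact hno l hl (Finset.mem_biUnion.2 ⟨d, hd, hxd⟩)
          have hcN : c ∉ N := by
            intro hcN
            have hpos : 0 < c.card := by omega
            obtain ⟨l, hl⟩ := Finset.card_pos.1 hpos
            exact hno l hl (Finset.mem_biUnion.2 ⟨c, hcN, Finset.mem_image.2 ⟨l, hl, rfl⟩⟩)
          have hmem : insert c N ∈ f.powerset.filter fun N : Finset (Finset Lit) =>
              (∀ c ∈ N, c.card = k) ∧ ∀ c ∈ N, ∀ d ∈ N, c ≠ d → Disjoint (cv c) (cv d) := by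
            rw [Finset.mem_filter, Finset.mem_powerset]
            refine ⟨Finset.insert_subset hc hNf, ?_, ?_⟩
            · intro d hd
              rcases Finset.mem_insert.1 hd with rfl | hd
              · exact hck
              · exact hNk d hd
            · intro d hd e he hde
              rcases Finset.mem_insert.1 hd with hd1 | hd1
              · rcases Finset.mem_insert.1 he with he1 | he1
                · exact absurd (hd1.trans he1.symm) hde
                · rw [hd1]
                  exact hdis e he1
              · rcases Finset.mem_insert.1 he with he1 | he1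
                · rw [he1]
                  exact (hdis d hd1).symm
                · exact hNd d hd1 e he1 hde
          have h := hmax _ hmem
          rw [Finset.card_insert_of_notMem hcN] at h
          omega
        obtain ⟨l, hl, hlV⟩ := hex
        have hsub2 : rs (N.biUnion cv) c ⊆ c.erase l := by
          intro m hm
          unfold rs at hm
          rw [Finset.mem_filter] at hm
          rw [Finset.mem_erase]
          refine ⟨?_, hm.1⟩
          rintro rfl
          exact hm.2 hlV
        have := Finset.card_le_card hsub2
        rw [Finset.card_erase_of_mem hl, hck] at this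
        exact this

end Pool.Agent.AK
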