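import Pool.Agent.AK.StG

set_option autoImplicit false

/-!
# AK, module G18: the gap lemma for finite formulas
-/

namespace Pool.Agent.AK

theorem thm_G18 (h1 : StG01) (h9 : StG09) (h10 : StG10) (h12 : StG12) (h13 : StG13)
    (h14 : StG14) (h15 : StG15) (h16 : StG16) (h17 : StG17) : StG18 := by
  intro W k t m f hk hf hc hlt
  obtain ⟨j, rfl⟩ : ∃ j, k = j + 2 := ⟨k - 2, by omega⟩
  set s := S0 (j + 2) t with hs
  have hs1 : 8 * (t + 1) ≤ s := by
    have e1 : 2 ≤ j + 2 := by omega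
    have e2 : 2 ^ 2 ≤ 2 ^ (j + 2) := Nat.pow_le_pow_right (by norm_num) e1
    have e3 : 2 ^ 2 * (t + 1) ≤ 2 ^ (j + 2) * (t + 1) := Nat.mul_le_mul_right _ e2
    have e4 : 2 * (2 ^ 2 * (t + 1)) ≤ (j + 2) * (2 ^ (j + 2) * (t + 1)) := Nat.mul_le_mul e1 e3
    calc 8 * (t + 1) = 2 * (2 ^ 2 * (t + 1)) := by ring
      _ ≤ _ := e4
  set T0 := 2 ^ (j + 1) * (2 * t + 4) with hT0
  -- the scales
  set T : ℕ → ℕ := fun i => (Ft (j + 2) t)^[i] T0 with hT
  have hFt : ∀ x, Ft (j + 2) t x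
      = 2 ^ (j + 1) * (Hf (j + 2) j (s + (2 * s + 1) * (j + 1) * x) + 1 + (2 * s + 1)) :=
    fun x => rfl
  have hmono : Monotone (Ft (j + 2) t) := by
    intro x y hxy
    rw [hFt, hFt]
    have e1 : s + (2 * s + 1) * (j + 1) * x ≤ s + (2 * s + 1) * (j + 1) * y :=
      Nat.add_le_add_left (Nat.mul_le_mul_left _ hxy) _
    exact Nat.mul_le_mul_left _ (Nat.add_le_add_right (Nat.add_le_add_right (h13 _ _ e1) _) _)
  have hT0le : T0 ≤ Ft (j + 2) t T0 := by
    rw [hFt]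
    exact Nat.mul_le_mul_left _ (by omega)
  have hTmono : Monotone T := hmono.monotone_iterate_of_le_map hT0le
  have hTsucc : ∀ i, T (i + 1) = Ft (j + 2) t (T i) := fun i =>
    Function.iterate_succ_apply' _ _ _
  have hH : H (j + 2) t = T (t + 2) := rfl
  have hT00 : T 0 = T0 := rfl
  have hpos : (0 : ℚ) ≤ pr W (fun S => FSat S f) := h1.1 _ _
  -- a small probability
  have hsmall : pr W (fun S => FSat S f) ≤ 1 / 2 ^ (t + 1) →
      pr W (fun S => FSat S f) ≤ (m : ℚ) / 2 ^ t - 1 / 2 ^ (H (j + 2) t) := by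
    intro h
    have hm : 1 ≤ m := by
      rcases Nat.eq_zero_or_pos m with h0 | h0
      · subst h0
        rw [Nat.cast_zero, zero_div] at hlt
        exact absurd hlt (not_lt.mpr hpos)
      · exact h0
    have hm' : (1 : ℚ) ≤ m := by exact_mod_cast hm
    have e1 : t + 1 ≤ H (j + 2) t := by
      rw [hH]
      have e2 : T0 ≤ T (t + 2) := hTmono (Nat.zero_le _)
      have e3 : 1 * (2 * t + 4) ≤ 2 ^ (j + 1) * (2 * t + 4) :=
        Nat.mul_le_mul_right _ (Nat.one_le_two_pow)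
      omega
    have e2 : (1 : ℚ) / 2 ^ (H (j + 2) t) ≤ 1 / 2 ^ (t + 1) :=
      one_div_le_one_div_of_le (by positivity) (pow_le_pow_right₀ (by norm_num) e1)
    have e3 : (1 : ℚ) / 2 ^ t ≤ (m : ℚ) / 2 ^ t := by
      gcongr
    have e4 : (1 : ℚ) / 2 ^ t = 1 / 2 ^ (t + 1) + 1 / 2 ^ (t + 1) := by
      rw [pow_succ]
      field_simp
      norm_num
    linarith
  rcases h17 W (j + 2) t f (by omega) hf hc with h | ⟨V, hVW, hVs, hVr⟩
  · exact hsmall h
  obtain ⟨M, hM⟩ := h10 V j f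
  rcases h16 W V j t f M hf hVW hc hM with h | h
  · exact hsmall h
  -- the number of traces
  have hn : (Trs V j f).card ≤ 2 * s + 1 := by
    have e1 : (Trs V j f).card ≤ (2 * V.card + 1) ^ 1 := by
      refine h9 V 1 _ ?_
      intro p hp
      obtain ⟨c, hc1, rfl⟩ := Finset.mem_image.mp hp
      obtain ⟨hc2, hc3⟩ := Finset.mem_filter.mp hc1
      constructor
      · intro x hx
        obtain ⟨l, hl, rfl⟩ := Finset.mem_image.mp hx
        exact (Finset.mem_filter.mp hl).2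
      · have e2 : (tc V c).card + (rs V c).card = c.card :=
          Finset.card_filter_add_card_filter_not (s := c) (fun l => l.1 ∈ V)
        have e3 := hc c hc2
        omega
    rw [pow_one] at e1
    omega
  obtain ⟨i, hi, V', g, hV', hV'c, hg, hgc, hgr, hle, hle2⟩ :=
    h12 W V (j + 2) j (t + 1) f M T hf hVW hc (fun c hc' => hVr c hc') hM hTmono h
  set s' := s + (2 * s + 1) * (j + 1) * T i with hs'
  have hV's : V'.card ≤ s' := by
    have e1 : (Trs V j f).card * (j + 1) * T i ≤ (2 * s + 1) * (j + 1) * T i :=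
      Nat.mul_le_mul_right _ (Nat.mul_le_mul_right _ hn)
    omega
  have h15' := h15 (j + 2) j W V' s' t m g hg hV' hgc hgr hV's (by omega)
  have hTi : T (i + 1) = 2 ^ (j + 1) * (Hf (j + 2) j s' + 1 + (2 * s + 1)) := by
    rw [hTsucc, hFt]
  have h14' := h14 ((m : ℚ) / 2 ^ t) _ _ (Hf (j + 2) j s') (Trs V j f).card (2 * s + 1) j
    (T (i + 1)) hle hlt h15' hle2 hn (le_of_eq hTi.symm)
  have e1 : Hf (j + 2) j s' + 1 ≤ H (j + 2) t := by
    rw [hH]
    have e2 : T (i + 1) ≤ T (t + 2) := hTmono (by omega)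
    have e3 : 1 * (Hf (j + 2) j s' + 1 + (2 * s + 1)) ≤
        2 ^ (j + 1) * (Hf (j + 2) j s' + 1 + (2 * s + 1)) :=
      Nat.mul_le_mul_right _ (Nat.one_le_two_pow)
    omega
  have e2 : (1 : ℚ) / 2 ^ (H (j + 2) t) ≤ 1 / 2 ^ (Hf (j + 2) j s' + 1) :=
    one_div_le_one_div_of_le (by positivity) (pow_le_pow_right₀ (by norm_num) e1)
  linarith

end Pool.Agent.AK
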