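import Pool.Agent.AK.StG

set_option autoImplicit false

/-! # AK, module G19: from lists to finite sets -/

namespace Pool.Agent.AK

theorem G19_sat (S : Finset Name) (φ : CNF) : Sat S φ ↔ FSat S (toF φ) := by
  unfold Sat FSat toF CSat
  constructor
  · intro h c hc
    rw [List.mem_toFinset] at hc
    obtain ⟨C, hC, rfl⟩ := List.mem_map.1 hc
    obtain ⟨l, hl, hl2⟩ := h C hC
    exact ⟨l, List.mem_toFinset.2 hl, hl2⟩
  · intro h C hC
    obtain ⟨l, hl, hl2⟩ := h C.toFinset (List.mem_toFinset.2 (List.mem_map.2 ⟨C, hC, rfl⟩))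
    exact ⟨l, List.mem_toFinset.1 hl, hl2⟩

theorem G19_width (φ : CNF) (C : Clause) (hC : C ∈ φ) : C.length ≤ width φ := by
  unfold width
  induction φ with
  | nil => simp at hC
  | cons D φ ih =>
    rw [List.foldr_cons]
    rcases List.mem_cons.1 hC with rfl | h
    · exact le_max_left _ _
    · exact (ih h).trans (le_max_right _ _)

theorem thm_G19 : StG19 := by
  intro φ k hnt hw
  refine ⟨?_, ?_, ?_⟩
  · intro c hc
    unfold toF at hc
    rw [List.mem_toFinset] at hc
    obtain ⟨C, hC, rfl⟩ := List.mem_map.1 hc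
    refine ⟨?_, ?_⟩
    · rintro x ⟨h1, h2⟩
      rw [List.mem_toFinset] at h1 h2
      have h3 := hnt C hC
      have h4 := List.inj_on_of_nodup_map h3 h1 h2 rfl
      simp at h4
    · intro x hx
      unfold cv at hx
      obtain ⟨l, hl, rfl⟩ := Finset.mem_image.1 hx
      rw [List.mem_toFinset] at hl
      unfold vars
      rw [List.mem_toFinset]
      exact List.mem_map.2 ⟨l, List.mem_flatten.2 ⟨C, hC, hl⟩, rfl⟩
  · intro c hc
    unfold toF at hc
    rw [List.mem_toFinset] at hc
    obtain ⟨C, hC, rfl⟩ := List.mem_map.1 hc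
    exact (List.toFinset_card_le C).trans ((G19_width φ C hC).trans hw)
  · unfold dens pr Pr count nv
    have h1 : (vars φ).powerset.filter (fun S => Sat S φ) =
        @Finset.filter _ (fun S => FSat S (toF φ)) (Classical.decPred _) (vars φ).powerset := by
      ext S
      rw [Finset.mem_filter, @Finset.mem_filter _ _ (Classical.decPred _), G19_sat]
    rw [h1]

end Pool.Agent.AK
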