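import Pool.Agent.AK.StG

set_option autoImplicit false

/-! # AK, module Gap: the gap lemma for CNFs -/

namespace Pool.Agent.AK

theorem thm_Gap (h18 : StG18) (h19 : StG19) : StGap := by
  intro k t m φ hk hnt hw hd
  obtain ⟨h1, h2, h3⟩ := h19 φ k hnt hw
  rw [h3] at hd ⊢
  exact h18 (vars φ) k t m (toF φ) hk h1 h2 hd

end Pool.Agent.AK
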