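import Pool.Agent.AK.StG2

set_option autoImplicit false

namespace Pool.Agent.AK

theorem GapM1_log_le_size (n : ℕ) : Nat.log 2 n ≤ Nat.size n := by
  rcases Nat.eq_zero_or_pos n with h | h
  · subst h; simp
  · have h1 : n < 2 ^ Nat.size n := Nat.lt_size_self n
    exact (Nat.log_lt_of_lt_pow h.ne' h1).le

theorem thm_GapM1 : StGap → StGrow1 → StNrm → StGapM1 := by
  intro hG ⟨C1, hC1⟩ hN
  set K : ℕ := (Finset.range (C1 + 1)).sup al with hK
  refine ⟨C1 + K * 2 ^ K * (C1 + 2), fun φ hφ => ?_⟩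
  by_cases hn : nv φ ≤ C1
  · refine ⟨nv φ + 1, ?_, ?_⟩
    · have h1 : al (nv φ) ≤ K := by
        rw [hK]
        exact Finset.le_sup (f := al) (Finset.mem_range.2 (by omega))
      have h2 : max 1 (width φ) ≤ K := by
        have : 1 ≤ K := by omega
        exact max_le this (by omega)
      have h3 : max 1 (width φ) * 2 ^ max 1 (width φ) * (nv φ + 1 + 1) ≤ K * 2 ^ K * (C1 + 2) := by
        apply Nat.mul_le_mul (Nat.mul_le_mul h2 (Nat.pow_le_pow_right (by norm_num) h2))
        omega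
      omega
    · intro hd
      unfold dens at hd ⊢
      have h0 : (0 : ℚ) < 2 ^ nv φ := by positivity
      rw [div_lt_iff₀ h0] at hd
      have h2 : 2 * count φ < 2 ^ nv φ := by
        have : (2 * count φ : ℚ) < 2 ^ nv φ := by linarith
        exact_mod_cast this
      have h3 : 2 * count φ + 1 ≤ 2 ^ nv φ := h2
      have h4 : (2 * count φ : ℚ) + 1 ≤ 2 ^ nv φ := by exact_mod_cast h3
      have h5 : (1 / 2 : ℚ) ^ (nv φ + 1) * 2 ^ nv φ = 1 / 2 := by
        rw [pow_succ, mul_assoc, mul_comm (1 / 2 : ℚ) (2 ^ nv φ), ← mul_assoc, ← mul_pow]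
        norm_num
      rw [div_le_iff₀ h0]
      nlinarith
  · rcases hC1 (nv φ) (width φ) hφ with h | ⟨k, hk3, hw, hb⟩
    · exact absurd h hn
    · refine ⟨H k 1, ?_, ?_⟩
      · have h2 : max 1 (width φ) ≤ k := max_le (by omega) hw
        have h3 : max 1 (width φ) * 2 ^ max 1 (width φ) * (H k 1 + 1) ≤ k * 2 ^ k * (H k 1 + 1) :=
          Nat.mul_le_mul (Nat.mul_le_mul h2 (Nat.pow_le_pow_right (by norm_num) h2)) le_rfl
        have h4 := GapM1_log_le_size (nv φ)
        have h5 : k * 2 ^ k * (H k 1 + 1) = k * (2 ^ k * (H k 1 + 1)) := Nat.mul_assoc _ _ _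
        omega
      · intro hd
        obtain ⟨-, hd', hw', hnt, -⟩ := hN φ
        have := hG k 1 1 (nrm φ) (by omega) hnt (hw'.trans hw) (by rw [hd']; norm_num at hd ⊢; exact hd)
        rw [hd'] at this
        norm_num at this ⊢
        simpa [one_div, inv_pow] using this

end Pool.Agent.AK
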