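import Pool.Agent.AK.StG

set_option autoImplicit false

/-!
# AK, module Grow1 (MP_4ed1f9_lc): the growth inequality for M1
-/

namespace Pool.Agent.AK

private lemma Grow1_num (b k : ℕ) (hk : k ≤ b) (hb : 1 ≤ b) :
    k * (2 ^ k * (b + 1)) ≤ 2 ^ (2 ^ (b + 1) + 1) := by
  obtain ⟨c, rfl⟩ : ∃ c, b = c + 1 := ⟨b - 1, by omega⟩
  have h1 : c < 2 ^ c := Nat.lt_two_pow_self
  have h2 : 3 * (c + 1) ≤ 2 ^ (c + 1 + 1) + 1 := by
    have e : 2 ^ (c + 1 + 1) = 4 * 2 ^ c := by ring
    omega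
  have h3 : c + 1 < 2 ^ (c + 1) := Nat.lt_two_pow_self
  have h4 : 2 ^ k ≤ 2 ^ (c + 1) := Nat.pow_le_pow_right (by norm_num) hk
  have h5 : k ≤ 2 ^ (c + 1) := by omega
  calc k * (2 ^ k * (c + 1 + 1)) ≤ 2 ^ (c + 1) * (2 ^ (c + 1) * 2 ^ (c + 1)) :=
        Nat.mul_le_mul h5 (Nat.mul_le_mul h4 (by omega))
    _ = 2 ^ (3 * (c + 1)) := by ring
    _ ≤ 2 ^ (2 ^ (c + 1 + 1) + 1) := Nat.pow_le_pow_right (by norm_num) h2

theorem thm_Grow1 (h1 : StN01) (h2 : StN02) (h9 : StN09) (_h10 : StN10) (h11 : StN11) :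
    StGrow1 := by
  obtain ⟨hA1, hA2, hA3, hA4, hA5, hA6, hA7, hA8⟩ := h1
  obtain ⟨hI1, hI2, hI3, hI4, hI5, hI6⟩ := h2
  obtain ⟨hB1, hB2, hB3, hB4, hB5, hB6, hB7⟩ := h11
  refine ⟨B 3 3 + ∑ k ∈ Finset.range 16, k * (2 ^ k * (H k 1 + 1)), fun n w hw => ?_⟩
  obtain ⟨h4, hn⟩ := hB5 n
  by_cases hal : al n = 4
  · left
    have e : al n - 1 = 3 := by omega
    rw [e] at hn
    exact Nat.le_add_right_of_le hn
  right
  obtain ⟨k, hk⟩ : ∃ k, k = max w 3 := ⟨_, rfl⟩
  have hk3 : 3 ≤ k := by omega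
  have hwk : w ≤ k := by omega
  have hkal : k + 1 < al n := by omega
  refine ⟨k, hk3, hwk, ?_⟩
  have hBk := hB6 k n hk3 hkal
  rcases Nat.lt_or_ge k 16 with hk16 | hk16
  · have h := Finset.single_le_sum (f := fun k => k * (2 ^ k * (H k 1 + 1)))
      (fun i _ => Nat.zero_le _) (Finset.mem_range.2 hk16)
    omega
  · have hmono := (hB1 k hk3).1
    have hstep : ∀ q, 2 ^ (B k q + 1) ≤ B k (q + 1) := by
      intro q
      have e : B k (q + 1) = A (k - 3) (B k q) := by
        unfold B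
        rw [Function.iterate_succ_apply']
      rw [e]
      exact hA5 _ _
    have hB2' : 2 ^ k ≤ B k 2 := by
      have e0 : B k 1 = k - 1 := by
        unfold B
        rw [Function.iterate_one, hA3]
        omega
      have h := hstep 1
      rw [e0] at h
      have e1 : k - 1 + 1 = k := by omega
      rw [e1] at h
      exact h
    have hkk : k < 2 ^ k := Nat.lt_two_pow_self
    have hH : H k 1 ≤ B k 10 := by
      refine le_trans (h9 k 1 hk3) ?_
      have e : B k 10 = (A (k - 3))^[1 + 7] (B k 2) := by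
        unfold B
        rw [← Function.iterate_add_apply]
      rw [e]
      exact hI3 _ _ (by omega)
    obtain ⟨b, hb⟩ : ∃ b, b = B k (k - 3) := ⟨_, rfl⟩
    have h10b : B k 10 ≤ b := by
      rw [hb]
      exact hmono.monotone (by omega)
    have h2b : B k 2 ≤ b := by
      rw [hb]
      exact hmono.monotone (by omega)
    have e1 : 2 ^ (b + 1) ≤ B k (k - 2) := by
      have h := hstep (k - 3)
      rw [← hb] at h
      have e : k - 3 + 1 = k - 2 := by omega
      rw [e] at h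
      exact h
    have e2 : 2 ^ (2 ^ (b + 1) + 1) ≤ B k (k - 1) := by
      have h := hstep (k - 2)
      have e : k - 2 + 1 = k - 1 := by omega
      rw [e] at h
      exact le_trans (Nat.pow_le_pow_right (by norm_num) (by omega)) h
    have e3 : B k (k - 1) ≤ Nat.log 2 n := by
      have h := hstep (k - 1)
      have e : k - 1 + 1 = k := by omega
      rw [e] at h
      apply Nat.le_log_of_pow_le (by norm_num)
      exact le_trans (Nat.pow_le_pow_right (by norm_num) (Nat.le_succ _)) (le_trans h hBk.le)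
    have e4 := Grow1_num b k (by omega) (by omega)
    have e5 : k * (2 ^ k * (H k 1 + 1)) ≤ k * (2 ^ k * (b + 1)) :=
      Nat.mul_le_mul_left _ (Nat.mul_le_mul_left _ (by omega))
    omega

end Pool.Agent.AK
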