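import Pool.Agent.AK.StG

set_option autoImplicit false

/-!
# AK, GROW2 (helper96)
-/

namespace Pool.Agent.AK

theorem Grow2_pow (h1 : StN01) (j : ℕ) : ∀ i : ℕ, 2 ^ i ≤ (A j)^[i + 1] 0 := by
  obtain ⟨-, -, h3, -, h5, -⟩ := h1
  intro i
  induction i with
  | zero =>
    show 1 ≤ A j 0
    rw [h3]
    omega
  | succ i ih =>
    rw [Function.iterate_succ_apply']
    refine le_trans ?_ (h5 j _)
    refine Nat.pow_le_pow_right (by norm_num) ?_
    have := Nat.lt_two_pow_self (n := i)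
    omega

theorem Grow2_size (x : ℕ) : (Nat.size x) ^ 2 ≤ 4 * x := by
  have hs : ∀ s : ℕ, s ^ 2 ≤ 2 ^ (s + 1) := by
    intro s
    rcases Nat.lt_or_ge s 4 with h | h
    · interval_cases s <;> norm_num
    · have h2 : s ^ 2 ≤ 2 ^ s := by
        induction s, h using Nat.le_induction with
        | base => norm_num
        | succ s hs ih =>
          rw [pow_succ 2 s]
          nlinarith
      refine h2.trans (Nat.pow_le_pow_right (by norm_num) (by omega))
  rcases Nat.eq_zero_or_pos x with h | h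
  · subst h
    simp
  · have h1 : 0 < Nat.size x := Nat.size_pos.2 h
    have h2 : 2 ^ (Nat.size x - 1) ≤ x := by
      by_contra hcon
      rw [not_le] at hcon
      have := Nat.size_le.2 hcon
      omega
    have h3 := hs (Nat.size x)
    have h4 : 2 ^ (Nat.size x + 1) = 4 * 2 ^ (Nat.size x - 1) := by
      obtain ⟨y, hy⟩ : ∃ y, Nat.size x = y + 1 := ⟨Nat.size x - 1, by omega⟩
      rw [hy, Nat.add_sub_cancel]
      ring
    omega

theorem thm_Grow2 (h1 : StN01) (h2 : StN02) (h9 : StN09) (h10 : StN10) (h11 : StN11) : StGrow2 := by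
  intro k hk ε hε
  obtain ⟨hB1, -, hB3, hB4, -⟩ := h11
  obtain ⟨-, -, hmono, -⟩ := h2
  have hk0 : (0 : ℝ) ≤ k := Nat.cast_nonneg k
  obtain ⟨a0, ha0⟩ : ∃ a0 : ℝ, a0 = (2 / ε) * (11 + k + (ε / 2) * k + 2 / ε) := ⟨_, rfl⟩
  have ha00 : 0 < a0 := by
    rw [ha0]
    positivity
  refine ⟨∑ t ∈ Finset.range (⌈a0⌉₊ + 1), k * (2 ^ k * (H k t + 1)), ?_⟩
  intro n t ht
  obtain ⟨a, ha⟩ : ∃ a, a = alk k n := ⟨_, rfl⟩
  rw [← ha] at ht
  have han : a ≤ n := by
    rw [ha]
    exact (hB4 k n hk).2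
  have haR : (0 : ℝ) ≤ a := Nat.cast_nonneg a
  have hta' : (t : ℝ) ≤ a := by nlinarith
  have hta : t ≤ a := by exact_mod_cast hta'
  refine ⟨hta.trans han, ?_⟩
  rcases le_or_gt (a : ℝ) a0 with hle | hgt
  · have h3 : t ≤ ⌈a0⌉₊ := by
      have : (t : ℝ) ≤ ⌈a0⌉₊ := (hta'.trans hle).trans (Nat.le_ceil a0)
      exact_mod_cast this
    have h4 : k * (2 ^ k * (H k t + 1)) ≤
        ∑ t ∈ Finset.range (⌈a0⌉₊ + 1), k * (2 ^ k * (H k t + 1)) :=
      Finset.single_le_sum (f := fun t => k * (2 ^ k * (H k t + 1))) (fun _ _ => Nat.zero_le _)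
        (Finset.mem_range.2 (by omega))
    exact h4.trans (Nat.le_add_left _ _)
  · refine le_trans ?_ (Nat.le_add_right _ _)
    obtain ⟨s, hs⟩ : ∃ s, s = Nat.size (k + t) := ⟨_, rfl⟩
    have hs2 : (s : ℝ) ^ 2 ≤ 4 * (k + t) := by
      have := Grow2_size (k + t)
      rw [← hs] at this
      exact_mod_cast this
    have hs0 : (0 : ℝ) ≤ s := Nat.cast_nonneg s
    have hkey : t + 11 + s + k < a := by
      have h3 : (s : ℝ) ≤ (ε / 2) * (k + a) + 2 / ε := by
        have e1 : (ε / 8) * (s : ℝ) ^ 2 + 2 / ε - s = (ε / 8) * (s - 4 / ε) ^ 2 := by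
          field_simp
          ring
        have e2 : 0 ≤ (ε / 8) * ((s : ℝ) - 4 / ε) ^ 2 := by positivity
        have e3 : (ε / 8) * (s : ℝ) ^ 2 ≤ (ε / 2) * (k + a) := by
          have e4 : (s : ℝ) ^ 2 ≤ 4 * (k + a) := by linarith
          calc (ε / 8) * (s : ℝ) ^ 2 ≤ (ε / 8) * (4 * (k + a)) := by gcongr
            _ = (ε / 2) * (k + a) := by ring
        linarith
      have h4 : 11 + (k : ℝ) + (ε / 2) * k + 2 / ε < (ε / 2) * a := by
        rw [ha0] at hgt
        have : (ε / 2) * ((2 / ε) * (11 + k + (ε / 2) * k + 2 / ε)) < (ε / 2) * a :=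
          mul_lt_mul_of_pos_left hgt (by positivity)
        have e : (ε / 2) * ((2 / ε) * (11 + k + (ε / 2) * k + 2 / ε)) =
            11 + k + (ε / 2) * k + 2 / ε := by
          field_simp
        rwa [e] at this
      have h5 : (t : ℝ) + 11 + s + k < a := by nlinarith
      exact_mod_cast h5
    have hH : H k t ≤ B k (t + 8 + s) := by
      refine (h9 k t hk).trans ?_
      have h3 : k + t ≤ (A (k - 3))^[s + 1] 0 := by
        refine le_trans ?_ (Grow2_pow h1 (k - 3) s)
        rw [hs]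
        exact (Nat.lt_size_self _).le
      refine (hmono (k - 3) (t + 7) h3).trans (le_of_eq ?_)
      have e : t + 7 + (s + 1) = t + 8 + s := by omega
      rw [← Function.iterate_add_apply, B, e]
    refine h10 k (t + 8 + s + k) (H k t) n hk (by omega) ?_ ?_
    · exact hH.trans ((hB1 k hk).1.monotone (by omega))
    · refine hB3 k n _ hk ?_
      rw [← ha]
      omega

end Pool.Agent.AK
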