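import Pool.Agent.AK.StG

/-!
# AK, module N01: basic facts on the Ackermann hierarchy
-/

set_option autoImplicit false

namespace Pool.Agent.AK

/-- the facts for one index -/
private structure N01_F (j : ℕ) : Prop where
  mono : StrictMono (A j)
  lt : ∀ x, x < A j x
  zero : A j 0 = j + 2
  exp : ∀ x, 2 ^ (x + 1) ≤ A j x

private theorem N01_F_iter {j : ℕ} (h : N01_F j) (i : ℕ) : i ≤ (A j)^[i] 0 := by
  induction i with
  | zero => exact Nat.zero_le _
  | succ i ih =>
    rw [Function.iterate_succ_apply']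
    have := h.lt ((A j)^[i] 0)
    omega

private theorem N01_F_le {j : ℕ} (h : N01_F j) (x : ℕ) : A j x ≤ A (j + 1) x := by
  have h1 : A (j + 1) x = x + 1 + A j ((A j)^[x] 0) := by
    show x + 1 + (A j)^[x + 1] 0 = _
    rw [Function.iterate_succ_apply']
  have h2 : A j x ≤ A j ((A j)^[x] 0) := h.mono.monotone (N01_F_iter h x)
  omega

/-- the recursion -/
private theorem N01_rec (j x : ℕ) :
    A (j + 1) (x + 1) = x + 2 + A j (A (j + 1) x - x - 1) := by
  have h1 : A (j + 1) x = x + 1 + (A j)^[x + 1] 0 := rfl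
  have h2 : A (j + 1) (x + 1) = x + 1 + 1 + (A j)^[x + 1 + 1] 0 := rfl
  have h3 : A (j + 1) x - x - 1 = (A j)^[x + 1] 0 := by omega
  rw [h2, h3, Function.iterate_succ_apply']

private theorem N01_pos (j x : ℕ) (h : N01_F j) : x + 1 < A (j + 1) x := by
  have h1 : A (j + 1) x = x + 1 + (A j)^[x + 1] 0 := rfl
  have := N01_F_iter h (x + 1)
  omega

private theorem N01_F_all : ∀ j, N01_F j := by
  intro j
  induction j with
  | zero =>
    have hA : ∀ x, A 0 x = x + 2 ^ (x + 1) := fun _ => rfl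
    refine ⟨strictMono_nat_of_lt_succ fun x => ?_, fun x => ?_, rfl, fun x => ?_⟩
    · rw [hA, hA, pow_succ 2 (x + 1)]
      have := Nat.one_le_two_pow (n := x + 1)
      omega
    · rw [hA]
      have := Nat.one_le_two_pow (n := x + 1)
      omega
    · rw [hA]
      omega
  | succ j ih =>
    refine ⟨strictMono_nat_of_lt_succ fun x => ?_, fun x => ?_, ?_, fun x => ?_⟩
    · rw [N01_rec]
      have h1 := ih.lt (A (j + 1) x - x - 1)
      have h2 := N01_pos j x ih
      omega
    · have h2 := N01_pos j x ih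
      omega
    · show 0 + 1 + (A j)^[0 + 1] 0 = j + 1 + 2
      rw [Function.iterate_succ_apply', Function.iterate_zero_apply, ih.zero]
      omega
    · exact le_trans (ih.exp x) (N01_F_le ih x)

private theorem N01_eight (j x : ℕ) : 2 ^ (A (j + 1) x - x) ≤ A (j + 1) (x + 1) := by
  have h := N01_F_all j
  rw [N01_rec]
  have h1 := h.exp (A (j + 1) x - x - 1)
  have h2 := N01_pos j x h
  have h3 : A (j + 1) x - x - 1 + 1 = A (j + 1) x - x := by omega
  rw [h3] at h1
  omega

private theorem N01_two_pow (x : ℕ) : x + 1 ≤ 2 ^ x := Nat.lt_two_pow_self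

private theorem N01_six (j x : ℕ) : 3 * A j x ≤ 2 * A j (x + 1) := by
  cases j with
  | zero =>
    show 3 * (x + 2 ^ (x + 1)) ≤ 2 * (x + 1 + 2 ^ (x + 1 + 1))
    have h1 := N01_two_pow (x + 1)
    rw [pow_succ 2 (x + 1)]
    omega
  | succ j =>
    have h8 := N01_eight j x
    have h5 := (N01_F_all (j + 1)).exp x
    have hp := N01_pos j x (N01_F_all j)
    have h0 := (N01_F_all (j + 1)).mono.monotone (Nat.zero_le x)
    rw [(N01_F_all (j + 1)).zero] at h0
    obtain ⟨a, ha⟩ : ∃ a, a = A (j + 1) x := ⟨_, rfl⟩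
    rw [← ha] at h8 h5 hp h0 ⊢
    have h1 := N01_two_pow x
    rw [pow_succ] at h5
    -- `2 * (a - x) ≥ a + 2`
    have h2 : a + 2 ≤ 2 * (a - x) := by omega
    have h3 : 3 ≤ a := by omega
    -- `3 a ≤ 2 * 2^(a - x)`
    have h4 : 3 * a ≤ 2 * 2 ^ (a - x) := by
      obtain ⟨d, hd⟩ : ∃ d, d = a - x := ⟨_, rfl⟩
      rw [← hd] at h2 ⊢
      have h6 : a ≤ 2 * d - 2 := by omega
      have h7 : 3 ≤ d := by omega
      have h9 : ∀ d, 3 ≤ d → 3 * (2 * d - 2) ≤ 2 * 2 ^ d := by
        intro d hd
        induction d, hd using Nat.le_induction with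
        | base => norm_num
        | succ d hd ih =>
          rw [pow_succ]
          omega
      have := h9 d h7
      omega
    omega

private theorem N01_seven (j x : ℕ) : 2 * A j x ≤ A j (x + 2) := by
  have h1 := N01_six j x
  have h2 := N01_six j (x + 1)
  have h3 : x + 1 + 1 = x + 2 := rfl
  rw [h3] at h2
  omega

theorem thm_N01 : StN01 :=
  ⟨fun j => (N01_F_all j).mono, fun j => (N01_F_all j).lt, fun j => (N01_F_all j).zero,
    fun j x => N01_F_le (N01_F_all j) x, fun j => (N01_F_all j).exp, N01_six, N01_seven,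
    N01_eight⟩

end Pool.Agent.AK
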