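import Pool.Agent.AK.StG

set_option autoImplicit false

/-!
# AK, N02: iterates of the Ackermann functions
-/

namespace Pool.Agent.AK

theorem thm_N02 (h1 : StN01) : StN02 := by
  obtain ⟨hsm, hlt, -, -, -, -, h2, -⟩ := h1
  have c1 : ∀ j i x, x + i ≤ (A j)^[i] x := by
    intro j i x
    induction i with
    | zero => simp
    | succ i ih =>
      rw [Function.iterate_succ_apply']
      have := hlt j ((A j)^[i] x)
      omega
  have c3 : ∀ j i, Monotone (A j)^[i] := fun j i => (hsm j).monotone.iterate i
  refine ⟨c1, ?_, c3, ?_, ?_, ?_⟩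
  · intro j i x
    rw [Function.iterate_add_apply]
    refine c3 j i ?_
    have := c1 j x 0
    omega
  · intro j i i' x hi
    obtain ⟨d, rfl⟩ := Nat.exists_eq_add_of_le hi
    rw [Nat.add_comm, Function.iterate_add_apply]
    have := c1 j d ((A j)^[i] x)
    omega
  · intro j i x
    exact (hsm j).iterate i (Nat.lt_succ_self x)
  · intro j m x
    induction m with
    | zero => simp
    | succ m ih =>
      have h3 := h2 j (x + 2 * m)
      have e : x + 2 * (m + 1) = x + 2 * m + 2 := by ring
      rw [e, pow_succ]
      calc 2 ^ m * 2 * A j x = 2 * (2 ^ m * A j x) := by ring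
        _ ≤ 2 * A j (x + 2 * m) := Nat.mul_le_mul_left _ ih
        _ ≤ _ := h3

end Pool.Agent.AK
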