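import Pool.Agent.AK.StG

set_option autoImplicit false

/-!
# AK, N03: squares
-/

namespace Pool.Agent.AK

theorem N03_lin (u : ℕ) (hu : 3 ≤ u) : 3 * u ≤ 2 ^ (u + 1) := by
  induction u, hu using Nat.le_induction with
  | base => norm_num
  | succ n hn ih =>
    rw [pow_succ]
    omega

theorem N03_sq (c : ℕ) : c ^ 2 ≤ 2 ^ (c + 1) := by
  have h : ∀ c : ℕ, c * c ≤ 2 ^ (c + 1) := by
    intro c
    rcases Nat.lt_or_ge c 4 with h | h
    · interval_cases c <;> norm_num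
    · induction c, h using Nat.le_induction with
      | base => norm_num
      | succ n hn ih =>
        rw [pow_succ]
        nlinarith
  rw [pow_two]
  exact h c

theorem N03_two (c : ℕ) (hc : 3 ≤ c) : 2 * c + 2 ≤ 2 ^ c := by
  induction c, hc using Nat.le_induction with
  | base => norm_num
  | succ n hn ih =>
    rw [pow_succ]
    omega

theorem N03_key (c u : ℕ) (hc : 3 ≤ c) (hu : u + 2 ≤ c) :
    (c + u) ^ 2 ≤ 2 ^ (2 ^ c - (u + 1)) := by
  have h1 := N03_two c hc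
  have h2 := N03_sq c
  have h3 : c + 3 ≤ 2 ^ c - (u + 1) := by omega
  calc (c + u) ^ 2 ≤ (2 * c) ^ 2 := Nat.pow_le_pow_left (by omega) 2
    _ = 4 * c ^ 2 := by ring
    _ ≤ 4 * 2 ^ (c + 1) := Nat.mul_le_mul_left 4 h2
    _ = 2 ^ (c + 3) := by ring
    _ ≤ 2 ^ (2 ^ c - (u + 1)) := Nat.pow_le_pow_right (by norm_num) h3

theorem thm_N03 (h1 : StN01) : StN03 := by
  obtain ⟨hmono, -, h0, -, h5, -, -, h8⟩ := h1
  intro j u
  rcases j with _ | j
  · -- `j = 0`
    have e1 : A 0 u = u + 2 ^ (u + 1) := rfl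
    have e2 : A 0 (2 * u + 2) = 2 * u + 2 + 2 ^ (2 * u + 2 + 1) := rfl
    have e3 : 2 ^ (2 * u + 2 + 1) = 2 * (2 ^ (u + 1)) ^ 2 := by
      rw [← pow_mul]
      ring
    rw [e1, e2, e3]
    rcases Nat.lt_or_ge u 3 with h | h
    · interval_cases u <;> norm_num
    · have h3 := N03_lin u h
      generalize 2 ^ (u + 1) = y at h3
      nlinarith
  · obtain ⟨a, ha⟩ : ∃ a, a = A (j + 1) u := ⟨_, rfl⟩
    have f1 : 2 ^ (u + 1) ≤ a := ha ▸ h5 (j + 1) u
    have f2 : u + 3 ≤ a := by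
      have h := (hmono (j + 1)).add_le_nat u 0
      rw [h0, add_zero, ← ha] at h
      omega
    have f3 : 2 * (u + 1) ≤ 2 ^ (u + 1) := by
      have h : u + 1 ≤ 2 ^ u := Nat.lt_two_pow_self
      rw [pow_succ]
      omega
    obtain ⟨c, hc⟩ : ∃ c, c = a - u := ⟨_, rfl⟩
    have hcu : a = c + u := by omega
    have g1 := h8 j u
    rw [← ha, ← hc] at g1
    have g2 := h8 j (u + 1)
    have g3 : A (j + 1) (u + 1 + 1) ≤ A (j + 1) (2 * u + 2) :=
      (hmono (j + 1)).monotone (by omega)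
    rw [← ha]
    calc a ^ 2 = (c + u) ^ 2 := by rw [hcu]
      _ ≤ 2 ^ (2 ^ c - (u + 1)) := N03_key c u (by omega) (by omega)
      _ ≤ 2 ^ (A (j + 1) (u + 1) - (u + 1)) :=
          Nat.pow_le_pow_right (by norm_num) (Nat.sub_le_sub_right g1 _)
      _ ≤ A (j + 1) (u + 1 + 1) := g2
      _ ≤ A (j + 1) (2 * u + 2) := g3

end Pool.Agent.AK
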