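import Pool.Agent.AK.StG

/-!
# AK, module N04: powers
-/

set_option autoImplicit false

namespace Pool.Agent.AK

private theorem N04_pow (h3 : StN03) (j u m : ℕ) :
    (A j u) ^ (2 ^ m) ≤ A j (2 ^ m * (u + 2) - 2) := by
  induction m with
  | zero =>
    rw [pow_zero, pow_one, one_mul, Nat.add_sub_cancel]
  | succ m ih =>
    rw [pow_succ 2 m, pow_mul]
    refine le_trans (Nat.pow_le_pow_left ih 2) (le_trans (h3 _ _) (le_of_eq ?_))
    congr 1
    have h4 : 1 ≤ 2 ^ m := Nat.one_le_two_pow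
    have h5 : 2 ≤ 2 ^ m * (u + 2) := by nlinarith
    have h6 : 2 ^ m * 2 * (u + 2) = 2 * (2 ^ m * (u + 2)) := by ring
    rw [h6]
    omega

private theorem N04_num : ∀ x : ℕ, 4 ≤ x → 36 * x ≤ 2 ^ 2 ^ (x - 1) := by
  intro x hx
  induction x, hx using Nat.le_induction with
  | base => norm_num
  | succ x hx ih =>
    have h1 : x + 1 - 1 = (x - 1) + 1 := by omega
    rw [h1, pow_succ 2 (x - 1), pow_mul]
    have h2 : (36 * x) ^ 2 ≤ (2 ^ 2 ^ (x - 1)) ^ 2 := Nat.pow_le_pow_left ih 2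
    nlinarith

theorem thm_N04 (h1 : StN01) (h2 : StN02) (h3 : StN03) : StN04 := by
  intro j x hx
  obtain ⟨m1, m2, m3, m4, m5, m6, m7, m8⟩ := h1
  obtain ⟨n1, n2, n3, n4, n5, n6⟩ := h2
  have e1 : (A j)^[3] x = A j (A j (A j x)) := rfl
  have e2 : (A j)^[3] (x + 1) = A j (A j (A j (x + 1))) := rfl
  rw [e1, e2]
  obtain ⟨u, hu⟩ : ∃ u, u = A j (A j x) := ⟨_, rfl⟩
  obtain ⟨v, hv⟩ : ∃ v, v = A j (A j (x + 1)) := ⟨_, rfl⟩
  rw [← hu, ← hv]
  -- the exponent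
  obtain ⟨m, hm1, hm2⟩ : ∃ m, 9 * x ≤ 2 ^ m ∧ 2 ^ m ≤ 18 * x := by
    refine ⟨Nat.clog 2 (9 * x), Nat.le_pow_clog (by norm_num) _, ?_⟩
    have h4 := Nat.pow_pred_clog_lt_self (b := 2) (by norm_num) (show 1 < 9 * x by omega)
    have h5 : 0 < Nat.clog 2 (9 * x) := Nat.clog_pos (by norm_num) (by omega)
    have h6 : Nat.clog 2 (9 * x) = (Nat.clog 2 (9 * x)).pred + 1 := by
      rw [← Nat.succ_eq_add_one, Nat.succ_pred_eq_of_pos h5]
    rw [h6, pow_succ]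
    omega
  have hA1 : 1 ≤ A j u := by
    have := m2 j u
    omega
  have hu2 : 2 ≤ u := by
    have h4 := m2 j x
    have h5 := m2 j (A j x)
    rw [← hu] at h5
    omega
  have hv1 : 36 * x * u ≤ v := by
    have h4 : A j x + 2 ^ x ≤ A j (x + 1) := by
      have h5 := m6 j x
      have h6 := m5 j x
      rw [pow_succ] at h6
      omega
    have h7 : A j (A j x + 2 ^ x) ≤ v := by
      rw [hv]
      exact (m1 j).monotone h4
    have h8 := n6 j (2 ^ (x - 1)) (A j x)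
    have h9 : 2 * 2 ^ (x - 1) = 2 ^ x := by
      rw [← pow_succ']
      congr 1
      omega
    rw [h9, ← hu] at h8
    exact le_trans (Nat.mul_le_mul_right _ (N04_num x hx)) (le_trans h8 h7)
  have hv2 : 2 ^ m * (u + 2) - 2 ≤ v := by
    have h4 : 2 ^ m * (u + 2) ≤ 18 * x * (u + 2) := Nat.mul_le_mul_right _ hm2
    have h5 : 18 * x * (u + 2) ≤ 36 * x * u := by nlinarith
    omega
  calc (A j u) ^ (9 * x) ≤ (A j u) ^ (2 ^ m) := Nat.pow_le_pow_right hA1 hm1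
    _ ≤ A j (2 ^ m * (u + 2) - 2) := N04_pow h3 j u m
    _ ≤ A j v := (m1 j).monotone hv2

end Pool.Agent.AK
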