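import Pool.Agent.AK.StG

set_option autoImplicit false

/-! # AK, module N05: iteration with a slowly growing error -/

namespace Pool.Agent.AK

theorem thm_N05 (h1 : StN01) (h2 : StN02) : StN05 := by
  intro j x0 y0 Φ F hΦ hΦ3 hF hy0 i
  obtain ⟨hm, -⟩ := h1
  obtain ⟨g1, -, g3, -, g5, -⟩ := h2
  have key : ∀ n x, 3 ≤ n → x0 ≤ x → Φ ((A j)^[n] x) ≤ (A j)^[n] (x + 1) := by
    intro n x hn hx
    obtain ⟨r, rfl⟩ : ∃ r, n = 3 + r := ⟨n - 3, by omega⟩
    rw [Function.iterate_add_apply, Function.iterate_add_apply]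
    have e1 : x0 ≤ (A j)^[r] x := hx.trans ((Nat.le_add_right _ _).trans (g1 j r x))
    exact (hΦ3 _ e1).trans (g3 j 3 (g5 j r x))
  induction i with
  | zero =>
    rw [Function.iterate_zero_apply]
    exact hy0
  | succ i ih =>
    rw [Function.iterate_succ_apply', show i + 1 + 3 = (i + 3) + 1 by omega,
      Function.iterate_succ_apply']
    calc F (F^[i] y0) ≤ A j (Φ (F^[i] y0)) := hF _
      _ ≤ A j (Φ ((A j)^[i + 3] (x0 + i))) := (hm j).monotone (hΦ ih)
      _ ≤ A j ((A j)^[i + 3] (x0 + i + 1)) :=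
        (hm j).monotone (key (i + 3) (x0 + i) (by omega) (by omega))
      _ = A j ((A j)^[i + 3] (x0 + (i + 1))) := by rw [Nat.add_assoc]

end Pool.Agent.AK
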