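import Pool.Agent.AK.StG

set_option autoImplicit false

/-!
# AK, N06: the function `Φ` of the gap lemma
-/

namespace Pool.Agent.AK

theorem thm_N06 (h2 : StN02) (h4 : StN04) : StN06 := by
  intro j k p b hk hp hb hkp
  refine ⟨?_, ?_⟩
  · intro y y' h
    have h1 : b + 2 * p * k * y ≤ b + 2 * p * k * y' := by
      have := Nat.mul_le_mul_left (2 * p * k) h
      omega
    have h3 := Nat.pow_le_pow_left h1 (2 * k)
    simp only
    omega
  · intro x hx
    obtain ⟨y, hy⟩ : ∃ y, y = (A j)^[3] x := ⟨_, rfl⟩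
    have hxy : x + 3 ≤ y := hy ▸ h2.1 j 3 x
    have hN4 := h4 j x (by omega)
    rw [← hy] at hN4 ⊢
    have hy27 : 27 ≤ y := by omega
    have f1 : b + 2 * p * k * y ≤ y ^ 4 := by
      have g1 : p * k ≤ y * y := Nat.mul_le_mul (by omega) (by omega)
      have g2 : 2 * p * k * y ≤ 2 * (y * y) * y := by
        calc 2 * p * k * y = 2 * (p * k) * y := by ring
          _ ≤ 2 * (y * y) * y := by gcongr
      have g3 : b ≤ y := by omega
      have g4 : y ≤ y * y * y := by nlinarith
      have g5 : 27 * (y * y * y) ≤ y * (y * y * y) := Nat.mul_le_mul_right _ hy27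
      have e : y ^ 4 = y * (y * y * y) := by ring
      rw [e]
      nlinarith
    have f2 : (b + 2 * p * k * y) ^ (2 * k) ≤ y ^ (8 * k) := by
      calc (b + 2 * p * k * y) ^ (2 * k) ≤ (y ^ 4) ^ (2 * k) := Nat.pow_le_pow_left f1 _
        _ = y ^ (8 * k) := by
            rw [← pow_mul]
            congr 1
            ring
    have f3 : 2 * k + 2 ≤ y ^ (8 * k) := by
      calc 2 * k + 2 ≤ y * y := by nlinarith
        _ = y ^ 2 := by ring
        _ ≤ y ^ (8 * k) := Nat.pow_le_pow_right (by omega) (by omega)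
    calc (b + 2 * p * k * y) ^ (2 * k) + 2 * k + 2 ≤ y ^ (8 * k) + y ^ (8 * k) := by omega
      _ = 2 * y ^ (8 * k) := by ring
      _ ≤ y * y ^ (8 * k) := Nat.mul_le_mul_right _ (by omega)
      _ = y ^ (8 * k + 1) := by ring
      _ ≤ y ^ (9 * x) := Nat.pow_le_pow_right (by omega) (by omega)
      _ ≤ (A j)^[3] (x + 1) := hN4

end Pool.Agent.AK
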