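import Pool.Agent.AK.StG

set_option autoImplicit false

/-!
# AK, N07: the first gap exponent
-/

namespace Pool.Agent.AK

theorem N07_four (P : ℕ) (hP : 27 ≤ P) : 4 * P ≤ 2 ^ (P - 1) := by
  induction P, hP using Nat.le_induction with
  | base => norm_num
  | succ n hn ih =>
    have e : n + 1 - 1 = n - 1 + 1 := by omega
    rw [e, pow_succ]
    omega

theorem thm_N07 (h1 : StN01) : StN07 := by
  intro k s hk hs
  obtain ⟨P, hP⟩ : ∃ P, P = (2 * s + 1) ^ k := ⟨_, rfl⟩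
  have hP27 : 27 ≤ P := by
    calc 27 = 3 ^ 3 := by norm_num
      _ ≤ (2 * s + 1) ^ 3 := Nat.pow_le_pow_left (by omega) 3
      _ ≤ (2 * s + 1) ^ k := Nat.pow_le_pow_right (by omega) hk
      _ = P := hP.symm
  have hPs : 2 * s + 1 ≤ P := by
    rw [hP]
    exact Nat.le_self_pow (by omega) _
  obtain ⟨F, hF⟩ : ∃ F : ℕ → ℕ, F = fun T => 2 ^ (0 + 1) *
      (Hf k 0 (s + (2 * s + 1) ^ k * (0 + 1) * T) + 1 + (2 * s + 1) ^ k) := ⟨_, rfl⟩
  have hFT : ∀ T, F T + 1 ≤ 4 * P * (T + 1) := by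
    intro T
    have e : F T = 2 * (s + P * T + 1 + P) := by
      rw [hF, hP]
      simp only [Hf]
      ring
    rw [e]
    nlinarith [Nat.zero_le (P * T)]
  have hit : ∀ i, F^[i] 0 + 1 ≤ (4 * P) ^ i := by
    intro i
    induction i with
    | zero => simp
    | succ i ih =>
      rw [Function.iterate_succ_apply']
      calc F (F^[i] 0) + 1 ≤ 4 * P * (F^[i] 0 + 1) := hFT _
        _ ≤ 4 * P * (4 * P) ^ i := Nat.mul_le_mul_left _ ih
        _ = (4 * P) ^ (i + 1) := by ring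
  have e1 : Hf k 1 s = F^[P + 1] 0 := by
    rw [hF, hP]
    rfl
  have e2 : (2 * s + 1) ^ (2 * k) = P ^ 2 := by
    rw [hP, ← pow_mul, Nat.mul_comm k 2]
  rw [e1, e2]
  have h2 : (P - 1) * (P + 1) ≤ P ^ 2 := by
    obtain ⟨m, rfl⟩ : ∃ m, P = m + 1 := ⟨P - 1, by omega⟩
    rw [Nat.add_sub_cancel]
    nlinarith
  calc F^[P + 1] 0 ≤ (4 * P) ^ (P + 1) := (Nat.le_succ _).trans (hit _)
    _ ≤ (2 ^ (P - 1)) ^ (P + 1) := Nat.pow_le_pow_left (N07_four P hP27) _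
    _ = 2 ^ ((P - 1) * (P + 1)) := by rw [← pow_mul]
    _ ≤ 2 ^ (P ^ 2) := Nat.pow_le_pow_right (by norm_num) h2
    _ ≤ 2 ^ (P ^ 2 + 1) := Nat.pow_le_pow_right (by norm_num) (Nat.le_succ _)
    _ ≤ A 0 (P ^ 2) := h1.2.2.2.2.1 0 (P ^ 2)

end Pool.Agent.AK
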