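import Pool.Agent.AK.StG

set_option autoImplicit false

/-!
# AK, module N08: a bound for `Hf k (j+1) s` by the Ackermann hierarchy
-/

namespace Pool.Agent.AK

theorem thm_N08 : StN01 → StN02 → StN05 → StN06 → StN07 → StN08 := by
  intro h1 h2 h5 h6 h7 k s j hk
  obtain ⟨h1a, h1b, -, -, -, -, -, -⟩ := h1
  obtain ⟨-, h2b, -, -, -, h2f⟩ := h2
  induction j generalizing s with
  | zero =>
    intro hs _
    exact h7 k s hk hs
  | succ j ih =>
    intro hs hj
    have hP27 : 27 ≤ (2 * s + 1) ^ k := by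
      calc 27 = 3 ^ 3 := by norm_num
        _ ≤ 3 ^ k := Nat.pow_le_pow_right (by norm_num) hk
        _ ≤ (2 * s + 1) ^ k := Nat.pow_le_pow_left (by omega) k
    have hPk : k ≤ (2 * s + 1) ^ k := by
      calc k ≤ 2 ^ k := (Nat.lt_two_pow_self).le
        _ ≤ (2 * s + 1) ^ k := Nat.pow_le_pow_left (by omega) k
    have hPb : 2 * s + 1 ≤ (2 * s + 1) ^ k := Nat.le_self_pow (by omega) _
    obtain ⟨hmono, hstep⟩ := h6 j k ((2 * s + 1) ^ k) (2 * s + 1) hk hP27 hPb hPk
    have hsq : (2 * s + 1) ^ (2 * k) = ((2 * s + 1) ^ k) ^ 2 := by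
      rw [← pow_mul, mul_comm k 2]
    rw [hsq]
    show (fun T => 2 ^ (j + 1 + 1) *
      (Hf k (j + 1) (s + (2 * s + 1) ^ k * (j + 1 + 1) * T) + 1 + (2 * s + 1) ^ k))^[(2 * s + 1) ^ k + 1] 0
        ≤ A (j + 1) (((2 * s + 1) ^ k) ^ 2)
    have hF : ∀ T, (fun T => 2 ^ (j + 1 + 1) *
        (Hf k (j + 1) (s + (2 * s + 1) ^ k * (j + 1 + 1) * T) + 1 + (2 * s + 1) ^ k)) T ≤
        A j ((fun y => (2 * s + 1 + 2 * (2 * s + 1) ^ k * k * y) ^ (2 * k) + 2 * k + 2) T) := by
      intro T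
      have a1 := ih (s + (2 * s + 1) ^ k * (j + 1 + 1) * T) (by omega) (by omega)
      set P := (2 * s + 1) ^ k with hPdef
      set z := (2 * (s + P * (j + 1 + 1) * T) + 1) ^ (2 * k) with hz
      have hzP : P ≤ z := by
        calc P = (2 * s + 1) ^ k := hPdef
          _ ≤ (2 * s + 1) ^ (2 * k) := Nat.pow_le_pow_right (by omega) (by omega)
          _ ≤ z := Nat.pow_le_pow_left (by omega) _
      have a2 : 1 + P ≤ A j z := by
        have := h1b j z
        omega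
      have a3 : 2 ^ (j + 1 + 1) * (Hf k (j + 1) (s + P * (j + 1 + 1) * T) + 1 + P) ≤
          2 ^ (j + 3) * A j z := by
        calc 2 ^ (j + 1 + 1) * (Hf k (j + 1) (s + P * (j + 1 + 1) * T) + 1 + P)
            ≤ 2 ^ (j + 1 + 1) * (2 * A j z) := Nat.mul_le_mul_left _ (by omega)
          _ = 2 ^ (j + 3) * A j z := by rw [pow_succ 2 (j + 2)]; ring
      have a4 := h2f j (j + 3) z
      refine a3.trans (a4.trans ?_)
      apply (h1a j).monotone
      have a5 : z ≤ (2 * s + 1 + 2 * P * k * T) ^ (2 * k) := by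
        apply Nat.pow_le_pow_left
        have : P * (j + 1 + 1) * T ≤ P * k * T :=
          Nat.mul_le_mul_right T (Nat.mul_le_mul_left P (by omega))
        calc 2 * (s + P * (j + 1 + 1) * T) + 1 = 2 * s + 1 + 2 * (P * (j + 1 + 1) * T) := by ring
          _ ≤ 2 * s + 1 + 2 * (P * k * T) := by omega
          _ = 2 * s + 1 + 2 * P * k * T := by ring
      show z + 2 * (j + 3) ≤ (2 * s + 1 + 2 * P * k * T) ^ (2 * k) + 2 * k + 2
      omega
    have b1 := h5 j ((2 * s + 1) ^ k) 0 _ _ hmono hstep hF (Nat.zero_le _) ((2 * s + 1) ^ k + 1)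
    refine b1.trans ?_
    set P := (2 * s + 1) ^ k with hPdef
    have b2 := h2b j (P + 1 + 3) (P + (P + 1))
    refine b2.trans ?_
    have e1 : P + 1 + 3 + (P + (P + 1)) = (3 * P + 4) + 1 := by ring
    rw [e1]
    have b3 : (A j)^[3 * P + 4 + 1] 0 ≤ A (j + 1) (3 * P + 4) := by
      show (A j)^[3 * P + 4 + 1] 0 ≤ (3 * P + 4) + 1 + (A j)^[3 * P + 4 + 1] 0
      omega
    refine b3.trans ((h1a (j + 1)).monotone ?_)
    nlinarith

end Pool.Agent.AK
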