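import Pool.Agent.AK.StG

set_option autoImplicit false

/-!
# AK, module N09: a bound for the gap exponent `H k t`
-/

namespace Pool.Agent.AK

theorem thm_N09 : StN01 → StN02 → StN05 → StN06 → StN08 → StN09 := by
  intro h1 h2 h5 h6 h8 k t hk
  obtain ⟨h1a, h1b, -, -, h1e, -, -, -⟩ := h1
  obtain ⟨h2a, h2b, h2c, h2d, h2e, h2f⟩ := h2
  obtain ⟨j, rfl⟩ : ∃ j, k = j + 3 := ⟨k - 3, by omega⟩
  have e1 : j + 3 - 3 = j := by omega
  have e2 : j + 3 - 2 = j + 1 := by omega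
  have e3 : j + 3 - 1 = j + 2 := by omega
  rw [e1]
  have h8pow : 8 ≤ 2 ^ (j + 3) := by
    calc 8 = 2 ^ 3 := by norm_num
      _ ≤ 2 ^ (j + 3) := Nat.pow_le_pow_right (by norm_num) (by omega)
  have hs24 : 24 * (t + 1) ≤ S0 (j + 3) t := by
    unfold S0
    calc 24 * (t + 1) = 3 * (8 * (t + 1)) := by ring
      _ ≤ (j + 3) * (2 ^ (j + 3) * (t + 1)) :=
        Nat.mul_le_mul (by omega) (Nat.mul_le_mul_right _ h8pow)
  have hsk : 8 * (j + 3) ≤ S0 (j + 3) t := by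
    unfold S0
    calc 8 * (j + 3) = (j + 3) * (8 * 1) := by ring
      _ ≤ (j + 3) * (2 ^ (j + 3) * (t + 1)) :=
        Nat.mul_le_mul_left _ (Nat.mul_le_mul h8pow (by omega))
  have hT0 : 2 ^ (j + 2) * (2 * t + 4) ≤ 2 * S0 (j + 3) t + 1 := by
    unfold S0
    have : 2 ^ (j + 2) * (2 * t + 4) ≤ 2 * ((j + 3) * (2 ^ (j + 3) * (t + 1))) := by
      calc 2 ^ (j + 2) * (2 * t + 4) ≤ 2 ^ (j + 2) * (12 * (t + 1)) :=
            Nat.mul_le_mul_left _ (by omega)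
        _ = 2 * (3 * (2 ^ (j + 3) * (t + 1))) := by rw [pow_succ 2 (j + 2)]; ring
        _ ≤ 2 * ((j + 3) * (2 ^ (j + 3) * (t + 1))) :=
          Nat.mul_le_mul_left _ (Nat.mul_le_mul_right _ (by omega))
    omega
  have hS0 : S0 (j + 3) t = (j + 3) * (2 ^ (j + 3) * (t + 1)) := rfl
  unfold H
  rw [e3]
  generalize hs : S0 (j + 3) t = s at *
  obtain ⟨hmono, hstep⟩ := h6 j (j + 3) (2 * s + 1) (2 * s + 1) hk (by omega) le_rfl (by omega)
  have hF : ∀ T, Ft (j + 3) t T ≤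
      A j ((fun y => (2 * s + 1 + 2 * (2 * s + 1) * (j + 3) * y) ^ (2 * (j + 3)) + 2 * (j + 3) + 2) T) := by
    intro T
    unfold Ft
    rw [hs, e2, e3]
    have a1 := h8 (j + 3) (s + (2 * s + 1) * (j + 2) * T) j hk (by omega) (by omega)
    set z := (2 * (s + (2 * s + 1) * (j + 2) * T) + 1) ^ (2 * (j + 3)) with hz
    have hzP : 2 * s + 1 ≤ z := by
      calc 2 * s + 1 ≤ 2 * (s + (2 * s + 1) * (j + 2) * T) + 1 := by omega
        _ ≤ z := Nat.le_self_pow (by omega) _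
    have a2 : 1 + (2 * s + 1) ≤ A j z := by
      have := h1b j z
      omega
    have a3 : 2 ^ (j + 2) * (Hf (j + 3) (j + 1) (s + (2 * s + 1) * (j + 2) * T) + 1 + (2 * s + 1)) ≤
        2 ^ (j + 3) * A j z := by
      calc 2 ^ (j + 2) * (Hf (j + 3) (j + 1) (s + (2 * s + 1) * (j + 2) * T) + 1 + (2 * s + 1))
          ≤ 2 ^ (j + 2) * (2 * A j z) := Nat.mul_le_mul_left _ (by omega)
        _ = 2 ^ (j + 3) * A j z := by rw [pow_succ 2 (j + 2)]; ring
    have a4 := h2f j (j + 3) z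
    refine a3.trans (a4.trans ?_)
    apply (h1a j).monotone
    have a5 : z ≤ (2 * s + 1 + 2 * (2 * s + 1) * (j + 3) * T) ^ (2 * (j + 3)) := by
      apply Nat.pow_le_pow_left
      have : (2 * s + 1) * (j + 2) * T ≤ (2 * s + 1) * (j + 3) * T :=
        Nat.mul_le_mul_right T (Nat.mul_le_mul_left _ (by omega))
      calc 2 * (s + (2 * s + 1) * (j + 2) * T) + 1 = 2 * s + 1 + 2 * ((2 * s + 1) * (j + 2) * T) := by
            ring
        _ ≤ 2 * s + 1 + 2 * ((2 * s + 1) * (j + 3) * T) := by omega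
        _ = 2 * s + 1 + 2 * (2 * s + 1) * (j + 3) * T := by ring
    show z + 2 * (j + 3) ≤
      (2 * s + 1 + 2 * (2 * s + 1) * (j + 3) * T) ^ (2 * (j + 3)) + 2 * (j + 3) + 2
    omega
  have hy0 : 2 ^ (j + 2) * (2 * t + 4) ≤ (A j)^[3] (2 * s + 1) := by
    have := h2a j 3 (2 * s + 1)
    omega
  have b1 := h5 j (2 * s + 1) _ _ _ hmono hstep hF hy0 (t + 2)
  refine b1.trans ?_
  have e4 : t + 7 = (t + 2 + 3) + 2 := by ring
  rw [e4, Function.iterate_add_apply]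
  refine h2c j (t + 2 + 3) ?_
  have hq : 2 ^ (2 ^ (j + 3 + t + 1) + 1) ≤ (A j)^[2] (j + 3 + t) := by
    show 2 ^ (2 ^ (j + 3 + t + 1) + 1) ≤ A j (A j (j + 3 + t))
    refine le_trans ?_ (h1e j (A j (j + 3 + t)))
    apply Nat.pow_le_pow_right (by norm_num)
    have := h1e j (j + 3 + t)
    omega
  refine le_trans ?_ hq
  have c1 : ∀ x : ℕ, 3 ≤ x → 2 * x + 3 ≤ 2 ^ (x + 1) := by
    intro x hx
    induction x, hx using Nat.le_induction with
    | base => norm_num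
    | succ x hx ih =>
      rw [pow_succ]
      omega
  have c2 := c1 (j + 3 + t) (by omega)
  have c3 : t + 1 ≤ 2 ^ t := Nat.lt_two_pow_self
  have c4 : j + 3 ≤ 2 ^ (j + 3) := (Nat.lt_two_pow_self).le
  have c5 : s ≤ 2 ^ (2 * (j + 3) + t) := by
    rw [hS0]
    calc (j + 3) * (2 ^ (j + 3) * (t + 1)) ≤ 2 ^ (j + 3) * (2 ^ (j + 3) * 2 ^ t) :=
          Nat.mul_le_mul c4 (Nat.mul_le_mul_left _ c3)
      _ = 2 ^ (2 * (j + 3) + t) := by
        rw [← pow_add, ← pow_add]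
        congr 1
        ring
  have c6 : 2 * s + 1 + (t + 2) ≤ 2 ^ (2 * (j + 3) + t + 2) := by
    have d1 : t + 3 ≤ 2 ^ (2 * (j + 3) + t) := by
      calc t + 3 ≤ 2 * (j + 3) + t := by omega
        _ ≤ 2 ^ (2 * (j + 3) + t) := (Nat.lt_two_pow_self).le
    have d2 : 2 ^ (2 * (j + 3) + t + 2) = 4 * 2 ^ (2 * (j + 3) + t) := by
      rw [pow_add]
      ring
    omega
  refine c6.trans ?_
  apply Nat.pow_le_pow_right (by norm_num)
  omega

end Pool.Agent.AK
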