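import Pool.Agent.AK.StG

set_option autoImplicit false

/-!
# AK, N10: one logarithm is enough
-/

namespace Pool.Agent.AK

theorem N10_three (b : ℕ) (hb : 3 ≤ b) : 3 * b ≤ 2 ^ (b + 1) := by
  induction b, hb using Nat.le_induction with
  | base => norm_num
  | succ b hb ih =>
    rw [pow_succ]
    omega

theorem thm_N10 (h1 : StN01) (h2 : StN02) : StN10 := by
  intro k q h n hk hkq hh hn
  obtain ⟨-, -, -, -, h5, -, -, -⟩ := h1
  obtain ⟨c1, -, -, -, -, -⟩ := h2
  have hb : q ≤ B k q := by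
    have := c1 (k - 3) q 0
    unfold B
    omega
  have hs : ∀ i, 2 ^ (B k i + 1) ≤ B k (i + 1) := by
    intro i
    unfold B
    rw [Function.iterate_succ_apply']
    exact h5 _ _
  generalize hbd : B k q = b at hb hh
  have s0 := hs q
  have s1 := hs (q + 1)
  have s2 := hs (q + 2)
  rw [hbd] at s0
  have t1 : 2 ^ (2 ^ (b + 1) + 1) ≤ B k (q + 2) :=
    (Nat.pow_le_pow_right (by norm_num) (Nat.succ_le_succ s0)).trans s1
  have t2 : 2 ^ B k (q + 2) ≤ n := by
    refine le_trans ?_ (s2.trans hn.le)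
    exact Nat.pow_le_pow_right (by norm_num) (Nat.le_succ _)
  have hlog : B k (q + 2) ≤ Nat.log 2 n := by
    refine Nat.le_log_of_pow_le (by norm_num) t2
  refine le_trans ?_ (t1.trans hlog)
  have hkb : k ≤ b := hkq.trans hb
  have e1 : k ≤ 2 ^ b := hkb.trans Nat.lt_two_pow_self.le
  have e2 : 2 ^ k ≤ 2 ^ b := Nat.pow_le_pow_right (by norm_num) hkb
  have e3 : h + 1 ≤ 2 ^ b := le_trans (Nat.succ_le_succ hh) Nat.lt_two_pow_self
  calc k * (2 ^ k * (h + 1)) ≤ 2 ^ b * (2 ^ b * 2 ^ b) :=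
        Nat.mul_le_mul e1 (Nat.mul_le_mul e2 e3)
    _ = 2 ^ (3 * b) := by
        rw [← pow_add, ← pow_add]
        congr 1
        ring
    _ ≤ 2 ^ (2 ^ (b + 1) + 1) :=
        Nat.pow_le_pow_right (by norm_num) ((N10_three b (hk.trans hkb)).trans (Nat.le_succ _))

end Pool.Agent.AK
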