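import Pool.Agent.AK.StG

/-!
# AK, module N11: basic facts on B, al and alk
-/

set_option autoImplicit false

namespace Pool.Agent.AK

theorem thm_N11 (h1 : StN01) (h2 : StN02) : StN11 := by
  obtain ⟨m1, m2, m3, m4, m5, m6, m7, m8⟩ := h1
  obtain ⟨n1, n2, n3, n4, n5, n6⟩ := h2
  have hq : ∀ k q, q ≤ B k q := by
    intro k q
    have h := n1 (k - 3) q 0
    rw [Nat.zero_add] at h
    exact h
  have hmono : ∀ k, StrictMono (B k) := by
    intro k
    refine strictMono_nat_of_lt_succ fun q => ?_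
    show (A (k - 3))^[q] 0 < (A (k - 3))^[q + 1] 0
    rw [Function.iterate_succ_apply']
    exact m2 _ _
  have hk : ∀ k q, 3 ≤ k → B k q ≤ B (k + 1) q := by
    intro k q hk
    have h3 : k + 1 - 3 = (k - 3) + 1 := by omega
    show (A (k - 3))^[q] 0 ≤ (A (k + 1 - 3))^[q] 0
    rw [h3]
    induction q with
    | zero => exact le_refl _
    | succ q ih =>
      rw [Function.iterate_succ_apply', Function.iterate_succ_apply']
      exact le_trans ((m1 _).monotone ih) (m4 _ _)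
  have hne : ∀ n, (4 ≤ max 4 (n + 1) ∧
      n ≤ B (max 4 (n + 1) - 1) (max 4 (n + 1) - 1)) := by
    intro n
    refine ⟨le_max_left _ _, le_trans ?_ (hq _ _)⟩
    have := le_max_right 4 (n + 1)
    omega
  refine ⟨fun k _ => ⟨hmono k, hq k⟩, hk, ?_, ?_, ?_, ?_, ?_⟩
  · intro k n q _ h
    have h3 : q ∉ {q | n ≤ B k q} := Nat.notMem_of_lt_sInf h
    exact not_le.1 h3
  · intro k n _
    have h3 : n ∈ {q | n ≤ B k q} := hq k n
    exact ⟨Nat.sInf_mem ⟨n, h3⟩, Nat.sInf_le h3⟩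
  · intro n
    have h3 : max 4 (n + 1) ∈ {k | 4 ≤ k ∧ n ≤ B (k - 1) (k - 1)} := hne n
    exact Nat.sInf_mem ⟨_, h3⟩
  · intro k n hk3 h
    have h3 : k + 1 ∉ {k | 4 ≤ k ∧ n ≤ B (k - 1) (k - 1)} := Nat.notMem_of_lt_sInf h
    by_contra h4
    exact h3 ⟨by omega, not_lt.1 h4⟩
  · intro k hk3
    exact le_trans (hk k k hk3) ((hmono (k + 1)).monotone (Nat.le_succ k))

end Pool.Agent.AK
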