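import Pool.Agent.AK.StG
import Pool.Agent.AK.G01
import Pool.Agent.AK.G02
import Pool.Agent.AK.G03
import Pool.Agent.AK.G04
import Pool.Agent.AK.G05
import Pool.Agent.AK.G06
import Pool.Agent.AK.G07
import Pool.Agent.AK.G08
import Pool.Agent.AK.G09
import Pool.Agent.AK.G10
import Pool.Agent.AK.G11
import Pool.Agent.AK.G12
import Pool.Agent.AK.G13
import Pool.Agent.AK.G14
import Pool.Agent.AK.G15
import Pool.Agent.AK.G16
import Pool.Agent.AK.G17
import Pool.Agent.AK.G18
import Pool.Agent.AK.G19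
import Pool.Agent.AK.Gap
import Pool.Agent.AK.Dig
import Pool.Agent.AK.N01
import Pool.Agent.AK.N02
import Pool.Agent.AK.N03
import Pool.Agent.AK.N04
import Pool.Agent.AK.N05
import Pool.Agent.AK.N06
import Pool.Agent.AK.N07
import Pool.Agent.AK.N08
import Pool.Agent.AK.N09
import Pool.Agent.AK.N10
import Pool.Agent.AK.N11
import Pool.Agent.AK.Grow1
import Pool.Agent.AK.Grow2
import Pool.Agent.AK.GapM1
import Pool.Agent.AK.GapB1

set_option autoImplicit false

/-! # AK, part G: all statements without hypotheses -/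

namespace Pool.Agent.AK

theorem all_G04 : StG04 := thm_G04 thm_G01 thm_G03
theorem all_G05 : StG05 := thm_G05 thm_G01 thm_G02 all_G04
theorem all_G11 : StG11 := thm_G11 thm_G01 all_G05
theorem all_G12 : StG12 := thm_G12 thm_G01 thm_G08 all_G11
theorem all_G14 : StG14 := thm_G14 thm_G06
theorem all_G15 : StG15 := thm_G15 thm_G07 thm_G09 thm_G10 all_G12 thm_G13 all_G14
theorem all_G16 : StG16 := thm_G16 thm_G01 thm_G03 thm_G06 all_G11
theorem all_G17 : StG17 := thm_G17 thm_G01 all_G05 thm_G06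
theorem all_G18 : StG18 :=
  thm_G18 thm_G01 thm_G09 thm_G10 all_G12 thm_G13 all_G14 all_G15 all_G16 all_G17
theorem all_Gap : StGap := thm_Gap all_G18 thm_G19
theorem all_Dig : StDig := thm_Dig all_Gap

theorem all_N02 : StN02 := thm_N02 thm_N01
theorem all_N03 : StN03 := thm_N03 thm_N01
theorem all_N04 : StN04 := thm_N04 thm_N01 all_N02 all_N03
theorem all_N05 : StN05 := thm_N05 thm_N01 all_N02
theorem all_N06 : StN06 := thm_N06 all_N02 all_N04
theorem all_N07 : StN07 := thm_N07 thm_N01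
theorem all_N08 : StN08 := thm_N08 thm_N01 all_N02 all_N05 all_N06 all_N07
theorem all_N09 : StN09 := thm_N09 thm_N01 all_N02 all_N05 all_N06 all_N08
theorem all_N10 : StN10 := thm_N10 thm_N01 all_N02
theorem all_N11 : StN11 := thm_N11 thm_N01 all_N02
theorem all_Grow1 : StGrow1 := thm_Grow1 thm_N01 all_N02 all_N09 all_N10 all_N11
theorem all_Grow2 : StGrow2 := thm_Grow2 thm_N01 all_N02 all_N09 all_N10 all_N11

theorem all_GapM1 (h : StNrm) : StGapM1 := thm_GapM1 all_Gap all_Grow1 h
theorem all_GapB1 (h : StNrm) : StGapB1 := thm_GapB1 all_Gap all_Grow2 h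

end Pool.Agent.AK
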