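import Pool.Agent.AK.StN

set_option autoImplicit false

/-!
# AK, module GN: the gap lemma by induction on the number of digits
-/

namespace Pool.Agent.AK

open Pool.Agent.PolyTime

theorem GN_le (k t : ℕ) : t ≤ Hn k t := by
  induction t with
  | zero => exact Nat.zero_le _
  | succ t ih =>
    have e : Hn k (t + 1) = Hf k (k - 2) (S0 k (t + 1) + (2 * S0 k (t + 1) + 1) *
        ((k - 1) * (2 ^ (k - 1) * (Hn k t + 2)))) + Hn k t + 2 := rfl
    omega

theorem GN_half (a b : ℕ) (h : a ≤ b) : (1 : ℚ) / 2 ^ b ≤ 1 / 2 ^ a :=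
  one_div_le_one_div_of_le (by positivity) (pow_le_pow_right₀ (by norm_num) h)

theorem GN_two (a : ℕ) : (1 : ℚ) / 2 ^ a = 1 / 2 ^ (a + 1) + 1 / 2 ^ (a + 1) := by
  rw [pow_succ]
  field_simp
  norm_num

theorem thm_GN (h1 : StG01) (h6 : StG06) (h10 : StG10) (h11 : StG11) (h15 : StG15)
    (h17 : StG17) (hRl : StRl) (hVg : StVg) (h0 : StGN0) : StGN := by
  intro k t
  induction t with
  | zero =>
    intro W m f hk hf hc hlt
    rw [pow_zero, div_one] at hlt ⊢
    exact h0 W k m f hf hc hlt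
  | succ t ih =>
    intro W m f hk hf hc hlt
    obtain ⟨j, rfl⟩ : ∃ j, k = j + 2 := ⟨k - 2, by omega⟩
    obtain ⟨h, hh⟩ : ∃ h, h = Hn (j + 2) t := ⟨_, rfl⟩
    obtain ⟨s, hs⟩ : ∃ s, s = S0 (j + 2) (t + 1) := ⟨_, rfl⟩
    have hHn : Hn (j + 2) (t + 1) =
        Hf (j + 2) j (s + (2 * s + 1) * ((j + 1) * (2 ^ (j + 1) * (h + 2)))) + h + 2 := by
      rw [hs, hh]
      rfl
    have hth : t ≤ h := hh ▸ GN_le _ _
    have hts : t + 1 ≤ s := by
      have e1 : s = (j + 2) * (2 ^ (j + 2) * (t + 1 + 1)) := hs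
      have e2 : 1 ≤ (j + 2) * 2 ^ (j + 2) := Nat.mul_pos (by omega) (by positivity)
      have e3 : 1 * (t + 1 + 1) ≤ (j + 2) * 2 ^ (j + 2) * (t + 1 + 1) := Nat.mul_le_mul_right _ e2
      rw [mul_assoc] at e3
      omega
    have hpos : (0 : ℚ) ≤ pr W (fun S => FSat S f) := h1.1 _ _
    have hm : (1 : ℚ) ≤ m := by
      have : 1 ≤ m := by
        rcases Nat.eq_zero_or_pos m with e | e
        · subst e
          rw [Nat.cast_zero, zero_div] at hlt
          exact absurd hlt (not_lt.mpr hpos)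
        · exact e
      exact_mod_cast this
    -- a small probability
    have hsmall : pr W (fun S => FSat S f) ≤ 1 / 2 ^ (t + 2) →
        pr W (fun S => FSat S f) ≤ (m : ℚ) / 2 ^ (t + 1) - 1 / 2 ^ (Hn (j + 2) (t + 1)) := by
      intro hq
      have e1 : (1 : ℚ) / 2 ^ (Hn (j + 2) (t + 1)) ≤ 1 / 2 ^ (t + 2) :=
        GN_half _ _ (by rw [hHn]; omega)
      have e2 : (1 : ℚ) / 2 ^ (t + 1) ≤ (m : ℚ) / 2 ^ (t + 1) := by gcongr
      have e3 := GN_two (t + 1)
      have e4 : (1 : ℚ) / 2 ^ (t + 2) = 1 / 2 ^ (t + 1 + 1) := rfl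
      linarith
    rcases h17 W (j + 2) (t + 1) f (by omega) hf hc with hq | ⟨V, hVW, hVs, hVr⟩
    · exact hsmall hq
    obtain ⟨M, hM⟩ := h10 V j f
    by_cases hex : ∃ p ∈ Trs V j f, 2 ^ (j + 1) * (h + 2) ≤ (M p).card
    · obtain ⟨p, hp, hpN⟩ := hex
      have hbad : pr W (fun S => FSat S f ∧ ¬ CSat S p) ≤ 1 / 2 ^ (h + 2) := by
        have e1 := h11 W V j f M hf hM p _ hpN
        have e2 := h6 (j + 1) (h + 2) (2 ^ (j + 1) * (h + 2)) le_rfl
        have e3 : ((1 : ℚ) / 2) ^ (h + 2) = 1 / 2 ^ (h + 2) := by rw [one_div_pow]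
        rw [← e3]
        exact e1.trans e2
      obtain ⟨c, hc1, hcp⟩ := Finset.mem_image.mp hp
      obtain ⟨hc2, hc3⟩ := Finset.mem_filter.mp hc1
      have hpcard : p.card ≤ 1 := by
        have e2 : (tc V c).card + (rs V c).card = c.card :=
          Finset.card_filter_add_card_filter_not (s := c) (fun l => l.1 ∈ V)
        have e3 := hc c hc2
        rw [← hcp]
        omega
      rcases Nat.le_one_iff_eq_zero_or_eq_one.mp hpcard with hp0 | hp1
      · -- the empty trace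
        rw [Finset.card_eq_zero] at hp0
        refine hsmall ?_
        have e1 : pr W (fun S => FSat S f) ≤ pr W (fun S => FSat S f ∧ ¬ CSat S p) := by
          refine h1.2.2.1 _ _ _ fun S _ hS => ⟨hS, ?_⟩
          rintro ⟨l, hl, -⟩
          rw [hp0] at hl
          exact absurd hl (Finset.notMem_empty l)
        exact (e1.trans hbad).trans (GN_half _ _ (by omega))
      · obtain ⟨l, hl⟩ := Finset.card_eq_one.mp hp1
        have hlV : l.1 ∈ V := by
          have e1 : l ∈ tc V c := by rw [hcp, hl]; exact Finset.mem_singleton_self l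
          exact (Finset.mem_filter.mp e1).2
        obtain ⟨hr1, hr2, hr3⟩ := hRl W f l hf (hVW hlV)
        rw [hl] at hbad
        have e1 : pr W (fun S => FSat S f ∧ CSat S {l}) ≤ pr W (fun S => FSat S f) :=
          h1.2.2.1 _ _ _ fun S _ hS => hS.1
        have e2 : pr W (fun S => FSat S f) ≤
            pr W (fun S => FSat S f ∧ CSat S {l}) + pr W (fun S => FSat S f ∧ ¬ CSat S {l}) := by
          refine le_trans ?_ (h1.2.2.2.1 W _ _)
          refine h1.2.2.1 _ _ _ fun S _ hS => ?_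
          by_cases hcs : CSat S {l}
          · exact Or.inl ⟨hS, hcs⟩
          · exact Or.inr ⟨hS, hcs⟩
        have e3 : (m : ℚ) / 2 ^ t = 2 * ((m : ℚ) / 2 ^ (t + 1)) := by
          rw [pow_succ]
          field_simp
        have e4 : pr W (fun S => FSat S (rl l f)) < (m : ℚ) / 2 ^ t := by
          rw [e3]
          linarith
        have e5 := ih W m (rl l f) hk hr1 (hr2 (j + 2) hc) e4
        rw [← hh] at e5
        have e6 := GN_two h
        have e7 := GN_two (h + 1)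
        have e8 : (1 : ℚ) / 2 ^ (h + 2) = 1 / 2 ^ (h + 1 + 1) := rfl
        have e9 : (1 : ℚ) / 2 ^ (Hn (j + 2) (t + 1)) ≤ 1 / 2 ^ (h + 2) :=
          GN_half _ _ (by rw [hHn]; omega)
        linarith
    · have hlight : ∀ p ∈ Trs V j f, (M p).card ≤ 2 ^ (j + 1) * (h + 2) := fun p hp =>
        (not_le.mp fun hle => hex ⟨p, hp, hle⟩).le
      obtain ⟨V', hV'W, hV'c, hV'r⟩ := hVg W V j (2 ^ (j + 1) * (h + 2)) f M hf hVW hc
        (fun c hc' => hVr c hc') hM hlight
      have e1 : V'.card ≤ s + (2 * s + 1) * ((j + 1) * (2 ^ (j + 1) * (h + 2))) := by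
        have e2 : (2 * V.card + 1) * ((j + 1) * (2 ^ (j + 1) * (h + 2))) ≤
            (2 * s + 1) * ((j + 1) * (2 ^ (j + 1) * (h + 2))) := Nat.mul_le_mul_right _ (by omega)
        omega
      have e3 := h15 (j + 2) j W V' _ (t + 1) m f hf hV'W hc hV'r e1 (by omega) hlt
      have e4 : (1 : ℚ) / 2 ^ (Hn (j + 2) (t + 1)) ≤
          1 / 2 ^ (Hf (j + 2) j (s + (2 * s + 1) * ((j + 1) * (2 ^ (j + 1) * (h + 2))))) :=
        GN_half _ _ (by rw [hHn]; omega)
      linarith

end Pool.Agent.AK
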