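import Pool.Agent.AK.StN

/-! # AK: the gap lemma, case `t = 0` -/

set_option autoImplicit false

namespace Pool.Agent.AK

theorem thm_GN0 (h1 : StG01) (h4 : StG04) : StGN0 := by
  intro W k m f hok hk hlt
  obtain ⟨hnn, hle, hmono, -, -, -, htrue⟩ := h1
  have hk0 : (0 : ℚ) < 1 / 2 ^ k := by positivity
  have hk1 : (1 : ℚ) / 2 ^ k ≤ 1 := by
    rw [div_le_one (by positivity)]
    exact one_le_pow₀ (by norm_num)
  rcases Nat.lt_or_ge m 1 with hm | hm
  · have hm0 : m = 0 := by omega
    subst hm0
    have h := hnn W (fun S => FSat S f)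
    rw [Nat.cast_zero] at hlt
    exact absurd hlt (not_lt.2 h)
  rcases Nat.lt_or_ge m 2 with hm2 | hm2
  · have hm1 : m = 1 := by omega
    subst hm1
    rw [Nat.cast_one] at hlt ⊢
    rcases Finset.eq_empty_or_nonempty f with hf | ⟨c, hc⟩
    · exfalso
      subst hf
      have h := hmono W (fun _ => True) (fun S => FSat S (∅ : Finset (Finset Lit)))
        (fun S _ _ c hc => absurd hc (Finset.notMem_empty c))
      rw [htrue W] at h
      exact absurd hlt (not_lt.2 h)
    · have h := hmono W (fun S => FSat S f) (fun S => CSat S c) (fun S _ hS => hS c hc)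
      rw [h4 W c (hok c hc).1 (hok c hc).2] at h
      have h5 : (1 : ℚ) / 2 ^ k ≤ (1 / 2) ^ c.card := by
        rw [one_div_pow]
        exact one_div_le_one_div_of_le (by positivity) (pow_le_pow_right₀ (by norm_num) (hk c hc))
      linarith
  · have h := hle W (fun S => FSat S f)
    have h2 : (2 : ℚ) ≤ (m : ℚ) := by exact_mod_cast hm2
    linarith

end Pool.Agent.AK
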