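import Pool.Agent.AK.Defs

set_option autoImplicit false

/-!
# AK, part G: the gap lemma and the growth inequalities (helper28)

Every `def StX : Prop` is one module: file `Pool/Agent/AK/X.lean`, `import Pool.Agent.AK.StG`,
`theorem thm_X : StY → StZ → StX` with the hypotheses named at the beginning of its docstring (in this order; no
hypotheses: `theorem thm_X : StX`). The docstrings contain the full proofs. Own lemmas are named `X_...`.

Finite formulas: a clause is here a FINITE SET of literals (`Finset Lit`), a formula a finite set of clauses,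
an assignment is a finite set `S` of names (the true variables), `pr W p` is the probability of `p S` for a
uniformly random subset `S` of `W`.
-/

namespace Pool.Agent.AK

/-- Probability of `p` for a random subset of `W` (classical decisions, so no instance argument). -/
noncomputable def pr (W : Finset Name) (p : Finset Name → Prop) : ℚ :=
  @Pr W p (Classical.decPred p)

/-- The clause `c` holds for `S`. -/
def CSat (S : Finset Name) (c : Finset Lit) : Prop := ∃ l ∈ c, (l.1 ∈ S ↔ l.2 = true)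

/-- All clauses of `f` hold for `S`. -/
def FSat (S : Finset Name) (f : Finset (Finset Lit)) : Prop := ∀ c ∈ f, CSat S c

/-- The variables of a clause. -/
def cv (c : Finset Lit) : Finset Name := c.image Prod.fst

/-- No variable occurs with both signs. -/
def NtC (c : Finset Lit) : Prop := ∀ x : Name, ¬ ((x, true) ∈ c ∧ (x, false) ∈ c)

/-- The residual part of `c`: the literals outside `V`. -/
def rs (V : Finset Name) (c : Finset Lit) : Finset Lit := c.filter fun l => l.1 ∉ V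

/-- The trace of `c`: the literals on `V`. -/
def tc (V : Finset Name) (c : Finset Lit) : Finset Lit := c.filter fun l => l.1 ∈ V

/-- `p` depends only on the variables of `U`. -/
def DepOn (p : Finset Name → Prop) (U : Finset Name) : Prop := ∀ S : Finset Name, p S ↔ p (S ∩ U)

/-- The clauses of `f` with trace `p` and exactly `j + 1` residual literals. -/
def Cls (V : Finset Name) (j : ℕ) (f : Finset (Finset Lit)) (p : Finset Lit) : Finset (Finset Lit) :=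
  f.filter fun c => tc V c = p ∧ (rs V c).card = j + 1

/-- The traces of the clauses of `f` with exactly `j + 1` residual literals. -/
def Trs (V : Finset Name) (j : ℕ) (f : Finset (Finset Lit)) : Finset (Finset Lit) :=
  (f.filter fun c => (rs V c).card = j + 1).image (tc V)

/-- `M p` is, for every `p`, a maximal family of clauses of `Cls V j f p` with pairwise disjoint residual variables. -/
def MaxFam (V : Finset Name) (j : ℕ) (f : Finset (Finset Lit)) (M : Finset Lit → Finset (Finset Lit)) : Prop :=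
  ∀ p, M p ⊆ Cls V j f p ∧
    (∀ c ∈ M p, ∀ d ∈ M p, c ≠ d → Disjoint (cv (rs V c)) (cv (rs V d))) ∧
    (∀ c ∈ Cls V j f p, ∃ d ∈ M p, ¬ Disjoint (cv (rs V c)) (cv (rs V d)))

/-- `f` is a formula over `W` without tautologies. -/
def Ok (W : Finset Name) (f : Finset (Finset Lit)) : Prop := ∀ c ∈ f, NtC c ∧ cv c ⊆ W

/-- The exponents of the gap lemma: `Hf k j S` for formulas in which every clause has at most `k` literals and
at most `j` literals outside a set of at most `S` variables. -/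
def Hf (k : ℕ) : ℕ → ℕ → ℕ
  | 0, S => S
  | j + 1, S => (fun T => 2 ^ (j + 1) *
      (Hf k j (S + (2 * S + 1) ^ k * (j + 1) * T) + 1 + (2 * S + 1) ^ k))^[(2 * S + 1) ^ k + 1] 0

/-- Size of the hitting set at the top level. -/
def S0 (k t : ℕ) : ℕ := k * (2 ^ k * (t + 1))

/-- One step of the scales at the top level. -/
def Ft (k t T : ℕ) : ℕ :=
  2 ^ (k - 1) * (Hf k (k - 2) (S0 k t + (2 * S0 k t + 1) * (k - 1) * T) + 1 + (2 * S0 k t + 1))

/-- **The gap exponent**. -/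
def H (k t : ℕ) : ℕ := (Ft k t)^[t + 2] (2 ^ (k - 1) * (2 * t + 4))

/-- The finite set version of a CNF. -/
def toF (φ : CNF) : Finset (Finset Lit) := (φ.map List.toFinset).toFinset

/-! ## Probability -/

/-- **G01** (basics of `pr`; no hypotheses). `pr W p` is the number of `S ∈ W.powerset` with `p S`, divided by `2 ^ W.card`
(`Finset.card_powerset`). (1) `0 ≤ pr`; (2) `pr ≤ 1`; (3) monotone: filter is monotone on the powerset; (4), (5) union bounds: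
`Finset.card_biUnion_le` / `Finset.card_union_le`; (6) complement: `Finset.card_filter_add_card_filter_not` or similar. -/
def StG01 : Prop :=
  (∀ W p, 0 ≤ pr W p) ∧ (∀ W p, pr W p ≤ 1) ∧
  (∀ W (p q : Finset Name → Prop), (∀ S ⊆ W, p S → q S) → pr W p ≤ pr W q) ∧
  (∀ W (p q : Finset Name → Prop), pr W (fun S => p S ∨ q S) ≤ pr W p + pr W q) ∧
  (∀ W (s : Finset (Finset Lit)) (E : Finset Lit → Finset Name → Prop),
    pr W (fun S => ∃ c ∈ s, E c S) ≤ ∑ c ∈ s, pr W (E c)) ∧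
  (∀ W (p : Finset Name → Prop), pr W (fun S => ¬ p S) = 1 - pr W p) ∧
  (∀ W, pr W (fun _ => True) = 1)

/-- **G02** (independence; no hypotheses). If `p` depends only on `U`, `q` only on `U'`, `U` and `U'` disjoint, then
`pr (p ∧ q) = pr p * pr q`. Proof: `S ↦ (S ∩ U, S \ U)` is a bijection from `W.powerset` to
`(W ∩ U).powerset ×ˢ (W \ U).powerset` with inverse `(X, Y) ↦ X ∪ Y`. `p S ↔ p X` (as `S ∩ U = X`), and `q S ↔ q (S ∩ U')`,
`S ∩ U' = (S \ U) ∩ U'`, so `q S ↔ q Y`. Let `a` = number of `X ∈ (W ∩ U).powerset` with `p X`, `b` = number of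
`Y ∈ (W \ U).powerset` with `q Y`, `u = (W ∩ U).card`, `v = (W \ U).card`, `u + v = W.card`. Then the number of `S` with `p ∧ q` is
`a * b`, with `p` it is `a * 2 ^ v`, with `q` it is `2 ^ u * b`. Hence the claim. -/
def StG02 : Prop :=
  ∀ (W U U' : Finset Name) (p q : Finset Name → Prop), DepOn p U → DepOn q U' → Disjoint U U' →
    pr W (fun S => p S ∧ q S) = pr W p * pr W q

/-- **G03** (one pattern; no hypotheses). For a set `L` of literals on `W` without a variable of both signs the probability that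
ALL literals of `L` hold is `2 ^ (- L.card)`. Proof: put `X = cv L` (it has `L.card` elements, as `Prod.fst` is injective on `L` by
`NtC`) and `X1 = {x | (x, true) ∈ L}`. All literals of `L` hold for `S` iff `S ∩ X = X1`. `S ↦ S \ X` is a bijection from the
`S ∈ W.powerset` with `S ∩ X = X1` to `(W \ X).powerset` (inverse `Y ↦ Y ∪ X1`), so their number is `2 ^ (W.card - L.card)`. -/
def StG03 : Prop :=
  ∀ (W : Finset Name) (L : Finset Lit), NtC L → cv L ⊆ W →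
    pr W (fun S => ∀ l ∈ L, (l.1 ∈ S ↔ l.2 = true)) = (1 / 2) ^ L.card

/-- **G04** (one clause; hypotheses `StG01`, `StG03`). `pr (CSat · c) = 1 - 2 ^ (- c.card)`. Proof: `¬ CSat S c` iff all literals of
`L = c.image (fun l => (l.1, !l.2))` hold for `S`; `L` is `NtC`, `cv L = cv c`, `L.card = c.card` (the map is injective);
complement from `StG01`. -/
def StG04 : Prop :=
  ∀ (W : Finset Name) (c : Finset Lit), NtC c → cv c ⊆ W → pr W (fun S => CSat S c) = 1 - (1 / 2) ^ c.card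

/-- **G05** (a disjoint family; hypotheses `StG01`, `StG02`, `StG04`). For clauses `g c`, `c ∈ M`, with pairwise disjoint sets of
variables, each with exactly `j` literals: the probability that all hold is `(1 - 2 ^ (-j)) ^ M.card`. Induction on `M`
(`Finset.induction_on`): the event for `insert c M` is the event for `c`, which depends only on `cv (g c)`, and the event for
`M`, which depends only on `M.biUnion (fun d => cv (g d))`, disjoint from it; `StG02`, `StG04`. Empty `M`: probability 1. -/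
def StG05 : Prop :=
  ∀ (W : Finset Name) (j : ℕ) (M : Finset (Finset Lit)) (g : Finset Lit → Finset Lit),
    (∀ c ∈ M, NtC (g c) ∧ cv (g c) ⊆ W ∧ (g c).card = j) →
    (∀ c ∈ M, ∀ d ∈ M, c ≠ d → Disjoint (cv (g c)) (cv (g d))) →
    pr W (fun S => ∀ c ∈ M, CSat S (g c)) = (1 - (1 / 2) ^ j) ^ M.card

/-- **G06** (numbers; no hypotheses). `(1 - 2^(-j))^T ≤ 2^(-x)` if `2^j * x ≤ T`. Proof: put `N = 2^j`. `(1 - 1/N)^N ≤ 1/2`: for
`N = 1` clear; for `N ≥ 2`, `(1 + 1/(N-1))^N ≥ 1 + N/(N-1) ≥ 2` (Bernoulli, `one_add_mul_le_pow`) and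
`(1 - 1/N) * (1 + 1/(N-1)) = 1`. Then `(1 - 1/N)^T ≤ (1 - 1/N)^(N x) = ((1 - 1/N)^N)^x ≤ (1/2)^x`
(`pow_le_pow_of_le_one`, base in [0,1]). -/
def StG06 : Prop := ∀ j x T : ℕ, 2 ^ j * x ≤ T → (1 - (1 / 2 : ℚ) ^ j) ^ T ≤ (1 / 2) ^ x

/-- **G07** (multiples; no hypotheses). If `p` depends only on `U ⊆ W` and `U.card ≤ s`, `t ≤ s`, then `pr W p < m / 2^t` implies
`pr W p ≤ m / 2^t - 1 / 2^s`. Proof: the number of `S ∈ W.powerset` with `p S` is `N * 2 ^ (W \ U).card`, `N` the number of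
`X ∈ U.powerset` with `p X` (bijection `S ↦ (S ∩ U, S \ U)`), so `pr W p = N / 2 ^ U.card = N' / 2^s` with
`N' = N * 2^(s - U.card)`; `m / 2^t = m' / 2^s`, `m' = m * 2^(s-t)`; `N' < m'` gives `N' + 1 ≤ m'` in `ℕ`. -/
def StG07 : Prop :=
  ∀ (W U : Finset Name) (p : Finset Name → Prop) (s t m : ℕ), DepOn p U → U ⊆ W → U.card ≤ s → t ≤ s →
    pr W p < (m : ℚ) / 2 ^ t → pr W p ≤ (m : ℚ) / 2 ^ t - 1 / 2 ^ s

/-! ## Combinatorics -/

/-- **G08** (scales; no hypotheses). `T` monotone, at most `h` elements `p` of `s` have `T 0 < ν p`. Then for some `i ≤ h` no `ν p` is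
in `(T i, T (i+1)]`. Proof: otherwise choose for `i = 0..h` an element `p_i ∈ s` with `T i < ν p_i ≤ T (i+1)`. For `i < i'`:
`ν p_i ≤ T (i+1) ≤ T i' < ν p_i'`, so the `p_i` are distinct; all satisfy `T 0 ≤ T i < ν p_i`: these are `h + 1` elements of the
filter (`Finset.card_le_card_of_injOn` from `Finset.range (h+1)`), contradiction. -/
def StG08 : Prop :=
  ∀ (s : Finset (Finset Lit)) (ν : Finset Lit → ℕ) (T : ℕ → ℕ) (h : ℕ), Monotone T →
    (s.filter fun p => T 0 < ν p).card ≤ h → ∃ i ≤ h, ∀ p ∈ s, ν p ≤ T i ∨ T (i + 1) < ν p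

/-- **G09** (number of traces; no hypotheses). Sets of at most `r` literals on `V`: at most `(2 |V| + 1)^r`. A set `P` of such sets.
Proof: let `α = Option Lit`, `D = insert none ((V ×ˢ Finset.univ).image some)`, a finset of `α` with at most `2 |V| + 1` elements.
The map from functions `Fin r → D` (`Fintype.piFinset fun _ => D`, it has `D.card ^ r` elements) to sets of literals,
`f ↦ (univ.image f).eraseNone` (or `Finset.univ.filter`/`preimage`), hits every set of at most `r` literals on `V`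
(enumerate its elements, fill up with `none`). So `P.card ≤ (2 * V.card + 1) ^ r` by `Finset.card_le_card_of_surjOn`.
(Other proof: induction on `r`: a nonempty set of at most `r + 1` literals is `insert l q` with `q` of at most `r` literals, the
empty set is of at most `r` literals: number `≤ N_r + 2|V| N_r`.) -/
def StG09 : Prop :=
  ∀ (V : Finset Name) (r : ℕ) (P : Finset (Finset Lit)),
    (∀ p ∈ P, cv p ⊆ V ∧ p.card ≤ r) → P.card ≤ (2 * V.card + 1) ^ r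

/-- **G10** (maximal families exist; no hypotheses). For each `p` take a subset `M p` of `Cls V j f p` of maximal cardinality among
those with pairwise disjoint residual variables (the powerset is finite, the empty set qualifies; `Finset.exists_max_image`).
Maximality: `c ∈ M p`: take `d = c`; `cv (rs V c)` is nonempty because `(rs V c).card = j + 1 ≥ 1`, so not disjoint from itself.
`c ∉ M p`: if all `d ∈ M p` had disjoint residual variables, `insert c (M p)` would be larger. -/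
def StG10 : Prop := ∀ V j f, ∃ M, MaxFam V j f M

/-- **G11** (heavy traces are improbable; hypotheses `StG01`, `StG05`). Let `M` be a maximal family, `p` a trace, `N ≤ (M p).card`. Then
`pr (FSat f ∧ ¬ CSat p) ≤ (1 - 2^(-(j+1)))^N`. Proof: if `S` satisfies `f` and not `p`, then for every `c ∈ M p` the clause `c` holds,
`c = tc V c ∪ rs V c`, `tc V c = p` fails, so `CSat S (rs V c)`. By `StG01` (monotone) and `StG05` (with `g = rs V`, family `M p`,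
`j + 1` literals each, `rs V c ⊆ c` is `NtC` with variables in `W` by `Ok`) the probability is at most
`(1 - 2^(-(j+1)))^(M p).card ≤ (1 - 2^(-(j+1)))^N`. -/
def StG11 : Prop :=
  ∀ (W V : Finset Name) (j : ℕ) (f : Finset (Finset Lit)) (M : Finset Lit → Finset (Finset Lit)), Ok W f → MaxFam V j f M →
    ∀ (p : Finset Lit) (N : ℕ), N ≤ (M p).card →
      pr W (fun S => FSat S f ∧ ¬ CSat S p) ≤ (1 - (1 / 2 : ℚ) ^ (j + 1)) ^ N

/-- **G12** (THE STEP; hypotheses `StG01`, `StG08`, `StG11`). Proof. `StG08` for the traces `P = Trs V j f`, `ν p = (M p).card`: some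
`i ≤ h` such that every `p ∈ P` is light (`(M p).card ≤ T i`) or heavy (`T (i+1) < (M p).card`). Let `Hv` = the heavy `p ∈ P`. Put
`g = (f.filter fun c => ¬ ((rs V c).card = j + 1 ∧ tc V c ∈ Hv)) ∪ Hv`,
`V' = V ∪ (P.filter light).biUnion fun p => (M p).biUnion fun c => cv (rs V c)`.
* `V'.card ≤ V.card + P.card * ((j+1) * T i)` because `(cv (rs V c)).card ≤ (rs V c).card = j + 1` for `c ∈ M p`.
* `V' ⊆ W` if `V ⊆ W`.
* `Ok W g`, and every clause of `g` has at most `k` literals: a trace is a subset of a clause.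
* every clause of `g` has at most `j` residual literals for `V'`: if `c` is a trace, `rs V' c = ∅`. If `c ∈ f` with
  `(rs V c).card ≤ j`: `rs V' c ⊆ rs V c`. Otherwise `(rs V c).card = j + 1`, `p = tc V c ∈ P` is not heavy, so light;
  `c ∈ Cls V j f p`, so some `d ∈ M p` has a common residual variable `x` with `c`; `x ∈ V'`, the literal of `c` on `x` is in
  `rs V c` and not in `rs V' c`: `(rs V' c).card ≤ j`.
* `FSat S g → FSat S f`: a removed clause `c` contains its trace, which is in `g` and holds.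
* `FSat S f` and not `FSat S g` implies `¬ CSat S p` for some `p ∈ Hv`. So
  `pr (FSat f) ≤ pr (FSat g) + ∑_(p ∈ Hv) pr (FSat f ∧ ¬ CSat p) ≤ pr (FSat g) + P.card * (1 - 2^(-(j+1)))^(T (i+1))` by `StG11`
  with `N = T (i+1)`. -/
def StG12 : Prop :=
  ∀ (W V : Finset Name) (k j h : ℕ) (f : Finset (Finset Lit)) (M : Finset Lit → Finset (Finset Lit)) (T : ℕ → ℕ),
    Ok W f → V ⊆ W → (∀ c ∈ f, c.card ≤ k) → (∀ c ∈ f, (rs V c).card ≤ j + 1) → MaxFam V j f M → Monotone T →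
    ((Trs V j f).filter fun p => T 0 < (M p).card).card ≤ h →
    ∃ i ≤ h, ∃ (V' : Finset Name) (g : Finset (Finset Lit)),
      V' ⊆ W ∧ V'.card ≤ V.card + (Trs V j f).card * (j + 1) * T i ∧ Ok W g ∧ (∀ c ∈ g, c.card ≤ k) ∧
      (∀ c ∈ g, (rs V' c).card ≤ j) ∧
      pr W (fun S => FSat S g) ≤ pr W (fun S => FSat S f) ∧
      pr W (fun S => FSat S f) ≤
        pr W (fun S => FSat S g) + (Trs V j f).card * (1 - (1 / 2 : ℚ) ^ (j + 1)) ^ T (i + 1)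

/-- **G13** (`Hf` is monotone in the last argument; no hypotheses). Induction on `j`: `j = 0` clear. Step: the iterated function
`F_S(T) = 2^(j+1) * (Hf k j (S + P_S (j+1) T) + 1 + P_S)`, `P_S = (2S+1)^k`, is monotone in `T` and in `S` (induction hypothesis), so
for `S ≤ S'` and all `i`: `F_S^[i] 0 ≤ F_S'^[i] 0` (induction on `i`); and `i ↦ F_S'^[i] 0` is monotone (as `0 ≤ F_S' 0` and `F_S'`
monotone: `Monotone.monotone_iterate_of_le_map`), with `P_S + 1 ≤ P_S' + 1`. -/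
def StG13 : Prop := ∀ k j : ℕ, Monotone (Hf k j)

/-- **G14** (one application of the step; hypotheses `StG06`). Pure arithmetic: let `θ, x, y` be rationals, `x` = density of `f`, `y` =
density of `g`, `y ≤ x < θ`; suppose `y < θ → y ≤ θ - 2^(-a)`, `x ≤ y + n * (1 - 2^(-(j+1)))^T`, `n ≤ q` and
`2^(j+1) * (a + 1 + q) ≤ T`. Then `x ≤ θ - 2^(-(a+1))`. Proof: `y < θ`, so `y ≤ θ - 2^(-a)`; by `StG06`
`(1 - 2^(-(j+1)))^T ≤ 2^(-(a+1+q))`; `n * 2^(-q) ≤ q * 2^(-q) ≤ 1`; so `x ≤ θ - 2^(-a) + 2^(-(a+1)) = θ - 2^(-(a+1))`. -/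
def StG14 : Prop :=
  ∀ (θ x y : ℚ) (a n q j T : ℕ), y ≤ x → x < θ → (y < θ → y ≤ θ - 1 / 2 ^ a) →
    x ≤ y + n * (1 - (1 / 2 : ℚ) ^ (j + 1)) ^ T → n ≤ q → 2 ^ (j + 1) * (a + 1 + q) ≤ T →
    x ≤ θ - 1 / 2 ^ (a + 1)

/-- **G15** (gap lemma below the top level; hypotheses `StG07`, `StG09`, `StG10`, `StG12`, `StG13`, `StG14`). Induction on `j` for all
`V, S, f`. `j = 0`: all literals of `f` are on `V`, so `fun S => FSat S f` depends only on `V`; `StG07` (`Hf k 0 s = s`).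
Step `j → j + 1`: let `P = (2s+1)^k`, `F T = 2^(j+1) * (Hf k j (s + P (j+1) T) + 1 + P)`, `T i = F^[i] 0`, monotone in `i` (`F` is
monotone by `StG13`, `0 ≤ F 0`). `M` from `StG10`. `n = (Trs V j f).card ≤ (2 |V| + 1)^k ≤ P` by `StG09` (a trace is a set of at most
`k` literals on `V`). `StG12` with `h = P` (`≥ n`): `i ≤ P`, `V'`, `g`. `V'.card ≤ s + P (j+1) T i =: s'`, and `t ≤ s ≤ s'`; induction
hypothesis for `g`, `V'`, `s'`: gap exponent `a = Hf k j s'`. `StG14` with `T (i+1) = 2^(j+1) * (a + 1 + P)`, `q = P`: gap exponent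
`a + 1` for `f`, and `a + 1 ≤ T (i+1) ≤ T (P+1) = Hf k (j+1) s`. A gap with a smaller exponent is a larger gap. -/
def StG15 : Prop :=
  ∀ (k j : ℕ) (W V : Finset Name) (s t m : ℕ) (f : Finset (Finset Lit)),
    Ok W f → V ⊆ W → (∀ c ∈ f, c.card ≤ k) → (∀ c ∈ f, (rs V c).card ≤ j) → V.card ≤ s → t ≤ s →
    pr W (fun S => FSat S f) < (m : ℚ) / 2 ^ t →
    pr W (fun S => FSat S f) ≤ (m : ℚ) / 2 ^ t - 1 / 2 ^ (Hf k j s)

/-- **G16** (few heavy traces at the top level; hypotheses `StG01`, `StG03`, `StG06`, `StG11`). Here every clause has at most `j + 2`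
literals, `V ⊆ W`, `M` a maximal family, `τ = 2^(j+1) * (2t+4)`. Then `pr (FSat f) ≤ 2^(-(t+1))` or at most `t + 1` traces have
`τ < (M p).card`. Proof. Put `δ = (1 - 2^(-(j+1)))^τ ≤ 2^(-(2t+4))` (`StG06`). Let `Hv` be the heavy traces; `p ∈ Hv` is the trace of a
clause with `j + 1` residual and at most `j + 2` literals, so `p.card ≤ 1`. `StG11`: `pr (FSat f ∧ ¬ CSat p) ≤ δ` for `p ∈ Hv`.
(i) `∅ ∈ Hv`: never `CSat S ∅`, so `pr (FSat f) ≤ δ`. (ii) `{(x,true)}, {(x,false)} ∈ Hv`: every `S` violates one of them, so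
`pr (FSat f) ≤ 2 δ ≤ 2^(-(t+1))`. (iii) Otherwise all `p ∈ Hv` are singletons `{l_p}` with distinct variables. If `Hv.card ≥ t + 2`
take `L ⊆ {l_p}` with `t + 2` elements, it is `NtC`: `FSat f` implies that all literals of `L` hold, or `FSat f ∧ ¬ CSat {l}` for some
`l ∈ L`: `pr (FSat f) ≤ 2^(-(t+2)) + (t+2) δ ≤ 2^(-(t+2)) + 2^(-(t+2)) = 2^(-(t+1))` (`StG03`; `t + 2 ≤ 2^(t+2)`). -/
def StG16 : Prop :=
  ∀ (W V : Finset Name) (j t : ℕ) (f : Finset (Finset Lit)) (M : Finset Lit → Finset (Finset Lit)),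
    Ok W f → V ⊆ W → (∀ c ∈ f, c.card ≤ j + 2) → MaxFam V j f M →
    pr W (fun S => FSat S f) ≤ 1 / 2 ^ (t + 1) ∨
    ((Trs V j f).filter fun p => 2 ^ (j + 1) * (2 * t + 4) < (M p).card).card ≤ t + 1

/-- **G17** (hitting set at the top level; hypotheses `StG01`, `StG05`, `StG06`). Every clause has at most `k` literals, `1 ≤ k`. Then
`pr (FSat f) ≤ 2^(-(t+1))` or some `V ⊆ W` with `V.card ≤ S0 k t` meets every clause with `k` literals: every clause has at most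
`k - 1` literals outside `V`. Proof: take a family `N` of clauses of `f` with exactly `k` literals and pairwise disjoint variables, of
maximal cardinality. If `N.card ≥ 2^k (t+1)`: `pr (FSat f) ≤ (1 - 2^(-k))^N.card ≤ 2^(-(t+1))` (`StG05` with `g = id`, `StG06`).
Otherwise `V = N.biUnion cv`, `V.card ≤ k * N.card ≤ S0 k t`; a clause with `k ≥ 1` literals meets `V` by maximality (for a clause of
`N` itself because it is nonempty), so it has at most `k - 1` literals outside `V`. -/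
def StG17 : Prop :=
  ∀ (W : Finset Name) (k t : ℕ) (f : Finset (Finset Lit)), 1 ≤ k → Ok W f → (∀ c ∈ f, c.card ≤ k) →
    pr W (fun S => FSat S f) ≤ 1 / 2 ^ (t + 1) ∨
    ∃ V ⊆ W, V.card ≤ S0 k t ∧ ∀ c ∈ f, (rs V c).card ≤ k - 1

/-- **G18** (the gap lemma for finite formulas; hypotheses `StG01`, `StG09`, `StG10`, `StG12`, `StG13`, `StG14`, `StG15`, `StG16`,
`StG17`). `2 ≤ k`; write `k = j + 2`. If `pr (FSat f) ≤ 2^(-(t+1))`: `0 ≤ pr < m / 2^t` gives `1 ≤ m`, so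
`m / 2^t - 2^(-H) ≥ 2^(-t) - 2^(-(t+1)) = 2^(-(t+1)) ≥ pr` as `H k t ≥ t + 1` (`H ≥ T_0 = 2^(k-1)(2t+4)`). Otherwise `V` from `StG17`
(`V.card ≤ S0 k t =: s`, `t ≤ s`), `M` from `StG10`, by `StG16` at most `t + 1` traces have more than `T_0 = 2^(j+1) (2t+4)` clauses.
Put `T i = (Ft k t)^[i] T_0`: monotone, as `Ft k t` is monotone (`StG13`) and
`Ft k t T_0 ≥ 2^(k-1) * (2 * S0 k t + 1) ≥ 2^(k-1) * (2t+4)`. `n = (Trs V j f).card ≤ 2 |V| + 1 ≤ 2s + 1` by `StG09` with `r = 1` (a trace of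
a clause with `j + 1` residual literals has at most one literal). `StG12` with `h = t + 1`: `i ≤ t + 1`, `V'`, `g`, with
`V'.card ≤ s' = s + (2s+1)(j+1) T i`. `StG15` for `g`: gap exponent `a = Hf k j s'`. `StG14` with `q = 2s + 1`,
`T (i+1) = Ft k t (T i) = 2^(j+1) * (a + 1 + q)`: gap exponent `a + 1 ≤ T (i+1) ≤ T (t+2) = H k t`. -/
def StG18 : Prop :=
  ∀ (W : Finset Name) (k t m : ℕ) (f : Finset (Finset Lit)), 2 ≤ k → Ok W f → (∀ c ∈ f, c.card ≤ k) →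
    pr W (fun S => FSat S f) < (m : ℚ) / 2 ^ t →
    pr W (fun S => FSat S f) ≤ (m : ℚ) / 2 ^ t - 1 / 2 ^ (H k t)

/-- **G19** (translation; no hypotheses). For `φ` with `Nt φ` and `width φ ≤ k`: `toF φ` is `Ok (vars φ)`, its clauses have at most `k`
literals and `dens φ = pr (vars φ) (fun S => FSat S (toF φ))`. Proof: `Sat S φ ↔ FSat S (toF φ)` (membership in `toFinset`);
`count φ` = card of a filter of `(vars φ).powerset`; `C.toFinset.card ≤ C.length ≤ width φ` (`foldr max`); `(C.map Prod.fst).Nodup`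
excludes `(x,true), (x,false) ∈ C`. -/
def StG19 : Prop :=
  ∀ (φ : CNF) (k : ℕ), Nt φ → width φ ≤ k → Ok (vars φ) (toF φ) ∧ (∀ c ∈ toF φ, c.card ≤ k) ∧
    dens φ = pr (vars φ) (fun S => FSat S (toF φ))

/-- **GAP** (hypotheses `StG18`, `StG19`). The gap lemma. -/
def StGap : Prop :=
  ∀ (k t m : ℕ) (φ : CNF), 2 ≤ k → Nt φ → width φ ≤ k → dens φ < (m : ℚ) / 2 ^ t →
    dens φ ≤ (m : ℚ) / 2 ^ t - 1 / 2 ^ (H k t)

/-- **DIG** (digits from an approximation; hypothesis `StGap`). `n = nv φ`, `t ≤ n`, `dens φ ≤ α ≤ dens φ + 2^(-(H k t + 1))`,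
`F = ⌊2^n α⌋`. Then `F / 2^(n-t) = count φ / 2^(n-t)` (division in `ℕ`), and for `t ≤ n` and every `m`:
`m / 2^t ≤ α ↔ m * 2^(n-t) ≤ count φ`. Proof: `count φ = 2^n dens φ`. Let `m0 = count φ / 2^(n-t) + 1`; `count φ < m0 * 2^(n-t)`
(`Nat.lt_mul_of_div_lt` or similar), so `dens φ < m0 / 2^t`, `StGap`: `dens φ ≤ m0 / 2^t - 2^(-H)`, `α < m0 / 2^t`,
`2^n α < m0 2^(n-t)`, `F < m0 2^(n-t)`, `F / 2^(n-t) < m0`. Also `F ≥ count φ` as `α ≥ dens φ`. Second claim: `←` from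
`α ≥ dens φ`; `→`: if `count φ < m 2^(n-t)`, then `dens φ < m / 2^t`, so `α < m / 2^t` in the same way. -/
def StDig : Prop :=
  ∀ (k t : ℕ) (φ : CNF) (α : ℚ), 2 ≤ k → Nt φ → width φ ≤ k → t ≤ nv φ → dens φ ≤ α →
    α ≤ dens φ + 1 / 2 ^ (H k t + 1) →
    ⌊2 ^ nv φ * α⌋₊ / 2 ^ (nv φ - t) = count φ / 2 ^ (nv φ - t) ∧
    ∀ m : ℕ, (m : ℚ) / 2 ^ t ≤ α ↔ m * 2 ^ (nv φ - t) ≤ count φ

/-! ## Growth -/

/-- **N01** (basic facts on `A`; no hypotheses). (1) `A j` is strictly monotone and (2) `x < A j x`; (3) `A j 0 = j + 2`;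
(4) `A j x ≤ A (j+1) x`; (5) `2^(x+1) ≤ A j x`; (6) `3 * A j x ≤ 2 * A j (x+1)`; (7) `2 * A j x ≤ A j (x+2)`;
(8) `2^(A (j+1) x - x) ≤ A (j+1) (x+1)`.
Proof. `j = 0`: clear (`A 0 (x+1) = 2 * A 0 x + 1 - x`; (6): `2 * (x+1+2^(x+2)) ≥ 3 * (x + 2^(x+1))` as `2^(x+1) ≥ x`). Induction:
`A (j+1) (x+1) = x + 2 + A j ((A j)^[x+1] 0)` with `(A j)^[x+1] 0 = A (j+1) x - x - 1` (`Function.iterate_succ_apply'`): this is
`> A (j+1) x` by (2) for `j`: strict monotonicity (`strictMono_nat_of_lt_succ`). (2): `x + 1 + _ > x`. (3) by definition. (4): `x ≤ (A j)^[x] 0`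
(by (2), `(A j)^[i] 0 ≥ i`), so `(A j)^[x+1] 0 = A j ((A j)^[x] 0) ≥ A j x`. (5) by (4) from `j = 0`. (8): `A (j+1) (x+1) ≥ A j (A (j+1) x - x - 1) ≥ 2^(A (j+1) x - x)` by (5).
(6) for `j+1`: let `a = A (j+1) x ≥ 2^(x+1)` and `a ≥ x + 3`: `2 * 2^(a-x) ≥ 3 a`: as `a ≥ 2^(x+1) ≥ 2x + 2`, `a - x ≥ a/2 + 1`, `2 * 2^(a/2+1) ≥ 3 a`
(for `a ≥ 3`; check small `a`; (3) gives `a ≥ 3` for `j + 1`). (7) from (6) twice: `9/4 ≥ 2`. -/
def StN01 : Prop :=
  (∀ j, StrictMono (A j)) ∧ (∀ j x, x < A j x) ∧ (∀ j, A j 0 = j + 2) ∧ (∀ j x, A j x ≤ A (j + 1) x) ∧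
  (∀ j x, 2 ^ (x + 1) ≤ A j x) ∧ (∀ j x, 3 * A j x ≤ 2 * A j (x + 1)) ∧ (∀ j x, 2 * A j x ≤ A j (x + 2)) ∧
  (∀ j x, 2 ^ (A (j + 1) x - x) ≤ A (j + 1) (x + 1))

/-- **N02** (iterates; hypothesis `StN01`). (1) `x + i ≤ (A j)^[i] x`; (2) `(A j)^[i] x ≤ (A j)^[i+x] 0` (as `x ≤ (A j)^[x] 0` and
`Function.iterate_add_apply`); (3) `(A j)^[i]` monotone; (4) `(A j)^[i] x ≤ (A j)^[i'] x` for `i ≤ i'`;
(5) `(A j)^[i] (x+1) ≥ (A j)^[i] x + 1` (strictly monotone); (6) `2^m * A j x ≤ A j (x + 2m)`. -/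
def StN02 : Prop :=
  (∀ j i x, x + i ≤ (A j)^[i] x) ∧ (∀ j i x, (A j)^[i] x ≤ (A j)^[i + x] 0) ∧ (∀ j i, Monotone (A j)^[i]) ∧
  (∀ j i i' x, i ≤ i' → (A j)^[i] x ≤ (A j)^[i'] x) ∧ (∀ j i x, (A j)^[i] x + 1 ≤ (A j)^[i] (x + 1)) ∧
  (∀ j m x, 2 ^ m * A j x ≤ A j (x + 2 * m))

/-- **N03** (squares; hypothesis `StN01`). `(A j u)^2 ≤ A j (2u+2)`. `j = 0`: `(u + 2^(u+1))^2 ≤ 2u + 2 + 2^(2u+3)`: with `y = 2^(u+1) ≥ u + 2`... :
`(u + y)^2 = y^2 + 2uy + u^2 ≤ 2 y^2` iff `2uy + u^2 ≤ y^2`, true for `y ≥ 2.42 u`, i.e. for all `u ≥ 0` except where checked by hand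
(`u = 1`: `25 ≤ 4 + 32`; `u = 2`: `y = 8`: `100 ≤ 6 + 128`; `u ≥ 3`: `2^(u+1) ≥ 3u`; `u = 0`: `4 ≤ 10`). `j + 1`: let `a = A (j+1) u ≥ 3`. `A (j+1) (2u+2) ≥ A (j+1) (u+2)
≥ 2^(A (j+1) (u+1) - (u+1))` by (8), and `A (j+1) (u+1) ≥ 2^(a-u)` by (8) again, `a ≥ 2^(u+1)`, so `a - u ≥ a/2 + 1`.
`A (j+1) (u+1) - (u+1) ≥ 2^(a-u) - (u+1) ≥ 2^(a/2+1) - a/2`, which is `≥ 2 * Nat.size a`: then `2^(...) ≥ (2^(size a))^2 ≥ a^2`. -/
def StN03 : Prop := ∀ j u, (A j u) ^ 2 ≤ A j (2 * u + 2)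

/-- **N04** (powers; hypotheses `StN01`, `StN02`, `StN03`). For `4 ≤ x`: `((A j)^[3] x)^(9x) ≤ (A j)^[3] (x+1)`. Proof. From `StN03` by
induction on `m`: `(A j u)^(2^m) ≤ A j (2^m (u+2) - 2)`. Let `u = (A j)^[2] x`, `v = (A j)^[2] (x+1)`. Choose `m` with `9x ≤ 2^m ≤ 18x`
(`Nat.clog`). `((A j)^[3] x)^(9x) = (A j u)^(9x) ≤ (A j u)^(2^m) ≤ A j (2^m (u+2)) ≤ A j v` if `18 x (u+2) ≤ v`. By N01 (6) and (5)
`A j (x+1) ≥ A j x + 2^x` (`A j x ≥ 2^(x+1)` and `2 A j (x+1) ≥ 3 A j x`), so by N02 (6) with `2m' ≤ 2^x`, `m' = 2^(x-1)`: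
`v = A j (A j (x+1)) ≥ A j (A j x + 2^x) ≥ 2^(2^(x-1)) * A j (A j x) = 2^(2^(x-1)) * u ≥ 36 x u ≥ 18 x (u+2)`
(`u ≥ 2`; `2^(2^(x-1)) ≥ 36x` for `x ≥ 4`: `256 ≥ 144`). -/
def StN04 : Prop := ∀ j x, 4 ≤ x → ((A j)^[3] x) ^ (9 * x) ≤ (A j)^[3] (x + 1)

/-- **N05** (iteration with a slowly growing error; hypotheses `StN01`, `StN02`). Let `Φ : ℕ → ℕ` be monotone with
`Φ ((A j)^[3] x) ≤ (A j)^[3] (x+1)` for all `x ≥ x0`, let `F y ≤ A j (Φ y)` for all `y`, and `y0 ≤ (A j)^[3] x0`. Then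
`F^[i] y0 ≤ (A j)^[i+3] (x0 + i)`. Proof. First, for `n ≥ 3`, `x ≥ x0`: `Φ ((A j)^[n] x) ≤ (A j)^[n] (x+1)`: write
`(A j)^[n] x = (A j)^[3] z`, `z = (A j)^[n-3] x ≥ x ≥ x0`; `Φ (..) ≤ (A j)^[3] (z+1) ≤ (A j)^[3] ((A j)^[n-3] (x+1))` by N02 (5), (3).
Induction on `i`: `F^[i+1] y0 = F (F^[i] y0) ≤ A j (Φ (F^[i] y0)) ≤ A j (Φ ((A j)^[i+3] (x0+i))) ≤ A j ((A j)^[i+3] (x0+i+1))`. -/
def StN05 : Prop :=
  ∀ (j x0 y0 : ℕ) (Φ F : ℕ → ℕ), Monotone Φ → (∀ x, x0 ≤ x → Φ ((A j)^[3] x) ≤ (A j)^[3] (x + 1)) →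
    (∀ y, F y ≤ A j (Φ y)) → y0 ≤ (A j)^[3] x0 → ∀ i, F^[i] y0 ≤ (A j)^[i + 3] (x0 + i)

/-- **N06** (the function `Φ` of the gap lemma; hypotheses `StN02`, `StN04`). Let `3 ≤ k`, `p ≥ 27`, `b ≤ p` and `k ≤ p`; put
`Φ y = (b + 2 * p * k * y)^(2k) + 2k + 2` (used with `b = 2s + 1`). Then `Φ` is monotone and for `x ≥ p`:
`Φ ((A j)^[3] x) ≤ (A j)^[3] (x+1)`. Proof. `y = (A j)^[3] x ≥ x ≥ p` so `b, k, p ≤ y`, `b + 2pky ≤ y + 2y^3 ≤ 3 y^3 ≤ y^4` (`y ≥ 27`),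
`Φ y ≤ y^(8k) + 2k + 2 ≤ y^(8k+1) ≤ y^(9k) ≤ y^(9x)`, `StN04`. -/
def StN06 : Prop :=
  ∀ (j k p b : ℕ), 3 ≤ k → 27 ≤ p → b ≤ p → k ≤ p →
    Monotone (fun y => (b + 2 * p * k * y) ^ (2 * k) + 2 * k + 2) ∧
    ∀ x, p ≤ x → (b + 2 * p * k * (A j)^[3] x) ^ (2 * k) + 2 * k + 2 ≤ (A j)^[3] (x + 1)

/-- **N07** (`Hf` for `j = 1`; hypothesis `StN01`). For `3 ≤ k`, `1 ≤ s`: `Hf k 1 s ≤ A 0 ((2s+1)^(2k))`. Proof: `P = (2s+1)^k ≥ 27`, `s + 1 ≤ P`. The
iterated function is `F T = 2 * (s + P * 1 * T + 1 + P)`, `F T + 1 ≤ 4 P (T + 1)` (`2s + 3 ≤ 2P`), so `F^[i] 0 + 1 ≤ (4P)^i`,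
`Hf k 1 s ≤ (4P)^(P+1)`. `4P ≤ 2^(P/2)` for `P ≥ 27` (in the form `(4P)^2 ≤ 2^P`), so `((4P)^(P+1))^2 ≤ 2^(P(P+1)) ≤ (2^(P^2))^2`, hence
`Hf k 1 s ≤ 2^(P^2) ≤ A 0 (P^2)`, `P^2 = (2s+1)^(2k)`. -/
def StN07 : Prop := ∀ k s, 3 ≤ k → 1 ≤ s → Hf k 1 s ≤ A 0 ((2 * s + 1) ^ (2 * k))

/-- **N08** (`Hf` for all `j`; hypotheses `StN01`, `StN02`, `StN05`, `StN06`, `StN07`). For `3 ≤ k`, `1 ≤ s`, `j + 1 ≤ k`: `Hf k (j+1) s ≤ A j ((2s+1)^(2k))`.
Induction on `j`; `j = 0` is `StN07`. Step to `j + 1` (`j + 2 ≤ k`): `P = (2s+1)^k ≥ 27`; the iterated function is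
`F T = 2^(j+2) * (Hf k (j+1) s' + 1 + P)`, `s' = s + P (j+2) T`. By induction `Hf k (j+1) s' ≤ A j z`, `z = (2s'+1)^(2k) ≥ P^2`, and
`1 + P ≤ A j z`. So `F T ≤ 2^(j+3) * A j z ≤ A j (z + 2 (j+3)) ≤ A j (Φ T)`, `Φ T = (2s + 1 + 2 P k T)^(2k) + 2k + 2`
(`j + 2 ≤ k`, so `2(j+3) ≤ 2k + 2`). `StN06` with `b = 2s + 1`, `p = P`, and `StN05` with `x0 = P`, `y0 = 0`: `Hf k (j+2) s = F^[P+1] 0 ≤
(A j)^[P+4] (2P+1) ≤ (A j)^[3P+5] 0 ≤ A (j+1) (3P+4) ≤ A (j+1) (P^2)` (N02 (2); definition of `A (j+1)`; `P ≥ 5`). -/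
def StN08 : Prop := ∀ k s j, 3 ≤ k → 1 ≤ s → j + 1 ≤ k → Hf k (j + 1) s ≤ A j ((2 * s + 1) ^ (2 * k))

/-- **N09** (the top level; hypotheses `StN01`, `StN02`, `StN05`, `StN06`, `StN08`). For `3 ≤ k`: `H k t ≤ (A (k-3))^[t+7] (k+t)`. Proof. Write
`k = j + 3`; `A (k-3) = A j`, `Hf k (k-2) = Hf k (j+1)`. `s = S0 k t = k 2^k (t+1) ≥ 24`, `p = 2s + 1 ≥ 27`, `t, k ≤ p`.
`Ft k t T = 2^(k-1) * (Hf k (j+1) (s + p (k-1) T) + 1 + p) ≤ 2^(k-1) * (A j z + 1 + p)` with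
`z = (2 (s + p (k-1) T) + 1)^(2k) ≤ (p + 2 p k T)^(2k)`, `1 + p ≤ A j z`, so `≤ 2^k * A j z ≤ A j (z + 2k) ≤ A j (Φ T)`,
`Φ T = (p + 2 p k T)^(2k) + 2k + 2`. `T_0 = 2^(k-1) (2t+4) ≤ p ≤ (A j)^[3] p`. `StN06` (`b = p`), `StN05` with `x0 = p`:
`H k t = (Ft k t)^[t+2] T_0 ≤ (A j)^[t+5] (p + t + 2)`. Finally `p + t + 2 ≤ (A j)^[2] (k+t)`: `(A j)^[2] (k+t) ≥ 2^(A j (k+t) + 1) ≥
2^(2^(k+t+1) + 1)` and `p + t + 2 = 2 k 2^k (t+1) + t + 3 ≤ 2^(2k+t+4) ≤ 2^(2^(k+t+1))` (`k ≤ 2^k`, `t + 1 ≤ 2^t`;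
`2k + t + 4 ≤ 2^(k+t+1)` for `k ≥ 3`). -/
def StN09 : Prop := ∀ k t, 3 ≤ k → H k t ≤ (A (k - 3))^[t + 7] (k + t)

/-- **N10** (one logarithm is enough; hypotheses `StN01`, `StN02`). For `3 ≤ k`, `k ≤ q`, `h ≤ B k q` and `B k (q+3) < n`:
`k * (2^k * (h + 1)) ≤ Nat.log 2 n`. Proof: let `b = B k q ≥ q ≥ k` (N02 (1)). `B k (q+3) = A (k-3) (B k (q+2)) ≥ 2^(B k (q+2))` (N01 (5)), so
`Nat.log 2 n ≥ B k (q+2) ≥ 2^(B k (q+1) + 1) ≥ 2^(2^(b+1) + 1)`, and `k 2^k (h+1) ≤ b 2^b (b+1) ≤ 2^(3b+1) ≤ 2^(2^(b+1)+1)`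
(`3b ≤ 2^(b+1)` for `b ≥ 3`). -/
def StN10 : Prop := ∀ k q h n, 3 ≤ k → k ≤ q → h ≤ B k q → B k (q + 3) < n → k * (2 ^ k * (h + 1)) ≤ Nat.log 2 n

/-- **N11** (basic facts on `B`, `al`, `alk`; hypotheses `StN01`, `StN02`). For `3 ≤ k`: (1) `B k` is strictly monotone, `q ≤ B k q`;
(2) `B k q ≤ B (k+1) q`; (3) `q < alk k n → B k q < n` (`Nat.notMem_of_lt_sInf`), and `n ≤ B k (alk k n)` (`Nat.sInf_mem`, nonempty by
`n ≤ B k n`); `alk k n ≤ n`; (4) `4 ≤ al n` and `n ≤ B (al n - 1) (al n - 1)`; if `4 ≤ k + 1 < al n` then `B k k < n`; (5) `B k k ≤ B (k+1) (k+1)`.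
(`(A j)^[i] x ≤ (A (j+1))^[i] x` by induction on `i` from N01 (4) and monotonicity.) -/
def StN11 : Prop :=
  (∀ k, 3 ≤ k → StrictMono (B k) ∧ ∀ q, q ≤ B k q) ∧ (∀ k q, 3 ≤ k → B k q ≤ B (k + 1) q) ∧
  (∀ k n q, 3 ≤ k → q < alk k n → B k q < n) ∧ (∀ k n, 3 ≤ k → n ≤ B k (alk k n) ∧ alk k n ≤ n) ∧
  (∀ n, 4 ≤ al n ∧ n ≤ B (al n - 1) (al n - 1)) ∧ (∀ k n, 3 ≤ k → k + 1 < al n → B k k < n) ∧
  (∀ k, 3 ≤ k → B k k ≤ B (k + 1) (k + 1))

/-- **GROW1** (for M1; hypotheses `StN01`, `StN02`, `StN09`, `StN10`, `StN11`). There is `C` such that for all `n`, `w` with `w + 2 ≤ al n`: `n ≤ C`, or for some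
`k ≥ 3` with `w ≤ k`, `k * (2^k * (H k 1 + 1)) ≤ Nat.log 2 n + C`. Proof. If `al n = 4` then `n ≤ B 3 3 =: C1`. Otherwise `al n ≥ 5`; put
`k = max w 3`, `k + 1 < al n`, so `B k k < n` (N11 (4)). If `k ≥ 16`: `k + 1 ≤ (A (k-3))^[2] 0` (`A (k-3) 0 = k - 1`, `A (k-3) (k-1) ≥ 2^k`), so
`H k 1 ≤ (A (k-3))^[8] (k+1) ≤ (A (k-3))^[10] 0 = B k 10`; N10 needs `k ≤ q`: instead use `h = B k 10 ≤ B k (k-3)`, and apply N10's proof with
`q = k - 3`: PRECISELY, `B k (k-3) ≥ k` also holds (`B k 1 = k - 1`, `B k 2 ≥ 2^k`), so with `b = B k (k-3) ≥ k`: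
`Nat.log 2 n ≥ B k (k-1) ≥ 2^(B k (k-2) + 1) ≥ 2^(2^(b+1) + 1) ≥ k 2^k (b+1)`. If `3 ≤ k < 16`: take `C ≥ k * (2^k * (H k 1 + 1))` for these
finitely many `k` (`Finset.sup` over `range 16`, or `∑`). -/
def StGrow1 : Prop := ∃ C : ℕ, ∀ n w, w + 2 ≤ al n →
  n ≤ C ∨ ∃ k, 3 ≤ k ∧ w ≤ k ∧ k * (2 ^ k * (H k 1 + 1)) ≤ Nat.log 2 n + C

/-- **GROW2** (for B1; hypotheses `StN01`, `StN02`, `StN09`, `StN10`, `StN11`). For `3 ≤ k`, `0 < ε` there is `C` such that for all `n`, `t` with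
`t ≤ (1 - ε) * alk k n`: `k * (2^k * (H k t + 1)) ≤ Nat.log 2 n + C` (and `t ≤ n`). Proof. `a = alk k n`. `t ≤ a ≤ n` (for `ε > 1` no `t` unless `a = 0`, `t = 0`:
then also `t ≤ a`). Let `s = Nat.size (k + t)` (so `k + t ≤ 2^s`), `k + t ≤ (A (k-3))^[s+1] 0`: induction, `(A j)^[i+1] 0 ≥ 2^i` (as `A j x ≥ 2^(x+1) ≥ 2x` and
`A j 0 ≥ 2`). `H k t ≤ (A (k-3))^[t+7] (k+t) ≤ (A (k-3))^[t+8+s] 0 = B k (t+8+s)`. N10 with `q = t + 8 + s + k`, `h = H k t ≤ B k q`: if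
`t + 11 + s + k < a` then `B k (q+3) < n` by N11 (3) and the claim holds with `C = 0`. Since `t ≤ (1-ε) a`, this holds when
`ε a > 11 + k + Nat.size (k + a)`, i.e. for all `a ≥ a0(k, ε)` (`Nat.size x ≤ log2 x + 1`, little o; or `Nat.size x ≤ 2 * sqrt x + 1` hence a
quadratic inequality). For `a < a0`: `t ≤ a0`, take `C ≥ k * (2^k * (H k t + 1))` for all `t ≤ a0` (finite sup). -/
def StGrow2 : Prop := ∀ k : ℕ, 3 ≤ k → ∀ ε : ℝ, 0 < ε → ∃ C : ℕ, ∀ n t : ℕ, (t : ℝ) ≤ (1 - ε) * alk k n →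
  t ≤ n ∧ k * (2 ^ k * (H k t + 1)) ≤ Nat.log 2 n + C

end Pool.Agent.AK
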