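import Mathlib
import Pool.Agent.AK.StF
import Pool.Agent.AK.StG

set_option autoImplicit false

/-!
# AK, statements H: the plane (width, number of digits)

Second wave: one algorithm for all `(k, t)` with `t + alk k (k + t) + 10 ≤ alk k n` (`StE`), hardness for all `(k, t)` with
`n ≤ Rch k t` (`StH`), and the gaps of the spectrum of densities (`StS`).

Every `def St...` is one module: `theorem thm_X : ... → StX` in `Pool/Agent/AK/X.lean`; `uses` lists the hypotheses, in this order.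
-/

namespace Pool.Agent.AK

open Pool.Agent.PolyTime

/-! ### Final statements -/

/-- What a threshold after `t` digits can carry in width `k`: `Rch 3 t = B 3 t` and `Rch k t = B (k-1) (B k t)` for `k ≥ 4`. -/
def Rch (k t : ℕ) : ℕ := if k ≤ 3 then B 3 t else B (k - 1) (B k t)

/-- **E**: one polynomial time algorithm computes the first `t` digits of `#φ` for all `φ` of width `≤ k` with
`t + alk k (k + t) + 10 ≤ alk k (nv φ)`. -/
def StE : Prop := ∃ F : CNF → ℕ, PolyTime F ∧ ∀ (φ : CNF) (k t : ℕ), 3 ≤ k → width φ ≤ k →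
  t + alk k (k + t) + 10 ≤ alk k (nv φ) → F φ / 2 ^ (nv φ - t) = count φ / 2 ^ (nv φ - t)

/-- **HR**: many-one hardness for all `(k, t)` with `n ≤ Rch (k n) (t n)`: a polynomial time reduction of the question `N ≤ #φ` to the
question `#ψ ≥ 2^(n - t n)` for monotone `ψ` with `n` variables, of width `≤ k n`. (`k` need not be computable.)

Proof. As `StHardB2` (module `HardB2.lean`): `t' n = min (t n) n` satisfies the same hypotheses for `n ≥ max n0 2` (`t n < n` there, so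
`t' n = t n`). `R (φ, N) = fin3 t' d n0' c D (min e (nv D))`, `(D, e)` from `StRed`, `c` from `StBd3`. `uses StRed, StBd3, StFin3, StPtFin3`. -/
def StHR : Prop := ∀ k t : ℕ → ℕ, UPoly t →
  (∃ d n0 : ℕ, ∀ n, n0 ≤ n → 3 ≤ k n ∧ n ≤ Rch (k n) (t n) ∧ n ≤ (n - t n) ^ d) →
  ∃ R : CNF × ℕ → CNF, PolyTime R ∧ ∀ (φ : CNF) (N : ℕ), N ≤ 2 ^ nv φ →
    Mono (R (φ, N)) ∧ width (R (φ, N)) ≤ k (nv (R (φ, N))) ∧
    (2 ^ (nv (R (φ, N)) - t (nv (R (φ, N)))) ≤ count (R (φ, N)) ↔ N ≤ count φ)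

/-- **H**: hardness for all `(k, t)` with `n ≤ Rch (k n) (t n)`. Proof: `StHR` gives a test (`G ∘ R`), `StRB`; conversely `StRC`.
`uses StHR, StRB, StRC`. -/
def StH : Prop := ∀ k t : ℕ → ℕ, UPoly t →
  (∃ d n0 : ℕ, ∀ n, n0 ≤ n → 3 ≤ k n ∧ n ≤ Rch (k n) (t n) ∧ n ≤ (n - t n) ^ d) →
  ((∃ G : CNF → Bool, PolyTime G ∧ ∀ φ, width φ ≤ k (nv φ) → Mono φ →
    (G φ = true ↔ 2 ^ (nv φ - t (nv φ)) ≤ count φ)) ↔ PolyTime count)

/-- **M2R**: majority of monotone CNFs of width `≤ al n` is many-one hard for the questions `N ≤ #φ`.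

Proof. `StHR` with `k = al`, `t = fun _ => 1` (`UPoly`: constant), `d = 2`, `n0 = 3`: `al n ≥ 4` and `Rch (al n) 1 = B (al n - 1) (B (al n) 1)`,
`B (al n) 1 = A (al n - 3) 0 = al n - 1` (`StN01` (3)), `n ≤ B (al n - 1) (al n - 1)` (`StN11` (4)); `n ≤ (n-1)^2` for `n ≥ 3`. For every `ψ`:
`2^(nv ψ - 1) ≤ count ψ ↔ 2^nv ψ ≤ 2 * count ψ` (`nv ψ = 0`: both say `count ψ ≠ 0`). `uses StHR, StN01, StN11`. -/
def StM2R : Prop := ∃ R : CNF × ℕ → CNF, PolyTime R ∧ ∀ (φ : CNF) (N : ℕ), N ≤ 2 ^ nv φ →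
  Mono (R (φ, N)) ∧ width (R (φ, N)) ≤ al (nv (R (φ, N))) ∧
  (2 ^ nv (R (φ, N)) ≤ 2 * count (R (φ, N)) ↔ N ≤ count φ)

/-- **S** (gaps of the spectrum). Proof. (1) `StGap` for `nrm φ` (`StNrm`: `Nt`, width, density), `H k t ≤ (A (k-3))^[t+7] (k+t)` (`StN09`),
`1/2^a` is antitone in `a`. (2) `StTab` with `m = A (k-2) t + t + 1`, `j = k - 2`: the entry `t < m` of `tab m j` has density
`(1/2)^t - (1/2)^s` with `s ≥ min (A j t) m = A j t`, `Mono`, width `≤ j + 2 = k`. `uses StGap, StN09, StNrm, StTab`. -/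
def StS : Prop :=
  (∀ (k t m : ℕ) (φ : CNF), 3 ≤ k → width φ ≤ k → dens φ < (m : ℚ) / 2 ^ t →
    dens φ ≤ (m : ℚ) / 2 ^ t - (1 / 2 : ℚ) ^ ((A (k - 3))^[t + 7] (k + t))) ∧
  ∀ k t : ℕ, 3 ≤ k → ∃ φ : CNF, Mono φ ∧ width φ ≤ k ∧ dens φ < (1 / 2 : ℚ) ^ t ∧
    (1 / 2 : ℚ) ^ t - (1 / 2 : ℚ) ^ (A (k - 2) t) ≤ dens φ

/-! ### Easy side -/

/-- Growth for the uniform algorithm. Proof. `q = alk k n`, `s = alk k (k+t)`: `k + t ≤ B k s = (A (k-3))^[s] 0` and `B k (t + 9 + s) < n`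
as `t + 9 + s < q` (`StN11`); `B k (t+9+s) = (A (k-3))^[t+9] ((A (k-3))^[s] 0) ≥ (A (k-3))^[t+9] (k+t)`. Let `h = (A (k-3))^[t+7] (k+t)`:
`H k t ≤ h` (`StN09`), `n > A (k-3) (A (k-3) h) ≥ 2^(A (k-3) h + 1)`, so `Nat.log 2 n ≥ A (k-3) h + 1 ≥ 2^(h+1)` (`StN01`:
`2^(x+1) ≤ A j x`). `k * 2^k ≤ h`: `h ≥ (A (k-3))^[2] (k+t) ≥ 2^(2^(k+1)+1) ≥ k 2^k`. So `k (2^k (H k t + 1)) ≤ h (h+1) ≤ 2^(h+1) ≤ Nat.log 2 n`.
`t ≤ alk k n ≤ n` (`StN11`). `uses StN01, StN02, StN09, StN11`. -/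
def StGrow3 : Prop := ∀ k t n : ℕ, 3 ≤ k → t + alk k (k + t) + 10 ≤ alk k n →
  t ≤ n ∧ k * (2 ^ k * (H k t + 1)) ≤ Nat.log 2 n

/-- Proof. As `StB1'` (`StF.lean`, module `B1.lean`) with `C = 0`: `F φ = 2^nv φ * est 0 φ / 2^(Nat.size (nv φ))`, `M = Nat.size (nv φ) ≥
Nat.log 2 (nv φ)`, `Hx = H k t`; gap from `StGap` for `nrm φ` (`StNrm`). `uses StNrm, StLeaves, StErr, StEst, StGap, StGrow3, StDensB`. -/
def StE' : Prop := StE

/-! ### Hard side -/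

/-- One step of the search for the level. -/
def lvs2 (m t : ℕ) (p : ℕ × Tab) : ℕ × Tab :=
  if m ≤ (ch p.2 (ch (stp p.2) t).2).2 then p else (p.1 + 1, stp p.2)

/-- The first level `j` such that the chain of length `t` of level `j + 1`, ending in `y`, followed by the chain of length `y` of level
`j`, reaches `m`. -/
def lev2 (m t : ℕ) : ℕ × Tab := (lvs2 m t)^[Nat.size (Nat.size m)] (0, tab0 m)

/-- The threshold formula with `t + 1` pieces: density `≥ 2^(-t)` iff `dens D ≥ 2^(-e)`. -/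
def PP (m t : ℕ) (D : CNF) (e : ℕ) : CNF :=
  if m ≤ (ch (tab0 m) t).2 then Phi (tab0 m) t D e
  else oh ((ch (stp (lev2 m t).2) t).1 ++ [Phi (lev2 m t).2 (ch (stp (lev2 m t).2) t).2 D e])

/-- The search is correct. Proof. As `StLev`: invariant after `i` steps: the state is `(j, tab m j)`, `j ≤ i`, the test fails for all `j' < j`, and
it holds for `j` or `j = i`. The test holds at level `J = Nat.size (Nat.size m)`: `y = (ch (tab m (J+1)) t).2 ≥ min ((A (J+1))^[t] 0) m ≥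
min (J+3) m` (`t ≥ 1`, `A (J+1) 0 ≥ J + 3`: `StAck` gives `q ≤ (A j)^[q] 0`, and `A (j+1) 0 = 1 + A j 0`, so `A j 0 = j + 2`); if `y ≥ m` the
chain of length `y` reaches `min y m = m` (`StChain`); otherwise `y ≥ J + 3` and it reaches `min ((A J)^[y] 0) m ≥ min (2^2^J) m = m`
(`Nat.lt_size_self` twice). Last claim: the test holds at level `j0 = k - 4` (so `j ≤ j0`; if `j0 > J` nothing to prove beyond `j ≤ J`): `y =
(ch (tab m (j0+1)) t).2 ≥ min (B k t) m`, `B k t = (A (k-3))^[t] 0`; if `y ≥ m` as before; otherwise `y ≥ B k t` and the chain of length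
`y` reaches `min ((A (k-4))^[B k t] 0) m = min (B (k-1) (B k t)) m ≥ min n m = m`. `uses StTab, StChain, StAck`. -/
def StLev2 : Prop := ∀ m t, 1 ≤ t → (lev2 m t).2 = tab m (lev2 m t).1 ∧
  m ≤ (ch (lev2 m t).2 (ch (stp (lev2 m t).2) t).2).2 ∧ (lev2 m t).1 ≤ Nat.size (Nat.size m) ∧
  ∀ k n, 4 ≤ k → m ≤ n → n ≤ B (k - 1) (B k t) → (lev2 m t).1 + 4 ≤ k

/-- Correctness of `PP`. Proof. First case, `m ≤ (ch (tab0 m) t).2`: `StPhi` with `j = 0` (`StTab`: `Good m 0 (tab m 0)`, `tab m 0 = tab0 m`),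
width `≤ 3`. Otherwise `t < m` (`min t m ≤ (ch ..).2`), so `n ≤ Rch k t`; `k = 3` would give `m ≤ n ≤ (A 0)^[t] 0` and the chain would reach
`m`; so `k ≥ 4`, `n ≤ B (k-1) (B k t)` and `j + 4 ≤ k`, `j = (lev2 m t).1` (`StLev2`). `T = tab m j`, `stp T` is `Good m (j+1)`; `y = (ch (stp T) t).2`;
`StPhi` for `T`, `q = y`, `e ≤ m ≤ (ch T y).2`: `dens Phi ≥ 2^(-y) ↔ dens D ≥ 2^(-e)`, width `≤ j + 3`. `StOhDens`, `StChain` for `stp T`:
`dens = (1 + (1 - 2^(-y)) + dens Phi) / 2^(t+1)`, which is `≥ 2^(-t)` iff `dens Phi ≥ 2^(-y)`. Width `≤ j + 4` (`StShape`; the pieces of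
`stp T` have width `≤ j + 3`). `uses StTab, StChain, StPhi, StOhDens, StShape, StLev2`. -/
def StPP : Prop := ∀ (m t k n : ℕ) (D : CNF) (e : ℕ), 1 ≤ t → e ≤ m → m ≤ n → 3 ≤ k → (m ≤ t ∨ n ≤ Rch k t) →
  Mono D → width D ≤ 2 → e ≤ nv D →
  (∃ L : List CNF, PP m t D e = oh L ∧ L.length = t + 1) ∧ Mono (PP m t D e) ∧ width (PP m t D e) ≤ k ∧
  ((1 / 2 : ℚ) ^ t ≤ dens (PP m t D e) ↔ (1 / 2 : ℚ) ^ e ≤ dens D)

/-- `lev2` and `PP` in polynomial time. Proof. `lev2`: as `StPtLev` (module `PtLev.lean`): `PolyTime.iterate`, after `i ≤ J` steps the state is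
`(j, tab m j)` with `j ≤ i` (for every `t`), of size `≤ 2 * j + 1 + (m+2)^c` (`StSz`); in the step the chain of length
`y = (ch (stp p.2) t).2` needs `y` in unary: in the states `y ≤ (j + 3) (2 m + 2) ≤ (m + 3) * (2 * m + 2)` (`StTab`, `StChain` for `Good m (j+1)
(stp (tab m j))`; `j ≤ Nat.size (Nat.size m) ≤ m`), so `replicate (min y ((m + 3) * (2 * m + 2))) ()`. `PP`: `StPtT` (`ch`, guarded `Phi` with the unary
bound `(m + 3) * (2 * m + 2)`: `StTab`, `StChain`), `StPtC` (`oh`). `t` is `min t m` and `e` is `min e m` to have small unary numbers.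
`uses StPtC, StPtT, StSz, StTab, StChain, StLev2`. (For `t = 0` `StLev2` says nothing; the invariant `(j, tab m j)`, `j ≤ i`, holds
anyway.) -/
def StPtPP : Prop :=
  PolyTime (fun p : List Unit × List Unit × CNF × ℕ => PP p.1.length (min p.2.1.length p.1.length) p.2.2.1 (min p.2.2.2 p.1.length))

/-- The size of the data. -/
def sz3 (D : CNF) (e : ℕ) : ℕ := size (List.replicate (e + 1) (), List.replicate (e + 1) (), D, e)

/-- A uniform bound. Proof. `StPtPP`, `PolyTime.pbd`: `size (PP ..) ≤ (size input + 2)^c` with input `(1^(e+1), 1^t, D, e)`, `t ≤ e + 1`, whose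
size is at most `sz3 D e`; `nv φ ≤ size φ` (`nv φ ≤ φ.flatten.length`; `size_flatten_le`, `length_le_size`). `uses StPtPP`. -/
def StBd3 : Prop := ∃ c : ℕ, ∀ (t : ℕ) (D : CNF) (e : ℕ), t ≤ e + 1 → nv (PP (e + 1) t D e) ≤ (sz3 D e + 2) ^ c

/-- The final instance: `n = X^(d+1)` variables with `X = (sz3 D e + 2)^c + n0 + e + 3`. -/
def fin3 (t : ℕ → ℕ) (d n0 c : ℕ) (D : CNF) (e : ℕ) : CNF :=
  let n := ((sz3 D e + 2) ^ c + n0 + e + 3) ^ (d + 1)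
  let th := min (t n) (e + 1)
  let P := PP (e + 1) th D e
  fpad (th + 1) P (n - nv P - (t n - th)) (t n - th)

/-- The final instance is correct. Proof. As `StFin2` (module `Fin2.lean`). `m = e + 1`, `X = (sz3 D e + 2)^c + n0 + e + 3`, `n = X^(d+1) ≥ X ≥ n0, m`.
`n ≤ (n - t n)^d` gives `X ≤ n - t n`. `t n ≥ 1` since `Rch k 0 = 0` (`B 3 0 = 0`, `B (k-1) (B k 0) = B (k-1) 0 = 0`) and `n ≥ 3`. `th = min (t n) m ≥ 1`.
`StPP` with `t := th`, `k := k n`: if `t n ≥ m` then `m ≤ th`, otherwise `th = t n` and `n ≤ Rch (k n) th`. `nv P ≤ (sz3 D e + 2)^c ≤ X ≤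
n - t n`; `u = t n - th`, `w = n - nv P - u`, `nv P + w + u = n`. `StFpad` with the list `L` of `P` (`th + 1 ≥ 2` pieces): `nv = n`,
density `dens P * 2^(-u)`, width `≤ k n`. `2^(n - t n) ≤ count ↔ 2^(-th) ≤ dens P ↔ 2^(-e) ≤ dens D` (`Fin2_iff` in `Fin2.lean`).
`uses StPP, StFpad, StDensB`. -/
def StFin3 : Prop := ∀ c : ℕ, (∀ (t : ℕ) (D : CNF) (e : ℕ), t ≤ e + 1 → nv (PP (e + 1) t D e) ≤ (sz3 D e + 2) ^ c) →
  ∀ (k t : ℕ → ℕ) (d n0 : ℕ), (∀ n, n0 ≤ n → 3 ≤ k n ∧ n ≤ Rch (k n) (t n) ∧ n ≤ (n - t n) ^ d) →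
  ∀ (D : CNF) (e : ℕ), Mono D → width D ≤ 2 → e ≤ nv D →
  Mono (fin3 t d n0 c D e) ∧ width (fin3 t d n0 c D e) ≤ k (nv (fin3 t d n0 c D e)) ∧
  (2 ^ (nv (fin3 t d n0 c D e) - t (nv (fin3 t d n0 c D e))) ≤ count (fin3 t d n0 c D e) ↔ (1 / 2 : ℚ) ^ e ≤ dens D)

/-- The final instance in polynomial time. Proof. As `StPtFin2` (module `PtFin2.lean`). `sz3` by `PolyTime.natSizeOf` and `replicate` (`e` is
`min e (nv D)`, `PBd`), `n` by `PolyTime.pow_const`, `PBd`; `t n` by `UPoly` and `replicate n ()`; `PP` by `StPtPP` (`th ≤ e + 1`, `e ≤ e + 1`: the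
`min`s do nothing). `uses StPtC, StPtPP, StRN`. -/
def StPtFin3 : Prop := ∀ (t : ℕ → ℕ) (d n0 c : ℕ), UPoly t →
  PolyTime (fun p : CNF × ℕ => fin3 (fun n => min (t n) n) d n0 c p.1 (min p.2 (nv p.1)))

end Pool.Agent.AK
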