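import Mathlib
import Pool.Agent.AK.StH

set_option autoImplicit false

/-!
# AK, statements N: a sharper gap lemma, by induction on the number of digits

Fourth wave: the gap exponent is at most `B k (t + 5)`, so the first `t` digits are easy as soon as `t + 8 ≤ alk k n`, for all `k ≥ 3`
at once (`StEN`).

Every `def St...` is one module: `theorem thm_X : ... → StX` in `Pool/Agent/AK/X.lean`; `uses` lists the hypotheses, in this order.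
The notions `pr`, `FSat`, `CSat`, `Ok`, `rs`, `tc`, `cv`, `Cls`, `Trs`, `MaxFam`, `Hf`, `S0` are in `StG.lean`.
-/

namespace Pool.Agent.AK

open Pool.Agent.PolyTime

/-- The restriction `l := true`. -/
def rl (l : Lit) (f : Finset (Finset Lit)) : Finset (Finset Lit) :=
  (f.filter fun c => l ∉ c).image fun c => c.filter fun l' => l'.1 ≠ l.1

/-- The new gap exponents. -/
def Hn (k : ℕ) : ℕ → ℕ
  | 0 => k
  | t + 1 => Hf k (k - 2) (S0 k (t + 1) + (2 * S0 k (t + 1) + 1) * ((k - 1) * (2 ^ (k - 1) * (Hn k t + 2)))) + Hn k t + 2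

/-- **Rl** (restriction of a literal). Proof. `l = (x, b)`. If `CSat S {l}` (that is `x ∈ S ↔ b = true`) then `FSat S f ↔ FSat S (rl l f)`: clauses
with `l` hold, and the literal `(x, !b)` of the other clauses is false. So the event on the left is `FSat S (rl l f) ∧ CSat S {l}`. The first part
depends only on `W.erase x` (the clauses of `rl l f` have variables in `W.erase x`), the second one on `{x}`; `StG02` and `StG04` (`pr (CSat {l}) =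
1 - 1/2`). `Ok` and the number of literals: subsets of clauses. `uses StG02, StG04`. -/
def StRl : Prop := ∀ (W : Finset Name) (f : Finset (Finset Lit)) (l : Lit), Ok W f → l.1 ∈ W →
  Ok W (rl l f) ∧ (∀ k : ℕ, (∀ c ∈ f, c.card ≤ k) → ∀ c ∈ rl l f, c.card ≤ k) ∧
  pr W (fun S => FSat S f ∧ CSat S {l}) = pr W (fun S => FSat S (rl l f)) / 2

/-- **Vg** (all traces light). Proof. `V' = V ∪ (Trs V j f).biUnion fun p => (M p).biUnion fun c => cv (rs V c)`. A trace `tc V c` with `c.card ≤ j + 2`,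
`(rs V c).card = j + 1` has at most one literal (`c = tc V c ∪ rs V c` disjoint), so there are at most `2 |V| + 1` traces (`StG09`, `r = 1`), each with
at most `N` clauses of at most `j + 1` residual variables. `V' ⊆ W` as `cv c ⊆ W`. Residual literals for `V'`: as in `StG12` (module `G12.lean`): if
`(rs V c).card ≤ j` then `rs V' c ⊆ rs V c`; otherwise `(rs V c).card = j + 1`, `c ∈ Cls V j f p` with `p = tc V c ∈ Trs V j f`, and some `d ∈ M p` has a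
common residual variable with `c`, which is in `V'`: so `rs V' c` is a proper subset of `rs V c`. `uses StG09`. -/
def StVg : Prop := ∀ (W V : Finset Name) (j N : ℕ) (f : Finset (Finset Lit)) (M : Finset Lit → Finset (Finset Lit)),
  Ok W f → V ⊆ W → (∀ c ∈ f, c.card ≤ j + 2) → (∀ c ∈ f, (rs V c).card ≤ j + 1) → MaxFam V j f M →
  (∀ p ∈ Trs V j f, (M p).card ≤ N) →
  ∃ V' : Finset Name, V' ⊆ W ∧ V'.card ≤ V.card + (2 * V.card + 1) * ((j + 1) * N) ∧ ∀ c ∈ f, (rs V' c).card ≤ j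

/-- **GN0** (`t = 0`). Proof. `m = 0` is impossible. If `m ≥ 2`: `pr ≤ 1 ≤ m - 1`. If `m = 1`: `f` is not empty (`pr = 1` otherwise); for `c ∈ f`:
`pr (FSat f) ≤ pr (CSat c) = 1 - 2^(-c.card) ≤ 1 - 2^(-k)`. `uses StG01, StG04`. -/
def StGN0 : Prop := ∀ (W : Finset Name) (k m : ℕ) (f : Finset (Finset Lit)), Ok W f → (∀ c ∈ f, c.card ≤ k) →
  pr W (fun S => FSat S f) < (m : ℚ) → pr W (fun S => FSat S f) ≤ (m : ℚ) - 1 / 2 ^ k

/-- **GN** (the gap lemma by induction on `t`). Proof. `k = j + 2`. `t = 0`: `StGN0`, `Hn k 0 = k`. Step: `pr f < m / 2^(t+1)`; `h = Hn k t ≥ t`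
(induction: `Hn k (t+1) ≥ Hn k t + 2`). If `pr f ≤ 2^(-(t+2))`: `m ≥ 1`, so `m / 2^(t+1) - pr f ≥ 2^(-(t+2)) ≥ 2^(-Hn k (t+1))`. Otherwise `StG17` (with
`t + 1`) gives `V ⊆ W`, `V.card ≤ s = S0 k (t+1)`, all clauses have at most `k - 1 = j + 1` literals outside `V`. `M` from `StG10`; `N = 2^(k-1) * (h + 2)`.
(i) Some `p ∈ Trs V j f` has `N ≤ (M p).card`. `p` has at most one literal. By `StG11`, `StG06`: `pr (FSat f ∧ ¬ CSat p) ≤ 2^(-(h+2))`. If `p = ∅` this is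
`pr f ≤ 2^(-(h+2)) ≤ 2^(-(t+2))`: done before. If `p = {l}` (`l.1 ∈ V ⊆ W`): `StRl`: `pr (FSat f ∧ CSat {l}) = pr (rl l f) / 2 ≤ pr f < m / 2^(t+1)`, so
`pr (rl l f) < m / 2^t` and by induction `pr (rl l f) ≤ m / 2^t - 2^(-h)`; `pr f ≤ pr (rl l f) / 2 + 2^(-(h+2)) ≤ m / 2^(t+1) - 2^(-(h+1)) + 2^(-(h+2)) =
m / 2^(t+1) - 2^(-(h+2))`, and `h + 2 ≤ Hn k (t+1)` (`pr f ≤ pr (f ∧ CSat) + pr (f ∧ ¬ CSat)`: `StG01`). (ii) Otherwise all `(M p).card ≤ N`: `StVg` gives `V'`,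
`V'.card ≤ s + (2 s + 1) ((k-1) N) =: s'` (monotone in `V.card ≤ s`), all clauses have at most `j = k - 2` literals outside `V'`; `t + 1 ≤ s ≤ s'`
(`S0 k (t+1) = k (2^k (t+2))`); `StG15` with `j`, `V'`, `s'`: gap `2^(-(Hf k (k-2) s'))`, and `Hf k (k-2) s' ≤ Hn k (t+1)`.
`uses StG01, StG06, StG10, StG11, StG15, StG17, StRl, StVg, StGN0`. -/
def StGN : Prop := ∀ (k t : ℕ) (W : Finset Name) (m : ℕ) (f : Finset (Finset Lit)), 2 ≤ k → Ok W f → (∀ c ∈ f, c.card ≤ k) →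
  pr W (fun S => FSat S f) < (m : ℚ) / 2 ^ t → pr W (fun S => FSat S f) ≤ (m : ℚ) / 2 ^ t - 1 / 2 ^ (Hn k t)

/-- **GapN** (for CNFs). Proof. `StG19`, `StGN` with `W = vars φ`, `f = toF φ`. `uses StGN, StG19`. -/
def StGapN : Prop := ∀ (k t m : ℕ) (φ : CNF), 2 ≤ k → Nt φ → width φ ≤ k → dens φ < (m : ℚ) / 2 ^ t →
  dens φ ≤ (m : ℚ) / 2 ^ t - 1 / 2 ^ (Hn k t)

/-- **HnB** (growth). Proof. `j = k - 3`. Let `z 0 = k + 1`, `z (t+1) = A j (z t + 1)`. (a) `k + 1 + t ≤ z t` (`x < A j x`). (b) `z t + 2 ≤ (A j)^[t] (k + 3)`: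
induction, `A j (z + 1) + 2 ≤ A j (z + 2)` because `3 * A j x ≤ 2 * A j (x+1)` and `A j x ≥ 2^(x+1) ≥ 4` (`x ≥ 1`) give `A j x + 2 ≤ A j (x+1)`.
(c) Claim: `Hn k t ≤ (A j)^[3] (z t)`. `t = 0`: `k ≤ z 0 ≤ (A j)^[3] (z 0)`. Step: let `z = z t`, `Y = (A j)^[3] z`. `Y ≥ 2^(A j (A j z) + 1) ≥ 2^(2z+3)` (`A j (A j z) ≥
A j z ≥ 2^(z+1) ≥ 2z + 2`), so `s = S0 k (t+1) = k (2^k (t+2)) ≤ 2^k 2^k 2^(t+1) ≤ 2^(2z) ≤ Y` and `(k-1) 2^(k-1) ≤ Y`, `Y ≥ 7`. `S = s + (2s+1) ((k-1) (2^(k-1)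
(Hn k t + 2))) ≤ Y + (2Y+1) Y (Y+2)`, `2 S + 1 ≤ 4 Y^3 + 10 Y^2 + 6 Y + 1 ≤ Y^4`. `StN08` (`k - 2 = j + 1 ≤ k`): `Hf k (k-2) S ≤ A j ((2S+1)^(2k)) ≤ A j (Y^(8k))`. So
`Hn k (t+1) ≤ A j (Y^(8k)) + Y + 2 ≤ 2 A j (Y^(8k)) ≤ A j (Y^(8k) + 2) ≤ A j (Y^(9 z)) ≤ A j ((A j)^[3] (z+1)) = (A j)^[3] (A j (z+1)) = (A j)^[3] (z (t+1))`
(`StN01` (7); `Y^(8k) + 2 ≤ Y^(9k) ≤ Y^(9z)`; `StN04` as `4 ≤ k + 1 ≤ z`). (d) `Hn k t ≤ (A j)^[3] ((A j)^[t] (k+3)) = (A j)^[t+3] (k+3) ≤ (A j)^[t+3] ((A j)^[2] 0) =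
B k (t+5)` since `A j 0 = k - 1`, `A j (k-1) ≥ 2^k ≥ k + 3` (`k ≥ 3`). `uses StN01, StN02, StN04, StN08`. -/
def StHnB : Prop := ∀ k t : ℕ, 3 ≤ k → Hn k t ≤ B k (t + 5)

/-- **GrowN**. Proof. `B k (t+7) < n` (`StN11`, `t + 7 < alk k n`). `b = B k (t+5) ≥ Hn k t` (`StHnB`). `k 2^k ≤ b`: `b ≥ B k 2 + ...`: `b ≥ B k 3 = A j (A j (A j 0)) ≥
2^(2^k + 1) ≥ k 2^k` (`A j 0 = k - 1`, `StN01`). `n > A j (B k (t+6)) ≥ 2^(B k (t+6) + 1)`, so `Nat.log 2 n ≥ B k (t+6) + 1 ≥ 2^(b+1) ≥ b (b+1) ≥ k (2^k (Hn k t + 1))`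
(`Grow3_sq` in `Grow3.lean`). `t ≤ alk k n ≤ n`. Compare the module `Grow3.lean`. `uses StN01, StN11, StHnB`. -/
def StGrowN : Prop := ∀ k t n : ℕ, 3 ≤ k → t + 8 ≤ alk k n → t ≤ n ∧ k * (2 ^ k * (Hn k t + 1)) ≤ Nat.log 2 n

/-- **EN**: one polynomial time algorithm computes the first `t` digits of `#φ` for all `φ` of width `≤ k` with `t + 8 ≤ alk k (nv φ)`.

Proof. As `StE` (module `E.lean`), with `Hn`, `StGapN`, `StGrowN` instead of `H`, `StGap`, `StGrow3`.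
`uses StNrm, StLeaves, StErr, StEst, StGapN, StGrowN, StDensB`. -/
def StEN : Prop := ∃ F : CNF → ℕ, PolyTime F ∧ ∀ (φ : CNF) (k t : ℕ), 3 ≤ k → width φ ≤ k →
  t + 8 ≤ alk k (nv φ) → F φ / 2 ^ (nv φ - t) = count φ / 2 ^ (nv φ - t)

/-- **SN** (gaps of the spectrum; side result). Proof. (1) `StGapN` for `nrm φ` (`StNrm`), `StHnB`. (2) as in `StS` (module `S.lean`).
`uses StGapN, StHnB, StNrm, StTab`. -/
def StSN : Prop :=
  (∀ (k t m : ℕ) (φ : CNF), 3 ≤ k → width φ ≤ k → dens φ < (m : ℚ) / 2 ^ t →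
    dens φ ≤ (m : ℚ) / 2 ^ t - (1 / 2 : ℚ) ^ (B k (t + 5))) ∧
  ∀ k t : ℕ, 3 ≤ k → ∃ φ : CNF, Mono φ ∧ width φ ≤ k ∧ dens φ < (1 / 2 : ℚ) ^ t ∧
    (1 / 2 : ℚ) ^ t - (1 / 2 : ℚ) ^ (B k (t + 1)) ≤ dens φ

end Pool.Agent.AK
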