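import Mathlib
import Pool.Agent.AK.StN

set_option autoImplicit false

/-!
# AK, module GapN: the gap lemma for CNFs with the new exponents
-/

namespace Pool.Agent.AK

open Pool.Agent.PolyTime

theorem thm_GapN (h1 : StGN) (h2 : StG19) : StGapN := by
  intro k t m φ hk hn hw hd
  obtain ⟨ho, hc, he⟩ := h2 φ k hn hw
  rw [he] at hd ⊢
  exact h1 k t (vars φ) m (toF φ) hk ho hc hd

end Pool.Agent.AK
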