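import Pool.Agent.AK.StH

set_option autoImplicit false

/-!
# AK, module Grow3: growth for the uniform algorithm (helper52)
-/

namespace Pool.Agent.AK

theorem Grow3_sq (h : ℕ) : h * (h + 1) ≤ 2 ^ (h + 1) := by
  rcases Nat.lt_or_ge h 3 with h3 | h3
  · interval_cases h <;> norm_num
  · induction h, h3 using Nat.le_induction with
    | base => norm_num
    | succ h hh ih =>
      have h1 : (h + 1) * (h + 1 + 1) ≤ 2 * (h * (h + 1)) := by nlinarith
      calc (h + 1) * (h + 1 + 1) ≤ 2 * (h * (h + 1)) := h1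
        _ ≤ 2 * 2 ^ (h + 1) := Nat.mul_le_mul_left _ ih
        _ = 2 ^ (h + 1 + 1) := by rw [pow_succ 2 (h + 1)]; ring

theorem thm_Grow3 (h1 : StN01) (h2 : StN02) (h9 : StN09) (h11 : StN11) : StGrow3 := by
  intro k t n hk hq
  obtain ⟨-, -, -, -, a5, -, -, -⟩ := h1
  obtain ⟨-, -, b3, b4, -, -⟩ := h2
  obtain ⟨-, -, c3, c4, -, -, -⟩ := h11
  have hq1 := (c4 k n hk).2
  refine ⟨by omega, ?_⟩
  have hs := (c4 k (k + t) hk).1
  set s := alk k (k + t) with hsd
  set j := k - 3 with hj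
  have hB : B k (t + 9 + s) < n := c3 k n (t + 9 + s) hk (by omega)
  have e1 : B k (t + 9 + s) = (A j)^[t + 9] (B k s) := by
    unfold B
    rw [← hj, Function.iterate_add_apply]
  have h3 : (A j)^[t + 9] (k + t) ≤ (A j)^[t + 9] (B k s) := b3 j (t + 9) hs
  set h := (A j)^[t + 7] (k + t) with hh
  have e2 : (A j)^[t + 9] (k + t) = A j (A j h) := by
    rw [hh, ← Function.iterate_succ_apply' (A j) (t + 7), ← Function.iterate_succ_apply' (A j)]
  have h4 : A j (A j h) < n := by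
    rw [← e2]
    exact lt_of_le_of_lt h3 (e1 ▸ hB)
  have h5 : 2 ^ (A j h + 1) ≤ n := le_trans (a5 j (A j h)) h4.le
  have h6 : A j h + 1 ≤ Nat.log 2 n := by
    have hn : n ≠ 0 := by
      intro h0
      rw [h0] at h4
      exact absurd h4 (Nat.not_lt_zero _)
    exact Nat.le_log_of_pow_le (by norm_num) h5
  have h7 : 2 ^ (h + 1) ≤ Nat.log 2 n := le_trans (a5 j h) (by omega)
  have h8 : k * 2 ^ k ≤ h := by
    have g1 : (A j)^[2] (k + t) ≤ h := b4 j 2 (t + 7) (k + t) (by omega)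
    have e3 : (A j)^[2] (k + t) = A j (A j (k + t)) := rfl
    rw [e3] at g1
    have g2 := a5 j (A j (k + t))
    have g3 := a5 j (k + t)
    have g4 : k < 2 ^ k := Nat.lt_two_pow_self
    have g5 : k + k ≤ 2 ^ (k + t + 1) := by
      calc k + k ≤ 2 ^ k + 2 ^ k := by omega
        _ = 2 ^ (k + 1) := by rw [pow_succ]; ring
        _ ≤ 2 ^ (k + t + 1) := Nat.pow_le_pow_right (by norm_num) (by omega)
    calc k * 2 ^ k ≤ 2 ^ k * 2 ^ k := Nat.mul_le_mul_right _ g4.le
      _ = 2 ^ (k + k) := by rw [pow_add]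
      _ ≤ 2 ^ (A j (k + t) + 1) := Nat.pow_le_pow_right (by norm_num) (by omega)
      _ ≤ A j (A j (k + t)) := g2
      _ ≤ h := g1
  have h10 : H k t ≤ h := h9 k t hk
  calc k * (2 ^ k * (H k t + 1)) = k * 2 ^ k * (H k t + 1) := by ring
    _ ≤ h * (h + 1) := Nat.mul_le_mul h8 (by omega)
    _ ≤ 2 ^ (h + 1) := Grow3_sq h
    _ ≤ Nat.log 2 n := h7

end Pool.Agent.AK
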