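import Pool.Agent.AK.StN
import Pool.Agent.AK.Grow3

set_option autoImplicit false

namespace Pool.Agent.AK

theorem thm_GrowN (h1 : StN01) (h11 : StN11) (hB : StHnB) : StGrowN := by
  intro k t n hk hq
  obtain ⟨a1, -, a3, -, a5, -, -, -⟩ := h1
  obtain ⟨c1, -, c3, c4, -, -, -⟩ := h11
  have hq1 := (c4 k n hk).2
  refine ⟨by omega, ?_⟩
  set j := k - 3 with hj
  have hstep : ∀ q, B k (q + 1) = A j (B k q) := by
    intro q
    unfold B
    rw [← hj, Function.iterate_succ_apply']
  have hBn : B k (t + 7) < n := c3 k n (t + 7) hk (by omega)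
  set b := B k (t + 5) with hb
  have e6 : B k (t + 6) = A j b := hstep (t + 5)
  have e7 : B k (t + 7) = A j (B k (t + 6)) := hstep (t + 6)
  have h5 : 2 ^ (B k (t + 6) + 1) ≤ n := by
    have := a5 j (B k (t + 6))
    rw [← e7] at this
    exact this.trans hBn.le
  have h6 : B k (t + 6) + 1 ≤ Nat.log 2 n := Nat.le_log_of_pow_le (by norm_num) h5
  have h7 : 2 ^ (b + 1) ≤ Nat.log 2 n := by
    have := a5 j b
    rw [← e6] at this
    omega
  have h8 : k * 2 ^ k ≤ b := by
    have m1 : B k 3 ≤ b := (c1 k hk).1.monotone (by omega)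
    have m2 : B k 3 = A j (A j (A j 0)) := rfl
    have m3 : A j 0 = k - 1 := by
      rw [a3]
      omega
    have g2 := a5 j (A j (k - 1))
    have g3 := a5 j (k - 1)
    have e1 : k - 1 + 1 = k := by omega
    rw [e1] at g3
    have g4 : k < 2 ^ k := Nat.lt_two_pow_self
    rw [m2, m3] at m1
    calc k * 2 ^ k ≤ 2 ^ k * 2 ^ k := Nat.mul_le_mul_right _ g4.le
      _ = 2 ^ (k + k) := by rw [pow_add]
      _ ≤ 2 ^ (A j (k - 1) + 1) := by
        refine Nat.pow_le_pow_right (by norm_num) ?_
        have g5 : k + k ≤ 2 ^ k + 1 := by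
          clear * - hk
          induction k, hk using Nat.le_induction with
          | base => norm_num
          | succ s hs ih =>
            rw [pow_succ]
            omega
        omega
      _ ≤ A j (A j (k - 1)) := g2
      _ ≤ b := m1
  have h10 : Hn k t ≤ b := hB k t hk
  calc k * (2 ^ k * (Hn k t + 1)) = k * 2 ^ k * (Hn k t + 1) := by ring
    _ ≤ b * (b + 1) := Nat.mul_le_mul h8 (by omega)
    _ ≤ 2 ^ (b + 1) := Grow3_sq b
    _ ≤ Nat.log 2 n := h7

end Pool.Agent.AK
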