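import Pool.Agent.AK.StH

set_option autoImplicit false

namespace Pool.Agent.AK

open Pool.Agent.PolyTime

theorem thm_HR (h1 : StRed) (h2 : StBd3) (h3 : StFin3) (h4 : StPtFin3) : StHR := by
  rintro k t ht ⟨d, n0, hd⟩
  obtain ⟨R, hR, hR'⟩ := h1
  obtain ⟨c, hc⟩ := h2
  have hlt : ∀ n, max n0 2 ≤ n → t n < n := by
    intro n hn
    obtain ⟨-, -, hb⟩ := hd n (le_trans (le_max_left _ _) hn)
    have h2n : 2 ≤ n := le_trans (le_max_right _ _) hn
    by_contra hcon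
    have h0 : n - t n = 0 := by omega
    rw [h0] at hb
    rcases Nat.eq_zero_or_pos d with hd0 | hd0
    · rw [hd0, pow_zero] at hb
      omega
    · rw [zero_pow (by omega)] at hb
      omega
  have hd' : ∀ n, max n0 2 ≤ n → 3 ≤ k n ∧ n ≤ Rch (k n) (min (t n) n) ∧ n ≤ (n - min (t n) n) ^ d := by
    intro n hn
    obtain ⟨h0, ha, hb⟩ := hd n (le_trans (le_max_left _ _) hn)
    rw [min_eq_left (hlt n hn).le]
    exact ⟨h0, ha, hb⟩
  refine ⟨fun p => fin3 (fun n => min (t n) n) d (max n0 2) c (R p).1 (min (R p).2 (nv (R p).1)),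
    (h4 t d (max n0 2) c ht).comp hR, ?_⟩
  intro φ N hN
  obtain ⟨r1, r2, r3, r4⟩ := hR' φ N hN
  obtain ⟨f1, f2, f3⟩ := h3 c hc k (fun n => min (t n) n) d (max n0 2) hd' (R (φ, N)).1 (R (φ, N)).2
    r1 r2 r3
  change Mono (fin3 (fun n => min (t n) n) d (max n0 2) c (R (φ, N)).1
    (min (R (φ, N)).2 (nv (R (φ, N)).1))) ∧ _
  rw [min_eq_left r3]
  refine ⟨f1, ?_, ?_⟩
  · change width (fin3 (fun n => min (t n) n) d (max n0 2) c (R (φ, N)).1
      (min (R (φ, N)).2 (nv (R (φ, N)).1))) ≤ k (nv (fin3 (fun n => min (t n) n) d (max n0 2) c (R (φ, N)).1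
      (min (R (φ, N)).2 (nv (R (φ, N)).1))))
    rw [min_eq_left r3]
    exact f2
  · change 2 ^ (nv (fin3 (fun n => min (t n) n) d (max n0 2) c (R (φ, N)).1
      (min (R (φ, N)).2 (nv (R (φ, N)).1))) - t (nv (fin3 (fun n => min (t n) n) d (max n0 2) c (R (φ, N)).1
      (min (R (φ, N)).2 (nv (R (φ, N)).1))))) ≤ count (fin3 (fun n => min (t n) n) d (max n0 2) c (R (φ, N)).1
      (min (R (φ, N)).2 (nv (R (φ, N)).1))) ↔ N ≤ count φ
    rw [min_eq_left r3, r4, ← f3]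
    have h0 : ∀ n, n - t n = n - min (t n) n := by
      intro n
      omega
    rw [h0]

end Pool.Agent.AK
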