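import Pool.Agent.AK.StH

set_option autoImplicit false

/-!
# AK, module Lev2: the search for the level is correct
-/

namespace Pool.Agent.AK

open Pool.Agent.PolyTime

/-- the test of the search at level `j` -/
def Lev2_test (m t j : ℕ) : Prop := m ≤ (ch (tab m j) (ch (tab m (j + 1)) t).2).2

theorem Lev2_stp (m j : ℕ) : stp (tab m j) = tab m (j + 1) := by
  unfold tab
  rw [Function.iterate_succ_apply']

/-- the state after `i` steps -/
theorem Lev2_inv (m t i : ℕ) : ∃ j, (lvs2 m t)^[i] (0, tab0 m) = (j, tab m j) ∧ j ≤ i ∧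
    (∀ j', j' < j → ¬ Lev2_test m t j') ∧ (Lev2_test m t j ∨ j = i) := by
  induction i with
  | zero => exact ⟨0, rfl, le_rfl, fun j' hj' => absurd hj' (by omega), Or.inr rfl⟩
  | succ i ih =>
    obtain ⟨j, h1, h2, h3, h4⟩ := ih
    rw [Function.iterate_succ_apply', h1]
    by_cases h : Lev2_test m t j
    · refine ⟨j, ?_, by omega, h3, Or.inl h⟩
      unfold lvs2
      unfold Lev2_test at h
      rw [← Lev2_stp] at h
      rw [if_pos h]
    · have hj : j = i := h4.resolve_left h
      refine ⟨j + 1, ?_, by omega, ?_, Or.inr (by omega)⟩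
      · unfold lvs2
        unfold Lev2_test at h
        rw [← Lev2_stp] at h
        rw [if_neg h]
        change (j + 1, stp (tab m j)) = _
        rw [Lev2_stp]
      · intro j' hj'
        rcases Nat.lt_succ_iff_lt_or_eq.1 hj' with h5 | h5
        · exact h3 j' h5
        · rw [h5]
          exact h

theorem Lev2_A0 (j : ℕ) : A j 0 = j + 2 := by
  induction j with
  | zero => rfl
  | succ j ih =>
    change 0 + 1 + A j 0 = j + 1 + 2
    omega

/-- a level with a large first chain -/
theorem Lev2_hit (h1 : StTab) (h2 : StChain) (h3 : StAck) {m t j a : ℕ}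
    (ha : min a m ≤ (ch (tab m (j + 1)) t).2) (hb : m ≤ (A j)^[a] 0) : Lev2_test m t j := by
  unfold Lev2_test
  set y := (ch (tab m (j + 1)) t).2 with hy
  obtain ⟨-, -, c1, c2, -, -⟩ := h2 m j (tab m j) y (h1.2 m j)
  rcases le_total m y with h | h
  · rw [min_eq_right h] at c2
    exact c2
  · rcases le_total a m with h4 | h4
    · rw [min_eq_left h4] at ha
      have h5 : (A j)^[a] 0 ≤ (A j)^[y] 0 := h3.2.2.2.2.1 j a y ha
      rw [min_eq_right (hb.trans h5)] at c1
      exact c1
    · rw [min_eq_right h4] at ha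
      have h5 : y = m := le_antisymm h ha
      rw [h5, min_self] at c2
      rw [h5]
      exact c2

theorem thm_Lev2 (h1 : StTab) (h2 : StChain) (h3 : StAck) : StLev2 := by
  intro m t ht
  obtain ⟨j, e1, e2, e3, e4⟩ := Lev2_inv m t (Nat.size (Nat.size m))
  have hmJ : m ≤ 2 ^ 2 ^ Nat.size (Nat.size m) := by
    have a1 : m < 2 ^ Nat.size m := Nat.lt_size_self m
    have a2 : Nat.size m < 2 ^ Nat.size (Nat.size m) := Nat.lt_size_self _
    have a3 : 2 ^ Nat.size m ≤ 2 ^ 2 ^ Nat.size (Nat.size m) :=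
      Nat.pow_le_pow_right (by norm_num) a2.le
    omega
  have hJ : Lev2_test m t (Nat.size (Nat.size m)) := by
    refine Lev2_hit h1 h2 h3 (a := Nat.size (Nat.size m) + 3) ?_
      (hmJ.trans (h3.2.2.2.2.2.2 _))
    have b1 := (h2 m (Nat.size (Nat.size m) + 1) _ t (h1.2 m _)).2.2.1
    have b2 : (A (Nat.size (Nat.size m) + 1))^[1] 0 ≤ (A (Nat.size (Nat.size m) + 1))^[t] 0 :=
      h3.2.2.2.2.1 _ _ _ ht
    have b3 : (A (Nat.size (Nat.size m) + 1))^[1] 0 = Nat.size (Nat.size m) + 3 := by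
      change A (Nat.size (Nat.size m) + 1) 0 = _
      rw [Lev2_A0]
    rw [b3] at b2
    exact (min_le_min_right m b2).trans b1
  have hm : Lev2_test m t j := by
    rcases e4 with h | h
    · exact h
    · rw [h]
      exact hJ
  unfold lev2
  rw [e1]
  refine ⟨rfl, ?_, e2, ?_⟩
  · change m ≤ (ch (tab m j) (ch (stp (tab m j)) t).2).2
    rw [Lev2_stp]
    exact hm
  · intro k n hk hmn hn
    change j + 4 ≤ k
    obtain ⟨k0, rfl⟩ : ∃ k0, k = k0 + 4 := ⟨k - 4, by omega⟩
    have c1 : Lev2_test m t k0 := by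
      refine Lev2_hit h1 h2 h3 (a := B (k0 + 4) t) ?_ (hmn.trans hn)
      exact (h2 m (k0 + 1) _ t (h1.2 m _)).2.2.1
    by_contra hcon
    exact e3 k0 (by omega) c1

end Pool.Agent.AK
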