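import Pool.Agent.AK.StH

set_option autoImplicit false

/-! # AK, module M2R: majority of monotone CNFs of width at most `al n` is many-one hard -/

namespace Pool.Agent.AK

open Pool.Agent.PolyTime

private theorem M2R_iff (n c : ℕ) : 2 ^ (n - 1) ≤ c ↔ 2 ^ n ≤ 2 * c := by
  rcases n with _ | n
  · simp only [Nat.zero_sub, pow_zero]
    omega
  · rw [Nat.add_sub_cancel, pow_succ]
    omega

private theorem M2R_Rch (h2 : StN01) {k : ℕ} (hk : 4 ≤ k) : Rch k 1 = B (k - 1) (k - 1) := by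
  unfold Rch
  rw [if_neg (by omega)]
  have h3 : B k 1 = k - 1 := by
    unfold B
    rw [Function.iterate_one, h2.2.2.1]
    omega
  rw [h3]

theorem thm_M2R (h1 : StHR) (h2 : StN01) (h3 : StN11) : StM2R := by
  obtain ⟨R, hR, hR2⟩ := h1 al (fun _ => 1) (PolyTime.const 1) ⟨2, 3, fun n hn => by
    obtain ⟨h4, h5⟩ := h3.2.2.2.2.1 n
    refine ⟨by omega, ?_, ?_⟩
    · rw [M2R_Rch h2 h4]
      exact h5
    · obtain ⟨m, rfl⟩ : ∃ m, n = m + 1 := ⟨n - 1, by omega⟩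
      rw [Nat.add_sub_cancel]
      nlinarith⟩
  refine ⟨R, hR, fun φ N hN => ?_⟩
  obtain ⟨h4, h5, h6⟩ := hR2 φ N hN
  exact ⟨h4, h5, (M2R_iff _ _).symm.trans h6⟩

end Pool.Agent.AK
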