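import Pool.Agent.AK.StH

set_option autoImplicit false

/-!
# AK, module PP: correctness of the threshold formula with `t + 1` pieces
-/

namespace Pool.Agent.AK

open Pool.Agent.PolyTime

private theorem PP_dens (t y : ℕ) (x : ℚ) :
    (1 / 2 : ℚ) ^ t ≤ (1 + (1 - (1 / 2 : ℚ) ^ y + x)) / 2 ^ (t + 1) ↔ (1 / 2 : ℚ) ^ y ≤ x := by
  have h2 : (0 : ℚ) < 2 ^ (t + 1) := by positivity
  have h3 : (1 / 2 : ℚ) ^ t * 2 ^ (t + 1) = 2 := by
    rw [pow_succ, ← mul_assoc, ← mul_pow]
    norm_num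
  rw [le_div_iff₀ h2, h3]
  constructor <;> intro h <;> linarith

theorem thm_PP (h1 : StTab) (h2 : StChain) (h3 : StPhi) (h4 : StOhDens) (h5 : StShape)
    (h6 : StLev2) : StPP := by
  intro m t k n D e ht hem hmn hk hcase hMono hw hnv
  have hG0 : Good m 0 (tab0 m) := h1.2 m 0
  unfold PP
  by_cases hc : m ≤ (ch (tab0 m) t).2
  · rw [if_pos hc]
    obtain ⟨a1, -, a3, a4, -⟩ := h3 m 0 (tab0 m) t D e hG0 (hem.trans hc) hMono hw hnv
    refine ⟨⟨(ch (tab0 m) t).1 ++ [cj [D, forced ((ch (tab0 m) t).2 - e)]], rfl, ?_⟩, a3,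
      a4.trans (by omega), a1⟩
    rw [List.length_append, (h2 m 0 (tab0 m) t hG0).1]
    rfl
  · rw [if_neg hc]
    have hch := h2 m 0 (tab0 m) t hG0
    have htm : t < m := by
      by_contra hcon
      have h := hch.2.2.2.1
      rw [min_eq_right (by omega)] at h
      exact hc h
    have hn : n ≤ Rch k t := by
      rcases hcase with h | h
      · omega
      · exact h
    have hk4 : 4 ≤ k := by
      by_contra hcon
      have hk3 : k = 3 := by omega
      subst hk3
      have hB : n ≤ (A 0)^[t] 0 := hn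
      have h := hch.2.2.1
      rw [min_eq_right (hmn.trans hB)] at h
      exact hc h
    have hn' : n ≤ B (k - 1) (B k t) := by
      unfold Rch at hn
      rw [if_neg (by omega)] at hn
      exact hn
    obtain ⟨b1, b2, -, b4⟩ := h6 m t ht
    have hj := b4 k n hk4 hmn hn'
    have hG : Good m (lev2 m t).1 (lev2 m t).2 := by
      rw [b1]
      exact h1.2 m _
    have hGs : Good m ((lev2 m t).1 + 1) (stp (lev2 m t).2) := h1.1 _ _ _ hG
    obtain ⟨c1, c2, -, -, -, c6⟩ := h2 m _ (stp (lev2 m t).2) t hGs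
    obtain ⟨p1, -, p3, p4, -⟩ := h3 m (lev2 m t).1 (lev2 m t).2 (ch (stp (lev2 m t).2) t).2 D e hG
      (hem.trans b2) hMono hw hnv
    have hlen : ((ch (stp (lev2 m t).2) t).1 ++
        [Phi (lev2 m t).2 (ch (stp (lev2 m t).2) t).2 D e]).length = t + 1 := by
      rw [List.length_append, c1]
      rfl
    have hpm : ∀ ψ ∈ (ch (stp (lev2 m t).2) t).1 ++
        [Phi (lev2 m t).2 (ch (stp (lev2 m t).2) t).2 D e],
        Mono ψ ∧ width ψ ≤ (lev2 m t).1 + 3 := by
      intro ψ hψ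
      rw [List.mem_append, List.mem_singleton] at hψ
      rcases hψ with h | rfl
      · exact c6 ψ h
      · exact ⟨p3, p4⟩
    refine ⟨⟨_, rfl, hlen⟩, (h5.2.2.1 _ fun ψ hψ => (hpm ψ hψ).1).1, ?_, ?_⟩
    · refine (h5.2.1 _ _ fun ψ hψ => (hpm ψ hψ).2).1.trans ?_
      rw [max_le_iff]
      constructor <;> omega
    · rw [h4, hlen, List.map_append, List.sum_append, c2, List.map_singleton, List.sum_singleton,
        PP_dens]
      exact p1

end Pool.Agent.AK
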