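import Pool.Agent.AK.StF

set_option autoImplicit false

/-! # AK, module PtLev: the level loop is computed in polynomial time -/

namespace Pool.Agent.AK

open Pool.Agent.PolyTime

/-- The step of the loop with a guard. -/
def PtLev_f (l : List Unit) (p : ℕ × Tab) : ℕ × Tab :=
  if l.length ≤ (ch p.2 (min (p.1 + 3) (l.length + 4))).2 then p else (p.1 + 1, stp p.2)

theorem PtLev_size_le (x : ℕ) : Nat.size x ≤ x := Nat.size_le.2 Nat.lt_two_pow_self

theorem PtLev_stp (m j : ℕ) : stp (tab m j) = tab m (j + 1) := by
  unfold tab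
  rw [Function.iterate_succ_apply']

theorem PtLev_inv (l : List Unit) : ∀ i, i ≤ Nat.size (Nat.size l.length) →
    ∃ j ≤ i, (PtLev_f l)^[i] (0, tab0 l.length) = (j, tab l.length j) ∧
      (lvs l.length)^[i] (0, tab0 l.length) = (j, tab l.length j) := by
  intro i
  induction i with
  | zero =>
    intro _
    exact ⟨0, le_rfl, rfl, rfl⟩
  | succ i ih =>
    intro hi
    obtain ⟨j, hj, h1, h2⟩ := ih (by omega)
    have e2 := PtLev_size_le (Nat.size l.length)
    have e3 := PtLev_size_le l.length
    have hmin : min (j + 3) (l.length + 4) = j + 3 := min_eq_left (by omega)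
    rw [Function.iterate_succ_apply', Function.iterate_succ_apply', h1, h2]
    unfold PtLev_f lvs
    simp only [hmin, PtLev_stp]
    by_cases hc : l.length ≤ (ch (tab l.length j) (j + 3)).2
    · exact ⟨j, by omega, by rw [if_pos hc], by rw [if_pos hc]⟩
    · exact ⟨j + 1, by omega, by rw [if_neg hc], by rw [if_neg hc]⟩

theorem thm_PtLev (h1 : StPtT) (h2 : StSz) (_h3 : StTab) : StPtLev := by
  obtain ⟨hch, hstp, htab0, -⟩ := h1
  obtain ⟨c, hc⟩ := h2
  have hlen : PolyTime (fun l : List Unit => l.length) := by fun_prop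
  have hlb : PBd (fun l : List Unit => l.length) := pbd_length (l := fun l : List Unit => l)
    (by fun_prop)
  -- the step
  have hq1 : PolyTime (fun q : List Unit × (ℕ × Tab) => q.1.length) :=
    hlen.comp (f := fun q : List Unit × (ℕ × Tab) => q.1) (by fun_prop)
  have hu : PolyTime (fun q : List Unit × (ℕ × Tab) =>
      List.replicate (min (q.2.1 + 3) (q.1.length + 4)) ()) := by
    refine PolyTime.replicate ?_ ?_ (PolyTime.const ())
    · refine PolyTime.min ?_ (hq1.add (PolyTime.const 4))
      have : PolyTime (fun q : List Unit × (ℕ × Tab) => q.2.1) := by fun_prop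
      exact this.add (PolyTime.const 3)
    · refine PBd.mono (c := fun q : List Unit × (ℕ × Tab) => q.1.length + 4) ?_
        (fun q => min_le_right _ _)
      exact (pbd_length (l := fun q : List Unit × (ℕ × Tab) => q.1) (by fun_prop)).add
        (PBd.const 4)
  have hc1 : PolyTime (fun q : List Unit × (ℕ × Tab) =>
      ch q.2.2 (min (q.2.1 + 3) (q.1.length + 4))) := by
    have hT : PolyTime (fun q : List Unit × (ℕ × Tab) => q.2.2) := by fun_prop
    exact (hch.comp (hT.prodMk hu)).congr fun q => by rw [List.length_replicate]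
  have hf : PolyTime (fun q : List Unit × (ℕ × Tab) => PtLev_f q.1 q.2) := by
    unfold PtLev_f
    refine PolyTime.ite (PolyTime.decide_le hq1 hc1.snd) (by fun_prop) ?_
    have hT : PolyTime (fun q : List Unit × (ℕ × Tab) => q.2.2) := by fun_prop
    have hn : PolyTime (fun q : List Unit × (ℕ × Tab) => q.2.1) := by fun_prop
    exact (hn.add (PolyTime.const 1)).prodMk (hstp.comp hT)
  have hn : PolyTime (fun l : List Unit => Nat.size (Nat.size l.length)) :=
    PolyTime.natSize (PolyTime.natSize hlen)
  have hnb : PBd (fun l : List Unit => Nat.size (Nat.size l.length)) :=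
    hlb.mono fun l => (PtLev_size_le _).trans (PtLev_size_le _)
  have hB : PBd (fun l : List Unit => 2 * l.length + 1 + (l.length + 2) ^ c) :=
    ((((PBd.const 2).mul hlb).add (PBd.const 1))).add ((hlb.add (PBd.const 2)).pow c)
  refine (PolyTime.iterate hf hn hnb ((PolyTime.const 0).prodMk htab0) hB ?_).congr ?_
  · intro l i hi
    obtain ⟨j, hj, e, -⟩ := PtLev_inv l i hi
    rw [e, size_pair]
    have e1 := hc l.length j (by omega)
    have e2 := size_nat_self j
    have e3 := PtLev_size_le (Nat.size l.length)
    have e4 := PtLev_size_le l.length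
    omega
  · intro l
    obtain ⟨j, -, e1, e2⟩ := PtLev_inv l _ le_rfl
    unfold lev
    rw [e1, e2]

end Pool.Agent.AK
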