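import Pool.Agent.AK.StH
import Pool.Agent.AK.PtT
import Pool.Agent.AK.PtLev

set_option autoImplicit false

/-!
# AK, module PtPP: `lev2` and `PP` are computed in polynomial time
-/

namespace Pool.Agent.AK

open Pool.Agent.PolyTime

/-- The unary bound. -/
def PtPP_U (m : ℕ) : ℕ := (m + 3) * (2 * m + 2)

/-- The step of the search with a guard. -/
def PtPP_f (m : ℕ) (u : List Unit) (s : ℕ × Tab) : ℕ × Tab :=
  if m ≤ (ch s.2 (List.replicate (min (ch (stp s.2) u.length).2 (PtPP_U m)) ()).length).2 then s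
  else (s.1 + 1, stp s.2)

theorem PtPP_bd (h4 : StTab) (h5 : StChain) (m j q : ℕ) (hj : j ≤ m) :
    (ch (tab m j) q).2 ≤ PtPP_U m ∧ (ch (stp (tab m j)) q).2 ≤ PtPP_U m := by
  have g0 := h4.2 m j
  have g1 := h4.1 m j _ g0
  have c0 := (h5 m j (tab m j) q g0).2.2.2.2.1
  have c1 := (h5 m (j + 1) (stp (tab m j)) q g1).2.2.2.2.1
  unfold PtPP_U
  constructor
  · exact c0.trans (Nat.mul_le_mul_right _ (by omega))
  · exact c1.trans (Nat.mul_le_mul_right _ (by omega))

theorem PtPP_inv (h4 : StTab) (h5 : StChain) (m : ℕ) (u : List Unit) :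
    ∀ i, i ≤ Nat.size (Nat.size m) →
    ∃ j ≤ i, (PtPP_f m u)^[i] (0, tab0 m) = (j, tab m j) ∧
      (lvs2 m u.length)^[i] (0, tab0 m) = (j, tab m j) := by
  intro i
  induction i with
  | zero =>
    intro _
    exact ⟨0, le_rfl, rfl, rfl⟩
  | succ i ih =>
    intro hi
    obtain ⟨j, hj, h1, h2⟩ := ih (by omega)
    have e2 := PtLev_size_le (Nat.size m)
    have e3 := PtLev_size_le m
    have hmin : min (ch (stp (tab m j)) u.length).2 (PtPP_U m) =
        (ch (stp (tab m j)) u.length).2 :=
      min_eq_left (PtPP_bd h4 h5 m j _ (by omega)).2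
    rw [Function.iterate_succ_apply', Function.iterate_succ_apply', h1, h2]
    unfold PtPP_f lvs2
    simp only [hmin, List.length_replicate]
    by_cases hc : m ≤ (ch (tab m j) (ch (stp (tab m j)) u.length).2).2
    · exact ⟨j, by omega, by rw [if_pos hc], by rw [if_pos hc]⟩
    · refine ⟨j + 1, by omega, ?_, ?_⟩
      · rw [if_neg hc]
        simp only [PtLev_stp]
      · rw [if_neg hc]
        simp only [PtLev_stp]

theorem PtPP_lev2 (h4 : StTab) (h5 : StChain) (m t : ℕ) :
    ∃ j ≤ m, lev2 m t = (j, tab m j) := by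
  obtain ⟨j, hj, -, e⟩ := PtPP_inv h4 h5 m (List.replicate t ()) _ le_rfl
  rw [List.length_replicate] at e
  have e2 := PtLev_size_le (Nat.size m)
  have e3 := PtLev_size_le m
  exact ⟨j, by omega, e⟩

lemma PtPP_hU {α : Type} [PEnc α] {l : α → List Unit} (hl : PolyTime l) :
    PolyTime (fun a => PtPP_U (l a).length) ∧ PBd (fun a => PtPP_U (l a).length) := by
  unfold PtPP_U
  constructor
  · fun_prop
  · have hb := pbd_length hl
    exact (hb.add (PBd.const 3)).mul (((PBd.const 2).mul hb).add (PBd.const 2))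

lemma PtPP_step (hstp : PolyTime stp) :
    PolyTime (fun q : (List Unit × List Unit) × (ℕ × Tab) => PtPP_f q.1.1.length q.1.2 q.2) := by
  unfold PtPP_f
  have hT : PolyTime (fun q : (List Unit × List Unit) × (ℕ × Tab) => q.2.2) := by fun_prop
  have hn : PolyTime (fun q : (List Unit × List Unit) × (ℕ × Tab) => q.2.1) := by fun_prop
  have hsT : PolyTime (fun q : (List Unit × List Unit) × (ℕ × Tab) => stp q.2.2) := hstp.comp hT
  have hl : PolyTime (fun q : (List Unit × List Unit) × (ℕ × Tab) => q.1.1) := by fun_prop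
  have hU := PtPP_hU hl
  have hc : PolyTime (fun q : (List Unit × List Unit) × (ℕ × Tab) =>
      ch (stp q.2.2) q.1.2.length) := PtT_ch' hsT (by fun_prop)
  have hu := PtT_un hc.snd hU.1 hU.2
  have hc2 := PtT_ch' hT hu
  refine PolyTime.ite (PolyTime.decide_le ?_ hc2.snd) (by fun_prop) ?_
  · fun_prop
  · exact (hn.add (PolyTime.const 1)).prodMk hsT

lemma PtPP_ptlev2 (h2 : StPtT) (h3 : StSz) (h4 : StTab) (h5 : StChain) :
    PolyTime (fun p : List Unit × List Unit => lev2 p.1.length p.2.length) := by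
  obtain ⟨hch, hstp, htab0, -⟩ := h2
  obtain ⟨c, hc⟩ := h3
  have hl : PolyTime (fun p : List Unit × List Unit => p.1) := by fun_prop
  have hlen : PolyTime (fun p : List Unit × List Unit => p.1.length) := by fun_prop
  have hlb : PBd (fun p : List Unit × List Unit => p.1.length) := pbd_length hl
  have hn : PolyTime (fun p : List Unit × List Unit => Nat.size (Nat.size p.1.length)) :=
    PolyTime.natSize (PolyTime.natSize hlen)
  have hnb : PBd (fun p : List Unit × List Unit => Nat.size (Nat.size p.1.length)) :=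
    hlb.mono fun l => (PtLev_size_le _).trans (PtLev_size_le _)
  have hB : PBd (fun p : List Unit × List Unit =>
      2 * p.1.length + 1 + (p.1.length + 2) ^ c) :=
    ((((PBd.const 2).mul hlb).add (PBd.const 1))).add ((hlb.add (PBd.const 2)).pow c)
  refine (PolyTime.iterate (f := fun (p : List Unit × List Unit) s =>
    PtPP_f p.1.length p.2 s) (PtPP_step hstp) hn hnb
    ((PolyTime.const 0).prodMk (htab0.comp hl)) hB ?_).congr ?_
  · intro p i hi
    obtain ⟨j, hj, e, -⟩ := PtPP_inv h4 h5 p.1.length p.2 i hi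
    rw [e, size_pair]
    have e1 := hc p.1.length j (by omega)
    have e2 := size_nat_self j
    have e3 := PtLev_size_le (Nat.size p.1.length)
    have e4 := PtLev_size_le p.1.length
    omega
  · intro p
    obtain ⟨j, -, e1, e2⟩ := PtPP_inv h4 h5 p.1.length p.2 _ le_rfl
    unfold lev2
    rw [e1, e2]

theorem thm_PtPP (h1 : StPtC) (h2 : StPtT) (h3 : StSz) (h4 : StTab) (h5 : StChain)
    (_h6 : StLev2) : StPtPP := by
  have hlev := PtPP_ptlev2 h2 h3 h4 h5
  obtain ⟨-, -, hoh, -⟩ := h1
  obtain ⟨hch, hstp, htab0, -, hPhi, -⟩ := h2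
  unfold StPtPP
  have hl : PolyTime (fun p : List Unit × List Unit × CNF × ℕ => p.1) := by fun_prop
  have hlen : PolyTime (fun p : List Unit × List Unit × CNF × ℕ => p.1.length) := by fun_prop
  have hlb : PBd (fun p : List Unit × List Unit × CNF × ℕ => p.1.length) := pbd_length hl
  have hD : PolyTime (fun p : List Unit × List Unit × CNF × ℕ => p.2.2.1) := by fun_prop
  have he : PolyTime (fun p : List Unit × List Unit × CNF × ℕ => min p.2.2.2 p.1.length) := by
    fun_prop
  have hU := PtPP_hU hl
  have hUL : PolyTime (fun p : List Unit × List Unit × CNF × ℕ =>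
      List.replicate (PtPP_U p.1.length) ()) := PolyTime.replicate hU.1 hU.2 (PolyTime.const ())
  have ht : PolyTime (fun p : List Unit × List Unit × CNF × ℕ =>
      List.replicate (min p.2.1.length p.1.length) ()) := by
    refine PtT_un (n := fun p : List Unit × List Unit × CNF × ℕ => p.2.1.length)
      (b := fun p => p.1.length) (by fun_prop) hlen hlb
  have hT0 : PolyTime (fun p : List Unit × List Unit × CNF × ℕ => tab0 p.1.length) :=
    htab0.comp hl
  have hL : PolyTime (fun p : List Unit × List Unit × CNF × ℕ =>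
      lev2 p.1.length (min p.2.1.length p.1.length)) := by
    refine (hlev.comp (hl.prodMk ht)).congr fun p => ?_
    rw [List.length_replicate]
  have hT := hL.snd
  have hsT : PolyTime (fun p : List Unit × List Unit × CNF × ℕ =>
      stp (lev2 p.1.length (min p.2.1.length p.1.length)).2) := hstp.comp hT
  have hC := PtT_ch' hsT ht
  have hy := PtT_un hC.snd hU.1 hU.2
  have hP0 := hPhi.comp (hT0.prodMk (ht.prodMk (hD.prodMk (he.prodMk hUL))))
  have hP1 := hPhi.comp (hT.prodMk (hy.prodMk (hD.prodMk (he.prodMk hUL))))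
  have hcond := PolyTime.decide_le hlen (PtT_ch' hT0 ht).snd
  have hfin := PolyTime.ite hcond hP0 (hoh.comp (hC.fst.append (hP1.cons (PolyTime.const []))))
  refine hfin.congr fun p => ?_
  simp only [List.length_replicate]
  unfold PP
  obtain ⟨j, hj, ej⟩ := PtPP_lev2 h4 h5 p.1.length (min p.2.1.length p.1.length)
  have b0 := fun q => (PtPP_bd h4 h5 p.1.length 0 q (Nat.zero_le _)).1
  have bj := fun q => PtPP_bd h4 h5 p.1.length j q hj
  have b0' : (ch (tab0 p.1.length) (min p.2.1.length p.1.length)).2 ≤ PtPP_U p.1.length :=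
    b0 _
  rw [ej]
  rw [if_pos b0', min_eq_left (bj (min p.2.1.length p.1.length)).2, if_pos (bj _).1]

end Pool.Agent.AK
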