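import Pool.Agent.AK.AAll
import Pool.Agent.AK.StH
import Pool.Agent.AK.S
import Pool.Agent.AK.Grow3
import Pool.Agent.AK.E
import Pool.Agent.AK.Lev2
import Pool.Agent.AK.PP
import Pool.Agent.AK.PtPP
import Pool.Agent.AK.Bd3
import Pool.Agent.AK.Fin3
import Pool.Agent.AK.PtFin3
import Pool.Agent.AK.HR
import Pool.Agent.AK.M2R

set_option autoImplicit false

/-! # AK, second wave: all statements without hypotheses -/

namespace Pool.Agent.AK

open Pool.Agent.PolyTime

/-- **K** (constant width): for every `k ≥ 3` the question `#φ ≥ 2^(n - alk k n)` for monotone `k`-CNFs is in P iff #SAT is in FP. -/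
def StK : Prop := ∀ k : ℕ, 3 ≤ k →
  ((∃ G : CNF → Bool, PolyTime G ∧ ∀ φ, width φ ≤ k → Mono φ →
    (G φ = true ↔ 2 ^ (nv φ - alk k (nv φ)) ≤ count φ)) ↔ PolyTime count)

theorem thm_K (h1 : StB2) (h2 : StB3) : StK := by
  intro k hk
  obtain ⟨hu, n0, hn⟩ := h2 k hk
  exact h1 k hk (alk k) hu ⟨2, n0, fun n h => ⟨le_rfl, hn n h⟩⟩

theorem thm_H (h1 : StHR) (h2 : StRB) (h3 : StRC) : StH := by
  intro k t ht hd
  constructor
  · rintro ⟨G, hG, hc⟩
    obtain ⟨R, hR, hR'⟩ := h1 k t ht hd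
    refine h2 (fun p => G (R p)) (hG.comp hR) (fun φ N hN => ?_)
    obtain ⟨r1, r2, r3⟩ := hR' φ N hN
    rw [hc _ r2 r1, r3]
  · intro h
    obtain ⟨G, hG, hc⟩ := (h3 h).2 t ht
    exact ⟨G, hG, fun φ _ _ => hc φ⟩

theorem all_S : StS := thm_S all_Gap all_N09 all_Nrm all_Tab
theorem all_Grow3 : StGrow3 := thm_Grow3 thm_N01 all_N02 all_N09 all_N11
theorem all_E : StE := thm_E all_Nrm all_Leaves all_Err all_Est all_Gap all_Grow3 all_DensB
theorem all_Lev2 : StLev2 := thm_Lev2 all_Tab all_Chain all_Ack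
theorem all_PP : StPP := thm_PP all_Tab all_Chain all_Phi all_OhDens all_Shape all_Lev2
theorem all_PtPP : StPtPP := thm_PtPP thm_PtC all_PtT all_Sz all_Tab all_Chain all_Lev2
theorem all_Bd3 : StBd3 := thm_Bd3 all_PtPP
theorem all_Fin3 : StFin3 := thm_Fin3 all_PP all_Fpad all_DensB
theorem all_PtFin3 : StPtFin3 := thm_PtFin3 thm_PtC all_PtPP thm_RN
theorem all_HR : StHR := thm_HR thm_Red all_Bd3 all_Fin3 all_PtFin3
theorem all_H : StH := thm_H all_HR all_RB RAll_C
theorem all_M2R : StM2R := thm_M2R all_HR thm_N01 all_N11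
theorem all_K : StK := thm_K all_B2 all_B3

end Pool.Agent.AK
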