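import Pool.Agent.AK.HAll

set_option autoImplicit false

/-! # AK: hardness as soon as `Rch (k n) (t n)` is polynomially related to `n` -/

namespace Pool.Agent.AK

open Pool.Agent.PolyTime

/-- **HRd**: as `StHR`, with the weaker hypothesis `n ≤ Rch (k n) (t n) ^ d`. -/
def StHRd : Prop := ∀ k t : ℕ → ℕ, UPoly t →
  (∃ d n0 : ℕ, ∀ n, n0 ≤ n → 3 ≤ k n ∧ n ≤ Rch (k n) (t n) ^ d ∧ n ≤ (n - t n) ^ d) →
  ∃ R : CNF × ℕ → CNF, PolyTime R ∧ ∀ (φ : CNF) (N : ℕ), N ≤ 2 ^ nv φ →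
    Mono (R (φ, N)) ∧ width (R (φ, N)) ≤ k (nv (R (φ, N))) ∧
    (2 ^ (nv (R (φ, N)) - t (nv (R (φ, N)))) ≤ count (R (φ, N)) ↔ N ≤ count φ)

/-- **Hd**: as `StH`, with the weaker hypothesis `n ≤ Rch (k n) (t n) ^ d`. -/
def StHd : Prop := ∀ k t : ℕ → ℕ, UPoly t →
  (∃ d n0 : ℕ, ∀ n, n0 ≤ n → 3 ≤ k n ∧ n ≤ Rch (k n) (t n) ^ d ∧ n ≤ (n - t n) ^ d) →
  ((∃ G : CNF → Bool, PolyTime G ∧ ∀ φ, width φ ≤ k (nv φ) → Mono φ →
    (G φ = true ↔ 2 ^ (nv φ - t (nv φ)) ≤ count φ)) ↔ PolyTime count)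

theorem thm_Fin3d (h1 : StPP) (h2 : StFpad) (h3 : StDensB) :
    ∀ c : ℕ, (∀ (t : ℕ) (D : CNF) (e : ℕ), t ≤ e + 1 → nv (PP (e + 1) t D e) ≤ (sz3 D e + 2) ^ c) →
    ∀ (k t : ℕ → ℕ) (d n0 : ℕ), (∀ n, n0 ≤ n → 3 ≤ k n ∧ n ≤ Rch (k n) (t n) ^ d ∧ n ≤ (n - t n) ^ d) →
    ∀ (D : CNF) (e : ℕ), Mono D → width D ≤ 2 → e ≤ nv D →
    Mono (fin3 t d n0 c D e) ∧ width (fin3 t d n0 c D e) ≤ k (nv (fin3 t d n0 c D e)) ∧
    (2 ^ (nv (fin3 t d n0 c D e) - t (nv (fin3 t d n0 c D e))) ≤ count (fin3 t d n0 c D e) ↔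
      (1 / 2 : ℚ) ^ e ≤ dens D) := by
  intro c hc k t d n0 hH D e hM hw he
  set X := (sz3 D e + 2) ^ c + n0 + e + 3 with hXd
  set n := X ^ (d + 1) with hnd
  have hXn : X ≤ n := Nat.le_self_pow (by omega) X
  obtain ⟨t1, t2, t3⟩ := hH n (by omega)
  have hpow : ∀ y : ℕ, n ≤ y ^ d → X ≤ y := by
    intro y hy
    by_contra hcon
    have h7 : y ^ d ≤ X ^ d := Nat.pow_le_pow_left (by omega) d
    have h8 : X ^ (d + 1) = X ^ d * X := pow_succ X d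
    have h9 : 0 < X ^ d := Nat.pos_of_ne_zero (pow_ne_zero _ (by omega))
    have h10 : X ^ d * 3 ≤ X ^ d * X := Nat.mul_le_mul_left _ (by omega)
    omega
  have hX : X ≤ n - t n := hpow _ t3
  have hR : X ≤ Rch (k n) (t n) := hpow _ t2
  have ht : 1 ≤ t n := by
    by_contra hcon
    have h0 : t n = 0 := by omega
    rw [h0, Fin3_Rch_zero] at hR
    omega
  set th := min (t n) (e + 1) with hthd
  have hth : 1 ≤ th := by omega
  have hreach : e + 1 ≤ th ∨ X ≤ Rch (k n) th := by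
    rcases Nat.lt_or_ge (t n) (e + 1) with hlt | hge
    · right
      have : th = t n := by omega
      rw [this]
      exact hR
    · left
      omega
  obtain ⟨⟨L, hPL, hL⟩, p3, p4, p1⟩ := h1 (e + 1) th (k n) X D e hth (by omega) (by omega) t1 hreach hM hw he
  have hP := hc th D e (by omega)
  set P := PP (e + 1) th D e with hPd
  have hF : fin3 t d n0 c D e = fpad (th + 1) P (n - nv P - (t n - th)) (t n - th) := rfl
  obtain ⟨f1, f2, f3, f4⟩ := h2 L (n - nv P - (t n - th)) (t n - th) (by omega)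
  rw [hL, ← hPL] at f1 f2 f3 f4
  rw [← hF] at f1 f2 f3 f4
  have hnv : nv (fin3 t d n0 c D e) = n := by
    rw [f1]
    omega
  refine ⟨f3 p3, ?_, ?_⟩
  · rw [hnv]
    exact f4 (k n) t1 p4
  · rw [hnv, ← p1]
    refine Fin3_iff (n - t n) th (t n - th) (dens P) _ ?_
    rw [h3.2.2.2.2.2 (fin3 t d n0 c D e), hnv, f2]
    have : n - t n + th + (t n - th) = n := by omega
    rw [this]

theorem thm_HRd (h1 : StRed) (h2 : StBd3) (h3 : StPP) (h3' : StFpad) (h3'' : StDensB) (h4 : StPtFin3) : StHRd := by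
  rintro k t ht ⟨d, n0, hd⟩
  obtain ⟨R, hR, hR'⟩ := h1
  obtain ⟨c, hc⟩ := h2
  have hlt : ∀ n, max n0 2 ≤ n → t n < n := by
    intro n hn
    obtain ⟨-, -, hb⟩ := hd n (le_trans (le_max_left _ _) hn)
    have h2n : 2 ≤ n := le_trans (le_max_right _ _) hn
    by_contra hcon
    have h0 : n - t n = 0 := by omega
    rw [h0] at hb
    rcases Nat.eq_zero_or_pos d with hd0 | hd0
    · rw [hd0, pow_zero] at hb
      omega
    · rw [zero_pow (by omega)] at hb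
      omega
  have hd' : ∀ n, max n0 2 ≤ n → 3 ≤ k n ∧ n ≤ Rch (k n) (min (t n) n) ^ d ∧ n ≤ (n - min (t n) n) ^ d := by
    intro n hn
    obtain ⟨h0, ha, hb⟩ := hd n (le_trans (le_max_left _ _) hn)
    rw [min_eq_left (hlt n hn).le]
    exact ⟨h0, ha, hb⟩
  refine ⟨fun p => fin3 (fun n => min (t n) n) d (max n0 2) c (R p).1 (min (R p).2 (nv (R p).1)),
    (h4 t d (max n0 2) c ht).comp hR, ?_⟩
  intro φ N hN
  obtain ⟨r1, r2, r3, r4⟩ := hR' φ N hN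
  obtain ⟨f1, f2, f3⟩ := thm_Fin3d h3 h3' h3'' c hc k (fun n => min (t n) n) d (max n0 2) hd' (R (φ, N)).1
    (R (φ, N)).2 r1 r2 r3
  change Mono (fin3 (fun n => min (t n) n) d (max n0 2) c (R (φ, N)).1
    (min (R (φ, N)).2 (nv (R (φ, N)).1))) ∧ _
  rw [min_eq_left r3]
  refine ⟨f1, ?_, ?_⟩
  · change width (fin3 (fun n => min (t n) n) d (max n0 2) c (R (φ, N)).1
      (min (R (φ, N)).2 (nv (R (φ, N)).1))) ≤ k (nv (fin3 (fun n => min (t n) n) d (max n0 2) c (R (φ, N)).1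
      (min (R (φ, N)).2 (nv (R (φ, N)).1))))
    rw [min_eq_left r3]
    exact f2
  · change 2 ^ (nv (fin3 (fun n => min (t n) n) d (max n0 2) c (R (φ, N)).1
      (min (R (φ, N)).2 (nv (R (φ, N)).1))) - t (nv (fin3 (fun n => min (t n) n) d (max n0 2) c (R (φ, N)).1
      (min (R (φ, N)).2 (nv (R (φ, N)).1))))) ≤ count (fin3 (fun n => min (t n) n) d (max n0 2) c (R (φ, N)).1
      (min (R (φ, N)).2 (nv (R (φ, N)).1))) ↔ N ≤ count φ
    rw [min_eq_left r3, r4, ← f3]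
    have h0 : ∀ n, n - t n = n - min (t n) n := by
      intro n
      omega
    rw [h0]

theorem thm_Hd (h1 : StHRd) (h2 : StRB) (h3 : StRC) : StHd := by
  intro k t ht hd
  constructor
  · rintro ⟨G, hG, hc⟩
    obtain ⟨R, hR, hR'⟩ := h1 k t ht hd
    refine h2 (fun p => G (R p)) (hG.comp hR) (fun φ N hN => ?_)
    obtain ⟨r1, r2, r3⟩ := hR' φ N hN
    rw [hc _ r2 r1, r3]
  · intro h
    obtain ⟨G, hG, hc⟩ := (h3 h).2 t ht
    exact ⟨G, hG, fun φ _ _ => hc φ⟩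

theorem all_HRd : StHRd := thm_HRd thm_Red all_Bd3 all_PP all_Fpad all_DensB all_PtFin3
theorem all_Hd : StHd := thm_Hd all_HRd all_RB RAll_C

end Pool.Agent.AK
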