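import Pool.Agent.AK.StN

set_option autoImplicit false

/-!
# AK, module HnB: growth of the new gap exponents `Hn k t`
-/

namespace Pool.Agent.AK

/-- The auxiliary arguments. -/
private def HnB_z (j k : ℕ) : ℕ → ℕ
  | 0 => k + 1
  | t + 1 => A j (HnB_z j k t + 1)

private theorem HnB_quart (Y : ℕ) (hY : 7 ≤ Y) : 4 * Y ^ 3 + 10 * Y ^ 2 + 6 * Y + 1 ≤ Y ^ 4 := by
  have h3 : 7 * Y ^ 3 ≤ Y ^ 4 := by
    rw [pow_succ Y 3, mul_comm (Y ^ 3) Y]
    exact Nat.mul_le_mul_right _ hY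
  have h2 : 7 * Y ^ 2 ≤ Y ^ 3 := by
    rw [pow_succ Y 2, mul_comm (Y ^ 2) Y]
    exact Nat.mul_le_mul_right _ hY
  have h1 : 7 * Y ≤ Y ^ 2 := by
    rw [pow_two]
    exact Nat.mul_le_mul_right _ hY
  omega

private theorem HnB_exp (k : ℕ) (hk : 3 ≤ k) : k + 3 ≤ 2 ^ k := by
  induction k, hk using Nat.le_induction with
  | base => norm_num
  | succ x hx ih =>
    rw [pow_succ]
    omega

theorem thm_HnB (h1 : StN01) (h2 : StN02) (h4 : StN04) (h8 : StN08) : StHnB := by
  intro k t hk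
  obtain ⟨h1a, h1b, h1c, -, h1e, h1f, h1g, -⟩ := h1
  obtain ⟨h2a, -, h2c, -, -, -⟩ := h2
  obtain ⟨j, rfl⟩ : ∃ j, k = j + 3 := ⟨k - 3, by omega⟩
  -- (a)
  have ha : ∀ t, j + 3 + 1 + t ≤ HnB_z j (j + 3) t := by
    intro t
    induction t with
    | zero => exact le_refl _
    | succ t ih =>
      have := h1b j (HnB_z j (j + 3) t + 1)
      show j + 3 + 1 + (t + 1) ≤ A j (HnB_z j (j + 3) t + 1)
      omega
  -- (b)
  have hb : ∀ t, HnB_z j (j + 3) t + 2 ≤ (A j)^[t] (j + 3 + 3) := by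
    intro t
    induction t with
    | zero => exact le_refl _
    | succ t ih =>
      rw [Function.iterate_succ_apply']
      show A j (HnB_z j (j + 3) t + 1) + 2 ≤ _
      have q1 := h1f j (HnB_z j (j + 3) t + 1)
      have q2 : 4 ≤ A j (HnB_z j (j + 3) t + 1) := by
        have := h1b j (HnB_z j (j + 3) t + 1)
        have := ha t
        omega
      have q3 := (h1a j).monotone ih
      have q4 : HnB_z j (j + 3) t + 1 + 1 = HnB_z j (j + 3) t + 2 := rfl
      rw [q4] at q1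
      omega
  -- (c)
  have hc : ∀ t, Hn (j + 3) t ≤ (A j)^[3] (HnB_z j (j + 3) t) := by
    intro t
    induction t with
    | zero =>
      have := h2a j 3 (HnB_z j (j + 3) 0)
      show j + 3 ≤ _
      have e : HnB_z j (j + 3) 0 = j + 3 + 1 := rfl
      rw [e] at this ⊢
      omega
    | succ t ih =>
      have hz := ha t
      have e1 : HnB_z j (j + 3) (t + 1) = A j (HnB_z j (j + 3) t + 1) := rfl
      rw [e1]
      generalize HnB_z j (j + 3) t = z at *
      have hz4 : 4 ≤ z := by omega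
      have n4 := h4 j z hz4
      -- lower bound for Y
      have hY : 2 ^ (2 * z + 3) ≤ (A j)^[3] z := by
        show 2 ^ (2 * z + 3) ≤ A j (A j (A j z))
        refine le_trans ?_ (h1e j (A j (A j z)))
        apply Nat.pow_le_pow_right (by norm_num)
        have c1 := h1b j (A j z)
        have c2 := h1e j z
        have c3 : z + 1 ≤ 2 ^ z := Nat.lt_two_pow_self
        have c4 : 2 ^ (z + 1) = 2 * 2 ^ z := by rw [pow_succ]; ring
        omega
      generalize (A j)^[3] z = Y at *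
      have c3 : z + 1 ≤ 2 ^ z := Nat.lt_two_pow_self
      have hY' : 2 ^ (2 * z + 3) = 8 * (2 ^ z * 2 ^ z) := by
        rw [← pow_add, pow_add]
        have : 2 * z = z + z := by ring
        rw [this]
        ring
      have hpz : (z + 1) ≤ 2 ^ z * 2 ^ z := by
        calc z + 1 ≤ 2 ^ z := c3
          _ = 2 ^ z * 1 := by ring
          _ ≤ 2 ^ z * 2 ^ z := Nat.mul_le_mul_left _ Nat.one_le_two_pow
      have hY7 : 7 ≤ Y := by omega
      -- bound for s
      have hs : S0 (j + 3) (t + 1) ≤ Y := by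
        unfold S0
        have d1 : j + 3 ≤ 2 ^ (j + 3) := (Nat.lt_two_pow_self).le
        have d2 : t + 1 + 1 ≤ 2 ^ (t + 1) := Nat.lt_two_pow_self
        calc (j + 3) * (2 ^ (j + 3) * (t + 1 + 1)) ≤ 2 ^ (j + 3) * (2 ^ (j + 3) * 2 ^ (t + 1)) :=
              Nat.mul_le_mul d1 (Nat.mul_le_mul_left _ d2)
          _ = 2 ^ (2 * (j + 3) + (t + 1)) := by
            rw [← pow_add, ← pow_add]
            congr 1
            ring
          _ ≤ 2 ^ (2 * z + 3) := Nat.pow_le_pow_right (by norm_num) (by omega)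
          _ ≤ Y := hY
      have hs1 : 1 ≤ S0 (j + 3) (t + 1) := by
        unfold S0
        have d1 : 1 ≤ 2 ^ (j + 3) := Nat.one_le_two_pow
        calc 1 = 1 * (1 * 1) := by norm_num
          _ ≤ (j + 3) * (2 ^ (j + 3) * (t + 1 + 1)) :=
            Nat.mul_le_mul (by omega) (Nat.mul_le_mul d1 (by omega))
      have hp : (j + 2) * 2 ^ (j + 2) ≤ Y := by
        have d1 : j + 2 ≤ 2 ^ (j + 2) := (Nat.lt_two_pow_self).le
        calc (j + 2) * 2 ^ (j + 2) ≤ 2 ^ (j + 2) * 2 ^ (j + 2) := Nat.mul_le_mul_right _ d1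
          _ = 2 ^ ((j + 2) + (j + 2)) := by rw [← pow_add]
          _ ≤ 2 ^ (2 * z + 3) := Nat.pow_le_pow_right (by norm_num) (by omega)
          _ ≤ Y := hY
      -- unfold
      show Hf (j + 3) (j + 3 - 2) (S0 (j + 3) (t + 1) + (2 * S0 (j + 3) (t + 1) + 1) *
        ((j + 3 - 1) * (2 ^ (j + 3 - 1) * (Hn (j + 3) t + 2)))) + Hn (j + 3) t + 2 ≤ _
      have e2 : j + 3 - 2 = j + 1 := by omega
      have e3 : j + 3 - 1 = j + 2 := by omega
      rw [e2, e3]
      generalize Hn (j + 3) t = h at *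
      generalize S0 (j + 3) (t + 1) = s at *
      have hprod : (j + 2) * (2 ^ (j + 2) * (h + 2)) ≤ Y * (Y + 2) := by
        calc (j + 2) * (2 ^ (j + 2) * (h + 2)) = ((j + 2) * 2 ^ (j + 2)) * (h + 2) := by ring
          _ ≤ Y * (Y + 2) := Nat.mul_le_mul hp (by omega)
      have hS : 2 * (s + (2 * s + 1) * ((j + 2) * (2 ^ (j + 2) * (h + 2)))) + 1 ≤ Y ^ 4 := by
        have d1 : (2 * s + 1) * ((j + 2) * (2 ^ (j + 2) * (h + 2))) ≤ (2 * Y + 1) * (Y * (Y + 2)) :=
          Nat.mul_le_mul (by omega) hprod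
        have d2 := HnB_quart Y hY7
        have d3 : 2 * (Y + (2 * Y + 1) * (Y * (Y + 2))) + 1 = 4 * Y ^ 3 + 10 * Y ^ 2 + 6 * Y + 1 := by
          ring
        omega
      have hHf := h8 (j + 3) (s + (2 * s + 1) * ((j + 2) * (2 ^ (j + 2) * (h + 2)))) j hk
        (by omega) (by omega)
      have hHf2 : Hf (j + 3) (j + 1) (s + (2 * s + 1) * ((j + 2) * (2 ^ (j + 2) * (h + 2)))) ≤
          A j (Y ^ (8 * (j + 3))) := by
        refine hHf.trans ((h1a j).monotone ?_)
        calc _ ≤ (Y ^ 4) ^ (2 * (j + 3)) := Nat.pow_le_pow_left hS _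
          _ = Y ^ (8 * (j + 3)) := by
            rw [← pow_mul]
            congr 1
            ring
      have hbig : Y + 2 ≤ A j (Y ^ (8 * (j + 3))) := by
        have d1 : Y ≤ Y ^ (8 * (j + 3)) := Nat.le_self_pow (by omega) _
        have d2 := h1e j (Y ^ (8 * (j + 3)))
        have d3 : Y ^ (8 * (j + 3)) + 1 < 2 ^ (Y ^ (8 * (j + 3)) + 1) := Nat.lt_two_pow_self
        omega
      have h7 := h1g j (Y ^ (8 * (j + 3)))
      have h9 : Y ^ (8 * (j + 3)) + 2 ≤ Y ^ (9 * z) := by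
        have d0 : 7 ≤ Y ^ (j + 3) := hY7.trans (Nat.le_self_pow (by omega) _)
        have d1 : 1 ≤ Y ^ (8 * (j + 3)) := Nat.one_le_pow _ _ (by omega)
        calc Y ^ (8 * (j + 3)) + 2 ≤ Y ^ (8 * (j + 3)) * 7 := by omega
          _ ≤ Y ^ (8 * (j + 3)) * Y ^ (j + 3) := Nat.mul_le_mul_left _ d0
          _ = Y ^ (9 * (j + 3)) := by
            rw [← pow_add]
            congr 1
            ring
          _ ≤ Y ^ (9 * z) := Nat.pow_le_pow_right (by omega) (by omega)
      have h10 : A j (Y ^ (8 * (j + 3)) + 2) ≤ A j ((A j)^[3] (z + 1)) :=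
        (h1a j).monotone (h9.trans n4)
      have h11 : A j ((A j)^[3] (z + 1)) = (A j)^[3] (A j (z + 1)) := rfl
      rw [h11] at h10
      omega
  -- (d)
  have hd : (A j)^[3] (HnB_z j (j + 3) t) ≤ (A j)^[t + 5] 0 := by
    have q1 : HnB_z j (j + 3) t ≤ (A j)^[t] (j + 3 + 3) := by
      have := hb t
      omega
    have q2 : j + 3 + 3 ≤ (A j)^[2] 0 := by
      show j + 3 + 3 ≤ A j (A j 0)
      rw [h1c j]
      have := h1e j (j + 2)
      have := HnB_exp (j + 3) (by omega)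
      have e : j + 2 + 1 = j + 3 := rfl
      rw [e] at *
      omega
    have e5 : t + 5 = 3 + (t + 2) := by ring
    rw [e5, Function.iterate_add_apply, Function.iterate_add_apply]
    exact h2c j 3 (q1.trans (h2c j t q2))
  exact (hc t).trans hd

end Pool.Agent.AK
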