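import Pool.Agent.AK.HRd
import Pool.Agent.AK.B3R

set_option autoImplicit false

/-! # AK: constant width, `t = alk k n` digits -/

namespace Pool.Agent.AK

open Pool.Agent.PolyTime

theorem all_B3R : StB3R := thm_B3R all_B3 all_N11

/-- **KR** (constant width `k ≥ 3`): the question `#ψ ≥ 2^(n - alk k n)` for monotone `ψ` of width `≤ k` is many-one hard. -/
theorem all_KR (k : ℕ) (hk : 3 ≤ k) :
    ∃ R : CNF × ℕ → CNF, PolyTime R ∧ ∀ (φ : CNF) (N : ℕ), N ≤ 2 ^ nv φ →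
      Mono (R (φ, N)) ∧ width (R (φ, N)) ≤ k ∧
      (2 ^ (nv (R (φ, N)) - alk k (nv (R (φ, N)))) ≤ count (R (φ, N)) ↔ N ≤ count φ) := by
  obtain ⟨hu, n0, hn⟩ := all_B3R k hk
  exact all_HRd (fun _ => k) (alk k) hu ⟨2, n0, fun n h =>
    ⟨hk, (hn n h).1.trans (Nat.le_self_pow (by decide) _), (hn n h).2⟩⟩

end Pool.Agent.AK
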