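import Pool.Agent.AK.StT

set_option autoImplicit false

/-!
# AK, module Lev3: the search for the list of tables is correct
-/

namespace Pool.Agent.AK

open Pool.Agent.PolyTime

/-- the test of the search at level `j` -/
def Lev3_test (m t j : ℕ) : Prop := m ≤ rc (tabs m j) t

theorem Lev3_stp (m j : ℕ) : stp ((tabs m (j + 1)).headD []) :: tabs m (j + 1) = tabs m (j + 2) := by
  have h : stp (tab m j) = tab m (j + 1) := by
    unfold tab
    rw [Function.iterate_succ_apply']
  change stp (tab m j) :: tabs m (j + 1) = tab m (j + 1) :: tabs m (j + 1)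
  rw [h]

/-- the state after `i` steps -/
theorem Lev3_inv (m t i : ℕ) : ∃ j, (lvs3 m t)^[i] [tab0 m] = tabs m (j + 1) ∧ j ≤ i ∧
    (∀ j', j' < j → ¬ Lev3_test m t (j' + 1)) ∧ (Lev3_test m t (j + 1) ∨ j = i) := by
  induction i with
  | zero => exact ⟨0, rfl, le_rfl, fun j' hj' => absurd hj' (by omega), Or.inr rfl⟩
  | succ i ih =>
    obtain ⟨j, h1, h2, h3, h4⟩ := ih
    rw [Function.iterate_succ_apply', h1]
    by_cases h : Lev3_test m t (j + 1)
    · refine ⟨j, ?_, by omega, h3, Or.inl h⟩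
      unfold lvs3
      unfold Lev3_test at h
      rw [if_pos h]
    · have hj : j = i := h4.resolve_left h
      refine ⟨j + 1, ?_, by omega, ?_, Or.inr (by omega)⟩
      · unfold lvs3
        unfold Lev3_test at h
        rw [if_neg h, Lev3_stp]
      · intro j' hj'
        rcases Nat.lt_succ_iff_lt_or_eq.1 hj' with h5 | h5
        · exact h3 j' h5
        · rw [h5]
          exact h

theorem Lev3_A0 (j : ℕ) : A j 0 = j + 2 := by
  induction j with
  | zero => rfl
  | succ j ih =>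
    change 0 + 1 + A j 0 = j + 1 + 2
    omega

theorem Lev3_Th (h3 : StAck) (j : ℕ) : ∀ y, y ≤ Th j y := by
  induction j with
  | zero => exact fun y => le_rfl
  | succ j ih => exact fun y => (h3.2.2.2.2.2.1 j y).trans (ih _)

theorem thm_Lev3 (h1 : StTab) (h2 : StRc) (h3 : StAck) : StLev3 := by
  intro m t ht
  obtain ⟨J, hJ⟩ : ∃ J, J = Nat.size (Nat.size m) := ⟨_, rfl⟩
  obtain ⟨j, e1, e2, e3, e4⟩ := Lev3_inv m t (J + 1)
  have hmJ : m ≤ 2 ^ 2 ^ J := by
    have a1 : m < 2 ^ Nat.size m := Nat.lt_size_self m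
    have a2 : Nat.size m < 2 ^ J := by
      rw [hJ]
      exact Nat.lt_size_self _
    have a3 : 2 ^ Nat.size m ≤ 2 ^ 2 ^ J := Nat.pow_le_pow_right (by norm_num) a2.le
    omega
  have hit : ∀ i, m ≤ Th i t → Lev3_test m t i := by
    intro i hi
    have b1 := (h2 m i t).2.1
    rw [min_eq_right hi] at b1
    exact b1
  have hT : Lev3_test m t (J + 1 + 1) := by
    apply hit
    have b2 : (A (J + 1))^[1] 0 ≤ (A (J + 1))^[t] 0 := h3.2.2.2.2.1 _ _ _ ht
    have b3 : (A (J + 1))^[1] 0 = J + 3 := by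
      change A (J + 1) 0 = _
      rw [Lev3_A0]
    rw [b3] at b2
    change m ≤ Th J ((A J)^[(A (J + 1))^[t] 0] 0)
    calc m ≤ 2 ^ 2 ^ J := hmJ
      _ ≤ (A J)^[J + 3] 0 := h3.2.2.2.2.2.2 J
      _ ≤ (A J)^[(A (J + 1))^[t] 0] 0 := h3.2.2.2.2.1 _ _ _ b2
      _ ≤ _ := Lev3_Th h3 J _
  have hm : Lev3_test m t (j + 1) := by
    rcases e4 with h | h
    · exact h
    · rw [h]
      exact hT
  refine ⟨j + 1, by omega, by omega, ?_, hm, ?_, ?_⟩
  · unfold lev3
    rw [← hJ]
    exact e1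
  · intro hmt
    by_contra hj
    refine e3 0 (by omega) ?_
    have b1 := (h2 m 1 t).1
    rw [min_eq_right hmt] at b1
    exact b1
  · intro k hk hmk
    by_contra hcon
    obtain ⟨i, hi⟩ : ∃ i, k - 2 = i + 1 := ⟨k - 3, by omega⟩
    rw [hi] at hmk
    exact e3 i (by omega) (hit _ hmk)

end Pool.Agent.AK
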