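import Mathlib
import Pool.Agent.AK.StH

set_option autoImplicit false

/-!
# AK, statements T: nested gadgets, the reach `log2 (B k (t+1))`

Third wave: the threshold formulas are nested through all levels. Final statements `StHT`, `StHTi`: hardness as soon as
`n ≤ (log2 (B k (t+1)))^d`.

Every `def St...` is one module: `theorem thm_X : ... → StX` in `Pool/Agent/AK/X.lean`; `uses` lists the hypotheses, in this order.
-/

namespace Pool.Agent.AK

open Pool.Agent.PolyTime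

/-! ### Final statements -/

/-- **HT**: many-one hardness for all `(k, t)` with `k ≥ 3`, `t ≥ 1`, `n ≤ (log2 (B k (t+1)))^d`, `n ≤ (n - t)^d`.

Proof. As `StHR` (module `HR.lean`): `t' n = min (t n) n` satisfies the same hypotheses for `n ≥ max n0 2` (`t n < n` there, so `t' n = t n`).
`R (φ, N) = fin4 t' d n0' c D (min e (nv D))`, `(D, e)` from `StRed`, `c` from `StBd4`. `uses StRed, StBd4, StFin4, StPtFin4`. -/
def StHT : Prop := ∀ k t : ℕ → ℕ, UPoly t →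
  (∃ d n0 : ℕ, ∀ n, n0 ≤ n → 3 ≤ k n ∧ 1 ≤ t n ∧ n ≤ Nat.log 2 (B (k n) (t n + 1)) ^ d ∧ n ≤ (n - t n) ^ d) →
  ∃ R : CNF × ℕ → CNF, PolyTime R ∧ ∀ (φ : CNF) (N : ℕ), N ≤ 2 ^ nv φ →
    Mono (R (φ, N)) ∧ width (R (φ, N)) ≤ k (nv (R (φ, N))) ∧
    (2 ^ (nv (R (φ, N)) - t (nv (R (φ, N)))) ≤ count (R (φ, N)) ↔ N ≤ count φ)

/-- **HTi**: the equivalence. Proof: `StHT` gives a test (`G ∘ R`), `StRB`; conversely `StRC` (as `thm_H` in `HAll.lean`).
`uses StHT, StRB, StRC`. -/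
def StHTi : Prop := ∀ k t : ℕ → ℕ, UPoly t →
  (∃ d n0 : ℕ, ∀ n, n0 ≤ n → 3 ≤ k n ∧ 1 ≤ t n ∧ n ≤ Nat.log 2 (B (k n) (t n + 1)) ^ d ∧ n ≤ (n - t n) ^ d) →
  ((∃ G : CNF → Bool, PolyTime G ∧ ∀ φ, width φ ≤ k (nv φ) → Mono φ →
    (G φ = true ↔ 2 ^ (nv φ - t (nv φ)) ≤ count φ)) ↔ PolyTime count)

/-! ### The construction -/

/-- Nested one-hot formulas over a list of tables (levels `j-1, ..., 0`): density `≥ 2^(-y)` iff `dens D ≥ 2^(-e)`. -/
def Wn : List Tab → ℕ → CNF → ℕ → CNF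
  | [], y, D, e => cj [D, forced (y - e)]
  | T :: Ts, y, D, e => oh ((ch T y).1 ++ [Wn Ts (ch T y).2 D e])

/-- The last exponent. -/
def rc : List Tab → ℕ → ℕ
  | [], y => y
  | T :: Ts, y => rc Ts (ch T y).2

/-- The tables of levels `j-1, ..., 0`. -/
def tabs (m : ℕ) : ℕ → List Tab
  | 0 => []
  | j + 1 => tab m j :: tabs m j

/-- The nested iterates: `Th (k-2) t = B 3 (B 4 (... (B k t)))`. -/
def Th : ℕ → ℕ → ℕ
  | 0, y => y
  | j + 1, y => Th j ((A j)^[y] 0)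

/-- Correctness of the nested formulas. Proof. Induction on `j` for all `y`. `j = 0`: `rc [] y = y ≥ e`, density of `cj [D, forced (y-e)]` is
`dens D * 2^(-(y-e))` (`StCjDens`, `StSmall`), which is `≥ 2^(-y)` iff `dens D ≥ 2^(-e)`; width `≤ 2`, `Mono`: `StShape`. Step: `T = tab m j` is good
(`StTab`), `y' = (ch T y).2`; the induction hypothesis for `tabs m j`, `y'`: `w = Wn (tabs m j) y' D e` has width `≤ j + 2`, and `dens w ≥ 2^(-y')`
iff `dens D ≥ 2^(-e)`. `StOhDens`, `StChain`: `dens (oh ((ch T y).1 ++ [w])) = (1 + (1 - 2^(-y')) + dens w) / 2^(y+1)`, `≥ 2^(-y)` iff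
`dens w ≥ 2^(-y')`. Width `≤ max 2 (j + 3)` by `StShape` (pieces of width `≤ j + 2`). `uses StTab, StChain, StOhDens, StShape, StCjDens, StSmall`. -/
def StWn : Prop := ∀ (m j y : ℕ) (D : CNF) (e : ℕ), Mono D → width D ≤ 2 → e ≤ rc (tabs m j) y →
  Mono (Wn (tabs m j) y D e) ∧ width (Wn (tabs m j) y D e) ≤ j + 2 ∧
  ((1 / 2 : ℚ) ^ y ≤ dens (Wn (tabs m j) y D e) ↔ (1 / 2 : ℚ) ^ e ≤ dens D)

/-- Reach of the nested formulas. Proof. `Th j` is monotone (induction, `StAck`). (1) Induction on `j`: `(ch (tab m j) y).2 ≥ min y m` (`StChain`), so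
`rc (tabs m (j+1)) y ≥ min (min y m) m`. (2) Step: `y' = (ch (tab m j) y).2 ≥ min ((A j)^[y] 0) m`. If `y' ≥ m` then `rc (tabs m j) y' ≥ min y' m = m` by
(1). Otherwise `y' ≥ (A j)^[y] 0` and `rc (tabs m j) y' ≥ min (Th j y') m ≥ min (Th j ((A j)^[y] 0)) m`. (3) `(ch (tab m j) y).2 ≤ (j + 2)(2m + 2)`.
`uses StTab, StChain, StAck`. -/
def StRc : Prop := ∀ (m j y : ℕ), min y m ≤ rc (tabs m j) y ∧ min (Th j y) m ≤ rc (tabs m j) y ∧
  rc (tabs m j) y ≤ max y ((j + 2) * (2 * m + 2))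

/-- Growth: `log2 (B k (t+1)) ≤ Th (k-2) t + 1`. Proof. Claim by induction on `j`, for `y ≥ 1` and `w = Th j y`: `2 * A j y + y (y+1) ≤ 2 * 2^(w+1) +
2 w + w (w+1)`. `j = 0`: equality (`A 0 y = y + 2^(y+1)`). Step: `A (j+1) y = y + 1 + (A j)^[y+1] 0 = y + 1 + A j y'`, `y' = (A j)^[y] 0`,
`Th (j+1) y = Th j y'`, and `2 (y+1) + y (y+1) = (y+1)(y+2) ≤ y' (y'+1)` because `y' ≥ y + 1` (`2x + 2 ≤ A j x`, `y ≥ 1`; `StAck`). Now
`B k (t+1) = A (k-3) (B k t)` and `Th (k-2) t = Th (k-3) (B k t) = w`, `B k t ≥ t ≥ 1`; `2 w + w (w+1) < 2 * 2^(w+1)`; so `B k (t+1) < 2^(w+2)`.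
`uses StAck`. -/
def StThB : Prop := ∀ k t : ℕ, 3 ≤ k → 1 ≤ t → Nat.log 2 (B k (t + 1)) ≤ Th (k - 2) t + 1

/-- One step of the search. -/
def lvs3 (m t : ℕ) (Ts : List Tab) : List Tab := if m ≤ rc Ts t then Ts else stp (Ts.headD []) :: Ts

/-- The first list of tables which reaches `m`. -/
def lev3 (m t : ℕ) : List Tab := (lvs3 m t)^[Nat.size (Nat.size m) + 1] [tab0 m]

/-- The search is correct. Proof. `stp ((tabs m (j+1)).headD []) = stp (tab m j) = tab m (j+1)`, so from `tabs m (j+1)` the step leads to `tabs m (j+2)`;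
`[tab0 m] = tabs m 1`. Invariant after `i` steps: the list is `tabs m j` with `1 ≤ j ≤ i + 1`, the test fails for all `1 ≤ j' < j`, and it holds
for `j` or `j = i + 1`. With `J = Nat.size (Nat.size m)` the test holds for `j = J + 2`: by `StRc` `rc (tabs m (J+2)) t ≥ min (Th (J+2) t) m`,
`Th (J+2) t = Th (J+1) ((A (J+1))^[t] 0) ≥ Th (J+1) (J+3) = Th J ((A J)^[J+3] 0) ≥ (A J)^[J+3] 0 ≥ 2^2^J > m` (`(A (J+1))^[t] 0 ≥ A (J+1) 0 ≥ J + 3` for
`t ≥ 1`, because `A 0 0 = 2` and `A (j+1) 0 = 1 + A j 0`; `Th j y ≥ y`; `Nat.lt_size_self` twice; `StAck`). If `m ≤ t` the test holds for `j = 1`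
(`StRc`). If `m ≤ Th (k-2) t` it holds for `j = k - 2` (`StRc`), so the first one is `≤ k - 2` (if `k - 2 > J + 2` nothing to prove).
`uses StTab, StRc, StAck`. -/
def StLev3 : Prop := ∀ m t, 1 ≤ t → ∃ j, 1 ≤ j ∧ j ≤ Nat.size (Nat.size m) + 2 ∧ lev3 m t = tabs m j ∧
  m ≤ rc (tabs m j) t ∧ (m ≤ t → j = 1) ∧ ∀ k, 3 ≤ k → m ≤ Th (k - 2) t → j + 2 ≤ k

/-- The threshold formula with `t + 1` pieces. -/
def Wf (m t : ℕ) (D : CNF) (e : ℕ) : CNF := Wn (lev3 m t) t D e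

/-- Correctness. Proof. `j` from `StLev3`; `Wf m t D e = Wn (tabs m j) t D e`, `j = j' + 1`, is `oh ((ch (tab m j') t).1 ++ [..])`, a list of `t + 1`
pieces (`StChain`, `StTab`). `StWn` (`e ≤ m ≤ rc (tabs m j) t`): width `≤ j + 2 ≤ k` (if `m ≤ t` then `j = 1`). `uses StTab, StChain, StWn, StLev3`. -/
def StWf : Prop := ∀ (m t k : ℕ) (D : CNF) (e : ℕ), 1 ≤ t → e ≤ m → 3 ≤ k → (m ≤ t ∨ m ≤ Th (k - 2) t) →
  Mono D → width D ≤ 2 →
  (∃ L : List CNF, Wf m t D e = oh L ∧ L.length = t + 1) ∧ Mono (Wf m t D e) ∧ width (Wf m t D e) ≤ k ∧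
  ((1 / 2 : ℚ) ^ t ≤ dens (Wf m t D e) ↔ (1 / 2 : ℚ) ^ e ≤ dens D)

/-! ### Sizes and polynomial time -/

/-- Number of literals. -/
def lts (φ : CNF) : ℕ := (φ.map List.length).sum

/-- Maximal length of a name. -/
def mxn (φ : CNF) : ℕ := (φ.flatten.map fun l => l.1.length).foldr max 0

/-- Measures of a one-hot formula whose last piece is `w` and whose other pieces are small. Proof. `n = L.length + 1 ≤ X + 1` pieces. `ohp n`: at most
`n * n` clauses of 2 literals, names of length `≤ n`. Pieces of `L`: at most `X * X` clauses and `X * X` literals in all, every clause gets one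
more literal; the names become longer by `i + 2 ≤ X + 1`. Piece `w`: `φ.length` clauses, one more literal each, names longer by `X + 2`. (`length`,
`lts`, `mxn` of a formula are at most its `size`.) Last part: `wt φ = ∑_C (1 + ∑_l (1 + length)) ≤ φ.length + lts φ * (1 + mxn φ)`, `StWt`.
`uses StWt`. -/
def StMsr : Prop := (∀ (L : List CNF) (w : CNF) (X : ℕ), L.length ≤ X → (∀ ψ ∈ L, size ψ ≤ X) →
    (oh (L ++ [w])).length ≤ 8 * (X + 2) ^ 2 + w.length ∧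
    lts (oh (L ++ [w])) ≤ 8 * (X + 2) ^ 2 + lts w + w.length ∧
    mxn (oh (L ++ [w])) ≤ 8 * (X + 2) ^ 2 + mxn w) ∧
  ∀ φ : CNF, φ.length ≤ size φ ∧ lts φ ≤ size φ ∧ mxn φ ≤ size φ ∧ size φ ≤ 24 * (φ.length + lts φ * (1 + mxn φ))

/-- The nested formulas have polynomial size. Proof. Let `U` bound `size (tab m i)` for all `i < j`, all `(j+2)(2m+2) ≤ U`, `y ≤ U`; then the lists
`(ch (tab m i) y').1` with `y' ≤ U` have length `≤ U` and their elements are entries of `tab m i` or `[[]]`, of size `≤ U + 1`; with `X = U + 1`,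
`P = 8 (X+2)^2` and `StMsr` (1): after `i` levels `length ≤ s0 + i P`, `lts ≤ s0 + i P + i (s0 + i P)`, `mxn ≤ s0 + i P` where `s0 = size (cj [D, forced
(y_0 - e)])` is the size of the innermost formula; then `StMsr` (2). (Bound of the statement: crude.) The exponent `y_0 ≤ max y ((j+2)(2m+2)) ≤ U` by
`StRc`, so `s0` is at most the maximum of `size (cj [D, forced i])`, `i ≤ U`. `uses StMsr, StRc, StTab, StChain`. -/
def StWnSz : Prop := ∀ (m j y U s0 : ℕ) (D : CNF) (e : ℕ), (∀ i < j, size (tab m i) ≤ U) → (j + 2) * (2 * m + 2) ≤ U → y ≤ U →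
  (∀ i ≤ U, size (cj [D, forced i]) ≤ s0) →
  size (Wn (tabs m j) y D e) ≤ 24 * (s0 + j * (8 * (U + 3) ^ 2) + 1) ^ 2 * (j + 2) ^ 2 * 4

/-- `lev3` and `Wf` in polynomial time. Proof. Compare the module `PtPP.lean`. Let `J = Nat.size (Nat.size m)`, `m = p.1.length`, `t = min .. m`, `U = (m + 4) (2 m + 2)`
a unary bound for all exponents (`StRc`, `StTab`, `StChain`: at most `J + 2 ≤ m + 2` levels, exponents `≤ (J + 4)(2m+2)`, and `t ≤ m`).
(1) `rc Ts y = Ts.foldl (fun y T => (ch T y).2) y`: `PolyTime.foldl`; the number `y` in unary: `replicate (min y U) ()`; the values are 0, `t` or numbers of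
the tables. (2) `lev3`: `PolyTime.iterate`; after `i ≤ J + 1` steps the state is `tabs m j`, `j ≤ i + 1 ≤ J + 2`; sizes: `size (tab m i) ≤ (m+2)^c` for `i ≤ J`
(`StSz`) and `tab m (J+1) = stp (tab m J)`, where `stp` is in polynomial time (`StPtT`, `PolyTime.pbd`). (3) `Wn Ts y D e`: first the fold
`(y, acc) ↦ ((ch T y).2, (ch T y).1 :: acc)` over `Ts` (start `(y, [])`), result `(y_0, acc)`, then `acc.foldl (fun w L => oh (L ++ [w])) (cj [D, forced
(y_0 - e)])`; equality with `Wn` by induction on `Ts` (generalise `acc`). The partial results are `Wn (tabs m i) y_i D e`, of polynomial size by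
`StWnSz`. `e` is `min e m`. `uses StPtC, StPtT, StSz, StTab, StChain, StRc, StLev3, StWnSz`. -/
def StPtWf : Prop :=
  PolyTime (fun p : List Unit × List Unit × CNF × ℕ => Wf p.1.length (min p.2.1.length p.1.length) p.2.2.1 (min p.2.2.2 p.1.length))

/-! ### Reduction -/

/-- As `StBd3` (module `Bd3.lean`). `uses StPtWf`. -/
def StBd4 : Prop := ∃ c : ℕ, ∀ (t : ℕ) (D : CNF) (e : ℕ), t ≤ e + 1 → nv (Wf (e + 1) t D e) ≤ (sz3 D e + 2) ^ c

/-- The final instance: `n = X^(d+1)` variables with `X = (sz3 D e + 2)^c + n0 + e + 3`. -/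
def fin4 (t : ℕ → ℕ) (d n0 c : ℕ) (D : CNF) (e : ℕ) : CNF :=
  let n := ((sz3 D e + 2) ^ c + n0 + e + 3) ^ (d + 1)
  let th := min (t n) (e + 1)
  let P := Wf (e + 1) th D e
  fpad (th + 1) P (n - nv P - (t n - th)) (t n - th)

/-- The final instance is correct. Proof. As `StFin3` (module `Fin3.lean`), with `StWf` instead of `StPP`: `m = e + 1`, `X`, `n = X^(d+1)` as in `fin4`. Let
`w = Th (k n - 2) (t n)`: `n ≤ (log2 (B (k n) (t n + 1)))^d ≤ (w + 1)^d` (`StThB`), so `X ≤ w` (otherwise `X^(d+1) ≥ (w+1)^(d+1) > (w+1)^d`, as `w + 1 ≥ 2`: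
`w ≥ t n ≥ 1`; or simply `X ≥ w + 1 ≥ 1`, `X ≥ 3` and `X^(d+1) ≥ 3 (w+1)^d`), hence `m ≤ w`. `StWf` with `t := th = min (t n) m`, `k := k n`: if `t n ≥ m` then
`m ≤ th`, otherwise `th = t n` and `m ≤ Th (k n - 2) th`. The rest is the same. `uses StWf, StThB, StFpad, StDensB`. -/
def StFin4 : Prop := ∀ c : ℕ, (∀ (t : ℕ) (D : CNF) (e : ℕ), t ≤ e + 1 → nv (Wf (e + 1) t D e) ≤ (sz3 D e + 2) ^ c) →
  ∀ (k t : ℕ → ℕ) (d n0 : ℕ), (∀ n, n0 ≤ n → 3 ≤ k n ∧ 1 ≤ t n ∧ n ≤ Nat.log 2 (B (k n) (t n + 1)) ^ d ∧ n ≤ (n - t n) ^ d) →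
  ∀ (D : CNF) (e : ℕ), Mono D → width D ≤ 2 → e ≤ nv D →
  Mono (fin4 t d n0 c D e) ∧ width (fin4 t d n0 c D e) ≤ k (nv (fin4 t d n0 c D e)) ∧
  (2 ^ (nv (fin4 t d n0 c D e) - t (nv (fin4 t d n0 c D e))) ≤ count (fin4 t d n0 c D e) ↔ (1 / 2 : ℚ) ^ e ≤ dens D)

/-- As `StPtFin3` (module `PtFin3.lean`). `uses StPtC, StPtWf, StRN`. -/
def StPtFin4 : Prop := ∀ (t : ℕ → ℕ) (d n0 c : ℕ), UPoly t →
  PolyTime (fun p : CNF × ℕ => fin4 (fun n => min (t n) n) d n0 c p.1 (min p.2 (nv p.1)))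

end Pool.Agent.AK
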