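import Mathlib
import Pool.Agent.AK.StT

set_option autoImplicit false

/-!
# AK, module Msr: measures of a one-hot formula
-/

namespace Pool.Agent.AK

open Pool.Agent.PolyTime

private lemma Msr_foldr (K : ℕ) : ∀ l : List ℕ, l.foldr max 0 ≤ K ↔ ∀ x ∈ l, x ≤ K := by
  intro l
  induction l with
  | nil => simp
  | cons a l ih =>
    rw [List.foldr_cons, max_le_iff, ih]
    simp

private lemma Msr_mxn (φ : CNF) (K : ℕ) :
    mxn φ ≤ K ↔ ∀ C ∈ φ, ∀ l ∈ C, l.1.length ≤ K := by
  unfold mxn
  rw [Msr_foldr]
  constructor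
  · intro h C hC l hl
    exact h _ (List.mem_map.2 ⟨l, List.mem_flatten.2 ⟨C, hC, hl⟩, rfl⟩)
  · intro h x hx
    obtain ⟨l, hl, rfl⟩ := List.mem_map.1 hx
    obtain ⟨C, hC, hl⟩ := List.mem_flatten.1 hl
    exact h C hC l hl

private lemma Msr_lts_app (φ ψ : CNF) : lts (φ ++ ψ) = lts φ + lts ψ := by
  unfold lts
  rw [List.map_append, List.sum_append]

private lemma Msr_una (n : ℕ) (a : Name) (ha : a ∈ una n) : a.length < n := by
  unfold una at ha
  obtain ⟨i, hi, rfl⟩ := List.mem_map.1 ha
  rw [List.length_replicate]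
  exact List.mem_range.1 hi

private lemma Msr_ulen (n : ℕ) : (una n).length = n := by
  unfold una
  rw [List.length_map, List.length_range]

private lemma Msr_usucc (n : ℕ) : una (n + 1) = una n ++ [List.replicate n true] := by
  unfold una
  rw [List.range_succ, List.map_append]
  rfl

private lemma Msr_len {α β : Type} (K : ℕ) (g : α → List β) : ∀ l : List α,
    (∀ a ∈ l, (g a).length ≤ K) → (l.flatMap g).length ≤ l.length * K := by
  intro l
  induction l with
  | nil => intro _; simp
  | cons a l ih =>
    intro hg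
    rw [List.flatMap_cons, List.length_append, List.length_cons, Nat.succ_mul]
    have h1 := hg a List.mem_cons_self
    have h2 := ih fun b hb => hg b (List.mem_cons_of_mem _ hb)
    omega

private lemma Msr_lts_flat {α : Type} (K : ℕ) (g : α → CNF) : ∀ l : List α,
    (∀ a ∈ l, lts (g a) ≤ K) → lts (l.flatMap g) ≤ l.length * K := by
  intro l
  induction l with
  | nil => intro _; simp [lts]
  | cons a l ih =>
    intro hg
    rw [List.flatMap_cons, Msr_lts_app, List.length_cons, Nat.succ_mul]
    have h1 := hg a List.mem_cons_self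
    have h2 := ih fun b hb => hg b (List.mem_cons_of_mem _ hb)
    omega

private lemma Msr_lts_two : ∀ φ : CNF, (∀ C ∈ φ, C.length ≤ 2) → lts φ ≤ φ.length * 2 := by
  intro φ
  induction φ with
  | nil => intro _; simp [lts]
  | cons C φ ih =>
    intro h
    have h1 := h C List.mem_cons_self
    have h2 := ih fun b hb => h b (List.mem_cons_of_mem _ hb)
    unfold lts at h2 ⊢
    rw [List.map_cons, List.sum_cons, List.length_cons]
    omega

private lemma Msr_ohp_len (n : ℕ) : (ohp n).length ≤ n * n := by
  have h := Msr_len n (fun a : Name =>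
    ((una n).filter fun b => decide (b.length < a.length)).map
      fun b => ([(true :: b, true), (true :: a, true)] : Clause)) (una n) (fun a _ => by
        rw [List.length_map]
        exact (List.length_filter_le _ _).trans (Msr_ulen n).le)
  rwa [Msr_ulen] at h

private lemma Msr_ohp_cl (n : ℕ) : ∀ C ∈ ohp n, C.length ≤ 2 ∧ ∀ l ∈ C, l.1.length ≤ n := by
  intro C hC
  unfold ohp at hC
  obtain ⟨a, ha, hC⟩ := List.mem_flatMap.1 hC
  obtain ⟨b, hb, rfl⟩ := List.mem_map.1 hC
  have h2 := Msr_una n a ha
  have h3 := Msr_una n b (List.mem_filter.1 hb).1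
  refine ⟨le_rfl, ?_⟩
  intro l hl
  simp only [List.mem_cons, List.not_mem_nil, or_false] at hl
  rcases hl with rfl | rfl
  · simpa using h3
  · simpa using h2

/-- One piece of the one-hot formula. -/
private def Msr_pc (p : Name × CNF) : CNF :=
  (ren (tag p.1) p.2).map fun C => (true :: p.1, true) :: C

private lemma Msr_oh (L : List CNF) (w : CNF) : oh (L ++ [w]) = ohp (L.length + 1) ++
    (((una L.length).zip L).flatMap Msr_pc ++ Msr_pc (List.replicate L.length true, w)) := by
  have h : oh (L ++ [w]) = ohp (L ++ [w]).length ++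
    ((una (L ++ [w]).length).zip (L ++ [w])).flatMap Msr_pc := rfl
  rw [h, List.length_append, List.length_singleton, Msr_usucc,
    List.zip_append (Msr_ulen L.length), List.flatMap_append]
  simp

private lemma Msr_pc_len (p : Name × CNF) : (Msr_pc p).length = p.2.length := by
  unfold Msr_pc ren
  rw [List.length_map, List.length_map]

private lemma Msr_pc_lts (p : Name × CNF) : lts (Msr_pc p) = lts p.2 + p.2.length := by
  obtain ⟨a, φ⟩ := p
  unfold Msr_pc ren lts
  induction φ with
  | nil => simp
  | cons C φ ih =>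
    simp only [List.map_cons, List.sum_cons, List.length_cons, List.length_map] at ih ⊢
    omega

private lemma Msr_pc_mxn (p : Name × CNF) : ∀ C ∈ Msr_pc p, ∀ l ∈ C,
    l.1.length ≤ p.1.length + 2 + mxn p.2 := by
  intro C hC l hl
  unfold Msr_pc at hC
  obtain ⟨C1, hC1, rfl⟩ := List.mem_map.1 hC
  unfold ren at hC1
  obtain ⟨C2, hC2, rfl⟩ := List.mem_map.1 hC1
  rcases List.mem_cons.1 hl with rfl | hl
  · simp only [List.length_cons]
    omega
  · obtain ⟨l1, hl1, rfl⟩ := List.mem_map.1 hl
    have h := (Msr_mxn p.2 (mxn p.2)).1 le_rfl C2 hC2 l1 hl1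
    simp only [tag, List.length_cons, List.length_append]
    omega

private lemma Msr_cl (C : Clause) : C.length ≤ size C ∧ ∀ l ∈ C, l.1.length ≤ size C := by
  induction C with
  | nil => simp
  | cons l C ih =>
    obtain ⟨n, b⟩ := l
    obtain ⟨h1, h2⟩ := ih
    refine ⟨?_, ?_⟩
    · simp only [List.length_cons, size_cons, size_pair, size_bool, size_list_bool]
      omega
    · intro l hl
      rcases List.mem_cons.1 hl with rfl | hl
      · simp only [size_cons, size_pair, size_bool, size_list_bool]
        omega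
      · have := h2 l hl
        simp only [size_cons, size_pair, size_bool, size_list_bool]
        omega

private lemma Msr_cnf (φ : CNF) : φ.length ≤ size φ ∧ lts φ ≤ size φ ∧
    ∀ C ∈ φ, ∀ l ∈ C, l.1.length ≤ size φ := by
  induction φ with
  | nil => simp [lts]
  | cons C φ ih =>
    obtain ⟨h1, h2, h3⟩ := ih
    obtain ⟨h4, h5⟩ := Msr_cl C
    refine ⟨?_, ?_, ?_⟩
    · simp only [List.length_cons, size_cons]
      omega
    · unfold lts at h2 ⊢
      simp only [List.map_cons, List.sum_cons, size_cons]
      omega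
    · intro D hD l hl
      rcases List.mem_cons.1 hD with rfl | hD
      · have := h5 l hl
        simp only [size_cons]
        omega
      · have := h3 D hD l hl
        simp only [size_cons]
        omega

private lemma Msr_wtc (K : ℕ) (C : Clause) (h : ∀ l ∈ C, l.1.length ≤ K) :
    (C.map fun l => 1 + l.1.length).sum ≤ C.length * (1 + K) := by
  induction C with
  | nil => simp
  | cons l C ih =>
    have h1 := h l List.mem_cons_self
    have h2 := ih fun b hb => h b (List.mem_cons_of_mem _ hb)
    rw [List.map_cons, List.sum_cons, List.length_cons, Nat.succ_mul]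
    omega

private lemma Msr_wt (K : ℕ) (φ : CNF) (h : ∀ C ∈ φ, ∀ l ∈ C, l.1.length ≤ K) :
    wt φ ≤ φ.length + lts φ * (1 + K) := by
  induction φ with
  | nil => simp [wt]
  | cons C φ ih =>
    have h1 := Msr_wtc K C (h C List.mem_cons_self)
    have h2 := ih fun b hb => h b (List.mem_cons_of_mem _ hb)
    unfold wt lts at h2 ⊢
    simp only [List.map_cons, List.sum_cons, List.length_cons, Nat.add_mul] at h2 ⊢
    omega

theorem thm_Msr (h1 : StWt) : StMsr := by
  refine ⟨?_, ?_⟩
  · intro L w X hL hX
    rw [Msr_oh]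
    have hz : ∀ p ∈ (una L.length).zip L, p.1.length < L.length ∧ size p.2 ≤ X := by
      rintro ⟨a, ψ⟩ hp
      obtain ⟨ha, hψ⟩ := List.of_mem_zip hp
      exact ⟨Msr_una _ _ ha, hX _ hψ⟩
    have hzl : ((una L.length).zip L).length = L.length := by
      rw [List.length_zip, Msr_ulen, min_self]
    have e1 := Msr_ohp_len (L.length + 1)
    have e2 := Msr_lts_two (ohp (L.length + 1)) fun C hC => (Msr_ohp_cl _ C hC).1
    have e3 := Msr_len X Msr_pc ((una L.length).zip L) fun p hp => by
      rw [Msr_pc_len]
      exact (Msr_cnf p.2).1.trans (hz p hp).2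
    have e4 := Msr_lts_flat (2 * X) Msr_pc ((una L.length).zip L) fun p hp => by
      rw [Msr_pc_lts]
      have a1 := (Msr_cnf p.2).1
      have a2 := (Msr_cnf p.2).2.1
      have a3 := (hz p hp).2
      omega
    rw [hzl] at e3 e4
    have f1 : (L.length + 1) * (L.length + 1) ≤ (X + 1) * (X + 1) :=
      Nat.mul_le_mul (by omega) (by omega)
    have f2 : L.length * X ≤ X * X := Nat.mul_le_mul_right _ hL
    have f3 : L.length * (2 * X) ≤ X * (2 * X) := Nat.mul_le_mul_right _ hL
    refine ⟨?_, ?_, ?_⟩
    · rw [List.length_append, List.length_append, Msr_pc_len]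
      nlinarith
    · rw [Msr_lts_app, Msr_lts_app, Msr_pc_lts]
      simp only
      nlinarith
    · have hb : X + 2 ≤ 8 * (X + 2) ^ 2 := by nlinarith
      have hb2 : 2 * X + 2 ≤ 8 * (X + 2) ^ 2 := by nlinarith
      rw [Msr_mxn]
      intro C hC l hl
      rcases List.mem_append.1 hC with hC | hC
      · have := (Msr_ohp_cl _ C hC).2 l hl
        omega
      rcases List.mem_append.1 hC with hC | hC
      · obtain ⟨p, hp, hC⟩ := List.mem_flatMap.1 hC
        have a1 := Msr_pc_mxn p C hC l hl
        have a2 := hz p hp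
        have a3 : mxn p.2 ≤ size p.2 := (Msr_mxn _ _).2 (Msr_cnf p.2).2.2
        omega
      · have a1 := Msr_pc_mxn _ C hC l hl
        simp only [List.length_replicate] at a1
        omega
  · intro φ
    refine ⟨(Msr_cnf φ).1, (Msr_cnf φ).2.1, (Msr_mxn _ _).2 (Msr_cnf φ).2.2, ?_⟩
    refine (h1.1 φ).1.trans ?_
    exact Nat.mul_le_mul_left _ (Msr_wt _ φ ((Msr_mxn _ _).1 le_rfl))

end Pool.Agent.AK
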