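import Pool.Agent.AK.StN

set_option autoImplicit false

/-!
# AK, module Rl: restriction of a literal
-/

namespace Pool.Agent.AK

private lemma Rl_csat (c : Finset Lit) (U S : Finset Name) (h : cv c ⊆ U) :
    CSat S c ↔ CSat (S ∩ U) c := by
  unfold CSat
  constructor
  · rintro ⟨l, hl, hS⟩
    refine ⟨l, hl, ?_⟩
    have : l.1 ∈ U := h (Finset.mem_image.2 ⟨l, hl, rfl⟩)
    rw [Finset.mem_inter]
    simpa [this] using hS
  · rintro ⟨l, hl, hS⟩
    refine ⟨l, hl, ?_⟩
    have : l.1 ∈ U := h (Finset.mem_image.2 ⟨l, hl, rfl⟩)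
    rw [Finset.mem_inter] at hS
    simpa [this] using hS

theorem thm_Rl (h2 : StG02) (h4 : StG04) : StRl := by
  intro W f l hf hl
  have hmem : ∀ c' : Finset Lit, c' ∈ rl l f → ∃ c ∈ f, l ∉ c ∧ (c.filter fun l' => l'.1 ≠ l.1) = c' := by
    intro c' hc'
    rw [rl, Finset.mem_image] at hc'
    obtain ⟨c, hc, e⟩ := hc'
    rw [Finset.mem_filter] at hc
    exact ⟨c, hc.1, hc.2, e⟩
  refine ⟨?_, ?_, ?_⟩
  · intro c' hc'
    obtain ⟨c, hc, h, rfl⟩ := hmem c' hc'
    refine ⟨?_, ?_⟩
    · intro x hx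
      exact (hf c hc).1 x ⟨(Finset.mem_filter.1 hx.1).1, (Finset.mem_filter.1 hx.2).1⟩
    · exact (Finset.image_subset_image (Finset.filter_subset _ _)).trans (hf c hc).2
  · intro k hk c' hc'
    obtain ⟨c, hc, h, rfl⟩ := hmem c' hc'
    exact (Finset.card_filter_le _ _).trans (hk c hc)
  · have key : ∀ S, CSat S {l} → (FSat S f ↔ FSat S (rl l f)) := by
      intro S hS
      have hS' : l.1 ∈ S ↔ l.2 = true := by
        obtain ⟨l', hl', h⟩ := hS
        rw [Finset.mem_singleton] at hl'
        rwa [hl'] at h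
      constructor
      · intro h c' hc'
        obtain ⟨c, hc, hlc, rfl⟩ := hmem c' hc'
        obtain ⟨l', hl', h'⟩ := h c hc
        refine ⟨l', Finset.mem_filter.2 ⟨hl', ?_⟩, h'⟩
        intro e
        apply hlc
        have e2 : l'.2 = l.2 := by
          rw [e] at h'
          have h5 : l'.2 = true ↔ l.2 = true := h'.symm.trans hS'
          exact Bool.eq_iff_iff.2 h5
        have e3 : l' = l := Prod.ext e e2
        rwa [← e3]
      · intro h c hc
        by_cases hlc : l ∈ c
        · exact ⟨l, hlc, hS'⟩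
        · have h6 : (c.filter fun l' => l'.1 ≠ l.1) ∈ rl l f :=
            Finset.mem_image.2 ⟨c, Finset.mem_filter.2 ⟨hc, hlc⟩, rfl⟩
          obtain ⟨l', hl', h'⟩ := h _ h6
          exact ⟨l', (Finset.mem_filter.1 hl').1, h'⟩
    have e1 : (fun S => FSat S f ∧ CSat S {l}) = fun S => FSat S (rl l f) ∧ CSat S {l} := by
      funext S
      exact propext (and_congr_left (key S))
    have hcvl : cv ({l} : Finset Lit) = {l.1} := by
      rw [cv, Finset.image_singleton]
    have hsub : ∀ c' ∈ rl l f, cv c' ⊆ W.erase l.1 := by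
      intro c' hc' x hx
      obtain ⟨c, hc, hlc, rfl⟩ := hmem c' hc'
      rw [cv, Finset.mem_image] at hx
      obtain ⟨l', hl', rfl⟩ := hx
      rw [Finset.mem_filter] at hl'
      exact Finset.mem_erase.2 ⟨hl'.2, (hf c hc).2 (Finset.mem_image.2 ⟨l', hl'.1, rfl⟩)⟩
    have d1 : DepOn (fun S => FSat S (rl l f)) (W.erase l.1) := by
      intro S
      constructor
      · intro h c' hc'
        exact (Rl_csat _ _ _ (hsub c' hc')).1 (h c' hc')
      · intro h c' hc'
        exact (Rl_csat _ _ _ (hsub c' hc')).2 (h c' hc')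
    have d2 : DepOn (fun S => CSat S {l}) {l.1} := by
      intro S
      exact Rl_csat _ _ _ (by rw [hcvl])
    have d3 : Disjoint (W.erase l.1) {l.1} := by
      rw [Finset.disjoint_singleton_right]
      exact Finset.notMem_erase _ _
    have hnt : NtC ({l} : Finset Lit) := by
      rintro x ⟨h5, h6⟩
      rw [Finset.mem_singleton] at h5 h6
      rw [← h6] at h5
      simp at h5
    have hp : pr W (fun S => CSat S {l}) = 1 / 2 := by
      rw [h4 W {l} hnt (by rw [hcvl, Finset.singleton_subset_iff]; exact hl), Finset.card_singleton]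
      norm_num
    rw [e1, h2 W (W.erase l.1) {l.1} _ _ d1 d2 d3, hp]
    ring

end Pool.Agent.AK
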