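import Pool.Agent.AK.StN

set_option autoImplicit false

/-!
# AK, module SN: gaps of the spectrum of densities, fourth wave (helper32, after the module S of helper69)
-/

namespace Pool.Agent.AK

private theorem SN_anti (a b : ℕ) (h : a ≤ b) : (1 / 2 : ℚ) ^ b ≤ (1 / 2 : ℚ) ^ a :=
  pow_le_pow_of_le_one (by norm_num) (by norm_num) h

theorem thm_SN (h1 : StGapN) (h2 : StHnB) (h3 : StNrm) (h4 : StTab) : StSN := by
  refine ⟨?_, ?_⟩
  · intro k t m φ hk hw hd
    obtain ⟨-, e2, e3, e4, -⟩ := h3 φ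
    have h5 := h1 k t m (nrm φ) (by omega) e4 (e3.trans hw) (by rw [e2]; exact hd)
    rw [e2] at h5
    have h6 := SN_anti _ _ (h2 k t hk)
    rw [one_div_pow (2 : ℚ) (Hn k t)] at h6
    linarith
  · intro k t hk
    obtain ⟨hl, hT⟩ := h4.2 (A (k - 2) t + t + 1) (k - 2)
    set T := tab (A (k - 2) t + t + 1) (k - 2) with hTd
    have ht : t < T.length := by
      rw [hl]
      omega
    obtain ⟨g1, g2, -, -, g5, g6⟩ := hT t ht
    have g3 : A (k - 2) t ≤ T[t].1 := by
      rwa [min_eq_left (by omega)] at g2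
    have g4 : B k (t + 1) ≤ A (k - 2) t := by
      obtain ⟨j, rfl⟩ : ∃ j, k = j + 3 := ⟨k - 3, by omega⟩
      have e1 : j + 3 - 2 = j + 1 := by omega
      have e2 : j + 3 - 3 = j := by omega
      rw [e1]
      unfold B
      rw [e2]
      show (A j)^[t + 1] 0 ≤ t + 1 + (A j)^[t + 1] 0
      omega
    refine ⟨T[t].2, g5, by omega, ?_, ?_⟩
    · rw [g1]
      have : (0 : ℚ) < (1 / 2 : ℚ) ^ T[t].1 := by positivity
      linarith
    · rw [g1]
      have := SN_anti _ _ (g4.trans g3)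
      linarith

end Pool.Agent.AK
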