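import Pool.Agent.AK.StN

set_option autoImplicit false

/-!
# AK, Vg: all traces light
-/

namespace Pool.Agent.AK

lemma Vg_cls {V : Finset Name} {j : ℕ} {f : Finset (Finset Lit)} {p c : Finset Lit} :
    c ∈ Cls V j f p ↔ c ∈ f ∧ tc V c = p ∧ (rs V c).card = j + 1 := by
  rw [Cls, Finset.mem_filter]

lemma Vg_trs {V : Finset Name} {j : ℕ} {f : Finset (Finset Lit)} {p : Finset Lit} :
    p ∈ Trs V j f ↔ ∃ c ∈ f, (rs V c).card = j + 1 ∧ tc V c = p := by
  rw [Trs, Finset.mem_image]
  constructor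
  · rintro ⟨c, hc, h⟩
    rw [Finset.mem_filter] at hc
    exact ⟨c, hc.1, hc.2, h⟩
  · rintro ⟨c, h1, h2, h3⟩
    exact ⟨c, Finset.mem_filter.2 ⟨h1, h2⟩, h3⟩

/-- **Vg** all traces light. -/
theorem thm_Vg (h9 : StG09) : StVg := by
  intro W V j N f M hOk hVW hk hres hM hN
  obtain ⟨V', hV'⟩ : ∃ V' : Finset Name, V' = V ∪ (Trs V j f).biUnion fun p =>
    (M p).biUnion fun c => cv (rs V c) := ⟨_, rfl⟩
  have hM1 : ∀ p c, c ∈ M p → c ∈ f ∧ tc V c = p ∧ (rs V c).card = j + 1 := fun p c hc =>
    Vg_cls.1 ((hM p).1 hc)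
  have hVV' : V ⊆ V' := by
    rw [hV']
    exact Finset.subset_union_left
  have hrs : ∀ c : Finset Lit, cv (rs V c) ⊆ cv c := fun c =>
    Finset.image_subset_image (Finset.filter_subset _ _)
  refine ⟨V', ?_, ?_, ?_⟩
  · rw [hV']
    refine Finset.union_subset hVW ?_
    intro x hx
    rw [Finset.mem_biUnion] at hx
    obtain ⟨p, _, hx⟩ := hx
    rw [Finset.mem_biUnion] at hx
    obtain ⟨c, hc, hx⟩ := hx
    exact (hOk c (hM1 p c hc).1).2 (hrs c hx)
  · have e0 : (Trs V j f).card ≤ 2 * V.card + 1 := by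
      have h := h9 V 1 (Trs V j f) ?_
      · rwa [pow_one] at h
      · intro p hp
        obtain ⟨c, hc, h1, rfl⟩ := Vg_trs.1 hp
        refine ⟨?_, ?_⟩
        · intro x hx
          rw [cv, Finset.mem_image] at hx
          obtain ⟨l, hl, rfl⟩ := hx
          rw [tc, Finset.mem_filter] at hl
          exact hl.2
        · have h2 : (tc V c).card + (rs V c).card = c.card := by
            rw [tc, rs]
            exact Finset.card_filter_add_card_filter_not (s := c) (fun l => l.1 ∈ V)
          have h3 := hk c hc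
          omega
    have e1 : ((Trs V j f).biUnion fun p => (M p).biUnion fun c => cv (rs V c)).card ≤
        (Trs V j f).card * ((j + 1) * N) := by
      refine Finset.card_biUnion_le_card_mul _ _ _ fun p hp => ?_
      have e2 : ((M p).biUnion fun c => cv (rs V c)).card ≤ (M p).card * (j + 1) := by
        refine Finset.card_biUnion_le_card_mul _ _ _ fun c hc => ?_
        rw [← (hM1 p c hc).2.2]
        exact Finset.card_image_le
      have e3 : (M p).card * (j + 1) ≤ N * (j + 1) := Nat.mul_le_mul_right _ (hN p hp)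
      rw [mul_comm (j + 1)]
      exact e2.trans e3
    rw [hV']
    refine (Finset.card_union_le _ _).trans ?_
    exact Nat.add_le_add_left (e1.trans (Nat.mul_le_mul_right _ e0)) _
  · intro c hc
    have hsub : rs V' c ⊆ rs V c := by
      intro l hl
      rw [rs, Finset.mem_filter] at hl ⊢
      exact ⟨hl.1, fun h3 => hl.2 (hVV' h3)⟩
    rcases Nat.lt_or_ge j (rs V c).card with h3 | h3
    · have h4 : (rs V c).card = j + 1 := le_antisymm (hres c hc) h3
      have h5 : tc V c ∈ Trs V j f := Vg_trs.2 ⟨c, hc, h4, rfl⟩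
      obtain ⟨d, hd, hdis⟩ := (hM (tc V c)).2.2 c (Vg_cls.2 ⟨hc, rfl, h4⟩)
      rw [Finset.not_disjoint_iff] at hdis
      obtain ⟨x, hx1, hx2⟩ := hdis
      have hxV : x ∈ V' := by
        rw [hV']
        refine Finset.mem_union_right _ ?_
        rw [Finset.mem_biUnion]
        refine ⟨tc V c, h5, ?_⟩
        rw [Finset.mem_biUnion]
        exact ⟨d, hd, hx2⟩
      rw [cv, Finset.mem_image] at hx1
      obtain ⟨l, hl, hlx⟩ := hx1
      have h7 : rs V' c ⊂ rs V c := by
        refine (Finset.ssubset_iff_of_subset hsub).2 ⟨l, hl, ?_⟩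
        intro h8
        rw [rs, Finset.mem_filter, hlx] at h8
        exact h8.2 hxV
      have h8 := Finset.card_lt_card h7
      omega
    · exact (Finset.card_le_card hsub).trans h3

end Pool.Agent.AK
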