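import Pool.Agent.AK.HAll
import Pool.Agent.AK.StN
import Pool.Agent.AK.Rl
import Pool.Agent.AK.Vg
import Pool.Agent.AK.GN0
import Pool.Agent.AK.GN
import Pool.Agent.AK.GapN
import Pool.Agent.AK.HnB
import Pool.Agent.AK.GrowN
import Pool.Agent.AK.EN
import Pool.Agent.AK.SN

set_option autoImplicit false

/-! # AK, fourth wave: all statements without hypotheses -/

namespace Pool.Agent.AK

theorem all_Rl : StRl := thm_Rl thm_G02 all_G04
theorem all_Vg : StVg := thm_Vg thm_G09
theorem all_GN0 : StGN0 := thm_GN0 thm_G01 all_G04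
theorem all_GN : StGN := thm_GN thm_G01 thm_G06 thm_G10 all_G11 all_G15 all_G17 all_Rl all_Vg all_GN0
theorem all_GapN : StGapN := thm_GapN all_GN thm_G19
theorem all_HnB : StHnB := thm_HnB thm_N01 all_N02 all_N04 all_N08
theorem all_GrowN : StGrowN := thm_GrowN thm_N01 all_N11 all_HnB
theorem all_EN : StEN := thm_EN all_Nrm all_Leaves all_Err all_Est all_GapN all_GrowN all_DensB
theorem all_SN : StSN := thm_SN all_GapN all_HnB all_Nrm all_Tab

end Pool.Agent.AK
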