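import Pool.Agent.AK.StT
import Pool.Agent.AK.PtFin2

set_option autoImplicit false

/-! # AK, module PtFin4: the final instances are computed in polynomial time -/

namespace Pool.Agent.AK

open Pool.Agent.PolyTime

theorem PtFin4_main (h1 : StPtC) (h2 : StPtWf) (h3 : StRN)
    (t : ℕ → ℕ) (d n0 c : ℕ) (ht : UPoly t) (e : CNF × ℕ → ℕ) (he : PolyTime e) (heb : PBd e) :
    PolyTime (fun p : CNF × ℕ => fin4 (fun n => min (t n) n) d n0 c p.1 (e p)) := by
  have hfpad := h1.2.2.2.2.2.2
  have hnv : PolyTime nv := h3.1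
  have hD : PolyTime (fun p : CNF × ℕ => p.1) := PolyTime.fst'
  have hm : PolyTime (fun p => e p + 1) := he.add (PolyTime.const 1)
  have hmb : PBd (fun p => e p + 1) := heb.add (PBd.const 1)
  have hum : PolyTime (fun p => List.replicate (e p + 1) ()) :=
    PolyTime.replicate hm hmb (PolyTime.const ())
  have hin : PolyTime (fun p : CNF × ℕ =>
      (List.replicate (e p + 1) (), List.replicate (e p + 1) (), p.1, e p)) :=
    hum.prodMk (hum.prodMk (hD.prodMk he))
  have hsz : PolyTime (fun p : CNF × ℕ => sz3 p.1 (e p)) := PolyTime.natSizeOf hin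
  have hszb : PBd (fun p : CNF × ℕ => sz3 p.1 (e p)) := hin.pbd
  obtain ⟨n, hndef⟩ : ∃ n : CNF × ℕ → ℕ, n = fun p =>
      ((sz3 p.1 (e p) + 2) ^ c + n0 + e p + 3) ^ (d + 1) := ⟨_, rfl⟩
  have hn : PolyTime n := by
    rw [hndef]
    exact PolyTime.pow_const ((((PolyTime.pow_const (hsz.add (PolyTime.const 2)) c).add
      (PolyTime.const n0)).add he).add (PolyTime.const 3)) (d + 1)
  have hnb : PBd n := by
    rw [hndef]
    exact (((((hszb.add (PBd.const 2)).pow c).add (PBd.const n0)).add heb).add
      (PBd.const 3)).pow (d + 1)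
  have hun : PolyTime (fun p => List.replicate (n p) ()) :=
    PolyTime.replicate hn hnb (PolyTime.const ())
  have htn : PolyTime (fun p => t (n p)) :=
    (PolyTime.comp ht hun).congr fun p => by rw [List.length_replicate]
  have htm : PolyTime (fun p => min (t (n p)) (n p)) := htn.min hn
  have hth : PolyTime (fun p => min (min (t (n p)) (n p)) (e p + 1)) := htm.min hm
  have hthb : PBd (fun p => min (min (t (n p)) (n p)) (e p + 1)) :=
    hmb.mono fun p => min_le_right _ _
  have huth : PolyTime (fun p => List.replicate (min (min (t (n p)) (n p)) (e p + 1)) ()) :=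
    PolyTime.replicate hth hthb (PolyTime.const ())
  have hP : PolyTime (fun p => Wf (e p + 1) (min (min (t (n p)) (n p)) (e p + 1)) p.1 (e p)) := by
    refine (PolyTime.comp h2 (hum.prodMk (huth.prodMk (hD.prodMk he)))).congr fun p => ?_
    simp only [List.length_replicate]
    rw [min_assoc, min_self, min_eq_left (Nat.le_succ (e p))]
  have hu : PolyTime (fun p => min (t (n p)) (n p) - min (min (t (n p)) (n p)) (e p + 1)) :=
    htm.sub hth
  have huu := PolyTime.replicate hu (hnb.mono fun p => (Nat.sub_le _ _).trans (min_le_right _ _))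
    (PolyTime.const ())
  have hww := PolyTime.replicate ((hn.sub (hnv.comp hP)).sub hu)
    (hnb.mono fun p => (Nat.sub_le _ _).trans (Nat.sub_le _ _)) (PolyTime.const ())
  have hrr := PolyTime.replicate (hth.add (PolyTime.const 1)) (hthb.add (PBd.const 1))
    (PolyTime.const ())
  refine (hfpad.comp (hrr.prodMk (hP.prodMk (hww.prodMk huu)))).congr fun p => ?_
  simp only [List.length_replicate]
  rw [hndef]
  rfl

theorem thm_PtFin4 (h1 : StPtC) (h2 : StPtWf) (h3 : StRN) : StPtFin4 := by
  intro t d n0 c ht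
  have hD : PolyTime (fun p : CNF × ℕ => p.1) := PolyTime.fst'
  exact PtFin4_main h1 h2 h3 t d n0 c ht (fun p => min p.2 (nv p.1))
    (PolyTime.snd'.min (h3.1.comp hD)) ((PtFin2_pbd_nv.comp hD).mono fun p => min_le_right _ _)

end Pool.Agent.AK
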