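import Pool.Agent.AK.StT
import Pool.Agent.AK.PtT
import Pool.Agent.AK.PtLev

set_option autoImplicit false

/-!
# AK, module PtWf: `lev3` and `Wf` are computed in polynomial time
-/

namespace Pool.Agent.AK

open Pool.Agent.PolyTime

/-- The unary bound. -/
def PtWf_U (m : ℕ) : ℕ := (m + 4) * (2 * m + 2)

/-- The last exponent with guards. -/
def PtWf_rc (U : ℕ) (Ts : List Tab) (y : ℕ) : ℕ :=
  Ts.foldl (fun y T => (ch T (min y U)).2) y

/-- One step of the first fold. -/
def PtWf_F (U : ℕ) (s : ℕ × List (List CNF)) (T : Tab) : ℕ × List (List CNF) :=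
  ((ch T (min s.1 U)).2, (ch T (min s.1 U)).1 :: s.2)

/-- The first fold. -/
def PtWf_G (U : ℕ) (Ts : List Tab) (y : ℕ) (acc : List (List CNF)) : ℕ × List (List CNF) :=
  Ts.foldl (PtWf_F U) (y, acc)

/-- One step of the second fold. -/
def PtWf_h (w : CNF) (L : List CNF) : CNF := oh (L ++ [w])

/-- One step of the search with guards. -/
def PtWf_f (m t : ℕ) (Ts : List Tab) : List Tab :=
  if m ≤ PtWf_rc (PtWf_U m) Ts t then Ts else stp (Ts.headD []) :: Ts

lemma PtWf_hU {α : Type} [PEnc α] {l : α → List Unit} (hl : PolyTime l) :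
    PolyTime (fun a => PtWf_U (l a).length) ∧ PBd (fun a => PtWf_U (l a).length) := by
  unfold PtWf_U
  constructor
  · fun_prop
  · have hb := pbd_length hl
    exact (hb.add (PBd.const 4)).mul (((PBd.const 2).mul hb).add (PBd.const 2))

/-! ### The last exponent -/

lemma PtWf_rc_size (U : ℕ) : ∀ (Ts : List Tab) (y : ℕ),
    size (PtWf_rc U Ts y) ≤ size y + size Ts := by
  intro Ts
  induction Ts with
  | nil =>
    intro y
    exact Nat.le_add_right _ _
  | cons T Ts ih =>
    intro y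
    have h1 := ih (ch T (min y U)).2
    have h2 := (PtT_inv T (min y U)).2.2
    have h3 : size (T :: Ts) = 2 * size T + 1 + size Ts := size_cons T Ts
    change size (PtWf_rc U Ts (ch T (min y U)).2) ≤ _
    omega

lemma PtWf_ch {α : Type} [PEnc α] {T : α → Tab} {y : α → ℕ} {l : α → List Unit}
    (hT : PolyTime T) (hy : PolyTime y) (hl : PolyTime l) :
    PolyTime (fun a => ch (T a) (min (y a) (PtWf_U (l a).length))) := by
  have hU := PtWf_hU hl
  refine (PtT_ch' hT (PtT_un hy hU.1 hU.2)).congr fun a => ?_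
  rw [List.length_replicate]

lemma PtWf_ptrc {α : Type} [PEnc α] {Ts : α → List Tab} {y : α → ℕ} {l : α → List Unit}
    (hT : PolyTime Ts) (hy : PolyTime y) (hl : PolyTime l) :
    PolyTime (fun a => PtWf_rc (PtWf_U (l a).length) (Ts a) (y a)) := by
  unfold PtWf_rc
  refine PolyTime.foldl (h := fun a y T => (ch T (min y (PtWf_U (l a).length))).2)
    (B := fun a => size (y a) + size (Ts a)) hT hy ?_ (hy.pbd.add hT.pbd) ?_
  · exact (PtWf_ch (T := fun q : α × ℕ × Tab => q.2.2) (y := fun q => q.2.1)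
      (l := fun q => l q.1) (by fun_prop) (by fun_prop) (hl.comp (f := fun q : α × ℕ × Tab => q.1) (by fun_prop))).snd
  · intro a i
    have h1 := PtWf_rc_size (PtWf_U (l a).length) ((Ts a).take i) (y a)
    have h2 : size ((Ts a).take i) ≤ size (Ts a) := size_sublist (List.take_sublist _ _)
    unfold PtWf_rc at h1
    omega

lemma PtWf_ub (h4 : StTab) (h5 : StChain) (m i y : ℕ) (hi : i ≤ m + 2) :
    (ch (tab m i) y).2 ≤ PtWf_U m := by
  refine ((h5 m i (tab m i) y (h4.2 m i)).2.2.2.2.1).trans ?_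
  unfold PtWf_U
  exact Nat.mul_le_mul_right _ (by omega)

lemma PtWf_rc_eq (h4 : StTab) (h5 : StChain) (m : ℕ) : ∀ j y, j ≤ m + 3 → y ≤ PtWf_U m →
    PtWf_rc (PtWf_U m) (tabs m j) y = rc (tabs m j) y ∧ rc (tabs m j) y ≤ PtWf_U m := by
  intro j
  induction j with
  | zero =>
    intro y _ hy
    exact ⟨rfl, hy⟩
  | succ j ih =>
    intro y hj hy
    have h1 := ih (ch (tab m j) y).2 (by omega) (PtWf_ub h4 h5 m j y (by omega))
    refine ⟨?_, h1.2⟩
    change PtWf_rc (PtWf_U m) (tabs m j) (ch (tab m j) (min y (PtWf_U m))).2 =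
      rc (tabs m j) (ch (tab m j) y).2
    rw [min_eq_left hy]
    exact h1.1

/-! ### The search -/

lemma PtWf_le (m : ℕ) : m ≤ PtWf_U m := by
  unfold PtWf_U
  nlinarith

lemma PtWf_inv (h4 : StTab) (h5 : StChain) (m t : ℕ) (ht : t ≤ m) :
    ∀ i, i ≤ Nat.size (Nat.size m) + 1 →
    ∃ j, 1 ≤ j ∧ j ≤ i + 1 ∧ (PtWf_f m t)^[i] [tab0 m] = tabs m j ∧
      (lvs3 m t)^[i] [tab0 m] = tabs m j := by
  intro i
  induction i with
  | zero =>
    intro _
    exact ⟨1, le_rfl, le_rfl, rfl, rfl⟩
  | succ i ih =>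
    intro hi
    obtain ⟨j, hj1, hj, h1, h2⟩ := ih (by omega)
    have e2 := PtLev_size_le (Nat.size m)
    have e3 := PtLev_size_le m
    have e4 := (PtWf_rc_eq h4 h5 m j t (by omega) (ht.trans (PtWf_le m))).1
    rw [Function.iterate_succ_apply', Function.iterate_succ_apply', h1, h2]
    unfold PtWf_f lvs3
    rw [e4]
    by_cases hc : m ≤ rc (tabs m j) t
    · exact ⟨j, hj1, by omega, by rw [if_pos hc], by rw [if_pos hc]⟩
    · refine ⟨j + 1, by omega, by omega, ?_, ?_⟩
      · rw [if_neg hc]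
        obtain ⟨j', rfl⟩ : ∃ j', j = j' + 1 := ⟨j - 1, by omega⟩
        change stp (tab m j') :: tabs m (j' + 1) = tab m (j' + 1) :: tabs m (j' + 1)
        rw [PtLev_stp]
      · rw [if_neg hc]
        obtain ⟨j', rfl⟩ : ∃ j', j = j' + 1 := ⟨j - 1, by omega⟩
        change stp (tab m j') :: tabs m (j' + 1) = tab m (j' + 1) :: tabs m (j' + 1)
        rw [PtLev_stp]

lemma PtWf_tabs_size (m K : ℕ) : ∀ j, (∀ i < j, size (tab m i) ≤ K) →
    size (tabs m j) ≤ j * (2 * K + 1) := by
  intro j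
  induction j with
  | zero =>
    intro _
    have : size (tabs m 0) = 0 := rfl
    omega
  | succ j ih =>
    intro h
    have h1 := ih (fun i hi => h i (by omega))
    have h2 := h j (by omega)
    have h3 : size (tab m j :: tabs m j) = 2 * size (tab m j) + 1 + size (tabs m j) :=
      size_cons _ _
    change size (tab m j :: tabs m j) ≤ _
    rw [Nat.succ_mul]
    omega

/-- The sizes of the tables which occur. -/
lemma PtWf_tab_size (h2 : StPtT) (h3 : StSz) : ∃ c k : ℕ, ∀ m i, i ≤ Nat.size (Nat.size m) + 1 →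
    size (tab m i) ≤ (m + 2) ^ c + ((m + 2) ^ c + 2) ^ k := by
  obtain ⟨c, hc⟩ := h3
  obtain ⟨k, hk⟩ := h2.2.1.pbd
  refine ⟨c, k, fun m i hi => ?_⟩
  rcases Nat.lt_or_ge i (Nat.size (Nat.size m) + 1) with h | h
  · exact (hc m i (by omega)).trans (Nat.le_add_right _ _)
  · have hi' : i = Nat.size (Nat.size m) + 1 := by omega
    subst hi'
    rw [← PtLev_stp]
    refine (hk _).trans ((Nat.pow_le_pow_left ?_ k).trans (Nat.le_add_left _ _))
    have := hc m _ (le_refl (Nat.size (Nat.size m)))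
    omega

lemma PtWf_ptf {α : Type} [PEnc α] {t : α → ℕ} {l : α → List Unit} (h2 : StPtT)
    (ht : PolyTime t) (hl : PolyTime l) :
    PolyTime (fun q : α × List Tab => PtWf_f (l q.1).length (t q.1) q.2) := by
  unfold PtWf_f
  have hT : PolyTime (fun q : α × List Tab => q.2) := by fun_prop
  have hl' : PolyTime (fun q : α × List Tab => l q.1) :=
    hl.comp (f := fun q : α × List Tab => q.1) (by fun_prop)
  have ht' : PolyTime (fun q : α × List Tab => t q.1) :=
    ht.comp (f := fun q : α × List Tab => q.1) (by fun_prop)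
  have hr := PtWf_ptrc hT ht' hl'
  refine PolyTime.ite (PolyTime.decide_le (by fun_prop) hr) hT ?_
  exact (h2.2.1.comp (PolyTime.headD hT (PolyTime.const []))).cons hT

lemma PtWf_ptlev3 {α : Type} [PEnc α] {t : α → ℕ} {l : α → List Unit} (h2 : StPtT) (h3 : StSz)
    (h4 : StTab) (h5 : StChain) (ht : PolyTime t) (hl : PolyTime l)
    (htl : ∀ a, t a ≤ (l a).length) :
    PolyTime (fun a => lev3 (l a).length (t a)) := by
  obtain ⟨c, k, hS⟩ := PtWf_tab_size h2 h3
  have htab0 := h2.2.2.1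
  have hlen : PolyTime (fun a => (l a).length) := by fun_prop
  have hlb : PBd (fun a => (l a).length) := pbd_length hl
  have hn : PolyTime (fun a => Nat.size (Nat.size (l a).length) + 1) :=
    (PolyTime.natSize (PolyTime.natSize hlen)).add (PolyTime.const 1)
  have hnb : PBd (fun a => Nat.size (Nat.size (l a).length) + 1) :=
    (hlb.mono fun a => (PtLev_size_le _).trans (PtLev_size_le _)).add (PBd.const 1)
  have hB : PBd (fun a => ((l a).length + 2) * (2 * (((l a).length + 2) ^ c +
      (((l a).length + 2) ^ c + 2) ^ k) + 1)) := by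
    have g1 := (hlb.add (PBd.const 2)).pow c
    exact (hlb.add (PBd.const 2)).mul (((PBd.const 2).mul
      (g1.add ((g1.add (PBd.const 2)).pow k))).add (PBd.const 1))
  refine (PolyTime.iterate (f := fun a s => PtWf_f (l a).length (t a) s)
    (PtWf_ptf h2 ht hl) hn hnb ((htab0.comp hl).cons (PolyTime.const [])) hB ?_).congr ?_
  · intro a i hi
    obtain ⟨j, hj1, hj, e, -⟩ := PtWf_inv h4 h5 (l a).length (t a) (htl a) i hi
    change size ((PtWf_f (l a).length (t a))^[i] [tab0 (l a).length]) ≤ _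
    rw [e]
    refine (PtWf_tabs_size (l a).length _ j (fun i' hi' => hS (l a).length i' (by omega))).trans ?_
    refine Nat.mul_le_mul_right _ ?_
    have e3 := PtLev_size_le (Nat.size (l a).length)
    have e4 := PtLev_size_le (l a).length
    omega
  · intro a
    obtain ⟨j, -, -, e1, e2⟩ := PtWf_inv h4 h5 (l a).length (t a) (htl a) _ le_rfl
    unfold lev3
    rw [e2, ← e1]

/-! ### The folds -/

lemma PtWf_G_inv (U K : ℕ) : ∀ (Ts : List Tab) (y : ℕ) (acc : List (List CNF)),
    (∀ T ∈ Ts, size T ≤ K) → (∀ L ∈ acc, size L ≤ U * (2 * (K + 1) + 1)) →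
    (PtWf_G U Ts y acc).2.length = Ts.length + acc.length ∧
    (∀ L ∈ (PtWf_G U Ts y acc).2, size L ≤ U * (2 * (K + 1) + 1)) ∧
    size (PtWf_G U Ts y acc).1 ≤ max (size y) K := by
  intro Ts
  induction Ts with
  | nil =>
    intro y acc _ h2
    exact ⟨by simp [PtWf_G], h2, le_max_left _ _⟩
  | cons T Ts ih =>
    intro y acc h1 h2
    obtain ⟨a1, a2, a3⟩ := PtT_inv T (min y U)
    have hT := h1 T List.mem_cons_self
    have h3 := ih (ch T (min y U)).2 ((ch T (min y U)).1 :: acc)
      (fun T' hT' => h1 T' (List.mem_cons_of_mem _ hT')) (by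
        intro L hL
        rcases List.mem_cons.1 hL with hL | hL
        · subst hL
          have h4 := size_le_of_forall a2
          rw [a1] at h4
          refine h4.trans (Nat.mul_le_mul (min_le_right _ _) (by omega))
        · exact h2 L hL)
    change (PtWf_G U Ts (ch T (min y U)).2 ((ch T (min y U)).1 :: acc)).2.length = _ ∧
      (∀ L ∈ (PtWf_G U Ts (ch T (min y U)).2 ((ch T (min y U)).1 :: acc)).2, _) ∧
      size (PtWf_G U Ts (ch T (min y U)).2 ((ch T (min y U)).1 :: acc)).1 ≤ _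
    refine ⟨?_, h3.2.1, ?_⟩
    · rw [h3.1, List.length_cons, List.length_cons]
      omega
    · refine h3.2.2.trans (max_le ?_ (le_max_right _ _))
      exact (a3.trans hT).trans (le_max_right _ _)

lemma PtWf_ptG {α : Type} [PEnc α] {Ts : α → List Tab} {y : α → ℕ} {l : α → List Unit}
    (hT : PolyTime Ts) (hy : PolyTime y) (hl : PolyTime l) :
    PolyTime (fun a => PtWf_G (PtWf_U (l a).length) (Ts a) (y a) []) := by
  unfold PtWf_G
  have hU := PtWf_hU hl
  have hTb := hT.pbd
  refine PolyTime.foldl (h := fun a s T => PtWf_F (PtWf_U (l a).length) s T)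
    (s := fun a => (y a, ([] : List (List CNF))))
    (B := fun a => 2 * (size (y a) + size (Ts a)) + 1 + size (Ts a) *
      (2 * (PtWf_U (l a).length * (2 * (size (Ts a) + 1) + 1)) + 1)) hT
      (hy.prodMk (PolyTime.const [])) ?_ ?_ ?_
  · unfold PtWf_F
    have hc := PtWf_ch (T := fun q : α × (ℕ × List (List CNF)) × Tab => q.2.2)
      (y := fun q => q.2.1.1) (l := fun q => l q.1) (by fun_prop) (by fun_prop)
      (hl.comp (f := fun q : α × (ℕ × List (List CNF)) × Tab => q.1) (by fun_prop))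
    exact hc.snd.prodMk (hc.fst.cons (by fun_prop))
  · exact (((PBd.const 2).mul (hy.pbd.add hTb)).add (PBd.const 1)).add
      (hTb.mul (((PBd.const 2).mul (hU.2.mul (((PBd.const 2).mul
        (hTb.add (PBd.const 1))).add (PBd.const 1)))).add (PBd.const 1)))
  · intro a i
    have h0 : size ((Ts a).take i) ≤ size (Ts a) := size_sublist (List.take_sublist _ _)
    have h1 := PtWf_G_inv (PtWf_U (l a).length) (size (Ts a)) ((Ts a).take i) (y a) []
      (fun T hT' => (size_mem_le (List.mem_of_mem_take hT')))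
      (by intro L hL; exact absurd hL List.not_mem_nil)
    obtain ⟨g1, g2, g3⟩ := h1
    change size (PtWf_G (PtWf_U (l a).length) ((Ts a).take i) (y a) []) ≤ _
    rw [size_prod]
    have g4 := size_le_of_forall g2
    rw [g1] at g4
    have g5 : ((Ts a).take i).length + ([] : List (List CNF)).length ≤ size (Ts a) := by
      have := length_le_size ((Ts a).take i)
      simp only [List.length_nil]
      omega
    have g6 := Nat.mul_le_mul_right
      (2 * (PtWf_U (l a).length * (2 * (size (Ts a) + 1) + 1)) + 1) g5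
    have g7 : max (size (y a)) (size (Ts a)) ≤ size (y a) + size (Ts a) :=
      max_le (Nat.le_add_right _ _) (Nat.le_add_left _ _)
    omega

/-- The accumulator. -/
lemma PtWf_G_acc (U : ℕ) : ∀ (Ts : List Tab) (y : ℕ) (acc : List (List CNF)),
    PtWf_G U Ts y acc = ((PtWf_G U Ts y []).1, (PtWf_G U Ts y []).2 ++ acc) := by
  intro Ts
  induction Ts with
  | nil =>
    intro y acc
    rfl
  | cons T Ts ih =>
    intro y acc
    change PtWf_G U Ts (ch T (min y U)).2 ((ch T (min y U)).1 :: acc) =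
      ((PtWf_G U Ts (ch T (min y U)).2 ((ch T (min y U)).1 :: [])).1,
        (PtWf_G U Ts (ch T (min y U)).2 ((ch T (min y U)).1 :: [])).2 ++ acc)
    rw [ih (ch T (min y U)).2 ((ch T (min y U)).1 :: acc),
      ih (ch T (min y U)).2 ((ch T (min y U)).1 :: [])]
    simp

lemma PtWf_G_len (U : ℕ) (Ts : List Tab) (y : ℕ) : (PtWf_G U Ts y []).2.length = Ts.length := by
  induction Ts generalizing y with
  | nil => rfl
  | cons T Ts ih =>
    change (PtWf_G U Ts (ch T (min y U)).2 ((ch T (min y U)).1 :: [])).2.length = _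
    rw [PtWf_G_acc, List.length_append, ih]
    rfl

lemma PtWf_tabs_len (m j : ℕ) : (tabs m j).length = j := by
  induction j with
  | zero => rfl
  | succ j ih =>
    change (tab m j :: tabs m j).length = j + 1
    rw [List.length_cons, ih]

/-- The last exponent of the first fold, and the value of the second fold. -/
lemma PtWf_G_eq (h4 : StTab) (h5 : StChain) (m : ℕ) (D : CNF) (e : ℕ) :
    ∀ j y, j ≤ m + 3 → y ≤ PtWf_U m →
    (PtWf_G (PtWf_U m) (tabs m j) y []).1 ≤ PtWf_U m ∧
    (PtWf_G (PtWf_U m) (tabs m j) y []).2.foldl PtWf_h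
      (cj [D, forced ((PtWf_G (PtWf_U m) (tabs m j) y []).1 - e)]) = Wn (tabs m j) y D e := by
  intro j
  induction j with
  | zero =>
    intro y _ hy
    exact ⟨hy, rfl⟩
  | succ j ih =>
    intro y hj hy
    have h1 := ih (ch (tab m j) y).2 (by omega) (PtWf_ub h4 h5 m j y (by omega))
    have e1 : PtWf_G (PtWf_U m) (tabs m (j + 1)) y [] =
        ((PtWf_G (PtWf_U m) (tabs m j) (ch (tab m j) y).2 []).1,
          (PtWf_G (PtWf_U m) (tabs m j) (ch (tab m j) y).2 []).2 ++ [(ch (tab m j) y).1]) := by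
      change PtWf_G (PtWf_U m) (tabs m j) (ch (tab m j) (min y (PtWf_U m))).2
        ((ch (tab m j) (min y (PtWf_U m))).1 :: []) = _
      rw [min_eq_left hy, PtWf_G_acc]
    rw [e1]
    refine ⟨h1.1, ?_⟩
    change List.foldl PtWf_h _ (_ ++ [(ch (tab m j) y).1]) = _
    rw [List.foldl_append]
    change PtWf_h (List.foldl PtWf_h (cj [D, forced
      ((PtWf_G (PtWf_U m) (tabs m j) (ch (tab m j) y).2 []).1 - e)]) _) (ch (tab m j) y).1 = _
    rw [h1.2]
    rfl

/-- Initial parts of the accumulator. -/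
lemma PtWf_G_take (h4 : StTab) (h5 : StChain) (m : ℕ) :
    ∀ j y i, j ≤ m + 3 → y ≤ PtWf_U m → i ≤ j →
    ∃ y', y' ≤ PtWf_U m ∧
      (PtWf_G (PtWf_U m) (tabs m j) y []).1 = (PtWf_G (PtWf_U m) (tabs m i) y' []).1 ∧
      (PtWf_G (PtWf_U m) (tabs m j) y []).2.take i = (PtWf_G (PtWf_U m) (tabs m i) y' []).2 := by
  intro j
  induction j with
  | zero =>
    intro y i _ hy hi
    obtain rfl : i = 0 := by omega
    exact ⟨y, hy, rfl, rfl⟩
  | succ j ih =>
    intro y i hj hy hi
    rcases Nat.lt_or_ge i (j + 1) with h | h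
    · have e1 : PtWf_G (PtWf_U m) (tabs m (j + 1)) y [] =
          ((PtWf_G (PtWf_U m) (tabs m j) (ch (tab m j) y).2 []).1,
            (PtWf_G (PtWf_U m) (tabs m j) (ch (tab m j) y).2 []).2 ++ [(ch (tab m j) y).1]) := by
        change PtWf_G (PtWf_U m) (tabs m j) (ch (tab m j) (min y (PtWf_U m))).2
          ((ch (tab m j) (min y (PtWf_U m))).1 :: []) = _
        rw [min_eq_left hy, PtWf_G_acc]
      obtain ⟨y', g1, g2, g3⟩ := ih (ch (tab m j) y).2 i (by omega)
        (PtWf_ub h4 h5 m j y (by omega)) (by omega)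
      refine ⟨y', g1, ?_, ?_⟩
      · rw [e1]
        exact g2
      · rw [e1]
        change (_ ++ [(ch (tab m j) y).1]).take i = _
        rw [List.take_append_of_le_length, g3]
        rw [PtWf_G_len, PtWf_tabs_len]
        omega
    · obtain rfl : i = j + 1 := by omega
      refine ⟨y, hy, rfl, ?_⟩
      apply List.take_of_length_le
      rw [PtWf_G_len, PtWf_tabs_len]

/-- The intermediate results of the second fold. -/
lemma PtWf_take (h4 : StTab) (h5 : StChain) (m : ℕ) (D : CNF) (e j y i : ℕ) (hj : j ≤ m + 3)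
    (hy : y ≤ PtWf_U m) : ∃ i' y', i' ≤ j ∧ y' ≤ PtWf_U m ∧
    ((PtWf_G (PtWf_U m) (tabs m j) y []).2.take i).foldl PtWf_h
      (cj [D, forced ((PtWf_G (PtWf_U m) (tabs m j) y []).1 - e)]) = Wn (tabs m i') y' D e := by
  rcases Nat.lt_or_ge j i with h | h
  · refine ⟨j, y, le_rfl, hy, ?_⟩
    rw [List.take_of_length_le]
    · exact (PtWf_G_eq h4 h5 m D e j y hj hy).2
    · rw [PtWf_G_len, PtWf_tabs_len]
      omega
  · obtain ⟨y', g1, g2, g3⟩ := PtWf_G_take h4 h5 m j y i hj hy h
    refine ⟨i, y', h, g1, ?_⟩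
    rw [g2, g3]
    exact (PtWf_G_eq h4 h5 m D e i y' (by omega) g1).2

lemma PtWf_base (h4 : StTab) (h5 : StChain) (m : ℕ) (D : CNF) (e j y : ℕ) (hj : j ≤ m + 3)
    (hy : y ≤ PtWf_U m) :
    cj [D, forced (List.replicate (min ((PtWf_G (PtWf_U m) (tabs m j) y []).1 - e)
      (PtWf_U m)) ()).length] = cj [D, forced ((PtWf_G (PtWf_U m) (tabs m j) y []).1 - e)] := by
  have h := (PtWf_G_eq h4 h5 m D e j y hj hy).1
  rw [List.length_replicate, min_eq_left (by omega)]

lemma PtWf_lev3 (h4 : StTab) (h5 : StChain) (m t : ℕ) (ht : t ≤ m) :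
    ∃ j, j ≤ Nat.size (Nat.size m) + 2 ∧ lev3 m t = tabs m j := by
  obtain ⟨j, -, hj, -, e⟩ := PtWf_inv h4 h5 m t ht _ le_rfl
  exact ⟨j, by omega, e⟩

lemma PtWf_bound (h4 : StTab) (h5 : StChain) (h8 : StWnSz) {c k r : ℕ}
    (hS : ∀ m i, i ≤ Nat.size (Nat.size m) + 1 →
      size (tab m i) ≤ (m + 2) ^ c + ((m + 2) ^ c + 2) ^ k)
    (hr : ∀ q : CNF × List Unit, size (cj [q.1, forced q.2.length]) ≤ (size q + 2) ^ r)
    (m t : ℕ) (D : CNF) (e i : ℕ) (ht : t ≤ m) :
    size (((PtWf_G (PtWf_U m) (lev3 m t) t []).2.take i).foldl PtWf_h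
      (cj [D, forced (List.replicate (min ((PtWf_G (PtWf_U m) (lev3 m t) t []).1 - e)
        (PtWf_U m)) ()).length])) ≤
      24 * ((2 * size D + 1 + (((m + 2) ^ c + ((m + 2) ^ c + 2) ^ k) +
        PtWf_U m) + 2) ^ r + (m + 2) * (8 * ((((m + 2) ^ c +
          ((m + 2) ^ c + 2) ^ k) + PtWf_U m) + 3) ^ 2) + 1) ^ 2 *
            (m + 4) ^ 2 * 4 := by
  obtain ⟨j, hj, ej⟩ := PtWf_lev3 h4 h5 m t ht
  have e3 := PtLev_size_le (Nat.size m)
  have e4 := PtLev_size_le m
  have hy : t ≤ PtWf_U m := ht.trans (PtWf_le m)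
  rw [ej, PtWf_base h4 h5 m D e j t (by omega) hy]
  obtain ⟨i', y', hi', hy', e5⟩ := PtWf_take h4 h5 m D e j t i (by omega) hy
  rw [e5]
  generalize hVV : ((m + 2) ^ c + ((m + 2) ^ c + 2) ^ k) + PtWf_U m = V
  have hUV : PtWf_U m ≤ V := by
    rw [← hVV]
    exact Nat.le_add_left _ _
  have g := h8 m i' y' V ((2 * size D + 1 + V + 2) ^ r) D e (by
      intro i'' hi''
      refine (hS m i'' (by omega)).trans ?_
      rw [← hVV]
      exact Nat.le_add_right _ _) (by
      refine le_trans ?_ hUV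
      unfold PtWf_U
      exact Nat.mul_le_mul_right _ (by omega)) (hy'.trans hUV) (by
      intro i'' hi''
      have h9 := hr (D, List.replicate i'' ())
      have h10 : size (List.replicate i'' ()) = i'' := by
        unfold size
        rw [enc_replicate_unit, List.length_replicate]
      rw [size_pair, h10] at h9
      simp only [List.length_replicate] at h9
      exact h9.trans (Nat.pow_le_pow_left (by omega) r))
  refine g.trans ?_
  have k1 : i' ≤ m + 2 := by omega
  have k2 : i' + 2 ≤ m + 4 := by omega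
  gcongr

/-- **PtWf** (`Wf` in polynomial time). -/
theorem thm_PtWf (h1 : StPtC) (h2 : StPtT) (h3 : StSz) (h4 : StTab) (h5 : StChain) (_h6 : StRc)
    (_h7 : StLev3) (h8 : StWnSz) : StPtWf := by
  obtain ⟨-, hcj, hoh, hf, -⟩ := h1
  obtain ⟨c, k, hS⟩ := PtWf_tab_size h2 h3
  have hq : PolyTime (fun q : CNF × List Unit => cj [q.1, forced q.2.length]) := by
    refine hcj.comp (PolyTime.cons (by fun_prop) (PolyTime.cons ?_ (PolyTime.const [])))
    exact hf.comp (f := fun q : CNF × List Unit => q.2) (by fun_prop)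
  obtain ⟨r, hr⟩ := hq.pbd
  unfold StPtWf
  have hl : PolyTime (fun p : List Unit × List Unit × CNF × ℕ => p.1) := by fun_prop
  have hlb : PBd (fun p : List Unit × List Unit × CNF × ℕ => p.1.length) := pbd_length hl
  have hD : PolyTime (fun p : List Unit × List Unit × CNF × ℕ => p.2.2.1) := by fun_prop
  have he : PolyTime (fun p : List Unit × List Unit × CNF × ℕ => min p.2.2.2 p.1.length) := by
    fun_prop
  have ht : PolyTime (fun p : List Unit × List Unit × CNF × ℕ =>
      min p.2.1.length p.1.length) := by fun_prop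
  have hU := PtWf_hU hl
  have hL := PtWf_ptlev3 h2 h3 h4 h5 ht hl (fun a => min_le_right _ _)
  have hG := PtWf_ptG hL ht hl
  have hu := PtT_un (hG.fst.sub he) hU.1 hU.2
  have hbase := hq.comp (hD.prodMk hu)
  have hV : PBd (fun p : List Unit × List Unit × CNF × ℕ =>
      ((p.1.length + 2) ^ c + ((p.1.length + 2) ^ c + 2) ^ k) + PtWf_U p.1.length) := by
    have g1 := (hlb.add (PBd.const 2)).pow c
    exact (g1.add ((g1.add (PBd.const 2)).pow k)).add hU.2
  have hs0 : PBd (fun p : List Unit × List Unit × CNF × ℕ =>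
      (2 * size p.2.2.1 + 1 + (((p.1.length + 2) ^ c + ((p.1.length + 2) ^ c + 2) ^ k) +
        PtWf_U p.1.length) + 2) ^ r) :=
    (((((PBd.const 2).mul hD.pbd).add (PBd.const 1)).add hV).add (PBd.const 2)).pow r
  have hB : PBd (fun p : List Unit × List Unit × CNF × ℕ =>
      24 * ((2 * size p.2.2.1 + 1 + (((p.1.length + 2) ^ c + ((p.1.length + 2) ^ c + 2) ^ k) +
        PtWf_U p.1.length) + 2) ^ r + (p.1.length + 2) * (8 * ((((p.1.length + 2) ^ c +
          ((p.1.length + 2) ^ c + 2) ^ k) + PtWf_U p.1.length) + 3) ^ 2) + 1) ^ 2 *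
            (p.1.length + 4) ^ 2 * 4) := by
    exact ((((PBd.const 24).mul (((hs0.add ((hlb.add (PBd.const 2)).mul
      ((PBd.const 8).mul ((hV.add (PBd.const 3)).pow 2)))).add (PBd.const 1)).pow 2)).mul
        ((hlb.add (PBd.const 4)).pow 2))).mul (PBd.const 4)
  refine (PolyTime.foldl (h := fun _ w L => PtWf_h w L) hG.snd hbase ?_ hB ?_).congr ?_
  · unfold PtWf_h
    have g1 : PolyTime (fun q : (List Unit × List Unit × CNF × ℕ) × CNF × List CNF =>
        q.2.2 ++ [q.2.1]) := by fun_prop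
    exact hoh.comp g1
  · intro p i
    exact PtWf_bound h4 h5 h8 hS hr p.1.length (min p.2.1.length p.1.length) p.2.2.1
      (min p.2.2.2 p.1.length) i (min_le_right _ _)
  · intro p
    have ht' : min p.2.1.length p.1.length ≤ p.1.length := min_le_right _ _
    obtain ⟨j, hj, ej⟩ := PtWf_lev3 h4 h5 p.1.length (min p.2.1.length p.1.length) ht'
    have e3 := PtLev_size_le (Nat.size p.1.length)
    have e4 := PtLev_size_le p.1.length
    have hy := ht'.trans (PtWf_le p.1.length)
    unfold Wf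
    rw [ej]
    dsimp only
    rw [PtWf_base h4 h5 p.1.length p.2.2.1 _ j _ (by omega) hy]
    exact (PtWf_G_eq h4 h5 p.1.length p.2.2.1 _ j _ (by omega) hy).2

end Pool.Agent.AK
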