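import Pool.Agent.AK.StR

set_option autoImplicit false

/-! # AK, module RP2: the final formula of the reduction is computed in polynomial time -/

namespace Pool.Agent.AK

open Pool.Agent.PolyTime

theorem RP2_mem {α β : Type} [PEnc α] [PEnc β] [DecidableEq β] {f : α → β} {l : α → List β}
    (hf : PolyTime f) (hl : PolyTime l) (inst : ∀ a, Decidable (f a ∈ l a)) :
    PolyTime (fun a => @decide (f a ∈ l a) (inst a)) :=
  (PolyTime.decide_mem hf hl).congr (fun a => by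
    by_cases h : f a ∈ l a <;> simp [h])

theorem RP2_lit : PolyTime (fun q : CNF × (ℕ × ℕ) => lit q.1 q.2) := by
  unfold lit
  have e1 : PolyTime (fun q : CNF × (ℕ × ℕ) => q.1.getD q.2.1 []) :=
    PolyTime.getD (by fun_prop) (by fun_prop) (by fun_prop)
  exact PolyTime.getD e1 (by fun_prop) (by fun_prop)

theorem RP2_bad : PolyTime (fun q : CNF × (Name × Bool) × (ℕ × ℕ) => bad q.1 q.2.1 q.2.2) := by
  unfold bad
  have e0 : PolyTime (fun q : CNF × (Name × Bool) × (ℕ × ℕ) => lit q.1 q.2.2) :=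
    RP2_lit.comp (f := fun q : CNF × (Name × Bool) × (ℕ × ℕ) => (q.1, q.2.2)) (by fun_prop)
  have e1 : PolyTime (fun q : CNF × (Name × Bool) × (ℕ × ℕ) => q.1.getD q.2.2.1 []) :=
    PolyTime.getD (by fun_prop) (by fun_prop) (by fun_prop)
  have e2 : PolyTime (fun q : CNF × (Name × Bool) × (ℕ × ℕ) =>
      (q.1.getD q.2.2.1 []).take q.2.2.2) := PolyTime.take (by fun_prop) e1
  refine PolyTime.or (PolyTime.and ?_ ?_) ?_
  · exact PolyTime.decideEq (by fun_prop) e0.fst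
  · exact (PolyTime.decideEq (f := fun q : CNF × (Name × Bool) × (ℕ × ℕ) => q.2.1.2)
      (g := fun q => (lit q.1 q.2.2).2) (by fun_prop) e0.snd).not
  · exact RP2_mem (f := fun q : CNF × (Name × Bool) × (ℕ × ℕ) => q.2.1) (by fun_prop) e2 _

theorem RP2_fadj : PolyTime (fun q : CNF × Vx × Vx => fadj q.1 q.2.1 q.2.2) := by
  have hb : PolyTime (fun q : CNF × (Name × Bool) × (ℕ × ℕ) => bad q.1 q.2.1 q.2.2) := RP2_bad
  have h1 : PolyTime (fun q : CNF × Vx × Vx =>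
      Sum.elim (fun p : Name × Bool => Sum.elim (fun r : Name × Bool =>
          decide (p.1 = r.1) && !decide (p.2 = r.2)) (fun r : ℕ × ℕ => bad q.1 p r) q.2.2)
        (fun p : ℕ × ℕ => Sum.elim (fun r : Name × Bool => bad q.1 r p) (fun r : ℕ × ℕ =>
          decide (p.1 = r.1) && !decide (p.2 = r.2)) q.2.2) q.2.1) := by
    refine PolyTime.sum_elim (by fun_prop) ?_ ?_
    · refine PolyTime.sum_elim (by fun_prop) (by fun_prop) ?_
      exact hb.comp (f := fun s : ((CNF × Vx × Vx) × (Name × Bool)) × (ℕ × ℕ) =>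
        (s.1.1.1, s.1.2, s.2)) (by fun_prop)
    · refine PolyTime.sum_elim (by fun_prop) ?_ (by fun_prop)
      exact hb.comp (f := fun s : ((CNF × Vx × Vx) × (ℕ × ℕ)) × (Name × Bool) =>
        (s.1.1.1, s.2, s.1.2)) (by fun_prop)
  refine h1.congr ?_
  rintro ⟨φ, u, v⟩
  cases u <;> cases v <;> rfl

theorem RP2_thr : PolyTime (fun q : List Bool × ℕ × ℕ => thr q.1 q.2.1 q.2.2) := by
  unfold thr
  fun_prop

/-- the adjacency of the final graph -/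
theorem RP2_adj : PolyTime (fun q : (CNF × List Bool) × ((Vx × ℕ) ⊕ ℕ) × ((Vx × ℕ) ⊕ ℕ) =>
    jn (tw (fadj q.1.1)) (thr q.1.2) q.2.1 q.2.2) := by
  have hf := RP2_fadj
  have ht := RP2_thr
  have h1 : PolyTime (fun q : (CNF × List Bool) × ((Vx × ℕ) ⊕ ℕ) × ((Vx × ℕ) ⊕ ℕ) =>
      Sum.elim (fun u : Vx × ℕ => Sum.elim (fun v : Vx × ℕ => fadj q.1.1 u.1 v.1)
          (fun _ : ℕ => true) q.2.2)
        (fun i : ℕ => Sum.elim (fun _ : Vx × ℕ => true) (fun j : ℕ => thr q.1.2 i j) q.2.2)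
        q.2.1) := by
    refine PolyTime.sum_elim (by fun_prop) ?_ ?_
    · refine PolyTime.sum_elim (by fun_prop) ?_ (by fun_prop)
      exact hf.comp (f := fun s : (((CNF × List Bool) × ((Vx × ℕ) ⊕ ℕ) × ((Vx × ℕ) ⊕ ℕ)) ×
        (Vx × ℕ)) × (Vx × ℕ) => (s.1.1.1.1, s.1.2.1, s.2.1)) (by fun_prop)
    · refine PolyTime.sum_elim (by fun_prop) (by fun_prop) ?_
      exact ht.comp (f := fun s : (((CNF × List Bool) × ((Vx × ℕ) ⊕ ℕ) × ((Vx × ℕ) ⊕ ℕ)) × ℕ) ×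
        ℕ => (s.1.1.1.2, s.1.2, s.2)) (by fun_prop)
  refine h1.congr ?_
  rintro ⟨⟨φ, w⟩, u, v⟩
  cases u <;> cases v <;> rfl

theorem thm_RP2 (h1 : StRE) (h2 : StRP1) : StRP2 := by
  obtain ⟨hv, hs, hsb, -, -, hw⟩ := h2
  have hp1 : PolyTime (fun p : CNF × ℕ => p.1) := by fun_prop
  have hr : PolyTime (fun p : CNF × ℕ => List.range (sN p.1)) :=
    PolyTime.range (hs.comp hp1) (hsb.comp hp1)
  have hl : PolyTime (fun p : CNF × ℕ => lN p.1 p.2) := by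
    unfold lN
    refine PolyTime.append ?_ ?_
    · refine PolyTime.map (g := fun _ b => Sum.inl b) ?_ (by fun_prop)
      exact PolyTime.product (hv.comp hp1) hr
    · refine PolyTime.map (g := fun _ b => Sum.inr b) ?_ (by fun_prop)
      exact PolyTime.range_length hw
  have hadj : PolyTime (fun s : (CNF × ℕ) × (((Vx × ℕ) ⊕ ℕ) × ((Vx × ℕ) ⊕ ℕ)) =>
      jn (tw (fadj s.1.1)) (thr (wN s.1.1 s.1.2)) s.2.1 s.2.2) := by
    refine RP2_adj.comp (f := fun s : (CNF × ℕ) × (((Vx × ℕ) ⊕ ℕ) × ((Vx × ℕ) ⊕ ℕ)) =>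
      ((s.1.1, wN s.1.1 s.1.2), s.2.1, s.2.2)) ?_
    have hw' : PolyTime (fun s : (CNF × ℕ) × (((Vx × ℕ) ⊕ ℕ) × ((Vx × ℕ) ⊕ ℕ)) =>
      wN s.1.1 s.1.2) := hw.comp (f := fun s : (CNF × ℕ) ×
        (((Vx × ℕ) ⊕ ℕ) × ((Vx × ℕ) ⊕ ℕ)) => s.1) (by fun_prop)
    fun_prop
  have henc : PolyTime (fun a : (Vx × ℕ) ⊕ ℕ => enc a) := h1 _
  have hd : PolyTime (fun p : CNF × ℕ => (((lN p.1 p.2).product (lN p.1 p.2)).filter
      fun q => jn (tw (fadj p.1)) (thr (wN p.1 p.2)) q.1 q.2).map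
        fun q => [((enc q.1 : List Bool), true), ((enc q.2 : List Bool), true)]) := by
    refine PolyTime.map (g := fun (_ : CNF × ℕ) (q : ((Vx × ℕ) ⊕ ℕ) × ((Vx × ℕ) ⊕ ℕ)) =>
      [((enc q.1 : List Bool), true), ((enc q.2 : List Bool), true)]) ?_ ?_
    · exact PolyTime.filter (p := fun p q => jn (tw (fadj p.1)) (thr (wN p.1 p.2)) q.1 q.2)
        (PolyTime.product hl hl) hadj
    · have ha : PolyTime (fun p : (CNF × ℕ) × (((Vx × ℕ) ⊕ ℕ) × ((Vx × ℕ) ⊕ ℕ)) =>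
          (enc p.2.1 : List Bool)) := henc.comp (f := fun p : (CNF × ℕ) ×
            (((Vx × ℕ) ⊕ ℕ) × ((Vx × ℕ) ⊕ ℕ)) => p.2.1) (by fun_prop)
      have hb : PolyTime (fun p : (CNF × ℕ) × (((Vx × ℕ) ⊕ ℕ) × ((Vx × ℕ) ⊕ ℕ)) =>
          (enc p.2.2 : List Bool)) := henc.comp (f := fun p : (CNF × ℕ) ×
            (((Vx × ℕ) ⊕ ℕ) × ((Vx × ℕ) ⊕ ℕ)) => p.2.2) (by fun_prop)
      exact PolyTime.cons (ha.prodMk (PolyTime.const true))
        (PolyTime.cons (hb.prodMk (PolyTime.const true)) (PolyTime.const []))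
  exact hd

end Pool.Agent.AK
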