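import Pool.Agent.AK.StT

set_option autoImplicit false

/-!
# AK, module Rc: reach of the nested formulas
-/

namespace Pool.Agent.AK

open Pool.Agent.PolyTime

private theorem Rc_mono (hA : StAck) : ∀ (j : ℕ) {x y : ℕ}, x ≤ y → Th j x ≤ Th j y
  | 0, _, _, h => h
  | j + 1, _, _, h => Rc_mono hA j (hA.2.2.2.2.1 j _ _ h)

private theorem Rc_one (hT : StTab) (hC : StChain) (m : ℕ) :
    ∀ (j y : ℕ), min y m ≤ rc (tabs m j) y
  | 0, y => min_le_left y m
  | j + 1, y => by
    have h1 : min y m ≤ (ch (tab m j) y).2 := (hC m j (tab m j) y (hT.2 m j)).2.2.2.1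
    have h2 := Rc_one hT hC m j (ch (tab m j) y).2
    exact le_trans (le_min h1 (min_le_right y m)) h2

private theorem Rc_two (hT : StTab) (hC : StChain) (hA : StAck) (m : ℕ) :
    ∀ (j y : ℕ), min (Th j y) m ≤ rc (tabs m j) y
  | 0, y => min_le_left y m
  | j + 1, y => by
    have h1 : min ((A j)^[y] 0) m ≤ (ch (tab m j) y).2 := (hC m j (tab m j) y (hT.2 m j)).2.2.1
    change min (Th j ((A j)^[y] 0)) m ≤ rc (tabs m j) (ch (tab m j) y).2
    rcases le_total m (ch (tab m j) y).2 with h | h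
    · have h2 := Rc_one hT hC m j (ch (tab m j) y).2
      rw [min_eq_right h] at h2
      exact le_trans (min_le_right _ _) h2
    · have h2 := Rc_two hT hC hA m j (ch (tab m j) y).2
      rcases min_le_iff.1 h1 with h3 | h3
      · exact le_trans (min_le_min_right m (Rc_mono hA j h3)) h2
      · have h4 := Rc_one hT hC m j (ch (tab m j) y).2
        rw [min_eq_right h3] at h4
        exact le_trans (min_le_right _ _) h4

private theorem Rc_three (hT : StTab) (hC : StChain) (m : ℕ) :
    ∀ (j y : ℕ), rc (tabs m j) y ≤ max y ((j + 2) * (2 * m + 2))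
  | 0, y => le_max_left _ _
  | j + 1, y => by
    have h1 : (ch (tab m j) y).2 ≤ (j + 2) * (2 * m + 2) :=
      (hC m j (tab m j) y (hT.2 m j)).2.2.2.2.1
    have h2 := Rc_three hT hC m j (ch (tab m j) y).2
    rw [max_eq_right h1] at h2
    refine le_trans h2 (le_trans ?_ (le_max_right _ _))
    exact Nat.mul_le_mul_right _ (by omega)

theorem thm_Rc (h1 : StTab) (h2 : StChain) (h3 : StAck) : StRc := fun m j y =>
  ⟨Rc_one h1 h2 m j y, Rc_two h1 h2 h3 m j y, Rc_three h1 h2 m j y⟩

end Pool.Agent.AK
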