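import Mathlib
import Pool.Agent.AK.StT

set_option autoImplicit false

/-!
# AK, module ThB (MP_4ed1f9_lc): growth of the nested iterates
-/

namespace Pool.Agent.AK

private theorem ThB_iter (h : StAck) (j y : ℕ) (hy : 1 ≤ y) : y + 1 ≤ (A j)^[y] 0 := by
  obtain ⟨-, hA, -, -, -, hq, -⟩ := h
  obtain ⟨z, rfl⟩ : ∃ z, y = z + 1 := ⟨y - 1, by omega⟩
  rw [Function.iterate_succ_apply']
  have h1 := hA j ((A j)^[z] 0)
  have h2 := hq j z
  omega

private theorem ThB_main (h : StAck) (j : ℕ) : ∀ y : ℕ, 1 ≤ y →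
    2 * A j y + y * (y + 1) ≤ 2 * 2 ^ (Th j y + 1) + 2 * Th j y + Th j y * (Th j y + 1) := by
  induction j with
  | zero =>
    intro y _
    simp only [A, Th]
    ring_nf
    exact le_refl _
  | succ j ih =>
    intro y hy
    have h1 : y + 1 ≤ (A j)^[y] 0 := ThB_iter h j y hy
    have h2 := ih ((A j)^[y] 0) (by omega)
    have h3 : A (j + 1) y = y + 1 + A j ((A j)^[y] 0) := by
      rw [A, Function.iterate_succ_apply']
    have h4 : Th (j + 1) y = Th j ((A j)^[y] 0) := rfl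
    rw [h3, h4]
    have h5 : (y + 1) * (y + 1 + 1) ≤ (A j)^[y] 0 * ((A j)^[y] 0 + 1) :=
      Nat.mul_le_mul h1 (by omega)
    nlinarith [h2, h5]

private theorem ThB_pow (w : ℕ) : 2 * w + w * (w + 1) < 2 ^ (w + 2) := by
  induction w with
  | zero => norm_num
  | succ w ih =>
    rcases Nat.lt_or_ge w 2 with h0 | h0
    · interval_cases w <;> norm_num
    · have e : 2 ^ (w + 1 + 2) = 2 * 2 ^ (w + 2) := by ring
      rw [e]
      nlinarith [ih]

/-- `log2 (B k (t+1)) ≤ Th (k-2) t + 1`. -/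
theorem thm_ThB (h1 : StAck) : StThB := by
  intro k t hk ht
  obtain ⟨j, rfl⟩ : ∃ j, k = j + 3 := ⟨k - 3, by omega⟩
  have e1 : j + 3 - 2 = j + 1 := by omega
  have e2 : B (j + 3) (t + 1) = A j ((A j)^[t] 0) := by
    rw [B, Nat.add_sub_cancel, Function.iterate_succ_apply']
  have e3 : Th (j + 1) t = Th j ((A j)^[t] 0) := rfl
  rw [e1, e2, e3]
  have h2 : t + 1 ≤ (A j)^[t] 0 := ThB_iter h1 j t ht
  have h3 := ThB_main h1 j ((A j)^[t] 0) (by omega)
  have h4 := ThB_pow (Th j ((A j)^[t] 0))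
  have h5 : A j ((A j)^[t] 0) < 2 ^ (Th j ((A j)^[t] 0) + 1 + 1) := by
    have e : 2 ^ (Th j ((A j)^[t] 0) + 2) = 2 * 2 ^ (Th j ((A j)^[t] 0) + 1) := by ring
    have e' : 2 ^ (Th j ((A j)^[t] 0) + 1 + 1) = 2 * 2 ^ (Th j ((A j)^[t] 0) + 1) := by ring
    rw [e] at h4
    rw [e']
    have h6 : 0 ≤ (A j)^[t] 0 * ((A j)^[t] 0 + 1) := Nat.zero_le _
    omega
  exact Nat.lt_succ_iff.mp (Nat.log_lt_of_lt_pow (by
    have := h1.2.1 j ((A j)^[t] 0)
    omega) h5)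

end Pool.Agent.AK
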