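import Pool.Agent.AK.B3

set_option autoImplicit false

/-!
# AK, module UA: `n ↦ alk (k n) n` is computed in polynomial time if `k` is
-/

namespace Pool.Agent.AK

open Pool.Agent.PolyTime

/-- `n ↦ alk (k n) n` is computed in polynomial time from unary numbers if `k` is. -/
def StUA : Prop := ∀ k : ℕ → ℕ, UPoly k → (∀ n, 3 ≤ k n) → UPoly (fun n => alk (k n) n)

/-- `alk k n ≤ n / 2`. -/
def StHalf : Prop := ∀ k n : ℕ, 3 ≤ k → 4 ≤ n → 2 * alk k n ≤ n

/-- The iteration of a table. -/
def UA_it (T : List ℕ) (i : ℕ) : ℕ := (fun z => T.getD z 0)^[i] 0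

/-- The next table. -/
def UA_st (n : ℕ) (T : List ℕ) : List ℕ := (List.range (n + 1)).map fun x => min (x + 1 + UA_it T (min x n + 1)) n

theorem UA_tb (j n : ℕ) : B3_tb (j + 1) n = UA_st n (B3_tb j n) := rfl

theorem UA_getD_size (T : List ℕ) (z : ℕ) : size (T.getD z 0) ≤ size T := by
  by_cases h : z < T.length
  · rw [List.getD_eq_getElem _ _ h]
    exact size_mem_le (List.getElem_mem h)
  · rw [List.getD_eq_default _ _ (by omega)]
    exact (size_nat_self 0).trans (Nat.zero_le _)

theorem UA_it_size (T : List ℕ) (i : ℕ) : size (UA_it T i) ≤ size T := by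
  unfold UA_it
  cases i with
  | zero => exact (size_nat_self 0).trans (Nat.zero_le _)
  | succ i =>
    rw [Function.iterate_succ_apply']
    exact UA_getD_size _ _

theorem UA_pt_it : PolyTime (fun p : (List Unit × List ℕ) × ℕ => UA_it p.1.2 (min p.2 p.1.1.length + 1)) := by
  unfold UA_it
  refine PolyTime.iterate (f := fun (p : (List Unit × List ℕ) × ℕ) z => p.1.2.getD z 0)
    (n := fun p => min p.2 p.1.1.length + 1) (g := fun _ => 0) (B := fun p => size p.1.2) ?_ ?_ ?_
    (PolyTime.const 0) ?_ ?_
  · exact PolyTime.getD (by fun_prop) (by fun_prop) (PolyTime.const 0)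
  · fun_prop
  · exact ((pbd_length (l := fun p : (List Unit × List ℕ) × ℕ => p.1.1) (by fun_prop)).add
      (PBd.const 1)).mono (fun p => by omega)
  · exact PolyTime.pbd (f := fun p : (List Unit × List ℕ) × ℕ => p.1.2) (by fun_prop)
  · intro p i _
    exact UA_it_size _ _

theorem UA_pt_st : PolyTime (fun p : List Unit × List ℕ => UA_st p.1.length p.2) := by
  unfold UA_st
  refine PolyTime.map (l := fun p : List Unit × List ℕ => List.range (p.1.length + 1))
    (g := fun p x => min (x + 1 + UA_it p.2 (min x p.1.length + 1)) p.1.length) ?_ ?_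
  · exact PolyTime.range (by fun_prop) ((pbd_length (l := fun p : List Unit × List ℕ => p.1) (by fun_prop)).add (PBd.const 1))
  · have h2 := UA_pt_it
    fun_prop

theorem UA_tb_eq (n i : ℕ) : (UA_st n)^[i] (B3_tb 0 n) = B3_tb i n := by
  induction i with
  | zero => rfl
  | succ i ih => rw [Function.iterate_succ_apply', ih, UA_tb]

theorem UA_tb_size (i n : ℕ) : size (B3_tb i n) ≤ (n + 1) * (2 * n + 1) := by
  refine (size_le_of_forall (B := n) ?_).trans (by rw [B3_len])
  intro a ha
  obtain ⟨z, hz, rfl⟩ := List.getElem_of_mem ha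
  have h := B3_le i n z
  rw [List.getD_eq_getElem _ _ hz] at h
  exact (size_nat_self _).trans h

theorem UA_pt_tb : PolyTime (fun p : List Unit × ℕ => B3_tb (min p.2 p.1.length) p.1.length) := by
  have h0 : PolyTime (fun p : List Unit × ℕ => B3_tb 0 p.1.length) := (B3_pt 0).comp (f := fun p : List Unit × ℕ => p.1) (by fun_prop)
  have hl : PBd (fun p : List Unit × ℕ => p.1.length) := pbd_length (l := fun p : List Unit × ℕ => p.1) (by fun_prop)
  refine (PolyTime.iterate (f := fun (p : List Unit × ℕ) T => UA_st p.1.length T)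
    (n := fun p => min p.2 p.1.length) (g := fun p => B3_tb 0 p.1.length)
    (B := fun p => (p.1.length + 1) * (2 * p.1.length + 1)) ?_ ?_ ?_ h0 ?_ ?_).congr ?_
  · exact UA_pt_st.comp (f := fun q : (List Unit × ℕ) × List ℕ => (q.1.1, q.2)) (by fun_prop)
  · fun_prop
  · exact hl.mono (fun p => by omega)
  · exact (hl.add (PBd.const 1)).mul (((PBd.const 2).mul hl).add (PBd.const 1))
  · intro p i _
    rw [UA_tb_eq]
    exact UA_tb_size i _
  · intro p
    exact UA_tb_eq _ _

/-- The number of iterations. -/
def UA_al (n : ℕ) (T : List ℕ) : ℕ := ((List.range (n + 1)).find? fun q =>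
  decide (q = 0 ∧ n = 0) || decide (1 ≤ q ∧ n ≤ UA_it T (min (q - 1) n + 1))).getD 0

theorem UA_pt_al : PolyTime (fun p : List Unit × List ℕ => UA_al p.1.length p.2) := by
  unfold UA_al
  have h3 : PolyTime (fun p : (List Unit × List ℕ) × ℕ => UA_it p.1.2 (min (p.2 - 1) p.1.1.length + 1)) :=
    UA_pt_it.comp (f := fun p : (List Unit × List ℕ) × ℕ => (p.1, p.2 - 1)) (by fun_prop)
  refine PolyTime.option_getD (PolyTime.find? (l := fun p : List Unit × List ℕ => List.range (p.1.length + 1))
    (p := fun p q => decide (q = 0 ∧ p.1.length = 0) || decide (1 ≤ q ∧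
      p.1.length ≤ UA_it p.2 (min (q - 1) p.1.length + 1))) ?_ ?_)
    (PolyTime.const 0)
  · exact PolyTime.range (by fun_prop) ((pbd_length (l := fun p : List Unit × List ℕ => p.1) (by fun_prop)).add (PBd.const 1))
  · fun_prop

theorem UA_alk (h1 : StAck) (k n : ℕ) (hk : 3 ≤ k) : alk k n = alk (min (k - 3) n + 3) n := by
  rcases Nat.lt_or_ge (k - 3) n with h | h
  · rw [min_eq_left h.le]
    congr 1
    omega
  · rw [min_eq_right h]
    have key : ∀ j, n ≤ j → alk (j + 3) n = if n = 0 then 0 else 1 := by
      intro j hj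
      split_ifs with h0
      · apply Nat.le_zero.1
        apply Nat.sInf_le
        show n ≤ B (j + 3) 0
        omega
      · have h2 : alk (j + 3) n ≤ 1 := by
          apply Nat.sInf_le
          show n ≤ B (j + 3) 1
          have h3 : B (j + 3) 1 = A j 0 := rfl
          have h4 : ∀ i, i + 2 ≤ A i 0 := by
            intro i
            induction i with
            | zero => exact h1.2.1 0 0
            | succ i ih =>
              have h5 : A (i + 1) 0 = 0 + 1 + A i 0 := rfl
              omega
          have := h4 j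
          omega
        have h3 : alk (j + 3) n ≠ 0 := by
          intro h4
          have hne : ({q | n ≤ B (j + 3) q} : Set ℕ).Nonempty := ⟨n, h1.2.2.2.2.2.1 j n⟩
          have h5 : n ≤ B (j + 3) (alk (j + 3) n) := Nat.sInf_mem hne
          rw [h4] at h5
          have h6 : B (j + 3) 0 = 0 := rfl
          omega
        omega
    have h2 : k = k - 3 + 3 := by omega
    rw [h2, key (k - 3) h, key n le_rfl]

theorem thm_UA (h1 : StAck) : StUA := by
  intro k hk hk3
  have hn : PolyTime (fun l : List Unit => B3_tb (min (k l.length - 3) l.length) l.length) := by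
    have h2 : PolyTime (fun l : List Unit => k l.length - 3) := PolyTime.sub hk (PolyTime.const 3)
    exact UA_pt_tb.comp (f := fun l : List Unit => (l, k l.length - 3)) (PolyTime.id.prodMk h2)
  have h3 : PolyTime (fun l : List Unit => UA_al l.length (B3_tb (min (k l.length - 3) l.length) l.length)) :=
    UA_pt_al.comp (f := fun l : List Unit => (l, B3_tb (min (k l.length - 3) l.length) l.length)) (PolyTime.id.prodMk hn)
  refine h3.congr (fun l => ?_)
  show _ = alk (k l.length) l.length
  rw [UA_alk h1 _ _ (hk3 _), B3_al_eq h1]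
  rfl

theorem thm_Half (h1 : StAck) : StHalf := by
  intro k n hk hn
  obtain ⟨j, rfl⟩ : ∃ j, k = j + 3 := ⟨k - 3, by omega⟩
  have hB : ∀ q, B (j + 3) q = (A j)^[q] 0 := fun q => rfl
  have hgr : ∀ q, 2 ≤ q → 2 * q + 1 ≤ (A j)^[q] 0 := by
    intro q hq
    induction q, hq using Nat.le_induction with
    | base =>
      show 5 ≤ A j (A j 0)
      have h2 := h1.2.1 j 0
      have h3 := h1.2.1 j (A j 0)
      omega
    | succ q _ ih =>
      rw [Function.iterate_succ_apply']
      have h2 := h1.2.1 j ((A j)^[q] 0)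
      omega
  have hle : alk (j + 3) n ≤ n / 2 := by
    apply Nat.sInf_le
    show n ≤ B (j + 3) (n / 2)
    rw [hB]
    have := hgr (n / 2) (by omega)
    omega
  omega

end Pool.Agent.AK
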