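import Pool.Agent.AK.StT

set_option autoImplicit false

/-!
# AK, module Wf: correctness of the nested threshold formula
-/

namespace Pool.Agent.AK

theorem thm_Wf (h1 : StTab) (h2 : StChain) (h3 : StWn) (h4 : StLev3) : StWf := by
  intro m t k D e ht he hk hmt hD hw
  obtain ⟨j, hj1, -, hlev, hrc, hjt, hjk⟩ := h4 m t ht
  have hjk' : j + 2 ≤ k := by
    rcases hmt with h | h
    · have := hjt h
      omega
    · exact hjk k hk h
  obtain ⟨hM, hW, hd⟩ := h3 m j t D e hD hw (he.trans hrc)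
  have hWf : Wf m t D e = Wn (tabs m j) t D e := by
    unfold Wf
    rw [hlev]
  rw [hWf]
  refine ⟨?_, hM, hW.trans hjk', hd⟩
  obtain ⟨i, rfl⟩ : ∃ i, j = i + 1 := ⟨j - 1, by omega⟩
  refine ⟨(ch (tab m i) t).1 ++ [Wn (tabs m i) (ch (tab m i) t).2 D e], rfl, ?_⟩
  rw [List.length_append, List.length_singleton, (h2 m i (tab m i) t (h1.2 m i)).1]

end Pool.Agent.AK
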