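import Pool.Agent.AK.StT

set_option autoImplicit false

/-!
# AK, module Wn: correctness of the nested formulas
-/

namespace Pool.Agent.AK

open Pool.Agent.PolyTime

private theorem Wn_dens (t y : ℕ) (x : ℚ) :
    (1 / 2 : ℚ) ^ t ≤ (1 + (1 - (1 / 2 : ℚ) ^ y + x)) / 2 ^ (t + 1) ↔ (1 / 2 : ℚ) ^ y ≤ x := by
  have h2 : (0 : ℚ) < 2 ^ (t + 1) := by positivity
  have h3 : (1 / 2 : ℚ) ^ t * 2 ^ (t + 1) = 2 := by
    rw [pow_succ, ← mul_assoc, ← mul_pow]
    norm_num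
  rw [le_div_iff₀ h2, h3]
  constructor <;> intro h <;> linarith

private theorem Wn_base (y e : ℕ) (x : ℚ) (h : e ≤ y) :
    (1 / 2 : ℚ) ^ y ≤ x * (1 / 2 : ℚ) ^ (y - e) ↔ (1 / 2 : ℚ) ^ e ≤ x := by
  have h1 : (1 / 2 : ℚ) ^ y = (1 / 2 : ℚ) ^ e * (1 / 2 : ℚ) ^ (y - e) := by
    rw [← pow_add, Nat.add_sub_cancel' h]
  rw [h1]
  exact mul_le_mul_iff_left₀ (by positivity)

theorem thm_Wn (h1 : StTab) (h2 : StChain) (h3 : StOhDens) (h4 : StShape) (h5 : StCjDens)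
    (h6 : StSmall) : StWn := by
  intro m j
  induction j with
  | zero =>
    intro y D e hM hw he
    have he' : e ≤ y := he
    change Mono (cj [D, forced (y - e)]) ∧ width (cj [D, forced (y - e)]) ≤ 0 + 2 ∧
      ((1 / 2 : ℚ) ^ y ≤ dens (cj [D, forced (y - e)]) ↔ (1 / 2 : ℚ) ^ e ≤ dens D)
    have hf := h4.2.2.2.2.1 (y - e)
    refine ⟨(h4.2.2.1 _ ?_).2, (h4.2.1 _ 2 ?_).2, ?_⟩
    · intro ψ hψ
      rcases List.mem_pair.1 hψ with rfl | rfl
      · exact hM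
      · exact hf.1
    · intro ψ hψ
      rcases List.mem_pair.1 hψ with rfl | rfl
      · exact hw
      · exact hf.2.1.trans (by norm_num)
    · rw [(h5 _).1, List.map_cons, List.map_cons, List.map_nil, List.prod_cons, List.prod_cons,
        List.prod_nil, mul_one, (h6.1 _).1]
      exact Wn_base y e _ he'
  | succ j ih =>
    intro y D e hM hw he
    have he' : e ≤ rc (tabs m j) (ch (tab m j) y).2 := he
    obtain ⟨i1, i2, i3⟩ := ih (ch (tab m j) y).2 D e hM hw he'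
    change Mono (oh ((ch (tab m j) y).1 ++ [Wn (tabs m j) (ch (tab m j) y).2 D e])) ∧
      width (oh ((ch (tab m j) y).1 ++ [Wn (tabs m j) (ch (tab m j) y).2 D e])) ≤ j + 1 + 2 ∧
      ((1 / 2 : ℚ) ^ y ≤ dens (oh ((ch (tab m j) y).1 ++ [Wn (tabs m j) (ch (tab m j) y).2 D e])) ↔
        (1 / 2 : ℚ) ^ e ≤ dens D)
    obtain ⟨c1, c2, -, -, -, c6⟩ := h2 m j (tab m j) y (h1.2 m j)
    have hp : ∀ ψ ∈ (ch (tab m j) y).1 ++ [Wn (tabs m j) (ch (tab m j) y).2 D e],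
        Mono ψ ∧ width ψ ≤ j + 2 := by
      intro ψ hψ
      rw [List.mem_append, List.mem_singleton] at hψ
      rcases hψ with h | rfl
      · exact c6 ψ h
      · exact ⟨i1, i2⟩
    refine ⟨(h4.2.2.1 _ fun ψ hψ => (hp ψ hψ).1).1, ?_, ?_⟩
    · refine (h4.2.1 _ _ fun ψ hψ => (hp ψ hψ).2).1.trans ?_
      rw [max_le_iff]
      constructor <;> omega
    · rw [h3, List.length_append, c1, List.length_singleton, List.map_append, List.sum_append, c2,
        List.map_singleton, List.sum_singleton, Wn_dens]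
      exact i3

end Pool.Agent.AK
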