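import Pool.Agent.AK.StT
import Pool.Agent.AK.PtT

set_option autoImplicit false

/-!
# AK, module WnSz: the nested formulas have polynomial size
-/

namespace Pool.Agent.AK

open Pool.Agent.PolyTime

private theorem WnSz_ind (h1 : StMsr) (h3 : StTab) (h4 : StChain) (m U s0 : ℕ) (D : CNF) (e : ℕ)
    (hs : ∀ i ≤ U, size (cj [D, forced i]) ≤ s0) : ∀ j, (∀ i < j, size (tab m i) ≤ U) →
    (j + 2) * (2 * m + 2) ≤ U → ∀ y, y ≤ U →
    (Wn (tabs m j) y D e).length ≤ s0 + j * (8 * (U + 3) ^ 2) ∧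
    lts (Wn (tabs m j) y D e) ≤ (j + 1) * (s0 + j * (8 * (U + 3) ^ 2)) ∧
    mxn (Wn (tabs m j) y D e) ≤ s0 + j * (8 * (U + 3) ^ 2) := by
  intro j
  induction j with
  | zero =>
    intro _ _ y hy
    obtain ⟨a1, a2, a3, -⟩ := h1.2 (cj [D, forced (y - e)])
    have a4 := hs (y - e) (by omega)
    change (cj [D, forced (y - e)]).length ≤ _ ∧ lts (cj [D, forced (y - e)]) ≤ _ ∧
      mxn (cj [D, forced (y - e)]) ≤ _
    refine ⟨by omega, by omega, by omega⟩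
  | succ j ih =>
    intro hT hm y hy
    have hm' : (j + 2) * (2 * m + 2) ≤ U := (Nat.mul_le_mul_right _ (by omega)).trans hm
    have hy' : (ch (tab m j) y).2 ≤ U := ((h4 m j (tab m j) y (h3.2 m j)).2.2.2.2.1).trans hm'
    obtain ⟨b1, b2, b3⟩ := ih (fun i hi => hT i (by omega)) hm' (ch (tab m j) y).2 hy'
    obtain ⟨i1, i2, -⟩ := PtT_inv (tab m j) y
    have hTj := hT j (by omega)
    obtain ⟨c1, c2, c3⟩ := h1.1 (ch (tab m j) y).1 (Wn (tabs m j) (ch (tab m j) y).2 D e) (U + 1)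
      (by omega) (fun ψ hψ => (i2 ψ hψ).trans (by omega))
    change (oh ((ch (tab m j) y).1 ++ [Wn (tabs m j) (ch (tab m j) y).2 D e])).length ≤ _ ∧
      lts (oh ((ch (tab m j) y).1 ++ [Wn (tabs m j) (ch (tab m j) y).2 D e])) ≤ _ ∧
      mxn (oh ((ch (tab m j) y).1 ++ [Wn (tabs m j) (ch (tab m j) y).2 D e])) ≤ _
    have e1 : U + 1 + 2 = U + 3 := rfl
    rw [e1] at c1 c2 c3
    generalize hP : 8 * (U + 3) ^ 2 = P at *
    generalize hW : oh ((ch (tab m j) y).1 ++ [Wn (tabs m j) (ch (tab m j) y).2 D e]) = W at *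
    generalize hw : Wn (tabs m j) (ch (tab m j) y).2 D e = w at *
    have e2 : (j + 1) * P = j * P + P := by ring
    rw [e2]
    refine ⟨by omega, ?_, by omega⟩
    have e3 : (j + 1 + 1) * (s0 + (j * P + P)) =
        (j + 1) * (s0 + j * P) + (s0 + j * P) + P + (j + 1) * P := by ring
    rw [e3]
    omega

theorem thm_WnSz (h1 : StMsr) (_h2 : StRc) (h3 : StTab) (h4 : StChain) : StWnSz := by
  intro m j y U s0 D e hT hm hy hs
  obtain ⟨b1, b2, b3⟩ := WnSz_ind h1 h3 h4 m U s0 D e hs j hT hm y hy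
  obtain ⟨-, -, -, b4⟩ := h1.2 (Wn (tabs m j) y D e)
  refine b4.trans ?_
  generalize (Wn (tabs m j) y D e).length = a at *
  generalize lts (Wn (tabs m j) y D e) = b at *
  generalize mxn (Wn (tabs m j) y D e) = c at *
  generalize s0 + j * (8 * (U + 3) ^ 2) = Z at *
  have h5 : b * (1 + c) ≤ ((j + 1) * Z) * (1 + Z) := Nat.mul_le_mul b2 (by omega)
  have h6 : a + ((j + 1) * Z) * (1 + Z) ≤ (Z + 1) ^ 2 * (j + 2) ^ 2 := by
    have h7 : a + ((j + 1) * Z) * (1 + Z) ≤ Z + ((j + 1) * Z) * (1 + Z) := by omega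
    refine h7.trans ?_
    nlinarith [Nat.zero_le (j * Z), Nat.zero_le (j * Z ^ 2), Nat.zero_le (j ^ 2 * Z ^ 2),
      Nat.zero_le (j ^ 2 * Z), Nat.zero_le (j ^ 2), Nat.zero_le (Z ^ 2)]
  calc 24 * (a + b * (1 + c)) ≤ 24 * ((Z + 1) ^ 2 * (j + 2) ^ 2) := by omega
    _ ≤ 24 * (Z + 1) ^ 2 * (j + 2) ^ 2 * 4 := by
      rw [mul_assoc 24]
      exact Nat.le_mul_of_pos_right _ (by norm_num)

end Pool.Agent.AK
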