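import Pool.Agent.AK.HAll
import Pool.Agent.AK.StT
import Pool.Agent.AK.Wn
import Pool.Agent.AK.Rc
import Pool.Agent.AK.ThB
import Pool.Agent.AK.Lev3
import Pool.Agent.AK.Wf
import Pool.Agent.AK.Msr
import Pool.Agent.AK.WnSz
import Pool.Agent.AK.PtWf
import Pool.Agent.AK.Bd4
import Pool.Agent.AK.Fin4
import Pool.Agent.AK.PtFin4
import Pool.Agent.AK.HT
import Pool.Agent.AK.UA

set_option autoImplicit false

/-! # AK, third wave: all statements without hypotheses -/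

namespace Pool.Agent.AK

open Pool.Agent.PolyTime

theorem thm_HTi (h1 : StHT) (h2 : StRB) (h3 : StRC) : StHTi := by
  intro k t ht hd
  constructor
  · rintro ⟨G, hG, hc⟩
    obtain ⟨R, hR, hR'⟩ := h1 k t ht hd
    refine h2 (fun p => G (R p)) (hG.comp hR) (fun φ N hN => ?_)
    obtain ⟨r1, r2, r3⟩ := hR' φ N hN
    rw [hc _ r2 r1, r3]
  · intro h
    obtain ⟨G, hG, hc⟩ := (h3 h).2 t ht
    exact ⟨G, hG, fun φ _ _ => hc φ⟩

theorem all_Rc : StRc := thm_Rc all_Tab all_Chain all_Ack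
theorem all_Wn : StWn := thm_Wn all_Tab all_Chain all_OhDens all_Shape all_CjDens all_Small
theorem all_ThB : StThB := thm_ThB all_Ack
theorem all_Lev3 : StLev3 := thm_Lev3 all_Tab all_Rc all_Ack
theorem all_Wf : StWf := thm_Wf all_Tab all_Chain all_Wn all_Lev3
theorem all_Msr : StMsr := thm_Msr thm_Wt
theorem all_WnSz : StWnSz := thm_WnSz all_Msr all_Rc all_Tab all_Chain
theorem all_PtWf : StPtWf := thm_PtWf thm_PtC all_PtT all_Sz all_Tab all_Chain all_Rc all_Lev3 all_WnSz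
theorem all_Bd4 : StBd4 := thm_Bd4 all_PtWf
theorem all_Fin4 : StFin4 := thm_Fin4 all_Wf all_ThB all_Fpad all_DensB
theorem all_PtFin4 : StPtFin4 := thm_PtFin4 thm_PtC all_PtWf thm_RN
theorem all_HT : StHT := thm_HT thm_Red all_Bd4 all_Fin4 all_PtFin4
theorem all_HTi : StHTi := thm_HTi all_HT all_RB RAll_C

/-- One more step of the chain gives a power of two. -/
theorem TAll_log (k q n : ℕ) (h : n ≤ B k q) : n ≤ Nat.log 2 (B k (q + 1)) := by
  have h1 : B k (q + 1) = A (k - 3) (B k q) := by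
    unfold B
    rw [Function.iterate_succ_apply']
  have h2 : 2 ^ (n + 1) ≤ B k (q + 1) := by
    rw [h1]
    exact (Nat.pow_le_pow_right (by norm_num) (by omega)).trans (thm_N01.2.2.2.2.1 (k - 3) (B k q))
  have h3 : n + 1 ≤ Nat.log 2 (B k (q + 1)) := by
    have h4 : 2 ^ (n + 1) ≠ 0 := pow_ne_zero _ (by norm_num)
    refine Nat.le_log_of_pow_le (by norm_num) h2
  omega

/-- All width functions: `t n = alk (k n) n`. -/
theorem all_uni (k : ℕ → ℕ) (hk : UPoly k) (h3 : ∀ n, 3 ≤ k n) : UPoly (fun n => alk (k n) n) ∧ ∃ d n0 : ℕ, ∀ n, n0 ≤ n →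
    3 ≤ k n ∧ 1 ≤ alk (k n) n ∧ n ≤ Nat.log 2 (B (k n) (alk (k n) n + 1)) ^ d ∧ n ≤ (n - alk (k n) n) ^ d := by
  refine ⟨thm_UA all_Ack k hk h3, 2, 4, fun n hn => ?_⟩
  have h5 : n ≤ B (k n) (alk (k n) n) := (all_N11.2.2.2.1 (k n) n (h3 n)).1
  have h6 : 1 ≤ alk (k n) n := by
    by_contra hcon
    have h7 : alk (k n) n = 0 := by omega
    rw [h7] at h5
    have h8 : B (k n) 0 = 0 := rfl
    omega
  have h10 := thm_Half all_Ack (k n) n (h3 n) hn
  refine ⟨h3 n, h6, ?_, ?_⟩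
  · exact (TAll_log (k n) _ n h5).trans (Nat.le_self_pow (by norm_num) _)
  · generalize alk (k n) n = a at h10
    have h11 : n ≤ 2 * (n - a) := by omega
    have h12 : 2 ≤ n - a := by omega
    calc n ≤ 2 * (n - a) := h11
      _ ≤ (n - a) * (n - a) := Nat.mul_le_mul_right _ h12
      _ = (n - a) ^ 2 := (sq _).symm

/-- The row `t = 1`: width `al n`. -/
theorem all_row : UPoly (fun _ => 1) ∧ ∃ d n0 : ℕ, ∀ n, n0 ≤ n →
    3 ≤ al n ∧ 1 ≤ 1 ∧ n ≤ Nat.log 2 (B (al n) (1 + 1)) ^ d ∧ n ≤ (n - 1) ^ d := by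
  refine ⟨PolyTime.const 1, 2, 3, fun n hn => ?_⟩
  obtain ⟨a1, a2⟩ := all_N11.2.2.2.2.1 n
  refine ⟨by omega, le_rfl, ?_, ?_⟩
  · have h1 : B (al n) 2 = A (al n - 3) (A (al n - 3) 0) := rfl
    have h2 : A (al n - 3) 0 = al n - 1 := by
      rw [thm_N01.2.2.1]
      omega
    obtain ⟨j, hj⟩ : ∃ j, al n - 3 = j + 1 := ⟨al n - 4, by omega⟩
    have h3 : A (j + 1) (al n - 1) = (al n - 1) + 1 + (A j)^[(al n - 1) + 1] 0 := rfl
    have h4 : (A j)^[(al n - 1) + 1] 0 = A j ((A j)^[al n - 1] 0) := Function.iterate_succ_apply' _ _ _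
    have h5 : (A j)^[al n - 1] 0 = B (al n - 1) (al n - 1) := by
      unfold B
      have : al n - 1 - 3 = j := by omega
      rw [this]
    have h6 : 2 ^ (n + 1) ≤ B (al n) (1 + 1) := by
      change 2 ^ (n + 1) ≤ B (al n) 2
      rw [h1, h2, hj, h3, h4, h5]
      have h7 := thm_N01.2.2.2.2.1 j (B (al n - 1) (al n - 1))
      have h8 : 2 ^ (n + 1) ≤ 2 ^ (B (al n - 1) (al n - 1) + 1) :=
        Nat.pow_le_pow_right (by norm_num) (by omega)
      omega
    have h9 : n + 1 ≤ Nat.log 2 (B (al n) (1 + 1)) := Nat.le_log_of_pow_le (by norm_num) h6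
    exact (by omega : n ≤ Nat.log 2 (B (al n) (1 + 1))).trans (Nat.le_self_pow (by norm_num) _)
  · obtain ⟨s, rfl⟩ : ∃ s, n = s + 3 := ⟨n - 3, by omega⟩
    have h1 : s + 3 - 1 = s + 2 := by omega
    rw [h1]
    nlinarith

end Pool.Agent.AK
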